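import Pool.Agent.Lib.MP_2a5e5c_nt.Defs

/-!
# SUN, module PIso: polynomial isogeny data, the isogeny of degree 3

PROOF. `map`: the coefficient of `X^d` stays a unit, so it is `≠ 0` in a nontrivial ring and
`natDegree_map_le` gives the degree; `IsCoprime.map`; map the equation (`derivative_map`,
`Polynomial.map` of `fC q t` is `fC (σ q) (σ t)`). `piso_eta`: clear.
`piso_three`: put `P = N³ + i₃ N² D² + a N D⁴ + a² D⁶` (`3 i₃ = 1`), `N3 = -i₃ P`,
`W = N'D - 2ND'`. Degrees: `deg P = 3d` with leading coefficient `(N.coeff d)³`, the other terms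
have degree `< 3d` since `2 deg D < d`; `i₃` is a unit. `IsCoprime (N D) N3`: modulo `N` we have
`N3 ≡ -i₃ a² D⁶` (unit times power of `D`), modulo `D` `N3 ≡ -i₃ N³`. Equation:
`N3' (ND) - 2 N3 (ND)' = -i₃ (N³ - a N D⁴ - 2a² D⁶) W` (`ring`), and
`(N³ - aND⁴ - 2a²D⁶)² (N³ + q D²(N + aD²)²) = P³ - 3q N²D² (P - 3b N²D²)²` (from `4q = 1`,
`3 i₃ = 1`, `27(a+b) = 1`, i.e. `3b = i₃² - 3a`, `9 i₃ = 3`), which is
`-27 (N3³ + q N²D² (N3 + b N²D²)²)`; `sh² = -3`. To avoid heavy terms use `three_alg`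
with `x = N`, `y = D²` (it can be checked by `linear_combination`, or prove first
`b = i3³ - a` and expand).
-/

namespace Pool.Agent.MP_2a5e5c_nt

open Polynomial

/-- `x ↦ N / D²` is (up to the factor `rho` for the invariant differentials) an isogeny of degree
`d` from the curve of parameter `t` to the curve of parameter `s`. -/
structure PIso {A : Type*} [CommRing A] (q t s rho : A) (d : ℕ) (N D : A[X]) : Prop where
  degN : N.natDegree = d
  lead : IsUnit (N.coeff d)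
  degD : 2 * D.natDegree < d
  cop : IsCoprime N D
  eq : fC q t * (derivative N * D - 2 * N * derivative D) ^ 2 =
    C rho ^ 2 * (N ^ 3 + C q * D ^ 2 * (N + C s * D ^ 2) ^ 2)

/-- The numerator of the composition with the isogeny of degree 3. -/
noncomputable def N3 {A : Type*} [CommRing A] (i3 a : A) (N D : A[X]) : A[X] :=
  C (-i3) * (N ^ 3 + C i3 * N ^ 2 * D ^ 2 + C a * N * D ^ 4 + C a ^ 2 * D ^ 6)

theorem fC_map {A B : Type*} [CommRing A] [CommRing B] (σ : A →+* B) (q t : A) :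
    (fC q t).map σ = fC (σ q) (σ t) := by
  unfold fC
  simp only [Polynomial.map_add, Polynomial.map_mul, Polynomial.map_pow, Polynomial.map_X,
    Polynomial.map_C]

theorem PIso.map {A B : Type*} [CommRing A] [CommRing B] [Nontrivial B] (σ : A →+* B)
    {q t s rho : A} {d : ℕ} {N D : A[X]} (h : PIso q t s rho d N D) :
    PIso (σ q) (σ t) (σ s) (σ rho) d (N.map σ) (D.map σ) := by
  have hlead : (N.map σ).coeff d = σ (N.coeff d) := Polynomial.coeff_map σ d
  have hu : IsUnit ((N.map σ).coeff d) := by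
    rw [hlead]
    exact h.lead.map σ
  refine ⟨?_, hu, ?_, ?_, ?_⟩
  · refine le_antisymm (Polynomial.natDegree_map_le.trans h.degN.le) ?_
    exact Polynomial.le_natDegree_of_ne_zero hu.ne_zero
  · have h1 : (D.map σ).natDegree ≤ D.natDegree := Polynomial.natDegree_map_le
    have h2 := h.degD
    omega
  · exact h.cop.map (Polynomial.mapRingHom σ)
  · have h1 := congrArg (Polynomial.map σ) h.eq
    simp only [Polynomial.map_add, Polynomial.map_sub, Polynomial.map_mul, Polynomial.map_pow,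
      Polynomial.map_C, fC_map, Polynomial.map_ofNat, ← Polynomial.derivative_map] at h1
    exact h1

theorem piso_eta {A : Type*} [CommRing A] [Nontrivial A] (q t : A) :
    PIso q t t 1 1 X 1 := by
  refine ⟨Polynomial.natDegree_X, ?_, ?_, isCoprime_one_right, ?_⟩
  · rw [Polynomial.coeff_X_one]
    exact isUnit_one
  · rw [Polynomial.natDegree_one]
    omega
  · unfold fC
    simp

theorem three_alg {A : Type*} [CommRing A] {q a b i3 x y : A} (h4 : 4 * q = 1)
    (h3 : 3 * i3 = 1) (hab : 27 * (a + b) = 1) :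
    i3 ^ 2 * (x ^ 3 - a * x * y ^ 2 - 2 * a ^ 2 * y ^ 3) ^ 2 *
        (x ^ 3 + q * y * (x + a * y) ^ 2) =
      -3 * ((-i3 * (x ^ 3 + i3 * x ^ 2 * y + a * x * y ^ 2 + a ^ 2 * y ^ 3)) ^ 3 +
        q * (x ^ 2 * y) * (-i3 * (x ^ 3 + i3 * x ^ 2 * y + a * x * y ^ 2 + a ^ 2 * y ^ 3) +
          b * (x ^ 2 * y)) ^ 2) := by
  obtain ⟨S, hS⟩ : ∃ S, S = x ^ 3 - a * x * y ^ 2 - 2 * a ^ 2 * y ^ 3 := ⟨_, rfl⟩
  obtain ⟨n, hn⟩ : ∃ n, n = -i3 * (x ^ 3 + i3 * x ^ 2 * y + a * x * y ^ 2 + a ^ 2 * y ^ 3) :=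
    ⟨_, rfl⟩
  obtain ⟨r, hr⟩ : ∃ r, r = n + b * (x ^ 2 * y) := ⟨_, rfl⟩
  have e1 : 9 * n = -(3 * x ^ 3 + x ^ 2 * y + 3 * a * x * y ^ 2 + 3 * a ^ 2 * y ^ 3) := by
    rw [hn]
    linear_combination (-(3 * x ^ 3 + 3 * a * x * y ^ 2 + 3 * a ^ 2 * y ^ 3 +
      (3 * i3 + 1) * x ^ 2 * y)) * h3
  have e2 : 27 * r = -3 * (3 * x ^ 3 + x ^ 2 * y + 3 * a * x * y ^ 2 + 3 * a ^ 2 * y ^ 3) +
      (1 - 27 * a) * (x ^ 2 * y) := by
    rw [hr]
    linear_combination 3 * e1 + x ^ 2 * y * hab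
  rw [← hS, ← hn, ← hr]
  have f1 : 2916 * (i3 ^ 2 * S ^ 2 * (x ^ 3 + q * y * (x + a * y) ^ 2)) =
      S ^ 2 * (324 * x ^ 3 + 81 * y * (x + a * y) ^ 2) := by
    calc 2916 * (i3 ^ 2 * S ^ 2 * (x ^ 3 + q * y * (x + a * y) ^ 2)) =
          (3 * i3) ^ 2 * S ^ 2 * (324 * x ^ 3 + 81 * (4 * q) * y * (x + a * y) ^ 2) := by ring
      _ = S ^ 2 * (324 * x ^ 3 + 81 * y * (x + a * y) ^ 2) := by
        rw [h3, h4]
        ring
  have f2 : 2916 * (-3 * (n ^ 3 + q * (x ^ 2 * y) * r ^ 2)) =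
      S ^ 2 * (324 * x ^ 3 + 81 * y * (x + a * y) ^ 2) := by
    calc 2916 * (-3 * (n ^ 3 + q * (x ^ 2 * y) * r ^ 2)) =
          -12 * (9 * n) ^ 3 - 3 * (4 * q) * (x ^ 2 * y) * (27 * r) ^ 2 := by ring
      _ = S ^ 2 * (324 * x ^ 3 + 81 * y * (x + a * y) ^ 2) := by
        rw [e1, e2, h4, hS]
        ring
  have hu : q * i3 ^ 6 * 2916 = 1 := by
    calc q * i3 ^ 6 * 2916 = (4 * q) * (3 * i3) ^ 6 := by ring
      _ = 1 := by
        rw [h3, h4]
        ring
  calc i3 ^ 2 * S ^ 2 * (x ^ 3 + q * y * (x + a * y) ^ 2) =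
        q * i3 ^ 6 * 2916 * (i3 ^ 2 * S ^ 2 * (x ^ 3 + q * y * (x + a * y) ^ 2)) := by
        rw [hu, one_mul]
    _ = q * i3 ^ 6 * (2916 * (i3 ^ 2 * S ^ 2 * (x ^ 3 + q * y * (x + a * y) ^ 2))) := by
        ring
    _ = q * i3 ^ 6 * (2916 * (-3 * (n ^ 3 + q * (x ^ 2 * y) * r ^ 2))) := by rw [f1, f2]
    _ = q * i3 ^ 6 * 2916 * (-3 * (n ^ 3 + q * (x ^ 2 * y) * r ^ 2)) := by ring
    _ = -3 * (n ^ 3 + q * (x ^ 2 * y) * r ^ 2) := by rw [hu, one_mul]

theorem piso_three {A : Type*} [CommRing A] [Nontrivial A] {q t a b rho sh i3 : A} {d : ℕ}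
    {N D : A[X]} (h4 : 4 * q = 1) (h3 : 3 * i3 = 1) (hab : 27 * (a + b) = 1)
    (hsh : sh ^ 2 = -3) (ha : IsUnit a) (hd : 0 < d) (h : PIso q t a rho d N D) :
    PIso q t b (sh * rho) (3 * d) (N3 i3 a N D) (N * D) := by
  have hi : IsUnit i3 := IsUnit.of_mul_eq_one 3 (by rw [mul_comm]; exact h3)
  have hN := h.degN
  have hD := h.degD
  have dN2 : (N ^ 2).natDegree ≤ 2 * d := by
    rw [← hN]
    exact Polynomial.natDegree_pow_le
  have dN3 : (N ^ 3).natDegree ≤ 3 * d := by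
    rw [← hN]
    exact Polynomial.natDegree_pow_le
  have dD : ∀ n : ℕ, (D ^ n).natDegree ≤ n * D.natDegree := fun n =>
    Polynomial.natDegree_pow_le
  have d1 : (C i3 * N ^ 2 * D ^ 2).natDegree < 3 * d := by
    have e1 := Polynomial.natDegree_mul_le (p := C i3 * N ^ 2) (q := D ^ 2)
    have e2 := Polynomial.natDegree_C_mul_le i3 (N ^ 2)
    have e3 := dD 2
    omega
  have d2 : (C a * N * D ^ 4).natDegree < 3 * d := by
    have e1 := Polynomial.natDegree_mul_le (p := C a * N) (q := D ^ 4)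
    have e2 := Polynomial.natDegree_C_mul_le a N
    have e3 := dD 4
    omega
  have d3 : (C a ^ 2 * D ^ 6).natDegree < 3 * d := by
    have e1 := Polynomial.natDegree_C_mul_le (a ^ 2) (D ^ 6)
    have e3 := dD 6
    rw [C_pow] at e1
    omega
  have hco : (N3 i3 a N D).coeff (3 * d) = -i3 * N.coeff d ^ 3 := by
    unfold N3
    rw [Polynomial.coeff_C_mul, Polynomial.coeff_add, Polynomial.coeff_add, Polynomial.coeff_add,
      Polynomial.coeff_pow_of_natDegree_le hN.le, Polynomial.coeff_eq_zero_of_natDegree_lt d1,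
      Polynomial.coeff_eq_zero_of_natDegree_lt d2, Polynomial.coeff_eq_zero_of_natDegree_lt d3,
      add_zero, add_zero, add_zero]
  have hu : IsUnit ((N3 i3 a N D).coeff (3 * d)) := by
    rw [hco]
    exact hi.neg.mul (h.lead.pow 3)
  have hdeg : (N3 i3 a N D).natDegree ≤ 3 * d := by
    unfold N3
    refine (Polynomial.natDegree_C_mul_le _ _).trans ?_
    refine Polynomial.natDegree_add_le_of_degree_le (Polynomial.natDegree_add_le_of_degree_le
      (Polynomial.natDegree_add_le_of_degree_le dN3 d1.le) d2.le) d3.le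
  have hCa : IsUnit (C a : A[X]) := ha.map C
  have hCi : IsUnit (C (-i3) : A[X]) := hi.neg.map C
  refine ⟨?_, hu, ?_, ?_, ?_⟩
  · exact le_antisymm hdeg (Polynomial.le_natDegree_of_ne_zero hu.ne_zero)
  · have e1 := Polynomial.natDegree_mul_le (p := N) (q := D)
    omega
  · refine IsCoprime.mul_right ?_ ?_
    · have e1 : N3 i3 a N D = C (-i3) * C a ^ 2 * D ^ 6 +
          N * (C (-i3) * (N ^ 2 + C i3 * N * D ^ 2 + C a * D ^ 4)) := by
        unfold N3
        ring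
      rw [e1]
      refine IsCoprime.add_mul_left_left ?_ _
      exact (isCoprime_mul_unit_left_left (hCi.mul (hCa.pow 2)) _ _).2 h.cop.symm.pow_left
    · have e1 : N3 i3 a N D = C (-i3) * N ^ 3 +
          D * (C (-i3) * (C i3 * N ^ 2 * D + C a * N * D ^ 3 + C a ^ 2 * D ^ 5)) := by
        unfold N3
        ring
      rw [e1]
      refine IsCoprime.add_mul_left_left ?_ _
      exact (isCoprime_mul_unit_left_left hCi _ _).2 h.cop.pow_left
  · have e1 : derivative (N3 i3 a N D) * (N * D) - 2 * N3 i3 a N D * derivative (N * D) =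
        C (-i3) * (N ^ 3 - C a * N * (D ^ 2) ^ 2 - 2 * C a ^ 2 * (D ^ 2) ^ 3) *
          (derivative N * D - 2 * N * derivative D) := by
      unfold N3
      simp only [derivative_mul, derivative_add, derivative_pow, derivative_C, zero_mul, zero_add,
        Nat.cast_ofNat, mul_zero]
      simp only [map_ofNat]
      ring
    have h4' : 4 * (C q : A[X]) = 1 := by
      have := congrArg (C : A →+* A[X]) h4
      rwa [map_mul, map_ofNat, map_one] at this
    have h3' : 3 * (C i3 : A[X]) = 1 := by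
      have := congrArg (C : A →+* A[X]) h3
      rwa [map_mul, map_ofNat, map_one] at this
    have hab' : 27 * ((C a : A[X]) + C b) = 1 := by
      have := congrArg (C : A →+* A[X]) hab
      rwa [map_mul, map_ofNat, map_one, map_add] at this
    have hsh' : (C sh : A[X]) ^ 2 = -3 := by
      have := congrArg (C : A →+* A[X]) hsh
      rwa [map_pow, map_neg, map_ofNat] at this
    have e2 := three_alg (x := N) (y := D ^ 2) h4' h3' hab'
    have e3 : N3 i3 a N D = -C i3 * (N ^ 3 + C i3 * N ^ 2 * D ^ 2 + C a * N * (D ^ 2) ^ 2 +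
        C a ^ 2 * (D ^ 2) ^ 3) := by
      unfold N3
      rw [C_neg]
      ring
    rw [← e3] at e2
    rw [e1]
    obtain ⟨M, hM⟩ : ∃ M, M = N3 i3 a N D := ⟨_, rfl⟩
    rw [← hM] at e2 ⊢
    obtain ⟨W, hW⟩ : ∃ W, W = derivative N * D - 2 * N * derivative D := ⟨_, rfl⟩
    have e4 := h.eq
    rw [← hW] at e4 ⊢
    rw [C_neg, C_mul]
    have e5 : fC q t * (-C i3 * (N ^ 3 - C a * N * (D ^ 2) ^ 2 - 2 * C a ^ 2 * (D ^ 2) ^ 3) *
        W) ^ 2 = C i3 ^ 2 * (N ^ 3 - C a * N * (D ^ 2) ^ 2 - 2 * C a ^ 2 * (D ^ 2) ^ 3) ^ 2 *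
          (fC q t * W ^ 2) := by ring
    rw [e5, e4]
    linear_combination C rho ^ 2 * e2 - C rho ^ 2 *
      (M ^ 3 + C q * (N * D) ^ 2 * (M + C b * (N * D) ^ 2) ^ 2) * hsh'

end Pool.Agent.MP_2a5e5c_nt
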