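import Pool.Agent.Lib.MP_2a5e5c_nt.BetaC
import Pool.Agent.Lib.MP_2a5e5c_nt.PIso

/-!
# SUN, module BetaId: the isogeny of degree 11 over any ring

PROOF. In `A[X]` let `NT, DH` be the values (`evL r h`) of the lists `betaN`, `betaD`, and let
`i₂, i₃` be the inverses of `2, 3` (`4 q = 1`: `i₂ = 2 q`), `u` the inverse of `288 = 2⁵ 3²`.
`beta_scaled`: `betaE_zero`, `evL_zero` and `evL_add, evL_mul, evL_sm, evL_der`
unfolded (`ev r h (38,0,0,2) = 38 + 2 r h = (r + h)²`); `beta_bez` from `betaB_zero`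
(`859963392 = 2¹⁷ 3⁸`). `piso_beta`: take
`N = C (u¹¹) * NT.comp (C 288 * X)`, `D = C (i₂ u⁵) * DH.comp (C 288 * X)`.
`comp` is a ring homomorphism, `derivative (P.comp (C 288 * X)) = 288 P'.comp (…)`
(`derivative_comp`). `288³ f_t(X) = G(288 X)`, `G = X³ + 2 (6X + 32 - 5r)²` (`4q = 1`,
`1728 t = 32 - 5 r`). With `W = NT' DH - 2 NT DH'`: `N'D - 2ND' = 288 i₂ u¹⁶ W(288X)`;
`N³ + q D² (N + s D²)²`: `D² = q u¹⁰ DH²(288X)` and `4 (N + s D²) = u¹¹ (4 NT + 288 s DH²)(288X)`,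
`6 · 288 s = 32 + 5r`. Everything is a multiple of `u³³`. Coefficients:
`(P.comp (C 288 * X)).coeff n = P.coeff n * 288^n` (`comp_C_mul_X_coeff`), so `N.coeff 11 = 1`,
`N.coeff 0 = 0`, and the last claim is `(32 - 5r) * NT.coeff 1 * 8 = -(r + h) (32 + 5 r)
(DH.coeff 0)² ` up to a unit, a numerical identity in `ℤ[r, h]` (check it by
`linear_combination`, or with `q4mul` by `decide`; the exact constants have to be worked out:
`t N₁ = -ρ s D₀²`, `N₁ = u¹⁰ NT₁`, `D₀ = i₂ u⁵ DH₀`, so `4 t NT₁ = - ρ s DH₀²`, times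
`2 · 1728`: `8 (32 - 5r) NT₁ = -(r + h)(32 + 5r) DH₀²`). Degrees: `natDegree_comp_le`,
`evL_natDegree`. `IsCoprime N D`: `beta_bez` composed with `C 288 * X`, and `859963392` is a unit.
-/

namespace Pool.Agent.MP_2a5e5c_nt

open Polynomial

variable {A : Type*} [CommRing A] {r h : A}

private lemma BetaId_G (hr : r ^ 2 = 41) :
    evL r h betaG = X ^ 3 + 2 * (6 * X + C (32 - 5 * r)) ^ 2 := by
  have hR : (C r : A[X]) ^ 2 = 41 := by
    rw [← C_pow, hr, map_ofNat]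
  simp only [betaG, evL, ev, Int.cast_ofNat, Int.cast_zero, Int.cast_neg, Int.cast_one, zero_mul,
    add_zero, map_add, map_mul, map_sub, map_neg, map_ofNat, map_one, mul_zero]
  linear_combination (-50 : A[X]) * hR

theorem beta_scaled (hr : r ^ 2 = 41) (hh : h ^ 2 = -3) :
    64 * (X ^ 3 + 2 * (6 * X + C (32 - 5 * r)) ^ 2) *
      (derivative (evL r h betaN) * evL r h betaD -
        2 * evL r h betaN * derivative (evL r h betaD)) ^ 2 =
    C (r + h) ^ 2 * (64 * evL r h betaN ^ 3 + 2 * evL r h betaD ^ 2 *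
      (24 * evL r h betaN + C (32 + 5 * r) * evL r h betaD ^ 2) ^ 2) := by
  have hR : (C r : A[X]) ^ 2 = 41 := by
    rw [← C_pow, hr, map_ofNat]
  have hH : (C h : A[X]) ^ 2 = -3 := by
    rw [← C_pow, hh, map_neg, map_ofNat]
  have h0 := evL_zero r h betaE betaE_zero
  simp only [betaE, betaW, betaM, betaA, evL_add, evL_sm hr hh, evL_mul hr hh, evL_der hr hh,
    BetaId_G hr] at h0
  simp only [ev, Int.cast_ofNat, Int.cast_zero, Int.cast_neg, Int.cast_one, zero_mul,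
    add_zero, map_add, map_mul, map_sub, map_neg, map_ofNat, map_one] at h0
  simp only [map_add, map_sub, map_mul, map_ofNat]
  generalize evL r h betaN = N at *
  generalize evL r h betaD = D at *
  generalize derivative N = N' at *
  generalize derivative D = D' at *
  linear_combination h0 - (64 * N ^ 3 + 2 * D ^ 2 * (24 * N + (32 + 5 * C r) * D ^ 2) ^ 2) *
    (hR + hH)

theorem beta_bez (hr : r ^ 2 = 41) (hh : h ^ 2 = -3) :
    evL r h betaU * evL r h betaN + evL r h betaV * evL r h betaD = C 859963392 := by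
  have h0 := evL_zero r h betaB betaB_zero
  simp only [betaB, evL_add, evL_mul hr hh] at h0
  simp only [evL, ev, Int.cast_ofNat, Int.cast_zero, Int.cast_neg, zero_mul,
    add_zero, mul_zero, map_neg, map_ofNat] at h0
  rw [map_ofNat]
  linear_combination h0

theorem beta_val (hr : r ^ 2 = 41) (hh : h ^ 2 = -3) :
    8 * (32 - 5 * r) * (evL r h betaN).coeff 1 =
      -((r + h) * (32 + 5 * r)) * (evL r h betaD).coeff 0 ^ 2 := by
  have e : q4mul (256, -40, 0, 0) (betaN.getD 1 (0, 0, 0, 0)) =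
      q4mul (q4mul (0, -1, -1, 0) (32, 5, 0, 0))
        (q4mul (betaD.getD 0 (0, 0, 0, 0)) (betaD.getD 0 (0, 0, 0, 0))) := by
    decide +kernel
  have e1 := congrArg (ev r h) e
  simp only [ev_mul hr hh] at e1
  rw [← evL_coeff, ← evL_coeff] at e1
  have e2 : ev r h (256, -40, 0, 0) = 8 * (32 - 5 * r) := by
    simp only [ev]; push_cast; ring
  have e3 : ev r h (0, -1, -1, 0) = -(r + h) := by
    simp only [ev]; push_cast; ring
  have e4 : ev r h (32, 5, 0, 0) = 32 + 5 * r := by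
    simp only [ev]; push_cast; ring
  rw [e2, e3, e4] at e1
  rw [e1]; ring

private lemma BetaId_alg {B : Type*} [CommRing B] {Q T S R H P x n d w U I : B}
    (h4 : 4 * Q = 1) (hU : 288 * U = 1) (hI : 2 * I = 1) (hT : 1728 * T = 32 - 5 * R)
    (hS : 1728 * S = 32 + 5 * R) (hP : 2 * P = R + H)
    (hE : 64 * ((288 * x) ^ 3 + 2 * (6 * (288 * x) + (32 - 5 * R)) ^ 2) * w ^ 2 =
      (R + H) ^ 2 * (64 * n ^ 3 + 2 * d ^ 2 * (24 * n + (32 + 5 * R) * d ^ 2) ^ 2)) :
    (x ^ 3 + Q * (x + T) ^ 2) * (288 * I * U ^ 16 * w) ^ 2 =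
      P ^ 2 * ((U ^ 11 * n) ^ 3 + Q * (I * U ^ 5 * d) ^ 2 *
        (U ^ 11 * n + S * (I * U ^ 5 * d) ^ 2) ^ 2) := by
  have c1 : 72 * U = Q := by linear_combination (-(72 : B) * U) * h4 + Q * hU
  have c2 : 18 * U = Q ^ 2 := by linear_combination (-(18 : B) * U) * h4 + Q * c1
  have c3 : I ^ 2 = Q := by
    linear_combination (-I ^ 2) * h4 + Q * (2 * I + 1) * hI
  obtain ⟨F, hF⟩ : ∃ F, F = x ^ 3 + Q * (x + T) ^ 2 := ⟨_, rfl⟩
  obtain ⟨K, hK⟩ : ∃ K, K = n ^ 3 + 18 * d ^ 2 * (n + 72 * S * d ^ 2) ^ 2 := ⟨_, rfl⟩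
  have e1 : (288 * x) ^ 3 + 2 * (6 * (288 * x) + (32 - 5 * R)) ^ 2 = 288 ^ 3 * F := by
    rw [← hT, hF]
    linear_combination (-(5971968 : B) * (x + T) ^ 2) * h4
  have e2 : 64 * n ^ 3 + 2 * d ^ 2 * (24 * n + (32 + 5 * R) * d ^ 2) ^ 2 = 64 * K := by
    rw [← hS, hK]; ring
  rw [e1, e2, ← hP] at hE
  have e3 : 288 ^ 3 * F * w ^ 2 = 4 * P ^ 2 * K := by
    calc 288 ^ 3 * F * w ^ 2 = (4 * Q) ^ 3 * (288 ^ 3 * F * w ^ 2) := by rw [h4]; ring
      _ = Q ^ 3 * (64 * (288 ^ 3 * F) * w ^ 2) := by ring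
      _ = Q ^ 3 * ((2 * P) ^ 2 * (64 * K)) := by rw [hE]
      _ = (4 * Q) ^ 3 * (4 * P ^ 2 * K) := by ring
      _ = _ := by rw [h4]; ring
  have e4 : (U ^ 11 * n) ^ 3 + Q * (I * U ^ 5 * d) ^ 2 *
        (U ^ 11 * n + S * (I * U ^ 5 * d) ^ 2) ^ 2 = U ^ 33 * K := by
    calc (U ^ 11 * n) ^ 3 + Q * (I * U ^ 5 * d) ^ 2 *
        (U ^ 11 * n + S * (I * U ^ 5 * d) ^ 2) ^ 2
        = U ^ 33 * n ^ 3 + Q * I ^ 2 * U ^ 10 * d ^ 2 *
          (U ^ 11 * n + S * I ^ 2 * U ^ 10 * d ^ 2) ^ 2 := by ring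
      _ = U ^ 33 * n ^ 3 + Q ^ 2 * U ^ 10 * d ^ 2 *
          (U ^ 11 * n + S * Q * U ^ 10 * d ^ 2) ^ 2 := by rw [c3]; ring
      _ = U ^ 33 * n ^ 3 + 18 * U * U ^ 10 * d ^ 2 *
          (U ^ 11 * n + S * (72 * U) * U ^ 10 * d ^ 2) ^ 2 := by rw [← c2, c1]
      _ = _ := by rw [hK]; ring
  rw [e4, ← hF]
  calc F * (288 * I * U ^ 16 * w) ^ 2 = (288 * U) ^ 2 * (I ^ 2 * U ^ 30 * (F * w ^ 2)) := by ring
    _ = (288 * U) ^ 3 * (I ^ 2 * U ^ 30 * (F * w ^ 2)) := by rw [hU]; ring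
    _ = I ^ 2 * U ^ 33 * (288 ^ 3 * F * w ^ 2) := by ring
    _ = (2 * I) ^ 2 * (U ^ 33 * P ^ 2 * K) := by rw [e3]; ring
    _ = _ := by rw [hI]; ring

theorem piso_beta [Nontrivial A] {q t s rho i3 : A} (h4 : 4 * q = 1) (h3 : 3 * i3 = 1)
    (hr : r ^ 2 = 41) (hh : h ^ 2 = -3) (ht : 1728 * t = 32 - 5 * r)
    (hs : 1728 * s = 32 + 5 * r) (hρ : 2 * rho = r + h) :
    ∃ N D : A[X], PIso q t s rho 11 N D ∧ N.coeff 0 = 0 ∧
      t * N.coeff 1 = -(rho * s) * D.coeff 0 ^ 2 := by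
  obtain ⟨i2, hi2⟩ : ∃ i2, i2 = 2 * q := ⟨_, rfl⟩
  obtain ⟨u, hu⟩ : ∃ u, u = i2 ^ 5 * i3 ^ 2 := ⟨_, rfl⟩
  have hI : 2 * i2 = 1 := by rw [hi2]; linear_combination h4
  have hU : 288 * u = 1 := by
    calc 288 * u = (2 * i2) ^ 5 * (3 * i3) ^ 2 := by rw [hu]; ring
      _ = 1 := by rw [hI, h3]; ring
  have huu : IsUnit u := IsUnit.of_mul_eq_one 288 (by rw [mul_comm]; exact hU)
  have hiu : IsUnit i2 := IsUnit.of_mul_eq_one 2 (by rw [mul_comm]; exact hI)
  have coef : ∀ (k : A) (p : A[X]) (n : ℕ),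
      (C k * p.comp (C 288 * X)).coeff n = k * (p.coeff n * 288 ^ n) := by
    intro k p n
    rw [coeff_C_mul, comp_C_mul_X_coeff]
  have nat : ∀ (k : A) (p : A[X]) (n : ℕ), p.natDegree ≤ n →
      (C k * p.comp (C 288 * X)).natDegree ≤ n := by
    intro k p n hp
    refine (natDegree_C_mul_le _ _).trans (natDegree_comp_le.trans ?_)
    have h1 : (C (288 : A) * X : A[X]).natDegree ≤ 1 :=
      (natDegree_C_mul_le _ _).trans natDegree_X_le
    calc p.natDegree * (C (288 : A) * X : A[X]).natDegree ≤ n * 1 := Nat.mul_le_mul hp h1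
      _ = n := mul_one n
  have c11 : (evL r h betaN).coeff 11 = 1 := by
    rw [evL_coeff]
    simp [betaN, ev]
  have c0 : (evL r h betaN).coeff 0 = 0 := by
    rw [evL_coeff]
    simp [betaN, ev]
  have hN11 : (C (u ^ 11) * (evL r h betaN).comp (C 288 * X)).coeff 11 = 1 := by
    rw [coef, c11]
    calc u ^ 11 * (1 * 288 ^ 11) = (288 * u) ^ 11 := by ring
      _ = 1 := by rw [hU, one_pow]
  have dN : (evL r h betaN).natDegree ≤ 11 := evL_natDegree _ _ rfl
  have dD : (evL r h betaD).natDegree ≤ 5 := evL_natDegree _ _ rfl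
  refine ⟨C (u ^ 11) * (evL r h betaN).comp (C 288 * X),
    C (i2 * u ^ 5) * (evL r h betaD).comp (C 288 * X), ⟨?_, ?_, ?_, ?_, ?_⟩, ?_, ?_⟩
  · refine le_antisymm (nat _ _ _ dN) (le_natDegree_of_ne_zero ?_)
    rw [hN11]; exact one_ne_zero
  · rw [hN11]; exact isUnit_one
  · have := nat (i2 * u ^ 5) _ _ dD
    omega
  · have hb := congrArg (fun p : A[X] => p.comp (C 288 * X)) (beta_bez hr hh)
    simp only [add_comp, mul_comp, C_comp] at hb
    have hk : i2 ^ 17 * i3 ^ 8 * 859963392 = 1 := by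
      calc i2 ^ 17 * i3 ^ 8 * 859963392 = (2 * i2) ^ 17 * (3 * i3) ^ 8 := by ring
        _ = 1 := by rw [hI, h3]; ring
    have hco : IsCoprime ((evL r h betaN).comp (C 288 * X)) ((evL r h betaD).comp (C 288 * X)) := by
      refine ⟨C (i2 ^ 17 * i3 ^ 8) * (evL r h betaU).comp (C 288 * X),
        C (i2 ^ 17 * i3 ^ 8) * (evL r h betaV).comp (C 288 * X), ?_⟩
      calc C (i2 ^ 17 * i3 ^ 8) * (evL r h betaU).comp (C 288 * X) *
            (evL r h betaN).comp (C 288 * X) +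
          C (i2 ^ 17 * i3 ^ 8) * (evL r h betaV).comp (C 288 * X) *
            (evL r h betaD).comp (C 288 * X)
          = C (i2 ^ 17 * i3 ^ 8) * ((evL r h betaU).comp (C 288 * X) *
            (evL r h betaN).comp (C 288 * X) + (evL r h betaV).comp (C 288 * X) *
            (evL r h betaD).comp (C 288 * X)) := by ring
        _ = 1 := by rw [hb, ← C_mul, hk, C_1]
    have hu1 : IsUnit (C (u ^ 11) : A[X]) := (huu.pow 11).map C
    have hu2 : IsUnit (C (i2 * u ^ 5) : A[X]) := (hiu.mul (huu.pow 5)).map C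
    exact (isCoprime_mul_unit_left_left hu1 _ _).2 ((isCoprime_mul_unit_left_right hu2 _ _).2 hco)
  · have hE := congrArg (fun p : A[X] => p.comp (C 288 * X)) (beta_scaled hr hh)
    simp only [add_comp, mul_comp, C_comp, pow_comp, sub_comp, X_comp, ofNat_comp] at hE
    have hdc : derivative (C (288 : A) * X) = C 288 := by
      rw [derivative_C_mul, derivative_X, mul_one]
    simp only [derivative_mul, derivative_C, zero_mul, zero_add, derivative_comp, hdc]
    generalize (evL r h betaN).comp (C 288 * X) = n at hE ⊢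
    generalize (evL r h betaD).comp (C 288 * X) = d at hE ⊢
    generalize (derivative (evL r h betaN)).comp (C 288 * X) = n' at hE ⊢
    generalize (derivative (evL r h betaD)).comp (C 288 * X) = d' at hE ⊢
    have key := BetaId_alg (B := A[X]) (Q := C q) (T := C t) (S := C s) (R := C r) (H := C h)
      (P := C rho) (x := X) (n := n) (d := d) (w := n' * d - 2 * n * d') (U := C u) (I := C i2)
      (by rw [← C_1, ← h4, map_mul, map_ofNat]) (by rw [← C_1, ← hU, map_mul, map_ofNat])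
      (by rw [← C_1, ← hI, map_mul, map_ofNat])
      (by have := congrArg (C : A →+* A[X]) ht
          simpa only [map_mul, map_sub, map_ofNat] using this)
      (by have := congrArg (C : A →+* A[X]) hs
          simpa only [map_mul, map_add, map_ofNat] using this)
      (by have := congrArg (C : A →+* A[X]) hρ
          simpa only [map_mul, map_add, map_ofNat] using this)
      (by simpa only [map_mul, map_add, map_sub, map_ofNat, Nat.cast_ofNat] using hE)
    unfold fC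
    have e288 : (C (288 : A) : A[X]) = 288 := map_ofNat C 288
    simp only [C_mul, C_pow, e288]
    calc _ = (X ^ 3 + C q * (X + C t) ^ 2) *
          (288 * C i2 * C u ^ 16 * (n' * d - 2 * n * d')) ^ 2 := by ring
      _ = _ := key
  · rw [coef, c0]; ring
  · rw [coef, coef]
    have hv := beta_val hr hh (r := r) (h := h)
    rw [← ht, ← hs, ← hρ] at hv
    generalize (evL r h betaN).coeff 1 = n1 at hv ⊢
    generalize (evL r h betaD).coeff 0 = d0 at hv ⊢
    have c3 : i2 ^ 2 = q := by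
      rw [hi2]; linear_combination q * h4
    have e1 : t * n1 = -(rho * s) * q * d0 ^ 2 := by
      calc t * n1 = (2 * i2) ^ 9 * (3 * i3) ^ 3 * (t * n1) := by rw [hI, h3]; ring
        _ = i2 ^ 9 * i3 ^ 3 * (8 * (1728 * t) * n1) := by ring
        _ = i2 ^ 9 * i3 ^ 3 * (-(2 * rho * (1728 * s)) * d0 ^ 2) := by rw [hv]
        _ = -((2 * i2) ^ 7 * (3 * i3) ^ 3 * (rho * s) * i2 ^ 2 * d0 ^ 2) := by ring
        _ = _ := by rw [hI, h3, c3]; ring
    calc t * (u ^ 11 * (n1 * 288 ^ 1)) = (288 * u) * u ^ 10 * (t * n1) := by ring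
      _ = u ^ 10 * (-(rho * s) * q * d0 ^ 2) := by rw [hU, e1]; ring
      _ = u ^ 10 * (-(rho * s) * i2 ^ 2 * d0 ^ 2) := by rw [c3]
      _ = _ := by ring

end Pool.Agent.MP_2a5e5c_nt
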