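import Pool.Agent.Lib.MP_2a5e5c_nt.Defs

/-!
# SUN, module CartB: the operator picking the coefficients of X^(pi + p - 1)

PROOF. `cart p h` has the coefficients `h.coeff (p i + p - 1)`; its definition is a finite sum up to
the degree of `h`. `cart_expand`: coefficient of `X^(pi+p-1)` of `g(X^p) h`: the sum over
`(pj, p(i-j)+p-1)`, i.e. the coefficient of `X^i` of `g * cart h` (other summands vanish by
`coeff_expand`; one may reduce to monomials `g = C a X^j` by linearity,
`h ↦ X^(pj) h` shifts the index by `j`). `cart_deriv`: `(derivative h).coeff (pi+p-1)` is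
`(pi+p) h.coeff (pi+p)`. `cart_dvd`: coefficientwise. `cart_small`: only `i = 0`
when `deg h < 2p - 1`.
-/

namespace Pool.Agent.MP_2a5e5c_nt

open Polynomial

/-- The polynomial with coefficients `h.coeff (p * i + p - 1)`. -/
noncomputable def cart {A : Type*} [CommRing A] (p : ℕ) (h : A[X]) : A[X] :=
  ∑ i ∈ Finset.range (h.natDegree + 1), C (h.coeff (p * i + p - 1)) * X ^ i

variable {A : Type*} [CommRing A] {p : ℕ}

theorem cart_coeff (hp : 0 < p) (h : A[X]) (i : ℕ) :
    (cart p h).coeff i = h.coeff (p * i + p - 1) := by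
  unfold cart
  simp only [finsetSum_coeff, coeff_C_mul, coeff_X_pow]
  by_cases hi : i < h.natDegree + 1
  · rw [Finset.sum_eq_single i]
    · simp
    · intro b _ hb
      rw [if_neg (fun e => hb e.symm), mul_zero]
    · intro hi'
      exact absurd (Finset.mem_range.2 hi) hi'
  · have h1 : i ≤ p * i := Nat.le_mul_of_pos_left i hp
    rw [coeff_eq_zero_of_natDegree_lt (n := p * i + p - 1) (by omega)]
    apply Finset.sum_eq_zero
    intro b hb
    have hb' := Finset.mem_range.1 hb
    rw [if_neg (by omega), mul_zero]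

theorem cart_add (hp : 0 < p) (g h : A[X]) : cart p (g + h) = cart p g + cart p h := by
  ext i
  simp only [cart_coeff hp, coeff_add]

theorem cart_sub (hp : 0 < p) (g h : A[X]) : cart p (g - h) = cart p g - cart p h := by
  ext i
  simp only [cart_coeff hp, coeff_sub]

theorem cart_C_mul (hp : 0 < p) (a : A) (h : A[X]) : cart p (C a * h) = C a * cart p h := by
  ext i
  simp only [cart_coeff hp, coeff_C_mul]

theorem cart_expand (hp : 0 < p) (g h : A[X]) : cart p (expand A p g * h) = g * cart p h := by
  induction g using Polynomial.induction_on' with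
  | add g₁ g₂ h₁ h₂ => rw [map_add, add_mul, cart_add hp, h₁, h₂, add_mul]
  | monomial n a =>
    rw [← C_mul_X_pow_eq_monomial, map_mul, expand_C, map_pow, expand_X, ← pow_mul]
    ext i
    rw [cart_coeff hp, mul_assoc, mul_assoc, coeff_C_mul, coeff_C_mul, coeff_X_pow_mul',
      coeff_X_pow_mul']
    by_cases hn : n ≤ i
    · have h1 : p * n ≤ p * i := Nat.mul_le_mul_left p hn
      rw [if_pos (by omega), if_pos hn, cart_coeff hp]
      congr 2
      rw [Nat.mul_sub]
      omega
    · have h1 : p * (i + 1) ≤ p * n := Nat.mul_le_mul_left p (by omega)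
      rw [Nat.mul_add, mul_one] at h1
      rw [if_neg (by omega), if_neg hn]

theorem cart_deriv (hp : 0 < p) (h : A[X]) : C (p : A) ∣ cart p (derivative h) := by
  rw [C_dvd_iff_dvd_coeff]
  intro i
  rw [cart_coeff hp, coeff_derivative]
  have h1 : ((p * i + p - 1 : ℕ) : A) + 1 = (p : A) * ((i : A) + 1) := by
    have h2 : (p * i + p - 1) + 1 = p * (i + 1) := by
      rw [Nat.mul_add, mul_one]
      omega
    have h3 := congrArg (Nat.cast : ℕ → A) h2
    push_cast at h3
    exact h3
  rw [h1]
  exact Dvd.dvd.mul_left (Dvd.intro _ rfl) _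

theorem cart_dvd (hp : 0 < p) {a : A} {h : A[X]} (hd : C a ∣ h) : C a ∣ cart p h := by
  obtain ⟨g, rfl⟩ := hd
  rw [cart_C_mul hp]
  exact Dvd.intro _ rfl

theorem cart_small (hp : 0 < p) {h : A[X]} (hd : h.natDegree < 2 * p - 1) :
    cart p h = C (h.coeff (p - 1)) := by
  ext i
  rw [cart_coeff hp, coeff_C]
  rcases Nat.eq_zero_or_pos i with rfl | hi
  · simp
  · rw [if_neg (by omega)]
    apply coeff_eq_zero_of_natDegree_lt
    have h1 : p * 1 ≤ p * i := Nat.mul_le_mul_left p hi
    omega

theorem cart_Xpow (hp : 0 < p) (h : A[X]) (i : ℕ) :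
    (cart p (h * X ^ (p - 1))).coeff i = h.coeff (p * i) := by
  rw [cart_coeff hp]
  have h1 : p * i + p - 1 = p * i + (p - 1) := by omega
  rw [h1, coeff_mul_X_pow]

end Pool.Agent.MP_2a5e5c_nt
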