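import Pool.Agent.Lib.MP_2a5e5c_nt.Seq

/-!
# SUN, module ModP: the equation modulo p

PROOF. Write `N = X^p + p N₁`, `D = 1 + p D₁` (`redN`, `redD`, `D0`, `monic`, `degN`; `deg N₁ < p`,
`deg D₁ ≤ m`, `D₁.coeff m = lam`, `N₁(0) = 0`). `N' D - 2 N D' = p w` with
`w = (X^(p-1) + N₁') (1 + p D₁) - 2 (X^p + p N₁) D₁'`. The equation `eq` gives, after
cancelling `p²`, `f w² = lam² (N³ + q D² (N + s D²)²)`. Modulo `p` (domain `k = R/p`, `p` is a
prime element, use `Ideal.Quotient` or `Polynomial.map`): the right side is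
`lam² (X^(3p) + q (X^p + s)²) = lam² f^p`, since in characteristic `p`
`f^p = X^(3p) + q^p (X^p + t^p)²`, `q^p = q` (`4 q = 1`, `4^p = 4` in `k`) and `t^p = s`. So
`f w² = lam² f^(2m+1)`, hence `w² = lam² f^(2m)`, `w = ± lam f^m` in `k[X]`. Put
`w ≡ X^(2m) + N₁' - 2 X^p D₁'` in `k[X]`. Its coefficient at `X^(3m)` (`3m ≥ 2m+1` as `m ≥ 2`,
`deg N₁' ≤ p - 2`) is `-2 m lam = lam` (`2m = p - 1`), and `f^m` is monic of degree `3m`:
if the sign were `-` then `2 lam = 0`, `lam = 0` in `k`, so `w = 0` anyway; thus `w = lam f^m` in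
`k[X]` in all cases. Coefficient at `X^(2m)`: of `w` it is `1` (`N₁'` has degree `< 2m`, `X^p D₁'`
starts at degree `p > 2m`), of `lam f^m` it is `lam (f^m).coeff (2m)`. This gives the last claim.
-/

namespace Pool.Agent.MP_2a5e5c_nt

open Polynomial

private lemma ModP_monic {k : Type*} [CommRing k] [Nontrivial k] (q t : k) :
    (fC q t).Monic ∧ (fC q t).natDegree = 3 := by
  have h1 : fC q t = X ^ 3 + (C q * X ^ 2 + C (2 * q * t) * X + C (q * t ^ 2)) := by
    rw [fC]
    simp only [C_mul, C_pow, C_ofNat]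
    ring
  have h2 : (C q * X ^ 2 + C (2 * q * t) * X + C (q * t ^ 2) : k[X]).degree < 3 := by
    refine lt_of_le_of_lt degree_quadratic_le ?_
    exact_mod_cast (by norm_num : (2 : ℕ) < 3)
  have h3 : (C q * X ^ 2 + C (2 * q * t) * X + C (q * t ^ 2) : k[X]).degree <
      (X ^ 3 : k[X]).degree := by
    rw [degree_X_pow]
    exact h2
  refine ⟨?_, ?_⟩
  · rw [h1]
    exact (monic_X_pow 3).add_of_left h3
  · rw [h1, natDegree_eq_of_degree_eq (degree_add_eq_left_of_degree_lt h3), natDegree_X_pow]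

private lemma ModP_frob {k : Type*} [CommRing k] [IsDomain k] {p : ℕ} (hp : p.Prime)
    [CharP k p] {q t s : k} (h4 : 4 * q = 1) (ht : t ^ p = s) :
    fC q t ^ p = X ^ (3 * p) + C q * (X ^ p + C s) ^ 2 := by
  have : Fact p.Prime := ⟨hp⟩
  have h1 : (4 : k) ^ p = 4 := by
    have h := map_natCast (frobenius k p) 4
    rw [frobenius_def] at h
    exact_mod_cast h
  have h2 : q ^ p = q := by
    have h3 : (4 * q) ^ p = 1 := by rw [h4, one_pow]
    rw [mul_pow, h1] at h3
    calc q ^ p = (4 * q) * q ^ p := by rw [h4, one_mul]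
      _ = (4 * q ^ p) * q := by ring
      _ = q := by rw [h3, one_mul]
  have h5 : ((X + C t) ^ 2 : k[X]) ^ p = (X ^ p + C s) ^ 2 := by
    rw [← pow_mul, mul_comm 2 p, pow_mul, add_pow_char, ← C_pow, ht]
  rw [fC, add_pow_char, mul_pow, ← C_pow, h2, ← pow_mul, h5]

private lemma ModP_map_zero {R : Type*} [CommRing R] (a : R) (P : R[X]) :
    P.map (Ideal.Quotient.mk (Ideal.span {a})) = 0 ↔ C a ∣ P := by
  rw [C_dvd_iff_dvd_coeff, Polynomial.ext_iff]
  simp only [coeff_map, coeff_zero, Ideal.Quotient.eq_zero_iff_mem, Ideal.mem_span_singleton]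

theorem modp {R : Type*} [CommRing R] [IsDomain R] [CharZero R] {p m : ℕ} (hp : p.Prime)
    (h5 : 5 ≤ p) (hm : p = 2 * m + 1) (hpR : Prime (p : R)) {q t s lam : R}
    (h4 : 4 * q = 1) {N D : R[X]} (h : IsogData R p m q t s (p * lam) N D) :
    ∃ N₁ D₁ w : R[X], N = X ^ p + C (p : R) * N₁ ∧ D = 1 + C (p : R) * D₁ ∧
      N₁.natDegree < p ∧ N₁.coeff 0 = 0 ∧ D₁.natDegree ≤ m ∧ D₁.coeff m = lam ∧
      derivative N * D - 2 * N * derivative D = C (p : R) * w ∧
      fC q t * w ^ 2 = C lam ^ 2 * (N ^ 3 + C q * D ^ 2 * (N + C s * D ^ 2) ^ 2) ∧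
      C (p : R) ∣ w - C lam * fC q t ^ m ∧
      C (p : R) ∣ w - (X ^ (2 * m) + derivative (N₁ - 2 * X ^ p * D₁)) ∧
      (p : R) ∣ lam * (fC q t ^ m).coeff (2 * m) - 1 := by
  have hp0 : (p : R) ≠ 0 := hpR.ne_zero
  have hm2 : 2 ≤ m := by omega
  have hCp : (C (p : R)) ≠ 0 := by rwa [Ne, C_eq_zero]
  -- `N`
  have hN : C (p : R) ∣ N - X ^ p := by
    rw [C_dvd_iff_dvd_coeff]
    intro i
    rw [coeff_sub, coeff_X_pow]
    rcases lt_trichotomy i p with hi | hi | hi
    · rw [if_neg hi.ne, sub_zero]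
      exact h.redN i hi
    · rw [if_pos hi, hi]
      have h1 : N.coeff p = 1 := by
        have := h.monic.coeff_natDegree
        rwa [h.degN] at this
      rw [h1, sub_self]
      exact dvd_zero _
    · rw [if_neg hi.ne', coeff_eq_zero_of_natDegree_lt (by rw [h.degN]; exact hi), sub_zero]
      exact dvd_zero _
  obtain ⟨N₁, hN₁⟩ := hN
  have hNe : N = X ^ p + C (p : R) * N₁ := by rw [← hN₁]; ring
  have hNc : ∀ i, (p : R) * N₁.coeff i = N.coeff i - (X ^ p : R[X]).coeff i := by
    intro i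
    rw [← coeff_C_mul, ← hN₁, coeff_sub]
  have hN1z : ∀ i, p ≤ i → N₁.coeff i = 0 := by
    intro i hi
    have h1 := hNc i
    rw [coeff_X_pow] at h1
    rcases hi.lt_or_eq with h2 | h2
    · rw [if_neg h2.ne', coeff_eq_zero_of_natDegree_lt (p := N) (by rw [h.degN]; exact h2),
        sub_zero] at h1
      exact (mul_eq_zero.1 h1).resolve_left hp0
    · have h3 : N.coeff p = 1 := by
        have := h.monic.coeff_natDegree
        rwa [h.degN] at this
      rw [if_pos h2.symm, ← h2, h3, sub_self] at h1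
      rw [← h2]
      exact (mul_eq_zero.1 h1).resolve_left hp0
  have hN1d : N₁.natDegree < p := by
    have h1 : N₁.natDegree ≤ p - 1 :=
      natDegree_le_iff_coeff_eq_zero.2 (fun i hi => hN1z i (by omega))
    omega
  have hN10 : N₁.coeff 0 = 0 := by
    have h1 := hNc 0
    rw [h.N0, coeff_X_pow, if_neg (by omega), sub_zero] at h1
    exact (mul_eq_zero.1 h1).resolve_left hp0
  -- `D`
  have hD : C (p : R) ∣ D - 1 := by
    rw [C_dvd_iff_dvd_coeff]
    intro i
    rw [coeff_sub, coeff_one]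
    rcases Nat.eq_zero_or_pos i with hi | hi
    · rw [if_pos hi, hi]
      exact h.D0
    · rw [if_neg (by omega), sub_zero]
      exact h.redD i hi
  obtain ⟨D₁, hD₁⟩ := hD
  have hDe : D = 1 + C (p : R) * D₁ := by rw [← hD₁]; ring
  have hDc : ∀ i, 1 ≤ i → (p : R) * D₁.coeff i = D.coeff i := by
    intro i hi
    rw [← coeff_C_mul, ← hD₁, coeff_sub, coeff_one, if_neg (by omega), sub_zero]
  have hD1d : D₁.natDegree ≤ m := by
    refine natDegree_le_iff_coeff_eq_zero.2 (fun i hi => ?_)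
    have h1 := hDc i (by omega)
    rw [coeff_eq_zero_of_natDegree_lt (lt_of_le_of_lt h.degD hi)] at h1
    exact (mul_eq_zero.1 h1).resolve_left hp0
  have hD1m : D₁.coeff m = lam := by
    have h1 := hDc m (by omega)
    rw [h.leadD] at h1
    exact mul_left_cancel₀ hp0 h1
  -- `w`
  set w : R[X] := (X ^ (2 * m) + derivative N₁) * (1 + C (p : R) * D₁) -
    2 * (X ^ p + C (p : R) * N₁) * derivative D₁ with hw
  have hdX : derivative (X ^ p : R[X]) = C (p : R) * X ^ (2 * m) := by
    rw [derivative_X_pow, hm]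
    simp
  have hdN : derivative N = C (p : R) * (X ^ (2 * m) + derivative N₁) := by
    rw [hNe, derivative_add, hdX, derivative_C_mul]
    ring
  have hdD : derivative D = C (p : R) * derivative D₁ := by
    rw [hDe, derivative_add, derivative_one, derivative_C_mul, zero_add]
  have hW : derivative N * D - 2 * N * derivative D = C (p : R) * w := by
    rw [hdN, hdD, hw]
    conv_lhs => rw [hNe, hDe]
    ring
  have hE : fC q t * w ^ 2 = C lam ^ 2 * (N ^ 3 + C q * D ^ 2 * (N + C s * D ^ 2) ^ 2) := by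
    have h1 := h.eq
    rw [hW, C_mul] at h1
    have h2 : C (p : R) ^ 2 ≠ 0 := pow_ne_zero _ hCp
    apply mul_left_cancel₀ h2
    calc C (p : R) ^ 2 * (fC q t * w ^ 2) = fC q t * (C (p : R) * w) ^ 2 := by ring
      _ = (C (p : R) * C lam) ^ 2 * (N ^ 3 + C q * D ^ 2 * (N + C s * D ^ 2) ^ 2) := h1
      _ = _ := by ring
  -- the derivative form
  have hV : C (p : R) ∣ w - (X ^ (2 * m) + derivative (N₁ - 2 * X ^ p * D₁)) := by
    have h1 : derivative (N₁ - 2 * X ^ p * D₁) = derivative N₁ -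
        2 * (C (p : R) * X ^ (2 * m) * D₁ + X ^ p * derivative D₁) := by
      rw [derivative_sub, mul_assoc, show (2 : R[X]) = C 2 from rfl, derivative_C_mul,
        derivative_mul, hdX]
    rw [h1, hw]
    refine ⟨(X ^ (2 * m) + derivative N₁) * D₁ - 2 * N₁ * derivative D₁ +
      2 * X ^ (2 * m) * D₁, ?_⟩
    ring
  -- modulo `p`
  have hprime : (Ideal.span {(p : R)}).IsPrime :=
    (Ideal.span_singleton_prime hp0).2 hpR
  set π := Ideal.Quotient.mk (Ideal.span {(p : R)}) with hπ
  have hπp : π (p : R) = 0 := by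
    rw [hπ, Ideal.Quotient.eq_zero_iff_mem]
    exact Ideal.mem_span_singleton_self _
  have : CharP (R ⧸ Ideal.span {(p : R)}) p := by
    rw [CharP.charP_iff_prime_eq_zero hp]
    rw [← map_natCast π p]
    exact hπp
  have hfm : (fC q t).map π = fC (π q) (π t) := by
    simp [fC, Polynomial.map_add, Polynomial.map_mul, Polynomial.map_pow]
  have h4k : 4 * π q = 1 := by
    rw [← map_one π, ← h4, map_mul, map_ofNat]
  have htk : π t ^ p = π s := by
    rw [← map_pow, ← sub_eq_zero, ← map_sub, hπ, Ideal.Quotient.eq_zero_iff_mem,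
      Ideal.mem_span_singleton]
    exact h.ts
  have hNk : N.map π = X ^ p := by
    rw [hNe, Polynomial.map_add, Polynomial.map_mul, map_C, hπp, C_0, zero_mul, add_zero,
      Polynomial.map_pow, map_X]
  have hDk : D.map π = 1 := by
    rw [hDe, Polynomial.map_add, Polynomial.map_mul, map_C, hπp, C_0, zero_mul, add_zero,
      Polynomial.map_one]
  have hfrob := ModP_frob hp h4k htk
  have hmon := ModP_monic (π q) (π t)
  have hEk : fC (π q) (π t) * (w.map π) ^ 2 =
      C (π lam) ^ 2 * (X ^ (3 * p) + C (π q) * (X ^ p + C (π s)) ^ 2) := by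
    have h1 := congrArg (Polynomial.map π) hE
    simp only [Polynomial.map_add, Polynomial.map_mul, Polynomial.map_pow, map_C, hNk, hDk,
      hfm, one_pow, mul_one] at h1
    rw [h1, ← pow_mul, mul_comm p 3]
  rw [← hfrob] at hEk
  have hsq : (w.map π) ^ 2 = (C (π lam) * fC (π q) (π t) ^ m) ^ 2 := by
    apply mul_left_cancel₀ hmon.1.ne_zero
    rw [hEk]
    have h1 : fC (π q) (π t) ^ p = fC (π q) (π t) ^ (2 * m) * fC (π q) (π t) := by
      rw [← pow_succ]
      exact congrArg (fun j => fC (π q) (π t) ^ j) hm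
    rw [h1, mul_pow, ← pow_mul, mul_comm m 2]
    ring
  -- the reduction of `w`
  have hWk : w.map π = X ^ (2 * m) + derivative (N₁.map π) -
      2 * (X ^ p * derivative (D₁.map π)) := by
    rw [hw]
    simp only [Polynomial.map_sub, Polynomial.map_add, Polynomial.map_mul, Polynomial.map_pow,
      map_C, hπp, C_0, zero_mul, add_zero, Polynomial.map_one, mul_one, map_X, derivative_map,
      Polynomial.map_ofNat]
    ring
  have hNz : ∀ i, p ≤ i → (N₁.map π).coeff i = 0 := by
    intro i hi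
    rw [coeff_map, hN1z i hi, map_zero]
  have hc3 : (w.map π).coeff (3 * m) = π lam := by
    have e1 : 3 * m = (m - 1) + p := by omega
    rw [hWk, coeff_sub, coeff_add, coeff_X_pow, if_neg (by omega), coeff_derivative,
      hNz (3 * m + 1) (by omega), show (2 : (R ⧸ Ideal.span {(p : R)})[X]) = C 2 from rfl,
      coeff_C_mul]
    rw [e1, mul_comm (X ^ p) (derivative _), coeff_mul_X_pow, coeff_derivative, coeff_map,
      show m - 1 + 1 = m by omega, hD1m]
    have h1 : ((m - 1 : ℕ) : R ⧸ Ideal.span {(p : R)}) + 1 = (m : ℕ) := by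
      have : ((m - 1 + 1 : ℕ) : R ⧸ Ideal.span {(p : R)}) = (m : ℕ) := by
        rw [show m - 1 + 1 = m by omega]
      push_cast at this
      exact this
    rw [h1]
    have h2 : (2 : R ⧸ Ideal.span {(p : R)}) * (m : ℕ) + 1 = 0 := by
      have h3 : ((2 * m + 1 : ℕ) : R ⧸ Ideal.span {(p : R)}) = 0 := by
        rw [← hm]
        exact CharP.cast_eq_zero _ p
      push_cast at h3
      exact h3
    linear_combination (-(π lam)) * h2
  have hc2 : (w.map π).coeff (2 * m) = 1 := by
    rw [hWk, coeff_sub, coeff_add, coeff_X_pow, if_pos rfl, coeff_derivative,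
      hNz (2 * m + 1) (by omega), show (2 : (R ⧸ Ideal.span {(p : R)})[X]) = C 2 from rfl,
      coeff_C_mul, coeff_X_pow_mul', if_neg (by omega)]
    ring
  have hlead : (fC (π q) (π t) ^ m).coeff (3 * m) = 1 := by
    have h1 := (hmon.1.pow m).coeff_natDegree
    rw [hmon.1.natDegree_pow, hmon.2, mul_comm] at h1
    exact h1
  have hWf : w.map π = C (π lam) * fC (π q) (π t) ^ m := by
    rcases sq_eq_sq_iff_eq_or_eq_neg.1 hsq with h1 | h1
    · exact h1
    · have h2 : π lam = -(π lam) := by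
        conv_lhs => rw [← hc3, h1, coeff_neg, coeff_C_mul, hlead, mul_one]
      have h3 : π lam = 0 := by
        have h5' : 2 * π lam = 0 := by linear_combination h2
        calc π lam = (4 * π q) * π lam := by rw [h4k, one_mul]
          _ = 2 * π q * (2 * π lam) := by ring
          _ = 0 := by rw [h5', mul_zero]
      rw [h1, h3]
      simp
  have hU : C (p : R) ∣ w - C lam * fC q t ^ m := by
    rw [← ModP_map_zero, Polynomial.map_sub, Polynomial.map_mul, Polynomial.map_pow, map_C,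
      ← hπ, hfm, hWf, sub_self]
  have hL : (p : R) ∣ lam * (fC q t ^ m).coeff (2 * m) - 1 := by
    rw [← Ideal.mem_span_singleton, ← Ideal.Quotient.eq_zero_iff_mem, ← hπ, map_sub, map_mul,
      map_one, ← coeff_map, Polynomial.map_pow, hfm, ← coeff_C_mul, ← hWf, hc2, sub_self]
  exact ⟨N₁, D₁, w, hNe, hDe, hN1d, hN10, hD1d, hD1m, hW, hE, hU, hV, hL⟩

end Pool.Agent.MP_2a5e5c_nt
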