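import Pool.Agent.Lib.MP_2a5e5c_nt.Seq

/-!
# SUN, module SecO: the equation modulo p²

PROOF. Notation `P = C p`, `f = fC q t`, `g = fC q s`, `g(X^p) = expand R p g`,
`U₁ = N₁ - 2 X^p D₁`. `theta_exists`: `f^p - g(X^p)` is divisible by `P`: modulo `P` the ring
`(R/p)[X]` has characteristic `p`, `f^p = X^(3p) + q^p (X^p + t^p)²`, `q^p ≡ q`, `t^p ≡ s`.
`second`: put `w = lam f^m + P w₁`. Then `f w² = lam² f^p + 2 P lam f^(m+1) w₁ + P²(…)`
(`2m + 1 = p`). With `N = X^p + P N₁`, `D = 1 + P D₁`: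
`N³ + q D² (N + s D²)² = g(X^p) + P (g'(X^p) U₁ + 6 D₁ g(X^p)) + P² (…)`, because
`3 X^(2p) N₁ + 2 q D₁ (X^p + s)² + 2 q (X^p + s)(N₁ + 2 s D₁) = g'(X^p) U₁ + 6 D₁ g(X^p)` where
`g(X^p) = X^(3p) + q (X^p+s)²`, `g'(X^p) = 3 X^(2p) + 2 q (X^p + s)` (`ring`). Also
`g(X^p) = f^p - P θ`. Comparing, cancelling `lam² f^p` and one `P` (domain):
`2 lam f^(m+1) w₁ ≡ lam² (g'(X^p) U₁ - θ + 6 D₁ f^p)  mod P`. Multiply by `a²`, where
`a = (f^m).coeff (2m)`, `lam a ≡ 1 mod p`: `g'(X^p) U₁ - θ ≡ f^(m+1) (2 a w₁ - 6 D₁ f^m)`.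
-/

namespace Pool.Agent.MP_2a5e5c_nt

open Polynomial

private lemma pow_sub_self {R : Type*} [CommRing R] {p : ℕ} (hp : p.Prime) {q : R}
    (h4 : 4 * q = 1) : ∃ v : R, q ^ p = q + (p : R) * v := by
  have := Fact.mk hp
  obtain ⟨k, hk⟩ : (p : ℤ) ∣ (4 : ℤ) ^ p - 4 := by
    rw [← ZMod.intCast_zmod_eq_zero_iff_dvd]
    push_cast
    rw [ZMod.pow_card, sub_self]
  have h := congrArg (Int.cast : ℤ → R) hk
  push_cast at h
  have h4p : (4 : R) ^ p * q ^ p = 1 := by rw [← mul_pow, h4, one_pow]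
  refine ⟨-((k : R) * q ^ p * q), ?_⟩
  linear_combination (-(q ^ p)) * h4 + q * h4p - q ^ p * q * h

private lemma add_pow_prime {R : Type*} [CommRing R] {p : ℕ} (hp : p.Prime) (x y : R[X]) :
    ∃ r : R[X], (x + y) ^ p = x ^ p + y ^ p + C (p : R) * r := by
  obtain ⟨r, hr⟩ := exists_add_pow_prime_eq hp x y
  refine ⟨x * y * r, ?_⟩
  rw [hr, C_eq_natCast]
  ring

theorem theta_exists {R : Type*} [CommRing R] {p : ℕ} (hp : p.Prime) {q t s : R}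
    (h4 : 4 * q = 1) (hts : (p : R) ∣ t ^ p - s) :
    ∃ θ : R[X], fC q t ^ p = expand R p (fC q s) + C (p : R) * θ := by
  obtain ⟨v, hv⟩ := pow_sub_self hp h4
  obtain ⟨u, hu⟩ := hts
  obtain ⟨r₁, h₁⟩ := add_pow_prime hp ((X : R[X]) ^ 3) (C q * (X + C t) ^ 2)
  obtain ⟨r₂, h₂⟩ := add_pow_prime hp (X : R[X]) (C t)
  have hv' : (C q : R[X]) ^ p = C q + C (p : R) * C v := by
    rw [← C_pow, hv, C_add, C_mul]
  have hu' : (C t : R[X]) ^ p = C s + C (p : R) * C u := by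
    rw [← C_pow, ← C_mul, ← hu, ← C_add, add_sub_cancel]
  have hG : expand R p (fC q s) = (X ^ p) ^ 3 + C q * (X ^ p + C s) ^ 2 := by
    simp [fC]
  rw [hG]
  unfold fC
  rw [h₁, mul_pow, ← pow_mul (X + C t), mul_comm 2 p, pow_mul (X + C t), h₂, hv', hu',
    ← pow_mul X 3 p, mul_comm 3 p, pow_mul X p 3]
  generalize (X : R[X]) ^ p = x
  refine ⟨r₁ + C v * (x + (C s + C (p : R) * C u) + C (p : R) * r₂) ^ 2 +
    C q * (C u + r₂) * (2 * (x + C s) + C (p : R) * (C u + r₂)), ?_⟩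
  ring

private lemma second_aux {A : Type*} [CommRing A] [IsDomain A] {P L a c q s x f g w D N θ Z : A}
    (hP : P ≠ 0) (hc : L * a = 1 + P * c)
    (hθ : f * g ^ 2 = x ^ 3 + q * (x + s) ^ 2 + P * θ)
    (he : f * (L * g + P * w) ^ 2 = L ^ 2 * ((x + P * N) ^ 3 +
      q * (1 + P * D) ^ 2 * (x + P * N + s * (1 + P * D) ^ 2) ^ 2))
    (hZ : Z = 2 * a * w - 6 * D * g) :
    P ∣ (3 * x ^ 2 + 2 * q * (x + s)) * (N - 2 * x * D) - θ - f * g * Z := by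
  obtain ⟨B, hB⟩ : ∃ B : A, (x + P * N) ^ 3 +
      q * (1 + P * D) ^ 2 * (x + P * N + s * (1 + P * D) ^ 2) ^ 2 =
      (x ^ 3 + q * (x + s) ^ 2) + P * ((3 * x ^ 2 + 2 * q * (x + s)) * (N - 2 * x * D) +
        6 * D * (x ^ 3 + q * (x + s) ^ 2)) + P ^ 2 * B := by
    refine ⟨3 * x * N ^ 2 + P * N ^ 3 + q * (2 * (x + s) * s * D ^ 2 +
      (N + 2 * s * D + P * s * D ^ 2) ^ 2 +
      4 * D * (x + s) * (N + 2 * s * D + P * s * D ^ 2) + D ^ 2 * (x + s) ^ 2 +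
      P * (2 * D * (N + 2 * s * D + P * s * D ^ 2) ^ 2 +
        2 * D ^ 2 * (x + s) * (N + 2 * s * D + P * s * D ^ 2)) +
      P ^ 2 * D ^ 2 * (N + 2 * s * D + P * s * D ^ 2) ^ 2), ?_⟩
    ring
  rw [hB] at he
  generalize hT : (3 * x ^ 2 + 2 * q * (x + s)) * (N - 2 * x * D) = T at he ⊢
  have hG : x ^ 3 + q * (x + s) ^ 2 = f * g ^ 2 - P * θ := by rw [hθ]; ring
  rw [hG] at he
  have H : 2 * L * f * g * w + P * f * w ^ 2 =
      L ^ 2 * (-θ + T + 6 * D * f * g ^ 2 - 6 * D * P * θ + P * B) := by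
    refine mul_left_cancel₀ hP ?_
    linear_combination he
  refine ⟨2 * c * a * f * g * w + a ^ 2 * f * w ^ 2 -
    6 * (2 * c + P * c ^ 2) * D * f * g ^ 2 + (L * a) ^ 2 * (6 * D * θ - B) -
    (2 * c + P * c ^ 2) * (T - θ), ?_⟩
  rw [hZ]
  linear_combination (-a ^ 2) * H +
    (2 * a * f * g * w - (T - θ + 6 * D * f * g ^ 2) * (L * a + 1 + P * c)) * hc

theorem second {R : Type*} [CommRing R] [IsDomain R] [CharZero R] {p m : ℕ} (hp : p.Prime)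
    (h5 : 5 ≤ p) (hm : p = 2 * m + 1) (hpR : Prime (p : R)) {q t s lam : R}
    (h4 : 4 * q = 1) {N D N₁ D₁ w θ : R[X]} (hN : N = X ^ p + C (p : R) * N₁)
    (hD : D = 1 + C (p : R) * D₁)
    (he : fC q t * w ^ 2 = C lam ^ 2 * (N ^ 3 + C q * D ^ 2 * (N + C s * D ^ 2) ^ 2))
    (hw : C (p : R) ∣ w - C lam * fC q t ^ m)
    (ha : (p : R) ∣ lam * (fC q t ^ m).coeff (2 * m) - 1)
    (hθ : fC q t ^ p = expand R p (fC q s) + C (p : R) * θ) :
    ∃ Z : R[X], C (p : R) ∣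
      expand R p (derivative (fC q s)) * (N₁ - 2 * X ^ p * D₁) - θ - fC q t ^ (m + 1) * Z := by
  obtain ⟨w₁, hw₁⟩ := hw
  obtain ⟨c, hc⟩ := ha
  have hG : expand R p (fC q s) = (X ^ p) ^ 3 + C q * (X ^ p + C s) ^ 2 := by
    simp [fC]
  have hG' : expand R p (derivative (fC q s)) = 3 * (X ^ p) ^ 2 + 2 * C q * (X ^ p + C s) := by
    have h : derivative (fC q s) = 3 * X ^ 2 + 2 * C q * (X + C s) := by
      simp only [fC, derivative_add, derivative_mul, derivative_C, derivative_pow,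
        derivative_X]
      rw [C_eq_natCast, C_eq_natCast]
      push_cast
      ring
    have e3 : expand R p (3 : R[X]) = 3 := map_ofNat _ 3
    have e2 : expand R p (2 : R[X]) = 2 := map_ofNat _ 2
    rw [h]
    simp [e2, e3]
  have hfm : fC q t ^ p = fC q t * (fC q t ^ m) ^ 2 := by
    rw [← pow_mul, ← pow_succ', hm, mul_comm m 2]
  have hfs : fC q t ^ (m + 1) = fC q t * fC q t ^ m := pow_succ' _ _
  have hw₂ : w = C lam * fC q t ^ m + C (p : R) * w₁ := by rw [← hw₁]; ring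
  have hc' : C lam * C ((fC q t ^ m).coeff (2 * m)) = 1 + C (p : R) * C c := by
    rw [← C_mul, ← C_mul, ← hc, C_sub, C_1]; ring
  have hP : (C (p : R) : R[X]) ≠ 0 := by
    rw [Ne, C_eq_zero]
    exact hpR.ne_zero
  rw [hG, hfm] at hθ
  rw [hG', hfs]
  rw [hw₂, hN, hD] at he
  exact ⟨_, second_aux hP hc' hθ he rfl⟩

end Pool.Agent.MP_2a5e5c_nt
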