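import Pool.Agent.Lib.MP_2a5e5c_nt.CartB
import Pool.Agent.Lib.MP_2a5e5c_nt.ModP
import Pool.Agent.Lib.MP_2a5e5c_nt.SecO

/-!
# SUN, module CartM: the Cartier argument

PROOF. Notation of `ModP`, `SecO`; `P = C p`, congruences are modulo `P`, `a = (f^m).coeff(2m)`,
`U₁ = N₁ - 2 X^p D₁`, `g = fC q s = X³ + q X² + 2 q s X + q s²`, `γ = D₁.coeff 0`. Multiply the
result of `second` by `f^m` and use `f^(2m+1) ≡ g(X^p)`:
`g'(X^p) U₁ f^m - θ f^m ≡ g(X^p) Z`. Apply `cart` (`cart_expand`, `cart_dvd`):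
`g' cart(U₁ f^m) - cart(θ f^m) ≡ g cart(Z)`.
(1) `cart(U₁ f^m) ≡ -2 γ a X`: from `modp` `lam f^m ≡ w ≡ X^(p-1) + U₁'`, so
`lam cart(U₁ f^m) ≡ cart(U₁ X^(p-1)) + cart(U₁ U₁')`; `2 U₁ U₁' = (U₁²)'`, so the last term is
`≡ 0` (`cart_deriv`; 2 is invertible). `cart_Xpow`: the coefficient `i` of the first term is
`U₁.coeff (p i)`: `0` for `i = 0` (`N₁(0) = 0`), `-2γ` for `i = 1` (`deg N₁ < p`), `0` for
`i ≥ 2` (`deg D₁ ≤ m < p`). Multiply by `a` (`lam a ≡ 1`).
(2) Exactly: `P cart(θ f^m) = cart(f^(3m+1)) - g * C a`, since `P θ = f^p - g(X^p)`,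
`p + m = 3m + 1`, and `cart(f^m) = C a` (`cart_small`, degree `3m < 4m + 1`). So `c = cart(θ f^m)`
has coefficients with `p cⱼ = Bⱼ - gⱼ a`, `Bⱼ = (f^(3m+1)).coeff (p j + p - 1)`, and `c` has
degree `≤ 3` (`(p j + p - 1) > 9m + 3` for `j ≥ 4`).
(3) `-2γ a X g' - c ≡ g cart(Z)`; the left side has degree `≤ 3` and `g` is monic of degree 3 over
the domain `R/p`, so `cart(Z)` is a constant `-e` modulo `p`. Coefficients
(`X g' = 3X³ + 2q X² + 2qs X`): `X³`: `c₃ + 6γa ≡ e`; `X²`: `c₂ + 4qγa ≡ q e`; `X⁰`: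
`c₀ ≡ q s² e`. With `4q = 1`: `2γa ≡ 4c₂ - c₃`, `e ≡ 12c₂ - 2c₃`. Multiply by `p`:
`2 a p γ ≡ 4(B₂ - q a) - (B₃ - a) = 4B₂ - B₃ mod p²`; multiply by `2 q lam` (`4q = 1`,
`lam a ≡ 1 mod p`, `p γ = D(0) - 1`): `D(0) - 1 ≡ lam (2B₂ - 2q B₃) mod p²`. And
`B₀ - q s² a ≡ q s² (12(B₂ - q a) - 2(B₃ - a))`, i.e. `B₀ ≡ s² (3B₂ - 2q B₃) mod p²`. Finally
`p c₂ = B₂ - q a`, `p c₃ = B₃ - a` give the last two claims. (`3p - 1 = 6m+2`,
`4p - 1 = 8m + 3`, `p - 1 = 2m`.)
-/

namespace Pool.Agent.MP_2a5e5c_nt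

open Polynomial

private lemma CartM_coeff {R : Type*} [CommRing R] (q s : R) :
    (fC q s).coeff 0 = q * s ^ 2 ∧ (fC q s).coeff 2 = q ∧ (fC q s).coeff 3 = 1 ∧
      ∀ j, 4 ≤ j → (fC q s).coeff j = 0 := by
  have e : fC q s = X ^ 3 + C q * X ^ 2 + C (2 * q * s) * X ^ 1 + C (q * s ^ 2) * X ^ 0 := by
    unfold fC
    simp only [map_mul, map_pow, map_ofNat, pow_one, pow_zero, mul_one]
    ring
  rw [e]
  refine ⟨?_, ?_, ?_, ?_⟩
  · simp only [coeff_add, coeff_X_pow, coeff_C_mul]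
    norm_num
  · simp only [coeff_add, coeff_X_pow, coeff_C_mul]
    norm_num
  · simp only [coeff_add, coeff_X_pow, coeff_C_mul]
    norm_num
  · intro j hj
    have h1 : j ≠ 3 := by omega
    have h2 : j ≠ 2 := by omega
    have h3 : j ≠ 1 := by omega
    have h4 : j ≠ 0 := by omega
    simp only [coeff_add, coeff_X_pow, coeff_C_mul, h1, h2, h3, h4, if_false, mul_zero, add_zero]

private lemma CartM_der {R : Type*} [CommRing R] (q s : R) :
    (X * derivative (fC q s)).coeff 0 = 0 ∧ (X * derivative (fC q s)).coeff 2 = 2 * q ∧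
      (X * derivative (fC q s)).coeff 3 = 3 ∧
      ∀ j, 4 ≤ j → (X * derivative (fC q s)).coeff j = 0 := by
  have h := CartM_coeff q s
  refine ⟨?_, ?_, ?_, ?_⟩
  · simp
  · rw [coeff_X_mul, coeff_derivative]
    norm_num
    rw [h.2.1]
    ring
  · rw [coeff_X_mul, coeff_derivative]
    norm_num
    rw [h.2.2.1]
    ring
  · intro j hj
    obtain ⟨i, rfl⟩ : ∃ i, j = i + 1 := ⟨j - 1, by omega⟩
    rw [coeff_X_mul, coeff_derivative, h.2.2.2 (i + 1) hj, zero_mul]

private lemma CartM_natDegree {R : Type*} [CommRing R] (q s : R) :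
    (fC q s).natDegree ≤ 3 := by
  rw [natDegree_le_iff_coeff_eq_zero]
  intro j hj
  exact (CartM_coeff q s).2.2.2 j (by omega)

private lemma CartM_monic {R : Type*} [CommRing R] [Nontrivial R] (q s : R) :
    (fC q s).Monic ∧ (fC q s).natDegree = 3 := by
  have h3 : (fC q s).natDegree = 3 := by
    refine le_antisymm (CartM_natDegree q s) ?_
    refine le_natDegree_of_ne_zero ?_
    rw [(CartM_coeff q s).2.2.1]
    exact one_ne_zero
  refine ⟨?_, h3⟩
  rw [Monic, leadingCoeff, h3]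
  exact (CartM_coeff q s).2.2.1

private lemma CartM_map {R k : Type*} [CommRing R] [CommRing k] (φ : R →+* k) (q s : R) :
    (fC q s).map φ = fC (φ q) (φ s) := by
  simp [fC]

/-- the division step -/
private lemma CartM_div {R : Type*} [CommRing R] {π q s : R} (hπ : Prime π) {L Y : R[X]}
    (hL : L.natDegree ≤ 3) (h : C π ∣ L - fC q s * Y) :
    ∃ y : R, π ∣ L.coeff 3 - y ∧ π ∣ L.coeff 2 - q * y ∧ π ∣ L.coeff 0 - q * s ^ 2 * y := by
  have hI : (Ideal.span {π}).IsPrime := (Ideal.span_singleton_prime hπ.ne_zero).2 hπ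
  have : IsDomain (R ⧸ Ideal.span {π}) := Ideal.Quotient.isDomain _
  let φ : R →+* R ⧸ Ideal.span {π} := Ideal.Quotient.mk _
  have hφ : ∀ x, φ x = 0 ↔ π ∣ x := fun x => by
    rw [Ideal.Quotient.eq_zero_iff_mem, Ideal.mem_span_singleton]
  have hmap : L.map φ = (fC q s).map φ * Y.map φ := by
    obtain ⟨W, hW⟩ := h
    have := congrArg (Polynomial.map φ) hW
    rw [Polynomial.map_sub, Polynomial.map_mul, Polynomial.map_mul, map_C, (hφ π).2 dvd_rfl,
      C_0, zero_mul, sub_eq_zero] at this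
    exact this
  have hm := CartM_monic (φ q) (φ s)
  have hY : (Y.map φ).natDegree = 0 := by
    by_contra hne
    have hY0 : Y.map φ ≠ 0 := by
      intro h0
      rw [h0, natDegree_zero] at hne
      exact hne rfl
    have h1 : (L.map φ).natDegree ≤ 3 := (natDegree_map_le).trans hL
    rw [hmap, CartM_map, hm.1.natDegree_mul' hY0, hm.2] at h1
    omega
  have hYc : Y.map φ = C (φ (Y.coeff 0)) := by
    rw [← coeff_map]
    exact eq_C_of_natDegree_eq_zero hY
  have hco : ∀ j, φ (L.coeff j) = φ ((fC q s).coeff j) * φ (Y.coeff 0) := by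
    intro j
    have := congrArg (fun z => z.coeff j) hmap
    simp only [coeff_map, hYc, coeff_mul_C] at this
    exact this
  have hc := CartM_coeff q s
  refine ⟨Y.coeff 0, ?_, ?_, ?_⟩
  · rw [← hφ, map_sub, hco 3, hc.2.2.1, map_one, one_mul, sub_self]
  · rw [← hφ, map_sub, hco 2, hc.2.1, map_mul, sub_self]
  · rw [← hφ, map_sub, hco 0, hc.1, map_mul φ (q * s ^ 2), sub_self]

theorem cartier_main {R : Type*} [CommRing R] [IsDomain R] [CharZero R] {p m : ℕ}
    (hp : p.Prime) (h5 : 5 ≤ p) (hm : p = 2 * m + 1) (hpR : Prime (p : R)) {q t s lam : R}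
    (h4 : 4 * q = 1) {N D : R[X]} (h : IsogData R p m q t s (p * lam) N D) :
    (p : R) ^ 2 ∣ (D.coeff 0 - 1) - lam * (2 * (fC q t ^ (3 * m + 1)).coeff (6 * m + 2) -
        2 * q * (fC q t ^ (3 * m + 1)).coeff (8 * m + 3)) ∧
    (p : R) ^ 2 ∣ (fC q t ^ (3 * m + 1)).coeff (2 * m) -
        s ^ 2 * (3 * (fC q t ^ (3 * m + 1)).coeff (6 * m + 2) -
        2 * q * (fC q t ^ (3 * m + 1)).coeff (8 * m + 3)) ∧
    (p : R) ∣ lam * (fC q t ^ m).coeff (2 * m) - 1 ∧
    (p : R) ∣ (fC q t ^ (3 * m + 1)).coeff (6 * m + 2) - q * (fC q t ^ m).coeff (2 * m) ∧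
    (p : R) ∣ (fC q t ^ (3 * m + 1)).coeff (8 * m + 3) - (fC q t ^ m).coeff (2 * m) := by
  classical
  obtain ⟨N₁, D₁, w, hN, hD, hN1, hN10, hD1, hD1m, hw0, hwe, hw1, hw2, ha⟩ :=
    modp hp h5 hm hpR h4 h
  obtain ⟨θ, hθ⟩ := theta_exists hp h4 h.ts
  obtain ⟨Z, hZ⟩ := second hp h5 hm hpR h4 hN hD hwe hw1 ha hθ
  have hp0 : 0 < p := hp.pos
  have hpne : (p : R) ≠ 0 := Nat.cast_ne_zero.2 hp.ne_zero
  set f : R[X] := fC q t with hf
  set g : R[X] := fC q s with hg
  set a : R := (f ^ m).coeff (2 * m) with hadef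
  set U : R[X] := N₁ - 2 * X ^ p * D₁ with hU
  set γ : R := D₁.coeff 0 with hγ
  have hfd : f.natDegree ≤ 3 := CartM_natDegree q t
  have hfp : f ^ (2 * m + 1) = expand R p g + C (p : R) * θ := by rw [← hm]; exact hθ
  -- the equation after multiplication by `f ^ m`
  have h1 : C (p : R) ∣ expand R p (derivative g) * (U * f ^ m) - θ * f ^ m -
      expand R p g * Z := by
    have e : expand R p (derivative g) * (U * f ^ m) - θ * f ^ m - expand R p g * Z =
        (expand R p (derivative g) * U - θ - f ^ (m + 1) * Z) * f ^ m + C (p : R) * (θ * Z) := by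
      have e2 : f ^ (m + 1) * f ^ m = expand R p g + C (p : R) * θ := by
        rw [← hfp, ← pow_add]
        congr 1
        omega
      linear_combination Z * e2
    rw [e]
    exact dvd_add (dvd_mul_of_dvd_left hZ _) (dvd_mul_right _ _)
  have h2 : C (p : R) ∣ derivative g * cart p (U * f ^ m) - cart p (θ * f ^ m) -
      g * cart p Z := by
    have := cart_dvd hp0 h1
    rwa [cart_sub hp0, cart_sub hp0, cart_expand hp0, cart_expand hp0] at this
  -- step (1)
  have h3 : cart p (U * X ^ (p - 1)) = C (-2 * γ) * X := by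
    ext i
    rw [cart_Xpow hp0]
    have hUc : ∀ n, p ≤ n → U.coeff n = - 2 * D₁.coeff (n - p) := by
      intro n hn
      have hz : N₁.coeff n = 0 := coeff_eq_zero_of_natDegree_lt (lt_of_lt_of_le hN1 hn)
      have e : (2 * X ^ p * D₁ : R[X]) = C 2 * (X ^ p * D₁) := by
        rw [map_ofNat, mul_assoc]
      rw [hU, coeff_sub, hz, e, coeff_C_mul, coeff_X_pow_mul', if_pos hn]
      ring
    match i with
    | 0 =>
      have e : (2 * X ^ p * D₁ : R[X]) = C 2 * (X ^ p * D₁) := by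
        rw [map_ofNat, mul_assoc]
      rw [mul_zero, hU, coeff_sub, hN10, e, coeff_C_mul, coeff_X_pow_mul', if_neg (by omega),
        coeff_C_mul, coeff_X_zero]
      ring
    | 1 =>
      rw [mul_one, hUc p le_rfl, Nat.sub_self, coeff_C_mul, coeff_X_one, mul_one]
    | i + 2 =>
      have h20 : p * (i + 2) - p = p * (i + 1) := by
        rw [Nat.mul_add p i 2, Nat.mul_add p i 1]
        omega
      rw [hUc _ (by nlinarith), h20, coeff_eq_zero_of_natDegree_lt (by
        refine lt_of_le_of_lt hD1 ?_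
        nlinarith), coeff_C_mul, coeff_X_of_ne_one (by omega)]
      ring
  have h4' : (2 : R) * (2 * q) = 1 := by linear_combination h4
  have h5' : C (p : R) ∣ cart p (U * derivative U) := by
    have e : cart p (U * derivative U) = C (2 * q) * cart p (derivative (U ^ 2)) := by
      rw [derivative_pow]
      have e1 : (C ((2 : ℕ) : R) * U ^ (2 - 1) * derivative U : R[X]) =
          C 2 * (U * derivative U) := by
        norm_num
        ring
      rw [e1, cart_C_mul hp0, ← mul_assoc, ← C_mul, mul_comm (2 * q) 2, h4', C_1, one_mul]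
    rw [e]
    exact dvd_mul_of_dvd_right (cart_deriv hp0 _) _
  have h6 : C (p : R) ∣ C lam * cart p (U * f ^ m) - C (-2 * γ) * X := by
    have e1 : C (p : R) ∣ C lam * (U * f ^ m) - (U * X ^ (p - 1) + U * derivative U) := by
      have e2 : C lam * (U * f ^ m) - (U * X ^ (p - 1) + U * derivative U) =
          U * ((w - (X ^ (2 * m) + derivative U)) - (w - C lam * f ^ m)) := by
        have e3 : p - 1 = 2 * m := by omega
        rw [e3]
        ring
      rw [e2]
      exact dvd_mul_of_dvd_right (dvd_sub hw2 hw1) _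
    have e4 := cart_dvd hp0 e1
    rw [cart_sub hp0, cart_add hp0, cart_C_mul hp0, h3] at e4
    have e5 := dvd_add e4 h5'
    have e6 : C lam * cart p (U * f ^ m) - (C (-2 * γ) * X + cart p (U * derivative U)) +
        cart p (U * derivative U) = C lam * cart p (U * f ^ m) - C (-2 * γ) * X := by ring
    rwa [e6] at e5
  have h7 : C (p : R) ∣ cart p (U * f ^ m) - C (-2 * γ * a) * X := by
    have e1 : cart p (U * f ^ m) - C (-2 * γ * a) * X =
        C a * (C lam * cart p (U * f ^ m) - C (-2 * γ) * X) -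
          C (lam * a - 1) * cart p (U * f ^ m) := by
      simp only [map_mul, map_sub, map_neg, map_ofNat, map_one]
      ring
    rw [e1]
    refine dvd_sub (dvd_mul_of_dvd_right h6 _) (dvd_mul_of_dvd_left ?_ _)
    exact map_dvd C ha
  -- step (2)
  set c : R[X] := cart p (θ * f ^ m) with hc
  have h8 : ∀ j, (p : R) * c.coeff j =
      (f ^ (3 * m + 1)).coeff (p * j + p - 1) - g.coeff j * a := by
    intro j
    have e1 : C (p : R) * c = cart p (f ^ (3 * m + 1)) - g * C a := by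
      have e2 : C (p : R) * (θ * f ^ m) = f ^ (3 * m + 1) - expand R p g * f ^ m := by
        have e3 : f ^ (3 * m + 1) = f ^ (2 * m + 1) * f ^ m := by
          rw [← pow_add]
          congr 1
          omega
        rw [e3, hfp]
        ring
      have e4 : cart p (f ^ m) = C a := by
        rw [cart_small hp0]
        · have : p - 1 = 2 * m := by omega
          rw [this]
        · refine lt_of_le_of_lt (natDegree_pow_le_of_le m hfd) ?_
          omega
      rw [hc, ← cart_C_mul hp0, e2, cart_sub hp0, cart_expand hp0, e4]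
    have e5 := congrArg (fun z => z.coeff j) e1
    simp only [coeff_C_mul, coeff_sub, coeff_mul_C, cart_coeff hp0] at e5
    exact e5
  have hgc := CartM_coeff q s
  have hc4 : c.natDegree ≤ 3 := by
    rw [natDegree_le_iff_coeff_eq_zero]
    intro j hj
    have e1 := h8 j
    have e2 : (f ^ (3 * m + 1)).coeff (p * j + p - 1) = 0 := by
      refine coeff_eq_zero_of_natDegree_lt ?_
      refine lt_of_le_of_lt (natDegree_pow_le_of_le (3 * m + 1) hfd) ?_
      have : p * 4 ≤ p * j := Nat.mul_le_mul_left p hj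
      omega
    rw [hgc.2.2.2 j (by omega), e2, zero_mul, sub_zero] at e1
    exact (mul_eq_zero.1 e1).resolve_left hpne
  -- step (3)
  have h9 : C (p : R) ∣ (C (-2 * γ * a) * (X * derivative g) - c) - g * cart p Z := by
    have e1 : (C (-2 * γ * a) * (X * derivative g) - c) - g * cart p Z =
        (derivative g * cart p (U * f ^ m) - c - g * cart p Z) -
          derivative g * (cart p (U * f ^ m) - C (-2 * γ * a) * X) := by ring
    rw [e1]
    exact dvd_sub h2 (dvd_mul_of_dvd_right h7 _)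
  have hgd := CartM_der q s
  have hLd : (C (-2 * γ * a) * (X * derivative g) - c).natDegree ≤ 3 := by
    rw [natDegree_le_iff_coeff_eq_zero]
    intro j hj
    rw [coeff_sub, coeff_C_mul, hgd.2.2.2 j (by omega),
      coeff_eq_zero_of_natDegree_lt (lt_of_le_of_lt hc4 hj), mul_zero, sub_zero]
  obtain ⟨y, hy3, hy2, hy0⟩ := CartM_div hpR hLd h9
  rw [coeff_sub, coeff_C_mul, hgd.2.2.1] at hy3
  rw [coeff_sub, coeff_C_mul, hgd.2.1] at hy2
  rw [coeff_sub, coeff_C_mul, hgd.1] at hy0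
  have b0 := h8 0
  have b2 := h8 2
  have b3 := h8 3
  rw [hgc.1, show p * 0 + p - 1 = 2 * m by omega] at b0
  rw [hgc.2.1, show p * 2 + p - 1 = 6 * m + 2 by omega] at b2
  rw [hgc.2.2.1, show p * 3 + p - 1 = 8 * m + 3 by omega, one_mul] at b3
  generalize (f ^ (3 * m + 1)).coeff (2 * m) = B0 at *
  generalize (f ^ (3 * m + 1)).coeff (6 * m + 2) = B2 at *
  generalize (f ^ (3 * m + 1)).coeff (8 * m + 3) = B3 at *
  generalize c.coeff 0 = c0 at *
  generalize c.coeff 2 = c2 at *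
  generalize c.coeff 3 = c3 at *
  have hDg : D.coeff 0 - 1 = (p : R) * γ := by
    rw [hD, coeff_add, coeff_one_zero, coeff_C_mul]
    ring
  obtain ⟨z3, hz3⟩ := hy3
  obtain ⟨z2, hz2⟩ := hy2
  obtain ⟨z0, hz0⟩ := hy0
  obtain ⟨l, hl⟩ := ha
  refine ⟨?_, ?_, ⟨l, hl⟩, ⟨c2, b2.symm⟩, ⟨c3, b3.symm⟩⟩
  · rw [hDg]
    refine ⟨2 * q * lam * (4 * z2 - z3) - l * γ, ?_⟩
    linear_combination 2 * q * lam * p * (4 * hz2 - hz3) + 8 * q * lam * b2 - 2 * q * lam * b3 +
      (2 * lam * B2 - 2 * q * lam * a + 8 * q * lam * p * γ * a - lam * a * p * γ +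
        2 * q * lam * p * y) * h4 - p * γ * hl
  · refine ⟨q * s ^ 2 * (12 * z2 - 2 * z3) - z0, ?_⟩
    linear_combination (-(p : R)) * hz0 + q * s ^ 2 * p * (12 * hz2 - 2 * hz3) - b0 +
      12 * q * s ^ 2 * b2 - 2 * q * s ^ 2 * b3 +
      (12 * γ * a * q * s ^ 2 * p + 3 * q * s ^ 2 * p * y + 3 * s ^ 2 * B2 -
        3 * q * s ^ 2 * a) * h4

end Pool.Agent.MP_2a5e5c_nt
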