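import Pool.Agent.Lib.MP_2a5e5c_nt.Defs

/-!
# SUN, module Cert: the forms F0, F1, F2 have no common zero

PROOF. `cert`: this is `WeierstrassCurve.addSubMapCoeff_condition` (Mathlib,
`AlgebraicGeometry/EllipticCurve/Affine/AddSubMap.lean`) for `b₂ = 1, b₄ = s, b₆ = s²,
b₈ = 0`: with `Δ = s³ - 27 s⁴`
`Δ x⁴ = (Δ x² - 2 s⁴ x y + s⁵ x z - 3 s⁵ y² - 3 s⁶ y z) F0
       + (s⁴ x² - 2 s⁵ x y - 3 s⁶ y²) F1 + (7 s⁵ x² + 6 s⁶ x y) F2`,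
`Δ y⁴ = (96 s² x y + 12 s² y² + 16 s³ y z) F0 + (-48 s² x² + 16 s³ y²) F1
       + (-12 s² x² - 32 s³ x y - 12 s⁴ x z + Δ y² - 4 s⁴ y z) F2`,
`Δ z⁴ = (-12 y² - 4 y z + (1 - 32 s) z²) F0 + (6 x y - x z - 5 s y z + (s - 27 s²) z²) F1
       + (-8 s x z - 12 s² y z + s² z²) F2`
(check with `ring` after unfolding; if a coefficient above has a slip take it from
`addSubMapCoeff`). `nobase`: in a domain `Δ ≠ 0` and `Δ x⁴ = 0` give `x = 0`, same for `y`, `z`.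
`law_ne`: if both pairs are nonzero then the triple `(N₁N₂, N₁M₂ + M₁N₂, M₁M₂)` is nonzero
(domain).
-/

namespace Pool.Agent.MP_2a5e5c_nt

theorem cert {A : Type*} [CommRing A] (s x y z : A) :
    ∃ a₀ a₁ a₂ b₀ b₁ b₂ c₀ c₁ c₂ : A,
      (s ^ 3 - 27 * s ^ 4) * x ^ 4 = a₀ * F0 s x y z + a₁ * F1 s x y z + a₂ * F2 s x y z ∧
      (s ^ 3 - 27 * s ^ 4) * y ^ 4 = b₀ * F0 s x y z + b₁ * F1 s x y z + b₂ * F2 s x y z ∧
      (s ^ 3 - 27 * s ^ 4) * z ^ 4 = c₀ * F0 s x y z + c₁ * F1 s x y z + c₂ * F2 s x y z := by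
  refine ⟨(s ^ 3 - 27 * s ^ 4) * x ^ 2 - 2 * s ^ 4 * x * y + s ^ 5 * x * z -
      3 * s ^ 5 * y ^ 2 - 3 * s ^ 6 * y * z,
    s ^ 4 * x ^ 2 - 2 * s ^ 5 * x * y - 3 * s ^ 6 * y ^ 2,
    7 * s ^ 5 * x ^ 2 + 6 * s ^ 6 * x * y,
    96 * s ^ 2 * x * y + 12 * s ^ 2 * y ^ 2 + 16 * s ^ 3 * y * z,
    -48 * s ^ 2 * x ^ 2 + 16 * s ^ 3 * y ^ 2,
    -12 * s ^ 2 * x ^ 2 - 32 * s ^ 3 * x * y - 12 * s ^ 4 * x * z +
      (s ^ 3 - 27 * s ^ 4) * y ^ 2 - 4 * s ^ 4 * y * z,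
    -12 * y ^ 2 - 4 * y * z + (1 - 32 * s) * z ^ 2,
    6 * x * y - x * z - 5 * s * y * z + (s - 27 * s ^ 2) * z ^ 2,
    -8 * s * x * z - 12 * s ^ 2 * y * z + s ^ 2 * z ^ 2, ?_, ?_, ?_⟩
  · unfold F0 F1 F2
    ring
  · unfold F0 F1 F2
    ring
  · unfold F0 F1 F2
    ring

theorem nobase {A : Type*} [CommRing A] [IsDomain A] {s x y z : A} (hs : s ≠ 0)
    (h27 : 27 * s ≠ 1) (h0 : F0 s x y z = 0) (h1 : F1 s x y z = 0) (h2 : F2 s x y z = 0) :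
    x = 0 ∧ y = 0 ∧ z = 0 := by
  obtain ⟨a₀, a₁, a₂, b₀, b₁, b₂, c₀, c₁, c₂, ha, hb, hc⟩ := cert s x y z
  rw [h0, h1, h2, mul_zero, mul_zero, mul_zero, add_zero, add_zero] at ha hb hc
  have hD : s ^ 3 - 27 * s ^ 4 ≠ 0 := by
    have h3 : s ^ 3 - 27 * s ^ 4 = s ^ 3 * (1 - 27 * s) := by ring
    rw [h3]
    exact mul_ne_zero (pow_ne_zero 3 hs) (sub_ne_zero.2 h27.symm)
  exact ⟨eq_zero_of_pow_eq_zero ((mul_eq_zero.1 ha).resolve_left hD),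
    eq_zero_of_pow_eq_zero ((mul_eq_zero.1 hb).resolve_left hD),
    eq_zero_of_pow_eq_zero ((mul_eq_zero.1 hc).resolve_left hD)⟩

theorem sym_ne {A : Type*} [CommRing A] [IsDomain A] {N₁ M₁ N₂ M₂ : A}
    (h1 : N₁ ≠ 0 ∨ M₁ ≠ 0) (h2 : N₂ ≠ 0 ∨ M₂ ≠ 0) :
    ¬ (N₁ * N₂ = 0 ∧ N₁ * M₂ + M₁ * N₂ = 0 ∧ M₁ * M₂ = 0) := by
  rintro ⟨e1, e2, e3⟩
  rcases mul_eq_zero.1 e1 with h | h
  · rcases h1 with h1 | h1
    · exact h1 h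
    · rw [h, zero_mul, zero_add] at e2
      have h3 := (mul_eq_zero.1 e2).resolve_left h1
      have h4 := (mul_eq_zero.1 e3).resolve_left h1
      rcases h2 with h2 | h2
      · exact h2 h3
      · exact h2 h4
  · rcases h2 with h2 | h2
    · exact h2 h
    · rw [h, mul_zero, add_zero] at e2
      have h3 := (mul_eq_zero.1 e2).resolve_right h2
      have h4 := (mul_eq_zero.1 e3).resolve_right h2
      rcases h1 with h1 | h1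
      · exact h1 h3
      · exact h1 h4

end Pool.Agent.MP_2a5e5c_nt
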