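import Pool.Agent.Lib.MP_2a5e5c_nt.Seq

/-!
# SUN, module CoefF: coefficients of powers of the cubic

PROOF. `f^n = ∑_J C(n,J) X^(3(n-J)) q^J (X + t)^(2J)` (binomial theorem, `add_pow`). The
coefficient of `X^M` of the summand is `C(n,J) q^J C(2J, i) t^(2J - i)` with
`i = M - 3(n-J)`; put `k = 2J - i = 3n - M - J`. So `J = 3n - M - k`, `C(2J,i) = C(2J,k)`.
Terms with `J > n` vanish by `C(n,J) = 0`, terms with `i < 0`, i.e. `k > 2J`, by `C(2J,k) = 0`.
The special cases: `p = 2m+1`, `n = 3m+1`. `B₂`: `3n - (6m+2) = n`; `C(2(n-k),k) = 0` for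
`k ≥ 2m+1`. `B₃`: `3n - (8m+3) = m`. `B₀`: `3n - 2m = 7m+3`, the terms with
`k < 2p = 4m+2` vanish since `7m+3-k > n`; `k = 2p + k'`, and `C(2(n-k'), 2p+k') = 0` for
`k' ≥ p`. In the sums over `k < p` truncated subtraction is harmless (for `k > m`:
`C(2(m-k), k) = C(0,k) = 0`).
-/

namespace Pool.Agent.MP_2a5e5c_nt

open Polynomial

private theorem CoefF_ext {S : Type*} [AddCommMonoid S] {a b : ℕ} {f : ℕ → S} (hab : a ≤ b)
    (h : ∀ k, k < b → a ≤ k → f k = 0) :
    ∑ k ∈ Finset.range a, f k = ∑ k ∈ Finset.range b, f k := by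
  refine Finset.sum_subset (fun x hx => ?_) (fun x hx hx' => ?_)
  · rw [Finset.mem_range] at hx ⊢
    omega
  · rw [Finset.mem_range] at hx hx'
    exact h x hx (by omega)

theorem coef_fC {S : Type*} [CommRing S] (q t : S) {n M : ℕ} (hM : M ≤ 3 * n) :
    (fC q t ^ n).coeff M = ∑ k ∈ Finset.range (3 * n - M + 1),
      (n.choose (3 * n - M - k) : S) * q ^ (3 * n - M - k) *
        ((2 * (3 * n - M - k)).choose k : S) * t ^ k := by
  obtain ⟨N, hN⟩ : ∃ N, N = 3 * n - M := ⟨_, rfl⟩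
  rw [← hN]
  obtain ⟨h, hh⟩ : ∃ h : ℕ → S, h = fun J => (n.choose J : S) * q ^ J *
    (if J ≤ N then t ^ (N - J) * ((2 * J).choose (N - J) : S) else 0) := ⟨_, rfl⟩
  have h1 : (fC q t ^ n).coeff M = ∑ J ∈ Finset.range (n + 1), h J := by
    unfold fC
    rw [add_comm, add_pow, Polynomial.finsetSum_coeff]
    refine Finset.sum_congr rfl fun J hJ => ?_
    have hJ' : J ≤ n := by
      rw [Finset.mem_range] at hJ
      omega
    have e : (C q * (X + C t) ^ 2) ^ J * (X ^ 3) ^ (n - J) * ((n.choose J : ℕ) : S[X]) =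
        C ((n.choose J : S) * q ^ J) * ((X + C t) ^ (2 * J) * X ^ (3 * (n - J))) := by
      rw [mul_pow, ← pow_mul, ← pow_mul, C_mul, C_pow, map_natCast]
      ring
    rw [e, coeff_C_mul, coeff_mul_X_pow', coeff_X_add_C_pow, hh]
    congr 1
    by_cases h2 : 3 * (n - J) ≤ M
    · rw [if_pos h2]
      by_cases h3 : J ≤ N
      · rw [if_pos h3, show 2 * J - (M - 3 * (n - J)) = N - J by omega]
        congr 2
        refine Nat.choose_symm_of_eq_add ?_
        omega
      · rw [if_neg h3, Nat.choose_eq_zero_of_lt (by omega), Nat.cast_zero, mul_zero]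
    · rw [if_neg h2]
      by_cases h3 : J ≤ N
      · rw [if_pos h3, Nat.choose_eq_zero_of_lt (by omega), Nat.cast_zero, mul_zero]
      · rw [if_neg h3]
  have h2 : ∑ k ∈ Finset.range (N + 1), (n.choose (N - k) : S) * q ^ (N - k) *
      ((2 * (N - k)).choose k : S) * t ^ k = ∑ J ∈ Finset.range (N + 1), h J := by
    rw [← Finset.sum_range_reflect h (N + 1)]
    refine Finset.sum_congr rfl fun k hk => ?_
    rw [Finset.mem_range] at hk
    rw [hh]
    simp only
    rw [show N + 1 - 1 - k = N - k by omega, if_pos (Nat.sub_le N k),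
      show N - (N - k) = k by omega]
    ring
  rw [h1, h2]
  have h3 : ∑ J ∈ Finset.range (n + 1), h J = ∑ J ∈ Finset.range (n + N + 1), h J := by
    refine Finset.sum_subset (fun x hx => ?_) (fun x _ hx => ?_)
    · rw [Finset.mem_range] at hx ⊢
      omega
    · rw [Finset.mem_range] at hx
      rw [hh]
      simp only
      rw [Nat.choose_eq_zero_of_lt (by omega), Nat.cast_zero, zero_mul, zero_mul]
  have h4 : ∑ J ∈ Finset.range (N + 1), h J = ∑ J ∈ Finset.range (n + N + 1), h J := by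
    refine Finset.sum_subset (fun x hx => ?_) (fun x _ hx => ?_)
    · rw [Finset.mem_range] at hx ⊢
      omega
    · rw [Finset.mem_range] at hx
      rw [hh]
      simp only
      rw [if_neg (by omega), mul_zero]
  rw [h3, h4]

theorem coef_A {S : Type*} [CommRing S] (q t : S) (m : ℕ) :
    (fC q t ^ m).coeff (2 * m) = ∑ k ∈ Finset.range (2 * m + 1),
      (m.choose (m - k) : S) * q ^ (m - k) * ((2 * (m - k)).choose k : S) * t ^ k := by
  rw [coef_fC q t (by omega : 2 * m ≤ 3 * m), show 3 * m - 2 * m = m by omega]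
  refine CoefF_ext (by omega) fun k _ hk => ?_
  rw [Nat.choose_eq_zero_of_lt (by omega : 2 * (m - k) < k), Nat.cast_zero, mul_zero, zero_mul]

theorem coef_B2 {S : Type*} [CommRing S] (q t : S) (m : ℕ) :
    (fC q t ^ (3 * m + 1)).coeff (6 * m + 2) = ∑ k ∈ Finset.range (2 * m + 1),
      ((3 * m + 1).choose (3 * m + 1 - k) : S) * q ^ (3 * m + 1 - k) *
        ((2 * (3 * m + 1 - k)).choose k : S) * t ^ k := by
  rw [coef_fC q t (by omega : 6 * m + 2 ≤ 3 * (3 * m + 1)),
    show 3 * (3 * m + 1) - (6 * m + 2) = 3 * m + 1 by omega]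
  symm
  refine CoefF_ext (by omega) fun k _ hk => ?_
  rw [Nat.choose_eq_zero_of_lt (by omega : 2 * (3 * m + 1 - k) < k), Nat.cast_zero, mul_zero,
    zero_mul]

theorem coef_B3 {S : Type*} [CommRing S] (q t : S) (m : ℕ) :
    (fC q t ^ (3 * m + 1)).coeff (8 * m + 3) = ∑ k ∈ Finset.range (2 * m + 1),
      ((3 * m + 1).choose (m - k) : S) * q ^ (m - k) *
        ((2 * (m - k)).choose k : S) * t ^ k := by
  rw [coef_fC q t (by omega : 8 * m + 3 ≤ 3 * (3 * m + 1)),
    show 3 * (3 * m + 1) - (8 * m + 3) = m by omega]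
  refine CoefF_ext (by omega) fun k _ hk => ?_
  rw [Nat.choose_eq_zero_of_lt (by omega : 2 * (m - k) < k), Nat.cast_zero, mul_zero, zero_mul]

theorem coef_B0 {S : Type*} [CommRing S] (q t : S) (m : ℕ) :
    (fC q t ^ (3 * m + 1)).coeff (2 * m) = t ^ (2 * (2 * m + 1)) *
      ∑ k ∈ Finset.range (2 * m + 1),
      ((3 * m + 1).choose (3 * m + 1 - k) : S) * q ^ (3 * m + 1 - k) *
        ((2 * (3 * m + 1 - k)).choose (2 * (2 * m + 1) + k) : S) * t ^ k := by
  rw [coef_fC q t (by omega : 2 * m ≤ 3 * (3 * m + 1)),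
    show 3 * (3 * m + 1) - 2 * m = 7 * m + 3 by omega,
    show 7 * m + 3 + 1 = (4 * m + 2) + (3 * m + 2) by omega, Finset.sum_range_add]
  rw [Finset.sum_eq_zero (s := Finset.range (4 * m + 2)) fun k hk => by
    rw [Finset.mem_range] at hk
    rw [Nat.choose_eq_zero_of_lt (by omega : 3 * m + 1 < 7 * m + 3 - k), Nat.cast_zero, zero_mul,
      zero_mul, zero_mul], zero_add, Finset.mul_sum]
  symm
  refine (CoefF_ext (by omega : 2 * m + 1 ≤ 3 * m + 2) fun k _ hk => ?_).trans ?_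
  · rw [Nat.choose_eq_zero_of_lt (by omega : 2 * (3 * m + 1 - k) < 2 * (2 * m + 1) + k),
      Nat.cast_zero, mul_zero, zero_mul, mul_zero]
  · refine Finset.sum_congr rfl fun k hk => ?_
    rw [show 7 * m + 3 - (4 * m + 2 + k) = 3 * m + 1 - k by omega,
      show 4 * m + 2 + k = 2 * (2 * m + 1) + k by omega, pow_add t (2 * (2 * m + 1)) k]
    ring

theorem coef_bT {S : Type*} [CommRing S] (q t : S) (m : ℕ) :
    bT q m t = ∑ k ∈ Finset.range (2 * m + 1), (-1) ^ (m - k) *
      ((2 * (m - k)).choose (m - k) : S) * ((2 * (m - k)).choose k : S) *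
        q ^ (2 * (m - k)) * t ^ k := by
  unfold bT
  refine CoefF_ext (by omega) fun k _ hk => ?_
  rw [Nat.choose_eq_zero_of_lt (by omega : 2 * (m - k) < k), Nat.cast_zero, mul_zero, zero_mul,
    zero_mul]

end Pool.Agent.MP_2a5e5c_nt
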