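import Mathlib

/-!
# MP_2a5e5c_nt, project SUN: basic definitions

`F0`, `F1`, `F2` are the three quadratic forms of Mathlib's
`WeierstrassCurve.addSubMap` for the curve `y² + xy + sy = x³`
(`b₂ = 1`, `b₄ = s`, `b₆ = s²`, `b₈ = 0`), and `LawRel` is the statement that the unordered pair
`{(N₃ : M₃), (N₄ : M₄)}` is the pair `{x(P+Q), x(P-Q)}` when `(N₁ : M₁) = x(P)`,
`(N₂ : M₂) = x(Q)`.
-/

namespace Pool.Agent.MP_2a5e5c_nt

open Polynomial

/-- First form. -/
def F0 {A : Type*} [CommRing A] (s x y z : A) : A := x ^ 2 - s * x * z - s ^ 2 * y * z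

/-- Second form. -/
def F1 {A : Type*} [CommRing A] (s x y z : A) : A :=
  2 * x * y + x * z + s * y * z + s ^ 2 * z ^ 2

/-- Third form. -/
def F2 {A : Type*} [CommRing A] (_s x y z : A) : A := y ^ 2 - 4 * x * z

/-- The sum and difference law for the x-coordinates, in projective coordinates. -/
def LawRel {A : Type*} [CommRing A] (s lam N₁ M₁ N₂ M₂ N₃ M₃ N₄ M₄ : A) : Prop :=
  F0 s (N₁ * N₂) (N₁ * M₂ + M₁ * N₂) (M₁ * M₂) = lam * (N₃ * N₄) ∧
  F1 s (N₁ * N₂) (N₁ * M₂ + M₁ * N₂) (M₁ * M₂) = lam * (N₃ * M₄ + M₃ * N₄) ∧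
  F2 s (N₁ * N₂) (N₁ * M₂ + M₁ * N₂) (M₁ * M₂) = lam * (M₃ * M₄)

/-- The twisted curve `y² = x³ + q f x² + 2 q s f² x + q s² f³`; its points `(f U, f² V)` are the
solutions of `f V² = U³ + q (U + s)²`. -/
def TC {A : Type*} [CommRing A] (q s f : A) : WeierstrassCurve A :=
  ⟨0, q * f, 0, 2 * q * s * f ^ 2, q * s ^ 2 * f ^ 3⟩

/-- The cubic `X³ + q (X + t)²`. -/
noncomputable def fC {A : Type*} [CommRing A] (q t : A) : A[X] := X ^ 3 + C q * (X + C t) ^ 2

/-- The twisted curve over `K(X)`: target parameter `s`, source parameter `t`. -/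
noncomputable def TX {K : Type*} [Field K] (q t s : K) : WeierstrassCurve (RatFunc K) :=
  TC (algebraMap K[X] (RatFunc K) (C q)) (algebraMap K[X] (RatFunc K) (C s))
    (algebraMap K[X] (RatFunc K) (fC q t))

/-- Decidable equality on rational functions, needed for the group law on points. -/
noncomputable instance instDecEqRatFunc {K : Type*} [Field K] : DecidableEq (RatFunc K) :=
  Classical.decEq _

/-- The group of points of the twisted curve. -/
abbrev Pt {K : Type*} [Field K] (q t s : K) := (TX q t s).toAffine.Point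

/-- `(N : M)` is a coprime polynomial representative of `x(P) / f`. -/
def Rep {K : Type*} [Field K] {q t s : K} (P : Pt q t s) (N M : K[X]) : Prop :=
  IsCoprime N M ∧
  ((P = 0 ∧ M = 0) ∨
    ∃ x y, ∃ h : (TX q t s).toAffine.Nonsingular x y, P = .some x y h ∧ M ≠ 0 ∧
      x * algebraMap K[X] (RatFunc K) M =
        algebraMap K[X] (RatFunc K) (fC q t) * algebraMap K[X] (RatFunc K) N)

end Pool.Agent.MP_2a5e5c_nt
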