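import Mathlib

/-!
# SUN, module Der: the derivation d/dX on rational functions

PROOF. `D(p/q) = (p'q - pq')/q²`. Well defined on `FractionRing K[X]` / `RatFunc K`: if
`p q₁ = p₁ q` then `(p'q - pq') q₁² = (p₁'q₁ - p₁q₁') q²`. Additivity and the Leibniz rule by
writing elements as quotients (`RatFunc.induction_on`) and `field_simp; ring`. Perhaps shorter:
some Mathlib construction of a derivation on a localization. `rat_const`: `K` of
characteristic 0, `D u = 0` with `u = N/M` coprime: `N'M = NM'`, so `M ∣ M'`, `M' = 0`, `M` and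
`N` are constants.
-/

namespace Pool.Agent.MP_2a5e5c_nt

open Polynomial TensorProduct

theorem exists_der (K : Type*) [Field K] : ∃ D : Derivation K (RatFunc K) (RatFunc K),
    ∀ g : K[X], D (algebraMap K[X] (RatFunc K) g) = algebraMap K[X] (RatFunc K) (derivative g) := by
  have : Algebra.FormallyEtale K[X] (RatFunc K) :=
    Algebra.FormallyEtale.of_isLocalization (nonZeroDivisors K[X])
  let d0 : Derivation K K[X] (RatFunc K) :=
    (Algebra.linearMap K[X] (RatFunc K)).compDer Polynomial.derivative'
  let L : TensorProduct K[X] (RatFunc K) (KaehlerDifferential K K[X]) →ₗ[RatFunc K] RatFunc K :=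
    LinearMap.liftBaseChange (RatFunc K) d0.liftKaehlerDifferential
  let e := KaehlerDifferential.tensorKaehlerEquivOfFormallyEtale K K[X] (RatFunc K)
  refine ⟨(L ∘ₗ e.symm.toLinearMap).compDer (KaehlerDifferential.D K (RatFunc K)), ?_⟩
  intro g
  have h1 : e.symm (KaehlerDifferential.D K (RatFunc K) (algebraMap K[X] (RatFunc K) g)) =
      1 ⊗ₜ[K[X]] KaehlerDifferential.D K K[X] g :=
    KaehlerDifferential.tensorKaehlerEquivOfFormallyEtale_symm_D_algebraMap K K[X] (RatFunc K) g
  have h2 : ((L ∘ₗ e.symm.toLinearMap).compDer (KaehlerDifferential.D K (RatFunc K)))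
      (algebraMap K[X] (RatFunc K) g) =
      L (e.symm (KaehlerDifferential.D K (RatFunc K) (algebraMap K[X] (RatFunc K) g))) := rfl
  rw [h2, h1]
  simp [L, d0]

/-- The derivation `d/dX` of `K(X)`. -/
noncomputable def dX (K : Type*) [Field K] : Derivation K (RatFunc K) (RatFunc K) :=
  (exists_der K).choose

theorem dX_poly {K : Type*} [Field K] (g : K[X]) :
    dX K (algebraMap K[X] (RatFunc K) g) = algebraMap K[X] (RatFunc K) (derivative g) :=
  (exists_der K).choose_spec g

theorem dX_const {K : Type*} [Field K] [CharZero K] {u : RatFunc K} (h : dX K u = 0) :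
    ∃ c : K, u = algebraMap K[X] (RatFunc K) (C c) := by
  have hM0 : u.denom ≠ 0 := RatFunc.denom_ne_zero u
  have hM1 : algebraMap K[X] (RatFunc K) u.denom ≠ 0 := RatFunc.algebraMap_ne_zero hM0
  have hu : u * algebraMap K[X] (RatFunc K) u.denom = algebraMap K[X] (RatFunc K) u.num := by
    have h0 := RatFunc.num_div_denom u
    rw [div_eq_iff hM1] at h0
    exact h0.symm
  have hD := congrArg (dX K) hu
  rw [Derivation.leibniz, h, dX_poly, dX_poly, smul_zero, add_zero, smul_eq_mul] at hD
  have hE : algebraMap K[X] (RatFunc K) (u.num * derivative u.denom) =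
      algebraMap K[X] (RatFunc K) (derivative u.num * u.denom) := by
    rw [map_mul, map_mul, ← hu, ← hD]
    ring
  have hE' : u.num * derivative u.denom = derivative u.num * u.denom :=
    RatFunc.algebraMap_injective K hE
  have hdvd : u.denom ∣ derivative u.denom := by
    have h1 : u.denom ∣ u.num * derivative u.denom := ⟨derivative u.num, by rw [hE', mul_comm]⟩
    exact (RatFunc.isCoprime_num_denom u).symm.dvd_of_dvd_mul_left h1
  have hM' : derivative u.denom = 0 := by
    by_contra hne
    have h2 := Polynomial.degree_le_of_dvd hdvd hne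
    exact absurd (Polynomial.degree_derivative_lt hM0) (not_lt.2 h2)
  have hM : u.denom = 1 := by
    have h3 := Polynomial.derivative_eq_zero.1 hM'
    exact (Polynomial.Monic.natDegree_eq_zero (RatFunc.monic_denom u)).1 h3
  have hN' : derivative u.num = 0 := by
    rw [hM] at hE'
    simpa using hE'.symm
  have h4 := Polynomial.derivative_eq_zero.1 hN'
  refine ⟨u.num.coeff 0, ?_⟩
  rw [← Polynomial.eq_C_of_natDegree_eq_zero h4, ← hu, hM]
  simp

end Pool.Agent.MP_2a5e5c_nt
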