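import Pool.Agent.Lib.MP_2a5e5c_nt.HGqs

/-!
# SUN, module HGbr: the sums `S_1(p)`, `S_2(p)` in `S`

PROOF. `QS_bin`: if `QS p a α` then for `k < p` (`k!` is a unit) `QS p (bin a k) (β k)` whenever
`k! β k = ∏_{i<k} (α - i)` (`QS_prod`, `QS_sub`, `QS_int`, `QS_inv`, `QS_mul`).
`QS_A`: `bin (-1/3) k * bin (-1/6) k` satisfies
`18 (k+1)² a (k+1) = (3k+1)(6k+1) a k` in `ℚ` (`Finset.prod_range_succ`,
`(-1/3 - k)(-1/6 - k) = (3k+1)(6k+1)/18`); by induction on `k < p`, `QS p (a k) (A k)`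
(`a (k+1) = (3k+1)(6k+1)/(18 (k+1)²) * a k`; `18 (k+1)²` is prime to `p`; cancel the unit
`18 (k+1)²` in `S`). `QS_S1`: `QS_sum`, `1 / (-1024)^k` has the image `z^k`.
`IsA_exists`: recursion with `Ring.inverse (18 (k+1)²)` as `kap_exists` in `Seq.lean`.
-/

namespace Pool.Agent.MP_2a5e5c_nt

variable {S : Type*} [CommRing S] {p : ℕ}

private lemma HGbr_dvd {n : ℕ} (hn : ¬ p ∣ n) : ¬ (p : ℤ) ∣ (n : ℤ) := by
  intro h
  exact hn (Int.natCast_dvd_natCast.1 h)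

private lemma HGbr_fact (hp : p.Prime) {k : ℕ} (hk : k < p) : ¬ p ∣ k.factorial := by
  intro h
  exact absurd ((hp.dvd_factorial).1 h) (not_le.2 hk)

private lemma HGbr_18 (hp : p.Prime) (h5 : 5 ≤ p) {k : ℕ} (hk : k + 1 < p) :
    ¬ p ∣ 18 * (k + 1) ^ 2 := by
  intro h
  rcases (hp.dvd_mul).1 h with h | h
  · have h18 : (18 : ℕ) = 2 * 3 ^ 2 := by norm_num
    rw [h18] at h
    rcases (hp.dvd_mul).1 h with h | h
    · have := Nat.le_of_dvd (by norm_num) h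
      omega
    · have h3 := hp.dvd_of_dvd_pow h
      have := Nat.le_of_dvd (by norm_num) h3
      omega
  · have h1 := hp.dvd_of_dvd_pow h
    have := Nat.le_of_dvd (Nat.succ_pos k) h1
    omega

private lemma HGbr_bin_succ (a : ℚ) (k : ℕ) :
    ((k : ℚ) + 1) * bin a (k + 1) = (a - k) * bin a k := by
  unfold bin
  rw [Finset.prod_range_succ, Nat.factorial_succ]
  have h1 : ((k.factorial : ℕ) : ℚ) ≠ 0 := by exact_mod_cast k.factorial_ne_zero
  have h2 : ((k : ℚ) + 1) ≠ 0 := by positivity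
  push_cast
  field_simp

private lemma HGbr_step (hp : p.Prime) (hu : ∀ n : ℕ, ¬ p ∣ n → IsUnit (n : S))
    {u v : ℚ} {x y : S} (d : ℕ) (hd : ¬ p ∣ d) (m : ℤ) (h : QS p u x)
    (huv : (d : ℚ) * v = (m : ℚ) * u) (hxy : (d : S) * y = (m : S) * x) : QS p v y := by
  obtain ⟨w, hw⟩ := (hu d hd).exists_right_inv
  have hd0 : (d : ℚ) ≠ 0 := by
    intro h0
    have : d = 0 := by exact_mod_cast h0
    rw [this] at hd
    exact hd (dvd_zero p)
  have h1 : QS p (1 / ((d : ℤ) : ℚ)) w := QS_inv hp hu (d : ℤ) (HGbr_dvd hd) w (by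
    rw [Int.cast_natCast]
    exact hw)
  have h2 := QS_mul hp hu (QS_mul hp hu (QS_int (S := S) hp m) h1) h
  have e1 : (m : ℚ) * (1 / ((d : ℤ) : ℚ)) * u = v := by
    rw [Int.cast_natCast]
    field_simp
    linarith
  have e2 : (m : S) * w * x = y := by
    calc (m : S) * w * x = w * ((m : S) * x) := by ring
      _ = w * ((d : S) * y) := by rw [hxy]
      _ = ((d : S) * w) * y := by ring
      _ = y := by rw [hw, one_mul]
  rw [e1, e2] at h2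
  exact h2

private lemma HGbr_1024 (hp : p.Prime) (h5 : 5 ≤ p) : ¬ (p : ℤ) ∣ (-1024 : ℤ) := by
  intro h
  have h1 : (p : ℤ) ∣ ((1024 : ℕ) : ℤ) := by
    have := (Int.dvd_neg).2 h
    simpa using this
  have h2 : p ∣ 1024 := Int.natCast_dvd_natCast.1 h1
  have h3 : (1024 : ℕ) = 2 ^ 10 := by norm_num
  rw [h3] at h2
  have h4 := Nat.le_of_dvd (by norm_num) (hp.dvd_of_dvd_pow h2)
  omega

private lemma HGbr_sum (hp : p.Prime) (h5 : 5 ≤ p) (hu : ∀ n : ℕ, ¬ p ∣ n → IsUnit (n : S))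
    (a : ℕ → ℚ) (A : ℕ → S) (h : ∀ k < p, QS p (a k) (A k)) (z : S) (hz : -1024 * z = 1) :
    QS p (∑ k ∈ Finset.range p, a k / (-1024) ^ k) (∑ k ∈ Finset.range p, A k * z ^ k) := by
  refine QS_sum hp hu _ _ _ ?_
  intro k hk
  have hk' := Finset.mem_range.1 hk
  have h1 : QS p (1 / ((-1024 : ℤ) : ℚ)) z := QS_inv hp hu (-1024) (HGbr_1024 hp h5) z (by
    push_cast
    exact hz)
  have h2 := QS_mul hp hu (h k hk') (QS_pow hp hu h1 k)
  have e1 : a k * (1 / ((-1024 : ℤ) : ℚ)) ^ k = a k / (-1024) ^ k := by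
    push_cast
    rw [one_div, inv_pow, div_eq_mul_inv]
  rw [e1] at h2
  exact h2

theorem QS_bin (hp : p.Prime) (hu : ∀ n : ℕ, ¬ p ∣ n → IsUnit (n : S)) {a : ℚ} {α : S}
    (ha : QS p a α) (k : ℕ) (hk : k < p) (β : S)
    (hβ : (k.factorial : S) * β = ∏ i ∈ Finset.range k, (α - (i : S))) :
    QS p (bin a k) β := by
  have h1 : QS p (∏ i ∈ Finset.range k, (a - (i : ℚ))) (∏ i ∈ Finset.range k, (α - (i : S))) := by
    refine QS_prod hp hu _ _ _ ?_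
    intro i _
    have h2 := QS_int (S := S) hp (i : ℤ)
    rw [Int.cast_natCast, Int.cast_natCast] at h2
    exact QS_sub hp hu ha h2
  refine HGbr_step hp hu k.factorial (HGbr_fact hp hk) 1 h1 ?_ ?_
  · unfold bin
    have h1 : ((k.factorial : ℕ) : ℚ) ≠ 0 := by exact_mod_cast k.factorial_ne_zero
    push_cast
    field_simp
  · rw [hβ]
    push_cast
    ring

theorem QS_A (hp : p.Prime) (h5 : 5 ≤ p) (hu : ∀ n : ℕ, ¬ p ∣ n → IsUnit (n : S))
    {A : ℕ → S} (hA : IsA p A) (k : ℕ) (hk : k < p) :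
    QS p (bin (-1 / 3) k * bin (-1 / 6) k) (A k) := by
  induction k with
  | zero =>
    have h := QS_int (S := S) hp 1
    have e : bin (-1 / 3) 0 * bin (-1 / 6) 0 = ((1 : ℤ) : ℚ) := by
      simp [bin]
    rw [e, hA.1]
    simpa using h
  | succ k ih =>
    have h := ih (by omega)
    refine HGbr_step hp hu (18 * (k + 1) ^ 2) (HGbr_18 hp h5 hk)
      ((3 * (k : ℤ) + 1) * (6 * (k : ℤ) + 1)) h ?_ ?_
    · have h1 := HGbr_bin_succ (-1 / 3) k
      have h2 := HGbr_bin_succ (-1 / 6) k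
      push_cast
      have h3 : 18 * ((k : ℚ) + 1) ^ 2 * (bin (-1 / 3) (k + 1) * bin (-1 / 6) (k + 1)) =
          18 * ((((k : ℚ) + 1) * bin (-1 / 3) (k + 1)) *
            (((k : ℚ) + 1) * bin (-1 / 6) (k + 1))) := by ring
      rw [h3, h1, h2]
      ring
    · have h1 := hA.2 k hk
      push_cast
      exact h1

theorem QS_G (hp : p.Prime) (h5 : 5 ≤ p) (hu : ∀ n : ℕ, ¬ p ∣ n → IsUnit (n : S))
    {G : ℕ → S} (hG : IsG p G) (k : ℕ) (hk : k < p) :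
    QS p (bin (-2 / 3) k * bin (-5 / 6) k) (G k) := by
  induction k with
  | zero =>
    have h := QS_int (S := S) hp 1
    have e : bin (-2 / 3) 0 * bin (-5 / 6) 0 = ((1 : ℤ) : ℚ) := by
      simp [bin]
    rw [e, hG.1]
    simpa using h
  | succ k ih =>
    have h := ih (by omega)
    refine HGbr_step hp hu (18 * (k + 1) ^ 2) (HGbr_18 hp h5 hk)
      ((3 * (k : ℤ) + 2) * (6 * (k : ℤ) + 5)) h ?_ ?_
    · have h1 := HGbr_bin_succ (-2 / 3) k
      have h2 := HGbr_bin_succ (-5 / 6) k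
      push_cast
      have h3 : 18 * ((k : ℚ) + 1) ^ 2 * (bin (-2 / 3) (k + 1) * bin (-5 / 6) (k + 1)) =
          18 * ((((k : ℚ) + 1) * bin (-2 / 3) (k + 1)) *
            (((k : ℚ) + 1) * bin (-5 / 6) (k + 1))) := by ring
      rw [h3, h1, h2]
      ring
    · have h1 := hG.2 k hk
      push_cast
      exact h1

theorem QS_S1 (hp : p.Prime) (h5 : 5 ≤ p) (hu : ∀ n : ℕ, ¬ p ∣ n → IsUnit (n : S))
    {A : ℕ → S} (hA : IsA p A) (z : S) (hz : -1024 * z = 1) :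
    QS p (S1 p) (∑ k ∈ Finset.range p, A k * z ^ k) := by
  unfold S1
  exact HGbr_sum hp h5 hu (fun k => bin (-1 / 3) k * bin (-1 / 6) k) A
    (fun k hk => QS_A hp h5 hu hA k hk) z hz

theorem QS_S2 (hp : p.Prime) (h5 : 5 ≤ p) (hu : ∀ n : ℕ, ¬ p ∣ n → IsUnit (n : S))
    {G : ℕ → S} (hG : IsG p G) (z : S) (hz : -1024 * z = 1) :
    QS p (S2 p) (∑ k ∈ Finset.range p, G k * z ^ k) := by
  unfold S2
  exact HGbr_sum hp h5 hu (fun k => bin (-2 / 3) k * bin (-5 / 6) k) G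
    (fun k hk => QS_G hp h5 hu hG k hk) z hz

theorem IsA_exists (hp : p.Prime) (h5 : 5 ≤ p) (hu : ∀ n : ℕ, ¬ p ∣ n → IsUnit (n : S)) :
    ∃ A : ℕ → S, IsA p A := by
  let A : ℕ → S := fun n => Nat.rec 1 (fun k a => Ring.inverse ((18 * (k + 1) ^ 2 : ℕ) : S) *
    ((3 * (k : S) + 1) * (6 * (k : S) + 1) * a)) n
  refine ⟨A, rfl, fun k hk => ?_⟩
  have hU : IsUnit ((18 * (k + 1) ^ 2 : ℕ) : S) := hu _ (HGbr_18 hp h5 hk)
  have hs : A (k + 1) = Ring.inverse ((18 * (k + 1) ^ 2 : ℕ) : S) *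
      ((3 * (k : S) + 1) * (6 * (k : S) + 1) * A k) := rfl
  have he : 18 * ((k : S) + 1) ^ 2 = ((18 * (k + 1) ^ 2 : ℕ) : S) := by push_cast; ring
  rw [he, hs, ← mul_assoc, Ring.mul_inverse_cancel _ hU, one_mul]

theorem IsG_exists (hp : p.Prime) (h5 : 5 ≤ p) (hu : ∀ n : ℕ, ¬ p ∣ n → IsUnit (n : S)) :
    ∃ G : ℕ → S, IsG p G := by
  let G : ℕ → S := fun n => Nat.rec 1 (fun k a => Ring.inverse ((18 * (k + 1) ^ 2 : ℕ) : S) *
    ((3 * (k : S) + 2) * (6 * (k : S) + 5) * a)) n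
  refine ⟨G, rfl, fun k hk => ?_⟩
  have hU : IsUnit ((18 * (k + 1) ^ 2 : ℕ) : S) := hu _ (HGbr_18 hp h5 hk)
  have hs : G (k + 1) = Ring.inverse ((18 * (k + 1) ^ 2 : ℕ) : S) *
      ((3 * (k : S) + 2) * (6 * (k : S) + 5) * G k) := rfl
  have he : 18 * ((k : S) + 1) ^ 2 = ((18 * (k + 1) ^ 2 : ℕ) : S) := by push_cast; ring
  rw [he, hs, ← mul_assoc, Ring.mul_inverse_cancel _ hU, one_mul]

end Pool.Agent.MP_2a5e5c_nt
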