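import Pool.Agent.Lib.MP_2a5e5c_nt.HGdef

/-!
# SUN, module HGfac: the multiples of `p` in the products (integers, no congruences)

PROOF. For `c` prime to `p` and `j0 < p` with `c j0 + e = m p` the other factors `c j + e`,
`j < p`, are not divisible by `p` (`p ∣ c (j - j0)`), so
`∏_{j<p} (c j + e) = m p ∏_{j<p} hz p (c j + e)`
(write `c j + e = (if j = j0 then m p else 1) * hz p (c j + e)`, `Finset.prod_mul_distrib`,
`Finset.prod_ite_eq`). Here `3 j + 1 = p` for `j = (p-1)/3` if `p = 1 mod 3`, and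
`3 j + 1 = 2 p` for `j = (2p-1)/3` if `p = 2 mod 3`; `6 j + 1 = p` resp. `5 p` if `p = 1` resp.
`5 mod 6`; `3 j + 2 = 2 p` resp. `p` if `p = 1` resp. `2 mod 3`; `6 j + 5 = 5 p` resp. `p` if
`p = 1` resp. `5 mod 6` (`p` is odd). `omega` does the arithmetic.
-/

namespace Pool.Agent.MP_2a5e5c_nt

variable {p : ℕ}

private lemma HGfac_factor (hp : p.Prime) (c e m : ℤ) (hc : ¬ (p : ℤ) ∣ c) (j0 : ℕ)
    (hj0 : j0 < p) (h : c * j0 + e = m * p) (j : ℕ) (hj : j < p) :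
    c * (j : ℤ) + e = (if j = j0 then m * p else 1) * hz p (c * (j : ℤ) + e) := by
  unfold hz
  by_cases hjj : j = j0
  · subst hjj
    rw [if_pos rfl, if_pos (by rw [h]; exact dvd_mul_left _ _), h, mul_one]
  · rw [if_neg hjj, one_mul, if_neg]
    intro hd
    have h1 : (p : ℤ) ∣ c * ((j : ℤ) - j0) := by
      have h2 : (p : ℤ) ∣ c * (j0 : ℤ) + e := by rw [h]; exact dvd_mul_left _ _
      have h3 := dvd_sub hd h2
      have h4 : c * (j : ℤ) + e - (c * (j0 : ℤ) + e) = c * ((j : ℤ) - j0) := by ring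
      rwa [h4] at h3
    rcases (Nat.prime_iff_prime_int.1 hp).dvd_or_dvd h1 with h2 | h2
    · exact hc h2
    · have h3 : (j : ℤ) - j0 = 0 := by
        apply Int.eq_zero_of_abs_lt_dvd h2
        rw [abs_lt]
        constructor <;> omega
      omega

theorem hz_prod (hp : p.Prime) (c e m : ℤ) (hc : ¬ (p : ℤ) ∣ c) (j0 : ℕ) (hj0 : j0 < p)
    (h : c * j0 + e = m * p) :
    ∏ j ∈ Finset.range p, (c * (j : ℤ) + e) =
      m * p * ∏ j ∈ Finset.range p, hz p (c * (j : ℤ) + e) := by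
  rw [Finset.prod_congr rfl (fun j hj => HGfac_factor hp c e m hc j0 hj0 h j
    (Finset.mem_range.1 hj)), Finset.prod_mul_distrib, Finset.prod_ite_eq']
  rw [if_pos (Finset.mem_range.2 hj0)]

private lemma HGfac_three (h5 : 5 ≤ p) : ¬ (p : ℤ) ∣ 3 := by
  intro h
  have h1 : p ∣ 3 := by exact_mod_cast h
  have h2 := Nat.le_of_dvd (by norm_num) h1
  omega

private lemma HGfac_six (hp : p.Prime) (h5 : 5 ≤ p) : ¬ (p : ℤ) ∣ 6 := by
  intro h
  have h1 : p ∣ 6 := by exact_mod_cast h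
  have h2 := Nat.le_of_dvd (by norm_num) h1
  interval_cases p
  · revert h1
    decide
  · revert hp
    norm_num

private lemma HGfac_odd (hp : p.Prime) (h5 : 5 ≤ p) : p % 2 = 1 := by
  rcases hp.eq_two_or_odd with h | h
  · omega
  · exact h

theorem facA1 (hp : p.Prime) (h5 : 5 ≤ p) (h : p % 3 = 1) :
    ∏ j ∈ Finset.range p, ((3 * (j : ℤ) + 1) * (6 * (j : ℤ) + 1)) = (p : ℤ) ^ 2 *
      ((∏ j ∈ Finset.range p, hz p (3 * (j : ℤ) + 1)) *
        ∏ j ∈ Finset.range p, hz p (6 * (j : ℤ) + 1)) := by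
  have ho := HGfac_odd hp h5
  rw [Finset.prod_mul_distrib,
    hz_prod hp 3 1 1 (HGfac_three h5) ((p - 1) / 3) (by omega) (by omega),
    hz_prod hp 6 1 1 (HGfac_six hp h5) ((p - 1) / 6) (by omega) (by omega)]
  ring

theorem facA2 (hp : p.Prime) (h5 : 5 ≤ p) (h : p % 3 = 2) :
    ∏ j ∈ Finset.range p, ((3 * (j : ℤ) + 1) * (6 * (j : ℤ) + 1)) = (p : ℤ) ^ 2 *
      (10 * ((∏ j ∈ Finset.range p, hz p (3 * (j : ℤ) + 1)) *
        ∏ j ∈ Finset.range p, hz p (6 * (j : ℤ) + 1))) := by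
  have ho := HGfac_odd hp h5
  rw [Finset.prod_mul_distrib,
    hz_prod hp 3 1 2 (HGfac_three h5) ((2 * p - 1) / 3) (by omega) (by omega),
    hz_prod hp 6 1 5 (HGfac_six hp h5) ((5 * p - 1) / 6) (by omega) (by omega)]
  ring

theorem facG1 (hp : p.Prime) (h5 : 5 ≤ p) (h : p % 3 = 1) :
    ∏ j ∈ Finset.range p, ((3 * (j : ℤ) + 2) * (6 * (j : ℤ) + 5)) = (p : ℤ) ^ 2 *
      (10 * ((∏ j ∈ Finset.range p, hz p (3 * (j : ℤ) + 2)) *
        ∏ j ∈ Finset.range p, hz p (6 * (j : ℤ) + 5))) := by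
  have ho := HGfac_odd hp h5
  rw [Finset.prod_mul_distrib,
    hz_prod hp 3 2 2 (HGfac_three h5) ((2 * p - 2) / 3) (by omega) (by omega),
    hz_prod hp 6 5 5 (HGfac_six hp h5) ((5 * p - 5) / 6) (by omega) (by omega)]
  ring

theorem facG2 (hp : p.Prime) (h5 : 5 ≤ p) (h : p % 3 = 2) :
    ∏ j ∈ Finset.range p, ((3 * (j : ℤ) + 2) * (6 * (j : ℤ) + 5)) = (p : ℤ) ^ 2 *
      ((∏ j ∈ Finset.range p, hz p (3 * (j : ℤ) + 2)) *
        ∏ j ∈ Finset.range p, hz p (6 * (j : ℤ) + 5)) := by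
  have ho := HGfac_odd hp h5
  rw [Finset.prod_mul_distrib,
    hz_prod hp 3 2 1 (HGfac_three h5) ((p - 2) / 3) (by omega) (by omega),
    hz_prod hp 6 5 1 (HGfac_six hp h5) ((p - 5) / 6) (by omega) (by omega)]
  ring

end Pool.Agent.MP_2a5e5c_nt
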