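import Pool.Agent.Lib.MP_2a5e5c_nt.HGdef

/-!
# SUN, module HGprd: products without the multiples of `p`, modulo `p²`

`hz p n` is `n`, or `1` if `p ∣ n`. `S` is a commutative ring with `p² = 0`; integers prime to `p`
are units in `S` (`isUnit_of_not_dvd` in `Seq.lean`).

PROOF. `hz_shift`: `h (x + u p) = h x * (1 + u p ψ x)`, `ψ x = 0` if `p ∣ x`, else the inverse of `x`
in `S`. As `p² = 0`, `∏ (1 + u p ψ x_j) = 1 + u ∑ p ψ x_j` (induction). `p ψ x` depends only on `x`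
modulo `p` (multiply by units: `p x = p x'` if `x = x' + p w`), so `∑_{j<p} p ψ(c j + e)` is the sum
of `g a = p ψ(a.val)` over `a : ZMod p` (bijection `j ↦ c j + e` of `ZMod p`), and `g (-a) = - g a`,
so twice the sum is `0`, and `2` is a unit.
`hz_neg`: `hz p (-x) = - hz p x` except for the one `j` with `p ∣ c j + e`, so the factor is
`(-1)^(p-1) = 1`. `hz_mul`: the same with `m^(p-1)`. `hz_fac`: `j = 0` gives `1`.
`hz_dup`: split off. `prdA`, `prdG`: put `Q1 = ∏ h (3j+1)`, `Q2 = ∏ h (3j+2)`, `P1 = ∏ h (6j+1)`,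
`P5 = ∏ h (6j+5)` (`j < p`). (a) `Q2 = Q1`: `j ↦ p-1-j` (`Finset.prod_range_reflect`):
`3 (p-1-j) + 2 = -(3j+1) + 3p`; `hz_neg`, `hz_shift`. (b) `∏_{n<3p} h n = (∏ h (3j)) Q1 Q2`
(induction, three factors at a time) `= 3^(p-1) (p-1)! Q1 Q2` (`hz_mul`, `hz_fac`) and
`∏_{n<3p} h n = ((p-1)!)^3` (`Finset.prod_range_add` twice, `hz_shift` with `c = 1`), so
`3^(p-1) Q1 Q2 = (p-1)!²` (units). (c) `∏_{j<2p} h (3j+1) = Q1 * ∏_{j<p} h (3j+1+3p) = Q1²` and
(splitting into even and odd `j`: `3(2j)+1 = 6j+1`, `3(2j+1)+1 = 2 (3j+2)`) `= P1 * 2^(p-1) Q2`; so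
`P1 2^(p-1) = Q1` (units) and `Q1 P1 6^(p-1) = Q1 Q2 3^(p-1) = (p-1)!²`. (c') the same with `3j+2`:
`3(2j)+2 = 2 (3j+1)`, `3(2j+1)+2 = 6j+5`: `P5 2^(p-1) Q1 = Q2²`.
-/

namespace Pool.Agent.MP_2a5e5c_nt

variable {S : Type*} [CommRing S] {p : ℕ}

private lemma HGprd_isUnit (hp : p.Prime) (hS : ((p : ℕ) : S) ^ 2 = 0) {x : ℤ}
    (hx : ¬ (p : ℤ) ∣ x) : IsUnit (x : S) := by
  have h1 : ¬ p ∣ x.natAbs := fun h => hx (Int.natCast_dvd.2 h)
  have h2 := isUnit_of_not_dvd hp hS h1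
  rcases Int.natAbs_eq x with h | h
  · rw [h, Int.cast_natCast]
    exact h2
  · rw [h, Int.cast_neg, Int.cast_natCast]
    exact h2.neg

private lemma HGprd_unit_hz (hp : p.Prime) (hS : ((p : ℕ) : S) ^ 2 = 0) (x : ℤ) :
    IsUnit ((hz p x : ℤ) : S) := by
  unfold hz
  split_ifs with h
  · rw [Int.cast_one]
    exact isUnit_one
  · exact HGprd_isUnit hp hS h

private lemma HGprd_prod {M : Type*} [CommMonoid M] [NeZero p] (hp : p.Prime) (c e : ℤ)
    (hc : ¬ (p : ℤ) ∣ c) (f : ZMod p → M) :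
    ∏ j ∈ Finset.range p, f ((c * (j : ℤ) + e : ℤ) : ZMod p) = ∏ a, f a := by
  have : Fact p.Prime := ⟨hp⟩
  have hc0 : (c : ZMod p) ≠ 0 := fun h => hc ((ZMod.intCast_zmod_eq_zero_iff_dvd c p).1 h)
  have h1 : ∏ j ∈ Finset.range p, f ((c * (j : ℤ) + e : ℤ) : ZMod p) =
      ∏ a : ZMod p, f ((c : ZMod p) * a + (e : ZMod p)) := by
    refine Finset.prod_nbij' (fun j => (j : ZMod p)) (fun a => a.val) ?_ ?_ ?_ ?_ ?_
    · intro j _
      exact Finset.mem_univ _
    · intro a _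
      exact Finset.mem_range.2 (ZMod.val_lt a)
    · intro j hj
      exact ZMod.val_natCast_of_lt (Finset.mem_range.1 hj)
    · intro a _
      exact ZMod.natCast_zmod_val a
    · intro j _
      congr 1
      push_cast
      rfl
  rw [h1]
  refine Finset.prod_bijective (fun a : ZMod p => (c : ZMod p) * a + (e : ZMod p)) ?_
    (fun a => ⟨fun _ => Finset.mem_univ _, fun _ => Finset.mem_univ _⟩) (fun a _ => rfl)
  refine ⟨fun a b hab => ?_, fun b => ⟨(c : ZMod p)⁻¹ * (b - e), ?_⟩⟩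
  · exact mul_left_cancel₀ hc0 (add_right_cancel hab)
  · change (c : ZMod p) * ((c : ZMod p)⁻¹ * (b - e)) + e = b
    rw [← mul_assoc, mul_inv_cancel₀ hc0, one_mul, sub_add_cancel]

private lemma HGprd_sum {M : Type*} [AddCommMonoid M] [NeZero p] (hp : p.Prime) (c e : ℤ)
    (hc : ¬ (p : ℤ) ∣ c) (f : ZMod p → M) :
    ∑ j ∈ Finset.range p, f ((c * (j : ℤ) + e : ℤ) : ZMod p) = ∑ a, f a := by
  have := HGprd_prod (M := Multiplicative M) hp c e hc (fun a => Multiplicative.ofAdd (f a))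
  exact this

private noncomputable def HGprd_psi (S : Type*) [CommRing S] (p : ℕ) (x : ℤ) : S :=
  if (p : ℤ) ∣ x then 0 else Ring.inverse (x : S)

private lemma HGprd_psi_mod (hp : p.Prime) (hS : ((p : ℕ) : S) ^ 2 = 0) {x y : ℤ}
    (h : (p : ℤ) ∣ x - y) : (p : S) * HGprd_psi S p x = (p : S) * HGprd_psi S p y := by
  have hiff : (p : ℤ) ∣ x ↔ (p : ℤ) ∣ y := by
    constructor
    · intro hx
      have := dvd_sub hx h
      rwa [sub_sub_cancel] at this
    · intro hy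
      have := dvd_add h hy
      rwa [sub_add_cancel] at this
  unfold HGprd_psi
  by_cases hx : (p : ℤ) ∣ x
  · rw [if_pos hx, if_pos (hiff.1 hx)]
  · have hy : ¬ (p : ℤ) ∣ y := fun h => hx (hiff.2 h)
    rw [if_neg hx, if_neg hy]
    have ux := HGprd_isUnit hp hS hx
    have uy := HGprd_isUnit hp hS hy
    obtain ⟨w, hw⟩ := h
    have hxy : (x : S) = y + p * w := by
      have : x = y + p * w := by linarith
      rw [this]
      push_cast
      ring
    apply ux.mul_left_cancel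
    apply uy.mul_left_cancel
    have e1 : (x : S) * Ring.inverse (x : S) = 1 := Ring.mul_inverse_cancel _ ux
    have e2 : (y : S) * Ring.inverse (y : S) = 1 := Ring.mul_inverse_cancel _ uy
    calc (y : S) * (x * (p * Ring.inverse (x : S)))
        = y * p * (x * Ring.inverse (x : S)) := by ring
      _ = y * p := by rw [e1, mul_one]
      _ = x * p - (p : S) ^ 2 * w := by rw [hxy]; ring
      _ = x * p * (y * Ring.inverse (y : S)) := by rw [hS, e2]; ring
      _ = y * (x * (p * Ring.inverse (y : S))) := by ring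

private lemma HGprd_psi_neg (hp : p.Prime) (hS : ((p : ℕ) : S) ^ 2 = 0) (x : ℤ) :
    HGprd_psi S p (-x) = - HGprd_psi S p x := by
  unfold HGprd_psi
  by_cases hx : (p : ℤ) ∣ x
  · rw [if_pos hx, if_pos ((dvd_neg).2 hx), neg_zero]
  · have hx' : ¬ (p : ℤ) ∣ -x := fun h => hx ((dvd_neg).1 h)
    rw [if_neg hx, if_neg hx']
    have ux := HGprd_isUnit hp hS hx
    have ux' := HGprd_isUnit hp hS hx'
    apply ux'.mul_left_cancel
    rw [Ring.mul_inverse_cancel _ ux', Int.cast_neg, neg_mul_neg, Ring.mul_inverse_cancel _ ux]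

private lemma HGprd_two (h5 : 5 ≤ p) {n : ℤ} (h0 : 0 < n) (hn : n < 5) :
    ¬ (p : ℤ) ∣ n := by
  intro h
  have := Int.le_of_dvd h0 h
  omega

private lemma HGprd_psi_sum (hp : p.Prime) (h5 : 5 ≤ p) (hS : ((p : ℕ) : S) ^ 2 = 0) (c e : ℤ)
    (hc : ¬ (p : ℤ) ∣ c) :
    ∑ j ∈ Finset.range p, (p : S) * HGprd_psi S p (c * j + e) = 0 := by
  have : Fact p.Prime := ⟨hp⟩
  let G : ZMod p → S := fun a => (p : S) * HGprd_psi S p (a.val : ℤ)
  have hG : ∀ x : ℤ, (p : S) * HGprd_psi S p x = G (x : ZMod p) := by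
    intro x
    apply HGprd_psi_mod hp hS
    rw [← ZMod.intCast_zmod_eq_zero_iff_dvd]
    push_cast
    rw [ZMod.natCast_zmod_val, sub_self]
  have h1 : ∑ j ∈ Finset.range p, (p : S) * HGprd_psi S p (c * j + e) = ∑ a, G a := by
    rw [← HGprd_sum hp c e hc G]
    exact Finset.sum_congr rfl fun j _ => hG _
  have h2 : ∑ a, G a = - ∑ a, G a := by
    rw [← Finset.sum_neg_distrib]
    refine Finset.sum_bijective (fun a : ZMod p => -a) ?_
      (fun a => ⟨fun _ => Finset.mem_univ _, fun _ => Finset.mem_univ _⟩) (fun a _ => ?_)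
    · exact neg_involutive.bijective
    · have h3 : (-a : ZMod p) = ((-(a.val : ℤ) : ℤ) : ZMod p) := by
        push_cast
        rw [ZMod.natCast_zmod_val]
      rw [h3, ← hG, HGprd_psi_neg hp hS, mul_neg, neg_neg]
  have h4 : (2 : S) * ∑ a, G a = 0 := by
    linear_combination h2
  have h5 : IsUnit (2 : S) := by
    have := HGprd_isUnit (S := S) hp hS (HGprd_two h5 (n := 2) (by norm_num) (by norm_num))
    simpa using this
  rw [h1]
  exact (h5.mul_right_eq_zero).1 h4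

private lemma HGprd_prod_one (hS : ((p : ℕ) : S) ^ 2 = 0) (u : S) (ψ : ℕ → S) (s : Finset ℕ) :
    ∏ j ∈ s, (1 + u * (p * ψ j)) = 1 + u * ∑ j ∈ s, (p : S) * ψ j := by
  classical
  induction s using Finset.induction_on with
  | empty => simp
  | insert a s ha ih =>
    rw [Finset.prod_insert ha, Finset.sum_insert ha, ih, ← Finset.mul_sum]
    linear_combination (u ^ 2 * ψ a * ∑ j ∈ s, ψ j) * hS

theorem hz_shift (hp : p.Prime) (h5 : 5 ≤ p) (hS : ((p : ℕ) : S) ^ 2 = 0) (c e u : ℤ)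
    (hc : ¬ (p : ℤ) ∣ c) : ∏ j ∈ Finset.range p, ((hz p (c * j + e + u * p) : ℤ) : S) =
      ∏ j ∈ Finset.range p, ((hz p (c * j + e) : ℤ) : S) := by
  have h1 : ∀ j : ℕ, ((hz p (c * j + e + u * p) : ℤ) : S) =
      ((hz p (c * j + e) : ℤ) : S) * (1 + (u : S) * (p * HGprd_psi S p (c * j + e))) := by
    intro j
    have hiff : (p : ℤ) ∣ c * j + e + u * p ↔ (p : ℤ) ∣ c * j + e := by
      constructor
      · intro h
        have := dvd_sub h (dvd_mul_left (p : ℤ) u)
        rwa [add_sub_cancel_right] at this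
      · intro h
        exact dvd_add h (dvd_mul_left (p : ℤ) u)
    unfold hz HGprd_psi
    by_cases h : (p : ℤ) ∣ c * j + e
    · rw [if_pos (hiff.2 h), if_pos h, if_pos h]
      simp
    · rw [if_neg (fun h' => h (hiff.1 h')), if_neg h, if_neg h]
      have ux := HGprd_isUnit (S := S) hp hS h
      have e1 := Ring.mul_inverse_cancel _ ux
      rw [Int.cast_add, Int.cast_mul u, Int.cast_natCast]
      linear_combination (-(u : S) * p) * e1
  rw [Finset.prod_congr rfl fun j _ => h1 j, Finset.prod_mul_distrib, HGprd_prod_one hS,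
    HGprd_psi_sum hp h5 hS c e hc, mul_zero, add_zero, mul_one]

theorem hz_mul (hp : p.Prime) (c e m : ℤ) (hc : ¬ (p : ℤ) ∣ c) (hm : ¬ (p : ℤ) ∣ m) :
    ∏ j ∈ Finset.range p, hz p (m * (c * j + e)) =
      m ^ (p - 1) * ∏ j ∈ Finset.range p, hz p (c * j + e) := by
  have : Fact p.Prime := ⟨hp⟩
  have hpi : Prime (p : ℤ) := Nat.prime_iff_prime_int.1 hp
  have h1 : ∀ j : ℕ, hz p (m * (c * j + e)) =
      (if ((c * (j : ℤ) + e : ℤ) : ZMod p) = 0 then 1 else m) * hz p (c * j + e) := by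
    intro j
    unfold hz
    by_cases h : (p : ℤ) ∣ c * j + e
    · rw [if_pos (dvd_mul_of_dvd_right h m), if_pos h,
        if_pos ((ZMod.intCast_zmod_eq_zero_iff_dvd _ p).2 h), one_mul]
    · have h' : ¬ (p : ℤ) ∣ m * (c * j + e) := by
        intro h'
        rcases hpi.dvd_or_dvd h' with h'' | h''
        · exact hm h''
        · exact h h''
      rw [if_neg h', if_neg h,
        if_neg (fun h0 => h ((ZMod.intCast_zmod_eq_zero_iff_dvd _ p).1 h0))]
  rw [Finset.prod_congr rfl fun j _ => h1 j, Finset.prod_mul_distrib]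
  congr 1
  rw [HGprd_prod hp c e hc (fun a : ZMod p => if a = 0 then (1 : ℤ) else m),
    ← Finset.mul_prod_erase Finset.univ _ (Finset.mem_univ (0 : ZMod p)), if_pos rfl, one_mul,
    Finset.prod_congr rfl (g := fun _ => m) (fun a ha => if_neg (Finset.ne_of_mem_erase ha)),
    Finset.prod_const, Finset.card_erase_of_mem (Finset.mem_univ _), Finset.card_univ, ZMod.card]

theorem hz_fac (hp : p.Prime) :
    ∏ j ∈ Finset.range p, hz p j = ((p - 1).factorial : ℤ) := by
  obtain ⟨n, hn⟩ : ∃ n, p = n + 1 := ⟨p - 1, by have := hp.pos; omega⟩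
  have h1 : Finset.range p = Finset.range (n + 1) := by rw [hn]
  have h2 : p - 1 = n := by omega
  rw [h1, h2, Finset.prod_range_succ', ← Finset.prod_range_add_one_eq_factorial]
  have h3 : hz p ((0 : ℕ) : ℤ) = 1 := by
    unfold hz
    rw [if_pos]
    simp
  rw [h3, mul_one]
  push_cast
  refine Finset.prod_congr rfl fun j hj => ?_
  unfold hz
  rw [if_neg]
  · intro h
    have h4 := Finset.mem_range.1 hj
    have := Int.le_of_dvd (by omega) h
    omega

private lemma HGprd_split3 {M : Type*} [CommMonoid M] (f : ℕ → M) (N : ℕ) :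
    ∏ n ∈ Finset.range (3 * N), f n =
      (∏ j ∈ Finset.range N, f (3 * j)) * (∏ j ∈ Finset.range N, f (3 * j + 1)) *
        ∏ j ∈ Finset.range N, f (3 * j + 2) := by
  induction N with
  | zero => simp
  | succ N ih =>
    rw [show 3 * (N + 1) = 3 * N + 1 + 1 + 1 by ring, Finset.prod_range_succ,
      Finset.prod_range_succ, Finset.prod_range_succ, ih, Finset.prod_range_succ,
      Finset.prod_range_succ _ N, Finset.prod_range_succ _ N]
    simp only [mul_assoc, mul_left_comm, mul_comm]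

private lemma HGprd_split2 {M : Type*} [CommMonoid M] (f : ℕ → M) (N : ℕ) :
    ∏ n ∈ Finset.range (2 * N), f n =
      (∏ j ∈ Finset.range N, f (2 * j)) * (∏ j ∈ Finset.range N, f (2 * j + 1)) := by
  induction N with
  | zero => simp
  | succ N ih =>
    rw [show 2 * (N + 1) = 2 * N + 1 + 1 by ring, Finset.prod_range_succ,
      Finset.prod_range_succ, ih, Finset.prod_range_succ, Finset.prod_range_succ _ N]
    simp only [mul_assoc, mul_left_comm, mul_comm]

/-- cast version of `hz_mul` -/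
private lemma HGprd_mulS (hp : p.Prime) (c e m : ℤ) (hc : ¬ (p : ℤ) ∣ c)
    (hm : ¬ (p : ℤ) ∣ m) : ∏ j ∈ Finset.range p, ((hz p (m * (c * j + e)) : ℤ) : S) =
      (m : S) ^ (p - 1) * ∏ j ∈ Finset.range p, ((hz p (c * j + e) : ℤ) : S) := by
  have := congrArg (fun z : ℤ => (z : S)) (hz_mul hp c e m hc hm)
  simp only [Int.cast_prod, Int.cast_mul, Int.cast_pow] at this
  exact this

private lemma HGprd_facS (hp : p.Prime) :
    ∏ j ∈ Finset.range p, ((hz p (j : ℤ) : ℤ) : S) = ((p - 1).factorial : S) := by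
  have := congrArg (fun z : ℤ => (z : S)) (hz_fac hp)
  simp only [Int.cast_prod, Int.cast_natCast] at this
  exact this

/-- (a) -/
private lemma HGprd_a (hp : p.Prime) (h5 : 5 ≤ p) (hS : ((p : ℕ) : S) ^ 2 = 0) :
    ∏ j ∈ Finset.range p, ((hz p (3 * j + 2) : ℤ) : S) =
      ∏ j ∈ Finset.range p, ((hz p (3 * j + 1) : ℤ) : S) := by
  have h3 : ¬ (p : ℤ) ∣ -3 := fun h =>
    HGprd_two h5 (n := 3) (by norm_num) (by norm_num) ((dvd_neg).1 h)
  have h3' := HGprd_two h5 (n := 3) (by norm_num) (by norm_num)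
  have h1' : ¬ (p : ℤ) ∣ -1 := fun h =>
    HGprd_two h5 (n := 1) (by norm_num) (by norm_num) ((dvd_neg).1 h)
  rw [← Finset.prod_range_reflect]
  have e1 : ∏ j ∈ Finset.range p, ((hz p (3 * ((p - 1 - j : ℕ) : ℤ) + 2) : ℤ) : S) =
      ∏ j ∈ Finset.range p, ((hz p (-3 * (j : ℤ) + -1 + 3 * p) : ℤ) : S) := by
    refine Finset.prod_congr rfl fun j hj => ?_
    have hj' := Finset.mem_range.1 hj
    congr 2
    have : ((p - 1 - j : ℕ) : ℤ) = p - 1 - j := by omega
    rw [this]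
    ring
  rw [e1, hz_shift hp h5 hS (-3) (-1) 3 h3]
  have e2 : ∏ j ∈ Finset.range p, ((hz p (-3 * (j : ℤ) + -1) : ℤ) : S) =
      ∏ j ∈ Finset.range p, ((hz p (-1 * (3 * (j : ℤ) + 1)) : ℤ) : S) := by
    refine Finset.prod_congr rfl fun j _ => ?_
    congr 2
    ring
  rw [e2, HGprd_mulS hp 3 1 (-1) h3' h1']
  have hev : Even (p - 1) := hp.even_sub_one (by omega)
  push_cast
  rw [hev.neg_one_pow, one_mul]

/-- (b) -/
private lemma HGprd_b (hp : p.Prime) (h5 : 5 ≤ p) (hS : ((p : ℕ) : S) ^ 2 = 0) :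
    (3 : S) ^ (p - 1) * (∏ j ∈ Finset.range p, ((hz p (3 * j + 1) : ℤ) : S)) *
      (∏ j ∈ Finset.range p, ((hz p (3 * j + 2) : ℤ) : S)) = ((p - 1).factorial : S) ^ 2 := by
  have h3' := HGprd_two h5 (n := 3) (by norm_num) (by norm_num)
  have h1' := HGprd_two h5 (n := 1) (by norm_num) (by norm_num)
  have e1 := HGprd_split3 (fun n : ℕ => ((hz p (n : ℤ) : ℤ) : S)) p
  have e2 : ∏ n ∈ Finset.range (3 * p), ((hz p (n : ℤ) : ℤ) : S) =
      ((p - 1).factorial : S) ^ 3 := by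
    rw [show 3 * p = p + p + p by ring, Finset.prod_range_add, Finset.prod_range_add,
      HGprd_facS hp]
    have s1 : ∏ x ∈ Finset.range p, ((hz p ((p + x : ℕ) : ℤ) : ℤ) : S) =
        ((p - 1).factorial : S) := by
      rw [← HGprd_facS (S := S) hp]
      have := hz_shift hp h5 hS 1 0 1 h1'
      simp only [one_mul, add_zero] at this
      rw [← this]
      refine Finset.prod_congr rfl fun j _ => ?_
      congr 2
      push_cast
      ring
    have s2 : ∏ x ∈ Finset.range p, ((hz p ((p + p + x : ℕ) : ℤ) : ℤ) : S) =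
        ((p - 1).factorial : S) := by
      rw [← HGprd_facS (S := S) hp]
      have := hz_shift hp h5 hS 1 0 2 h1'
      simp only [one_mul, add_zero] at this
      rw [← this]
      refine Finset.prod_congr rfl fun j _ => ?_
      congr 2
      push_cast
      ring
    rw [s1, s2]
    ring
  have e3 : ∏ j ∈ Finset.range p, ((hz p ((3 * j : ℕ) : ℤ) : ℤ) : S) =
      (3 : S) ^ (p - 1) * ((p - 1).factorial : S) := by
    have := HGprd_mulS (S := S) hp 1 0 3 h1' h3'
    simp only [one_mul, add_zero, HGprd_facS hp] at this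
    push_cast at this ⊢
    exact this
  rw [e2, e3] at e1
  have hu : IsUnit ((p - 1).factorial : S) := by
    refine isUnit_of_not_dvd hp hS ?_
    rw [hp.dvd_factorial]
    omega
  apply hu.mul_left_cancel
  push_cast at e1
  linear_combination -e1

private lemma HGprd_unitQ (hp : p.Prime) (hS : ((p : ℕ) : S) ^ 2 = 0) (f : ℕ → ℤ) :
    IsUnit (∏ j ∈ Finset.range p, ((hz p (f j) : ℤ) : S)) := by
  rw [IsUnit.prod_iff]
  exact fun j _ => HGprd_unit_hz hp hS _

theorem prdA (hp : p.Prime) (h5 : 5 ≤ p) (hS : ((p : ℕ) : S) ^ 2 = 0) :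
    (∏ j ∈ Finset.range p, ((hz p (3 * j + 1) : ℤ) : S)) *
      (∏ j ∈ Finset.range p, ((hz p (6 * j + 1) : ℤ) : S)) * 6 ^ (p - 1) =
      ((p - 1).factorial : S) ^ 2 := by
  have h3' := HGprd_two h5 (n := 3) (by norm_num) (by norm_num)
  have h2' := HGprd_two h5 (n := 2) (by norm_num) (by norm_num)
  have ea := HGprd_a hp h5 hS
  have eb := HGprd_b hp h5 hS
  have hu := HGprd_unitQ (S := S) hp hS (fun j => 3 * (j : ℤ) + 1)
  have e1 := HGprd_split2 (fun n : ℕ => ((hz p (3 * (n : ℤ) + 1) : ℤ) : S)) p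
  rw [show 2 * p = p + p by ring, Finset.prod_range_add] at e1
  have s1 : ∏ x ∈ Finset.range p, ((hz p (3 * ((p + x : ℕ) : ℤ) + 1) : ℤ) : S) =
      ∏ j ∈ Finset.range p, ((hz p (3 * j + 1) : ℤ) : S) := by
    rw [← hz_shift hp h5 hS 3 1 3 h3']
    refine Finset.prod_congr rfl fun j _ => ?_
    congr 2
    push_cast
    ring
  have s2 : ∏ j ∈ Finset.range p, ((hz p (3 * ((2 * j : ℕ) : ℤ) + 1) : ℤ) : S) =
      ∏ j ∈ Finset.range p, ((hz p (6 * j + 1) : ℤ) : S) := by
    refine Finset.prod_congr rfl fun j _ => ?_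
    congr 2
    push_cast
    ring
  have s3 : ∏ j ∈ Finset.range p, ((hz p (3 * ((2 * j + 1 : ℕ) : ℤ) + 1) : ℤ) : S) =
      (2 : S) ^ (p - 1) * ∏ j ∈ Finset.range p, ((hz p (3 * j + 2) : ℤ) : S) := by
    have := HGprd_mulS (S := S) hp 3 2 2 h3' h2'
    rw [Int.cast_ofNat] at this
    rw [← this]
    refine Finset.prod_congr rfl fun j _ => ?_
    congr 2
    push_cast
    ring
  rw [s1, s2, s3, ea] at e1
  rw [ea] at eb
  have e2 := hu.mul_left_cancel (b := ∏ j ∈ Finset.range p, ((hz p (3 * j + 1) : ℤ) : S))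
    (c := (∏ j ∈ Finset.range p, ((hz p (6 * j + 1) : ℤ) : S)) * 2 ^ (p - 1))
    (by linear_combination e1)
  have e6 : (6 : S) ^ (p - 1) = 2 ^ (p - 1) * 3 ^ (p - 1) := by
    rw [← mul_pow]
    norm_num
  rw [e6]
  generalize (∏ j ∈ Finset.range p, ((hz p (3 * j + 1) : ℤ) : S)) = Q at *
  generalize (∏ j ∈ Finset.range p, ((hz p (6 * j + 1) : ℤ) : S)) = P at *
  linear_combination eb - Q * 3 ^ (p - 1) * e2

theorem prdG (hp : p.Prime) (h5 : 5 ≤ p) (hS : ((p : ℕ) : S) ^ 2 = 0) :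
    (∏ j ∈ Finset.range p, ((hz p (3 * j + 2) : ℤ) : S)) *
      (∏ j ∈ Finset.range p, ((hz p (6 * j + 5) : ℤ) : S)) * 6 ^ (p - 1) =
      ((p - 1).factorial : S) ^ 2 := by
  have h3' := HGprd_two h5 (n := 3) (by norm_num) (by norm_num)
  have h2' := HGprd_two h5 (n := 2) (by norm_num) (by norm_num)
  have ea := HGprd_a hp h5 hS
  have eb := HGprd_b hp h5 hS
  have hu := HGprd_unitQ (S := S) hp hS (fun j => 3 * (j : ℤ) + 1)
  have e1 := HGprd_split2 (fun n : ℕ => ((hz p (3 * (n : ℤ) + 2) : ℤ) : S)) p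
  rw [show 2 * p = p + p by ring, Finset.prod_range_add] at e1
  have s1 : ∏ x ∈ Finset.range p, ((hz p (3 * ((p + x : ℕ) : ℤ) + 2) : ℤ) : S) =
      ∏ j ∈ Finset.range p, ((hz p (3 * j + 2) : ℤ) : S) := by
    rw [← hz_shift hp h5 hS 3 2 3 h3']
    refine Finset.prod_congr rfl fun j _ => ?_
    congr 2
    push_cast
    ring
  have s2 : ∏ j ∈ Finset.range p, ((hz p (3 * ((2 * j + 1 : ℕ) : ℤ) + 2) : ℤ) : S) =
      ∏ j ∈ Finset.range p, ((hz p (6 * j + 5) : ℤ) : S) := by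
    refine Finset.prod_congr rfl fun j _ => ?_
    congr 2
    push_cast
    ring
  have s3 : ∏ j ∈ Finset.range p, ((hz p (3 * ((2 * j : ℕ) : ℤ) + 2) : ℤ) : S) =
      (2 : S) ^ (p - 1) * ∏ j ∈ Finset.range p, ((hz p (3 * j + 1) : ℤ) : S) := by
    have := HGprd_mulS (S := S) hp 3 1 2 h3' h2'
    rw [Int.cast_ofNat] at this
    rw [← this]
    refine Finset.prod_congr rfl fun j _ => ?_
    congr 2
    push_cast
    ring
  rw [s1, s2, s3, ea] at e1
  rw [ea] at eb ⊢
  have e2 := hu.mul_left_cancel (b := ∏ j ∈ Finset.range p, ((hz p (3 * j + 1) : ℤ) : S))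
    (c := (∏ j ∈ Finset.range p, ((hz p (6 * j + 5) : ℤ) : S)) * 2 ^ (p - 1))
    (by linear_combination e1)
  have e6 : (6 : S) ^ (p - 1) = 2 ^ (p - 1) * 3 ^ (p - 1) := by
    rw [← mul_pow]
    norm_num
  rw [e6]
  generalize (∏ j ∈ Finset.range p, ((hz p (3 * j + 1) : ℤ) : S)) = Q at *
  generalize (∏ j ∈ Finset.range p, ((hz p (6 * j + 5) : ℤ) : S)) = P at *
  linear_combination eb - Q * 3 ^ (p - 1) * e2

end Pool.Agent.MP_2a5e5c_nt
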