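import Pool.Agent.Lib.MP_2a5e5c_nt.HGdef

/-!
# SUN, module HGtri: `trin p = 6` modulo `p²`

PROOF. `choose (2p) p = ∑_j choose p j ²` (`Nat.sum_range_choose_sq` or Vandermonde
`Nat.add_choose_eq`), the inner terms are divisible by `p²` (`Nat.Prime.dvd_choose_self`), so
`choose (2p) p = 2`; `choose (3p) p = ∑_j choose (2p) j choose p (p-j)` (Vandermonde); for
`0 < j < p` both factors are divisible by `p` (`choose (2p) j`: `j choose (2p) j = 2p choose (2p-1)
(j-1)`, `Nat.succ_mul_choose_eq`), `j = 0` gives `1`, `j = p` gives `choose (2p) p = 2`.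
`trin p = choose (3p) p * choose (2p) p`.
-/

namespace Pool.Agent.MP_2a5e5c_nt

private theorem HGtri_step {S : Type*} [CommRing S] {p : ℕ} (hp : p.Prime)
    (hS : ((p : ℕ) : S) ^ 2 = 0) (m : ℕ) (hm : ∀ j, 0 < j → j < p → p ∣ m.choose j) :
    (((m + p).choose p : ℕ) : S) = 1 + (m.choose p : ℕ) := by
  have hp0 : 0 < p := hp.pos
  have key : (m + p).choose p =
      ∑ i ∈ Finset.range (p + 1), m.choose i * p.choose (p - i) := by
    rw [Nat.add_choose_eq, Finset.Nat.sum_antidiagonal_eq_sum_range_succ_mk]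
  obtain ⟨r, rfl⟩ : ∃ r, p = r + 1 := ⟨p - 1, by omega⟩
  rw [key, Finset.sum_range_succ, Finset.sum_range_succ']
  push_cast
  have h0 : ∑ i ∈ Finset.range r, ((m.choose (i + 1) : ℕ) : S) *
      (((r + 1).choose (r - i) : ℕ) : S) = 0 := by
    refine Finset.sum_eq_zero fun i hi => ?_
    have hi' : i < r := Finset.mem_range.mp hi
    obtain ⟨a, ha⟩ := hm (i + 1) (by omega) (by omega)
    obtain ⟨b, hb⟩ := hp.dvd_choose_self (k := r - i) (by omega) (by omega)
    rw [ha, hb]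
    push_cast
    have e : (((r : S) + 1) * a) * (((r : S) + 1) * b) = ((r + 1 : ℕ) : S) ^ 2 * (a * b) := by
      push_cast
      ring
    rw [e, hS, zero_mul]
  rw [h0]
  simp

private theorem HGtri_dvd {p : ℕ} (hp : p.Prime) (j : ℕ) (h0 : 0 < j) (hj : j < p) :
    p ∣ (p + p).choose j := by
  obtain ⟨i, rfl⟩ : ∃ i, j = i + 1 := ⟨j - 1, by omega⟩
  obtain ⟨n, hn⟩ : ∃ n, p + p = n + 1 := ⟨p + p - 1, by have := hp.pos; omega⟩
  have h := Nat.add_one_mul_choose_eq n i
  rw [← hn] at h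
  have h1 : p ∣ (p + p).choose (i + 1) * (i + 1) := by
    rw [← h]
    exact Dvd.dvd.mul_right ⟨2, by ring⟩ _
  rcases hp.dvd_mul.mp h1 with h2 | h2
  · exact h2
  · exact absurd (Nat.le_of_dvd (by omega) h2) (by omega)

theorem trin_p {S : Type*} [CommRing S] {p : ℕ} (hp : p.Prime) (h5 : 5 ≤ p)
    (hS : ((p : ℕ) : S) ^ 2 = 0) : (trin p : S) = 6 := by
  have h2 := HGtri_step hp hS p fun j h0 hj => hp.dvd_choose_self (by omega) hj
  have h3 := HGtri_step hp hS (p + p) fun j h0 hj => HGtri_dvd hp j h0 hj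
  rw [h2] at h3
  unfold trin
  rw [show 3 * p = p + p + p by ring, show 2 * p = p + p by ring]
  push_cast
  rw [h3, h2, Nat.choose_self]
  push_cast
  ring

end Pool.Agent.MP_2a5e5c_nt
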