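import Pool.Agent.Lib.MP_2a5e5c_nt.HGdef

/-!
# SUN, module HGyp: the coefficient of `X^p`, transfer from `ℚ` to `S`

PROOF. Put `P k = ∏_{j<k} (3j+e1)(6j+e2)` (an integer). By induction
`18^k k!² a k = P k` in `ℚ` for all `k` and `18^k k!² A k = P k` in `S` for `k < p`. Put
`N = 18^p (p-1)!²` and `M k = 18^(p-k) * ((p-1)! / k!)²` for `k < p` (`(p-1)!/k! =
(k+1)...(p-1)`, `Nat.factorial_mul_descFactorial` or `Nat.factorial_dvd_factorial`), so
`M k * (18^k k!²) = N`. The coefficient `c k` of `X^p` of `V * zP ℤ ^ k` is an integer, and it is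
the
coefficient over every ring (`Polynomial.map`, `coeff_map`, `Polynomial.map_mul`, `map_pow`).
In `S`: `N * y_p = ∑_{k<p} N (A k) c k = ∑_{k<p} M k P k c k`. In `ℚ` the same with `a`, so by `hT`
`∑_{k<p} M k P k c k = N (trin p - a p c p)`, where `c p = 108^p` (`V.coeff 0 = 1`, `zP^p = X^p *
(108 (1 - 27 X))^p`) and `N a p = P p / p² = Q`: as an equation of integers
`∑_{k<p} M k P k c k = N trin p - 108^p Q`. Cast it to `S` and cancel the unit `18^p`
(`108 = 18 * 6`; `18` is a unit because `p ≥ 5`, `isUnit_of_not_dvd`).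
-/

namespace Pool.Agent.MP_2a5e5c_nt

open Polynomial

/-- The integer `∏_{j<k} (3j+e1)(6j+e2)`. -/
private def HGyp_Pr (e1 e2 k : ℕ) : ℤ :=
  ∏ j ∈ Finset.range k, ((3 * (j : ℤ) + e1) * (6 * (j : ℤ) + e2))

private theorem HGyp_P {R : Type*} [CommRing R] {e1 e2 p : ℕ} {A : ℕ → R} (h0 : A 0 = 1)
    (hA : ∀ k : ℕ, k + 1 < p → 18 * ((k : R) + 1) ^ 2 * A (k + 1) =
      (3 * (k : R) + e1) * (6 * (k : R) + e2) * A k) :
    ∀ k : ℕ, k < p → (18 : R) ^ k * (k.factorial : R) ^ 2 * A k = ((HGyp_Pr e1 e2 k : ℤ) : R) := by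
  intro k
  induction k with
  | zero => intro _; simp [HGyp_Pr, h0]
  | succ k ih =>
    intro hk
    have h1 := ih (by omega)
    have h2 := hA k hk
    have e : ((HGyp_Pr e1 e2 (k + 1) : ℤ) : R) =
        ((HGyp_Pr e1 e2 k : ℤ) : R) * ((3 * (k : R) + e1) * (6 * (k : R) + e2)) := by
      unfold HGyp_Pr
      rw [Finset.prod_range_succ]
      push_cast
      ring
    rw [e, Nat.factorial_succ]
    push_cast
    linear_combination ((18 : R) ^ k * (k.factorial : R) ^ 2) * h2 +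
      ((3 * (k : R) + e1) * (6 * (k : R) + e2)) * h1

private theorem HGyp_zP (R : Type*) [CommRing R] :
    (zP ℤ).map (Int.castRingHom R) = zP R := by
  unfold zP
  simp [Polynomial.map_mul, Polynomial.map_sub]

private theorem HGyp_coeff {R : Type*} [CommRing R] (V : ℤ[X]) (A : ℕ → R) (p n : ℕ) :
    (V.map (Int.castRingHom R) * ∑ k ∈ Finset.range n, C (A k) * zP R ^ k).coeff p =
      ∑ k ∈ Finset.range n, A k * (((V * zP ℤ ^ k).coeff p : ℤ) : R) := by
  rw [Finset.mul_sum, finsetSum_coeff]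
  refine Finset.sum_congr rfl fun k _ => ?_
  have e : V.map (Int.castRingHom R) * (C (A k) * zP R ^ k) =
      C (A k) * (V * zP ℤ ^ k).map (Int.castRingHom R) := by
    rw [Polynomial.map_mul, Polynomial.map_pow, HGyp_zP]
    ring
  rw [e, coeff_C_mul, coeff_map]
  simp

private theorem HGyp_top (V : ℤ[X]) (hV : V.coeff 0 = 1) (p : ℕ) :
    (V * zP ℤ ^ p).coeff p = 108 ^ p := by
  have e : V * zP ℤ ^ p = X ^ p * (V * (108 * (1 - 27 * X)) ^ p) := by
    unfold zP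
    rw [show (108 : ℤ[X]) * X * (1 - 27 * X) = X * (108 * (1 - 27 * X)) by ring, mul_pow]
    ring
  rw [e, coeff_X_pow_mul', if_pos le_rfl, Nat.sub_self, mul_coeff_zero, hV, one_mul,
    coeff_zero_eq_eval_zero]
  simp

/-- `18^(p-k) ((p-1)!/k!)^2`. -/
private def HGyp_M (p k : ℕ) : ℕ := 18 ^ (p - k) * ((p - 1).factorial / k.factorial) ^ 2

private theorem HGyp_MN {p k : ℕ} (hk : k < p) :
    HGyp_M p k * (18 ^ k * k.factorial ^ 2) = 18 ^ p * (p - 1).factorial ^ 2 := by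
  unfold HGyp_M
  have h1 : k.factorial ∣ (p - 1).factorial := Nat.factorial_dvd_factorial (by omega)
  have h2 : (p - 1).factorial / k.factorial * k.factorial = (p - 1).factorial :=
    Nat.div_mul_cancel h1
  have h3 : 18 ^ p = 18 ^ (p - k) * 18 ^ k := by
    rw [← pow_add]
    congr 1
    omega
  rw [h3]
  calc 18 ^ (p - k) * ((p - 1).factorial / k.factorial) ^ 2 * (18 ^ k * k.factorial ^ 2)
      = 18 ^ (p - k) * 18 ^ k * ((p - 1).factorial / k.factorial * k.factorial) ^ 2 := by ring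
    _ = _ := by rw [h2]

/-- The integer `∑_{k<p} M k P k c k`. -/
private noncomputable def HGyp_Sig (e1 e2 p : ℕ) (V : ℤ[X]) : ℤ :=
  ∑ k ∈ Finset.range p, (HGyp_M p k : ℤ) * HGyp_Pr e1 e2 k * (V * zP ℤ ^ k).coeff p

private theorem HGyp_sum {R : Type*} [CommRing R] {e1 e2 p : ℕ} {A : ℕ → R} (V : ℤ[X])
    (hP : ∀ k : ℕ, k < p →
      (18 : R) ^ k * (k.factorial : R) ^ 2 * A k = ((HGyp_Pr e1 e2 k : ℤ) : R)) :
    (18 : R) ^ p * ((p - 1).factorial : R) ^ 2 *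
      ∑ k ∈ Finset.range p, A k * (((V * zP ℤ ^ k).coeff p : ℤ) : R) =
      ((HGyp_Sig e1 e2 p V : ℤ) : R) := by
  unfold HGyp_Sig
  push_cast
  rw [Finset.mul_sum]
  refine Finset.sum_congr rfl fun k hk => ?_
  have hk' := Finset.mem_range.1 hk
  have h1 : ((HGyp_M p k : ℕ) : R) * ((18 : R) ^ k * (k.factorial : R) ^ 2) =
      (18 : R) ^ p * ((p - 1).factorial : R) ^ 2 := by
    exact_mod_cast congrArg (fun n : ℕ => (n : R)) (HGyp_MN hk')
  rw [← h1, ← hP k hk']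
  ring

theorem HG_transfer {S : Type*} [CommRing S] {p : ℕ} (hp : p.Prime) (h5 : 5 ≤ p)
    (hS : ((p : ℕ) : S) ^ 2 = 0) (e1 e2 : ℕ) (V : ℤ[X]) (hV : V.coeff 0 = 1)
    (A : ℕ → S) (hA0 : A 0 = 1)
    (hA : ∀ k : ℕ, k + 1 < p → 18 * ((k : S) + 1) ^ 2 * A (k + 1) =
      (3 * (k : S) + e1) * (6 * (k : S) + e2) * A k)
    (a : ℕ → ℚ) (ha0 : a 0 = 1)
    (ha : ∀ k : ℕ, 18 * ((k : ℚ) + 1) ^ 2 * a (k + 1) =
      (3 * (k : ℚ) + e1) * (6 * (k : ℚ) + e2) * a k)
    (Q : ℤ) (hQ : ∏ j ∈ Finset.range p, ((3 * (j : ℤ) + e1) * (6 * (j : ℤ) + e2)) =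
      (p : ℤ) ^ 2 * Q)
    (hT : (V.map (Int.castRingHom ℚ) *
      ∑ k ∈ Finset.range (p + 1), C (a k) * zP ℚ ^ k).coeff p = (trin p : ℚ)) :
    ((p - 1).factorial : S) ^ 2 * (V.map (Int.castRingHom S) *
      ∑ k ∈ Finset.range p, C (A k) * zP S ^ k).coeff p =
      ((p - 1).factorial : S) ^ 2 * (trin p : S) - 6 ^ p * (Q : S) := by
  classical
  have hPS := HGyp_P (R := S) (e1 := e1) (e2 := e2) (p := p) hA0 hA
  have hPQ := HGyp_P (R := ℚ) (e1 := e1) (e2 := e2) (p := p + 1) ha0 (fun k _ => ha k)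
  have hSs := HGyp_sum V hPS
  have hSq := HGyp_sum (e1 := e1) (e2 := e2) (p := p) (A := a) V
    (fun k hk => hPQ k (by omega))
  have hp0 : (p : ℚ) ≠ 0 := by exact_mod_cast hp.ne_zero
  -- the top coefficient
  have hNa : (18 : ℚ) ^ p * ((p - 1).factorial : ℚ) ^ 2 * a p = (Q : ℚ) := by
    have h1 := hPQ p (by omega)
    have h2 : ((HGyp_Pr e1 e2 p : ℤ) : ℚ) = (p : ℚ) ^ 2 * (Q : ℚ) := by
      have h3 : HGyp_Pr e1 e2 p = (p : ℤ) ^ 2 * Q := hQ
      rw [h3]
      push_cast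
      ring
    have h4 : ((p.factorial : ℕ) : ℚ) = (p : ℚ) * ((p - 1).factorial : ℚ) := by
      have h5 : p * (p - 1).factorial = p.factorial := Nat.mul_factorial_pred hp.ne_zero
      rw [← h5]
      push_cast
      ring
    rw [h2, h4] at h1
    have h6 : (p : ℚ) ^ 2 ≠ 0 := pow_ne_zero _ hp0
    apply mul_left_cancel₀ h6
    linear_combination h1
  have hint : (HGyp_Sig e1 e2 p V : ℤ) =
      18 ^ p * ((p - 1).factorial : ℤ) ^ 2 * (trin p : ℤ) - Q * 108 ^ p := by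
    have h1 : ((HGyp_Sig e1 e2 p V : ℤ) : ℚ) =
        18 ^ p * ((p - 1).factorial : ℚ) ^ 2 * (trin p : ℚ) - (Q : ℚ) * 108 ^ p := by
      rw [HGyp_coeff, Finset.sum_range_succ, HGyp_top V hV] at hT
      push_cast at hT
      rw [← hSq, ← hT, mul_add, ← hNa]
      ring
    exact_mod_cast h1
  rw [HGyp_coeff]
  have hu : IsUnit ((18 : S) ^ p) := by
    have h18 : IsUnit (((18 : ℕ) : ℕ) : S) := by
      apply isUnit_of_not_dvd hp hS
      intro hd
      have h1 : p ∣ 2 * 3 ^ 2 := by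
        norm_num
        exact hd
      rcases (Nat.Prime.dvd_mul hp).1 h1 with h2 | h2
      · have := Nat.le_of_dvd (by norm_num) h2
        omega
      · have := Nat.le_of_dvd (by norm_num) (hp.dvd_of_dvd_pow h2)
        omega
    have h2 : (((18 : ℕ) : ℕ) : S) = 18 := by norm_num
    rw [h2] at h18
    exact h18.pow p
  apply hu.mul_left_cancel
  rw [hint] at hSs
  push_cast at hSs
  have h108 : (108 : S) ^ p = 18 ^ p * 6 ^ p := by
    rw [← mul_pow]
    norm_num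
  rw [h108] at hSs
  linear_combination hSs

end Pool.Agent.MP_2a5e5c_nt
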