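import Pool.Agent.Lib.MP_2a5e5c_nt.HGode
import Pool.Agent.Lib.MP_2a5e5c_nt.HGprd
import Pool.Agent.Lib.MP_2a5e5c_nt.HGfac
import Pool.Agent.Lib.MP_2a5e5c_nt.HGtri
import Pool.Agent.Lib.MP_2a5e5c_nt.HGyp

/-!
# SUN, module HGfin: the four formulas of the hypergeometric part
-/

namespace Pool.Agent.MP_2a5e5c_nt

open Polynomial

variable {S : Type*} [CommRing S] {p : ℕ}

private lemma HGfin_lt (j : ℕ) (hp : p.Prime) (hj : j + 1 < p) : ¬ p ∣ p + j + 1 := by
  intro h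
  rw [add_assoc] at h
  have h' : p ∣ j + 1 := (Nat.dvd_add_right (dvd_refl p)).1 h
  exact absurd (Nat.le_of_dvd (Nat.succ_pos j) h') (by omega)

/-- the value of a polynomial whose coefficients satisfy the recursion -/
theorem HGfin_eval (hp : p.Prime) (hS : ((p : ℕ) : S) ^ 2 = 0) (y : S[X])
    (hd : y.natDegree < 2 * p) (h0 : y.coeff 0 = 1)
    (hr : ∀ n : ℕ, ((n : S) + 1) ^ 2 * y.coeff (n + 1) =
      3 * (3 * (n : S) + 1) * (3 * (n : S) + 2) * y.coeff n)
    {kap : ℕ → S} (hk : IsKap p kap) (t : S) :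
    y.eval t = Hs p t + y.coeff p * t ^ p * Ks p kap t := by
  have h1 : ∀ n, n < p → y.coeff n = (trin n : S) := by
    intro n
    induction n with
    | zero => intro _; rw [h0, trin_zero, Nat.cast_one]
    | succ n ih =>
      intro hn
      have h2 := ih (by omega)
      have h3 := hr n
      have h4 := congrArg (Nat.cast : ℕ → S) (trin_succ n)
      push_cast at h4
      have hu : IsUnit (((n + 1 : ℕ) : S) ^ 3) := by
        refine IsUnit.pow 3 (isUnit_of_not_dvd hp hS ?_)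
        intro h
        exact absurd (Nat.le_of_dvd (Nat.succ_pos n) h) (by omega)
      refine hu.mul_left_cancel ?_
      push_cast
      rw [h2] at h3
      linear_combination ((n : S) + 1) * h3 - h4
  have h2 : ∀ j, j < p → y.coeff (p + j) = y.coeff p * kap j := by
    intro j
    induction j with
    | zero => intro _; rw [hk.1, mul_one, add_zero]
    | succ j ih =>
      intro hj
      have e1 := ih (by omega)
      have e2 := hr (p + j)
      have e3 := hk.2 j hj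
      push_cast at e2 e3
      have hu : IsUnit (((p + j + 1 : ℕ) : S) ^ 3) :=
        IsUnit.pow 3 (isUnit_of_not_dvd hp hS (HGfin_lt j hp hj))
      refine hu.mul_left_cancel ?_
      rw [e1] at e2
      rw [← add_assoc]
      push_cast
      linear_combination ((p : S) + j + 1) * e2 - (y.coeff p) * e3
  rw [eval_eq_sum_range' hd, two_mul, Finset.sum_range_add, Hs, Ks, Finset.mul_sum]
  congr 1
  · exact Finset.sum_congr rfl fun n hn => by rw [h1 n (Finset.mem_range.1 hn)]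
  · refine Finset.sum_congr rfl fun n hn => ?_
    rw [h2 n (Finset.mem_range.1 hn), pow_add]
    ring

theorem HGfin_zdeg (R : Type*) [CommRing R] (k : ℕ) (a : R) :
    (C a * zP R ^ k).natDegree ≤ 2 * k := by
  have h1 : (zP R).natDegree ≤ 2 := by
    unfold zP
    compute_degree
  refine (natDegree_C_mul_le _ _).trans ((natDegree_pow_le).trans ?_)
  rw [mul_comm 2 k]
  exact Nat.mul_le_mul_left k h1

theorem HGfin_deg (R : Type*) [CommRing R] (n : ℕ) (A : ℕ → R) :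
    (∑ k ∈ Finset.range (n + 1), C (A k) * zP R ^ k).natDegree ≤ 2 * n := by
  refine natDegree_sum_le_of_forall_le _ _ fun k hk => ?_
  have := Finset.mem_range.1 hk
  exact (HGfin_zdeg R k (A k)).trans (by omega)

theorem HGfin_zeval (R : Type*) [CommRing R] (t : R) :
    (zP R).eval t = 108 * t * (1 - 27 * t) := by
  simp [zP]

theorem HGfin_yeval (R : Type*) [CommRing R] (n : ℕ) (A : ℕ → R) (t : R) :
    (∑ k ∈ Finset.range n, C (A k) * zP R ^ k).eval t =
      ∑ k ∈ Finset.range n, A k * (108 * t * (1 - 27 * t)) ^ k := by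
  rw [eval_finset_sum]
  exact Finset.sum_congr rfl fun k _ => by
    rw [eval_mul, eval_C, eval_pow, HGfin_zeval]

theorem HGfin_y0 (R : Type*) [CommRing R] (n : ℕ) (A : ℕ → R) :
    (∑ k ∈ Finset.range (n + 1), C (A k) * zP R ^ k).coeff 0 = A 0 := by
  rw [coeff_zero_eq_eval_zero, HGfin_yeval, Finset.sum_range_succ']
  simp

/-- coefficients of `c z^N` below `N` -/
theorem HGfin_zlow (R : Type*) [CommRing R] (c : R[X]) (N n : ℕ) (hn : n < N) :
    (c * zP R ^ N).coeff n = 0 := by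
  have h1 : c * zP R ^ N = (c * (108 * (1 - 27 * X)) ^ N) * X ^ N := by
    rw [mul_assoc c, ← mul_pow, zP]
    congr 2
    ring
  rw [h1, coeff_mul_X_pow', if_neg (by omega)]

/-- the closed form of the coefficients, up to units -/
theorem HGfin_prod (e1 e2 : ℕ) (A : ℕ → S) (N : ℕ) (hA0 : A 0 = 1)
    (hA : ∀ k : ℕ, k < N → 18 * ((k : S) + 1) ^ 2 * A (k + 1) =
      (3 * (k : S) + e1) * (6 * (k : S) + e2) * A k) (k : ℕ) (hk : k ≤ N) :
    18 ^ k * (k.factorial : S) ^ 2 * A k =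
      ((∏ j ∈ Finset.range k, ((3 * (j : ℤ) + e1) * (6 * (j : ℤ) + e2)) : ℤ) : S) := by
  induction k with
  | zero => simp [hA0]
  | succ k ih =>
    have h1 := ih (by omega)
    have h2 := hA k (by omega)
    rw [Finset.prod_range_succ, Int.cast_mul, ← h1, Nat.factorial_succ]
    push_cast
    linear_combination (18 ^ k * (k.factorial : S) ^ 2) * h2

/-- the residual vanishes -/
theorem HGfin_res (hp : p.Prime) (h5 : 5 ≤ p) (hS : ((p : ℕ) : S) ^ 2 = 0) (e1 e2 : ℕ)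
    (A : ℕ → S) (N : ℕ) (hN : N + 1 = p) (hA0 : A 0 = 1)
    (hA : ∀ k : ℕ, k < N → 18 * ((k : S) + 1) ^ 2 * A (k + 1) =
      (3 * (k : S) + e1) * (6 * (k : S) + e2) * A k) (Q : ℤ)
    (hQ : ∏ j ∈ Finset.range p, ((3 * (j : ℤ) + e1) * (6 * (j : ℤ) + e2)) =
      (p : ℤ) ^ 2 * Q) : (3 * (N : S) + e1) * (6 * (N : S) + e2) * A N = 0 := by
  have h1 := HGfin_prod e1 e2 A N hA0 hA N le_rfl
  rw [← hN, Finset.prod_range_succ] at hQ
  have h2 := congrArg (Int.cast : ℤ → S) hQ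
  rw [Int.cast_mul, ← h1] at h2
  push_cast at h2
  have h3 : ((N : S) + 1) ^ 2 = 0 := by
    rw [← hN] at hS
    push_cast at hS
    exact hS
  rw [h3, zero_mul] at h2
  have hu : IsUnit ((18 ^ N * (N.factorial : S) ^ 2 : S)) := by
    refine (IsUnit.pow _ ?_).mul (IsUnit.pow _ ?_)
    · have := isUnit_of_not_dvd hp hS (n := 18) (fun h => by
        have h18 : (18 : ℕ) = 2 * 3 ^ 2 := by norm_num
        rw [h18] at h
        rcases (Nat.Prime.dvd_mul hp).1 h with h | h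
        · exact absurd (Nat.le_of_dvd (by norm_num) h) (by omega)
        · exact absurd (Nat.le_of_dvd (by norm_num) (hp.dvd_of_dvd_pow h)) (by omega))
      exact_mod_cast this
    · exact isUnit_of_not_dvd hp hS (fun h => by
        have := (Nat.Prime.dvd_factorial hp).1 h
        omega)
  refine hu.mul_left_cancel ?_
  rw [mul_zero]
  linear_combination h2

/-- the coefficients over `ℚ` -/
theorem HGfin_rat (y : ℚ[X]) (h0 : y.coeff 0 = 1) (N : ℕ)
    (hr : ∀ n : ℕ, n < N → ((n : ℚ) + 1) ^ 2 * y.coeff (n + 1) =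
      3 * (3 * (n : ℚ) + 1) * (3 * (n : ℚ) + 2) * y.coeff n) (n : ℕ) (hn : n ≤ N) :
    y.coeff n = (trin n : ℚ) := by
  induction n with
  | zero => rw [h0, trin_zero, Nat.cast_one]
  | succ n ih =>
    have h2 := ih (by omega)
    have h3 := hr n (by omega)
    have h4 := congrArg (Nat.cast : ℕ → ℚ) (trin_succ n)
    push_cast at h4
    have hu : ((n : ℚ) + 1) ^ 3 ≠ 0 := by positivity
    refine mul_left_cancel₀ hu ?_
    rw [h2] at h3
    linear_combination ((n : ℚ) + 1) * h3 - h4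

theorem HGfin_aex (e1 e2 : ℕ) : ∃ a : ℕ → ℚ, a 0 = 1 ∧ ∀ k : ℕ,
    18 * ((k : ℚ) + 1) ^ 2 * a (k + 1) = (3 * (k : ℚ) + e1) * (6 * (k : ℚ) + e2) * a k := by
  refine ⟨fun n => Nat.rec 1 (fun k x =>
    (3 * (k : ℚ) + e1) * (6 * (k : ℚ) + e2) * x / (18 * ((k : ℚ) + 1) ^ 2)) n, rfl,
    fun k => ?_⟩
  have h1 : (18 * ((k : ℚ) + 1) ^ 2) ≠ 0 := by positivity
  exact mul_div_cancel₀ _ h1

theorem HGfin_unitf (hp : p.Prime) (hS : ((p : ℕ) : S) ^ 2 = 0) :
    IsUnit (((p - 1).factorial : S) ^ 2) := by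
  refine IsUnit.pow _ (isUnit_of_not_dvd hp hS (fun h => ?_))
  have := (Nat.Prime.dvd_factorial hp).1 h
  have := hp.two_le
  omega

theorem HGfin_A (hp : p.Prime) (h5 : 5 ≤ p) (hS : ((p : ℕ) : S) ^ 2 = 0) (ε : ℤ)
    (hfac : ∏ j ∈ Finset.range p, ((3 * (j : ℤ) + 1) * (6 * (j : ℤ) + 1)) = (p : ℤ) ^ 2 *
      (ε * ((∏ j ∈ Finset.range p, hz p (3 * (j : ℤ) + 1)) *
        ∏ j ∈ Finset.range p, hz p (6 * (j : ℤ) + 1))))
    {A : ℕ → S} (hA : IsA p A) {kap : ℕ → S} (hk : IsKap p kap) (t : S) :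
    ∑ k ∈ Finset.range p, A k * (108 * t * (1 - 27 * t)) ^ k =
      Hs p t + 6 * (1 - (ε : S)) * t ^ p * Ks p kap t := by
  obtain ⟨N, hN⟩ : ∃ N, N + 1 = p := ⟨p - 1, by omega⟩
  have hA2 : ∀ k : ℕ, k < N → 18 * ((k : S) + 1) ^ 2 * A (k + 1) =
      (3 * (k : S) + (1 : ℕ)) * (6 * (k : S) + (1 : ℕ)) * A k := by
    intro k hk
    have := hA.2 k (by omega)
    push_cast
    exact this
  have hA3 : ∀ k : ℕ, k < N → 18 * ((k : S) + 1) ^ 2 * A (k + 1) =
      (3 * (k : S) + 1) * (6 * (k : S) + 1) * A k := fun k hk => hA.2 k (by omega)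
  have hQ : ∏ j ∈ Finset.range p, ((3 * (j : ℤ) + (1 : ℕ)) * (6 * (j : ℤ) + (1 : ℕ))) =
      (p : ℤ) ^ 2 * (ε * ((∏ j ∈ Finset.range p, hz p (3 * (j : ℤ) + 1)) *
        ∏ j ∈ Finset.range p, hz p (6 * (j : ℤ) + 1))) := by
    push_cast
    exact hfac
  have hres := HGfin_res hp h5 hS 1 1 A N hN hA.1 hA2 _ hQ
  set y : S[X] := ∑ k ∈ Finset.range (N + 1), C (A k) * zP S ^ k with hy
  have hode := HG_odeA A N hA3 y hy
  rw [Nat.cast_one] at hres
  rw [hres, C_0, mul_zero, zero_mul, neg_zero] at hode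
  have hr : ∀ n : ℕ, ((n : S) + 1) ^ 2 * y.coeff (n + 1) =
      3 * (3 * (n : S) + 1) * (3 * (n : S) + 2) * y.coeff n := by
    intro n
    have := HG_rec y 0 hode n
    rw [coeff_zero, add_zero] at this
    exact this
  have hd : y.natDegree < 2 * p := by
    have := HGfin_deg S N A
    rw [← hy] at this
    omega
  have h0 : y.coeff 0 = 1 := (HGfin_y0 S N A).trans hA.1
  obtain ⟨a, ha0, ha⟩ := HGfin_aex 1 1
  have hT : ((1 : ℤ[X]).map (Int.castRingHom ℚ) *
      ∑ k ∈ Finset.range (p + 1), C (a k) * zP ℚ ^ k).coeff p = (trin p : ℚ) := by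
    rw [Polynomial.map_one, one_mul]
    have ho := HG_odeA a p (fun k _ => by
      have := ha k
      push_cast at this
      exact this) _ rfl
    refine HGfin_rat _ ((HGfin_y0 ℚ p a).trans ha0) p (fun n hn => ?_) p le_rfl
    have h1 := HG_rec _ _ ho n
    rw [coeff_neg, HGfin_zlow ℚ _ p n hn, neg_zero, add_zero] at h1
    exact h1
  have htr := HG_transfer hp h5 hS 1 1 1 (by simp) A hA.1 (fun k hk => hA2 k (by omega)) a ha0 ha
    _ hQ hT
  rw [Polynomial.map_one, one_mul, ← hN, ← hy, hN] at htr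
  have hpr := prdA hp h5 hS
  have hyp : y.coeff p = 6 * (1 - (ε : S)) := by
    refine (HGfin_unitf hp hS).mul_left_cancel ?_
    rw [htr, trin_p hp h5 hS]
    push_cast
    have h6 : (6 : S) ^ p = 6 ^ (p - 1) * 6 := by
      rw [← pow_succ]
      congr 1
      omega
    rw [h6]
    linear_combination (-6 * (ε : S)) * hpr
  have hev := HGfin_eval hp hS y hd h0 hr hk t
  rw [hyp] at hev
  rw [← hev, hy, hN, HGfin_yeval]

theorem HGfin_G (hp : p.Prime) (h5 : 5 ≤ p) (hS : ((p : ℕ) : S) ^ 2 = 0) (ε : ℤ)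
    (hfac : ∏ j ∈ Finset.range p, ((3 * (j : ℤ) + 2) * (6 * (j : ℤ) + 5)) = (p : ℤ) ^ 2 *
      (ε * ((∏ j ∈ Finset.range p, hz p (3 * (j : ℤ) + 2)) *
        ∏ j ∈ Finset.range p, hz p (6 * (j : ℤ) + 5))))
    {A : ℕ → S} (hA : IsG p A) {kap : ℕ → S} (hk : IsKap p kap) (t : S) :
    (1 - 54 * t) * ∑ k ∈ Finset.range p, A k * (108 * t * (1 - 27 * t)) ^ k =
      Hs p t + 6 * (1 - (ε : S)) * t ^ p * Ks p kap t := by
  obtain ⟨N, hN⟩ : ∃ N, N + 1 = p := ⟨p - 1, by omega⟩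
  have hA2 : ∀ k : ℕ, k < N → 18 * ((k : S) + 1) ^ 2 * A (k + 1) =
      (3 * (k : S) + (2 : ℕ)) * (6 * (k : S) + (5 : ℕ)) * A k := by
    intro k hk
    have := hA.2 k (by omega)
    push_cast
    exact this
  have hA3 : ∀ k : ℕ, k < N → 18 * ((k : S) + 1) ^ 2 * A (k + 1) =
      (3 * (k : S) + 2) * (6 * (k : S) + 5) * A k := fun k hk => hA.2 k (by omega)
  have hQ : ∏ j ∈ Finset.range p, ((3 * (j : ℤ) + (2 : ℕ)) * (6 * (j : ℤ) + (5 : ℕ))) =
      (p : ℤ) ^ 2 * (ε * ((∏ j ∈ Finset.range p, hz p (3 * (j : ℤ) + 2)) *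
        ∏ j ∈ Finset.range p, hz p (6 * (j : ℤ) + 5))) := by
    push_cast
    exact hfac
  have hres := HGfin_res hp h5 hS 2 5 A N hN hA.1 hA2 _ hQ
  set Y : S[X] := ∑ k ∈ Finset.range (N + 1), C (A k) * zP S ^ k with hY
  set y : S[X] := (1 - 54 * X) * Y with hy
  have hode := HG_odeG A N hA3 y hy
  push_cast at hres
  rw [hres, C_0, mul_zero, zero_mul, neg_zero] at hode
  have hr : ∀ n : ℕ, ((n : S) + 1) ^ 2 * y.coeff (n + 1) =
      3 * (3 * (n : S) + 1) * (3 * (n : S) + 2) * y.coeff n := by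
    intro n
    have := HG_rec y 0 hode n
    rw [coeff_zero, add_zero] at this
    exact this
  have h54 : ((1 : S[X]) - 54 * X).natDegree ≤ 1 := by compute_degree
  have hd : y.natDegree < 2 * p := by
    have h1 := HGfin_deg S N A
    rw [← hY] at h1
    have h2 : y.natDegree ≤ ((1 : S[X]) - 54 * X).natDegree + Y.natDegree := natDegree_mul_le
    omega
  have h0 : y.coeff 0 = 1 := by
    rw [hy, mul_coeff_zero, hY, HGfin_y0 S N A, hA.1]
    simp
  obtain ⟨a, ha0, ha⟩ := HGfin_aex 2 5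
  have hV : ∀ (R : Type _) [CommRing R], ((1 - 54 * X : ℤ[X]).map (Int.castRingHom R)) =
      1 - 54 * X := by
    intro R _
    simp
  have hT : ((1 - 54 * X : ℤ[X]).map (Int.castRingHom ℚ) *
      ∑ k ∈ Finset.range (p + 1), C (a k) * zP ℚ ^ k).coeff p = (trin p : ℚ) := by
    rw [hV ℚ]
    have ho := HG_odeG a p (fun k _ => by
      have := ha k
      push_cast at this
      exact this) _ rfl
    refine HGfin_rat _ ?_ p (fun n hn => ?_) p le_rfl
    · rw [mul_coeff_zero, HGfin_y0 ℚ p a, ha0]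
      simp
    have h1 := HG_rec _ _ ho n
    rw [coeff_neg, HGfin_zlow ℚ _ p n hn, neg_zero, add_zero] at h1
    exact h1
  have htr := HG_transfer hp h5 hS 2 5 (1 - 54 * X) (by simp) A hA.1
    (fun k hk => hA2 k (by omega)) a ha0 ha _ hQ hT
  have hVS : ((1 - 54 * X : ℤ[X]).map (Int.castRingHom S)) = 1 - 54 * X := by simp
  rw [hVS, ← hN, ← hY, ← hy, hN] at htr
  have hpr := prdG hp h5 hS
  have hyp : y.coeff p = 6 * (1 - (ε : S)) := by
    refine (HGfin_unitf hp hS).mul_left_cancel ?_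
    rw [htr, trin_p hp h5 hS]
    push_cast
    have h6 : (6 : S) ^ p = 6 ^ (p - 1) * 6 := by
      rw [← pow_succ]
      congr 1
      omega
    rw [h6]
    linear_combination (-6 * (ε : S)) * hpr
  have hev := HGfin_eval hp hS y hd h0 hr hk t
  rw [hyp] at hev
  rw [← hev, hy, eval_mul, hY, hN, HGfin_yeval]
  simp

theorem hg1 (hp : p.Prime) (h5 : 5 ≤ p) (hS : ((p : ℕ) : S) ^ 2 = 0) (h3 : p % 3 = 1)
    {A : ℕ → S} (hA : IsA p A) (t : S) :
    ∑ k ∈ Finset.range p, A k * (108 * t * (1 - 27 * t)) ^ k = Hs p t := by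
  obtain ⟨kap, hk⟩ := kap_exists hp hS
  have := HGfin_A hp h5 hS 1 (by rw [one_mul]; exact facA1 hp h5 h3) hA hk t
  rw [this]
  push_cast
  ring

theorem hg2 (hp : p.Prime) (h5 : 5 ≤ p) (hS : ((p : ℕ) : S) ^ 2 = 0) (h3 : p % 3 = 2)
    {A : ℕ → S} (hA : IsA p A) {kap : ℕ → S} (hk : IsKap p kap) (t : S) :
    ∑ k ∈ Finset.range p, A k * (108 * t * (1 - 27 * t)) ^ k =
      Hs p t - 54 * t ^ p * Ks p kap t := by
  have := HGfin_A hp h5 hS 10 (facA2 hp h5 h3) hA hk t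
  rw [this]
  push_cast
  ring

theorem hg3 (hp : p.Prime) (h5 : 5 ≤ p) (hS : ((p : ℕ) : S) ^ 2 = 0) (h3 : p % 3 = 2)
    {G : ℕ → S} (hG : IsG p G) (t : S) :
    (1 - 54 * t) * ∑ k ∈ Finset.range p, G k * (108 * t * (1 - 27 * t)) ^ k = Hs p t := by
  obtain ⟨kap, hk⟩ := kap_exists hp hS
  have := HGfin_G hp h5 hS 1 (by rw [one_mul]; exact facG2 hp h5 h3) hG hk t
  rw [this]
  push_cast
  ring

theorem hg4 (hp : p.Prime) (h5 : 5 ≤ p) (hS : ((p : ℕ) : S) ^ 2 = 0) (h3 : p % 3 = 1)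
    {G : ℕ → S} (hG : IsG p G) {kap : ℕ → S} (hk : IsKap p kap) (t : S) :
    (1 - 54 * t) * ∑ k ∈ Finset.range p, G k * (108 * t * (1 - 27 * t)) ^ k =
      Hs p t - 54 * t ^ p * Ks p kap t := by
  have := HGfin_G hp h5 hS 10 (facG1 hp h5 h3) hG hk t
  rw [this]
  push_cast
  ring

end Pool.Agent.MP_2a5e5c_nt
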