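import Pool.Agent.Lib.MP_2a5e5c_nt.ValA
import Pool.Agent.Lib.MP_2a5e5c_nt.HGfin
import Pool.Agent.Lib.MP_2a5e5c_nt.HGbr

/-!
# SUN, module EndA: the congruences in the case 4p = x² + 123y²

PROOF. As EndB (read it first). `S, r, t` from `val_a`; `3 ∤ x`, so `4p ≡ x² ≡ 1 mod 3`,
`p % 3 = 1`, in particular `p ≠ 5`. `x ≠ 0`, `p ∤ x` (else `x² ≥ p²`, `4p ≥ p²`). Put `s` with
`1728 s = 32 + 5 r` (units); `z = 108 t (1 - 27 t)`, `-1024 z = 1`. `hg1`: `σ₁ = H`, so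
`x σ₁ = -e (x² - p)`. `hg4`: `(1 - 54 t) σ₂ = H - 54 t^p K = (1 - 54 t) H` (`t^p K = t H`), and
`1 - 54 t` is a unit: `32 (1 - 54 t) = 5 r`, `r² = 41`, `5` and `41` are prime to `p`. So
`σ₂ = H = σ₁`. `QS_S1`, `QS_S2`, `QS_iff` (`-e (x - p/x) = -e (x² - p)/x`), `QS_cong`.
-/

namespace Pool.Agent.MP_2a5e5c_nt

private lemma EndA_mod {p : ℕ} {x y : ℤ} (hxy : 4 * (p : ℤ) = x ^ 2 + 123 * y ^ 2) {e : ℤ}
    (he : e = 1 ∨ e = -1) (hex : (3 : ℤ) ∣ x - e) : p % 3 = 1 := by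
  obtain ⟨k, hk⟩ := hex
  have hx : x = 3 * k + e := by linarith
  have h1 : 4 * (p : ℤ) = 3 * (3 * k ^ 2 + 2 * k * e + 41 * y ^ 2) + 1 := by
    rw [hxy, hx]
    rcases he with rfl | rfl <;> ring
  generalize 3 * k ^ 2 + 2 * k * e + 41 * y ^ 2 = w at h1
  omega

private lemma EndA_x {p : ℕ} (h5 : 5 ≤ p) {x y : ℤ}
    (hxy : 4 * (p : ℤ) = x ^ 2 + 123 * y ^ 2) (hx : x ≠ 0) : ¬ (p : ℤ) ∣ x := by
  rintro ⟨k, rfl⟩
  have hk : k ≠ 0 := by
    rintro rfl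
    exact hx (mul_zero _)
  have hk2 : 1 ≤ k ^ 2 := by
    have : 0 < k ^ 2 := by positivity
    omega
  have hp5 : (5 : ℤ) ≤ p := by exact_mod_cast h5
  nlinarith [sq_nonneg y, mul_le_mul_of_nonneg_left hk2 (sq_nonneg (p : ℤ))]

theorem end_a {p : ℕ} (hp : p.Prime) (h5 : 5 ≤ p) (h41 : p ≠ 41) {x y : ℤ}
    (hxy : 4 * (p : ℤ) = x ^ 2 + 123 * y ^ 2) {e : ℤ} (he : e = 1 ∨ e = -1)
    (hex : (3 : ℤ) ∣ x - e) :
    CongQ p 2 (S1 p) (-(e : ℚ) * (x - p / x)) ∧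
    CongQ p 2 (S2 p) (-(e : ℚ) * (x - p / x)) ∧
    CongQ p 2 (S1 p) (S2 p) := by
  obtain ⟨S, _, hS, hinj, r, t, hr, ht, hH, hK⟩ := val_a hp h5 h41 hxy he hex
  have hu : ∀ n : ℕ, ¬ p ∣ n → IsUnit (n : S) := fun n hn => isUnit_of_not_dvd hp hS hn
  have h3 : p % 3 = 1 := EndA_mod hxy he hex
  have hx0 : x ≠ 0 := by
    rintro rfl
    rcases he with rfl | rfl <;> omega
  have hpx : ¬ (p : ℤ) ∣ x := EndA_x h5 hxy hx0
  obtain ⟨A, hA⟩ := IsA_exists (S := S) hp h5 hu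
  obtain ⟨G, hG⟩ := IsG_exists (S := S) hp h5 hu
  obtain ⟨kap, hk⟩ := kap_exists (S := S) hp hS
  have hdvd : ∀ n : ℕ, p ∣ n → 0 < n → p ≤ n := fun n h1 h2 => Nat.le_of_dvd h2 h1
  have u1728 : IsUnit ((1728 : S) ^ 2) := by
    have h1 : ¬ p ∣ 1728 := by
      intro h
      have e1 : (1728 : ℕ) = 2 ^ 6 * 3 ^ 3 := by norm_num
      rw [e1] at h
      rcases hp.dvd_mul.1 h with h | h
      · have := hdvd 2 (hp.dvd_of_dvd_pow h) (by norm_num)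
        omega
      · have := hdvd 3 (hp.dvd_of_dvd_pow h) (by norm_num)
        omega
    have h2 := (hu 1728 h1).pow 2
    exact_mod_cast h2
  have hz : -1024 * (108 * t * (1 - 27 * t)) = 1 := by
    refine u1728.mul_left_cancel ?_
    linear_combination (-1024 * 108 * 27 * (64 - 1728 * t) - 1024 * 108 * 27 * (5 * r - 32)) * ht
      + (1024 * 108 * 27 * 25) * hr
  have u54 : IsUnit (1 - 54 * t) := by
    have h1 : ¬ p ∣ 1025 := by
      intro h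
      have e1 : (1025 : ℕ) = 5 ^ 2 * 41 := by norm_num
      rw [e1] at h
      rcases hp.dvd_mul.1 h with h | h
      · have := hdvd 5 (hp.dvd_of_dvd_pow h) (by norm_num)
        have h6 : p = 5 := by omega
        rw [h6] at h3
        omega
      · exact h41 ((Nat.prime_dvd_prime_iff_eq hp (by norm_num)).1 h)
    have h2 : IsUnit ((1025 : ℕ) : S) := hu 1025 h1
    have h3 : ((1025 : ℕ) : S) = (1 - 54 * t) * (32 * (5 * r)) := by
      push_cast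
      linear_combination (-25) * hr + (5 * r) * ht
    rw [h3] at h2
    exact isUnit_of_mul_isUnit_left h2
  have hs1 := hg1 hp h5 hS h3 hA t
  have hs2 := hg4 hp h5 hS h3 hG hk t
  have hs3 : ∑ k ∈ Finset.range p, G k * (108 * t * (1 - 27 * t)) ^ k = Hs p t := by
    refine u54.mul_left_cancel ?_
    rw [hs2]
    linear_combination (-54) * hK kap hk
  have q1 := QS_S1 hp h5 hu hA _ hz
  have q2 := QS_S2 hp h5 hu hG _ hz
  rw [hs1] at q1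
  rw [hs3] at q2
  have q3 : QS p (-(e : ℚ) * (x - p / x)) (Hs p t : S) := by
    refine (QS_iff hp hu _ _).2 ⟨-e * (x ^ 2 - p), x, hpx, ?_, ?_⟩
    · have hx1 : (x : ℚ) ≠ 0 := by exact_mod_cast hx0
      push_cast
      field_simp
    · rw [hH]
      push_cast
      ring
  exact ⟨QS_cong hp hu 2 hinj q1 q3, QS_cong hp hu 2 hinj q2 q3, QS_cong hp hu 2 hinj q1 q2⟩

end Pool.Agent.MP_2a5e5c_nt
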