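import Pool.Agent.Lib.MP_2a5e5c_nt.HGbr

/-!
# SUN, module HGbrT: the truncated sum `T(p)` modulo `p`

PROOF. `S = ZMod p`, `QS_cong` with `m = 1` (`ZMod.intCast_zmod_eq_zero_iff_dvd`). Put
`a = (p-2)/3`, `b = (p-5)/6` (natural numbers, `3 a + 2 = p`, `6 b + 5 = p`). For `k < p` let
`β k`, `γ k` be the images of the integers `choose a k`, `choose b k`. As `a`, `b` are the images of
`-2/3`, `-5/6` in `ZMod p` (`3 a = -2`, `6 b = -5`), and `k! choose a k = a (a-1) ... (a-k+1)`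
(`Nat.descFactorial_eq_factorial_mul_choose`; in a ring `∏_{i<k} ((a : S) - i)`, also for `k > a`,
where both sides are `0`), `QS_bin` gives that `bin (-2/3) k`, `bin (-5/6) k` have the images
`β k`, `γ k`. So `S2 p` has the image `∑_{k<p} β k γ k z^k` (`QS_sum`), the terms with `k > b` are
`0` (`choose b k = 0`), and `b + 1 ≤ p`; `Tsum p` has the image `∑_{k≤b} β k γ k z^k`.
-/

namespace Pool.Agent.MP_2a5e5c_nt

private lemma HGbrT_desc {S : Type*} [CommRing S] (a k : ℕ) :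
    ((a.descFactorial k : ℕ) : S) = ∏ i ∈ Finset.range k, ((a : S) - (i : S)) := by
  induction k with
  | zero => simp
  | succ k ih =>
    rw [Finset.prod_range_succ, ← ih, Nat.descFactorial_succ, mul_comm]
    rcases le_or_gt k a with h | h
    · rw [Nat.cast_mul, Nat.cast_sub h]
    · have h0 : a.descFactorial k = 0 := Nat.descFactorial_eq_zero_iff_lt.mpr h
      rw [h0]; simp

private lemma HGbrT_fac {S : Type*} [CommRing S] (a k : ℕ) :
    (k.factorial : S) * ((a.choose k : ℕ) : S) = ∏ i ∈ Finset.range k, ((a : S) - (i : S)) := by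
  rw [← HGbrT_desc, Nat.descFactorial_eq_factorial_mul_choose, Nat.cast_mul]

theorem T_cong {p : ℕ} (hp : p.Prime) (h : p % 6 = 5) : CongQ p 1 (Tsum p) (S2 p) := by
  have : Fact p.Prime := ⟨hp⟩
  have hu : ∀ n : ℕ, ¬ p ∣ n → IsUnit (n : ZMod p) := by
    intro n hn
    rw [isUnit_iff_ne_zero]
    intro h0
    exact hn ((ZMod.natCast_eq_zero_iff n p).mp h0)
  have hpp : ((p : ℕ) : ZMod p) = 0 := ZMod.natCast_self p
  have hp5 : 5 ≤ p := by omega
  obtain ⟨a, ha⟩ : ∃ a, a = (p - 2) / 3 := ⟨_, rfl⟩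
  obtain ⟨b, hb⟩ : ∃ b, b = (p - 5) / 6 := ⟨_, rfl⟩
  have ha' : 3 * a + 2 = p := by omega
  have hb' : 6 * b + 5 = p := by omega
  have hac : 3 * (a : ZMod p) = -2 := by
    have := congrArg (Nat.cast : ℕ → ZMod p) ha'
    push_cast at this
    rw [hpp] at this
    linear_combination this
  have hbc : 6 * (b : ZMod p) = -5 := by
    have := congrArg (Nat.cast : ℕ → ZMod p) hb'
    push_cast at this
    rw [hpp] at this
    linear_combination this
  have hp3 : ¬ (p : ℤ) ∣ 3 := by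
    intro hd
    have := Int.le_of_dvd (by norm_num) hd
    omega
  have hp6 : ¬ (p : ℤ) ∣ 6 := by
    intro hd
    have h1 : p ∣ 6 := by exact_mod_cast hd
    have h2 := Nat.le_of_dvd (by norm_num) h1
    interval_cases p <;> omega
  have hp1024 : ¬ (p : ℤ) ∣ -1024 := by
    intro hd
    have h1 : (p : ℤ) ∣ 1024 := (dvd_neg.mpr hd : (p : ℤ) ∣ - -1024)
    have h2 : p ∣ 2 ^ 10 := by
      have : p ∣ 1024 := by exact_mod_cast h1
      simpa using this
    have h3 := hp.dvd_of_dvd_pow h2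
    have := Nat.le_of_dvd (by norm_num) h3
    omega
  have q1 : QS p (-2 / 3 : ℚ) (a : ZMod p) := by
    rw [QS_iff hp hu]
    refine ⟨-2, 3, hp3, by norm_num, ?_⟩
    push_cast
    exact hac
  have q2 : QS p (-5 / 6 : ℚ) (b : ZMod p) := by
    rw [QS_iff hp hu]
    refine ⟨-5, 6, hp6, by norm_num, ?_⟩
    push_cast
    exact hbc
  obtain ⟨z, hz⟩ : ∃ z : ZMod p, ((-1024 : ℤ) : ZMod p) * z = 1 := by
    have hne : ((-1024 : ℤ) : ZMod p) ≠ 0 := by
      intro h0
      exact hp1024 ((ZMod.intCast_zmod_eq_zero_iff_dvd _ _).mp h0)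
    exact ⟨((-1024 : ℤ) : ZMod p)⁻¹, mul_inv_cancel₀ hne⟩
  have qz : QS p (1 / (-1024) : ℚ) z := by
    have := QS_inv (S := ZMod p) hp hu (-1024) hp1024 z hz
    push_cast at this
    exact this
  have qT : QS p (Tsum p)
      (∑ k ∈ Finset.range (b + 1), ((a.choose k : ℕ) : ZMod p) * ((b.choose k : ℕ) : ZMod p) *
        z ^ k) := by
    unfold Tsum
    rw [← ha, ← hb]
    refine QS_sum hp hu _ _ _ (fun k _ => ?_)
    have e1 := QS_int (S := ZMod p) hp ((a.choose k : ℕ) : ℤ)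
    have e2 := QS_int (S := ZMod p) hp ((b.choose k : ℕ) : ℤ)
    have e3 := QS_mul hp hu (QS_mul hp hu e1 e2) (QS_pow hp hu qz k)
    have e4 : ((a.choose k : ℕ) : ℚ) * ((b.choose k : ℕ) : ℚ) / (-1024) ^ k =
        ((((a.choose k : ℕ) : ℤ) : ℚ) * (((b.choose k : ℕ) : ℤ) : ℚ)) * (1 / (-1024)) ^ k := by
      rw [one_div, inv_pow, div_eq_mul_inv]
      push_cast
      rfl
    rw [e4]
    simpa only [Int.cast_natCast] using e3
  have qS : QS p (S2 p)
      (∑ k ∈ Finset.range p, ((a.choose k : ℕ) : ZMod p) * ((b.choose k : ℕ) : ZMod p) *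
        z ^ k) := by
    unfold S2
    refine QS_sum hp hu _ _ _ (fun k hk => ?_)
    have hk' := Finset.mem_range.mp hk
    have e1 := QS_bin hp hu q1 k hk' ((a.choose k : ℕ) : ZMod p) (HGbrT_fac a k)
    have e2 := QS_bin hp hu q2 k hk' ((b.choose k : ℕ) : ZMod p) (HGbrT_fac b k)
    have e3 := QS_mul hp hu (QS_mul hp hu e1 e2) (QS_pow hp hu qz k)
    have e4 : bin (-2 / 3) k * bin (-5 / 6) k / (-1024) ^ k =
        (bin (-2 / 3) k * bin (-5 / 6) k) * (1 / (-1024)) ^ k := by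
      rw [one_div, inv_pow, div_eq_mul_inv]
    rw [e4]
    exact e3
  have hsum : (∑ k ∈ Finset.range p, ((a.choose k : ℕ) : ZMod p) * ((b.choose k : ℕ) : ZMod p) *
        z ^ k) =
      ∑ k ∈ Finset.range (b + 1), ((a.choose k : ℕ) : ZMod p) * ((b.choose k : ℕ) : ZMod p) *
        z ^ k := by
    symm
    refine Finset.sum_subset ?_ ?_
    · intro k hk
      rw [Finset.mem_range] at hk ⊢
      omega
    · intro k _ hk
      rw [Finset.mem_range, not_lt] at hk
      rw [Nat.choose_eq_zero_of_lt (show b < k by omega)]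
      simp
  rw [hsum] at qS
  refine QS_cong (S := ZMod p) hp hu 1 (fun n hn => ?_) qT qS
  rw [pow_one]
  exact (ZMod.intCast_zmod_eq_zero_iff_dvd _ _).mp hn

end Pool.Agent.MP_2a5e5c_nt
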