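import Pool.Agent.Lib.MP_2a5e5c_nt.ValB
import Pool.Agent.Lib.MP_2a5e5c_nt.HGfin
import Pool.Agent.Lib.MP_2a5e5c_nt.HGbr
import Pool.Agent.Lib.MP_2a5e5c_nt.HGbrT

/-!
# SUN, module EndB: the congruences in the case 4p = 41x² + 3y²

PROOF. `S, r, t, s` from `val_b`; integers prime to `p` are units in `S` (`isUnit_of_not_dvd`).
`3 ∤ x` (`3 ∣ x - e`), so `x² ≡ 1 mod 3` and `4p ≡ 2 mod 3`: `p % 3 = 2`, `p % 6 = 5`. `x ≠ 0`, so
`4p ≥ 41`, `p ≥ 11`; `p ∤ x` (else `x² ≥ p²`, `4p ≥ 41 p²`). Take `kap`, `A`, `G`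
(`kap_exists`, `IsA_exists`, `IsG_exists`), `H = Hs p t`, `z = 108 t (1 - 27 t)`. `27 (t + s) = 1`
(`1728 t + 1728 s = 64`, `64` a unit), so `z = 108 t · 27 s = 2916 t s`, and
`1728² t s = 1024 - 25 r² = -1`, `1024 · 2916 = 1728²`: `-1024 z = 1`.
(1) `σ₁ = ∑ A_k z^k`: `hg2`: `σ₁ = H - 54 t^p K = (1 - 54 s) H`, `32 (1 - 54 s) = -5 r`; times `x`:
`32 x σ₁ = -5 (x r H) = 5 e (41x² - p)`. `QS_S1`: `QS p (S1 p) σ₁`, and by `QS_iff` with
`a = 5 e (41x² - p)`, `b = 32 x`: `QS p (5/32 e (41 x - p/x)) σ₁`. `QS_cong` with `m = 2`.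
(2) `σ₂ = ∑ G_k z^k`: `hg3`: `(1 - 54 t) σ₂ = H`, `32 (1 - 54 t) = 5 r`, so `5 r σ₂ = 32 H`,
`1025 σ₂ = 25 r² σ₂ = 32 · 5 r H = -1024 σ₁` (`32 σ₁ = -5 r H`). So
`QS p (-(1025/1024) * S2 p) σ₁` (`QS_mul`, `QS_S2`, units).
(3) `T_cong`: `CongQ p 1 (Tsum p) (S2 p)`. All in `ZMod p` (`QS` for `S := ZMod p`, `CongQ_QS`,
`QS_cong` with `m = 1`; a congruence modulo `p²` is one modulo `p`): the image `τ` of `Tsum p`
is the one of `S2 p`, `-(1025/1024) τ` is the image of `5/32 e (41 x - p/x)`, i.e.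
`5/32 e 41 x`; `1025 = 25 · 41` and `5`, `41` are units (`p ≥ 11`, `p ≠ 41`), so
`-(5/32) τ = e x`.
-/

namespace Pool.Agent.MP_2a5e5c_nt

private theorem EndB_symm {p m : ℕ} {u v : ℚ} (h : CongQ p m u v) : CongQ p m v u := by
  obtain ⟨w, hw, e⟩ := h
  refine ⟨-w, ?_, by linear_combination (-1 : ℚ) * e⟩
  rwa [Rat.neg_den]

private theorem EndB_two {p : ℕ} (hp : p.Prime) (h5 : 5 ≤ p) (n : ℕ) : ¬ (p : ℤ) ∣ 2 ^ n := by
  intro h
  have h1 := (Nat.prime_iff_prime_int.1 hp).dvd_of_dvd_pow h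
  have h2 := Int.le_of_dvd (by norm_num) h1
  omega

private theorem EndB_arith {p : ℕ} (hp : p.Prime) (h5 : 5 ≤ p) {x y : ℤ}
    (hxy : 4 * (p : ℤ) = 41 * x ^ 2 + 3 * y ^ 2) {e : ℤ} (he : e = 1 ∨ e = -1)
    (hex : (3 : ℤ) ∣ x - e) : p % 6 = 5 ∧ 11 ≤ p ∧ x ≠ 0 ∧ ¬ (p : ℤ) ∣ x := by
  have hx0 : x ≠ 0 := by
    rintro rfl
    rcases he with rfl | rfl <;> omega
  have hx1 : 1 ≤ x ^ 2 := by
    have : 0 < x ^ 2 := by positivity
    omega
  have hy : 0 ≤ y ^ 2 := sq_nonneg y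
  refine ⟨?_, by omega, hx0, ?_⟩
  · obtain ⟨z, hz⟩ := hex
    have he2 : e ^ 2 = 1 := by rcases he with rfl | rfl <;> norm_num
    have hx2 : x ^ 2 = 1 + 3 * (2 * e * z + 3 * z ^ 2) := by
      have : x = e + 3 * z := by linarith
      rw [this]
      linear_combination he2
    have h2 : p % 2 = 1 := by
      rcases hp.eq_two_or_odd with h | h
      · omega
      · exact h
    generalize 2 * e * z + 3 * z ^ 2 = w at hx2
    generalize y ^ 2 = v at hxy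
    omega
  · rintro ⟨w, rfl⟩
    have hw : w ≠ 0 := by
      rintro rfl
      exact hx0 (mul_zero _)
    have hw1 : 1 ≤ w ^ 2 := by
      have : 0 < w ^ 2 := by positivity
      omega
    have hp5 : (5 : ℤ) ≤ p := by exact_mod_cast h5
    nlinarith [mul_le_mul hp5 hp5 (by norm_num) (by linarith : (0 : ℤ) ≤ p)]

theorem end_b {p : ℕ} (hp : p.Prime) (h5 : 5 ≤ p) (h41 : p ≠ 41) {x y : ℤ}
    (hxy : 4 * (p : ℤ) = 41 * x ^ 2 + 3 * y ^ 2) {e : ℤ} (he : e = 1 ∨ e = -1)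
    (hex : (3 : ℤ) ∣ x - e) :
    CongQ p 2 (S1 p) (5 / 32 * e * (41 * x - p / x)) ∧
    CongQ p 2 (-(1025 / 1024) * S2 p) (5 / 32 * e * (41 * x - p / x)) ∧
    CongQ p 2 (S1 p) (-(1025 / 1024) * S2 p) ∧
    CongQ p 1 (x * e) (-(5 / 32) * Tsum p) := by
  obtain ⟨hp6, hp11, hx0, hpx⟩ := EndB_arith hp h5 hxy he hex
  obtain ⟨S, _, hS, hinj, r, t, s, hr, ht, hs, hH, hK⟩ := val_b hp h5 h41 hxy he hex
  have hu : ∀ n : ℕ, ¬ p ∣ n → IsUnit (n : S) := fun n hn => isUnit_of_not_dvd hp hS hn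
  have hu2 : IsUnit (2 : S) := by
    have h := hu 2 (fun h => by
      have := Nat.le_of_dvd (by norm_num) h
      omega)
    exact_mod_cast h
  have h32 : ¬ (p : ℤ) ∣ 32 * x := by
    intro h
    rcases (Nat.prime_iff_prime_int.1 hp).dvd_or_dvd h with h | h
    · exact EndB_two hp h5 5 (by norm_num; exact h)
    · exact hpx h
  have h1024 : ¬ (p : ℤ) ∣ 1024 := by
    intro h
    exact EndB_two hp h5 10 (by norm_num; exact h)
  have h3 : p % 3 = 2 := by omega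
  obtain ⟨kap, hk⟩ := kap_exists hp hS
  obtain ⟨A, hA⟩ := IsA_exists (S := S) hp h5 hu
  obtain ⟨G, hG⟩ := IsG_exists (S := S) hp h5 hu
  have hts : 27 * (t + s) = 1 := by
    refine (hu2.pow 6).mul_left_cancel ?_
    linear_combination ht + hs
  have hts2 : 1728 ^ 2 * (t * s) = -1 := by
    linear_combination 1728 * s * ht + (32 - 5 * r) * hs - 25 * hr
  have hz : -1024 * (108 * t * (1 - 27 * t)) = 1 := by
    linear_combination 1024 * 108 * t * hts - hts2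
  obtain ⟨z, hzz⟩ : ∃ z, 108 * t * (1 - 27 * t) = z := ⟨_, rfl⟩
  have hg2' := hg2 hp h5 hS h3 hA hk t
  have hg3' := hg3 hp h5 hS h3 hG t
  rw [hzz] at hg2' hg3' hz
  obtain ⟨σ₁, hσ₁⟩ : ∃ σ, ∑ k ∈ Finset.range p, A k * z ^ k = σ := ⟨_, rfl⟩
  obtain ⟨σ₂, hσ₂⟩ : ∃ σ, ∑ k ∈ Finset.range p, G k * z ^ k = σ := ⟨_, rfl⟩
  have q1 := QS_S1 hp h5 hu hA z hz
  have q2 := QS_S2 hp h5 hu hG z hz
  rw [hσ₁] at hg2' q1
  rw [hσ₂] at hg3' q2
  have hK' := hK kap hk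
  have e1 : 32 * σ₁ = -5 * r * Hs p t := by
    linear_combination 32 * hg2' - 32 * 54 * hK' - Hs p t * hs
  have e2 : 32 * x * σ₁ = 5 * e * (41 * x ^ 2 - p) := by
    linear_combination x * e1 - 5 * hH
  have e3 : 5 * r * σ₂ = 32 * Hs p t := by
    linear_combination 32 * hg3' + σ₂ * ht
  have e4 : 1025 * σ₂ = -1024 * σ₁ := by
    linear_combination 5 * r * e3 + 32 * e1 - 25 * σ₂ * hr
  have q3 : QS p (5 / 32 * e * (41 * x - p / x) : ℚ) σ₁ := by
    rw [QS_iff hp hu]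
    refine ⟨5 * e * (41 * x ^ 2 - p), 32 * x, h32, ?_, ?_⟩
    · have hx0' : (x : ℚ) ≠ 0 := by exact_mod_cast hx0
      push_cast
      field_simp
    · push_cast
      exact e2
  have q4 : QS p (-(1025 / 1024) * S2 p) σ₁ := by
    obtain ⟨w, hw⟩ := (hu2.pow 10).exists_right_inv
    have h1 : QS p (-(1025 / 1024) : ℚ) (-1025 * w) := by
      rw [QS_iff hp hu]
      refine ⟨-1025, 1024, h1024, by norm_num, ?_⟩
      push_cast
      linear_combination (-1025) * hw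
    have h2 := QS_mul hp hu h1 q2
    have h3 : -1025 * w * σ₂ = σ₁ := by
      linear_combination -w * e4 + σ₁ * hw
    rwa [h3] at h2
  have c1 := QS_cong hp hu 2 hinj q1 q3
  have c2 := QS_cong hp hu 2 hinj q4 q3
  refine ⟨c1, c2, QS_cong hp hu 2 hinj q1 q4, ?_⟩
  have : Fact p.Prime := ⟨hp⟩
  have hu' : ∀ n : ℕ, ¬ p ∣ n → IsUnit (n : ZMod p) := by
    intro n hn
    rw [isUnit_iff_ne_zero]
    intro h0
    exact hn ((ZMod.natCast_eq_zero_iff n p).mp h0)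
  have hpp : ((p : ℕ) : ZMod p) = 0 := ZMod.natCast_self p
  have n2 : (2 : ZMod p) ≠ 0 := by
    intro h0
    have := (ZMod.natCast_eq_zero_iff 2 p).mp (by exact_mod_cast h0)
    have := Nat.le_of_dvd (by norm_num) this
    omega
  have n5 : (5 : ZMod p) ≠ 0 := by
    intro h0
    have := (ZMod.natCast_eq_zero_iff 5 p).mp (by exact_mod_cast h0)
    have := Nat.le_of_dvd (by norm_num) this
    omega
  have n41 : (41 : ZMod p) ≠ 0 := by
    intro h0
    have h1 := (ZMod.natCast_eq_zero_iff 41 p).mp (by exact_mod_cast h0)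
    exact h41 ((Nat.prime_dvd_prime_iff_eq hp (by norm_num)).1 h1)
  have nx : (x : ZMod p) ≠ 0 := by
    intro h0
    exact hpx ((ZMod.intCast_zmod_eq_zero_iff_dvd _ _).mp h0)
  obtain ⟨τ, hτ⟩ := QS_exists (S := ZMod p) hp hu' q2.1
  have r1 : QS p (-(1025 / 1024) * S2 p) (-1025 / 1024 * τ) := by
    refine QS_mul hp hu' ?_ hτ
    rw [QS_iff hp hu']
    refine ⟨-1025, 1024, h1024, by norm_num, ?_⟩
    have : (1024 : ZMod p) ≠ 0 := by
      have h := pow_ne_zero 10 n2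
      norm_num at h
      exact h
    push_cast
    field_simp
  have r2 := CongQ_QS (S := ZMod p) hp hu' 2 (by rw [hpp]; ring) c2 r1
  have r3 : QS p (5 / 32 * e * (41 * x - p / x) : ℚ) (5 / 32 * 41 * e * x : ZMod p) := by
    rw [QS_iff hp hu']
    refine ⟨5 * e * (41 * x ^ 2 - p), 32 * x, h32, ?_, ?_⟩
    · have hx0' : (x : ℚ) ≠ 0 := by exact_mod_cast hx0
      push_cast
      field_simp
    · have : (32 : ZMod p) ≠ 0 := by
        have h := pow_ne_zero 5 n2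
        norm_num at h
        exact h
      push_cast
      rw [hpp]
      field_simp
      ring
  have r4 := QS_unique hp hu' r2 r3
  have h32' : (32 : ZMod p) ≠ 0 := by
    have h := pow_ne_zero 5 n2
    norm_num at h
    exact h
  have r5 : (-5 / 32 : ZMod p) * τ = x * e := by
    have h1 : (1024 : ZMod p) = 32 * 32 := by norm_num
    have h2 : (-1025 : ZMod p) = -(41 * 5 * 5) := by norm_num
    rw [h1, h2] at r4
    have h3 : (41 * 5 : ZMod p) * (-5 / 32 * τ) = (41 * 5) * (x * e) := by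
      have h4 := congrArg (fun v : ZMod p => 32 * v) r4
      field_simp at h4 ⊢
      linear_combination h4
    exact mul_left_cancel₀ (mul_ne_zero n41 n5) h3
  have r6 := CongQ_QS (S := ZMod p) hp hu' 1 (by rw [hpp]; ring) (EndB_symm (T_cong hp hp6)) hτ
  have r7 : QS p (-(5 / 32) * Tsum p) (-5 / 32 * τ) := by
    refine QS_mul hp hu' ?_ r6
    rw [QS_iff hp hu']
    refine ⟨-5, 32, ?_, by norm_num, ?_⟩
    · intro h
      exact EndB_two hp h5 5 (by norm_num; exact h)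
    · push_cast
      field_simp
  have r8 : QS p (x * e : ℚ) (x * e : ZMod p) :=
    QS_mul hp hu' (QS_int hp x) (QS_int hp e)
  rw [← r5] at r8
  refine QS_cong (S := ZMod p) hp hu' 1 (fun n hn => ?_) r8 r7
  rw [pow_one]
  exact (ZMod.intCast_zmod_eq_zero_iff_dvd _ _).mp hn

end Pool.Agent.MP_2a5e5c_nt
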