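import Pool.Agent.Lib.MP_2a5e5c_nt.RedC

/-!
# SUN, module FinA: pairs with vanishing Wronskian in characteristic p

PROOF. `RH n m d`: `n = g n₀`, `m = g m₀`, coprime. `n'm - nm' = g² (n₀'m₀ - n₀m₀')` so
`n₀'m₀ = n₀m₀'`. `m₀ ∣ n₀ m₀'` gives `m₀ ∣ m₀'`, so `m₀' = 0` (degree), likewise `n₀' = 0` (if
`m₀ = 0` then `n₀` is a unit, `d = 0`). In characteristic `p` a polynomial with derivative `0` has
nonzero coefficients only at multiples of `p`. `deg m₀ ≤ deg m < p`, so `m₀` is a constant;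
`deg n₀ = d ≠ 0` is then a positive multiple of `p`, and `deg n₀ ≤ deg n ≤ p`: `deg n₀ = p`,
`g` is a constant (`n ≠ 0`). `m₀ ≠ 0` as said.
-/

namespace Pool.Agent.MP_2a5e5c_nt

open Polynomial

private theorem FinA_dvd {k : Type*} [Field k] {p : ℕ} [CharP k p] {f : k[X]}
    (hf : derivative f = 0) {i : ℕ} (hi : f.coeff i ≠ 0) : p ∣ i := by
  rcases Nat.eq_zero_or_pos i with h | h
  · rw [h]
    exact dvd_zero _
  · obtain ⟨j, rfl⟩ := Nat.exists_eq_succ_of_ne_zero h.ne'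
    have h1 := congrArg (fun q : k[X] => q.coeff j) hf
    simp only [coeff_derivative, coeff_zero] at h1
    have h2 : ((j + 1 : ℕ) : k) = 0 := by
      push_cast
      exact (mul_eq_zero.1 h1).resolve_left hi
    exact (CharP.cast_eq_zero_iff k p _).1 h2

theorem fin_red {k : Type*} [Field k] {p : ℕ} [CharP k p] (hp : p.Prime) {n m : k[X]}
    (hW : derivative n * m = n * derivative m) (hn : n.natDegree ≤ p) (hm : m.natDegree < p)
    {d : ℕ} (hd : RH n m d) (hd0 : d ≠ 0) :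
    ∃ a b c : k, a ≠ 0 ∧ b ≠ 0 ∧ n = C a * X ^ p + C c ∧ m = C b := by
  obtain ⟨g, n₀, m₀, hg, rfl, rfl, hc, hh⟩ := hd
  have h1 : derivative n₀ * m₀ = n₀ * derivative m₀ := by
    have h2 : g ^ 2 * (derivative n₀ * m₀) = g ^ 2 * (n₀ * derivative m₀) := by
      rw [derivative_mul, derivative_mul] at hW
      linear_combination hW
    exact mul_left_cancel₀ (pow_ne_zero 2 hg) h2
  have hm0 : m₀ ≠ 0 := by
    rintro rfl
    have h2 : IsUnit n₀ := isCoprime_zero_right.1 hc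
    apply hd0
    rw [← hh, hgt, natDegree_eq_zero_of_isUnit h2, natDegree_zero, max_self]
  have hm1 : derivative m₀ = 0 := by
    rw [← dvd_derivative_iff]
    exact hc.symm.dvd_of_dvd_mul_left ⟨derivative n₀, by rw [← h1, mul_comm]⟩
  have hn1 : derivative n₀ = 0 := by
    rw [hm1, mul_zero] at h1
    exact (mul_eq_zero.1 h1).resolve_right hm0
  have hm2 : m₀.natDegree = 0 := by
    have h2 : p ∣ m₀.natDegree := FinA_dvd hm1 (leadingCoeff_ne_zero.2 hm0)
    rw [natDegree_mul hg hm0] at hm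
    exact Nat.eq_zero_of_dvd_of_lt h2 (by omega)
  have hn3 : n₀.natDegree ≠ 0 := by
    intro h2
    apply hd0
    rw [← hh, hgt, h2, hm2, max_self]
  have hn0 : n₀ ≠ 0 := by
    rintro rfl
    exact hn3 natDegree_zero
  have hn4 : p ∣ n₀.natDegree := FinA_dvd hn1 (leadingCoeff_ne_zero.2 hn0)
  have hn5 : p ≤ n₀.natDegree := Nat.le_of_dvd (Nat.pos_of_ne_zero hn3) hn4
  rw [natDegree_mul hg hn0] at hn
  have hg0 : g.natDegree = 0 := by omega
  have hn6 : n₀.natDegree = p := by omega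
  obtain ⟨b₀, rfl⟩ : ∃ b₀, m₀ = C b₀ := ⟨_, eq_C_of_natDegree_eq_zero hm2⟩
  obtain ⟨g₀, rfl⟩ : ∃ g₀, g = C g₀ := ⟨_, eq_C_of_natDegree_eq_zero hg0⟩
  have hb0 : b₀ ≠ 0 := by
    rintro rfl
    exact hm0 C_0
  have hg1 : g₀ ≠ 0 := by
    rintro rfl
    exact hg C_0
  have hn7 : n₀ = C (n₀.coeff p) * X ^ p + C (n₀.coeff 0) := by
    ext i
    rw [coeff_add, coeff_C_mul, coeff_X_pow, coeff_C]
    rcases eq_or_ne i 0 with h2 | h2
    · rw [h2, if_neg hp.ne_zero.symm, mul_zero, zero_add, if_pos rfl]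
    · rw [if_neg h2, add_zero]
      rcases eq_or_ne i p with h3 | h3
      · rw [h3, if_pos rfl, mul_one]
      · rw [if_neg h3, mul_zero]
        by_contra h4
        have h5 : p ∣ i := FinA_dvd hn1 h4
        have h6 : i ≤ n₀.natDegree := le_natDegree_of_ne_zero h4
        have h7 : p ≤ i := Nat.le_of_dvd (Nat.pos_of_ne_zero h2) h5
        omega
  refine ⟨g₀ * n₀.coeff p, g₀ * b₀, g₀ * n₀.coeff 0, ?_, mul_ne_zero hg1 hb0, ?_, ?_⟩
  · refine mul_ne_zero hg1 ?_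
    rw [← hn6]
    exact leadingCoeff_ne_zero.2 hn0
  · conv_lhs => rw [hn7]
    rw [C_mul, C_mul]
    ring
  · rw [C_mul]

end Pool.Agent.MP_2a5e5c_nt
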