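import Pool.Agent.Lib.MP_2a5e5c_nt.Defs

/-!
# SUN, module RedA: primitive integral representatives and their reduction

`R` is a domain with a uniformiser `ϖ` (every nonzero element is `ϖ^n` times a unit) and
`red : R → k` a homomorphism to a field with kernel `(ϖ)`; `K` is the fraction field.

PROOF. `red_prim`: multiply `N, M` by a common denominator (e.g.
`IsLocalization.exist_integer_multiples` for the finitely many coefficients, or
`IsLocalization.integerNormalization`) to get `N₁, M₁ ∈ R[X]`, not both zero; let `n` be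
maximal such that `ϖ^n` divides all coefficients (a
nonzero coefficient is `ϖ^j u`, which bounds `n`: `ϖ^(j+1)` does not divide it because `ϖ` is not a
unit (`red 1 ≠ 0`)), divide by `ϖ^n`. `N₀.map red = 0` iff `ϖ` divides all coefficients of `N₀`
(`red_zero_iff`). `red_unique`: `c = a / b` with `a = ϖ^i u`, `b = ϖ^j v` (`fac`), so
`b N₁ = a N₀`, `b M₁ = a M₀` in `R[X]`; cancel the common power of `ϖ`: if `i > j` then
`v N₁ = ϖ (…)`, so `N₁, M₁` reduce to zero: contradiction; same for `i < j`; so `i = j`,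
`v N₁ = u N₀` etc., apply `red`.
-/

namespace Pool.Agent.MP_2a5e5c_nt

open Polynomial

/-- The reduction setting. -/
structure RedS {R k : Type*} [CommRing R] [Field k] (ϖ : R) (red : R →+* k) : Prop where
  ker : ∀ x, red x = 0 ↔ ϖ ∣ x
  ne : ϖ ≠ 0
  fac : ∀ x : R, x ≠ 0 → ∃ n : ℕ, ∃ u : R, IsUnit u ∧ x = ϖ ^ n * u

variable {R k K : Type*} [CommRing R] [IsDomain R] [Field k] [Field K] [Algebra R K]
  [IsFractionRing R K] {ϖ : R} {red : R →+* k}

theorem red_zero_iff (hS : RedS ϖ red) (N : R[X]) :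
    N.map red = 0 ↔ C ϖ ∣ N := by
  rw [C_dvd_iff_dvd_coeff]
  constructor
  · intro h i
    have h1 := congrArg (fun f : k[X] => f.coeff i) h
    simp only [coeff_map, coeff_zero] at h1
    exact (hS.ker _).1 h1
  · intro h
    ext i
    rw [coeff_map, coeff_zero]
    exact (hS.ker _).2 (h i)

private theorem RedA_unit (_hS : RedS ϖ red) {u : R} (hu : IsUnit u) : red u ≠ 0 :=
  (hu.map red).ne_zero

private theorem RedA_split (hS : RedS ϖ red) (j : ℕ) : ∀ N M : R[X],
    ((∃ i, ¬ ϖ ^ j ∣ N.coeff i) ∨ (∃ i, ¬ ϖ ^ j ∣ M.coeff i)) →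
    ∃ (n : ℕ) (N₀ M₀ : R[X]), N = C (ϖ ^ n) * N₀ ∧ M = C (ϖ ^ n) * M₀ ∧
      (N₀.map red ≠ 0 ∨ M₀.map red ≠ 0) := by
  induction j with
  | zero =>
    intro N M h
    exfalso
    rcases h with ⟨i, hi⟩ | ⟨i, hi⟩
    · exact hi (by rw [pow_zero]; exact one_dvd _)
    · exact hi (by rw [pow_zero]; exact one_dvd _)
  | succ j ih =>
    intro N M h
    by_cases h0 : N.map red ≠ 0 ∨ M.map red ≠ 0
    · refine ⟨0, N, M, ?_, ?_, h0⟩
      · rw [pow_zero, map_one, one_mul]
      · rw [pow_zero, map_one, one_mul]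
    · have hN : N.map red = 0 := by
        by_contra h1
        exact h0 (Or.inl h1)
      have hM : M.map red = 0 := by
        by_contra h1
        exact h0 (Or.inr h1)
      obtain ⟨N', rfl⟩ := (red_zero_iff hS N).1 hN
      obtain ⟨M', rfl⟩ := (red_zero_iff hS M).1 hM
      have key : ∀ f : R[X], (∃ i, ¬ ϖ ^ (j + 1) ∣ (C ϖ * f).coeff i) →
          ∃ i, ¬ ϖ ^ j ∣ f.coeff i := by
        rintro f ⟨i, hi⟩
        refine ⟨i, fun h1 => hi ?_⟩
        rw [coeff_C_mul, pow_succ']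
        exact mul_dvd_mul_left _ h1
      obtain ⟨n, N₀, M₀, h1, h2, h3⟩ := ih N' M' (h.imp (key N') (key M'))
      refine ⟨n + 1, N₀, M₀, ?_, ?_, h3⟩
      · rw [h1, ← mul_assoc, ← C_mul, pow_succ']
      · rw [h2, ← mul_assoc, ← C_mul, pow_succ']

private theorem RedA_bound (hS : RedS ϖ red) {f : R[X]} (hf : f ≠ 0) :
    ∃ j i, ¬ ϖ ^ j ∣ f.coeff i := by
  obtain ⟨i, hi⟩ : ∃ i, f.coeff i ≠ 0 := by
    by_contra h
    push Not at h
    exact hf (ext fun i => by rw [h i, coeff_zero])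
  obtain ⟨n, u, hu, h1⟩ := hS.fac _ hi
  refine ⟨n + 1, i, ?_⟩
  rintro ⟨w, hw⟩
  rw [h1, pow_succ, mul_assoc] at hw
  have h2 : u = ϖ * w := mul_left_cancel₀ (pow_ne_zero n hS.ne) hw
  exact RedA_unit hS hu ((hS.ker u).2 ⟨w, h2⟩)

private theorem RedA_den (N : K[X]) : ∃ (b : R) (N₁ : R[X]), b ≠ 0 ∧
    N₁.map (algebraMap R K) = C (algebraMap R K b) * N := by
  obtain ⟨b, hb1, hb⟩ := IsLocalization.integerNormalization_spec (nonZeroDivisors R) N
  refine ⟨b, IsLocalization.integerNormalization (nonZeroDivisors R) N,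
    nonZeroDivisors.ne_zero hb1, ?_⟩
  rw [hb, ← smul_eq_C_mul, algebraMap_smul]

theorem red_prim (hS : RedS ϖ red) {N M : K[X]} (h : N ≠ 0 ∨ M ≠ 0) :
    ∃ (c : K) (N₀ M₀ : R[X]), c ≠ 0 ∧ N₀.map (algebraMap R K) = C c * N ∧
      M₀.map (algebraMap R K) = C c * M ∧ (N₀.map red ≠ 0 ∨ M₀.map red ≠ 0) := by
  have hinj := IsFractionRing.injective R K
  obtain ⟨b, N₁, hb, hN⟩ := RedA_den (R := R) N
  obtain ⟨d, M₁, hd, hM⟩ := RedA_den (R := R) M
  have hb' : algebraMap R K b ≠ 0 := by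
    rw [Ne, map_eq_zero_iff _ hinj]
    exact hb
  have hd' : algebraMap R K d ≠ 0 := by
    rw [Ne, map_eq_zero_iff _ hinj]
    exact hd
  have hN2 : (C d * N₁).map (algebraMap R K) = C (algebraMap R K (b * d)) * N := by
    rw [Polynomial.map_mul, map_C, hN, map_mul, C_mul]
    ring
  have hM2 : (C b * M₁).map (algebraMap R K) = C (algebraMap R K (b * d)) * M := by
    rw [Polynomial.map_mul, map_C, hM, map_mul, C_mul]
    ring
  have hbd : algebraMap R K (b * d) ≠ 0 := by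
    rw [map_mul]
    exact mul_ne_zero hb' hd'
  have hne : C d * N₁ ≠ 0 ∨ C b * M₁ ≠ 0 := by
    rcases h with h | h
    · left
      intro h1
      rw [h1, Polynomial.map_zero] at hN2
      exact mul_ne_zero (C_ne_zero.2 hbd) h hN2.symm
    · right
      intro h1
      rw [h1, Polynomial.map_zero] at hM2
      exact mul_ne_zero (C_ne_zero.2 hbd) h hM2.symm
  have hj : ∃ j, ((∃ i, ¬ ϖ ^ j ∣ (C d * N₁).coeff i) ∨ (∃ i, ¬ ϖ ^ j ∣ (C b * M₁).coeff i)) := by
    rcases hne with h1 | h1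
    · obtain ⟨j, i, hi⟩ := RedA_bound hS h1
      exact ⟨j, Or.inl ⟨i, hi⟩⟩
    · obtain ⟨j, i, hi⟩ := RedA_bound hS h1
      exact ⟨j, Or.inr ⟨i, hi⟩⟩
  obtain ⟨j, hj⟩ := hj
  obtain ⟨n, N₀, M₀, h1, h2, h3⟩ := RedA_split hS j _ _ hj
  have hw : algebraMap R K (ϖ ^ n) ≠ 0 := by
    rw [Ne, map_eq_zero_iff _ hinj]
    exact pow_ne_zero _ hS.ne
  have key : ∀ {f : R[X]} {g : R[X]} {F : K[X]}, g = C (ϖ ^ n) * f →
      g.map (algebraMap R K) = C (algebraMap R K (b * d)) * F →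
      f.map (algebraMap R K) =
        C (algebraMap R K (b * d) / algebraMap R K (ϖ ^ n)) * F := by
    intro f g F h4 h5
    rw [h4, Polynomial.map_mul, map_C] at h5
    have h6 : C (algebraMap R K (ϖ ^ n)) * f.map (algebraMap R K) =
        C (algebraMap R K (ϖ ^ n)) *
          (C (algebraMap R K (b * d) / algebraMap R K (ϖ ^ n)) * F) := by
      rw [h5, ← mul_assoc, ← C_mul, mul_div_cancel₀ _ hw]
    exact mul_left_cancel₀ (C_ne_zero.2 hw) h6
  exact ⟨_, N₀, M₀, div_ne_zero hbd hw, key h1 hN2, key h2 hM2, h3⟩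

private theorem RedA_lt (hS : RedS ϖ red) {i j : ℕ} (hij : i < j) {u v : R} (hu : IsUnit u)
    {f g : R[X]} (h : C (ϖ ^ j * v) * f = C (ϖ ^ i * u) * g) : g.map red = 0 := by
  obtain ⟨l, rfl⟩ : ∃ l, j = i + (l + 1) := ⟨j - i - 1, by omega⟩
  have h1 : C (ϖ ^ (l + 1) * v) * f = C u * g := by
    refine mul_left_cancel₀ (C_ne_zero.2 (pow_ne_zero i hS.ne)) ?_
    rw [← mul_assoc, ← C_mul, ← mul_assoc, ← pow_add, h, C_mul, mul_assoc]
  have h2 := congrArg (Polynomial.map red) h1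
  rw [Polynomial.map_mul, Polynomial.map_mul, map_C, map_C, map_mul, map_pow,
    (hS.ker ϖ).2 dvd_rfl, zero_pow (Nat.succ_ne_zero l), zero_mul, C_0, zero_mul] at h2
  exact (mul_eq_zero.1 h2.symm).resolve_left (C_ne_zero.2 (RedA_unit hS hu))

theorem red_unique (hS : RedS ϖ red) {N₀ M₀ N₁ M₁ : R[X]} {c : K} (hc : c ≠ 0)
    (hN : N₁.map (algebraMap R K) = C c * N₀.map (algebraMap R K))
    (hM : M₁.map (algebraMap R K) = C c * M₀.map (algebraMap R K))
    (h0 : N₀.map red ≠ 0 ∨ M₀.map red ≠ 0) (h1 : N₁.map red ≠ 0 ∨ M₁.map red ≠ 0) :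
    ∃ u : k, u ≠ 0 ∧ N₁.map red = C u * N₀.map red ∧ M₁.map red = C u * M₀.map red := by
  have hinj := IsFractionRing.injective R K
  obtain ⟨a, b, hb, rfl⟩ := IsFractionRing.div_surjective (A := R) c
  have hb0 : b ≠ 0 := nonZeroDivisors.ne_zero hb
  have hb' : algebraMap R K b ≠ 0 := by
    rw [Ne, map_eq_zero_iff _ hinj]
    exact hb0
  have ha0 : a ≠ 0 := by
    rintro rfl
    exact hc (by rw [map_zero, zero_div])
  have key : ∀ {f g : R[X]}, g.map (algebraMap R K) =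
      C (algebraMap R K a / algebraMap R K b) * f.map (algebraMap R K) →
      C b * g = C a * f := by
    intro f g h
    apply Polynomial.map_injective (algebraMap R K) hinj
    rw [Polynomial.map_mul, Polynomial.map_mul, map_C, map_C, h, ← mul_assoc, ← C_mul,
      mul_div_cancel₀ _ hb']
  have eN := key hN
  have eM := key hM
  obtain ⟨i, u, hu, rfl⟩ := hS.fac a ha0
  obtain ⟨j, v, hv, rfl⟩ := hS.fac b hb0
  rcases lt_trichotomy i j with h | h | h
  · exfalso
    rcases h0 with h2 | h2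
    · exact h2 (RedA_lt hS h hu eN)
    · exact h2 (RedA_lt hS h hu eM)
  · subst h
    have key2 : ∀ {f g : R[X]}, C (ϖ ^ i * v) * g = C (ϖ ^ i * u) * f →
        g.map red = C (red u / red v) * f.map red := by
      intro f g h
      rw [C_mul, C_mul, mul_assoc, mul_assoc] at h
      have h2 : C v * g = C u * f :=
        mul_left_cancel₀ (C_ne_zero.2 (pow_ne_zero i hS.ne)) h
      have h3 := congrArg (Polynomial.map red) h2
      rw [Polynomial.map_mul, Polynomial.map_mul, map_C, map_C] at h3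
      have hv' : red v ≠ 0 := RedA_unit hS hv
      refine mul_left_cancel₀ (C_ne_zero.2 hv') ?_
      rw [h3, ← mul_assoc, ← C_mul, mul_div_cancel₀ _ hv']
    exact ⟨red u / red v, div_ne_zero (RedA_unit hS hu) (RedA_unit hS hv), key2 eN, key2 eM⟩
  · exfalso
    rcases h1 with h2 | h2
    · exact h2 (RedA_lt hS h hv eN.symm)
    · exact h2 (RedA_lt hS h hv eM.symm)

end Pool.Agent.MP_2a5e5c_nt
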