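import Pool.Agent.Lib.MP_2a5e5c_nt.FinA
import Pool.Agent.Lib.MP_2a5e5c_nt.RedA

/-!
# SUN, module FinB: the shape of the integral representative

PROOF. Reduce the equation: `red c = 0`, `fC` is monic, so `(N'M - NM')² = 0` in `k[X]`, and
`fin_red` applies to `n = N.map red`, `m = M.map red`: `n = C a X^p + C c₀`, `m = C b`.
`u = N.coeff p` has `red u = a ≠ 0`, hence is a unit (`fac`, `ker`). Put `N₁ = u⁻¹ N`,
`M₁ = u⁻¹ M`: monic of degree `p`, the equation is homogeneous of degree 4 (cancel `u⁴`).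
`N₁.map red = X^p + C (…)` and the constant vanishes with `N.coeff 0`. Degree of `M₁`:
`M₁ ≠ 0`, let `d = deg M₁ < p`, `l` its leading coefficient. `N₁'M₁ - N₁M₁'` has degree
`≤ p + d - 1` and there the coefficient `(p - d) l ≠ 0` (characteristic 0). So the left side of the
equation has degree `3 + 2(p+d-1)` and leading coefficient `(p-d)² l²`; the right side has
degree `3p + d` (the other terms have degree `≤ 2d + 2p < 3p + d`) and leading coefficient `c² l`.
So `d = p - 1` and `l = c²`. (Coefficients of products at the sum of degree bounds: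
`Polynomial.coeff_mul_add_eq_of_natDegree_le`, `coeff_pow_of_natDegree_le`.)
-/

namespace Pool.Agent.MP_2a5e5c_nt

open Polynomial

private theorem FinB_fC {A : Type*} [CommRing A] [Nontrivial A] (q t : A) :
    (fC q t).Monic ∧ (fC q t).natDegree = 3 := by
  have h2 : (C q * (X + C t) ^ 2).natDegree ≤ 2 := by
    refine (natDegree_C_mul_le _ _).trans ?_
    refine (natDegree_pow_le_of_le 2 (natDegree_X_add_C t).le).trans ?_
    norm_num
  have h3 : (C q * (X + C t) ^ 2).degree < ((3 : ℕ) : WithBot ℕ) := by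
    rw [degree_lt_iff_coeff_zero]
    intro i hi
    exact coeff_eq_zero_of_natDegree_lt (by omega)
  refine ⟨monic_X_pow_add h3, ?_⟩
  unfold fC
  rw [natDegree_add_eq_left_of_natDegree_lt, natDegree_X_pow]
  rw [natDegree_X_pow]
  omega

private theorem FinB_theta {A : Type*} [CommRing A] (f : A[X]) (n : ℕ) :
    (X * derivative f).coeff n = n * f.coeff n := by
  cases n with
  | zero => simp
  | succ n =>
    rw [coeff_X_mul, coeff_derivative]
    push_cast
    ring

private theorem FinB_theta_deg {A : Type*} [CommRing A] (f : A[X]) {n : ℕ}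
    (h : f.natDegree ≤ n) : (X * derivative f).natDegree ≤ n := by
  rw [natDegree_le_iff_coeff_eq_zero]
  intro i hi
  rw [FinB_theta, coeff_eq_zero_of_natDegree_lt (by omega), mul_zero]

private theorem FinB_lead {R : Type*} [CommRing R] [IsDomain R] [CharZero R] {p : ℕ}
    {q t s c : R} (hc0 : c ≠ 0) {N M : R[X]} (hN : N.Monic) (hNp : N.natDegree = p)
    (hM : M.natDegree < p) (hM0 : M ≠ 0)
    (he : fC q t * (derivative N * M - N * derivative M) ^ 2 =
      C c ^ 2 * M * (N ^ 3 + C q * M * (N + C s * M) ^ 2)) :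
    M.natDegree + 1 = p ∧ M.coeff M.natDegree = c ^ 2 := by
  have hNc : N.coeff p = 1 := by
    rw [← hNp]
    exact hN
  obtain ⟨d, hd⟩ : ∃ d, M.natDegree = d := ⟨_, rfl⟩
  rw [hd] at hM ⊢
  obtain ⟨l, hl⟩ : ∃ l, M.coeff d = l := ⟨_, rfl⟩
  rw [hl]
  have hl0 : l ≠ 0 := by
    rw [← hl, ← hd]
    exact leadingCoeff_ne_zero.2 hM0
  obtain ⟨W, hW⟩ : ∃ W, W = (X * derivative N) * M - N * (X * derivative M) := ⟨_, rfl⟩
  have hWd : W.natDegree ≤ p + d := by
    rw [hW]
    refine (natDegree_sub_le _ _).trans (max_le ?_ ?_)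
    · exact natDegree_mul_le_of_le (FinB_theta_deg N hNp.le) hd.le
    · exact natDegree_mul_le_of_le hNp.le (FinB_theta_deg M hd.le)
  have hWc : W.coeff (p + d) = ((p : R) - d) * l := by
    rw [hW, coeff_sub, coeff_mul_add_eq_of_natDegree_le (FinB_theta_deg N hNp.le) hd.le,
      coeff_mul_add_eq_of_natDegree_le hNp.le (FinB_theta_deg M hd.le), FinB_theta, FinB_theta, hNc, hl]
    ring
  obtain ⟨hf, hf3⟩ := FinB_fC q t
  have hfc : (fC q t).coeff 3 = 1 := by
    rw [← hf3]
    exact hf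
  have hpd : ((p : R) - d) ≠ 0 := by
    rw [sub_ne_zero]
    exact fun h => hM.ne' (Nat.cast_injective h)
  have hAd : (fC q t * W ^ 2).natDegree ≤ 3 + 2 * (p + d) :=
    natDegree_mul_le_of_le hf3.le (natDegree_pow_le_of_le 2 hWd)
  have hAc : (fC q t * W ^ 2).coeff (3 + 2 * (p + d)) = (((p : R) - d) * l) ^ 2 := by
    rw [coeff_mul_add_eq_of_natDegree_le hf3.le (natDegree_pow_le_of_le 2 hWd), hfc, one_mul,
      coeff_pow_of_natDegree_le hWd, hWc]
  have hB1 : (C q * M * (N + C s * M) ^ 2).natDegree ≤ d + 2 * p := by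
    refine natDegree_mul_le_of_le ((natDegree_C_mul_le _ _).trans hd.le)
      (natDegree_pow_le_of_le 2 (natDegree_add_le_of_degree_le hNp.le
        ((natDegree_C_mul_le _ _).trans ?_)))
    omega
  have hB2 : (N ^ 3 + C q * M * (N + C s * M) ^ 2).natDegree ≤ 3 * p := by
    refine natDegree_add_le_of_degree_le (natDegree_pow_le_of_le 3 hNp.le) (hB1.trans ?_)
    omega
  have hB3 : (N ^ 3 + C q * M * (N + C s * M) ^ 2).coeff (3 * p) = 1 := by
    rw [coeff_add, coeff_pow_of_natDegree_le hNp.le, hNc, one_pow,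
      coeff_eq_zero_of_natDegree_lt (hB1.trans_lt (by omega)), add_zero]
  have hB4 : (C c ^ 2 * M).natDegree ≤ d := by
    rw [← C_pow]
    exact (natDegree_C_mul_le _ _).trans hd.le
  have hB5 : (C c ^ 2 * M).coeff d = c ^ 2 * l := by
    rw [← C_pow, coeff_C_mul, hl]
  have hB6 : (C c ^ 2 * M * (N ^ 3 + C q * M * (N + C s * M) ^ 2)).natDegree ≤ d + 3 * p :=
    natDegree_mul_le_of_le hB4 hB2
  have hB7 : (C c ^ 2 * M * (N ^ 3 + C q * M * (N + C s * M) ^ 2)).coeff (d + 3 * p) =
      c ^ 2 * l := by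
    rw [coeff_mul_add_eq_of_natDegree_le hB4 hB2, hB5, hB3, mul_one]
  have hX : (X ^ 2 : R[X]).natDegree ≤ 2 := natDegree_X_pow_le 2
  have hB8 : (X ^ 2 * (C c ^ 2 * M * (N ^ 3 + C q * M * (N + C s * M) ^ 2))).natDegree ≤
      2 + (d + 3 * p) := natDegree_mul_le_of_le hX hB6
  have hB9 : (X ^ 2 * (C c ^ 2 * M * (N ^ 3 + C q * M * (N + C s * M) ^ 2))).coeff
      (2 + (d + 3 * p)) = c ^ 2 * l := by
    rw [coeff_mul_add_eq_of_natDegree_le hX hB6, hB7, coeff_X_pow_self, one_mul]
  have hEq : fC q t * W ^ 2 =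
      X ^ 2 * (C c ^ 2 * M * (N ^ 3 + C q * M * (N + C s * M) ^ 2)) := by
    rw [← he, hW]
    ring
  have h1 : (fC q t * W ^ 2).natDegree = 3 + 2 * (p + d) :=
    natDegree_eq_of_le_of_coeff_ne_zero hAd (by
      rw [hAc]
      exact pow_ne_zero 2 (mul_ne_zero hpd hl0))
  have h2 : (X ^ 2 * (C c ^ 2 * M * (N ^ 3 + C q * M * (N + C s * M) ^ 2))).natDegree =
      2 + (d + 3 * p) :=
    natDegree_eq_of_le_of_coeff_ne_zero hB8 (by
      rw [hB9]
      exact mul_ne_zero (pow_ne_zero 2 hc0) hl0)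
  rw [← hEq, h1] at h2
  have h3 : d + 1 = p := by omega
  refine ⟨h3, ?_⟩
  have h4 : 3 + 2 * (p + d) = 2 + (d + 3 * p) := by omega
  rw [← hEq, ← h4, hAc] at hB9
  have h5 : (p : R) - d = 1 := by
    rw [← h3]
    push_cast
    ring
  rw [h5, one_mul, sq l] at hB9
  exact mul_right_cancel₀ hl0 hB9

private theorem FinB_unit {R k : Type*} [CommRing R] [Field k] {ϖ : R} {red : R →+* k}
    (hS : RedS ϖ red) {u : R} (h : red u ≠ 0) : IsUnit u := by
  have hu : u ≠ 0 := by
    rintro rfl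
    exact h (map_zero red)
  obtain ⟨n, v, hv, rfl⟩ := hS.fac u hu
  cases n with
  | zero => rwa [pow_zero, one_mul]
  | succ n =>
    exfalso
    apply h
    rw [map_mul, map_pow, (hS.ker ϖ).2 dvd_rfl, zero_pow (Nat.succ_ne_zero n), zero_mul]

theorem fin_shape {R k : Type*} [CommRing R] [IsDomain R] [CharZero R] [Field k] {p : ℕ}
    [CharP k p] (hp : p.Prime) {red : R →+* k} (hS : RedS (p : R) red) {q t s c : R}
    (hc : (p : R) ∣ c) (hc0 : c ≠ 0) {N M : R[X]} (hN : N.natDegree = p)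
    (hM : M.natDegree < p) (hN0 : N.coeff 0 = 0)
    (he : fC q t * (derivative N * M - N * derivative M) ^ 2 =
      C c ^ 2 * M * (N ^ 3 + C q * M * (N + C s * M) ^ 2))
    {d : ℕ} (hd : RH (N.map red) (M.map red) d) (hd0 : d ≠ 0) :
    ∃ (u : R) (N₁ M₁ : R[X]), IsUnit u ∧ N = C u * N₁ ∧ M = C u * M₁ ∧ N₁.Monic ∧
      N₁.natDegree = p ∧ M₁.natDegree = p - 1 ∧ M₁.coeff (p - 1) = c ^ 2 ∧
      N₁.coeff 0 = 0 ∧ N₁.map red = X ^ p ∧ (∃ b : k, b ≠ 0 ∧ M₁.map red = C b) ∧
      fC q t * (derivative N₁ * M₁ - N₁ * derivative M₁) ^ 2 =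
        C c ^ 2 * M₁ * (N₁ ^ 3 + C q * M₁ * (N₁ + C s * M₁) ^ 2) := by
  have hp0 : p ≠ 0 := hp.ne_zero
  have hrc : red c = 0 := (hS.ker c).2 hc
  have hmap : (fC q t).map red = fC (red q) (red t) := by
    unfold fC
    simp
  have hW : derivative (N.map red) * M.map red = N.map red * derivative (M.map red) := by
    have h1 := congrArg (Polynomial.map red) he
    rw [Polynomial.map_mul, Polynomial.map_pow, Polynomial.map_sub, Polynomial.map_mul,
      Polynomial.map_mul, hmap, ← derivative_map, ← derivative_map, Polynomial.map_mul,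
      Polynomial.map_mul, Polynomial.map_pow, map_C, hrc, C_0, zero_pow two_ne_zero, zero_mul,
      zero_mul] at h1
    have h2 := (mul_eq_zero.1 h1).resolve_left (FinB_fC (red q) (red t)).1.ne_zero
    exact sub_eq_zero.1 (pow_eq_zero_iff two_ne_zero |>.1 h2)
  obtain ⟨a, b, c₀, ha, hb, hn, hm⟩ := fin_red hp hW (natDegree_map_le.trans hN.le)
    (natDegree_map_le.trans_lt hM) hd hd0
  have hua : red (N.coeff p) = a := by
    rw [← coeff_map, hn]
    simp [coeff_C, hp0]
  have hc0' : c₀ = 0 := by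
    have h1 := congrArg (fun f : k[X] => f.coeff 0) hn
    simp only [coeff_map, hN0, map_zero, coeff_add, coeff_C_mul, coeff_C_zero,
      coeff_X_pow] at h1
    rw [if_neg hp0.symm, mul_zero, zero_add] at h1
    exact h1.symm
  obtain ⟨u, hu⟩ : ∃ u, N.coeff p = u := ⟨_, rfl⟩
  rw [hu] at hua
  have huu : IsUnit u := FinB_unit hS (by rw [hua]; exact ha)
  obtain ⟨w, hw⟩ := huu.exists_right_inv
  have hwu : w * u = 1 := by rw [mul_comm, hw]
  have hCw : C u * C w = (1 : R[X]) := by rw [← C_mul, hw, C_1]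
  have hN1 : N = C u * (C w * N) := by rw [← mul_assoc, hCw, one_mul]
  have hM1 : M = C u * (C w * M) := by rw [← mul_assoc, hCw, one_mul]
  have hw0 : w ≠ 0 := by
    rintro rfl
    rw [mul_zero] at hw
    exact zero_ne_one hw
  have hdN : (C w * N).natDegree = p := by rw [natDegree_C_mul hw0, hN]
  have hdM : (C w * M).natDegree < p := by rwa [natDegree_C_mul hw0]
  have hmon : (C w * N).Monic := by
    rw [Monic, leadingCoeff, hdN, coeff_C_mul, hu, hwu]
  have hred : red w * a = 1 := by rw [← hua, ← map_mul, hwu, map_one]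
  have hmM : (C w * M).map red = C (red w * b) := by
    rw [Polynomial.map_mul, map_C, hm, ← C_mul]
  have hwb : red w * b ≠ 0 := by
    refine mul_ne_zero (fun h => ?_) hb
    rw [h, zero_mul] at hred
    exact zero_ne_one hred
  have hM0 : C w * M ≠ 0 := by
    intro h
    rw [h, Polynomial.map_zero] at hmM
    exact hwb (C_eq_zero.1 hmM.symm)
  have he1 : fC q t * (derivative (C w * N) * (C w * M) -
      (C w * N) * derivative (C w * M)) ^ 2 =
        C c ^ 2 * (C w * M) * ((C w * N) ^ 3 + C q * (C w * M) *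
          ((C w * N) + C s * (C w * M)) ^ 2) := by
    rw [derivative_C_mul, derivative_C_mul]
    linear_combination (C w) ^ 4 * he
  obtain ⟨h1, h2⟩ := FinB_lead hc0 hmon hdN hdM hM0 he1
  have h3 : (C w * M).natDegree = p - 1 := by omega
  refine ⟨u, C w * N, C w * M, huu, hN1, hM1, hmon, hdN, h3, ?_, ?_, ?_, ⟨red w * b, hwb, hmM⟩,
    he1⟩
  · rw [← h3, h2]
  · rw [coeff_C_mul, hN0, mul_zero]
  · rw [Polynomial.map_mul, map_C, hn, hc0', C_0, add_zero, ← mul_assoc, ← C_mul, hred, C_1,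
      one_mul]

end Pool.Agent.MP_2a5e5c_nt
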