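import Pool.Agent.Lib.MP_2a5e5c_nt.Defs

/-!
# SUN, module RepB: polynomial representatives of points

PROOF. `P = 0`: `(1, 0)`. `P = (x, y)`: with `u = x / f`, `f = fC q t ≠ 0` (monic), take
`(u.num, u.denom)` (`RatFunc.isCoprime_num_denom`, `RatFunc.num_div_denom`,
`RatFunc.denom_ne_zero`). Uniqueness: both pairs coprime and `N M' = N' M`, so they differ by a
unit of `K[X]`, i.e. a nonzero constant (for `P = 0`: `M = M' = 0` and `N, N'` are units).
`-P` has the same x-coordinate (`neg_some`).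
-/

namespace Pool.Agent.MP_2a5e5c_nt

open Polynomial

variable {K : Type*} [Field K] {q t s : K}

private lemma RepB_deg {A : Type*} [CommRing A] [Nontrivial A] (q t : A) :
    (C q * (X + C t) ^ 2 : A[X]).degree < (3 : ℕ) := by
  have h1 : (C q * (X + C t) ^ 2 : A[X]).degree ≤ (2 : ℕ) := by
    refine (degree_mul_le _ _).trans ?_
    have h2 : (C q : A[X]).degree ≤ 0 := degree_C_le
    have h3 : ((X + C t) ^ 2 : A[X]).degree ≤ (2 : ℕ) := by
      refine (degree_pow_le _ _).trans ?_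
      rw [degree_X_add_C]
      norm_num
    calc (C q : A[X]).degree + ((X + C t) ^ 2 : A[X]).degree ≤ 0 + (2 : ℕ) :=
          add_le_add h2 h3
      _ = (2 : ℕ) := by simp
  exact lt_of_le_of_lt h1 (by norm_num)

theorem fC_monic {A : Type*} [CommRing A] [Nontrivial A] (q t : A) :
    (fC q t).Monic ∧ (fC q t).natDegree = 3 := by
  unfold fC
  refine ⟨monic_X_pow_add (RepB_deg q t), ?_⟩
  have h := RepB_deg q t
  have h1 : (X ^ 3 + C q * (X + C t) ^ 2 : A[X]).degree = (3 : ℕ) := by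
    rw [degree_add_eq_left_of_degree_lt]
    · exact degree_X_pow 3
    · rw [degree_X_pow]; exact h
  exact natDegree_eq_of_degree_eq_some h1

private lemma RepB_alg {p : K[X]} (h : p ≠ 0) : algebraMap K[X] (RatFunc K) p ≠ 0 := by
  simpa using h

theorem rep_zero : Rep (0 : Pt q t s) 1 0 := by
  exact ⟨isCoprime_one_left, Or.inl ⟨rfl, rfl⟩⟩

theorem rep_exists (P : Pt q t s) : ∃ N M : K[X], Rep P N M := by
  rcases P with _ | ⟨x, y, h⟩
  · exact ⟨1, 0, rep_zero⟩
  · have hf : fC q t ≠ 0 := (fC_monic q t).1.ne_zero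
    have hf' := RepB_alg hf
    set u : RatFunc K := x / algebraMap K[X] (RatFunc K) (fC q t) with hu
    refine ⟨u.num, u.denom, RatFunc.isCoprime_num_denom u, Or.inr ⟨x, y, h, rfl,
      RatFunc.denom_ne_zero u, ?_⟩⟩
    have hd := RepB_alg (RatFunc.denom_ne_zero u)
    have h1 : algebraMap K[X] (RatFunc K) u.num / algebraMap K[X] (RatFunc K) u.denom = u :=
      RatFunc.num_div_denom u
    have h2 : x = u * algebraMap K[X] (RatFunc K) (fC q t) := by
      rw [hu]; field_simp
    rw [div_eq_iff hd] at h1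
    rw [h1]
    nth_rewrite 1 [h2]
    ring

private lemma RepB_unit {N M N' M' : K[X]} (h : IsCoprime N M) (h' : IsCoprime N' M')
    (hM : M ≠ 0) (e : N * M' = N' * M) :
    ∃ c : K, c ≠ 0 ∧ N' = C c * N ∧ M' = C c * M := by
  have d1 : M ∣ M' := by
    have : M ∣ N * M' := ⟨N', by rw [e]; ring⟩
    exact h.symm.dvd_of_dvd_mul_left this
  have d2 : M' ∣ M := by
    have : M' ∣ N' * M := ⟨N, by rw [← e]; ring⟩
    exact h'.symm.dvd_of_dvd_mul_left this
  obtain ⟨u, hu⟩ := associated_of_dvd_dvd d1 d2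
  obtain ⟨c, hc, hcu⟩ := Polynomial.isUnit_iff.mp u.isUnit
  refine ⟨c, hc.ne_zero, ?_, ?_⟩
  · have : N' * M = (C c * N) * M := by
      rw [← e, ← hu, ← hcu]; ring
    exact mul_right_cancel₀ hM this
  · rw [← hu, ← hcu]; ring

theorem rep_unique {P : Pt q t s} {N M N' M' : K[X]} (h : Rep P N M) (h' : Rep P N' M') :
    ∃ c : K, c ≠ 0 ∧ N' = C c * N ∧ M' = C c * M := by
  obtain ⟨hc, h | ⟨x, y, hn, hP, hM, hx⟩⟩ := h
  · obtain ⟨hc', h' | ⟨x', y', hn', hP', hM', hx'⟩⟩ := h'
    · rw [h.2] at hc ⊢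
      rw [h'.2] at hc' ⊢
      rw [isCoprime_zero_right] at hc hc'
      obtain ⟨a, ha, ha'⟩ := Polynomial.isUnit_iff.mp hc
      obtain ⟨b, hb, hb'⟩ := Polynomial.isUnit_iff.mp hc'
      refine ⟨b / a, div_ne_zero hb.ne_zero ha.ne_zero, ?_, by simp⟩
      rw [← ha', ← hb', ← C_mul, div_mul_cancel₀ _ ha.ne_zero]
    · rw [h.1] at hP'
      exact absurd hP' (by simp)
  · obtain ⟨hc', h' | ⟨x', y', hn', hP', hM', hx'⟩⟩ := h'
    · rw [h'.1] at hP
      exact absurd hP (by simp)
    · have hxx : x = x' := by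
        rw [hP] at hP'
        injection hP'
      subst hxx
      apply RepB_unit hc hc' hM
      have hf' := RepB_alg (fC_monic q t).1.ne_zero
      apply RatFunc.algebraMap_injective K
      rw [map_mul, map_mul]
      apply mul_left_cancel₀ hf'
      calc algebraMap K[X] (RatFunc K) (fC q t) *
            (algebraMap K[X] (RatFunc K) N * algebraMap K[X] (RatFunc K) M')
          = (algebraMap K[X] (RatFunc K) (fC q t) * algebraMap K[X] (RatFunc K) N) *
              algebraMap K[X] (RatFunc K) M' := by ring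
        _ = (x * algebraMap K[X] (RatFunc K) M') * algebraMap K[X] (RatFunc K) M := by
            rw [← hx]; ring
        _ = _ := by rw [hx']; ring

theorem rep_smul {P : Pt q t s} {N M : K[X]} {c : K} (hc : c ≠ 0) (h : Rep P N M) :
    Rep P (C c * N) (C c * M) := by
  obtain ⟨hco, h⟩ := h
  have hu : IsUnit (C c : K[X]) := isUnit_C.mpr (isUnit_iff_ne_zero.mpr hc)
  have h1 : IsCoprime (C c * N) (C c * M) := by
    rw [isCoprime_mul_unit_left hu]
    exact hco
  refine ⟨h1, ?_⟩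
  rcases h with h | ⟨x, y, hn, hP, hM, hx⟩
  · exact Or.inl ⟨h.1, by rw [h.2, mul_zero]⟩
  · refine Or.inr ⟨x, y, hn, hP, mul_ne_zero hu.ne_zero hM, ?_⟩
    rw [map_mul, map_mul]
    calc x * (algebraMap K[X] (RatFunc K) (C c) * algebraMap K[X] (RatFunc K) M)
        = algebraMap K[X] (RatFunc K) (C c) * (x * algebraMap K[X] (RatFunc K) M) := by ring
      _ = _ := by rw [hx]; ring

theorem rep_neg {P : Pt q t s} {N M : K[X]} (h : Rep P N M) : Rep (-P) N M := by
  obtain ⟨hco, h⟩ := h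
  refine ⟨hco, ?_⟩
  rcases h with h | ⟨x, y, hn, hP, hM, hx⟩
  · exact Or.inl ⟨by rw [h.1, neg_zero], h.2⟩
  · rw [hP, WeierstrassCurve.Affine.Point.neg_some]
    exact Or.inr ⟨x, _, _, rfl, hM, hx⟩

theorem rep_ne {P : Pt q t s} {N M : K[X]} (h : Rep P N M) : N ≠ 0 ∨ M ≠ 0 := by
  by_contra hcon
  rw [not_or, not_not, not_not] at hcon
  have hco := h.1
  rw [hcon.1, hcon.2, isCoprime_zero_right] at hco
  exact not_isUnit_zero hco

end Pool.Agent.MP_2a5e5c_nt
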