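import Pool.Agent.Lib.MP_2a5e5c_nt.RedA
import Pool.Agent.Lib.MP_2a5e5c_nt.RepB

/-!
# SUN, module FinC: the denominator is a square

PROOF. `K` the fraction field, work in `K[X]` with the images. Let
`G = N³ + q M (N + s M)²`, `W = N'M - NM'`; `M` is coprime to `G` (it is coprime to `N`).
(1) `M` is coprime to `f = fC q t` in `K[X]`: let `g` be a monic common divisor (e.g. the
normalised gcd). `f` is monic over `R` and `R` is integrally closed (`R` is a DVR:
construct the instance from `fac`, or show directly that monic divisors in `K[X]` of monic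
polynomials over `R` have coefficients in `R`: `IsIntegrallyClosed.eq_map_mul_C_of_dvd`), so
`g = g₀.map`, `g₀ ∈ R[X]` monic, and `g₀ ∣ M` in `R[X]` (division by a monic polynomial). Reduce:
`g₀.map red` divides the nonzero constant `C b` and is monic, so it is `1` and `g₀ = 1`.
(2) The equation gives `M * (c² G f) = (f W)²` and `M` is coprime to `c² G f`: so
`M` is associated to a square (`exists_associated_pow_of_mul_eq_pow'` or
`exists_eq_pow_of_mul_eq_pow`-like); comparing leading coefficients (`c²`, take the root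
monic): `M = (C c * D₀)²` with `D₀` monic of degree `m`.
(3) `E = C c * D₀ ∈ K[X]` has coefficients in `R`: by `red_prim` for `(E, 0)` there are `e ≠ 0` in
`K` and `D₁ ∈ R[X]` with `D₁.map = C e * E`, `D₁.map red ≠ 0`. `D₁² = e² M`; `e = ϖ^i u/(ϖ^j v)`:
`v² ϖ^(2j) D₁² = u² ϖ^(2i) M`; both `D₁²` and `M` have nonzero reduction (`k[X]` is a domain), so
`i = j`, `e = u / v` is a unit of `R`, and `E = (v/u) D₁`.
(IsIntegrallyClosed: `RedS` gives that `R` is a valuation ring / local PID; a direct proof: see
`Polynomial.Monic` and Gauss, or use `ValuationRing` from `fac`: for `a, b ≠ 0` one divides the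
other, and valuation rings are integrally closed, `ValuationRing.isIntegrallyClosed`-like.)
-/

namespace Pool.Agent.MP_2a5e5c_nt

open Polynomial

theorem reds_integrallyClosed {R k : Type*} [CommRing R] [IsDomain R] [Field k] {ϖ : R}
    {red : R →+* k} (hS : RedS ϖ red) : IsIntegrallyClosed R := by
  have hpre : PreValuationRing R := by
    refine ⟨fun a b => ?_⟩
    by_cases ha : a = 0
    · exact ⟨0, Or.inr (by rw [mul_zero, ha])⟩
    by_cases hb : b = 0
    · exact ⟨0, Or.inl (by rw [mul_zero, hb])⟩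
    obtain ⟨n, u, hu, hau⟩ := hS.fac a ha
    obtain ⟨m, v, hv, hbv⟩ := hS.fac b hb
    obtain ⟨u', hu'⟩ := hu.exists_right_inv
    obtain ⟨v', hv'⟩ := hv.exists_right_inv
    rcases le_total n m with h | h
    · refine ⟨ϖ ^ (m - n) * v * u', Or.inl ?_⟩
      have e : ϖ ^ m = ϖ ^ n * ϖ ^ (m - n) := by rw [← pow_add, Nat.add_sub_cancel' h]
      rw [hau, hbv, e]
      linear_combination (ϖ ^ n * ϖ ^ (m - n) * v) * hu'
    · refine ⟨ϖ ^ (n - m) * u * v', Or.inr ?_⟩
      have e : ϖ ^ n = ϖ ^ m * ϖ ^ (n - m) := by rw [← pow_add, Nat.add_sub_cancel' h]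
      rw [hau, hbv, e]
      linear_combination (ϖ ^ m * ϖ ^ (n - m) * u) * hv'
  have hval : ValuationRing R := { hpre with }
  infer_instance

attribute [local instance] Polynomial.algebra in
theorem fin_square {R k K : Type*} [CommRing R] [IsDomain R] [Field k] [Field K] [Algebra R K]
    [IsFractionRing R K] {ϖ : R} {red : R →+* k} (hS : RedS ϖ red) {m : ℕ}
    {q t s c : R} (hc0 : c ≠ 0) {N M : R[X]} (hM : M.natDegree = 2 * m)
    (hMc : M.coeff (2 * m) = c ^ 2) (hb : ∃ b : k, b ≠ 0 ∧ M.map red = C b)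
    (hcop : IsCoprime (N.map (algebraMap R K)) (M.map (algebraMap R K)))
    (he : fC q t * (derivative N * M - N * derivative M) ^ 2 =
      C c ^ 2 * M * (N ^ 3 + C q * M * (N + C s * M) ^ 2)) :
    ∃ D : R[X], M = D ^ 2 ∧ D.natDegree ≤ m ∧ D.coeff m = c := by
  classical
  have hic : IsIntegrallyClosed R := reds_integrallyClosed hS
  obtain ⟨b, hb0, hb⟩ := hb
  have hinj : Function.Injective (algebraMap R K) := IsFractionRing.injective R K
  have hM0 : M ≠ 0 := by
    rintro rfl
    simp at hb
    exact hb0 (C_eq_zero.1 hb.symm)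
  have hMK0 : M.map (algebraMap R K) ≠ 0 := (Polynomial.map_ne_zero_iff hinj).2 hM0
  have hcK0 : algebraMap R K c ≠ 0 := by
    rw [Ne, map_eq_zero_iff _ hinj]
    exact hc0
  -- step 1
  have h1 : IsCoprime (M.map (algebraMap R K)) ((fC q t).map (algebraMap R K)) := by
    refine isCoprime_of_irreducible_dvd (fun h => hMK0 h.1) ?_
    intro g hg hgM hgf
    obtain ⟨g', hg'⟩ := IsIntegrallyClosed.eq_map_mul_C_of_dvd K (fC_monic q t).1 hgf
    have hgl : g.leadingCoeff ≠ 0 := leadingCoeff_ne_zero.2 hg.ne_zero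
    have hg'm : g'.Monic := by
      apply monic_of_injective hinj
      have e := congrArg leadingCoeff hg'
      rw [leadingCoeff_mul, leadingCoeff_C] at e
      exact mul_right_cancel₀ hgl (by rw [e, one_mul])
    have hdM : g' ∣ M := by
      rw [← map_dvd_map (algebraMap R K) hinj hg'm]
      exact dvd_trans ⟨C g.leadingCoeff, hg'.symm⟩ hgM
    have hdr : g'.map red ∣ C b := by
      rw [← hb]
      exact Polynomial.map_dvd red hdM
    have hdeg : (g'.map red).natDegree = 0 := by
      have := natDegree_le_of_dvd hdr (C_ne_zero.2 hb0)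
      rw [natDegree_C] at this
      omega
    rw [hg'm.natDegree_map] at hdeg
    have hg1 : g' = 1 := hg'm.natDegree_eq_zero.1 hdeg
    rw [hg1, Polynomial.map_one, one_mul] at hg'
    apply hg.not_isUnit
    rw [← hg']
    exact isUnit_C.2 hgl.isUnit
  -- step 2
  have heK := congrArg (Polynomial.map (algebraMap R K)) he
  simp only [Polynomial.map_mul, Polynomial.map_pow, Polynomial.map_add, Polynomial.map_C] at heK
  set MK := M.map (algebraMap R K) with hMK
  set NK := N.map (algebraMap R K) with hNK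
  set fK := (fC q t).map (algebraMap R K) with hfK
  set G := NK ^ 3 + C (algebraMap R K q) * MK * (NK + C (algebraMap R K s) * MK) ^ 2 with hG
  have h2 : IsCoprime MK G := by
    have h3 : IsCoprime MK (NK ^ 3) := (hcop.symm).pow_right
    have e : G = NK ^ 3 + MK * (C (algebraMap R K q) * (NK + C (algebraMap R K s) * MK) ^ 2) := by
      rw [hG]
      ring
    rw [e]
    exact h3.add_mul_left_right _
  have h3 : IsCoprime MK (C (algebraMap R K c) ^ 2) := by
    apply IsCoprime.pow_right
    refine ⟨0, C (algebraMap R K c)⁻¹, ?_⟩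
    rw [zero_mul, zero_add, ← C_mul, inv_mul_cancel₀ hcK0, C_1]
  have h4 : IsCoprime MK (C (algebraMap R K c) ^ 2 * G * fK) := (h3.mul_right h2).mul_right h1
  have h5 : MK * (C (algebraMap R K c) ^ 2 * G * fK) =
      (fK * (derivative N * M - N * derivative M).map (algebraMap R K)) ^ 2 := by
    linear_combination (-fK) * heK
  obtain ⟨D₁, hD₁⟩ := exists_associated_pow_of_mul_eq_pow' h4 h5
  obtain ⟨w, hw⟩ := hD₁
  obtain ⟨e, he0, hew⟩ := Polynomial.isUnit_iff.1 w.isUnit
  rw [← hew] at hw
  -- `D₁^2 * C e = MK`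
  have he0' : e ≠ 0 := he0.ne_zero
  have hD0 : D₁ ≠ 0 := by
    rintro rfl
    apply hMK0
    rw [← hw]
    simp
  have hdeg : D₁.natDegree = m := by
    have h6 := congrArg natDegree hw
    rw [natDegree_mul (pow_ne_zero 2 hD0) (C_ne_zero.2 he0'), natDegree_C, natDegree_pow,
      hMK, natDegree_map_eq_of_injective hinj, hM] at h6
    omega
  set l := D₁.coeff m with hl
  have hl0 : l ≠ 0 := by
    rw [hl, ← hdeg]
    exact leadingCoeff_ne_zero.2 hD0
  have hlc : l ^ 2 * e = algebraMap R K c ^ 2 := by
    have h6 := congrArg (fun P => P.coeff (2 * m)) hw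
    simp only [coeff_mul_C] at h6
    have h7 : (D₁ ^ 2).coeff (2 * m) = l ^ 2 := by
      exact coeff_pow_of_natDegree_le hdeg.le
    rw [h7, hMK, coeff_map, hMc, map_pow] at h6
    exact h6
  set E := C (algebraMap R K c / l) * D₁ with hE
  have hE2 : E ^ 2 = MK := by
    rw [hE, mul_pow, ← C_pow, ← hw, mul_comm]
    congr 2
    field_simp
    linear_combination -hlc
  have hint : IsIntegral R[X] E := by
    apply IsIntegral.of_pow (n := 2) (by norm_num)
    rw [hE2]
    exact isIntegral_algebraMap (R := R[X]) (A := K[X]) (x := M)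
  have hco : ∀ i, ∃ a : R, algebraMap R K a = E.coeff i := fun i =>
    IsIntegrallyClosed.isIntegral_iff.1 (hint.coeff i)
  obtain ⟨D, hD⟩ : ∃ D : R[X], D.map (algebraMap R K) = E := by
    have : E ∈ Polynomial.lifts (algebraMap R K) := by
      rw [Polynomial.lifts_iff_coeff_lifts]
      exact fun i => hco i
    exact (Polynomial.mem_lifts _).1 this
  refine ⟨D, ?_, ?_, ?_⟩
  · apply Polynomial.map_injective _ hinj
    rw [Polynomial.map_pow, hD, hE2]
  · rw [← natDegree_map_eq_of_injective hinj D, hD, hE]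
    exact (natDegree_C_mul_le _ _).trans hdeg.le
  · apply hinj
    rw [← coeff_map, hD, hE, coeff_C_mul, ← hl]
    field_simp

end Pool.Agent.MP_2a5e5c_nt
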