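import Pool.Agent.Lib.MP_2a5e5c_nt.Defs

/-!
# SUN, module FinD: the reduced equation

PROOF. `k` of characteristic `p = 2m + 1`, `f = fC q t`, `H = X^(3p) + q b² (X^p + s b²)²`.
`l ≠ 0` since `w ≠ 0`, `f ≠ 0`. `H' = 0`, so `(f w²)' = 0`, i.e. `f' w + 2 f w' = 0` (cancel `w`).
`f` and `f'` are coprime: `f = X³ + q X² + 2 q t X + q t²` has discriminant a unit times
`t³ (1 - 27 t)` (`4 q = 1`; resultant certificate: find `A f + B f' = C (κ t³ (1 - 27t))` by hand,
e.g. division; or a common root `x` satisfies `x² = -q… `, in the algebraic closure).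
Claim `f^j ∣ w` for `j ≤ m`: if `w = f^j v` then `f^j ((1 + 2j) f' v + 2 f v') = 0`; for `j < m`
`1 + 2j ≠ 0` in `k`, so `f ∣ f' v`, `f ∣ v`. At `j = m`: `w = f^m v` with `2 f v' = 0`, `v' = 0`.
Degrees: `f w² = l² H` has degree `3p`, so `deg w = 3m = deg f^m` and `v = C c`. Leading
coefficients: `c² = l²`, so `f^p = H` (`2m + 1 = p`). In characteristic `p`:
`f^p = X^(3p) + q^p (X^p + t^p)²` (`add_pow_char`), `q^p = q` (`4^p = 4` in `k`:
`(4 : ZMod p)`, Fermat). Coefficients of `X^(2p)`, `X^p`: `q = q b²`, `2 q t^p = 2 q s b⁴`. So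
`b² = 1`, `t^p = s` (`p ≠ 2`, `q ≠ 0`).
-/

namespace Pool.Agent.MP_2a5e5c_nt

open Polynomial

private lemma FinD_cert {R : Type*} [CommRing R] {x T Q I : R} (h4 : 4 * Q = 1)
    (hI : I * (12 * T ^ 3 * (1 - 27 * T)) = 1) :
    (4 * I * (-3 * (6 * ((1 - 24 * T) * x + 3 * T - 78 * T ^ 2) + (1 - 24 * T) ^ 2))) *
        (x ^ 3 + Q * (x + T) ^ 2) +
      (2 * I * (((1 - 24 * T) * x + 3 * T - 78 * T ^ 2) +
        2 * x * (6 * ((1 - 24 * T) * x + 3 * T - 78 * T ^ 2) + (1 - 24 * T) ^ 2))) *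
        (3 * x ^ 2 + 2 * Q * (x + T)) = 1 := by
  linear_combination
    (I * (-3 * (6 * ((1 - 24 * T) * x + 3 * T - 78 * T ^ 2) + (1 - 24 * T) ^ 2)) *
        (x + T) ^ 2 +
      I * (((1 - 24 * T) * x + 3 * T - 78 * T ^ 2) +
        2 * x * (6 * ((1 - 24 * T) * x + 3 * T - 78 * T ^ 2) + (1 - 24 * T) ^ 2)) *
        (x + T)) * h4 + hI

private lemma FinD_deriv {k : Type*} [Field k] (q t : k) :
    derivative (fC q t) = 3 * X ^ 2 + 2 * C q * (X + C t) := by
  have e2 : (C (2 : k) : k[X]) = 2 := map_ofNat C 2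
  have e3 : (C (3 : k) : k[X]) = 3 := map_ofNat C 3
  rw [fC, derivative_add, derivative_X_pow, derivative_C_mul, derivative_pow, derivative_add,
    derivative_X, derivative_C]
  simp only [Nat.cast_ofNat, e2, e3]
  ring

private lemma FinD_dC {k : Type*} [Field k] (a : k) (P : k[X]) :
    degree (C a * P) ≤ degree P := by
  by_cases ha : a = 0
  · simp [ha]
  · rw [degree_C_mul ha]

private lemma FinD_nd {k : Type*} [Field k] {P : k[X]} {n : ℕ} (h : degree P < n) :
    natDegree (X ^ n + P) = n := by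
  apply natDegree_eq_of_degree_eq_some
  rw [degree_add_eq_left_of_degree_lt (by rwa [degree_X_pow]), degree_X_pow]

private lemma FinD_two {k : Type*} [Field k] {q : k} (h4 : 4 * q = 1) : (2 : k) ≠ 0 := by
  intro h2
  have : (4 * q : k) = 0 := by linear_combination (2 * q) * h2
  rw [h4] at this
  exact one_ne_zero this

private lemma FinD_cop {k : Type*} [Field k] {q t : k} (h4 : 4 * q = 1) (h3 : (3 : k) ≠ 0)
    (ht : t ≠ 0) (h27 : 27 * t ≠ 1) : IsCoprime (fC q t) (derivative (fC q t)) := by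
  have h2 := FinD_two h4
  have hN : (12 * t ^ 3 * (1 - 27 * t) : k) ≠ 0 := by
    have h12 : (12 : k) ≠ 0 := by
      have : (12 : k) = 2 * 2 * 3 := by norm_num
      rw [this]
      exact mul_ne_zero (mul_ne_zero h2 h2) h3
    refine mul_ne_zero (mul_ne_zero h12 (pow_ne_zero _ ht)) ?_
    intro h
    apply h27
    linear_combination -h
  have e4 : (4 : k[X]) * C q = 1 := by
    rw [← C_1, ← h4, C_mul, (map_ofNat C 4 : (C (4 : k) : k[X]) = 4)]
  have eI : C (12 * t ^ 3 * (1 - 27 * t))⁻¹ * (12 * (C t) ^ 3 * (1 - 27 * C t)) =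
      (1 : k[X]) := by
    have e : (12 * (C t) ^ 3 * (1 - 27 * C t) : k[X]) = C (12 * t ^ 3 * (1 - 27 * t)) := by
      simp only [C_mul, C_sub, C_pow, C_1, map_ofNat]
    rw [e, ← C_mul, inv_mul_cancel₀ hN, C_1]
  rw [FinD_deriv, fC]
  exact ⟨_, _, FinD_cert e4 eI⟩

private lemma FinD_low {k : Type*} [Field k] (q t : k) :
    degree (C q * (X + C t) ^ 2 : k[X]) < (3 : ℕ) := by
  refine lt_of_le_of_lt (FinD_dC _ _) ?_
  refine lt_of_le_of_lt (degree_pow_le _ _) ?_
  rw [degree_X_add_C]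
  decide

private lemma FinD_mon {k : Type*} [Field k] {q t : k} : (fC q t).Monic := by
  rw [fC]
  exact monic_X_pow_add (FinD_low q t)

private lemma FinD_deg {k : Type*} [Field k] {q t : k} : (fC q t).natDegree = 3 := by
  rw [fC]
  exact FinD_nd (FinD_low q t)

theorem fC_coprime_deriv {k : Type*} [Field k] {q t : k} (h4 : 4 * q = 1) (h3 : (3 : k) ≠ 0)
    (ht : t ≠ 0) (h27 : 27 * t ≠ 1) : IsCoprime (fC q t) (derivative (fC q t)) := by
  exact FinD_cop h4 h3 ht h27

theorem fin_field {k : Type*} [Field k] {p m : ℕ} [CharP k p] (hp : p.Prime) (h5 : 5 ≤ p)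
    (hm : p = 2 * m + 1) {q t s b l : k} (h4 : 4 * q = 1) (ht : t ≠ 0) (h27 : 27 * t ≠ 1)
    {w : k[X]} (hw : w ≠ 0)
    (he : fC q t * w ^ 2 =
      C (l ^ 2) * (X ^ (3 * p) + C (q * b ^ 2) * (X ^ p + C (s * b ^ 2)) ^ 2)) :
    b ^ 2 = 1 ∧ t ^ p = s ∧ ∃ c : k, c ^ 2 = l ^ 2 ∧ w = C c * fC q t ^ m := by
  haveI : Fact p.Prime := ⟨hp⟩
  have h2 := FinD_two h4
  have hq : q ≠ 0 := by
    rintro rfl
    rw [mul_zero] at h4
    exact zero_ne_one h4
  have hcast : ∀ n : ℕ, 0 < n → n < p → (n : k) ≠ 0 := by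
    intro n hn0 hnp h0
    have := Nat.le_of_dvd hn0 ((CharP.cast_eq_zero_iff k p n).1 h0)
    omega
  have h3 : (3 : k) ≠ 0 := by exact_mod_cast hcast 3 (by omega) (by omega)
  have hcop := FinD_cop h4 h3 ht h27
  have hf0 : fC q t ≠ 0 := FinD_mon.ne_zero
  have hf3 : (fC q t).natDegree = 3 := FinD_deg
  -- the right side
  obtain ⟨H, hHdef⟩ : ∃ H : k[X], H = X ^ (3 * p) + C (q * b ^ 2) *
    (X ^ p + C (s * b ^ 2)) ^ 2 := ⟨_, rfl⟩
  rw [← hHdef] at he
  have hHlow : degree (C (q * b ^ 2) * (X ^ p + C (s * b ^ 2)) ^ 2 : k[X]) < (3 * p : ℕ) := by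
    refine lt_of_le_of_lt (FinD_dC _ _) ?_
    refine lt_of_le_of_lt (degree_pow_le _ _) ?_
    have h1 : degree (X ^ p + C (s * b ^ 2) : k[X]) = (p : ℕ) :=
      degree_X_pow_add_C (by omega) _
    rw [h1]
    have : (2 : ℕ) • ((p : ℕ) : WithBot ℕ) = ((2 * p : ℕ) : WithBot ℕ) := by
      rw [nsmul_eq_mul]
      push_cast
      rfl
    rw [this]
    exact_mod_cast (by omega : 2 * p < 3 * p)
  have hHm : H.Monic := by
    rw [hHdef]
    exact monic_X_pow_add hHlow
  have hHd : H.natDegree = 3 * p := by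
    rw [hHdef]
    exact FinD_nd hHlow
  have hl : l ≠ 0 := by
    rintro rfl
    apply mul_ne_zero hf0 (pow_ne_zero 2 hw)
    rw [he]
    simp
  have hl2 : l ^ 2 ≠ 0 := pow_ne_zero _ hl
  have hpX : ((p : ℕ) : k[X]) = 0 := by
    rw [← C_eq_natCast, CharP.cast_eq_zero, C_0]
  have hH' : derivative H = 0 := by
    rw [hHdef, derivative_add, derivative_X_pow, derivative_C_mul, derivative_pow,
      derivative_add, derivative_X_pow, derivative_C]
    simp
  have hder : derivative (fC q t) * w + 2 * fC q t * derivative w = 0 := by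
    have h1 := congrArg derivative he
    rw [derivative_C_mul, hH', mul_zero, derivative_mul, derivative_pow] at h1
    have h5' : w * (derivative (fC q t) * w + 2 * fC q t * derivative w) = 0 := by
      rw [← h1, Nat.cast_ofNat, (map_ofNat C 2 : (C (2 : k) : k[X]) = 2)]
      ring
    exact (mul_eq_zero.1 h5').resolve_left hw
  have hind : ∀ j : ℕ, j ≤ m → ∃ v : k[X], w = fC q t ^ j * v ∧
      ((1 + 2 * j : ℕ) : k[X]) * derivative (fC q t) * v + 2 * fC q t * derivative v = 0 := by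
    intro j
    induction j with
    | zero =>
      intro _
      refine ⟨w, by simp, ?_⟩
      have : ((1 + 2 * 0 : ℕ) : k[X]) = 1 := by simp
      rw [this, one_mul]
      exact hder
    | succ j ih =>
      intro hj
      obtain ⟨v, hv1, hv2⟩ := ih (by omega)
      have hc : ((1 + 2 * j : ℕ) : k) ≠ 0 := hcast _ (by omega) (by omega)
      have hdvd : fC q t ∣ v := by
        have h1 : fC q t ∣ ((1 + 2 * j : ℕ) : k[X]) * derivative (fC q t) * v :=
          ⟨-(2 * derivative v), by linear_combination hv2⟩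
        have h2' : IsCoprime (fC q t) (((1 + 2 * j : ℕ) : k[X]) * derivative (fC q t)) := by
          have hu : IsUnit ((1 + 2 * j : ℕ) : k[X]) := by
            rw [← C_eq_natCast]
            exact isUnit_C.2 (isUnit_iff_ne_zero.2 hc)
          exact (isCoprime_mul_unit_left_right hu _ _).2 hcop
        exact h2'.dvd_of_dvd_mul_left h1
      obtain ⟨u, rfl⟩ := hdvd
      refine ⟨u, by rw [hv1]; ring, ?_⟩
      have h1 : fC q t * (((1 + 2 * (j + 1) : ℕ) : k[X]) * derivative (fC q t) * u +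
          2 * fC q t * derivative u) = 0 := by
        rw [derivative_mul] at hv2
        rw [← hv2]
        push_cast
        ring
      exact (mul_eq_zero.1 h1).resolve_left hf0
  obtain ⟨v, hv1, -⟩ := hind m le_rfl
  have hv0 : v ≠ 0 := by
    rintro rfl
    exact hw (by rw [hv1, mul_zero])
  have hdeg : v.natDegree = 0 := by
    have h1 : (fC q t * w ^ 2).natDegree = 3 + 2 * (3 * m + v.natDegree) := by
      rw [natDegree_mul hf0 (pow_ne_zero 2 hw), natDegree_pow, hv1,
        natDegree_mul (pow_ne_zero _ hf0) hv0, natDegree_pow, hf3]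
      ring
    have h5' : (C (l ^ 2) * H).natDegree = 3 * p := by
      rw [natDegree_C_mul hl2, hHd]
    rw [he, h5'] at h1
    omega
  obtain ⟨c, hc⟩ : ∃ c, v = C c := ⟨v.coeff 0, eq_C_of_natDegree_eq_zero hdeg⟩
  have hw' : w = C c * fC q t ^ m := by rw [hv1, hc, mul_comm]
  have he2 : C (c ^ 2) * fC q t ^ p = C (l ^ 2) * H := by
    rw [← he, hw', hm, C_pow]
    ring
  have hcl : c ^ 2 = l ^ 2 := by
    have h1 := congrArg leadingCoeff he2
    rw [leadingCoeff_mul, leadingCoeff_mul, leadingCoeff_C, leadingCoeff_C, hHm.leadingCoeff,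
      (FinD_mon.pow p).leadingCoeff, mul_one, mul_one] at h1
    exact h1
  have hfp : fC q t ^ p = H := by
    rw [hcl] at he2
    exact mul_left_cancel₀ (C_ne_zero.2 hl2) he2
  have hqp : q ^ p = q := by
    have h1 : frobenius k p 4 = 4 := map_ofNat (frobenius k p) 4
    rw [frobenius_def] at h1
    have h5' : (4 : k) ^ p * q ^ p = 1 := by rw [← mul_pow, h4, one_pow]
    rw [h1] at h5'
    linear_combination q * h5' - q ^ p * h4
  have hfp2 : fC q t ^ p = X ^ (3 * p) + C q * (X ^ p + C (t ^ p)) ^ 2 := by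
    have e1 : (X + C t : k[X]) ^ p = X ^ p + C (t ^ p) := by
      rw [add_pow_char, C_pow]
    have e2 : ((X + C t : k[X]) ^ 2) ^ p = (X ^ p + C (t ^ p)) ^ 2 := by
      rw [← e1, ← pow_mul, ← pow_mul, mul_comm]
    rw [fC, add_pow_char, mul_pow, e2, ← pow_mul, ← C_pow, hqp]
  have hcmp : C q * (X ^ p + C (t ^ p)) ^ 2 =
      C (q * b ^ 2) * (X ^ p + C (s * b ^ 2)) ^ 2 := by
    have h1 : X ^ (3 * p) + C q * (X ^ p + C (t ^ p)) ^ 2 = X ^ (3 * p) + C (q * b ^ 2) *
        (X ^ p + C (s * b ^ 2)) ^ 2 := by rw [← hfp2, hfp, hHdef]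
    exact add_left_cancel h1
  have hexp : C q * (X + C (t ^ p)) ^ 2 = C (q * b ^ 2) * (X + C (s * b ^ 2)) ^ 2 := by
    apply expand_injective (R := k) hp.pos
    simpa using hcmp
  have hnf : ∀ a c : k, C a * (X + C c) ^ 2 =
      C a * X ^ 2 + C (2 * a * c) * X + C (a * c ^ 2) := by
    intro a c
    simp only [C_mul, C_pow, map_ofNat]
    ring
  rw [hnf, hnf] at hexp
  have c2 := congrArg (fun P : k[X] => P.coeff 2) hexp
  have c1 := congrArg (fun P : k[X] => P.coeff 1) hexp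
  simp only [coeff_add, coeff_C_mul, coeff_X_pow, coeff_X, coeff_C] at c2 c1
  norm_num at c2 c1
  have hb : b ^ 2 = 1 := by
    apply mul_left_cancel₀ hq
    linear_combination -c2
  refine ⟨hb, ?_, c, hcl, hw'⟩
  apply mul_left_cancel₀ (mul_ne_zero h2 hq)
  rw [hb] at c1
  linear_combination c1

end Pool.Agent.MP_2a5e5c_nt
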