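import Pool.Agent.Lib.MP_2a5e5c_nt.Defs

/-!
# SUN, module Seq: the sequences trin, kap and the data of a lift of Frobenius

`trin k = (3k)!/k!³`, `Hs p t = ∑_{k<p} trin k t^k`; `IsKap p kap`: `kap j` is
`trin (p + j) / trin p`. `bT` is the coefficient of `Z^m` in `(1 + q Z (1 + t Z)²)^(-1/2)`.

PROOF. `trin_succ`: from `(3k)! = trin k * k!³` (`Nat.choose_mul_factorial_mul_factorial`).
`kap_exists`: recursion; `(p + j + 1 : S)` is a unit for `j + 1 < p` because it is prime to `p`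
and `p² = 0` in `S` (`isUnit_of_coprime`: Bezout, or
`IsUnit` of an integer prime to `p` modulo a power of `p`). `kap_modp`: multiply by `p`: the
recursions of `kap` and `trin` agree after multiplication by `p` (`p² = 0`), `trin 0 = 1`, units
cancel. `Hs`-version: sum.
-/

namespace Pool.Agent.MP_2a5e5c_nt

open Polynomial

/-- `(3k)! / (k!)³`. -/
def trin (k : ℕ) : ℕ := (3 * k).choose k * (2 * k).choose k

/-- `∑_{k<p} trin k t^k`. -/
def Hs {S : Type*} [CommRing S] (p : ℕ) (t : S) : S :=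
  ∑ k ∈ Finset.range p, (trin k : S) * t ^ k

/-- `∑_{k<p} kap k t^k`. -/
def Ks {S : Type*} [CommRing S] (p : ℕ) (kap : ℕ → S) (t : S) : S :=
  ∑ k ∈ Finset.range p, kap k * t ^ k

/-- `kap j = trin (p+j) / trin p` for `j < p`. -/
def IsKap {S : Type*} [CommRing S] (p : ℕ) (kap : ℕ → S) : Prop :=
  kap 0 = 1 ∧ ∀ j, j + 1 < p →
    ((p + j + 1 : ℕ) : S) ^ 3 * kap (j + 1) =
      ((3 * p + 3 * j + 1 : ℕ) : S) * ((3 * p + 3 * j + 2 : ℕ) : S) *
        ((3 * p + 3 * j + 3 : ℕ) : S) * kap j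

/-- The closed form of the coefficient of `Z^m` of `(1 + q Z (1 + t Z)²)^(-1/2)` (`4 q = 1`). -/
def bT {S : Type*} [CommRing S] (q : S) (m : ℕ) (t : S) : S :=
  ∑ k ∈ Finset.range (m + 1), (-1) ^ (m - k) * ((2 * (m - k)).choose (m - k) : S) *
    ((2 * (m - k)).choose k : S) * q ^ (2 * (m - k)) * t ^ k

/-- Data of an isogeny of degree `p` from the curve of parameter `t` to the one of parameter `s`,
with differential `rho`, lifting the Frobenius map: `x ↦ N / D²`. -/
structure IsogData (R : Type*) [CommRing R] (p m : ℕ) (q t s rho : R) (N D : R[X]) : Prop where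
  monic : N.Monic
  degN : N.natDegree = p
  degD : D.natDegree ≤ m
  leadD : D.coeff m = rho
  N0 : N.coeff 0 = 0
  redN : ∀ i < p, (p : R) ∣ N.coeff i
  redD : ∀ i, 1 ≤ i → (p : R) ∣ D.coeff i
  D0 : (p : R) ∣ D.coeff 0 - 1
  ts : (p : R) ∣ t ^ p - s
  eq : fC q t * (derivative N * D - 2 * N * derivative D) ^ 2 =
    C rho ^ 2 * (N ^ 3 + C q * D ^ 2 * (N + C s * D ^ 2) ^ 2)

private lemma trin_fact (k : ℕ) : trin k * k.factorial ^ 3 = (3 * k).factorial := by
  have h1 := Nat.choose_mul_factorial_mul_factorial (show k ≤ 3 * k by omega)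
  have h2 := Nat.choose_mul_factorial_mul_factorial (show k ≤ 2 * k by omega)
  have e1 : 3 * k - k = 2 * k := by omega
  have e2 : 2 * k - k = k := by omega
  rw [e1] at h1
  rw [e2] at h2
  unfold trin
  rw [← h1, ← h2]
  ring

theorem trin_succ (k : ℕ) :
    (k + 1) ^ 3 * trin (k + 1) = (3 * k + 1) * (3 * k + 2) * (3 * k + 3) * trin k := by
  have h1 := trin_fact (k + 1)
  have h2 := trin_fact k
  have hf : (3 * (k + 1)).factorial =
      (3 * k + 2 + 1) * ((3 * k + 1 + 1) * ((3 * k + 1) * (3 * k).factorial)) := by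
    rw [← Nat.factorial_succ (3 * k), ← Nat.factorial_succ (3 * k + 1),
      ← Nat.factorial_succ (3 * k + 2)]
    congr 1
  rw [hf, ← h2, Nat.factorial_succ k] at h1
  have hp : 0 < k.factorial ^ 3 := pow_pos (Nat.factorial_pos k) 3
  refine Nat.eq_of_mul_eq_mul_right hp ?_
  calc (k + 1) ^ 3 * trin (k + 1) * k.factorial ^ 3
      = trin (k + 1) * ((k + 1) * k.factorial) ^ 3 := by ring
    _ = _ := h1
    _ = _ := by ring

theorem trin_zero : trin 0 = 1 := by
  simp [trin]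

theorem isUnit_of_not_dvd {S : Type*} [CommRing S] {p : ℕ} (hp : p.Prime)
    (hS : ((p : ℕ) : S) ^ 2 = 0) {n : ℕ} (hn : ¬ p ∣ n) : IsUnit (n : S) := by
  have hc : Nat.Coprime n (p ^ 2) :=
    Nat.Coprime.pow_right 2 ((Nat.Prime.coprime_iff_not_dvd hp).2 hn).symm
  obtain ⟨u, v, huv⟩ := Nat.isCoprime_iff_coprime.2 hc
  have h := congrArg (Int.cast : ℤ → S) huv
  push_cast at h
  rw [hS, mul_zero, add_zero] at h
  exact IsUnit.of_mul_eq_one (u : S) (by rw [mul_comm]; exact h)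

private lemma not_dvd_add {p j : ℕ} (hj : j + 1 < p) : ¬ p ∣ p + j + 1 := by
  intro h
  rw [add_assoc] at h
  have h' : p ∣ j + 1 := (Nat.dvd_add_right (dvd_refl p)).1 h
  exact absurd (Nat.le_of_dvd (Nat.succ_pos j) h') (by omega)

theorem kap_exists {S : Type*} [CommRing S] {p : ℕ} (hp : p.Prime)
    (hS : ((p : ℕ) : S) ^ 2 = 0) : ∃ kap : ℕ → S, IsKap p kap := by
  let kap : ℕ → S := fun n => Nat.rec 1 (fun j a => Ring.inverse ((p + j + 1 : ℕ) : S) ^ 3 *
      (((3 * p + 3 * j + 1 : ℕ) : S) * ((3 * p + 3 * j + 2 : ℕ) : S) *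
        ((3 * p + 3 * j + 3 : ℕ) : S) * a)) n
  refine ⟨kap, rfl, fun j hj => ?_⟩
  have hu : IsUnit ((p + j + 1 : ℕ) : S) := isUnit_of_not_dvd hp hS (not_dvd_add hj)
  have hs : kap (j + 1) = Ring.inverse ((p + j + 1 : ℕ) : S) ^ 3 *
      (((3 * p + 3 * j + 1 : ℕ) : S) * ((3 * p + 3 * j + 2 : ℕ) : S) *
        ((3 * p + 3 * j + 3 : ℕ) : S) * kap j) := rfl
  rw [hs, ← mul_assoc, ← mul_pow, Ring.mul_inverse_cancel _ hu, one_pow, one_mul]

private lemma kap_modp_term {S : Type*} [CommRing S] {p : ℕ} (hp : p.Prime)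
    (hS : ((p : ℕ) : S) ^ 2 = 0) {kap : ℕ → S} (hk : IsKap p kap) (j : ℕ) (hj : j < p) :
    (p : S) * kap j = (p : S) * (trin j : S) := by
  induction j with
  | zero => rw [hk.1, trin_zero, Nat.cast_one]
  | succ j ih =>
    have ih' := ih (by omega)
    have h1 := hk.2 j hj
    have h2 := congrArg (Nat.cast : ℕ → S) (trin_succ j)
    push_cast at h1 h2
    have hu : IsUnit (((j + 1 : ℕ) : S) ^ 3) := by
      refine IsUnit.pow 3 (isUnit_of_not_dvd hp hS ?_)
      intro h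
      exact absurd (Nat.le_of_dvd (Nat.succ_pos j) h) (by omega)
    refine hu.mul_left_cancel ?_
    push_cast
    have hpp : (p : S) * (p : S) = 0 := by rw [← sq, hS]
    have e1 : ((j : S) + 1) ^ 3 * ((p : S) * kap (j + 1)) =
        (p : S) * (((p : S) + j + 1) ^ 3 * kap (j + 1)) := by
      linear_combination (-(kap (j + 1)) * ((p : S) ^ 2 + 3 * (p : S) * ((j : S) + 1) +
        3 * ((j : S) + 1) ^ 2)) * hpp
    have e2 : (p : S) * ((3 * (p : S) + 3 * j + 1) * (3 * (p : S) + 3 * j + 2) *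
        (3 * (p : S) + 3 * j + 3) * kap j) =
        (3 * (j : S) + 1) * (3 * (j : S) + 2) * (3 * (j : S) + 3) * ((p : S) * kap j) := by
      linear_combination (kap j * (27 * (p : S) ^ 2 + 9 * (p : S) * ((3 * (j : S) + 1) +
        (3 * (j : S) + 2) + (3 * (j : S) + 3)) + 3 * ((3 * (j : S) + 1) * (3 * (j : S) + 2) +
        (3 * (j : S) + 1) * (3 * (j : S) + 3) + (3 * (j : S) + 2) * (3 * (j : S) + 3)))) * hpp
    rw [e1, h1, e2, ih']
    linear_combination (-(p : S)) * h2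

theorem kap_modp {S : Type*} [CommRing S] {p : ℕ} (hp : p.Prime)
    (hS : ((p : ℕ) : S) ^ 2 = 0) {kap : ℕ → S} (hk : IsKap p kap) (t : S) :
    (p : S) * Ks p kap t = (p : S) * Hs p t := by
  unfold Ks Hs
  rw [Finset.mul_sum, Finset.mul_sum]
  refine Finset.sum_congr rfl fun k hk' => ?_
  rw [← mul_assoc, ← mul_assoc, kap_modp_term hp hS hk k (Finset.mem_range.1 hk')]

end Pool.Agent.MP_2a5e5c_nt
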