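import Pool.Agent.Lib.MP_2a5e5c_nt.FinD
import Pool.Agent.Lib.MP_2a5e5c_nt.RedA
import Pool.Agent.Lib.MP_2a5e5c_nt.Seq

/-!
# SUN, module FinE: the isogeny data

PROOF. Write `P = C p`, `c = p l`, `β = D.coeff 0`, `N = X^p + P N₁` (`N₁` of degree `< p`,
because `N` is monic of degree `p` and `N.map red = X^p`), `D = C β + P D₁` with
`D₁.coeff 0 = 0`, `D₁.coeff m = l` (`m ≥ 1`). `N'D - 2ND' = P w`,
`w = (X^(p-1) + N₁') D - 2 N D₁'`. The equation divided by `p²`:
`f w² = l² (N³ + q D² (N + s D²)²)` in `R[X]` (domain, characteristic 0). Reduce: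
`fin_field` applies with `b = red β`, `l := red l`, `w := w.map red`, which is
`C b X^(p-1) + C b n₁' - 2 X^p d₁'`; its coefficient of `X^(p-1)` is `b ≠ 0` (`deg n₁' ≤ p - 2`), so
it is `≠ 0`. So `b² = 1`, `red (t^p - s) = 0`, `w.map red = C c₀ f^m`. The coefficient of
`X^(3m)`, `3m = p + (m - 1)`: on the left `-2 m (red l) = red l` (`2m + 1 = p = 0`, `m ≥ 2` so
`3m > p - 1` and `3m > p - 2`), on the right `c₀`: `c₀ = red l`; `red l ≠ 0`. Value at `0`:
`N.coeff 1 * β = p w(0)` and `t N.coeff 1 = e s c β²`, so `t w(0) = e s l β³` in `R`; reduce: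
`t c₀ (q t²)^m = e s c₀ b³`; `(q t²)^m = t^(p-1)` (`q^m = 1` in `k`: `4^m = 2^(p-1) = 1`), so
`t^p = e s b`, `s = e s b`, `e b = 1` (`s = t^p ≠ 0`). Hence `red (e β) = 1`, which is `D0` for
`C e * D`. The other fields: `N.map red = X^p` gives `redN`, `D.map red = C b` gives `redD`;
`eq`: `e² = 1`.
-/

namespace Pool.Agent.MP_2a5e5c_nt

open Polynomial

private theorem FinE_fC_map {R k : Type*} [CommRing R] [CommRing k] (φ : R →+* k) (q t : R) :
    (fC q t).map φ = fC (φ q) (φ t) := by
  simp [fC]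

private theorem FinE_fC_monic {k : Type*} [Field k] (q t : k) :
    (fC q t).Monic ∧ (fC q t).natDegree = 3 := by
  have h : fC q t = X ^ 3 + (C q * X ^ 2 + C (2 * q * t) * X + C (q * t ^ 2)) := by
    simp only [fC, C_mul, C_pow]
    have h2 : (C (2 : k) : k[X]) = 2 := rfl
    rw [h2]
    ring
  have hd : (C q * X ^ 2 + C (2 * q * t) * X + C (q * t ^ 2) : k[X]).natDegree ≤ 2 := by
    compute_degree
  have hd' : (C q * X ^ 2 + C (2 * q * t) * X + C (q * t ^ 2) : k[X]).degree < (3 : ℕ) := by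
    refine lt_of_le_of_lt degree_le_natDegree ?_
    exact_mod_cast Nat.lt_succ_of_le hd
  rw [h]
  refine ⟨monic_X_pow_add hd', ?_⟩
  rw [natDegree_add_eq_left_of_natDegree_lt]
  · exact natDegree_X_pow 3
  · rw [natDegree_X_pow]
    omega

private theorem FinE_four {k : Type*} [Field k] {p m : ℕ} [CharP k p] (hp : p.Prime)
    (h5 : 5 ≤ p) (hm : p = 2 * m + 1) : (4 : k) ^ m = 1 := by
  have hF : Fact p.Prime := ⟨hp⟩
  have h2 : (2 : ZMod p) ≠ 0 := by
    intro h
    have h1 : ((2 : ℕ) : ZMod p) = 0 := by exact_mod_cast h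
    rw [ZMod.natCast_eq_zero_iff] at h1
    exact absurd (Nat.le_of_dvd two_pos h1) (by omega)
  have h3 := ZMod.pow_card_sub_one_eq_one h2
  have h4 : p - 1 = 2 * m := by omega
  rw [h4, pow_mul] at h3
  have h5' := congrArg (ZMod.castHom (dvd_refl p) k) h3
  rw [map_pow, map_pow, map_one, map_ofNat] at h5'
  rw [← h5']
  norm_num

theorem fin_data {R k : Type*} [CommRing R] [IsDomain R] [CharZero R] [Field k] {p m : ℕ}
    [CharP k p] (hp : p.Prime) (h5 : 5 ≤ p) (hm : p = 2 * m + 1) {red : R →+* k}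
    (hS : RedS (p : R) red) {q t s c : R} (h4 : 4 * q = 1) (ht : red t ≠ 0)
    (h27 : 27 * red t ≠ 1) (hc : (p : R) ∣ c) {N D : R[X]} (hN : N.Monic)
    (hNd : N.natDegree = p) (hN0 : N.coeff 0 = 0) (hNr : N.map red = X ^ p)
    (hDd : D.natDegree ≤ m) (hDm : D.coeff m = c) (hDr : ∃ b : k, b ≠ 0 ∧ D.map red = C b)
    (he : fC q t * (derivative N * D - 2 * N * derivative D) ^ 2 =
      C c ^ 2 * (N ^ 3 + C q * D ^ 2 * (N + C s * D ^ 2) ^ 2))
    {e : ℤ} (he1 : e = 1 ∨ e = -1)
    (hv : t * N.coeff 1 = (e : R) * s * c * D.coeff 0 ^ 2) :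
    IsogData R p m q t s ((e : R) * c) N (C (e : R) * D) := by
  have hP : (p : R) ≠ 0 := by exact_mod_cast hp.ne_zero
  have hPk : (p : k) = 0 := CharP.cast_eq_zero k p
  obtain ⟨l, rfl⟩ := hc
  obtain ⟨b, hb, hDb⟩ := hDr
  have hβb : red (D.coeff 0) = b := by
    have h := congrArg (fun g : k[X] => g.coeff 0) hDb
    simpa using h
  have hN1 : (N - X ^ p).map red = 0 := by
    rw [Polynomial.map_sub, hNr, Polynomial.map_pow, map_X, sub_self]
  obtain ⟨N₁, hN₁⟩ := (red_zero_iff hS _).1 hN1
  have hD1 : (D - C (D.coeff 0)).map red = 0 := by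
    rw [Polynomial.map_sub, hDb, map_C, hβb, sub_self]
  obtain ⟨D₁, hD₁⟩ := (red_zero_iff hS _).1 hD1
  have hNe : N = X ^ p + C (p : R) * N₁ := by rw [← hN₁]; ring
  have hDe : D = C (D.coeff 0) + C (p : R) * D₁ := by rw [← hD₁]; ring
  -- coefficients
  have hN₁c : ∀ i, p ≤ i → N₁.coeff i = 0 := by
    intro i hi
    have h := congrArg (fun g : R[X] => g.coeff i) hN₁
    simp only [coeff_sub, coeff_X_pow, coeff_C_mul] at h
    have h0 : (p : R) * N₁.coeff i = 0 := by
      rw [← h]
      rcases eq_or_lt_of_le hi with h1 | h1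
      · rw [if_pos h1.symm, ← h1]
        have h2 : N.coeff N.natDegree = 1 := hN
        rw [hNd] at h2
        rw [h2, sub_self]
      · rw [if_neg h1.ne', coeff_eq_zero_of_natDegree_lt (by omega), sub_self]
    exact (mul_eq_zero.1 h0).resolve_left hP
  have hD₁m : D₁.coeff m = l := by
    have h := congrArg (fun g : R[X] => g.coeff m) hD₁
    simp only [coeff_sub, coeff_C_mul] at h
    rw [coeff_C_of_ne_zero (by omega), sub_zero, hDm] at h
    exact (mul_left_cancel₀ hP h).symm
  -- the derivatives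
  have hN' : derivative N = C (p : R) * (X ^ (p - 1) + derivative N₁) := by
    conv_lhs => rw [hNe]
    rw [derivative_add, derivative_X_pow, derivative_C_mul]
    ring
  have hD' : derivative D = C (p : R) * derivative D₁ := by
    conv_lhs => rw [hDe]
    rw [derivative_add, derivative_C, derivative_C_mul, zero_add]
  obtain ⟨w, hw⟩ : ∃ w : R[X], w = (X ^ (p - 1) + derivative N₁) * D - 2 * N * derivative D₁ :=
    ⟨_, rfl⟩
  have hPw : derivative N * D - 2 * N * derivative D = C (p : R) * w := by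
    rw [hN', hD', hw]
    ring
  have hCP : (C (p : R) : R[X]) ≠ 0 := C_ne_zero.2 hP
  have heq : fC q t * w ^ 2 = C l ^ 2 * (N ^ 3 + C q * D ^ 2 * (N + C s * D ^ 2) ^ 2) := by
    rw [hPw, C_mul] at he
    refine mul_left_cancel₀ (pow_ne_zero 2 hCP) ?_
    linear_combination he
  -- reduction
  have heqk : fC (red q) (red t) * (w.map red) ^ 2 =
      C ((red l) ^ 2) * (X ^ (3 * p) + C (red q * b ^ 2) * (X ^ p + C (red s * b ^ 2)) ^ 2) := by
    have h := congrArg (Polynomial.map red) heq
    simp only [Polynomial.map_mul, Polynomial.map_pow, Polynomial.map_add, map_C, hNr, hDb,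
      FinE_fC_map] at h
    rw [h]
    simp only [C_mul, C_pow]
    ring
  have hwk : w.map red = (X ^ (p - 1) + derivative (N₁.map red)) * C b -
      2 * (derivative (D₁.map red) * X ^ p) := by
    rw [hw, Polynomial.map_sub, Polynomial.map_mul, Polynomial.map_mul, Polynomial.map_mul,
      Polynomial.map_add, Polynomial.map_pow, map_X, hDb, hNr, derivative_map, derivative_map,
      Polynomial.map_ofNat]
    ring
  have hn₁ : ∀ i, p ≤ i → (N₁.map red).coeff i = 0 := by
    intro i hi
    rw [coeff_map, hN₁c i hi, map_zero]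
  have h2c : ∀ (g : k[X]) (i : ℕ), (2 * g).coeff i = 2 * g.coeff i := by
    intro g i
    have h2 : (2 : k[X]) = C 2 := rfl
    rw [h2, coeff_C_mul]
  have hw1 : (w.map red).coeff (p - 1) = b := by
    rw [hwk, coeff_sub, coeff_mul_C, coeff_add, coeff_X_pow, if_pos rfl, coeff_derivative, h2c,
      coeff_mul_X_pow', if_neg (by omega), hn₁ _ (by omega)]
    ring
  have hw0 : w.map red ≠ 0 := by
    intro h
    rw [h, coeff_zero] at hw1
    exact hb hw1.symm
  have h4k : 4 * red q = 1 := by
    have h := congrArg red h4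
    rw [map_mul, map_ofNat, map_one] at h
    exact h
  obtain ⟨hb2, hts, c₀, hc₀, hwc⟩ := fin_field hp h5 hm h4k ht h27 hw0 heqk
  obtain ⟨hfm, hfd⟩ := FinE_fC_monic (red q) (red t)
  -- the leading coefficient
  have hcl : c₀ = red l := by
    have h1 : (w.map red).coeff (3 * m) = c₀ := by
      rw [hwc, coeff_C_mul]
      have h2 : (fC (red q) (red t) ^ m).natDegree = 3 * m := by
        rw [natDegree_pow, hfd, mul_comm]
      have h3 : (fC (red q) (red t) ^ m).Monic := hfm.pow m
      have h6 : (fC (red q) (red t) ^ m).coeff (3 * m) = 1 := by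
        rw [← h2]
        exact h3
      rw [h6, mul_one]
    have h2 : (w.map red).coeff (3 * m) = red l := by
      rw [hwk, coeff_sub, coeff_mul_C, coeff_add, coeff_X_pow, if_neg (by omega),
        coeff_derivative, h2c, coeff_mul_X_pow', if_pos (by omega), hn₁ _ (by omega),
        coeff_derivative]
      have h3 : 3 * m - p + 1 = m := by omega
      rw [h3, coeff_map, hD₁m]
      have h6 : ((3 * m - p : ℕ) : k) + 1 = m := by
        rw [← Nat.cast_succ]
        congr 1
      rw [h6]
      have h7 : (2 * (m : k) + 1) = 0 := by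
        rw [← hPk, hm]
        push_cast
        ring
      linear_combination (-(red l)) * h7
    rw [← h1, h2]
  have hl0 : red l ≠ 0 := by
    intro h
    apply hw0
    rw [hwc, hcl, h, C_0, zero_mul]
  -- the value at zero
  have hv0 : t * w.coeff 0 = (e : R) * s * l * D.coeff 0 ^ 3 := by
    have h1 := congrArg (fun g : R[X] => g.coeff 0) hPw
    simp only [coeff_sub, coeff_C_zero, mul_coeff_zero, coeff_derivative, hN0, zero_mul,
      mul_zero, sub_zero, Nat.cast_zero, zero_add, mul_one] at h1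
    refine mul_left_cancel₀ hP ?_
    linear_combination (-t) * h1 + D.coeff 0 * hv
  have hvk : red t * (red q * red t ^ 2) ^ m = (e : k) * red s * b := by
    have h1 := congrArg red hv0
    simp only [map_mul, map_pow, map_intCast, hβb] at h1
    have h2 : red (w.coeff 0) = red l * (red q * red t ^ 2) ^ m := by
      rw [← coeff_map, hwc, coeff_C_mul, hcl, coeff_zero_eq_eval_zero, eval_pow]
      congr 2
      simp [fC]
    rw [h2] at h1
    refine mul_left_cancel₀ hl0 ?_
    linear_combination h1 + (e : k) * red s * red l * b * hb2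
  have hq : (red q) ^ m = 1 := by
    have h1 := FinE_four (k := k) hp h5 hm
    have h2 : (4 * red q) ^ m = 1 := by rw [h4k, one_pow]
    rw [mul_pow, h1, one_mul] at h2
    exact h2
  have hs0 : red s ≠ 0 := by
    rw [← hts]
    exact pow_ne_zero p ht
  have heb : (e : k) * b = 1 := by
    have h1 : red t * (red q * red t ^ 2) ^ m = red s := by
      rw [mul_pow, hq, one_mul, ← hts, hm]
      ring
    rw [h1] at hvk
    refine mul_left_cancel₀ hs0 ?_
    linear_combination -hvk
  have he2 : (e : R) ^ 2 = 1 := by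
    rcases he1 with rfl | rfl <;> norm_num
  have hCe : (C (e : R) : R[X]) ^ 2 = 1 := by
    rw [← C_pow, he2, C_1]
  refine ⟨hN, hNd, (natDegree_C_mul_le _ _).trans hDd, ?_, hN0, ?_, ?_, ?_, ?_, ?_⟩
  · rw [coeff_C_mul, hDm]
  · intro i hi
    rw [← hS.ker, ← coeff_map, hNr, coeff_X_pow, if_neg (by omega)]
  · intro i hi
    rw [← hS.ker, coeff_C_mul, map_mul, ← coeff_map, hDb, coeff_C_of_ne_zero (by omega), mul_zero]
  · rw [← hS.ker, coeff_C_mul, map_sub, map_mul, map_one, hβb, map_intCast, heb, sub_self]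
  · rw [← hS.ker, map_sub, map_pow, hts, sub_self]
  · have hD2 : (C (e : R) * D) ^ 2 = D ^ 2 := by rw [mul_pow, hCe, one_mul]
    rw [derivative_C_mul, C_mul (a := (e : R)), hD2]
    linear_combination (C (e : R) ^ 2) * he

end Pool.Agent.MP_2a5e5c_nt
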