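import Pool.Agent.Lib.MP_2a5e5c_nt.Cert

/-!
# SUN, module HgtP: degrees in the sum and difference law

PROOF. `hgt N M = max (deg N) (deg M)`. For a pair `(N, M) ≠ 0` of height `h` the vector of the
coefficients of `X^h` is `≠ 0`. Let `h₁, …, h₄` be the heights. The three polynomials
`x = N₁N₂, …` have degree `≤ h₁ + h₂`, their coefficients of `X^(h₁+h₂)` are the same
expressions in the leading vectors, so not all are zero (`sym_ne` over `K`); hence `F_j(x,y,z)` has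
degree `≤ 2(h₁+h₂)` and its coefficient at `2(h₁+h₂)` is `F_j` of the leading vector,
not all zero (`nobase` over `K`). So the maximum of the degrees of the left sides is
`2(h₁+h₂)`. For the right sides it is `h₃ + h₄` (`lam ≠ 0`). `hgt_lead` is the statement about
leading vectors: it follows by comparing the coefficients at `2(h₁+h₂) = h₃+h₄`.
(`Polynomial.coeff_mul_degree_add_degree`-like: for `deg a ≤ m`, `deg b ≤ n`,
`(a b).coeff (m+n) = a.coeff m * b.coeff n`: `Polynomial.coeff_mul_of_natDegree_le`.)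
-/

namespace Pool.Agent.MP_2a5e5c_nt

open Polynomial

/-- Height of a pair of polynomials. -/
noncomputable def hgt {A : Type*} [Semiring A] (N M : A[X]) : ℕ := max N.natDegree M.natDegree

/-- `p` has degree at most `m` and its coefficient at `m` is `c` -/
private def HgtP_T {K : Type*} [Semiring K] (p : K[X]) (m : ℕ) (c : K) : Prop :=
  p.natDegree ≤ m ∧ p.coeff m = c

private theorem HgtP_add {K : Type*} [Semiring K] {p q : K[X]} {m : ℕ} {c d : K}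
    (hp : HgtP_T p m c) (hq : HgtP_T q m d) : HgtP_T (p + q) m (c + d) := by
  refine ⟨(natDegree_add_le p q).trans (max_le hp.1 hq.1), ?_⟩
  rw [coeff_add, hp.2, hq.2]

private theorem HgtP_sub {K : Type*} [Ring K] {p q : K[X]} {m : ℕ} {c d : K}
    (hp : HgtP_T p m c) (hq : HgtP_T q m d) : HgtP_T (p - q) m (c - d) := by
  refine ⟨(natDegree_sub_le p q).trans (max_le hp.1 hq.1), ?_⟩
  rw [coeff_sub, hp.2, hq.2]

private theorem HgtP_mul {K : Type*} [Semiring K] {p q : K[X]} {m n : ℕ} {c d : K}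
    (hp : HgtP_T p m c) (hq : HgtP_T q n d) : HgtP_T (p * q) (m + n) (c * d) := by
  refine ⟨natDegree_mul_le.trans (add_le_add hp.1 hq.1), ?_⟩
  rw [coeff_mul_add_eq_of_natDegree_le hp.1 hq.1, hp.2, hq.2]

private theorem HgtP_C {K : Type*} [Semiring K] {p : K[X]} {m : ℕ} {c : K} (a : K)
    (hp : HgtP_T p m c) : HgtP_T (C a * p) m (a * c) := by
  refine ⟨(natDegree_C_mul_le a p).trans hp.1, ?_⟩
  rw [coeff_C_mul, hp.2]

private theorem HgtP_of {K : Type*} [Semiring K] {p q : K[X]} {m : ℕ} {c d : K}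
    (hp : HgtP_T p m c) (h1 : q = p) (h2 : d = c) : HgtP_T q m d := by
  rw [h1, h2]
  exact hp

private theorem HgtP_F0 {K : Type*} [CommRing K] (s : K) {x y z : K[X]} {m : ℕ} {a b c : K}
    (hx : HgtP_T x m a) (hy : HgtP_T y m b) (hz : HgtP_T z m c) :
    HgtP_T (F0 (C s) x y z) (m + m) (F0 s a b c) := by
  refine HgtP_of (HgtP_sub (HgtP_sub (HgtP_mul hx hx) (HgtP_C s (HgtP_mul hx hz)))
    (HgtP_C (s ^ 2) (HgtP_mul hy hz))) ?_ ?_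
  · unfold F0
    rw [C_pow]
    ring
  · unfold F0
    ring

private theorem HgtP_F1 {K : Type*} [CommRing K] (s : K) {x y z : K[X]} {m : ℕ} {a b c : K}
    (hx : HgtP_T x m a) (hy : HgtP_T y m b) (hz : HgtP_T z m c) :
    HgtP_T (F1 (C s) x y z) (m + m) (F1 s a b c) := by
  refine HgtP_of (HgtP_add (HgtP_add (HgtP_add (HgtP_add (HgtP_mul hx hy) (HgtP_mul hx hy))
    (HgtP_mul hx hz)) (HgtP_C s (HgtP_mul hy hz))) (HgtP_C (s ^ 2) (HgtP_mul hz hz))) ?_ ?_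
  · unfold F1
    rw [C_pow]
    ring
  · unfold F1
    ring

private theorem HgtP_F2 {K : Type*} [CommRing K] (s : K) {x y z : K[X]} {m : ℕ} {a b c : K}
    (hx : HgtP_T x m a) (hy : HgtP_T y m b) (hz : HgtP_T z m c) :
    HgtP_T (F2 (C s) x y z) (m + m) (F2 s a b c) := by
  refine HgtP_of (HgtP_sub (HgtP_mul hy hy) (HgtP_C 4 (HgtP_mul hx hz))) ?_ ?_
  · unfold F2
    rw [show (C (4 : K) : K[X]) = 4 from map_ofNat C 4]
    ring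
  · unfold F2
    ring

private theorem HgtP_le {K : Type*} [Semiring K] {p : K[X]} {m n : ℕ} {c d : K}
    (hp : HgtP_T p m c) (hq : HgtP_T p n d) (hc : c ≠ 0) : m ≤ n := by
  refine le_trans ?_ hq.1
  refine le_natDegree_of_ne_zero ?_
  rw [hp.2]
  exact hc

private theorem HgtP_lead {K : Type*} [Semiring K] {N M : K[X]} (h : N ≠ 0 ∨ M ≠ 0) :
    N.coeff (hgt N M) ≠ 0 ∨ M.coeff (hgt N M) ≠ 0 := by
  unfold hgt
  rcases le_total N.natDegree M.natDegree with h1 | h1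
  · rw [max_eq_right h1]
    by_cases hM : M = 0
    · left
      have hN : N ≠ 0 := by
        rcases h with h | h
        · exact h
        · exact absurd hM h
      rw [hM, natDegree_zero] at h1
      rw [hM, natDegree_zero]
      have h2 : N.natDegree = 0 := Nat.le_zero.1 h1
      rw [← h2]
      exact leadingCoeff_ne_zero.2 hN
    · right
      exact leadingCoeff_ne_zero.2 hM
  · rw [max_eq_left h1]
    by_cases hN : N = 0
    · right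
      have hM : M ≠ 0 := by
        rcases h with h | h
        · exact absurd hN h
        · exact h
      rw [hN, natDegree_zero] at h1
      rw [hN, natDegree_zero]
      have h2 : M.natDegree = 0 := Nat.le_zero.1 h1
      rw [← h2]
      exact leadingCoeff_ne_zero.2 hM
    · left
      exact leadingCoeff_ne_zero.2 hN

private theorem HgtP_main {K : Type*} [Field K] {s lam : K} (hs : s ≠ 0) (h27 : 27 * s ≠ 1)
    (hl : lam ≠ 0) {N₁ M₁ N₂ M₂ N₃ M₃ N₄ M₄ : K[X]} (h₁ : N₁ ≠ 0 ∨ M₁ ≠ 0)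
    (h₂ : N₂ ≠ 0 ∨ M₂ ≠ 0) (h₃ : N₃ ≠ 0 ∨ M₃ ≠ 0) (h₄ : N₄ ≠ 0 ∨ M₄ ≠ 0)
    (h : LawRel (C s) (C lam) N₁ M₁ N₂ M₂ N₃ M₃ N₄ M₄) :
    hgt N₃ M₃ + hgt N₄ M₄ = (hgt N₁ M₁ + hgt N₂ M₂) + (hgt N₁ M₁ + hgt N₂ M₂) ∧
    LawRel s lam (N₁.coeff (hgt N₁ M₁)) (M₁.coeff (hgt N₁ M₁)) (N₂.coeff (hgt N₂ M₂))
      (M₂.coeff (hgt N₂ M₂)) (N₃.coeff (hgt N₃ M₃)) (M₃.coeff (hgt N₃ M₃))
      (N₄.coeff (hgt N₄ M₄)) (M₄.coeff (hgt N₄ M₄)) := by
  have tN : ∀ N M : K[X], HgtP_T N (hgt N M) (N.coeff (hgt N M)) := fun N M =>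
    ⟨le_max_left _ _, rfl⟩
  have tM : ∀ N M : K[X], HgtP_T M (hgt N M) (M.coeff (hgt N M)) := fun N M =>
    ⟨le_max_right _ _, rfl⟩
  have tx := HgtP_mul (tN N₁ M₁) (tN N₂ M₂)
  have ty := HgtP_add (HgtP_mul (tN N₁ M₁) (tM N₂ M₂)) (HgtP_mul (tM N₁ M₁) (tN N₂ M₂))
  have tz := HgtP_mul (tM N₁ M₁) (tM N₂ M₂)
  have l0 := HgtP_F0 s tx ty tz
  have l1 := HgtP_F1 s tx ty tz
  have l2 := HgtP_F2 s tx ty tz
  have r0 := HgtP_C lam (HgtP_mul (tN N₃ M₃) (tN N₄ M₄))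
  have r1 := HgtP_C lam (HgtP_add (HgtP_mul (tN N₃ M₃) (tM N₄ M₄))
    (HgtP_mul (tM N₃ M₃) (tN N₄ M₄)))
  have r2 := HgtP_C lam (HgtP_mul (tM N₃ M₃) (tM N₄ M₄))
  obtain ⟨e0, e1, e2⟩ := h
  rw [e0] at l0
  rw [e1] at l1
  rw [e2] at l2
  have k1 := HgtP_lead h₁
  have k2 := HgtP_lead h₂
  have k3 := HgtP_lead h₃
  have k4 := HgtP_lead h₄
  have hle1 : (hgt N₁ M₁ + hgt N₂ M₂) + (hgt N₁ M₁ + hgt N₂ M₂) ≤ hgt N₃ M₃ + hgt N₄ M₄ := by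
    by_contra hcon
    refine sym_ne k1 k2 ?_
    refine nobase hs h27 ?_ ?_ ?_
    · by_contra h0
      exact hcon (HgtP_le l0 r0 h0)
    · by_contra h0
      exact hcon (HgtP_le l1 r1 h0)
    · by_contra h0
      exact hcon (HgtP_le l2 r2 h0)
  have hle2 : hgt N₃ M₃ + hgt N₄ M₄ ≤ (hgt N₁ M₁ + hgt N₂ M₂) + (hgt N₁ M₁ + hgt N₂ M₂) := by
    by_contra hcon
    refine sym_ne k3 k4 ⟨?_, ?_, ?_⟩
    · by_contra h0
      exact hcon (HgtP_le r0 l0 (mul_ne_zero hl h0))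
    · by_contra h0
      exact hcon (HgtP_le r1 l1 (mul_ne_zero hl h0))
    · by_contra h0
      exact hcon (HgtP_le r2 l2 (mul_ne_zero hl h0))
  have heq := le_antisymm hle2 hle1
  refine ⟨heq, ?_, ?_, ?_⟩
  · rw [← l0.2, ← r0.2, heq]
  · rw [← l1.2, ← r1.2, heq]
  · rw [← l2.2, ← r2.2, heq]

theorem hgt_par {K : Type*} [Field K] {s lam : K} (hs : s ≠ 0) (h27 : 27 * s ≠ 1)
    (hl : lam ≠ 0) {N₁ M₁ N₂ M₂ N₃ M₃ N₄ M₄ : K[X]} (h₁ : N₁ ≠ 0 ∨ M₁ ≠ 0)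
    (h₂ : N₂ ≠ 0 ∨ M₂ ≠ 0) (h₃ : N₃ ≠ 0 ∨ M₃ ≠ 0) (h₄ : N₄ ≠ 0 ∨ M₄ ≠ 0)
    (h : LawRel (C s) (C lam) N₁ M₁ N₂ M₂ N₃ M₃ N₄ M₄) :
    hgt N₃ M₃ + hgt N₄ M₄ = 2 * hgt N₁ M₁ + 2 * hgt N₂ M₂ := by
  have h1 := (HgtP_main hs h27 hl h₁ h₂ h₃ h₄ h).1
  omega

theorem hgt_lead {K : Type*} [Field K] {s lam : K} (hs : s ≠ 0) (h27 : 27 * s ≠ 1)
    (hl : lam ≠ 0) {N₁ M₁ N₂ M₂ N₃ M₃ N₄ M₄ : K[X]} (h₁ : N₁ ≠ 0 ∨ M₁ ≠ 0)
    (h₂ : N₂ ≠ 0 ∨ M₂ ≠ 0) (h₃ : N₃ ≠ 0 ∨ M₃ ≠ 0) (h₄ : N₄ ≠ 0 ∨ M₄ ≠ 0)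
    (h : LawRel (C s) (C lam) N₁ M₁ N₂ M₂ N₃ M₃ N₄ M₄) :
    LawRel s lam (N₁.coeff (hgt N₁ M₁)) (M₁.coeff (hgt N₁ M₁)) (N₂.coeff (hgt N₂ M₂))
      (M₂.coeff (hgt N₂ M₂)) (N₃.coeff (hgt N₃ M₃)) (M₃.coeff (hgt N₃ M₃))
      (N₄.coeff (hgt N₄ M₄)) (M₄.coeff (hgt N₄ M₄)) :=
  (HgtP_main hs h27 hl h₁ h₂ h₃ h₄ h).2

end Pool.Agent.MP_2a5e5c_nt
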