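import Pool.Agent.Lib.MP_2a5e5c_nt.LawP
import Pool.Agent.Lib.MP_2a5e5c_nt.HgtP

/-!
# SUN, module Pted: points with value `0` (the origin) at `X = ∞`

PROOF. `Pted P`: for one (hence every, `rep_unique`) representative `deg M < deg N`, i.e. the
leading vector `(N.coeff h, M.coeff h)`, `h = hgt N M`, is `(n, 0)` with `n ≠ 0`. If `P` and
`Q` are so, then in `hgt_lead` the left sides are `F0 = (n₁n₂)², F1 = 0, F2 = 0` (triple
`(n₁n₂, 0, 0)`), so `m₃ m₄ = 0`, `n₃ m₄ + m₃ n₄ = 0`, `n₃ n₄ ≠ 0`, which gives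
`m₃ = m₄ = 0`.
-/

namespace Pool.Agent.MP_2a5e5c_nt

open Polynomial

variable {K : Type*} [Field K] {q t s : K}

/-- `x(P) / f` has a pole at `X = ∞` (or `P = 0`). -/
def Pted (P : Pt q t s) : Prop := ∃ N M : K[X], Rep P N M ∧ M.degree < N.degree

private theorem Pted_iff {N M : K[X]} :
    M.degree < N.degree ↔ M.coeff (hgt N M) = 0 ∧ N.coeff (hgt N M) ≠ 0 := by
  constructor
  · intro h
    have hN : N ≠ 0 := by
      intro h0
      rw [h0, degree_zero] at h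
      exact absurd h (not_lt_bot)
    have h1 : M.natDegree ≤ N.natDegree := natDegree_le_natDegree h.le
    have h2 : hgt N M = N.natDegree := max_eq_left h1
    rw [h2]
    refine ⟨coeff_eq_zero_of_degree_lt ?_, ?_⟩
    · rw [← degree_eq_natDegree hN]
      exact h
    · rw [coeff_natDegree]
      exact leadingCoeff_ne_zero.2 hN
  · rintro ⟨h0, h1⟩
    have h2 : hgt N M ≤ N.natDegree := le_natDegree_of_ne_zero h1
    have h3 : N.natDegree ≤ hgt N M := le_max_left _ _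
    have h4 : M.natDegree ≤ hgt N M := le_max_right _ _
    have h5 : hgt N M = N.natDegree := le_antisymm h2 h3
    have hN : N ≠ 0 := by
      intro h6
      rw [h6, coeff_zero] at h1
      exact h1 rfl
    rw [degree_eq_natDegree hN, degree_lt_iff_coeff_zero]
    intro j hj
    rcases hj.lt_or_eq with h6 | h6
    · exact coeff_eq_zero_of_natDegree_lt (by omega)
    · rw [← h6, ← h5]
      exact h0

theorem Pted.of_rep {P : Pt q t s} {N M : K[X]} (hP : Pted P) (h : Rep P N M) :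
    M.degree < N.degree := by
  obtain ⟨N', M', h1, h2⟩ := hP
  obtain ⟨c, hc, rfl, rfl⟩ := rep_unique h1 h
  rw [degree_C_mul hc, degree_C_mul hc]
  exact h2

theorem pted_zero : Pted (0 : Pt q t s) := by
  refine ⟨1, 0, rep_zero, ?_⟩
  rw [degree_zero, degree_one]
  exact WithBot.bot_lt_coe 0

theorem pted_add (h4 : 4 * q = 1) (hs : s ≠ 0) (h27 : 27 * s ≠ 1) {P Q : Pt q t s}
    (hP : Pted P) (hQ : Pted Q) : Pted (P + Q) ∧ Pted (P - Q) := by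
  obtain ⟨N₁, M₁, h₁, d₁⟩ := hP
  obtain ⟨N₂, M₂, h₂, d₂⟩ := hQ
  obtain ⟨N₃, M₃, h₃⟩ := rep_exists (P + Q)
  obtain ⟨N₄, M₄, h₄⟩ := rep_exists (P - Q)
  obtain ⟨lam, hl, hL⟩ := law_poly h4 hs h27 h₁ h₂ h₃ h₄
  have hL' := hgt_lead hs h27 hl (rep_ne h₁) (rep_ne h₂) (rep_ne h₃) (rep_ne h₄) hL
  obtain ⟨m₁, n₁⟩ := Pted_iff.1 d₁
  obtain ⟨m₂, n₂⟩ := Pted_iff.1 d₂
  rw [m₁, m₂] at hL'
  obtain ⟨e0, e1, e2⟩ := hL'
  obtain ⟨a₁, ha₁⟩ : ∃ a, a = N₁.coeff (hgt N₁ M₁) := ⟨_, rfl⟩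
  obtain ⟨a₂, ha₂⟩ : ∃ a, a = N₂.coeff (hgt N₂ M₂) := ⟨_, rfl⟩
  obtain ⟨a₃, ha₃⟩ : ∃ a, a = N₃.coeff (hgt N₃ M₃) := ⟨_, rfl⟩
  obtain ⟨a₄, ha₄⟩ : ∃ a, a = N₄.coeff (hgt N₄ M₄) := ⟨_, rfl⟩
  obtain ⟨b₃, hb₃⟩ : ∃ a, a = M₃.coeff (hgt N₃ M₃) := ⟨_, rfl⟩
  obtain ⟨b₄, hb₄⟩ : ∃ a, a = M₄.coeff (hgt N₄ M₄) := ⟨_, rfl⟩
  rw [← ha₁] at n₁
  rw [← ha₂] at n₂
  rw [← ha₁, ← ha₂, ← ha₃, ← ha₄] at e0
  rw [← ha₁, ← ha₂, ← ha₃, ← ha₄, ← hb₃, ← hb₄] at e1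
  rw [← ha₁, ← ha₂, ← hb₃, ← hb₄] at e2
  have e0' : lam * (a₃ * a₄) = (a₁ * a₂) ^ 2 := by
    rw [← e0]
    unfold F0
    ring
  have e1' : lam * (a₃ * b₄ + b₃ * a₄) = 0 := by
    rw [← e1]
    unfold F1
    ring
  have e2' : lam * (b₃ * b₄) = 0 := by
    rw [← e2]
    unfold F2
    ring
  have h34 : a₃ * a₄ ≠ 0 := by
    intro h0
    rw [h0, mul_zero] at e0'
    exact pow_ne_zero 2 (mul_ne_zero n₁ n₂) e0'.symm
  have h3 : a₃ ≠ 0 := left_ne_zero_of_mul h34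
  have h4' : a₄ ≠ 0 := right_ne_zero_of_mul h34
  have e1'' : a₃ * b₄ + b₃ * a₄ = 0 := (mul_eq_zero.1 e1').resolve_left hl
  have e2'' : b₃ * b₄ = 0 := (mul_eq_zero.1 e2').resolve_left hl
  have hb : b₃ = 0 ∧ b₄ = 0 := by
    rcases mul_eq_zero.1 e2'' with h0 | h0
    · rw [h0, zero_mul, add_zero] at e1''
      exact ⟨h0, (mul_eq_zero.1 e1'').resolve_left h3⟩
    · rw [h0, mul_zero, zero_add] at e1''
      exact ⟨(mul_eq_zero.1 e1'').resolve_right h4', h0⟩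
  refine ⟨⟨N₃, M₃, h₃, Pted_iff.2 ⟨?_, ?_⟩⟩, ⟨N₄, M₄, h₄, Pted_iff.2 ⟨?_, ?_⟩⟩⟩
  · rw [← hb₃]
    exact hb.1
  · rw [← ha₃]
    exact h3
  · rw [← hb₄]
    exact hb.2
  · rw [← ha₄]
    exact h4'

theorem pted_comb (h4 : 4 * q = 1) (hs : s ≠ 0) (h27 : 27 * s ≠ 1) {P Q : Pt q t s}
    (hP : Pted P) (hQ : Pted Q) (a b : ℤ) : Pted (a • P + b • Q) := by
  have key : ∀ (R : Pt q t s), Pted R → ∀ n : ℤ, Pted (n • R) := by
    intro R hR n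
    induction n using Int.induction_on with
    | zero =>
      rw [zero_zsmul]
      exact pted_zero
    | succ n ih =>
      rw [add_zsmul, one_zsmul]
      exact (pted_add h4 hs h27 ih hR).1
    | pred n ih =>
      rw [sub_zsmul, one_zsmul]
      exact (pted_add h4 hs h27 ih hR).2
  exact (pted_add h4 hs h27 (key P hP a) (key Q hQ b)).1

end Pool.Agent.MP_2a5e5c_nt
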