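import Pool.Agent.Lib.MP_2a5e5c_nt.Defs

/-!
# SUN, module LawF: sum and difference law over a field

PROOF. `W = TC q s f` is `y² = g(x) := x³ + q f x² + 2 q s f² x + q s² f³`, `a₁ = a₃ = 0`,
`negY x y = -y`. `4 q = 1` so `2 ≠ 0` and `q ≠ 0`. `URep P n m` says `(f n : m) = x(P)`.
By scaling it is enough to treat one representative of each point, i.e. `(n, m) = (1, 0)` for
`0` and `(x / f, 1)` for `(x, y)` (if `(n, m) = c (n₀, m₀)`, `c ≠ 0`, then the relation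
for the scaled data holds with `lam` multiplied by `(c₁ c₂)² / (c₃ c₄)`). Cases:
* `P = 0`: `P + Q = Q`, `P - Q = -Q`; `F = (n₂², 2 n₂ m₂, m₂²)` and the right side is the
  same up to a factor. `Q = 0` likewise.
* `P = (x₁, y₁)`, `Q = (x₂, y₂)`, `x₁ ≠ x₂`: `x(P ± Q) = ((y₁ ∓ y₂)/(x₁ - x₂))² - q f - x₁ - x₂`
  (`addX`, `slope_of_X_ne`), `field_simp`, use `yᵢ² = g(xᵢ)` (`linear_combination`).
  `lam` is `(x₁ - x₂)² / f²`.
* `x₁ = x₂`: then `Q = ± P` (`X_eq_iff`). By symmetry (`x(-Q) = x(Q)`, exchange of the last two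
  pairs) take `Q = P`: `P - P = 0` and if `y₁ ≠ 0`, `x(2P) = (g'(x₁)/(2y₁))² - q f - 2 x₁`
  (`add_self_of_Y_ne`, `slope_of_Y_ne`), `lam` is a multiple of `4 y₁²`; if `y₁ = 0`, `2P = 0`
  and `g(x₁) = 0`, so `F1 = F2 = 0`, `F0` is a multiple of `g'(x₁)² ≠ 0` (nonsingular point).
Here in terms of `U = x / f`: `F0(U², 2U, 1) = U⁴ - s U² - 2 s² U`,
`F1(U², 2U, 1) = 4 U³ + (U + s)²`, `F2(U², 2U, 1) = 0`.
-/

namespace Pool.Agent.MP_2a5e5c_nt

/-- `(f n : m)` represents the x-coordinate of `P`. -/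
def URep {F : Type*} [Field F] {q s f : F} (P : (TC q s f).toAffine.Point) (n m : F) : Prop :=
  (P = 0 ∧ m = 0 ∧ n ≠ 0) ∨
    ∃ x y, ∃ h : (TC q s f).toAffine.Nonsingular x y, P = .some x y h ∧ m ≠ 0 ∧ x * m = f * n

section

variable {F : Type*} [Field F] {q s f : F}

private theorem LawF_uniq (hf : f ≠ 0) {P : (TC q s f).toAffine.Point} {n m n' m' : F}
    (h : URep P n m) (h' : URep P n' m') : ∃ c : F, c ≠ 0 ∧ n' = c * n ∧ m' = c * m := by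
  rcases h with ⟨h0, hm, hn⟩ | ⟨x, y, h, hP, hm, hx⟩
  · rcases h' with ⟨h0', hm', hn'⟩ | ⟨x', y', h', hP', hm', hx'⟩
    · exact ⟨n' / n, div_ne_zero hn' hn, by field_simp, by rw [hm, hm', mul_zero]⟩
    · exact absurd (hP'.symm.trans h0) (WeierstrassCurve.Affine.Point.some_ne_zero h')
  · rcases h' with ⟨h0', hm', hn'⟩ | ⟨x', y', h', hP', hm', hx'⟩
    · exact absurd (hP.symm.trans h0') (WeierstrassCurve.Affine.Point.some_ne_zero h)
    · rw [hP] at hP'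
      have hxx : x = x' := by injection hP'
      subst hxx
      refine ⟨m' / m, div_ne_zero hm' hm, mul_left_cancel₀ hf ?_, by field_simp⟩
      have e : m' / m * m = m' := by field_simp
      linear_combination (m' / m) * hx - hx' - x * e

private theorem LawF_zero : URep (0 : (TC q s f).toAffine.Point) (1 : F) 0 :=
  Or.inl ⟨rfl, rfl, one_ne_zero⟩

private theorem LawF_some (hf : f ≠ 0) {x y : F} (h : (TC q s f).toAffine.Nonsingular x y) :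
    URep (.some x y h) x f := Or.inr ⟨x, y, h, rfl, hf, by ring⟩

private theorem LawF_neg {P : (TC q s f).toAffine.Point} {n m : F}
    (h : URep P n m) : URep (-P) n m := by
  rcases h with ⟨h0, hm, hn⟩ | ⟨x, y, h, hP, hm, hx⟩
  · exact Or.inl ⟨by rw [h0]; exact WeierstrassCurve.Affine.Point.neg_zero, hm, hn⟩
  · refine Or.inr ⟨x, _, (WeierstrassCurve.Affine.nonsingular_neg ..).2 h, ?_, hm, hx⟩
    rw [hP]
    exact WeierstrassCurve.Affine.Point.neg_some h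

private theorem LawF_exists (hf : f ≠ 0) (P : (TC q s f).toAffine.Point) :
    ∃ n m : F, URep P n m ∧ (n ≠ 0 ∨ m ≠ 0) := by
  rcases P with _ | ⟨x, y, h⟩
  · exact ⟨1, 0, LawF_zero, Or.inl one_ne_zero⟩
  · exact ⟨x, f, LawF_some hf h, Or.inr hf⟩

private theorem LawF_scale {lam n₁ m₁ n₂ m₂ n₃ m₃ n₄ m₄ c₁ c₂ c₃ c₄ : F} (hl : lam ≠ 0)
    (h₁ : c₁ ≠ 0) (h₂ : c₂ ≠ 0) (h₃ : c₃ ≠ 0) (h₄ : c₄ ≠ 0)
    (h : LawRel s lam n₁ m₁ n₂ m₂ n₃ m₃ n₄ m₄) :
    ∃ lam' : F, lam' ≠ 0 ∧ LawRel s lam' (c₁ * n₁) (c₁ * m₁) (c₂ * n₂) (c₂ * m₂)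
      (c₃ * n₃) (c₃ * m₃) (c₄ * n₄) (c₄ * m₄) := by
  obtain ⟨e, he⟩ : ∃ e : F, e * (c₃ * c₄) = 1 :=
    ⟨(c₃ * c₄)⁻¹, inv_mul_cancel₀ (mul_ne_zero h₃ h₄)⟩
  have he0 : e ≠ 0 := fun h0 => by
    rw [h0, zero_mul] at he
    exact zero_ne_one he
  obtain ⟨a, b, c⟩ := h
  unfold F0 at a
  unfold F1 at b
  unfold F2 at c
  refine ⟨lam * (c₁ * c₂) ^ 2 * e, mul_ne_zero (mul_ne_zero hl
    (pow_ne_zero 2 (mul_ne_zero h₁ h₂))) he0, ?_, ?_, ?_⟩
  · unfold F0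
    linear_combination (c₁ * c₂) ^ 2 * a - lam * (c₁ * c₂) ^ 2 * (n₃ * n₄) * he
  · unfold F1
    linear_combination (c₁ * c₂) ^ 2 * b - lam * (c₁ * c₂) ^ 2 * (n₃ * m₄ + m₃ * n₄) * he
  · unfold F2
    linear_combination (c₁ * c₂) ^ 2 * c - lam * (c₁ * c₂) ^ 2 * (m₃ * m₄) * he

/-- the generic case -/
private theorem LawF_gen (h4 : 4 * q = 1) {x₁ x₂ y₁ y₂ t t' : F}
    (hy₁ : y₁ ^ 2 = x₁ ^ 3 + q * f * x₁ ^ 2 + 2 * q * s * f ^ 2 * x₁ + q * s ^ 2 * f ^ 3)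
    (hy₂ : y₂ ^ 2 = x₂ ^ 3 + q * f * x₂ ^ 2 + 2 * q * s * f ^ 2 * x₂ + q * s ^ 2 * f ^ 3)
    (hx : x₁ ≠ x₂) (ht : t * (x₁ - x₂) = y₁ - y₂) (ht' : t' * (x₁ - x₂) = y₁ + y₂) :
    LawRel s ((x₁ - x₂) ^ 2) x₁ f x₂ f (t ^ 2 - q * f - x₁ - x₂) f
      (t' ^ 2 - q * f - x₁ - x₂) f := by
  have hd : x₁ - x₂ ≠ 0 := sub_ne_zero.2 hx
  have hA : t * t' * (x₁ - x₂) =
      x₁ ^ 2 + x₁ * x₂ + x₂ ^ 2 + q * f * (x₁ + x₂) + 2 * q * s * f ^ 2 := by
    refine mul_right_cancel₀ hd ?_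
    linear_combination (t' * (x₁ - x₂)) * ht + (y₁ - y₂) * ht' + hy₁ - hy₂
  have hB : (t ^ 2 + t' ^ 2) * (x₁ - x₂) ^ 2 =
      2 * (x₁ ^ 3 + q * f * x₁ ^ 2 + 2 * q * s * f ^ 2 * x₁ + q * s ^ 2 * f ^ 3) +
      2 * (x₂ ^ 3 + q * f * x₂ ^ 2 + 2 * q * s * f ^ 2 * x₂ + q * s ^ 2 * f ^ 3) := by
    linear_combination (t * (x₁ - x₂) + (y₁ - y₂)) * ht + (t' * (x₁ - x₂) + (y₁ + y₂)) * ht' +
      2 * hy₁ + 2 * hy₂
  refine ⟨?_, ?_, ?_⟩
  · unfold F0
    linear_combination (q * f + x₁ + x₂) * hB -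
      (t * t' * (x₁ - x₂) + (x₁ ^ 2 + x₁ * x₂ + x₂ ^ 2 + q * f * (x₁ + x₂) +
        2 * q * s * f ^ 2)) * hA + (s * x₁ * x₂ * f ^ 2 + s ^ 2 * (x₁ + x₂) * f ^ 3) * h4
  · unfold F1
    linear_combination (-f) * hB - f ^ 2 * (x₁ + s * f) * (x₂ + s * f) * h4
  · unfold F2
    ring

/-- the case of a double point -/
private theorem LawF_dbl (h4 : 4 * q = 1) {x y t : F}
    (hy : y ^ 2 = x ^ 3 + q * f * x ^ 2 + 2 * q * s * f ^ 2 * x + q * s ^ 2 * f ^ 3)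
    (ht : t * (2 * y) = 3 * x ^ 2 + 2 * (q * f) * x + 2 * q * s * f ^ 2) :
    LawRel s (4 * y ^ 2) x f x f (t ^ 2 - q * f - x - x) f 1 0 := by
  refine ⟨?_, ?_, ?_⟩
  · unfold F0
    linear_combination (-(t * (2 * y) + (3 * x ^ 2 + 2 * (q * f) * x + 2 * q * s * f ^ 2))) * ht +
      4 * (q * f + 2 * x) * hy + (s * x ^ 2 * f ^ 2 + 2 * s ^ 2 * x * f ^ 3) * h4
  · unfold F1
    linear_combination (-4 * f) * hy - f ^ 2 * (x + s * f) ^ 2 * h4
  · unfold F2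
    ring

/-- the case of a point of order two -/
private theorem LawF_two (h4 : 4 * q = 1) {x : F}
    (hy : 0 = x ^ 3 + q * f * x ^ 2 + 2 * q * s * f ^ 2 * x + q * s ^ 2 * f ^ 3) :
    LawRel s ((3 * x ^ 2 + 2 * (q * f) * x + 2 * q * s * f ^ 2) ^ 2) x f x f 1 0 1 0 := by
  refine ⟨?_, ?_, ?_⟩
  · unfold F0
    linear_combination
      4 * (q * f + 2 * x) * hy + (s * x ^ 2 * f ^ 2 + 2 * s ^ 2 * x * f ^ 3) * h4
  · unfold F1
    linear_combination (-4 * f) * hy - f ^ 2 * (x + s * f) ^ 2 * h4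
  · unfold F2
    ring

private theorem LawF_swap {lam n₁ m₁ n₂ m₂ n₃ m₃ n₄ m₄ : F}
    (h : LawRel s lam n₁ m₁ n₂ m₂ n₃ m₃ n₄ m₄) : LawRel s lam n₁ m₁ n₂ m₂ n₄ m₄ n₃ m₃ := by
  obtain ⟨a, b, c⟩ := h
  refine ⟨?_, ?_, ?_⟩
  · rw [a]
    ring
  · rw [b]
    ring
  · rw [c]
    ring

private theorem LawF_two_ne (h4 : 4 * q = 1) : (2 : F) ≠ 0 := by
  intro h
  have h1 : (4 : F) = 2 * 2 := by norm_num
  rw [h1, h, zero_mul, zero_mul] at h4
  exact zero_ne_one h4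

private theorem LawF_eq {x y : F} (h : (TC q s f).toAffine.Nonsingular x y) :
    y ^ 2 = x ^ 3 + q * f * x ^ 2 + 2 * q * s * f ^ 2 * x + q * s ^ 2 * f ^ 3 := by
  have h1 := (WeierstrassCurve.Affine.equation_iff _ _).1 h.1
  simp only [TC, WeierstrassCurve.toAffine] at h1
  linear_combination h1

variable [DecidableEq F]

/-- the doubling of a point, in all cases -/
private theorem LawF_self (h4 : 4 * q = 1) (hf : f ≠ 0) {x y : F}
    (h : (TC q s f).toAffine.Nonsingular x y) :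
    ∃ lam n₃ m₃ n₄ m₄ : F, lam ≠ 0 ∧
      URep ((.some x y h : (TC q s f).toAffine.Point) + .some x y h) n₃ m₃ ∧
      URep ((.some x y h : (TC q s f).toAffine.Point) - .some x y h) n₄ m₄ ∧
      LawRel s lam x f x f n₃ m₃ n₄ m₄ := by
  have h2 : (2 : F) ≠ 0 := LawF_two_ne h4
  have hneg : (TC q s f).toAffine.negY x y = - y := by
    simp only [WeierstrassCurve.Affine.negY, TC, WeierstrassCurve.toAffine]
    ring
  by_cases hy : y = 0
  · have hs : (.some x y h : (TC q s f).toAffine.Point) + .some x y h = 0 :=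
      WeierstrassCurve.Affine.Point.add_self_of_Y_eq (by rw [hneg, hy, _root_.neg_zero])
    refine ⟨(3 * x ^ 2 + 2 * (q * f) * x + 2 * q * s * f ^ 2) ^ 2, 1, 0, 1, 0, ?_, ?_, ?_, ?_⟩
    · refine pow_ne_zero 2 (fun h0 => ?_)
      have h1 := ((WeierstrassCurve.Affine.nonsingular_iff' _ _).1 h).2
      simp only [TC, WeierstrassCurve.toAffine] at h1
      rcases h1 with h1 | h1
      · exact h1 (by linear_combination (-1 : F) * h0)
      · exact h1 (by linear_combination (2 : F) * hy)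
    · rw [hs]
      exact LawF_zero
    · rw [sub_self]
      exact LawF_zero
    · have h1 := LawF_eq h
      rw [hy, zero_pow two_ne_zero] at h1
      exact LawF_two h4 h1
  · have hne : y ≠ (TC q s f).toAffine.negY x y := by
      rw [hneg]
      intro h0
      have h1 : 2 * y = 0 := by linear_combination h0
      exact (mul_ne_zero h2 hy) h1
    have h5 : (TC q s f).toAffine.addX x x ((TC q s f).toAffine.slope x x y y) =
        ((TC q s f).toAffine.slope x x y y) ^ 2 - q * f - x - x := by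
      simp only [WeierstrassCurve.Affine.addX, TC, WeierstrassCurve.toAffine]
      ring
    refine ⟨4 * y ^ 2, ((TC q s f).toAffine.slope x x y y) ^ 2 - q * f - x - x, f, 1, 0,
      ?_, ?_, ?_, ?_⟩
    · have h1 : (4 : F) * y ^ 2 = (2 * y) ^ 2 := by ring
      rw [h1]
      exact pow_ne_zero 2 (mul_ne_zero h2 hy)
    · rw [WeierstrassCurve.Affine.Point.add_self_of_Y_ne hne, ← h5]
      exact LawF_some hf _
    · rw [sub_self]
      exact LawF_zero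
    · refine LawF_dbl h4 (LawF_eq h) ?_
      rw [WeierstrassCurve.Affine.slope_of_Y_ne rfl hne, hneg]
      simp only [TC, WeierstrassCurve.toAffine]
      have h3 : y - -y = 2 * y := by ring
      rw [h3, div_mul_cancel₀ _ (mul_ne_zero h2 hy)]
      ring

end

theorem law_field {F : Type*} [Field F] [DecidableEq F] {q s f : F} (h4 : 4 * q = 1)
    (hf : f ≠ 0) (P Q : (TC q s f).toAffine.Point) {n₁ m₁ n₂ m₂ n₃ m₃ n₄ m₄ : F}
    (h₁ : URep P n₁ m₁) (h₂ : URep Q n₂ m₂) (h₃ : URep (P + Q) n₃ m₃)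
    (h₄ : URep (P - Q) n₄ m₄) :
    ∃ lam : F, lam ≠ 0 ∧ LawRel s lam n₁ m₁ n₂ m₂ n₃ m₃ n₄ m₄ := by
  suffices H : ∃ lam a₁ b₁ a₂ b₂ a₃ b₃ a₄ b₄ : F, lam ≠ 0 ∧ URep P a₁ b₁ ∧ URep Q a₂ b₂ ∧
      URep (P + Q) a₃ b₃ ∧ URep (P - Q) a₄ b₄ ∧ LawRel s lam a₁ b₁ a₂ b₂ a₃ b₃ a₄ b₄ by
    obtain ⟨lam, a₁, b₁, a₂, b₂, a₃, b₃, a₄, b₄, hl, k₁, k₂, k₃, k₄, hL⟩ := H
    obtain ⟨c₁, hc₁, e₁, e₁'⟩ := LawF_uniq hf k₁ h₁
    obtain ⟨c₂, hc₂, e₂, e₂'⟩ := LawF_uniq hf k₂ h₂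
    obtain ⟨c₃, hc₃, e₃, e₃'⟩ := LawF_uniq hf k₃ h₃
    obtain ⟨c₄, hc₄, e₄, e₄'⟩ := LawF_uniq hf k₄ h₄
    rw [e₁, e₁', e₂, e₂', e₃, e₃', e₄, e₄']
    exact LawF_scale hl hc₁ hc₂ hc₃ hc₄ hL
  rcases P with _ | ⟨x₁, y₁, g₁⟩
  · obtain ⟨n, m, hr, -⟩ := LawF_exists hf Q
    refine ⟨1, 1, 0, n, m, n, m, n, m, one_ne_zero, LawF_zero, hr, ?_, ?_, ?_, ?_, ?_⟩
    · change URep (0 + Q) n m
      rw [zero_add]
      exact hr
    · change URep (0 - Q) n m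
      rw [zero_sub]
      exact LawF_neg hr
    · unfold F0
      ring
    · unfold F1
      ring
    · unfold F2
      ring
  · rcases Q with _ | ⟨x₂, y₂, g₂⟩
    · refine ⟨1, x₁, f, 1, 0, x₁, f, x₁, f, one_ne_zero, LawF_some hf g₁, LawF_zero, ?_, ?_,
        ?_, ?_, ?_⟩
      · change URep (.some x₁ y₁ g₁ + (0 : (TC q s f).toAffine.Point)) x₁ f
        rw [add_zero]
        exact LawF_some hf g₁
      · change URep (.some x₁ y₁ g₁ - (0 : (TC q s f).toAffine.Point)) x₁ f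
        rw [sub_zero]
        exact LawF_some hf g₁
      · unfold F0
        ring
      · unfold F1
        ring
      · unfold F2
        ring
    · by_cases hx : x₁ = x₂
      · rcases WeierstrassCurve.Affine.Point.X_eq_iff (h₁ := g₁) (h₂ := g₂).1 hx with hPQ | hPQ
        · rw [← hPQ]
          obtain ⟨lam, n₃, m₃, n₄, m₄, hl, k₃, k₄, hL⟩ := LawF_self h4 hf g₁
          exact ⟨lam, x₁, f, x₁, f, n₃, m₃, n₄, m₄, hl, LawF_some hf g₁, LawF_some hf g₁, k₃,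
            k₄, hL⟩
        · rw [hPQ]
          obtain ⟨lam, n₃, m₃, n₄, m₄, hl, k₃, k₄, hL⟩ := LawF_self h4 hf g₂
          refine ⟨lam, x₂, f, x₂, f, n₄, m₄, n₃, m₃, hl, LawF_neg (LawF_some hf g₂),
            LawF_some hf g₂, ?_, ?_, LawF_swap hL⟩
          · rw [neg_add_eq_sub]
            exact k₄
          · rw [← neg_add']
            exact LawF_neg k₃
      · have hn : -(.some x₂ y₂ g₂ : (TC q s f).toAffine.Point) =
            .some x₂ ((TC q s f).toAffine.negY x₂ y₂)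
              ((WeierstrassCurve.Affine.nonsingular_neg ..).2 g₂) :=
          WeierstrassCurve.Affine.Point.neg_some g₂
        have hd : x₁ - x₂ ≠ 0 := sub_ne_zero.2 hx
        have hneg : (TC q s f).toAffine.negY x₂ y₂ = - y₂ := by
          simp only [WeierstrassCurve.Affine.negY, TC, WeierstrassCurve.toAffine]
          ring
        have hX : ∀ t : F, (TC q s f).toAffine.addX x₁ x₂ t = t ^ 2 - q * f - x₁ - x₂ := by
          intro t
          simp only [WeierstrassCurve.Affine.addX, TC, WeierstrassCurve.toAffine]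
          ring
        refine ⟨(x₁ - x₂) ^ 2, x₁, f, x₂, f,
          ((TC q s f).toAffine.slope x₁ x₂ y₁ y₂) ^ 2 - q * f - x₁ - x₂, f,
          ((TC q s f).toAffine.slope x₁ x₂ y₁ ((TC q s f).toAffine.negY x₂ y₂)) ^ 2 - q * f -
            x₁ - x₂, f, pow_ne_zero 2 hd, LawF_some hf g₁,
          LawF_some hf g₂, ?_, ?_, LawF_gen h4 (LawF_eq g₁) (LawF_eq g₂) hx ?_ ?_⟩
        · rw [WeierstrassCurve.Affine.Point.add_of_X_ne hx, ← hX]
          exact LawF_some hf _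
        · rw [sub_eq_add_neg, hn, WeierstrassCurve.Affine.Point.add_of_X_ne hx, ← hX]
          exact LawF_some hf _
        · rw [WeierstrassCurve.Affine.slope_of_X_ne hx, div_mul_cancel₀ _ hd]
        · rw [WeierstrassCurve.Affine.slope_of_X_ne hx, div_mul_cancel₀ _ hd, hneg,
            sub_neg_eq_add]

end Pool.Agent.MP_2a5e5c_nt
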