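import Pool.Agent.Lib.MP_2a5e5c_nt.Cert
import Pool.Agent.Lib.MP_2a5e5c_nt.LawF
import Pool.Agent.Lib.MP_2a5e5c_nt.RepB

/-!
# SUN, module LawP: sum and difference law for polynomial representatives

PROOF. Let `ι : K[X] → K(X)`. Each `Rep` gives `URep P (ι N) (ι M)` for the field `K(X)`
(with `q, s, f` the images of `C q, C s, fC q t`, `f ≠ 0`; `TX` is by definition this `TC`).
`law_field` gives `lam ∈ K(X)`, `lam ≠ 0`, with `LawRel (ι (C s)) lam (ι N₁) …`. Put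
`x = N₁N₂, y = N₁M₂ + M₁N₂, z = M₁M₂` and `x', y', z'` for the second pair. The ideal `(x, y, z)`
of `K[X]` is everything: a prime `π` dividing the three divides (say) `N₁` and `M₂` (coprime
pairs!), then `y ≡ M₁ N₂` is not divisible by `π`. Same for `(x', y', z')`. By `cert` for the ring
`K[X]` and since `C (s³ - 27 s⁴)` is a unit, `(F0, F1, F2)(x, y, z)` also generates the unit
ideal. Write `lam = ι a / ι b` with `a, b` coprime: `b F_j = a (x', y', z')_j`; `a` divides all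
`F_j`, so `a` is a unit; `b` divides all of `x', y', z'`, so `b` is a unit. Hence
`lam = ι (C l)`, `l ≠ 0`, and the relation descends by injectivity of `ι`.
-/

namespace Pool.Agent.MP_2a5e5c_nt

open Polynomial

variable {K : Type*} [Field K] {q t s : K}

private theorem LawP_urep {P : Pt q t s} {N M : K[X]} (h : Rep P N M) :
    URep (q := algebraMap K[X] (RatFunc K) (C q)) (s := algebraMap K[X] (RatFunc K) (C s))
      (f := algebraMap K[X] (RatFunc K) (fC q t)) P (algebraMap K[X] (RatFunc K) N)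
      (algebraMap K[X] (RatFunc K) M) := by
  obtain ⟨hc, ⟨h0, hM⟩ | ⟨x, y, hn, hP, hM, hx⟩⟩ := h
  · left
    subst hM
    have hN : N ≠ 0 := by
      rintro rfl
      exact not_isCoprime_zero_zero hc
    exact ⟨h0, map_zero _, RatFunc.algebraMap_ne_zero hN⟩
  · right
    exact ⟨x, y, hn, hP, RatFunc.algebraMap_ne_zero hM, hx⟩

private theorem LawP_cop {p N M : K[X]} (hp : Prime p) (h : IsCoprime N M) (h1 : p ∣ N)
    (h2 : p ∣ M) : False :=
  hp.not_isUnit (h.isUnit_of_dvd' h1 h2)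

private theorem LawP_A {p N₁ M₁ N₂ M₂ : K[X]} (hp : Prime p) (h₁ : IsCoprime N₁ M₁)
    (h₂ : IsCoprime N₂ M₂) (hx : p ∣ N₁ * N₂) (hy : p ∣ N₁ * M₂ + M₁ * N₂)
    (hz : p ∣ M₁ * M₂) : False := by
  rcases hp.dvd_or_dvd hx with h | h
  · rcases hp.dvd_or_dvd hz with h' | h'
    · exact LawP_cop hp h₁ h h'
    · have h3 : p ∣ M₁ * N₂ := (dvd_add_right (h.mul_right M₂)).1 hy
      rcases hp.dvd_or_dvd h3 with h'' | h''
      · exact LawP_cop hp h₁ h h''
      · exact LawP_cop hp h₂ h'' h'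
  · rcases hp.dvd_or_dvd hz with h' | h'
    · have h3 : p ∣ N₁ * M₂ := (dvd_add_left (h.mul_left M₁)).1 hy
      rcases hp.dvd_or_dvd h3 with h'' | h''
      · exact LawP_cop hp h₁ h'' h'
      · exact LawP_cop hp h₂ h h''
    · exact LawP_cop hp h₂ h h'

private theorem LawP_B (hs : s ≠ 0) (h27 : 27 * s ≠ 1) {p x y z : K[X]} (hp : Prime p)
    (h0 : p ∣ F0 (C s) x y z) (h1 : p ∣ F1 (C s) x y z) (h2 : p ∣ F2 (C s) x y z) :
    p ∣ x ∧ p ∣ y ∧ p ∣ z := by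
  obtain ⟨a₀, a₁, a₂, b₀, b₁, b₂, c₀, c₁, c₂, ha, hb, hc⟩ := cert (C s) x y z
  have hu : IsUnit ((C s : K[X]) ^ 3 - 27 * C s ^ 4) := by
    have e : (C s : K[X]) ^ 3 - 27 * C s ^ 4 = C (s ^ 3 * (1 - 27 * s)) := by
      simp only [map_mul, map_sub, map_pow, map_one, map_ofNat]
      ring
    rw [e, isUnit_C, isUnit_iff_ne_zero]
    exact mul_ne_zero (pow_ne_zero 3 hs) (sub_ne_zero.2 (Ne.symm h27))
  have key : ∀ w u v r : K[X], ((C s : K[X]) ^ 3 - 27 * C s ^ 4) * w ^ 4 =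
      u * F0 (C s) x y z + v * F1 (C s) x y z + r * F2 (C s) x y z → p ∣ w := by
    intro w u v r h
    have h3 : p ∣ ((C s : K[X]) ^ 3 - 27 * C s ^ 4) * w ^ 4 := by
      rw [h]
      exact dvd_add (dvd_add (h0.mul_left u) (h1.mul_left v)) (h2.mul_left r)
    rw [hu.dvd_mul_left] at h3
    exact hp.dvd_of_dvd_pow h3
  exact ⟨key x _ _ _ ha, key y _ _ _ hb, key z _ _ _ hc⟩

theorem law_poly (h4 : 4 * q = 1) (hs : s ≠ 0) (h27 : 27 * s ≠ 1) {P Q : Pt q t s}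
    {N₁ M₁ N₂ M₂ N₃ M₃ N₄ M₄ : K[X]} (h₁ : Rep P N₁ M₁) (h₂ : Rep Q N₂ M₂)
    (h₃ : Rep (P + Q) N₃ M₃) (h₄ : Rep (P - Q) N₄ M₄) :
    ∃ lam : K, lam ≠ 0 ∧ LawRel (C s) (C lam) N₁ M₁ N₂ M₂ N₃ M₃ N₄ M₄ := by
  have hinj : Function.Injective (algebraMap K[X] (RatFunc K)) := RatFunc.algebraMap_injective K
  have h4' : 4 * algebraMap K[X] (RatFunc K) (C q) = 1 := by
    have h := congrArg (fun r => algebraMap K[X] (RatFunc K) (C r)) h4
    simpa only [map_mul, map_ofNat, map_one] using h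
  have hf : algebraMap K[X] (RatFunc K) (fC q t) ≠ 0 :=
    RatFunc.algebraMap_ne_zero (fC_monic q t).1.ne_zero
  obtain ⟨lam, hl0, e0, e1, e2⟩ := law_field h4' hf P Q (LawP_urep h₁) (LawP_urep h₂)
    (LawP_urep h₃) (LawP_urep h₄)
  obtain ⟨a, b, hb, hcop, rfl⟩ : ∃ a b : K[X], b ≠ 0 ∧ IsCoprime a b ∧
      lam = algebraMap K[X] (RatFunc K) a / algebraMap K[X] (RatFunc K) b :=
    ⟨lam.num, lam.denom, RatFunc.denom_ne_zero lam, RatFunc.isCoprime_num_denom lam,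
      (RatFunc.num_div_denom lam).symm⟩
  have hb' : algebraMap K[X] (RatFunc K) b ≠ 0 := RatFunc.algebraMap_ne_zero hb
  have ha : a ≠ 0 := by
    rintro rfl
    exact hl0 (by rw [map_zero, zero_div])
  have clear : ∀ u v : K[X], algebraMap K[X] (RatFunc K) u =
      algebraMap K[X] (RatFunc K) a / algebraMap K[X] (RatFunc K) b *
        algebraMap K[X] (RatFunc K) v → b * u = a * v := by
    intro u v h
    apply hinj
    rw [map_mul, map_mul, h]
    field_simp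
  have g0 := clear (F0 (C s) (N₁ * N₂) (N₁ * M₂ + M₁ * N₂) (M₁ * M₂)) (N₃ * N₄) (by
    simp only [F0, map_sub, map_mul, map_add, map_pow] at e0 ⊢
    exact e0)
  have g1 := clear (F1 (C s) (N₁ * N₂) (N₁ * M₂ + M₁ * N₂) (M₁ * M₂)) (N₃ * M₄ + M₃ * N₄) (by
    simp only [F1, map_mul, map_add, map_pow, map_ofNat] at e1 ⊢
    exact e1)
  have g2 := clear (F2 (C s) (N₁ * N₂) (N₁ * M₂ + M₁ * N₂) (M₁ * M₂)) (M₃ * M₄) (by
    simp only [F2, map_sub, map_mul, map_add, map_pow, map_ofNat] at e2 ⊢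
    exact e2)
  have hua : IsUnit a := by
    by_contra hna
    obtain ⟨p, hp, hpa⟩ := WfDvdMonoid.exists_irreducible_factor hna ha
    have hp' : Prime p := hp.prime
    have hpb : ¬ p ∣ b := fun h => LawP_cop hp' hcop hpa h
    have k : ∀ u v : K[X], b * u = a * v → p ∣ u := fun u v h =>
      (hp'.dvd_or_dvd (h ▸ hpa.mul_right v : p ∣ b * u)).resolve_left hpb
    obtain ⟨hx, hy, hz⟩ := LawP_B hs h27 hp' (k _ _ g0) (k _ _ g1) (k _ _ g2)
    exact LawP_A hp' h₁.1 h₂.1 hx hy hz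
  have hub : IsUnit b := by
    by_contra hnb
    obtain ⟨p, hp, hpb⟩ := WfDvdMonoid.exists_irreducible_factor hnb hb
    have hp' : Prime p := hp.prime
    have hpa : ¬ p ∣ a := fun h => LawP_cop hp' hcop h hpb
    have k : ∀ u v : K[X], b * u = a * v → p ∣ v := fun u v h =>
      (hp'.dvd_or_dvd (h ▸ hpb.mul_right u : p ∣ a * v)).resolve_left hpa
    exact LawP_A hp' h₃.1 h₄.1 (k _ _ g0) (k _ _ g1) (k _ _ g2)
  obtain ⟨a0, ha0, rfl⟩ := Polynomial.isUnit_iff.1 hua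
  obtain ⟨b0, hb0, rfl⟩ := Polynomial.isUnit_iff.1 hub
  have ha0' := ha0.ne_zero
  have hb0' := hb0.ne_zero
  have k : ∀ u v : K[X], C b0 * u = C a0 * v → u = C (b0⁻¹ * a0) * v := by
    intro u v h
    have h1 : C b0⁻¹ * (C b0 * u) = C b0⁻¹ * (C a0 * v) := by rw [h]
    rw [← mul_assoc, ← mul_assoc, ← C_mul, ← C_mul, inv_mul_cancel₀ hb0', C_1, one_mul] at h1
    exact h1
  exact ⟨b0⁻¹ * a0, mul_ne_zero (inv_ne_zero hb0') ha0', k _ _ g0, k _ _ g1, k _ _ g2⟩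

end Pool.Agent.MP_2a5e5c_nt
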