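import Pool.Agent.Lib.MP_2a5e5c_nt.HgtP

/-!
# SUN, module RedC: the height of a pair that need not be coprime

`RH n m d`: the pair `(n, m) = g (n₀, m₀)` with `n₀, m₀` coprime, `g ≠ 0`, and
`d = max (deg n₀) (deg m₀)`.

PROOF. `rh_exists`: `g = gcd n m` in the principal ideal domain `k[X]`
(`EuclideanDomain.gcd`, or `exists_gcd_eq_mul_add_mul` / `IsBezout`). `rh_unique`: `n₀ m₀' = n₀' m₀`
so the coprime pairs differ by a unit (constant). `rh_smul`: clear. `rh_coprime`: `g = 1`.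
`rh_par`: write `(nᵢ, mᵢ) = gᵢ (nᵢ⁰, mᵢ⁰)`. The law gives
`(g₁g₂)² F_j(x, y, z) = l g₃g₄ G_j` with `x = n₁⁰n₂⁰, …` and `G = (n₃⁰n₄⁰, …)`. The ideals
`(x, y, z)` and `(G₀, G₁, G₂)` are the unit ideal (a common prime factor `π` of `n₁n₂`, `m₁m₂`,
`n₁m₂ + m₁n₂` would divide `n₁` and `m₂`, say, and then `m₁ n₂`: contradiction to coprimality),
so by `cert` (`C (s³ - 27 s⁴)` is a unit) `(F₀, F₁, F₂)` is the unit ideal as well. Hence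
`(g₁g₂)²` and `g₃g₄` divide each other, `g₃g₄ = (g₁g₂)² C e`, and
`LawRel (C s) (C (l e)) n₁⁰ m₁⁰ …`: apply `hgt_par`. (The same unit ideal argument is in module
LawP.)
-/

namespace Pool.Agent.MP_2a5e5c_nt

open Polynomial

variable {k : Type*} [Field k]

/-- Height of a pair after division by the greatest common divisor. -/
def RH (n m : k[X]) (d : ℕ) : Prop :=
  ∃ g n₀ m₀ : k[X], g ≠ 0 ∧ n = g * n₀ ∧ m = g * m₀ ∧ IsCoprime n₀ m₀ ∧ hgt n₀ m₀ = d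

theorem rh_exists {n m : k[X]} (h : n ≠ 0 ∨ m ≠ 0) : ∃ d, RH n m d := by
  classical
  obtain ⟨n₀, hn⟩ := EuclideanDomain.gcd_dvd_left n m
  obtain ⟨m₀, hm⟩ := EuclideanDomain.gcd_dvd_right n m
  have hab := EuclideanDomain.gcd_eq_gcd_ab n m
  obtain ⟨g, hg⟩ : ∃ g, g = EuclideanDomain.gcd n m := ⟨_, rfl⟩
  obtain ⟨A, hA⟩ : ∃ A, A = EuclideanDomain.gcdA n m := ⟨_, rfl⟩
  obtain ⟨B, hB⟩ : ∃ B, B = EuclideanDomain.gcdB n m := ⟨_, rfl⟩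
  rw [← hg] at hn hm hab
  rw [← hA, ← hB] at hab
  have hg0 : g ≠ 0 := by
    rintro rfl
    rw [zero_mul] at hn hm
    rcases h with h | h
    · exact h hn
    · exact h hm
  refine ⟨_, g, n₀, m₀, hg0, hn, hm, ⟨A, B, ?_⟩, rfl⟩
  apply mul_left_cancel₀ hg0
  calc g * (A * n₀ + B * m₀) = (g * n₀) * A + (g * m₀) * B := by ring
    _ = g := by rw [← hn, ← hm]; exact hab.symm
    _ = g * 1 := (mul_one g).symm

private theorem RedC_dvd {g g' n₀ m₀ n₁ m₁ : k[X]} (h : IsCoprime n₀ m₀)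
    (hn : g * n₀ = g' * n₁) (hm : g * m₀ = g' * m₁) : g' ∣ g := by
  obtain ⟨u, v, huv⟩ := h
  refine ⟨u * n₁ + v * m₁, ?_⟩
  calc g = g * (u * n₀ + v * m₀) := by rw [huv, mul_one]
    _ = u * (g * n₀) + v * (g * m₀) := by ring
    _ = g' * (u * n₁ + v * m₁) := by rw [hn, hm]; ring

theorem rh_unique {n m : k[X]} {d e : ℕ} (hd : RH n m d) (he : RH n m e) : d = e := by
  obtain ⟨g, n₀, m₀, hg, hn, hm, hc, rfl⟩ := hd
  obtain ⟨g', n₁, m₁, hg', hn', hm', hc', rfl⟩ := he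
  have h1 : g' ∣ g := RedC_dvd hc (hn.symm.trans hn') (hm.symm.trans hm')
  have h2 : g ∣ g' := RedC_dvd hc' (hn'.symm.trans hn) (hm'.symm.trans hm)
  obtain ⟨u, hu⟩ := associated_of_dvd_dvd h1 h2
  obtain ⟨c, hc0, hcu⟩ := Polynomial.isUnit_iff.1 u.isUnit
  have hc0' : c ≠ 0 := hc0.ne_zero
  have e1 : n₁ = C c * n₀ := by
    apply mul_left_cancel₀ hg'
    rw [← hn', hn, ← hu, ← hcu]
    ring
  have e2 : m₁ = C c * m₀ := by
    apply mul_left_cancel₀ hg'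
    rw [← hm', hm, ← hu, ← hcu]
    ring
  unfold hgt
  rw [e1, e2, natDegree_C_mul hc0', natDegree_C_mul hc0']

theorem rh_smul {n m : k[X]} {d : ℕ} {c : k} (hc : c ≠ 0) (h : RH n m d) :
    RH (C c * n) (C c * m) d := by
  obtain ⟨g, n₀, m₀, hg, hn, hm, hco, hd⟩ := h
  refine ⟨C c * g, n₀, m₀, mul_ne_zero (C_ne_zero.2 hc) hg, ?_, ?_, hco, hd⟩
  · rw [hn, mul_assoc]
  · rw [hm, mul_assoc]

theorem rh_coprime {n m : k[X]} (h : IsCoprime n m) : RH n m (hgt n m) :=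
  ⟨1, n, m, one_ne_zero, (one_mul n).symm, (one_mul m).symm, h, rfl⟩

private theorem RedC_one {n₁ m₁ n₂ m₂ : k[X]} (h₁ : IsCoprime n₁ m₁) (h₂ : IsCoprime n₂ m₂) :
    ∃ a b c : k[X], a * (n₁ * n₂) + b * (n₁ * m₂ + m₁ * n₂) + c * (m₁ * m₂) = 1 := by
  obtain ⟨u, v, huv⟩ := h₂
  obtain ⟨c, d, hcd⟩ := (IsCoprime.pow_left (m := 2) (IsCoprime.pow_right (n := 2) h₁) :
    IsCoprime (n₁ ^ 2) (m₁ ^ 2))
  refine ⟨c * (u * n₁ - v * m₁), c * v * n₁ + d * u * m₁, d * (v * m₁ - u * n₁), ?_⟩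
  calc c * (u * n₁ - v * m₁) * (n₁ * n₂) + (c * v * n₁ + d * u * m₁) * (n₁ * m₂ + m₁ * n₂) +
        d * (v * m₁ - u * n₁) * (m₁ * m₂)
      = (u * n₂ + v * m₂) * (c * n₁ ^ 2 + d * m₁ ^ 2) := by ring
    _ = 1 := by rw [huv, hcd, one_mul]

private theorem RedC_F {s : k} (hs : s ≠ 0) (h27 : 27 * s ≠ 1) {x y z : k[X]}
    (h : ∃ a b c : k[X], a * x + b * y + c * z = 1) :
    ∃ a b c : k[X], a * F0 (C s) x y z + b * F1 (C s) x y z + c * F2 (C s) x y z = 1 := by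
  obtain ⟨J, hJ⟩ : ∃ J : Ideal k[X],
      J = Ideal.span {F0 (C s) x y z, F1 (C s) x y z, F2 (C s) x y z} := ⟨_, rfl⟩
  have m0 : F0 (C s) x y z ∈ J := by
    rw [hJ]
    exact Ideal.subset_span (Set.mem_insert _ _)
  have m1 : F1 (C s) x y z ∈ J := by
    rw [hJ]
    exact Ideal.subset_span (Set.mem_insert_of_mem _ (Set.mem_insert _ _))
  have m2 : F2 (C s) x y z ∈ J := by
    rw [hJ]
    exact Ideal.subset_span (Set.mem_insert_of_mem _ (Set.mem_insert_of_mem _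
      (Set.mem_singleton _)))
  have hu : IsUnit ((C s : k[X]) ^ 3 - 27 * C s ^ 4) := by
    have e : (C s : k[X]) ^ 3 - 27 * C s ^ 4 = C (s ^ 3 * (1 - 27 * s)) := by
      simp only [map_mul, map_sub, map_pow, map_one, map_ofNat]
      ring
    rw [e, isUnit_C, isUnit_iff_ne_zero]
    exact mul_ne_zero (pow_ne_zero 3 hs) (sub_ne_zero.2 (Ne.symm h27))
  have key : ∀ w u v r : k[X], ((C s : k[X]) ^ 3 - 27 * C s ^ 4) * w ^ 4 =
      u * F0 (C s) x y z + v * F1 (C s) x y z + r * F2 (C s) x y z → w ∈ J.radical := by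
    intro w u v r h
    refine ⟨4, ?_⟩
    rw [← Ideal.unit_mul_mem_iff_mem J hu, h]
    exact J.add_mem (J.add_mem (J.mul_mem_left u m0) (J.mul_mem_left v m1))
      (J.mul_mem_left r m2)
  obtain ⟨a₀, a₁, a₂, b₀, b₁, b₂, c₀, c₁, c₂, ha, hb, hc⟩ := cert (C s) x y z
  have hx := key x _ _ _ ha
  have hy := key y _ _ _ hb
  have hz := key z _ _ _ hc
  obtain ⟨a, b, c, habc⟩ := h
  have h1 : (1 : k[X]) ∈ J.radical := by
    rw [← habc]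
    exact Ideal.add_mem _ (Ideal.add_mem _ (Ideal.mul_mem_left _ a hx)
      (Ideal.mul_mem_left _ b hy)) (Ideal.mul_mem_left _ c hz)
  have h2 : J = ⊤ := Ideal.radical_eq_top.1 ((Ideal.eq_top_iff_one _).2 h1)
  have h3 : (1 : k[X]) ∈ Ideal.span {F0 (C s) x y z, F1 (C s) x y z, F2 (C s) x y z} := by
    rw [← hJ, h2]
    exact Submodule.mem_top
  rw [Ideal.mem_span_insert] at h3
  obtain ⟨a', w, hw, e1⟩ := h3
  rw [Ideal.mem_span_insert] at hw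
  obtain ⟨b', w', hw', e2⟩ := hw
  rw [Ideal.mem_span_singleton'] at hw'
  obtain ⟨c', e3⟩ := hw'
  refine ⟨a', b', c', ?_⟩
  rw [e1, e2, ← e3, add_assoc]

private theorem RedC_div {a b F G H F' G' H' : k[X]} (h0 : a * F = b * F') (h1 : a * G = b * G')
    (h2 : a * H = b * H') (h : ∃ u v w : k[X], u * F + v * G + w * H = 1) : b ∣ a := by
  obtain ⟨u, v, w, e⟩ := h
  refine ⟨u * F' + v * G' + w * H', ?_⟩
  calc a = a * (u * F + v * G + w * H) := by rw [e, mul_one]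
    _ = u * (a * F) + v * (a * G) + w * (a * H) := by ring
    _ = b * (u * F' + v * G' + w * H') := by rw [h0, h1, h2]; ring

private theorem RedC_ne {n m : k[X]} (h : IsCoprime n m) : n ≠ 0 ∨ m ≠ 0 := by
  by_contra hcon
  push Not at hcon
  rw [hcon.1, hcon.2] at h
  exact not_isCoprime_zero_zero h

theorem rh_par {s l : k} (hs : s ≠ 0) (h27 : 27 * s ≠ 1) (hl : l ≠ 0)
    {n₁ m₁ n₂ m₂ n₃ m₃ n₄ m₄ : k[X]} {d₁ d₂ d₃ d₄ : ℕ} (h₁ : RH n₁ m₁ d₁) (h₂ : RH n₂ m₂ d₂)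
    (h₃ : RH n₃ m₃ d₃) (h₄ : RH n₄ m₄ d₄)
    (h : LawRel (C s) (C l) n₁ m₁ n₂ m₂ n₃ m₃ n₄ m₄) : d₃ + d₄ = 2 * d₁ + 2 * d₂ := by
  obtain ⟨g₁, a₁, b₁, hg₁, rfl, rfl, hc₁, rfl⟩ := h₁
  obtain ⟨g₂, a₂, b₂, hg₂, rfl, rfl, hc₂, rfl⟩ := h₂
  obtain ⟨g₃, a₃, b₃, hg₃, rfl, rfl, hc₃, rfl⟩ := h₃
  obtain ⟨g₄, a₄, b₄, hg₄, rfl, rfl, hc₄, rfl⟩ := h₄
  obtain ⟨e0, e1, e2⟩ := h
  obtain ⟨a, ha⟩ : ∃ a, a = (g₁ * g₂) ^ 2 := ⟨_, rfl⟩
  obtain ⟨b, hb⟩ : ∃ b, b = C l * (g₃ * g₄) := ⟨_, rfl⟩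
  have f0 : a * F0 (C s) (a₁ * a₂) (a₁ * b₂ + b₁ * a₂) (b₁ * b₂) = b * (a₃ * a₄) := by
    rw [ha, hb]
    unfold F0 at e0 ⊢
    linear_combination e0
  have f1 : a * F1 (C s) (a₁ * a₂) (a₁ * b₂ + b₁ * a₂) (b₁ * b₂) =
      b * (a₃ * b₄ + b₃ * a₄) := by
    rw [ha, hb]
    unfold F1 at e1 ⊢
    linear_combination e1
  have f2 : a * F2 (C s) (a₁ * a₂) (a₁ * b₂ + b₁ * a₂) (b₁ * b₂) = b * (b₃ * b₄) := by
    rw [ha, hb]
    unfold F2 at e2 ⊢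
    linear_combination e2
  have hba : b ∣ a := RedC_div f0 f1 f2 (RedC_F hs h27 (RedC_one hc₁ hc₂))
  have hab : a ∣ b := RedC_div f0.symm f1.symm f2.symm (RedC_one hc₃ hc₄)
  have ha0 : a ≠ 0 := by
    rw [ha]
    exact pow_ne_zero 2 (mul_ne_zero hg₁ hg₂)
  obtain ⟨u, hu⟩ := associated_of_dvd_dvd hab hba
  obtain ⟨c, hc0, hcu⟩ := Polynomial.isUnit_iff.1 u.isUnit
  have hc0' : c ≠ 0 := hc0.ne_zero
  rw [← hcu] at hu
  refine hgt_par hs h27 hc0' (RedC_ne hc₁) (RedC_ne hc₂) (RedC_ne hc₃) (RedC_ne hc₄)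
    ⟨?_, ?_, ?_⟩
  · apply mul_left_cancel₀ ha0
    rw [f0, ← hu, mul_assoc]
  · apply mul_left_cancel₀ ha0
    rw [f1, ← hu, mul_assoc]
  · apply mul_left_cancel₀ ha0
    rw [f2, ← hu, mul_assoc]

end Pool.Agent.MP_2a5e5c_nt
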