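import Pool.Agent.Lib.MP_2a5e5c_nt.RedB
import Pool.Agent.Lib.MP_2a5e5c_nt.RedC
import Pool.Agent.Lib.MP_2a5e5c_nt.LawP
import Pool.Agent.Lib.MP_2a5e5c_nt.PIso

/-!
# SUN, module RedD: the height of the reduction of a point

The parameters are the images of `q, t, s ∈ R` in `K`.

PROOF. `hb P` is the number `d` with `RR red P n m` (reduction of a primitive integral
representative; it exists by `rep_exists`, `red_prim`, `rep_smul`) and `RH n m d`
(`rh_exists`). It does not depend on the choices: two representatives of `P` differ by a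
constant (`rep_unique`), their integral primitive multiples too, so `red_unique`, `rh_smul`,
`rh_unique`. `hb_zero`: `Rep 0 1 0`, height `0`. `hb_par`: `law_poly` for the chosen integral
representatives of `P, Q, P + Q, P - Q` (they are representatives: `rep_smul`),
`red_law`, `rh_par`. The conditions on `s` in `K` follow from those for `red s` (`s ≠ 0`, and
`27 s = 1` would give `27 red s = 1`; injectivity of `R → K`). `hb_piso`: `N, D ∈ R[X]` with
`PIso` over `R`; the reductions form a `PIso` over `k` (`PIso.map`), so they are coprime and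
`hgt (N.map red) (D.map red ^ 2) = d` (`2 deg D < d`).
-/

namespace Pool.Agent.MP_2a5e5c_nt

open Polynomial

variable {R k K : Type*} [CommRing R] [IsDomain R] [Field k] [Field K] [Algebra R K]
  [IsFractionRing R K] {ϖ : R} {red : R →+* k} {q t s : R}

/-- `(n, m)` is the reduction of a primitive integral representative of `P`. -/
def RR {q t s : K} (red : R →+* k) (P : Pt q t s) (n m : k[X]) : Prop :=
  ∃ N M : R[X], Rep P (N.map (algebraMap R K)) (M.map (algebraMap R K)) ∧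
    n = N.map red ∧ m = M.map red ∧ (n ≠ 0 ∨ m ≠ 0)

open Classical in
/-- The height of the reduction. -/
noncomputable def hb {q t s : K} (red : R →+* k) (P : Pt q t s) : ℕ :=
  if h : ∃ d, ∃ n m, RR red P n m ∧ RH n m d then h.choose else 0

theorem rr_exists {q t s : K} (hS : RedS ϖ red) (P : Pt q t s) : ∃ n m, RR red P n m := by
  obtain ⟨N, M, hr⟩ := rep_exists P
  obtain ⟨c, N₀, M₀, hc, h1, h2, h3⟩ := red_prim hS (rep_ne hr)
  refine ⟨N₀.map red, M₀.map red, N₀, M₀, ?_, rfl, rfl, h3⟩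
  rw [h1, h2]
  exact rep_smul hc hr

private theorem RedD_unique {q t s : K} (hS : RedS ϖ red) {P : Pt q t s} {n m n' m' : k[X]}
    (h : RR red P n m) (h' : RR red P n' m') : ∃ u : k, u ≠ 0 ∧ n' = C u * n ∧ m' = C u * m := by
  obtain ⟨N, M, h1, rfl, rfl, h2⟩ := h
  obtain ⟨N', M', h3, rfl, rfl, h4⟩ := h'
  obtain ⟨c, hc, e1, e2⟩ := rep_unique h1 h3
  exact red_unique hS hc e1 e2 h2 h4

theorem hb_eq {q t s : K} (hS : RedS ϖ red) {P : Pt q t s} {n m : k[X]} {d : ℕ}
    (h : RR red P n m) (hd : RH n m d) : hb red P = d := by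
  classical
  have h0 : ∃ d, ∃ n m, RR red P n m ∧ RH n m d := ⟨d, n, m, h, hd⟩
  have h1 : hb red P = h0.choose := by
    unfold hb
    exact dif_pos h0
  rw [h1]
  obtain ⟨n', m', h2, h3⟩ := h0.choose_spec
  obtain ⟨u, hu, e1, e2⟩ := RedD_unique hS h h2
  rw [e1, e2] at h3
  exact rh_unique h3 (rh_smul hu hd)

theorem hb_zero {q t s : K} (hS : RedS ϖ red) : hb red (0 : Pt q t s) = 0 := by
  refine hb_eq hS (n := 1) (m := 0) ⟨1, 0, ?_, ?_, ?_, Or.inl one_ne_zero⟩ ?_
  · rw [Polynomial.map_one, Polynomial.map_zero]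
    exact rep_zero
  · rw [Polynomial.map_one]
  · rw [Polynomial.map_zero]
  · have h1 := rh_coprime (n := (1 : k[X])) (m := 0) isCoprime_one_left
    have h2 : hgt (1 : k[X]) 0 = 0 := by
      unfold hgt
      rw [natDegree_one, natDegree_zero, max_self]
    rwa [h2] at h1

theorem hb_par (hS : RedS ϖ red) (h4 : 4 * q = 1) (hs : red s ≠ 0) (h27 : 27 * red s ≠ 1)
    (P Q : Pt (algebraMap R K q) (algebraMap R K t) (algebraMap R K s)) :
    hb red (P + Q) + hb red (P - Q) = 2 * hb red P + 2 * hb red Q := by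
  obtain ⟨n₁, m₁, r₁⟩ := rr_exists hS P
  obtain ⟨n₂, m₂, r₂⟩ := rr_exists hS Q
  obtain ⟨n₃, m₃, r₃⟩ := rr_exists hS (P + Q)
  obtain ⟨n₄, m₄, r₄⟩ := rr_exists hS (P - Q)
  have g₁ := r₁
  have g₂ := r₂
  have g₃ := r₃
  have g₄ := r₄
  obtain ⟨N₁, M₁, p₁, rfl, rfl, z₁⟩ := r₁
  obtain ⟨N₂, M₂, p₂, rfl, rfl, z₂⟩ := r₂
  obtain ⟨N₃, M₃, p₃, rfl, rfl, z₃⟩ := r₃
  obtain ⟨N₄, M₄, p₄, rfl, rfl, z₄⟩ := r₄
  have hinj := IsFractionRing.injective R K
  have h4' : 4 * algebraMap R K q = 1 := by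
    have h1 := congrArg (algebraMap R K) h4
    rwa [map_mul, map_ofNat, map_one] at h1
  have hs' : algebraMap R K s ≠ 0 := by
    intro h1
    have h2 : s = 0 := hinj (by rw [h1, map_zero])
    rw [h2, map_zero] at hs
    exact hs rfl
  have h27' : 27 * algebraMap R K s ≠ 1 := by
    intro h1
    have h2 : 27 * s = 1 := hinj (by rw [map_mul, map_ofNat, map_one, h1])
    have h3 := congrArg red h2
    rw [map_mul, map_ofNat, map_one] at h3
    exact h27 h3
  obtain ⟨lam, hl, hlaw⟩ := law_poly h4' hs' h27' p₁ p₂ p₃ p₄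
  obtain ⟨l, hl', hlaw'⟩ := red_law hS hs h27 hl z₁ z₂ z₃ z₄ hlaw
  obtain ⟨d₁, e₁⟩ := rh_exists z₁
  obtain ⟨d₂, e₂⟩ := rh_exists z₂
  obtain ⟨d₃, e₃⟩ := rh_exists z₃
  obtain ⟨d₄, e₄⟩ := rh_exists z₄
  rw [hb_eq hS g₁ e₁, hb_eq hS g₂ e₂, hb_eq hS g₃ e₃, hb_eq hS g₄ e₄]
  exact rh_par hs h27 hl' e₁ e₂ e₃ e₄ hlaw'

theorem hb_piso (hS : RedS ϖ red) {rho : R} {d : ℕ} {N D : R[X]} (h : PIso q t s rho d N D)
    {P : Pt (algebraMap R K q) (algebraMap R K t) (algebraMap R K s)}
    (hP : Rep P (N.map (algebraMap R K)) ((D ^ 2).map (algebraMap R K))) : hb red P = d := by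
  have h' := h.map red
  have hn : N.map red ≠ 0 := by
    intro h0
    have h1 := h'.lead
    rw [h0, coeff_zero] at h1
    exact not_isUnit_zero h1
  have hcop : IsCoprime (N.map red) ((D ^ 2).map red) := by
    rw [Polynomial.map_pow]
    exact h'.cop.pow_right
  refine hb_eq hS (n := N.map red) (m := (D ^ 2).map red) ⟨N, D ^ 2, hP, rfl, rfl, Or.inl hn⟩ ?_
  have h1 := rh_coprime hcop
  have h2 : hgt (N.map red) ((D ^ 2).map red) = d := by
    unfold hgt
    rw [Polynomial.map_pow, h'.degN]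
    refine max_eq_left (natDegree_pow_le.trans ?_)
    have := h'.degD
    omega
  rwa [h2] at h1

end Pool.Agent.MP_2a5e5c_nt
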