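import Pool.Agent.Lib.MP_2a5e5c_nt.LawP

/-!
# SUN, module Val0: values at `X = 0`

`SV P`: `x(P)/f` has a pole at `X = 0` (or `P = 0`). `ZV P`: `x(P)/f` vanishes at `X = 0`.

PROOF. Evaluate the relation of `law_poly` at `X = 0`: `LawRel s lam` for the vectors
`(Nᵢ(0), Mᵢ(0)) ≠ 0` (coprime polynomials have no common zero). `SV`: the vector is `(n, 0)`,
`ZV`: it is `(0, m)`.
* both `(n, 0)`: triple `(n₁n₂, 0, 0)`, `F = ((n₁n₂)², 0, 0)`, so `m₃ = m₄ = 0`.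
* `(n, 0)` and `(0, m)`: triple `(0, c, 0)`, `c ≠ 0`, `F = (0, 0, c²)`, so `n₃ = n₄ = 0`.
* both `(0, m)`: triple `(0, 0, c)`, `F = (0, s² c², 0)`: `n₃n₄ = 0 = m₃m₄`,
  `n₃m₄ + m₃n₄ ≠ 0`: one of the two vectors is `(n, 0)`, the other `(0, m)`.
Hence for `ZV B`: `2B` is `ZV` (`B - B = 0` is `SV` and not `ZV`), `2B + B`, `2B - B = B`: so
`3B` is `SV`. The `SV` points form a subgroup (`SV (P ± Q)`). `A` in it and `b = 3c + e`,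
`e ∈ {0, 1, -1}`: `a A + b B = (a A + 3c B) + e B`.
-/

namespace Pool.Agent.MP_2a5e5c_nt

open Polynomial

variable {K : Type*} [Field K] {q t s : K}

/-- Pole at `X = 0`. -/
def SV (P : Pt q t s) : Prop := ∃ N M : K[X], Rep P N M ∧ M.eval 0 = 0

/-- Zero at `X = 0`. -/
def ZV (P : Pt q t s) : Prop := ∃ N M : K[X], Rep P N M ∧ N.eval 0 = 0

private theorem Val0_ne {P : Pt q t s} {N M : K[X]} (h : Rep P N M) (hN : N.eval 0 = 0)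
    (hM : M.eval 0 = 0) : False := by
  obtain ⟨a, b, hab⟩ := h.1
  have h1 := congrArg (eval 0) hab
  rw [eval_add, eval_mul, eval_mul, hN, hM, mul_zero, mul_zero, add_zero, eval_one] at h1
  exact zero_ne_one h1

private theorem Val0_ev {lam : K} {N₁ M₁ N₂ M₂ N₃ M₃ N₄ M₄ : K[X]}
    (h : LawRel (C s) (C lam) N₁ M₁ N₂ M₂ N₃ M₃ N₄ M₄) :
    LawRel s lam (N₁.eval 0) (M₁.eval 0) (N₂.eval 0) (M₂.eval 0) (N₃.eval 0) (M₃.eval 0)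
      (N₄.eval 0) (M₄.eval 0) := by
  obtain ⟨h0, h1, h2⟩ := h
  have e0 := congrArg (eval 0) h0
  have e1 := congrArg (eval 0) h1
  have e2 := congrArg (eval 0) h2
  simp only [F0, F1, F2, eval_add, eval_sub, eval_mul, eval_pow, eval_C, eval_ofNat] at e0 e1 e2
  exact ⟨e0, e1, e2⟩

theorem SV.of_rep {P : Pt q t s} {N M : K[X]} (hP : SV P) (h : Rep P N M) : M.eval 0 = 0 := by
  obtain ⟨N', M', h', h0⟩ := hP
  obtain ⟨c, -, -, hM⟩ := rep_unique h' h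
  rw [hM, eval_mul, h0, mul_zero]

theorem ZV.of_rep {P : Pt q t s} {N M : K[X]} (hP : ZV P) (h : Rep P N M) : N.eval 0 = 0 := by
  obtain ⟨N', M', h', h0⟩ := hP
  obtain ⟨c, -, hN, -⟩ := rep_unique h' h
  rw [hN, eval_mul, h0, mul_zero]

theorem SV.not_ZV {P : Pt q t s} (h : SV P) : ¬ ZV P := by
  intro hz
  obtain ⟨N, M, h1, h0⟩ := h
  exact Val0_ne h1 (hz.of_rep h1) h0

theorem sv_add (h4 : 4 * q = 1) (hs : s ≠ 0) (h27 : 27 * s ≠ 1) {P Q : Pt q t s}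
    (hP : SV P) (hQ : SV Q) : SV (P + Q) ∧ SV (P - Q) := by
  obtain ⟨N₁, M₁, h₁, hM₁⟩ := hP
  obtain ⟨N₂, M₂, h₂, hM₂⟩ := hQ
  obtain ⟨N₃, M₃, h₃⟩ := rep_exists (P + Q)
  obtain ⟨N₄, M₄, h₄⟩ := rep_exists (P - Q)
  obtain ⟨lam, hlam, hL⟩ := law_poly h4 hs h27 h₁ h₂ h₃ h₄
  obtain ⟨e0, e1, e2⟩ := Val0_ev hL
  have hN₁ : N₁.eval 0 ≠ 0 := fun h => Val0_ne h₁ h hM₁
  have hN₂ : N₂.eval 0 ≠ 0 := fun h => Val0_ne h₂ h hM₂
  simp only [F0, F1, F2, hM₁, hM₂] at e0 e1 e2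
  have a0 : (N₁.eval 0 * N₂.eval 0) ^ 2 = lam * (N₃.eval 0 * N₄.eval 0) := by
    linear_combination e0
  have a1 : lam * (N₃.eval 0 * M₄.eval 0 + M₃.eval 0 * N₄.eval 0) = 0 := by
    linear_combination -e1
  have a2 : lam * (M₃.eval 0 * M₄.eval 0) = 0 := by
    linear_combination -e2
  have b0 : N₃.eval 0 * N₄.eval 0 ≠ 0 := by
    intro h
    rw [h, mul_zero] at a0
    exact pow_ne_zero 2 (mul_ne_zero hN₁ hN₂) a0
  have b1 := (mul_eq_zero.1 a1).resolve_left hlam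
  have b2 := (mul_eq_zero.1 a2).resolve_left hlam
  have hN₃ : N₃.eval 0 ≠ 0 := left_ne_zero_of_mul b0
  have hN₄ : N₄.eval 0 ≠ 0 := right_ne_zero_of_mul b0
  rcases mul_eq_zero.1 b2 with h | h
  · rw [h, zero_mul, add_zero] at b1
    exact ⟨⟨N₃, M₃, h₃, h⟩, ⟨N₄, M₄, h₄, (mul_eq_zero.1 b1).resolve_left hN₃⟩⟩
  · rw [h, mul_zero, zero_add] at b1
    exact ⟨⟨N₃, M₃, h₃, (mul_eq_zero.1 b1).resolve_right hN₄⟩, ⟨N₄, M₄, h₄, h⟩⟩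

theorem sv_zv (h4 : 4 * q = 1) (hs : s ≠ 0) (h27 : 27 * s ≠ 1) {P Q : Pt q t s}
    (hP : SV P) (hQ : ZV Q) : ZV (P + Q) ∧ ZV (P - Q) := by
  obtain ⟨N₁, M₁, h₁, hM₁⟩ := hP
  obtain ⟨N₂, M₂, h₂, hN₂⟩ := hQ
  obtain ⟨N₃, M₃, h₃⟩ := rep_exists (P + Q)
  obtain ⟨N₄, M₄, h₄⟩ := rep_exists (P - Q)
  obtain ⟨lam, hlam, hL⟩ := law_poly h4 hs h27 h₁ h₂ h₃ h₄
  obtain ⟨e0, e1, e2⟩ := Val0_ev hL
  have hN₁ : N₁.eval 0 ≠ 0 := fun h => Val0_ne h₁ h hM₁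
  have hM₂ : M₂.eval 0 ≠ 0 := fun h => Val0_ne h₂ hN₂ h
  simp only [F0, F1, F2, hM₁, hN₂] at e0 e1 e2
  have a0 : lam * (N₃.eval 0 * N₄.eval 0) = 0 := by
    linear_combination -e0
  have a1 : lam * (N₃.eval 0 * M₄.eval 0 + M₃.eval 0 * N₄.eval 0) = 0 := by
    linear_combination -e1
  have a2 : (N₁.eval 0 * M₂.eval 0) ^ 2 = lam * (M₃.eval 0 * M₄.eval 0) := by
    linear_combination e2
  have b2 : M₃.eval 0 * M₄.eval 0 ≠ 0 := by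
    intro h
    rw [h, mul_zero] at a2
    exact pow_ne_zero 2 (mul_ne_zero hN₁ hM₂) a2
  have b0 := (mul_eq_zero.1 a0).resolve_left hlam
  have b1 := (mul_eq_zero.1 a1).resolve_left hlam
  have hM₃ : M₃.eval 0 ≠ 0 := left_ne_zero_of_mul b2
  have hM₄ : M₄.eval 0 ≠ 0 := right_ne_zero_of_mul b2
  rcases mul_eq_zero.1 b0 with h | h
  · rw [h, zero_mul, zero_add] at b1
    exact ⟨⟨N₃, M₃, h₃, h⟩, ⟨N₄, M₄, h₄, (mul_eq_zero.1 b1).resolve_left hM₃⟩⟩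
  · rw [h, mul_zero, add_zero] at b1
    exact ⟨⟨N₃, M₃, h₃, (mul_eq_zero.1 b1).resolve_right hM₄⟩, ⟨N₄, M₄, h₄, h⟩⟩

private theorem Val0_zv (h4 : 4 * q = 1) (hs : s ≠ 0) (h27 : 27 * s ≠ 1) {P Q : Pt q t s}
    (hP : ZV P) (hQ : ZV Q) :
    (ZV (P + Q) ∧ SV (P - Q)) ∨ (SV (P + Q) ∧ ZV (P - Q)) := by
  obtain ⟨N₁, M₁, h₁, hN₁⟩ := hP
  obtain ⟨N₂, M₂, h₂, hN₂⟩ := hQ
  obtain ⟨N₃, M₃, h₃⟩ := rep_exists (P + Q)
  obtain ⟨N₄, M₄, h₄⟩ := rep_exists (P - Q)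
  obtain ⟨lam, hlam, hL⟩ := law_poly h4 hs h27 h₁ h₂ h₃ h₄
  obtain ⟨e0, e1, e2⟩ := Val0_ev hL
  have hM₁ : M₁.eval 0 ≠ 0 := fun h => Val0_ne h₁ hN₁ h
  have hM₂ : M₂.eval 0 ≠ 0 := fun h => Val0_ne h₂ hN₂ h
  simp only [F0, F1, F2, hN₁, hN₂] at e0 e1 e2
  have a0 : lam * (N₃.eval 0 * N₄.eval 0) = 0 := by
    linear_combination -e0
  have a1 : (s * (M₁.eval 0 * M₂.eval 0)) ^ 2 =
      lam * (N₃.eval 0 * M₄.eval 0 + M₃.eval 0 * N₄.eval 0) := by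
    linear_combination e1
  have a2 : lam * (M₃.eval 0 * M₄.eval 0) = 0 := by
    linear_combination -e2
  have b0 := (mul_eq_zero.1 a0).resolve_left hlam
  have b2 := (mul_eq_zero.1 a2).resolve_left hlam
  have b1 : N₃.eval 0 * M₄.eval 0 + M₃.eval 0 * N₄.eval 0 ≠ 0 := by
    intro h
    rw [h, mul_zero] at a1
    exact pow_ne_zero 2 (mul_ne_zero hs (mul_ne_zero hM₁ hM₂)) a1
  rcases mul_eq_zero.1 b0 with h | h
  · rw [h, zero_mul, zero_add] at b1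
    exact Or.inl ⟨⟨N₃, M₃, h₃, h⟩, ⟨N₄, M₄, h₄,
      (mul_eq_zero.1 b2).resolve_left (left_ne_zero_of_mul b1)⟩⟩
  · rw [h, mul_zero, add_zero] at b1
    exact Or.inr ⟨⟨N₃, M₃, h₃, (mul_eq_zero.1 b2).resolve_right (right_ne_zero_of_mul b1)⟩,
      ⟨N₄, M₄, h₄, h⟩⟩

private theorem Val0_sv0 : SV (0 : Pt q t s) := ⟨1, 0, rep_zero, eval_zero⟩

private theorem Val0_sm (h4 : 4 * q = 1) (hs : s ≠ 0) (h27 : 27 * s ≠ 1) {A : Pt q t s}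
    (hA : SV A) (a : ℤ) : SV (a • A) := by
  induction a using Int.induction_on with
  | zero =>
    rw [zero_zsmul]
    exact Val0_sv0
  | succ n ih =>
    rw [add_zsmul, one_zsmul]
    exact (sv_add h4 hs h27 ih hA).1
  | pred n ih =>
    rw [sub_zsmul, one_zsmul]
    exact (sv_add h4 hs h27 ih hA).2

private theorem Val0_three (h4 : 4 * q = 1) (hs : s ≠ 0) (h27 : 27 * s ≠ 1) {B : Pt q t s}
    (hB : ZV B) : SV ((3 : ℤ) • B) := by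
  have h2 : ZV (B + B) := by
    rcases Val0_zv h4 hs h27 hB hB with h | h
    · exact h.1
    · have h0 := h.2
      rw [sub_self] at h0
      exact absurd h0 Val0_sv0.not_ZV
  have h3 : (3 : ℤ) • B = B + B + B := by
    rw [show (3 : ℤ) = 1 + 1 + 1 by norm_num, add_zsmul, add_zsmul, one_zsmul]
  rw [h3]
  rcases Val0_zv h4 hs h27 h2 hB with h | h
  · have h0 := h.2
    rw [add_sub_cancel_right] at h0
    exact absurd hB h0.not_ZV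
  · exact h.1

theorem sv_comb (h4 : 4 * q = 1) (hs : s ≠ 0) (h27 : 27 * s ≠ 1) {A B : Pt q t s}
    (hA : SV A) (hB : ZV B) (a c : ℤ) : SV (a • A + (3 * c) • B) := by
  have h1 : (3 * c) • B = c • ((3 : ℤ) • B) := by
    rw [← mul_smul, mul_comm]
  rw [h1]
  exact (sv_add h4 hs h27 (Val0_sm h4 hs h27 hA a)
    (Val0_sm h4 hs h27 (Val0_three h4 hs h27 hB) c)).1

theorem zv_comb (h4 : 4 * q = 1) (hs : s ≠ 0) (h27 : 27 * s ≠ 1) {A B : Pt q t s}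
    (hA : SV A) (hB : ZV B) (a b : ℤ) (hb : ¬ (3 : ℤ) ∣ b) : ZV (a • A + b • B) := by
  have hc : (∃ c : ℤ, b = 3 * c + 1) ∨ ∃ c : ℤ, b = 3 * c - 1 := by
    have h1 : b % 3 ≠ 0 := fun h => hb (Int.dvd_of_emod_eq_zero h)
    rcases (by omega : b % 3 = 1 ∨ b % 3 = 2) with h | h
    · exact Or.inl ⟨b / 3, by omega⟩
    · exact Or.inr ⟨b / 3 + 1, by omega⟩
  rcases hc with ⟨c, rfl⟩ | ⟨c, rfl⟩
  · have h1 : a • A + (3 * c + 1) • B = (a • A + (3 * c) • B) + B := by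
      rw [add_zsmul, one_zsmul, add_assoc]
    rw [h1]
    exact (sv_zv h4 hs h27 (sv_comb h4 hs h27 hA hB a c) hB).1
  · have h1 : a • A + (3 * c - 1) • B = (a • A + (3 * c) • B) - B := by
      rw [sub_zsmul, one_zsmul, add_sub_assoc, sub_eq_add_neg]
    rw [h1]
    exact (sv_zv h4 hs h27 (sv_comb h4 hs h27 hA hB a c) hB).2

end Pool.Agent.MP_2a5e5c_nt
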