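import Pool.Agent.Lib.MP_2a5e5c_nt.LamK
import Pool.Agent.Lib.MP_2a5e5c_nt.Val0

/-!
# SUN, module Sgn0: the sign of the point above `X = 0`

For `P` with `x(P)/f = N/M`, `N(0) = 0`, and differential `c ≠ 0` we have
`V(0) = U'(0)/c = N'(0)/(c M(0))`, where `V = y/f²`; `VZ P v` says that `V` is regular at `0` with
value `v`.

PROOF. `vz_add`: let `P` be `ZV` with `V_P(0) = v ≠ 0`, `Z` be `SV`; then `S = P + Z` is `ZV`
(`sv_zv`), so `S = (x', y')` with `x'/f` regular and `0` at `X = 0`, and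
`f(0) V_S(0)² = q s² = f(0) V_P(0)²` (`f(0) = q t² ≠ 0`; `V_S² = (U³ + q (U+s)²)/f` is regular, so
`V_S` is regular). If `V_S(0) = v` done. Else `V_S(0) = -v`. Put `P' = -P` with
`V_{P'}(0) = -v`; `S + P' = Z`. Both `S` and `P'` have coordinates regular at `0` with
`y_S(0) + y_{P'}(0) = -2 v f(0)² ≠ 0`. The slope of the line through `S` and `P'` (tangent if
equal) is `(x₁² + x₁x₂ + x₂² + q f (x₁ + x₂) + 2 q s f²)/(y₁ + y₂)` (use
`y₁² - y₂² = G(x₁) - G(x₂)`; for `S = P'` this is `G'(x)/(2y)`; `S = -P'` is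
impossible as the values of `y` at `0` are equal and nonzero), hence regular at `0`; so `x(Z) = l² - q f - x₁ - x₂` is regular at `0`, and so is
`x(Z)/f`; but `Z` is `SV`: contradiction (if `Z = 0` then `S = P`, `v = -v`, contradiction).
`vz_comb`: `b = 3c' + e`, `e = ±1`: `a A + b B = e B + (a A + 3c' B)`, the second summand is
`SV` (`sv_comb`). `V_{-B}(0) = -V_B(0)`. Regular at `0` can be handled with the subring of
`RatFunc K` of the `u` with `u.denom.eval 0 ≠ 0`, or with `RegV` below.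
-/

namespace Pool.Agent.MP_2a5e5c_nt

open Polynomial

variable {K : Type*} [Field K] {q t s : K}

/-- `u ∈ K(X)` is regular at `0` with value `v`. -/
def RegV (u : RatFunc K) (v : K) : Prop :=
  ∃ A B : K[X], B.eval 0 ≠ 0 ∧ u * algebraMap K[X] (RatFunc K) B = algebraMap K[X] (RatFunc K) A ∧
    A.eval 0 = v * B.eval 0

/-- `P = (f U, f² V)` with `V` regular at `0` with value `v`. -/
def VZ (P : Pt q t s) (v : K) : Prop :=
  ∃ x y, ∃ h : (TX q t s).toAffine.Nonsingular x y, P = .some x y h ∧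
    ∃ w, y = algebraMap K[X] (RatFunc K) (fC q t) ^ 2 * w ∧ RegV w v

private theorem Sgn0_inj {a b : K[X]} (h : algebraMap K[X] (RatFunc K) a =
    algebraMap K[X] (RatFunc K) b) : a = b := RatFunc.algebraMap_injective K h

private theorem Sgn0_poly (g : K[X]) : RegV (algebraMap K[X] (RatFunc K) g) (g.eval 0) :=
  ⟨g, 1, by simp, by simp, by simp⟩

private theorem Sgn0_radd {u u' : RatFunc K} {v v' : K} (h : RegV u v) (h' : RegV u' v') :
    RegV (u + u') (v + v') := by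
  obtain ⟨A, B, h1, h2, h3⟩ := h
  obtain ⟨A', B', h1', h2', h3'⟩ := h'
  refine ⟨A * B' + A' * B, B * B', ?_, ?_, ?_⟩
  · rw [eval_mul]
    exact mul_ne_zero h1 h1'
  · rw [map_add, map_mul, map_mul, map_mul, ← h2, ← h2']
    ring
  · rw [eval_add, eval_mul, eval_mul, eval_mul, h3, h3']
    ring

private theorem Sgn0_rmul {u u' : RatFunc K} {v v' : K} (h : RegV u v) (h' : RegV u' v') :
    RegV (u * u') (v * v') := by
  obtain ⟨A, B, h1, h2, h3⟩ := h
  obtain ⟨A', B', h1', h2', h3'⟩ := h'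
  refine ⟨A * A', B * B', ?_, ?_, ?_⟩
  · rw [eval_mul]
    exact mul_ne_zero h1 h1'
  · rw [map_mul, map_mul, ← h2, ← h2']
    ring
  · rw [eval_mul, eval_mul, h3, h3']
    ring

private theorem Sgn0_rneg {u : RatFunc K} {v : K} (h : RegV u v) : RegV (-u) (-v) := by
  obtain ⟨A, B, h1, h2, h3⟩ := h
  refine ⟨-A, B, h1, ?_, ?_⟩
  · rw [map_neg, ← h2]
    ring
  · rw [eval_neg, h3]
    ring

private theorem Sgn0_rsub {u u' : RatFunc K} {v v' : K} (h : RegV u v) (h' : RegV u' v') :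
    RegV (u - u') (v - v') := by
  rw [sub_eq_add_neg, sub_eq_add_neg]
  exact Sgn0_radd h (Sgn0_rneg h')

private theorem Sgn0_rpow {u : RatFunc K} {v : K} (h : RegV u v) (n : ℕ) :
    RegV (u ^ n) (v ^ n) := by
  induction n with
  | zero =>
    rw [pow_zero, pow_zero]
    exact ⟨1, 1, by simp, by simp, by simp⟩
  | succ n ih =>
    rw [pow_succ, pow_succ]
    exact Sgn0_rmul ih h

private theorem Sgn0_rinv {u : RatFunc K} {v : K} (h : RegV u v) (hv : v ≠ 0) :
    RegV u⁻¹ v⁻¹ := by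
  obtain ⟨A, B, h1, h2, h3⟩ := h
  have hA : A.eval 0 ≠ 0 := by
    rw [h3]
    exact mul_ne_zero hv h1
  have hA' : algebraMap K[X] (RatFunc K) A ≠ 0 := by
    intro h4
    have h5 : A = 0 := Sgn0_inj (by rw [h4, map_zero])
    rw [h5, eval_zero] at hA
    exact hA rfl
  have hu : u ≠ 0 := by
    intro h4
    rw [h4, zero_mul] at h2
    exact hA' h2.symm
  refine ⟨B, A, hA, ?_, ?_⟩
  · rw [← h2, ← mul_assoc, inv_mul_cancel₀ hu, one_mul]
  · rw [h3, ← mul_assoc, inv_mul_cancel₀ hv, one_mul]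

private theorem Sgn0_uniq {u : RatFunc K} {v v' : K} (h : RegV u v) (h' : RegV u v') :
    v = v' := by
  obtain ⟨A, B, h1, h2, h3⟩ := h
  obtain ⟨A', B', h1', h2', h3'⟩ := h'
  have h4 : A * B' = A' * B := Sgn0_inj (by
    rw [map_mul, map_mul, ← h2, ← h2']
    ring)
  have h5 := congrArg (fun g : K[X] => g.eval 0) h4
  simp only [eval_mul] at h5
  rw [h3, h3'] at h5
  have h6 : (v - v') * (B.eval 0 * B'.eval 0) = 0 := by
    linear_combination h5
  rcases mul_eq_zero.1 h6 with h7 | h7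
  · exact sub_eq_zero.1 h7
  · exact absurd h7 (mul_ne_zero h1 h1')

private theorem Sgn0_sq {w : RatFunc K} {r : K} (h : RegV (w ^ 2) r) :
    ∃ v, RegV w v ∧ v ^ 2 = r := by
  obtain ⟨A, B, h1, h2, h3⟩ := h
  have hD : algebraMap K[X] (RatFunc K) w.denom ≠ 0 := by
    intro h4
    exact w.denom_ne_zero (Sgn0_inj (by rw [h4, map_zero]))
  have hw : w * algebraMap K[X] (RatFunc K) w.denom = algebraMap K[X] (RatFunc K) w.num := by
    have h4 := RatFunc.num_div_denom w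
    rw [div_eq_iff hD] at h4
    exact h4.symm
  have h4 : w.num ^ 2 * B = w.denom ^ 2 * A := Sgn0_inj (by
    rw [map_mul, map_mul, map_pow, map_pow, ← hw, ← h2]
    ring)
  have hcop : IsCoprime (w.denom ^ 2) (w.num ^ 2) := (RatFunc.isCoprime_num_denom w).symm.pow
  have h5 : w.denom ^ 2 ∣ B := hcop.dvd_of_dvd_mul_left ⟨A, h4⟩
  have h6 : w.denom.eval 0 ≠ 0 := by
    intro h7
    obtain ⟨E, hE⟩ := h5
    apply h1
    rw [hE, eval_mul, eval_pow, h7]
    ring
  have h7 : RegV w (w.num.eval 0 / w.denom.eval 0) :=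
    ⟨w.num, w.denom, h6, hw, by rw [div_mul_cancel₀ _ h6]⟩
  refine ⟨_, h7, ?_⟩
  exact Sgn0_uniq (Sgn0_rpow h7 2) ⟨A, B, h1, h2, h3⟩

private theorem Sgn0_f : RegV (algebraMap K[X] (RatFunc K) (fC q t)) (q * t ^ 2) := by
  have h := Sgn0_poly (fC q t)
  have h1 : (fC q t).eval 0 = q * t ^ 2 := by
    simp [fC]
  rwa [h1] at h

private theorem Sgn0_f0 (h4 : 4 * q = 1) (ht : t ≠ 0) : q * t ^ 2 ≠ 0 := by
  have hq : q ≠ 0 := by
    intro h
    rw [h, mul_zero] at h4
    exact zero_ne_one h4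
  exact mul_ne_zero hq (pow_ne_zero 2 ht)

private theorem Sgn0_fne : algebraMap K[X] (RatFunc K) (fC q t) ≠ 0 := by
  intro h
  have h1 : fC q t = 0 := Sgn0_inj (by rw [h, map_zero])
  have h2 : (fC q t).coeff 3 = 1 := by
    have e : fC q t = X ^ 3 + (C q * X ^ 2 + C (2 * q * t) * X + C (q * t ^ 2)) := by
      unfold fC
      simp only [map_mul, map_pow, map_ofNat]
      ring
    rw [e]
    have c1 : (X ^ 3 : K[X]).coeff 3 = 1 := by rw [coeff_X_pow]; rfl
    have c2 : (C q * X ^ 2 : K[X]).coeff 3 = 0 := by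
      rw [coeff_C_mul, coeff_X_pow]
      simp
    have c3 : (C (2 * q * t) * X : K[X]).coeff 3 = 0 := by
      rw [coeff_C_mul, coeff_X]
      simp
    have c4 : (C (q * t ^ 2) : K[X]).coeff 3 = 0 := by
      rw [coeff_C]
      simp
    rw [coeff_add, coeff_add, coeff_add, c1, c2, c3, c4]
    ring
  rw [h1, coeff_zero] at h2
  exact zero_ne_one h2

private theorem Sgn0_eqn {x y : RatFunc K} (h : (TX q t s).toAffine.Nonsingular x y) :
    y ^ 2 = x ^ 3 + algebraMap K[X] (RatFunc K) (C q) * algebraMap K[X] (RatFunc K) (fC q t) *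
      x ^ 2 + 2 * algebraMap K[X] (RatFunc K) (C q) * algebraMap K[X] (RatFunc K) (C s) *
      algebraMap K[X] (RatFunc K) (fC q t) ^ 2 * x +
      algebraMap K[X] (RatFunc K) (C q) * algebraMap K[X] (RatFunc K) (C s) ^ 2 *
      algebraMap K[X] (RatFunc K) (fC q t) ^ 3 := by
  have h1 := h.left
  rw [WeierstrassCurve.Affine.equation_iff] at h1
  simp only [TX, TC, zero_mul, add_zero] at h1
  exact h1

private theorem Sgn0_m0 {N M : K[X]} (hc : IsCoprime N M) (h : N.eval 0 = 0) :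
    M.eval 0 ≠ 0 := by
  intro h1
  obtain ⟨a, b, hab⟩ := hc
  have h2 := congrArg (fun g : K[X] => g.eval 0) hab
  simp [h, h1] at h2

private theorem Sgn0_zv {P : Pt q t s} (h : ZV P) :
    ∃ x y, ∃ h : (TX q t s).toAffine.Nonsingular x y, P = .some x y h ∧
      ∃ u, x = algebraMap K[X] (RatFunc K) (fC q t) * u ∧ RegV u 0 := by
  obtain ⟨N, M, ⟨hc, hR⟩, hN⟩ := h
  have hM := Sgn0_m0 hc hN
  rcases hR with ⟨-, hR⟩ | ⟨x, y, h, hP, hM0, hx⟩
  · rw [hR, eval_zero] at hM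
    exact absurd rfl hM
  · have hM1 : algebraMap K[X] (RatFunc K) M ≠ 0 := fun h1 =>
      hM0 (Sgn0_inj (by rw [h1, map_zero]))
    refine ⟨x, y, h, hP, algebraMap K[X] (RatFunc K) N / algebraMap K[X] (RatFunc K) M,
      ?_, N, M, hM, ?_, ?_⟩
    · rw [← mul_div_assoc, eq_div_iff hM1]
      exact hx
    · rw [div_mul_cancel₀ _ hM1]
    · rw [hN, zero_mul]

private theorem Sgn0_w (h4 : 4 * q = 1) (ht : t ≠ 0) {x y u : RatFunc K}
    (h : (TX q t s).toAffine.Nonsingular x y)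
    (hx : x = algebraMap K[X] (RatFunc K) (fC q t) * u) (hu : RegV u 0) :
    ∃ w v, y = algebraMap K[X] (RatFunc K) (fC q t) ^ 2 * w ∧ RegV w v ∧
      v ^ 2 = q * s ^ 2 / (q * t ^ 2) := by
  have hf : algebraMap K[X] (RatFunc K) (fC q t) ≠ 0 := Sgn0_fne
  have hf0 := Sgn0_f0 h4 ht
  have hy : y = algebraMap K[X] (RatFunc K) (fC q t) ^ 2 *
      (y / algebraMap K[X] (RatFunc K) (fC q t) ^ 2) := by
    field_simp
  have he := Sgn0_eqn h
  have hw : (y / algebraMap K[X] (RatFunc K) (fC q t) ^ 2) ^ 2 =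
      (u ^ 3 + algebraMap K[X] (RatFunc K) (C q) *
        (u + algebraMap K[X] (RatFunc K) (C s)) ^ 2) *
        (algebraMap K[X] (RatFunc K) (fC q t))⁻¹ := by
    rw [div_pow, he, hx]
    field_simp
    ring
  have hC : ∀ a : K, RegV (algebraMap K[X] (RatFunc K) (C a)) a := by
    intro a
    have := Sgn0_poly (C a)
    rwa [eval_C] at this
  have hr : RegV ((u ^ 3 + algebraMap K[X] (RatFunc K) (C q) *
        (u + algebraMap K[X] (RatFunc K) (C s)) ^ 2) *
        (algebraMap K[X] (RatFunc K) (fC q t))⁻¹)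
        ((0 ^ 3 + q * (0 + s) ^ 2) * (q * t ^ 2)⁻¹) :=
    Sgn0_rmul (Sgn0_radd (Sgn0_rpow hu 3) (Sgn0_rmul (hC q)
      (Sgn0_rpow (Sgn0_radd hu (hC s)) 2))) (Sgn0_rinv Sgn0_f hf0)
  rw [← hw] at hr
  obtain ⟨v, hv, hv2⟩ := Sgn0_sq hr
  refine ⟨_, v, hy, hv, ?_⟩
  rw [hv2, div_eq_mul_inv]
  ring

theorem vz_add (h4 : 4 * q = 1) (ht : t ≠ 0) (hs : s ≠ 0) (h27 : 27 * s ≠ 1)
    {P Z : Pt q t s} {v : K} (hP : ZV P) (hv : VZ P v) (hZ : SV Z) : VZ (P + Z) v := by
  have hf : algebraMap K[X] (RatFunc K) (fC q t) ≠ 0 := Sgn0_fne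
  have hf0 := Sgn0_f0 h4 ht
  have h2 : (2 : K) ≠ 0 := by
    intro h
    have h5 : (4 : K) * q = 2 * (2 * q) := by ring
    rw [h5, h, zero_mul] at h4
    exact zero_ne_one h4
  have hq : q ≠ 0 := by
    intro h
    rw [h, mul_zero] at h4
    exact zero_ne_one h4
  have hr0 : q * s ^ 2 / (q * t ^ 2) ≠ 0 :=
    div_ne_zero (mul_ne_zero hq (pow_ne_zero 2 hs)) hf0
  -- the point `P`
  obtain ⟨x, y, h, rfl, u, hx, hu⟩ := Sgn0_zv hP
  obtain ⟨w, v₀, hy, hw, hv₀⟩ := Sgn0_w h4 ht h hx hu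
  obtain ⟨x', y', h', hPe, w', hy', hw'⟩ := hv
  have hyy : y = y' := by
    injection hPe
  have hww : w = w' := by
    have h5 : algebraMap K[X] (RatFunc K) (fC q t) ^ 2 * w =
        algebraMap K[X] (RatFunc K) (fC q t) ^ 2 * w' := by
      rw [← hy, ← hy', hyy]
    exact mul_left_cancel₀ (pow_ne_zero 2 hf) h5
  rw [← hww] at hw'
  have hvv : v₀ = v := Sgn0_uniq hw hw'
  rw [hvv] at hv₀ hw
  clear hPe hw' hy' hyy hww hvv h' x' y' w' v₀
  have hv0 : v ≠ 0 := by
    intro h5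
    rw [h5] at hv₀
    apply hr0
    rw [← hv₀]
    ring
  -- the point `P + Z`
  have hS : ZV (.some x y h + Z) := by
    have h5 := (sv_zv h4 hs h27 hZ hP).1
    rwa [add_comm] at h5
  obtain ⟨x1, y1, h1, hSe, u1, hx1, hu1⟩ := Sgn0_zv hS
  obtain ⟨w1, v1, hy1, hw1, hv1⟩ := Sgn0_w h4 ht h1 hx1 hu1
  rcases sq_eq_sq_iff_eq_or_eq_neg.1 (hv1.trans hv₀.symm) with hvv | hvv
  · rw [hvv] at hw1
    exact ⟨x1, y1, h1, hSe, w1, hy1, hw1⟩
  exfalso
  rw [hvv] at hw1
  have hn : (TX q t s).toAffine.negY x (-y) = y := by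
    simp [WeierstrassCurve.Affine.negY, TX, TC]
  have hn' : (TX q t s).toAffine.negY x y = -y := by
    simp [WeierstrassCurve.Affine.negY, TX, TC]
  have hneg : (TX q t s).toAffine.Nonsingular x (-y) := by
    rw [← hn', WeierstrassCurve.Affine.nonsingular_neg]
    exact h
  have hyne : y1 ≠ y := by
    intro h5
    have h6 : w1 = w := by
      rw [hy1, hy] at h5
      exact mul_left_cancel₀ (pow_ne_zero 2 hf) h5
    rw [h6] at hw1
    have h7 := Sgn0_uniq hw hw1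
    have h8 : 2 * v = 0 := by linear_combination h7
    rcases mul_eq_zero.1 h8 with h9 | h9
    · exact h2 h9
    · exact hv0 h9
  have hxy : ¬ (x1 = x ∧ y1 = (TX q t s).toAffine.negY x (-y)) := by
    rintro ⟨-, h5⟩
    rw [hn] at h5
    exact hyne h5
  have hZe : Z = (WeierstrassCurve.Affine.Point.some x1 y1 h1 : Pt q t s) +
      .some x (-y) hneg := by
    have h5 : (.some x (-y) hneg : Pt q t s) = -(.some x y h) := by
      rw [WeierstrassCurve.Affine.Point.neg_some]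
      simp only [hn']
    rw [h5, ← hSe]
    abel
  rw [WeierstrassCurve.Affine.Point.add_some hxy] at hZe
  obtain ⟨ℓ, hℓ⟩ : ∃ ℓ, ℓ = (TX q t s).toAffine.slope x1 x y1 (-y) := ⟨_, rfl⟩
  have he := Sgn0_eqn h
  have he1 := Sgn0_eqn h1
  have hH : ℓ * (y1 - y) = x1 ^ 2 + x1 * x + x ^ 2 + algebraMap K[X] (RatFunc K) (C q) *
      algebraMap K[X] (RatFunc K) (fC q t) * (x1 + x) +
      2 * algebraMap K[X] (RatFunc K) (C q) * algebraMap K[X] (RatFunc K) (C s) *
      algebraMap K[X] (RatFunc K) (fC q t) ^ 2 := by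
    by_cases hxx : x1 = x
    · have h5 : y1 ^ 2 = y ^ 2 := by rw [he1, he, hxx]
      have h6 : y1 = -y := (sq_eq_sq_iff_eq_or_eq_neg.1 h5).resolve_left hyne
      have h7 : y1 ≠ (TX q t s).toAffine.negY x (-y) := by rw [hn]; exact hyne
      have h8 : (TX q t s).toAffine.negY x1 y1 = -y1 := by
        simp [WeierstrassCurve.Affine.negY, TX, TC]
      rw [WeierstrassCurve.Affine.slope_of_Y_ne hxx h7, h8] at hℓ
      have h9 : y1 - -y1 ≠ 0 := by
        intro h10
        apply hyne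
        have h11 : y1 - y = y1 - -y1 := by
          rw [h6]
          ring
        rw [h10] at h11
        exact sub_eq_zero.1 h11
      have h10 : y1 - y = y1 - -y1 := by
        rw [h6]
        ring
      rw [h10, hℓ, div_mul_cancel₀ _ h9, hxx]
      simp only [TX, TC]
      ring
    · have h5 : x1 - x ≠ 0 := sub_ne_zero.2 hxx
      rw [WeierstrassCurve.Affine.slope_of_X_ne hxx] at hℓ
      have h6 : ℓ * (x1 - x) = y1 - -y := by
        rw [hℓ, div_mul_cancel₀ _ h5]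
      apply mul_right_cancel₀ h5
      linear_combination (y1 - y) * h6 + he1 - he
  have hC : ∀ a : K, RegV (algebraMap K[X] (RatFunc K) (C a)) a := by
    intro a
    have := Sgn0_poly (C a)
    rwa [eval_C] at this
  have rf : RegV (algebraMap K[X] (RatFunc K) (fC q t)) (q * t ^ 2) := Sgn0_f
  have rx : RegV x (q * t ^ 2 * 0) := by
    rw [hx]
    exact Sgn0_rmul rf hu
  have rx1 : RegV x1 (q * t ^ 2 * 0) := by
    rw [hx1]
    exact Sgn0_rmul rf hu1
  have rd : RegV (y1 - y) ((q * t ^ 2) ^ 2 * -v - (q * t ^ 2) ^ 2 * v) := by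
    rw [hy1, hy]
    exact Sgn0_rsub (Sgn0_rmul (Sgn0_rpow rf 2) hw1) (Sgn0_rmul (Sgn0_rpow rf 2) hw)
  have hd0 : (q * t ^ 2) ^ 2 * -v - (q * t ^ 2) ^ 2 * v ≠ 0 := by
    have h5 : (q * t ^ 2) ^ 2 * -v - (q * t ^ 2) ^ 2 * v = -(2 * ((q * t ^ 2) ^ 2 * v)) := by
      ring
    rw [h5]
    exact neg_ne_zero.2 (mul_ne_zero h2 (mul_ne_zero (pow_ne_zero 2 hf0) hv0))
  have r2 : RegV (2 : RatFunc K) 2 := by
    have h5 := hC 2
    simpa only [map_ofNat] using h5
  have rH := Sgn0_radd (Sgn0_radd (Sgn0_radd (Sgn0_radd (Sgn0_rpow rx1 2) (Sgn0_rmul rx1 rx))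
    (Sgn0_rpow rx 2)) (Sgn0_rmul (Sgn0_rmul (hC q) rf) (Sgn0_radd rx1 rx)))
    (Sgn0_rmul (Sgn0_rmul (Sgn0_rmul r2 (hC q)) (hC s)) (Sgn0_rpow rf 2))
  rw [← hH] at rH
  have hdn : y1 - y ≠ 0 := sub_ne_zero.2 hyne
  have rl := Sgn0_rmul rH (Sgn0_rinv rd hd0)
  rw [mul_assoc, mul_inv_cancel₀ hdn, mul_one] at rl
  have rX := Sgn0_rsub (Sgn0_rsub (Sgn0_rsub (Sgn0_rpow rl 2) (Sgn0_rmul (hC q) rf)) rx1) rx
  have hX : (TX q t s).toAffine.addX x1 x ℓ = ℓ ^ 2 - algebraMap K[X] (RatFunc K) (C q) *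
      algebraMap K[X] (RatFunc K) (fC q t) - x1 - x := by
    simp [WeierstrassCurve.Affine.addX, TX, TC]
  rw [← hX] at rX
  obtain ⟨N, M, ⟨hc, hR⟩, hM⟩ := hZ
  rcases hR with ⟨hR, -⟩ | ⟨x2, y2, h5, hZ2, hM0, hx2⟩
  · rw [hR] at hZe
    exact absurd hZe.symm (by simp)
  · rw [hZ2] at hZe
    have hx3 : x2 = (TX q t s).toAffine.addX x1 x ℓ := by
      rw [hℓ]
      injection hZe
    rw [← hx3] at rX
    obtain ⟨A, B, hB, hA, -⟩ := rX
    have h6 : A * M = fC q t * N * B := Sgn0_inj (by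
      rw [map_mul, map_mul, map_mul, ← hx2, ← hA]
      ring)
    have h7 := congrArg (fun g : K[X] => g.eval 0) h6
    simp only [eval_mul, hM, mul_zero] at h7
    have h8 : (fC q t).eval 0 = q * t ^ 2 := by
      simp [fC]
    rw [h8] at h7
    have h9 : N.eval 0 = 0 := by
      rcases mul_eq_zero.1 h7.symm with h10 | h10
      · rcases mul_eq_zero.1 h10 with h11 | h11
        · exact absurd h11 hf0
        · exact h11
      · exact absurd h10 hB
    exact Sgn0_m0 hc h9 hM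

theorem vz_neg {P : Pt q t s} {v : K} (hv : VZ P v) : VZ (-P) (-v) := by
  obtain ⟨x, y, h, rfl, w, hy, hw⟩ := hv
  have hn' : (TX q t s).toAffine.negY x y = -y := by
    simp [WeierstrassCurve.Affine.negY, TX, TC]
  refine ⟨x, (TX q t s).toAffine.negY x y,
    (WeierstrassCurve.Affine.nonsingular_neg x y).2 h, ?_, -w, ?_, Sgn0_rneg hw⟩
  · rw [WeierstrassCurve.Affine.Point.neg_some]
  · rw [hn', hy]
    ring

theorem vz_comb (h4 : 4 * q = 1) (ht : t ≠ 0) (hs : s ≠ 0) (h27 : 27 * s ≠ 1)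
    {A B : Pt q t s} {v : K} (hA : SV A) (hB : ZV B) (hv : VZ B v) (a b : ℤ) (e : ℤ)
    (he : e = 1 ∨ e = -1) (hb : (3 : ℤ) ∣ b - e) : VZ (a • A + b • B) (e * v) := by
  obtain ⟨c, hc⟩ := hb
  have hbe : b = e + 3 * c := by omega
  have hS := sv_comb h4 hs h27 hA hB a c
  have h1 : a • A + b • B = e • B + (a • A + (3 * c) • B) := by
    rw [hbe, add_zsmul]
    abel
  rw [h1]
  rcases he with rfl | rfl
  · rw [one_smul, Int.cast_one, one_mul]
    exact vz_add h4 ht hs h27 hB hv hS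
  · have h2 : ZV (-B) := by
      have h3 := zv_comb h4 hs h27 hA hB 0 (-1) (by norm_num)
      simpa using h3
    have h3 : ((-1 : ℤ) : K) * v = -v := by
      push_cast
      ring
    rw [neg_smul, one_smul, h3]
    exact vz_add h4 ht hs h27 h2 (vz_neg hv) hS

/-- The value of `V` at `0` through the differential. -/
theorem vz_lam (h4 : 4 * q = 1) {P : Pt q t s} {c v : K} (hc : LamK P c) (hP : ZV P)
    (hv : VZ P v) {N M : K[X]} (h : Rep P N M) :
    N.coeff 1 = c * v * M.coeff 0 := by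
  have hf : algebraMap K[X] (RatFunc K) (fC q t) ≠ 0 := Sgn0_fne
  have hN0 : N.eval 0 = 0 := hP.of_rep h
  obtain ⟨hcop, hR⟩ := h
  have hM0 := Sgn0_m0 hcop hN0
  obtain ⟨x, y, h, rfl, w, hy, hw⟩ := hv
  rcases hR with ⟨hR, -⟩ | ⟨x2, y2, h2, hP2, hM, hx⟩
  · exact absurd hR (by simp)
  have hx2 : x = x2 := by injection hP2
  rw [← hx2] at hx
  rcases hc with ⟨hc, -⟩ | ⟨x3, y3, h3, hP3, hl, -⟩
  · exact absurd hc (by simp)
  have hx3 : x = x3 := by injection hP3
  have hy3 : y = y3 := by injection hP3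
  rw [← hx3, ← hy3] at hl
  have hD := congrArg (fun g => dX K g) hx
  simp only [Derivation.leibniz, smul_eq_mul, dX_poly] at hD
  rw [dX_poly] at hl
  obtain ⟨A, B, hB, hA, hv⟩ := hw
  -- the relation between the derivatives
  have hkey : algebraMap K[X] (RatFunc K) (C c) * w * algebraMap K[X] (RatFunc K) M ^ 2 =
      algebraMap K[X] (RatFunc K) (derivative N) * algebraMap K[X] (RatFunc K) M -
      algebraMap K[X] (RatFunc K) N * algebraMap K[X] (RatFunc K) (derivative M) := by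
    apply mul_left_cancel₀ (pow_ne_zero 2 hf)
    rw [hy] at hl
    linear_combination
      (-(algebraMap K[X] (RatFunc K) M) ^ 2) * hl +
      (algebraMap K[X] (RatFunc K) (fC q t) * algebraMap K[X] (RatFunc K) M) * hD -
      (algebraMap K[X] (RatFunc K) (fC q t) * algebraMap K[X] (RatFunc K) (derivative M) +
        algebraMap K[X] (RatFunc K) (derivative (fC q t)) * algebraMap K[X] (RatFunc K) M) * hx
  have h5 : C c * A * M ^ 2 = (derivative N * M - N * derivative M) * B := Sgn0_inj (by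
    rw [map_mul, map_mul, map_pow, map_mul, map_sub, map_mul, map_mul, ← hkey, ← hA]
    ring)
  have h6 := congrArg (fun g : K[X] => g.eval 0) h5
  simp only [eval_mul, eval_sub, eval_pow, eval_C, hN0, zero_mul, sub_zero] at h6
  rw [hv] at h6
  have h7 : (derivative N).eval 0 = N.coeff 1 := by
    rw [← coeff_zero_eq_eval_zero, coeff_derivative]
    simp
  rw [h7] at h6
  rw [coeff_zero_eq_eval_zero]
  have h8 : (N.coeff 1 - c * v * M.eval 0) * (M.eval 0 * B.eval 0) = 0 := by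
    linear_combination -h6
  rcases mul_eq_zero.1 h8 with h9 | h9
  · exact sub_eq_zero.1 h9
  · exact absurd h9 (mul_ne_zero hM0 hB)

end Pool.Agent.MP_2a5e5c_nt
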