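import Pool.Agent.Lib.MP_2a5e5c_nt.FinB
import Pool.Agent.Lib.MP_2a5e5c_nt.FinC
import Pool.Agent.Lib.MP_2a5e5c_nt.FinE
import Pool.Agent.Lib.MP_2a5e5c_nt.RedD
import Pool.Agent.Lib.MP_2a5e5c_nt.Sgn0
import Pool.Agent.Lib.MP_2a5e5c_nt.Pted

/-!
# SUN, module FinF: from a point of height p to isogeny data

PROOF. `rep_exists`, `red_prim`, `rep_smul`: `N, M ∈ R[X]` with `Rep Q (N.map) (M.map)` and nonzero
reduction. `ht_eq`, `Pted.of_rep`: `natDegree N = p`, `natDegree M < p` (`M.map ≠ 0` or `0`;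
`natDegree_map_eq_of_injective`). `ZV.of_rep`: `N.coeff 0 = 0`. `lamK_eq` gives the equation over
`K`, hence over `R` (injectivity). `vz_lam`: `N.coeff 1 = c v M.coeff 0` with `v = e s/t`, so
`t N.coeff 1 = e s c M.coeff 0` in `R`. `rh_exists` for the reduction, `hb_eq`: `d = hb Q ≠ 0`.
`fin_shape`, then `fin_square` (`p - 1 = 2m`; coprime over `K` from `Rep`, scaled by a unit):
`M₁ = D²`, `D.coeff m = c`; `D.map red ^ 2 = C b` so `D.map red` is a nonzero constant.
`N₁'D² - N₁(D²)' = D (N₁'D - 2N₁D')`; cancel `D²` in the equation. The relation for the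
coefficients is homogeneous: `t N₁.coeff 1 = e s c D.coeff 0 ^2`. `fin_data`.
-/

namespace Pool.Agent.MP_2a5e5c_nt

open Polynomial

theorem fin_all {R k K : Type*} [CommRing R] [IsDomain R] [CharZero R] [Field k] [Field K]
    [Algebra R K] [IsFractionRing R K] {p m : ℕ} [CharP k p] (hp : p.Prime) (h5 : 5 ≤ p)
    (hm : p = 2 * m + 1) {red : R →+* k} (hS : RedS (p : R) red) {q t s c : R}
    (h4 : 4 * q = 1) (ht0 : red t ≠ 0) (h27 : 27 * red t ≠ 1) (hc : (p : R) ∣ c) (hc0 : c ≠ 0)
    {Q : Pt (algebraMap R K q) (algebraMap R K t) (algebraMap R K s)} (hQ : ht Q = p)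
    (hPt : Pted Q) (hL : LamK Q (algebraMap R K c)) (hZ : ZV Q) {e : ℤ} (he : e = 1 ∨ e = -1)
    (hV : VZ Q ((e : K) * (algebraMap R K s / algebraMap R K t))) (hb0 : hb red Q ≠ 0) :
    ∃ N D : R[X], IsogData R p m q t s ((e : R) * c) N D := by
  have hinj := IsFractionRing.injective R K
  have h4K : 4 * algebraMap R K q = 1 := by
    have h1 := congrArg (algebraMap R K) h4
    rwa [map_mul, map_ofNat, map_one] at h1
  obtain ⟨n, n', hRR⟩ := rr_exists hS Q
  obtain ⟨d, hd⟩ : ∃ d, RH n n' d := by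
    obtain ⟨N, M, hR, h1, h2, h3⟩ := hRR
    exact rh_exists h3
  have hd0 : d ≠ 0 := by
    intro h
    exact hb0 (by rw [hb_eq hS hRR hd, h])
  obtain ⟨N, M, hR, rfl, rfl, -⟩ := hRR
  -- degrees
  have hlt := hPt.of_rep hR
  have hle : (M.map (algebraMap R K)).natDegree ≤ (N.map (algebraMap R K)).natDegree :=
    natDegree_le_natDegree hlt.le
  have hN : N.natDegree = p := by
    have h1 := ht_eq hR
    unfold hgt at h1
    rw [max_eq_left hle, hQ, natDegree_map_eq_of_injective hinj] at h1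
    exact h1.symm
  have hM : M.natDegree < p := by
    by_cases h0 : M = 0
    · rw [h0, natDegree_zero]
      exact hp.pos
    · have h0' : M.map (algebraMap R K) ≠ 0 := by
        rwa [Ne, Polynomial.map_eq_zero_iff hinj]
      have h1 := natDegree_lt_natDegree h0' hlt
      rw [natDegree_map_eq_of_injective hinj, natDegree_map_eq_of_injective hinj, hN] at h1
      exact h1
  have hN0 : N.coeff 0 = 0 := by
    have h1 := hZ.of_rep hR
    rw [← coeff_zero_eq_eval_zero, coeff_map] at h1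
    exact hinj (by rw [h1, map_zero])
  -- the equation
  have he1 : fC q t * (derivative N * M - N * derivative M) ^ 2 =
      C c ^ 2 * M * (N ^ 3 + C q * M * (N + C s * M) ^ 2) := by
    apply Polynomial.map_injective _ hinj
    have h1 := lamK_eq h4K hL hR
    simp only [fC, Polynomial.map_mul, Polynomial.map_add, Polynomial.map_sub,
      Polynomial.map_pow, map_C, map_X, ← derivative_map] at h1 ⊢
    exact h1
  -- the value at zero
  have ht : t ≠ 0 := by
    rintro rfl
    exact ht0 (map_zero red)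
  have htK : algebraMap R K t ≠ 0 := by
    rw [Ne, map_eq_zero_iff _ hinj]
    exact ht
  have hv : t * N.coeff 1 = (e : R) * s * c * M.coeff 0 := by
    apply hinj
    have h1 := vz_lam h4K hL hZ hV hR
    rw [coeff_map, coeff_map] at h1
    rw [map_mul, map_mul, map_mul, map_mul, map_intCast, h1]
    field_simp
  obtain ⟨u, N₁, M₁, hu, hNu, hMu, hmon, hdN, hdM, hMc, hN10, hNr, hbM, he2⟩ :=
    fin_shape hp hS hc hc0 hN hM hN0 he1 hd hd0
  have hpm : p - 1 = 2 * m := by omega
  rw [hpm] at hdM hMc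
  have hcop : IsCoprime (N₁.map (algebraMap R K)) (M₁.map (algebraMap R K)) := by
    have h1 := hR.1
    rw [hNu, hMu, Polynomial.map_mul, Polynomial.map_mul] at h1
    exact h1.of_mul_left_right.of_mul_right_right
  obtain ⟨D, hMD, hDd, hDm⟩ := fin_square hS hc0 hdM hMc hbM hcop he2
  have hD0 : D ≠ 0 := by
    rintro rfl
    exact hc0 (by rw [← hDm, coeff_zero])
  subst hMD
  have hDr : ∃ b : k, b ≠ 0 ∧ D.map red = C b := by
    obtain ⟨b, hb, h1⟩ := hbM
    have h2 := congrArg natDegree h1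
    rw [Polynomial.map_pow, natDegree_pow, natDegree_C] at h2
    have h3 : (D.map red).natDegree = 0 := by omega
    refine ⟨(D.map red).coeff 0, ?_, eq_C_of_natDegree_eq_zero h3⟩
    intro h4
    have h5 := congrArg (fun g : k[X] => g.coeff 0) h1
    beta_reduce at h5
    rw [Polynomial.map_pow, sq, mul_coeff_zero, h4, mul_zero, coeff_C_zero] at h5
    exact hb h5.symm
  have he3 : fC q t * (derivative N₁ * D - 2 * N₁ * derivative D) ^ 2 =
      C c ^ 2 * (N₁ ^ 3 + C q * D ^ 2 * (N₁ + C s * D ^ 2) ^ 2) := by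
    apply mul_left_cancel₀ (pow_ne_zero 2 hD0)
    have h1 : derivative (D ^ 2) = 2 * D * derivative D := by
      rw [sq, derivative_mul]
      ring
    rw [h1] at he2
    linear_combination he2
  have hv1 : t * N₁.coeff 1 = (e : R) * s * c * D.coeff 0 ^ 2 := by
    rw [hNu, hMu, coeff_C_mul, coeff_C_mul] at hv
    have h1 : (D ^ 2).coeff 0 = D.coeff 0 ^ 2 := by
      rw [sq, mul_coeff_zero, sq]
    rw [h1] at hv
    apply mul_left_cancel₀ hu.ne_zero
    linear_combination hv
  exact ⟨N₁, C (e : R) * D, fin_data hp h5 hm hS h4 ht0 h27 hc hmon hdN hN10 hNr hDd hDm hDr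
    he3 he hv1⟩

end Pool.Agent.MP_2a5e5c_nt
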