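import Pool.Agent.Lib.MP_2a5e5c_nt.Seq

/-!
# SUN, block H (hypergeometric part): definitions
-/

namespace Pool.Agent.MP_2a5e5c_nt

open Polynomial

/-- `A k = binom(-1/3,k) binom(-1/6,k)` for `k < p`. -/
def IsA {S : Type*} [CommRing S] (p : ℕ) (A : ℕ → S) : Prop :=
  A 0 = 1 ∧ ∀ k : ℕ, k + 1 < p →
    18 * ((k : S) + 1) ^ 2 * A (k + 1) = (3 * (k : S) + 1) * (6 * (k : S) + 1) * A k

/-- `G k = binom(-2/3,k) binom(-5/6,k)` for `k < p`. -/
def IsG {S : Type*} [CommRing S] (p : ℕ) (G : ℕ → S) : Prop :=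
  G 0 = 1 ∧ ∀ k : ℕ, k + 1 < p →
    18 * ((k : S) + 1) ^ 2 * G (k + 1) = (3 * (k : S) + 2) * (6 * (k : S) + 5) * G k

/-- The binomial coefficient `binom(a,k)` of a rational number `a`. -/
def bin (a : ℚ) (k : ℕ) : ℚ := (∏ i ∈ Finset.range k, (a - i)) / k.factorial

/-- `S_1(p)`. -/
def S1 (p : ℕ) : ℚ := ∑ k ∈ Finset.range p, bin (-1 / 3) k * bin (-1 / 6) k / (-1024) ^ k

/-- `S_2(p)`. -/
def S2 (p : ℕ) : ℚ := ∑ k ∈ Finset.range p, bin (-2 / 3) k * bin (-5 / 6) k / (-1024) ^ k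

/-- `T(p)`. -/
def Tsum (p : ℕ) : ℚ := ∑ k ∈ Finset.range ((p - 5) / 6 + 1),
  (((p - 2) / 3).choose k : ℚ) * (((p - 5) / 6).choose k : ℚ) / (-1024) ^ k

/-- Congruence modulo `p^m` of rational numbers: the difference is `p^m` times a rational number
whose denominator is prime to `p`. -/
def CongQ (p m : ℕ) (u v : ℚ) : Prop := ∃ w : ℚ, ¬ p ∣ w.den ∧ u - v = (p : ℚ) ^ m * w

/-- `x` is the image in `S` of the rational number `u`, whose denominator is prime to `p`. -/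
def QS {S : Type*} [CommRing S] (p : ℕ) (u : ℚ) (x : S) : Prop :=
  ¬ p ∣ u.den ∧ (u.den : S) * x = (u.num : S)

/-- The polynomial `108 X (1 - 27 X)`. -/
noncomputable def zP (R : Type*) [CommRing R] : R[X] := 108 * X * (1 - 27 * X)

/-- `n`, replaced by `1` if `p` divides `n`. -/
def hz (p : ℕ) (n : ℤ) : ℤ := if (p : ℤ) ∣ n then 1 else n

end Pool.Agent.MP_2a5e5c_nt
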