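import Pool.Agent.Lib.MP_2a5e5c_nt.HGdef

/-!
# SUN, module HGode: the differential equation and the recursion of the coefficients

PROOF. `HG_rec`: compare the coefficients of `X^n` (`coeff_derivative`, `coeff_X_mul`; treat
`n = 0`, `n = 1`, `n + 2` separately, or write `X * (1 - 27 X) * y'' = X y'' - 27 X² y''`); the left
side has the coefficient `(n+1) n y_(n+1) - 27 n (n-1) y_n + (n+1) y_(n+1) - 54 n y_n - 6 y_n`.

`HG_Y`: put `Y = ∑_{k ≤ N} A_k X^k`. Then
`18 X (1 - X) Y'' + (18 - 27 X) Y' - Y = -(3N+1)(6N+1) A_N X^N`: the coefficient of `X^k` of the left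
side is `18 (k+1)² A_(k+1) - (3k+1)(6k+1) A_k` (with `A_(N+1)` replaced by `0`). Easiest: induction
on `N` (the step adds `A_(N+1) X^(N+1)`).

`HG_odeA`: `y = Y.comp z`, `derivative_comp`; with `z' = 108 (1 - 54 X)` and
`(1 - 54 X)² = 1 - z` one has
`X (1-27X) y'' + (1-54X) y' - 6 y = 6 (18 z (1-z) Y''(z) + (18 - 27 z) Y'(z) - Y(z))`.

`HG_odeG`: `Y = ∑_{k ≤ N} G_k X^k` satisfies
`18 X (1-X) Y'' + (18 - 45 X) Y' - 10 Y = -(3N+2)(6N+5) G_N X^N`, and for `y = (1-54X) Y(z)`:
`X (1-27X) y'' + (1-54X) y' - 6 y = 6 (1-54X) (18 z (1-z) Y''(z) + (18 - 45 z) Y'(z) - 10 Y(z))`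
(`y' = 108 (1-z) Y'(z) - 54 Y(z)`, `y'' = 108 (1-54X) (108 (1-z) Y''(z) - 162 Y'(z))`).
-/

namespace Pool.Agent.MP_2a5e5c_nt

open Polynomial

theorem HG_rec {R : Type*} [CommRing R] (y r : R[X])
    (h : X * (1 - 27 * X) * derivative (derivative y) + (1 - 54 * X) * derivative y - 6 * y = r)
    (n : ℕ) : ((n : R) + 1) ^ 2 * y.coeff (n + 1) =
      3 * (3 * (n : R) + 1) * (3 * (n : R) + 2) * y.coeff n + r.coeff n := by
  have h27 : (27 : R[X]) = C 27 := rfl
  have h54 : (54 : R[X]) = C 54 := rfl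
  have h6 : (6 : R[X]) = C 6 := rfl
  have e : X * (1 - 27 * X) * derivative (derivative y) + (1 - 54 * X) * derivative y - 6 * y =
      X * derivative (derivative y) - C 27 * (X * (X * derivative (derivative y)))
        + derivative y - C 54 * (X * derivative y) - C 6 * y := by
    rw [← h27, ← h54, ← h6]
    ring
  have hc := congrArg (fun q : R[X] => q.coeff n) h
  simp only [e, coeff_add, coeff_sub, coeff_C_mul] at hc
  match n with
  | 0 =>
    simp only [coeff_X_mul_zero, coeff_derivative] at hc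
    rw [← hc]
    push_cast
    ring
  | 1 =>
    rw [coeff_X_mul, coeff_X_mul, coeff_X_mul_zero, coeff_X_mul] at hc
    simp only [coeff_derivative] at hc
    rw [← hc]
    push_cast
    ring
  | n + 2 =>
    rw [coeff_X_mul, coeff_X_mul, coeff_X_mul, coeff_X_mul] at hc
    simp only [coeff_derivative] at hc
    rw [← hc]
    push_cast
    ring

theorem HG_dz (R : Type*) [CommRing R] : derivative (zP R) = 108 * (1 - 54 * X) := by
  have h27 : (27 : R[X]) = C 27 := rfl
  have h108 : (108 : R[X]) = C 108 := rfl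
  have e : zP R = C 108 * X - C 108 * (C 27 * (X * X)) := by
    rw [zP, ← h27, ← h108]
    ring
  rw [e]
  simp only [derivative_sub, derivative_mul, derivative_C, derivative_X, zero_mul, zero_add]
  rw [← h27, ← h108]
  ring

theorem HG_dw (R : Type*) [CommRing R] : derivative (1 - 54 * X : R[X]) = - 54 := by
  have h54 : (54 : R[X]) = C 54 := rfl
  rw [h54]
  simp only [derivative_sub, derivative_mul, derivative_C, derivative_X, zero_mul, zero_add,
    derivative_one]
  ring

theorem HG_d1 (R : Type*) [CommRing R] (k : ℕ) :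
    derivative (zP R ^ (k + 1)) = ((k : R[X]) + 1) * zP R ^ k * (108 * (1 - 54 * X)) := by
  rw [derivative_pow_succ, HG_dz]
  simp

theorem HG_d2 (R : Type*) [CommRing R] (k : ℕ) :
    X * (1 - 27 * X) * derivative (derivative (zP R ^ (k + 1))) =
      ((k : R[X]) + 1) * (108 * (k : R[X]) * zP R ^ k * (1 - zP R) - 54 * zP R ^ (k + 1)) := by
  have h108 : (108 : R[X]) = C 108 := rfl
  have hk : ((k : R[X]) + 1) = C ((k : R) + 1) := by simp
  have e1 : derivative (zP R ^ (k + 1)) =
      C ((k : R) + 1) * (C 108 * (zP R ^ k * (1 - 54 * X))) := by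
    rw [HG_d1, ← hk, ← h108]
    ring
  rw [e1]
  simp only [derivative_mul, derivative_C, zero_mul, zero_add]
  rw [HG_dw, ← hk, ← h108]
  cases k with
  | zero =>
    simp only [pow_zero, derivative_one, Nat.cast_zero, zP]
    ring
  | succ k =>
    rw [HG_d1]
    push_cast
    have hz : zP R = 108 * X * (1 - 27 * X) := rfl
    generalize zP R = z at hz ⊢
    rw [pow_succ z (k + 1), pow_succ z k]
    have : (1 - 54 * X : R[X]) ^ 2 = 1 - z := by
      rw [hz]
      ring
    have h2 : X * (1 - 27 * X : R[X]) * 108 = z := by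
      rw [hz]
      ring
    linear_combination ((k : R[X]) + 1 + 1) * ((k : R[X]) + 1) * z ^ k * 108 *
      (X * (1 - 27 * X) * 108) * this + (((k : R[X]) + 1 + 1) * ((k : R[X]) + 1) * z ^ k * 108 *
      (1 - z) - ((k : R[X]) + 1 + 1) * 54 * z ^ k * z) * h2

/-- The differential operator on the powers of `z`. -/
theorem HG_L (R : Type*) [CommRing R] (k : ℕ) :
    X * (1 - 27 * X) * derivative (derivative (zP R ^ (k + 1)))
      + (1 - 54 * X) * derivative (zP R ^ (k + 1)) - 6 * zP R ^ (k + 1) =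
      6 * (18 * ((k : R[X]) + 1) ^ 2 * zP R ^ k
        - (3 * ((k : R[X]) + 1) + 1) * (6 * ((k : R[X]) + 1) + 1) * zP R ^ (k + 1)) := by
  rw [HG_d2, HG_d1]
  have hz : zP R = 108 * X * (1 - 27 * X) := rfl
  have : (1 - 54 * X : R[X]) ^ 2 = 1 - zP R := by
    rw [hz]
    ring
  generalize zP R = z at this ⊢
  rw [pow_succ z k]
  linear_combination ((k : R[X]) + 1) * z ^ k * 108 * this

theorem HG_LG (R : Type*) [CommRing R] (k : ℕ) :
    X * (1 - 27 * X) * derivative (derivative ((1 - 54 * X) * zP R ^ (k + 1)))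
      + (1 - 54 * X) * derivative ((1 - 54 * X) * zP R ^ (k + 1))
      - 6 * ((1 - 54 * X) * zP R ^ (k + 1)) =
      6 * (1 - 54 * X) * (18 * ((k : R[X]) + 1) ^ 2 * zP R ^ k
        - (3 * ((k : R[X]) + 1) + 2) * (6 * ((k : R[X]) + 1) + 5) * zP R ^ (k + 1)) := by
  have h54 : (- 54 : R[X]) = C (- 54) := by rw [C_neg]; rfl
  have e1 : derivative ((1 - 54 * X) * zP R ^ (k + 1)) =
      C (- 54) * zP R ^ (k + 1) + (1 - 54 * X) * derivative (zP R ^ (k + 1)) := by
    rw [derivative_mul, HG_dw, h54]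
  have e2 : derivative (derivative ((1 - 54 * X) * zP R ^ (k + 1))) =
      C (- 54) * derivative (zP R ^ (k + 1)) + (C (- 54) * derivative (zP R ^ (k + 1))
        + (1 - 54 * X) * derivative (derivative (zP R ^ (k + 1)))) := by
    rw [e1, derivative_add, derivative_mul, derivative_C, zero_mul, zero_add, derivative_mul,
      HG_dw, h54]
  rw [e2, e1]
  have hL := HG_L R k
  have h1 := HG_d1 R k
  rw [← h54]
  have h2 : X * (1 - 27 * X : R[X]) * 108 = zP R := by
    rw [zP]
    ring
  generalize derivative (derivative (zP R ^ (k + 1))) = D2 at hL ⊢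
  generalize derivative (zP R ^ (k + 1)) = D1 at hL h1 ⊢
  generalize zP R = z at hL h1 h2 ⊢
  rw [pow_succ z k] at *
  linear_combination (1 - 54 * X) * hL + X * (1 - 27 * X) * (- 108) * h1
    - 108 * ((k : R[X]) + 1) * z ^ k * (1 - 54 * X) * h2

theorem HG_odeA {R : Type*} [CommRing R] (A : ℕ → R) (N : ℕ)
    (hA : ∀ k < N, 18 * ((k : R) + 1) ^ 2 * A (k + 1) =
      (3 * (k : R) + 1) * (6 * (k : R) + 1) * A k) (y : R[X])
    (hy : y = ∑ k ∈ Finset.range (N + 1), C (A k) * zP R ^ k) :
    X * (1 - 27 * X) * derivative (derivative y) + (1 - 54 * X) * derivative y - 6 * y =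
      - (6 * C ((3 * (N : R) + 1) * (6 * (N : R) + 1) * A N) * zP R ^ N) := by
  subst hy
  induction N with
  | zero =>
    simp
  | succ N ih =>
    have ih' := ih (fun k hk => hA k (by omega))
    have hk : ((N : R[X]) + 1) = C ((N : R) + 1) := by simp
    rw [Finset.sum_range_succ]
    generalize ∑ k ∈ Finset.range (N + 1), C (A k) * zP R ^ k = y at ih' ⊢
    rw [derivative_add, derivative_add, derivative_C_mul, derivative_C_mul]
    have hL := HG_L R N
    have hr := congrArg (fun r : R => (C r : R[X])) (hA N (by omega))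
    simp only [map_mul, map_add, map_pow, map_one, map_natCast, map_ofNat] at hr ih' ⊢
    push_cast
    linear_combination ih' + C (A (N + 1)) * hL + 6 * zP R ^ N * hr

theorem HG_odeG {R : Type*} [CommRing R] (G : ℕ → R) (N : ℕ)
    (hG : ∀ k < N, 18 * ((k : R) + 1) ^ 2 * G (k + 1) =
      (3 * (k : R) + 2) * (6 * (k : R) + 5) * G k) (y : R[X])
    (hy : y = (1 - 54 * X) * ∑ k ∈ Finset.range (N + 1), C (G k) * zP R ^ k) :
    X * (1 - 27 * X) * derivative (derivative y) + (1 - 54 * X) * derivative y - 6 * y =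
      - (6 * (1 - 54 * X) * C ((3 * (N : R) + 2) * (6 * (N : R) + 5) * G N) * zP R ^ N) := by
  subst hy
  induction N with
  | zero =>
    simp only [zero_add, Finset.range_one, Finset.sum_singleton, pow_zero, mul_one]
    have h54 : (- 54 : R[X]) = C (- 54) := by rw [C_neg]; rfl
    have e1 : derivative ((1 - 54 * X) * C (G 0)) = C (- 54) * C (G 0) := by
      rw [derivative_mul, HG_dw, h54, derivative_C, mul_zero, add_zero]
    rw [e1, derivative_mul, derivative_C, derivative_C, ← h54]
    simp only [Nat.cast_zero, map_mul, map_add, map_zero, map_ofNat]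
    ring
  | succ N ih =>
    have ih' := ih (fun k hk => hG k (by omega))
    rw [Finset.sum_range_succ, mul_add]
    generalize (1 - 54 * X) * ∑ k ∈ Finset.range (N + 1), C (G k) * zP R ^ k = y at ih' ⊢
    have e : (1 - 54 * X) * (C (G (N + 1)) * zP R ^ (N + 1)) =
        C (G (N + 1)) * ((1 - 54 * X) * zP R ^ (N + 1)) := by ring
    rw [e, derivative_add, derivative_add, derivative_C_mul, derivative_C_mul]
    have hL := HG_LG R N
    have hr := congrArg (fun r : R => (C r : R[X])) (hG N (by omega))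
    simp only [map_mul, map_add, map_pow, map_one, map_natCast, map_ofNat] at hr ih' ⊢
    push_cast
    linear_combination ih' + C (G (N + 1)) * hL + 6 * (1 - 54 * X) * zP R ^ N * hr

end Pool.Agent.MP_2a5e5c_nt
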