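import Pool.Agent.Lib.MP_2a5e5c_nt.HGdef

/-!
# SUN, module HGqs: images of `p`-integral rational numbers

`QS p u x`: the denominator of `u` is prime to `p` and `x` is the image of `u` in `S`. Throughout
`hu`: the integers prime to `p` are units in `S`.

PROOF. `QS_iff`: `→`: `a = u.num`, `b = u.den` (`Rat.num_div_den`). `←`: `u = a / b` gives
`u.num * b = a * u.den` (`Rat.div_int_inj`, `Rat.mul_self_num`..., or cross multiplication and
`Rat.num_div_den`), and `u.den ∣ b` (`Rat.den_dvd`), so `¬ p ∣ u.den`; multiply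
`u.num * b = a * u.den` out in `S` and cancel the unit `b` (for negative `b` use `Int.natAbs`).
The closure properties follow from `QS_iff` (common denominators).
`QS_cong`: `u = a/b`, `v = c/d`, so in `S`: `a d - c b = b d x - d b x = 0`, so `p^m` divides
`a d - c b`, and `u - v = (a d - c b)/(b d) = p^m * (e / (b d))`. `CongQ_QS`: `v = u - p^m w`, the
image of `p^m w` is `0`.
-/

namespace Pool.Agent.MP_2a5e5c_nt

variable {S : Type*} [CommRing S] {p : ℕ}

/-- Integers prime to `p` are units. -/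
theorem QS_unitZ (hu : ∀ n : ℕ, ¬ p ∣ n → IsUnit (n : S)) (b : ℤ) (hb : ¬ (p : ℤ) ∣ b) :
    IsUnit (b : S) := by
  have h1 : ¬ p ∣ b.natAbs := by
    intro h
    exact hb (Int.natCast_dvd.mpr h)
  have h2 := hu _ h1
  rcases Int.natAbs_eq b with h | h
  · rw [h, Int.cast_natCast]; exact h2
  · rw [h, Int.cast_neg, Int.cast_natCast]; exact h2.neg

theorem QS_iff (hp : p.Prime) (hu : ∀ n : ℕ, ¬ p ∣ n → IsUnit (n : S)) (u : ℚ) (x : S) :
    QS p u x ↔ ∃ a b : ℤ, ¬ (p : ℤ) ∣ b ∧ u = a / b ∧ (b : S) * x = (a : S) := by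
  constructor
  · rintro ⟨h1, h2⟩
    refine ⟨u.num, u.den, ?_, ?_, ?_⟩
    · intro h
      exact h1 (by exact_mod_cast h)
    · exact_mod_cast (Rat.num_div_den u).symm
    · exact_mod_cast h2
  · rintro ⟨a, b, hb, hab, hx⟩
    have hb0 : b ≠ 0 := by
      rintro rfl
      exact hb (dvd_zero _)
    have hbq : (b : ℚ) ≠ 0 := by exact_mod_cast hb0
    have hdq : (u.den : ℚ) ≠ 0 := by exact_mod_cast u.den_ne_zero
    have hcross : u.num * b = a * (u.den : ℤ) := by
      have h1 : (u.num : ℚ) / u.den = a / b := by rw [Rat.num_div_den]; exact hab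
      rw [div_eq_div_iff hdq hbq] at h1
      exact_mod_cast h1
    have hdvd : (u.den : ℤ) ∣ b := by
      rw [hab, ← Rat.divInt_eq_div]
      exact Rat.den_dvd a b
    have hden : ¬ p ∣ u.den := by
      intro h
      apply hb
      exact dvd_trans (by exact_mod_cast h) hdvd
    refine ⟨hden, ?_⟩
    have hub := QS_unitZ hu b hb
    apply hub.mul_left_cancel
    have hcS : (u.num : S) * (b : S) = (a : S) * (u.den : S) := by
      have := congrArg (Int.cast : ℤ → S) hcross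
      push_cast at this
      exact this
    calc (b : S) * ((u.den : S) * x) = ((b : S) * x) * (u.den : S) := by ring
      _ = (a : S) * (u.den : S) := by rw [hx]
      _ = (b : S) * (u.num : S) := by rw [← hcS]; ring

theorem QS_int (hp : p.Prime) (n : ℤ) : QS p (n : ℚ) (n : S) := by
  refine ⟨?_, ?_⟩
  · rw [Rat.den_intCast]
    exact hp.one_lt.ne' ∘ Nat.dvd_one.mp
  · rw [Rat.den_intCast, Rat.num_intCast]
    simp

theorem QS_inv (hp : p.Prime) (hu : ∀ n : ℕ, ¬ p ∣ n → IsUnit (n : S)) (n : ℤ)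
    (hn : ¬ (p : ℤ) ∣ n) (x : S) (hx : (n : S) * x = 1) : QS p (1 / (n : ℚ)) x := by
  rw [QS_iff hp hu]
  exact ⟨1, n, hn, by push_cast; ring, by push_cast; exact hx⟩

theorem QS_mulZ (hp : p.Prime) {b d : ℤ} (hb : ¬ (p : ℤ) ∣ b) (hd : ¬ (p : ℤ) ∣ d) :
    ¬ (p : ℤ) ∣ b * d := by
  intro h
  rcases (Nat.prime_iff_prime_int.mp hp).dvd_or_dvd h with h | h
  · exact hb h
  · exact hd h

theorem QS_ne0 {b : ℤ} (hb : ¬ (p : ℤ) ∣ b) : (b : ℚ) ≠ 0 := by
  intro h
  have : b = 0 := by exact_mod_cast h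
  exact hb (this ▸ dvd_zero _)

theorem QS_add (hp : p.Prime) (hu : ∀ n : ℕ, ¬ p ∣ n → IsUnit (n : S)) {u v : ℚ} {x y : S}
    (h : QS p u x) (h' : QS p v y) : QS p (u + v) (x + y) := by
  rw [QS_iff hp hu] at h h' ⊢
  obtain ⟨a, b, hb, hab, hx⟩ := h
  obtain ⟨c, d, hd, hcd, hy⟩ := h'
  have hb0 := QS_ne0 hb
  have hd0 := QS_ne0 hd
  refine ⟨a * d + c * b, b * d, QS_mulZ hp hb hd, ?_, ?_⟩
  · rw [hab, hcd]; push_cast; field_simp
  · push_cast
    linear_combination (d : S) * hx + (b : S) * hy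

theorem QS_mul (hp : p.Prime) (hu : ∀ n : ℕ, ¬ p ∣ n → IsUnit (n : S)) {u v : ℚ} {x y : S}
    (h : QS p u x) (h' : QS p v y) : QS p (u * v) (x * y) := by
  rw [QS_iff hp hu] at h h' ⊢
  obtain ⟨a, b, hb, hab, hx⟩ := h
  obtain ⟨c, d, hd, hcd, hy⟩ := h'
  have hb0 := QS_ne0 hb
  have hd0 := QS_ne0 hd
  refine ⟨a * c, b * d, QS_mulZ hp hb hd, ?_, ?_⟩
  · rw [hab, hcd]; push_cast; field_simp
  · push_cast
    linear_combination (d : S) * y * hx + (a : S) * hy

theorem QS_neg (hp : p.Prime) (hu : ∀ n : ℕ, ¬ p ∣ n → IsUnit (n : S)) {u : ℚ} {x : S}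
    (h : QS p u x) : QS p (-u) (-x) := by
  rw [QS_iff hp hu] at h ⊢
  obtain ⟨a, b, hb, hab, hx⟩ := h
  refine ⟨-a, b, hb, ?_, ?_⟩
  · rw [hab]; push_cast; ring
  · push_cast
    linear_combination -hx

theorem QS_sub (hp : p.Prime) (hu : ∀ n : ℕ, ¬ p ∣ n → IsUnit (n : S)) {u v : ℚ} {x y : S}
    (h : QS p u x) (h' : QS p v y) : QS p (u - v) (x - y) := by
  rw [sub_eq_add_neg, sub_eq_add_neg]
  exact QS_add hp hu h (QS_neg hp hu h')

theorem QS_one (hp : p.Prime) : QS p (1 : ℚ) (1 : S) := by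
  have := QS_int (S := S) hp 1
  simpa using this

theorem QS_zero (hp : p.Prime) : QS p (0 : ℚ) (0 : S) := by
  have := QS_int (S := S) hp 0
  simpa using this

theorem QS_pow (hp : p.Prime) (hu : ∀ n : ℕ, ¬ p ∣ n → IsUnit (n : S)) {u : ℚ} {x : S}
    (h : QS p u x) (n : ℕ) : QS p (u ^ n) (x ^ n) := by
  induction n with
  | zero => rw [pow_zero, pow_zero]; exact QS_one hp
  | succ n ih => rw [pow_succ, pow_succ]; exact QS_mul hp hu ih h

theorem QS_sum (hp : p.Prime) (hu : ∀ n : ℕ, ¬ p ∣ n → IsUnit (n : S)) {ι : Type*}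
    (s : Finset ι) (u : ι → ℚ) (x : ι → S) (h : ∀ i ∈ s, QS p (u i) (x i)) :
    QS p (∑ i ∈ s, u i) (∑ i ∈ s, x i) := by
  classical
  induction s using Finset.induction_on with
  | empty => rw [Finset.sum_empty, Finset.sum_empty]; exact QS_zero hp
  | insert i s hi ih =>
    rw [Finset.sum_insert hi, Finset.sum_insert hi]
    exact QS_add hp hu (h i (Finset.mem_insert_self _ _))
      (ih fun j hj => h j (Finset.mem_insert_of_mem hj))

theorem QS_prod (hp : p.Prime) (hu : ∀ n : ℕ, ¬ p ∣ n → IsUnit (n : S)) {ι : Type*}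
    (s : Finset ι) (u : ι → ℚ) (x : ι → S) (h : ∀ i ∈ s, QS p (u i) (x i)) :
    QS p (∏ i ∈ s, u i) (∏ i ∈ s, x i) := by
  classical
  induction s using Finset.induction_on with
  | empty => rw [Finset.prod_empty, Finset.prod_empty]; exact QS_one hp
  | insert i s hi ih =>
    rw [Finset.prod_insert hi, Finset.prod_insert hi]
    exact QS_mul hp hu (h i (Finset.mem_insert_self _ _))
      (ih fun j hj => h j (Finset.mem_insert_of_mem hj))

theorem QS_unique (hp : p.Prime) (hu : ∀ n : ℕ, ¬ p ∣ n → IsUnit (n : S)) {u : ℚ} {x y : S}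
    (h : QS p u x) (h' : QS p u y) : x = y := by
  apply (hu _ h.1).mul_left_cancel
  rw [h.2, h'.2]

theorem QS_exists (hp : p.Prime) (hu : ∀ n : ℕ, ¬ p ∣ n → IsUnit (n : S)) {u : ℚ}
    (h : ¬ p ∣ u.den) : ∃ x : S, QS p u x := by
  obtain ⟨w, hw⟩ := hu _ h
  refine ⟨(↑w⁻¹ : S) * (u.num : S), h, ?_⟩
  rw [← hw, ← mul_assoc, Units.mul_inv, one_mul]

theorem QS_cong (hp : p.Prime) (hu : ∀ n : ℕ, ¬ p ∣ n → IsUnit (n : S)) (m : ℕ)
    (hinj : ∀ n : ℤ, (n : S) = 0 → (p : ℤ) ^ m ∣ n) {u v : ℚ} {x : S} (h : QS p u x)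
    (h' : QS p v x) : CongQ p m u v := by
  rw [QS_iff hp hu] at h h'
  obtain ⟨a, b, hb, hab, hx⟩ := h
  obtain ⟨c, d, hd, hcd, hy⟩ := h'
  have hb0 := QS_ne0 hb
  have hd0 := QS_ne0 hd
  have h0 : ((a * d - c * b : ℤ) : S) = 0 := by
    push_cast
    linear_combination (b : S) * hy - (d : S) * hx
  obtain ⟨e, he⟩ := hinj _ h0
  have hbd := QS_mulZ hp hb hd
  refine ⟨(e : ℚ) / ((b * d : ℤ) : ℚ), ?_, ?_⟩
  · intro hcon
    apply hbd
    have hdvd : (((e : ℚ) / ((b * d : ℤ) : ℚ)).den : ℤ) ∣ b * d := by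
      rw [← Rat.divInt_eq_div]
      exact Rat.den_dvd e (b * d)
    exact dvd_trans (by exact_mod_cast hcon) hdvd
  · have heq : (a : ℚ) * d - c * b = (p : ℚ) ^ m * e := by exact_mod_cast he
    rw [hab, hcd]
    push_cast
    field_simp
    linear_combination heq

theorem CongQ_QS (hp : p.Prime) (hu : ∀ n : ℕ, ¬ p ∣ n → IsUnit (n : S)) (m : ℕ)
    (hm : ((p : ℕ) : S) ^ m = 0) {u v : ℚ} {x : S} (hc : CongQ p m u v) (h : QS p u x) :
    QS p v x := by
  obtain ⟨w, hw, huv⟩ := hc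
  obtain ⟨y, hy⟩ := QS_exists (S := S) hp hu hw
  have hpp : QS p ((p : ℚ) ^ m) (((p : ℕ) : S) ^ m) := by
    have := QS_int (S := S) hp ((p : ℤ))
    exact QS_pow hp hu (by simpa using this) m
  have h2 := QS_sub hp hu h (QS_mul hp hu hpp hy)
  rw [hm, zero_mul, sub_zero, ← huv] at h2
  have : u - (u - v) = v := by ring
  rwa [this] at h2

end Pool.Agent.MP_2a5e5c_nt
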