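import Pool.Agent.Lib.MP_2a5e5c_nt.LawP
import Pool.Agent.Lib.MP_2a5e5c_nt.HgtP

/-!
# SUN, module HtG: the height on the group of points

PROOF. `ht P` is the height of a chosen representative; by `rep_unique` it is the height of
every representative (constants do not change degrees). The parallelogram law is `law_poly`
followed by `hgt_par` for representatives of `P, Q, P + Q, P - Q` (`rep_exists`, `rep_ne`).
-/

namespace Pool.Agent.MP_2a5e5c_nt

open Polynomial

variable {K : Type*} [Field K] {q t s : K}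

/-- The height of a point. -/
noncomputable def ht (P : Pt q t s) : ℕ :=
  hgt (rep_exists P).choose (rep_exists P).choose_spec.choose

theorem ht_eq {P : Pt q t s} {N M : K[X]} (h : Rep P N M) : ht P = hgt N M := by
  have h0 := (rep_exists P).choose_spec.choose_spec
  obtain ⟨c, hc, hN, hM⟩ := rep_unique h0 h
  unfold ht hgt
  rw [hN, hM, natDegree_C_mul hc, natDegree_C_mul hc]

theorem ht_zero : ht (0 : Pt q t s) = 0 := by
  rw [ht_eq rep_zero]
  simp [hgt]

theorem ht_par (h4 : 4 * q = 1) (hs : s ≠ 0) (h27 : 27 * s ≠ 1) (P Q : Pt q t s) :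
    ht (P + Q) + ht (P - Q) = 2 * ht P + 2 * ht Q := by
  obtain ⟨N₁, M₁, h₁⟩ := rep_exists P
  obtain ⟨N₂, M₂, h₂⟩ := rep_exists Q
  obtain ⟨N₃, M₃, h₃⟩ := rep_exists (P + Q)
  obtain ⟨N₄, M₄, h₄⟩ := rep_exists (P - Q)
  obtain ⟨lam, hl, h⟩ := law_poly h4 hs h27 h₁ h₂ h₃ h₄
  rw [ht_eq h₁, ht_eq h₂, ht_eq h₃, ht_eq h₄]
  exact hgt_par hs h27 hl (rep_ne h₁) (rep_ne h₂) (rep_ne h₃) (rep_ne h₄) h

end Pool.Agent.MP_2a5e5c_nt
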