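import Pool.Agent.Lib.MP_2a5e5c_nt.CoefF

/-!
# SUN, module Id0: the Hasse invariant modulo p

PROOF. `S` a ring with `p = 0`, `4q = 1`. `a k = C(m,m-k) q^(m-k) C(2(m-k),k)`. Exact recursion
(`k < m`): `(k+1)²(p-2k-2) a(k+1) = 2 (p-3k-1)(p-3k-2)(p-3k-3) a k`; modulo `p` this is
`(k+1)³ a(k+1) = (3k+1)(3k+2)(3k+3) a k`, the recursion of `trin`; `a 0 = q^m = 1`
(`4^m = 2^(p-1) = 1`). So `a k = trin k` while `3k < p`. For `p < 3k`, `k < p`: `a k = 0` and
`trin k` is divisible by `p` (one factor of the recursion is `p`, units cancel). `hasse`: sum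
over `k < p = 2m+1` with `coef_A`.
-/

namespace Pool.Agent.MP_2a5e5c_nt

open Polynomial

private theorem Id0_a {S : Type*} [CommRing S] (N j : ℕ) :
    ((N : S) + 1) * (N.choose j : S) = ((N + 1).choose j : S) * ((N : S) + 1 - j) := by
  rcases le_or_gt j (N + 1) with h | h
  · have h2 := congrArg (Nat.cast : ℕ → S) (Nat.choose_mul_succ_eq N j)
    push_cast [Nat.cast_sub h] at h2
    linear_combination h2
  · rw [Nat.choose_eq_zero_of_lt h, Nat.choose_eq_zero_of_lt (by omega : N < j)]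
    simp

private theorem Id0_b {S : Type*} [CommRing S] (N j : ℕ) :
    (N.choose (j + 1) : S) * ((j : S) + 1) = (N.choose j : S) * ((N : S) - j) := by
  rcases le_or_gt j N with h | h
  · have h2 := congrArg (Nat.cast : ℕ → S) (Nat.choose_succ_right_eq N j)
    push_cast [Nat.cast_sub h] at h2
    exact h2
  · rw [Nat.choose_eq_zero_of_lt h, Nat.choose_eq_zero_of_lt (by omega : N < j + 1)]
    simp

private theorem Id0_alg {S : Type*} [CommRing S] {q K R Q c1 c2 d1 d2 x y : S} (h4 : 4 * q = 1)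
    (h0 : 2 * K + 2 * R + 3 = 0) (e1 : c2 * (R + 1) = c1 * (K + 1))
    (e2 : (2 * R + 1) * d1 = x * (2 * R - K)) (e3 : (2 * R + 2) * x = y * (2 * R + 1 - K))
    (e4 : y * (K + 1) = d2 * (2 * R + 2 - K)) :
    (K + 1) ^ 3 * (c1 * Q * d1) =
      (3 * K + 1) * (3 * K + 2) * (3 * K + 3) * (c2 * (Q * q) * d2) := by
  have e : (K + 1) * (2 * R + 2) * (2 * R + 1) * d1 =
      (2 * R + 2 - K) * (2 * R + 1 - K) * (2 * R - K) * d2 := by
    linear_combination (K + 1) * (2 * R + 2) * e2 + (K + 1) * (2 * R - K) * e3 +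
      (2 * R - K) * (2 * R + 1 - K) * e4
  have hR : 2 * R = -2 * K - 3 := by linear_combination h0
  have e' : 4 * (R + 1) * (K + 1) ^ 2 * d1 =
      (3 * K + 1) * (3 * K + 2) * (3 * K + 3) * d2 := by
    rw [hR] at e
    linear_combination -e + 2 * (K + 1) ^ 2 * d1 * h0
  linear_combination -(K + 1) ^ 2 * Q * d1 * e1 - (K + 1) ^ 2 * Q * d1 * c2 * (R + 1) * h4 +
    c2 * Q * q * e'

private theorem Id0_step {S : Type*} [CommRing S] {q : S} (h4 : 4 * q = 1) (k r : ℕ)
    (h0 : 2 * (k : S) + 2 * r + 3 = 0) :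
    ((k : S) + 1) ^ 3 * (((k + 1 + r).choose r : S) * q ^ r * ((2 * r).choose (k + 1) : S)) =
      (3 * k + 1) * (3 * k + 2) * (3 * k + 3) *
        (((k + 1 + r).choose (r + 1) : S) * q ^ (r + 1) * ((2 * (r + 1)).choose k : S)) := by
  have e1 := Id0_b (S := S) (k + 1 + r) r
  have e2 := Id0_a (S := S) (2 * r) (k + 1)
  have e3 := Id0_a (S := S) (2 * r + 1) (k + 1)
  have e4 := Id0_b (S := S) (2 * r + 1 + 1) k
  have e5 : 2 * (r + 1) = 2 * r + 1 + 1 := by ring
  push_cast at e1 e2 e3 e4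
  rw [e5, pow_succ q r]
  refine Id0_alg (x := ((2 * r + 1).choose (k + 1) : S))
    (y := ((2 * r + 1 + 1).choose (k + 1) : S)) h4 h0 ?_ ?_ ?_ ?_
  · linear_combination e1
  · linear_combination e2
  · linear_combination e3
  · linear_combination e4

private theorem Id0_pow {S : Type*} [CommRing S] {p m : ℕ} (hp : p.Prime)
    (hm : p = 2 * m + 1) (hS : (p : S) = 0) {q : S} (h4 : 4 * q = 1) : q ^ m = 1 := by
  have h2 : Nat.Coprime 2 p := by
    rw [hm]
    simp
  have h1 := Nat.ModEq.pow_totient h2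
  rw [Nat.totient_prime hp] at h1
  have h3 : 1 ≤ 2 ^ (p - 1) := Nat.one_le_two_pow
  obtain ⟨c, hc⟩ := (Nat.modEq_iff_dvd' h3).1 h1.symm
  have h5 : 2 ^ (p - 1) = p * c + 1 := by omega
  have h6 : p - 1 = 2 * m := by omega
  have h7 := congrArg (Nat.cast : ℕ → S) h5
  rw [h6, pow_mul] at h7
  push_cast at h7
  rw [hS, zero_mul, zero_add] at h7
  have h8 : ((4 : S) * q) ^ m = 1 := by rw [h4, one_pow]
  rw [mul_pow] at h8
  rwa [h7, one_mul] at h8

theorem id0 {S : Type*} [CommRing S] {p m : ℕ} (hp : p.Prime) (h5 : 5 ≤ p)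
    (hm : p = 2 * m + 1) (hS : (p : S) = 0) {q : S} (h4 : 4 * q = 1) {k : ℕ} (hk : k < p) :
    (m.choose (m - k) : S) * q ^ (m - k) * ((2 * (m - k)).choose k : S) = trin k := by
  rcases le_or_gt k m with hkm | hkm
  · induction k with
    | zero =>
      rw [Nat.sub_zero, Nat.choose_self, Nat.choose_zero_right, trin_zero, Nat.cast_one,
        one_mul, mul_one, Id0_pow hp hm hS h4]
    | succ k ih =>
      have ih' := ih (by omega) (by omega)
      obtain ⟨r, rfl⟩ : ∃ r, m = k + 1 + r := Nat.exists_eq_add_of_le hkm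
      have h0 : 2 * (k : S) + 2 * r + 3 = 0 := by
        have h := hS
        rw [hm] at h
        push_cast at h
        linear_combination h
      have h1 := Id0_step h4 k r h0
      have e1 : k + 1 + r - k = r + 1 := by omega
      have e2 : k + 1 + r - (k + 1) = r := by omega
      rw [e1] at ih'
      rw [e2]
      have hk1 : IsUnit ((k + 1 : ℕ) : S) :=
        isUnit_of_not_dvd hp (by rw [hS]; ring) (fun h => by
          have := Nat.le_of_dvd (by omega) h
          omega)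
      refine (hk1.pow 3).mul_left_cancel ?_
      have ts := congrArg (Nat.cast : ℕ → S) (trin_succ k)
      push_cast at ts ⊢
      rw [ts, h1, ih']
  · have h1 : m - k = 0 := by omega
    have h2 : p ∣ (2 * k).choose k := hp.dvd_choose hk (by omega) (by omega)
    obtain ⟨c, hc⟩ := h2
    rw [h1, Nat.mul_zero, Nat.choose_eq_zero_of_lt (by omega : 0 < k), trin, hc]
    push_cast
    rw [hS]
    ring

theorem hasse {S : Type*} [CommRing S] {p m : ℕ} (hp : p.Prime) (h5 : 5 ≤ p)
    (hm : p = 2 * m + 1) (hS : (p : S) = 0) {q : S} (h4 : 4 * q = 1) (t : S) :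
    (fC q t ^ m).coeff (2 * m) = Hs p t := by
  rw [coef_A, Hs, ← hm]
  refine Finset.sum_congr rfl fun k hk => ?_
  rw [id0 hp h5 hm hS h4 (Finset.mem_range.1 hk)]

end Pool.Agent.MP_2a5e5c_nt
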