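import Pool.Agent.Lib.MP_2a5e5c_nt.Ini

/-!
# SUN, module Id1: first coefficient identity modulo p²

PROOF (checked numerically for `p < 60`). `S` a ring with `p² = 0`, `4q = 1`, `n = 3m + 1`,
`p = 2m + 1`. Write `τ = trin`, `b, c, d` for the three terms:
`b k = (-1)^(m-k) C(2(m-k),m-k) C(2(m-k),k) q^(2(m-k))`,
`c k = C(n,n-k) q^(n-k) C(2(n-k),k)`, `d k = C(n,m-k) q^(m-k) C(2(m-k),k)`.
Recursions (exact, from the definitions, integers with signs, `4q = 1`):
`(k+1)³ τ(k+1) = (3k+1)(3k+2)(3k+3) τ k` (`trin_succ`);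
`(k+1)(p-2k-2)² b(k+1) = -4 (p-3k-1)(p-3k-2)(p-3k-3) b k` for `k < m`;
`(k+1)²(3p-2k-2) c(k+1) = 2 (3p-3k-1)(3p-3k-2)(3p-3k-3) c k` for `k < n`;
`(k+1)(p+k+1)(p-2k-2) d(k+1) = 2 (p-3k-1)(p-3k-2)(p-3k-3) d k` for `k < m`.
RANGE 1, `3k < p`. Claim: with `w = 4 c 0 = q^(3m)` (so `p w = p`, `ini_fermat`) there are
`α, β, δ ∈ S` with `b k = τ k (1 - pα)`, `4 c k = w τ k (1 - pβ)`, `d k = w τ k (1 - pδ)`,
`2α - β + δ = 0`. `k = 0`: `α = β = δ = 0`: `b 0 = 1` (`ini_b`), `d 0 = C(n,m) q^m = q^(3m)`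
(`ini_d`). Step (`3k + 3 < p`, all `3k+i`, `k+1`, `2k+2` are units, `p - 3k - i =
-(3k+i)(1 - p/(3k+i))` etc.): with `σ = ∑_{i=1}^3 1/(3k+i)`, `e = 1/(k+1)`:
`α' = α + σ - e`, `β' = β + 3σ - (3/2)e`, `δ' = δ + σ + (1/2)e`, and `2α' - β' + δ' = 0`.
Then `b - 2c + 2qd = τ (1 - pα - (w/2)(1 - pβ) + (w/2)(1 - pδ)) = τ (1 - (p/2)(2α - β + δ)) = τ`.
RANGE 2, `p < 3k`, `k < p`: `b k = d k = 0` (`C(2(m-k),k) = 0`), claim `τ k = -2 c k` and
`p * c k = 0`. First index `k = j+1` with `3j < p < 3j + 3`: one of `3j+1, 3j+2` is `p`; the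
recursion of `τ` has the factor `p`, that of `c` the factor `3p - p = 2p`, the other factors
count modulo `p` only: `-2 (j+1)³ c(j+1) = 4 p ∏' (3j+i) c j`, `4 p c j = p τ j` (range 1), so
`-2(j+1)³ c(j+1) = p ∏' (3j+i) τ j = (j+1)³ τ(j+1)`. Later steps: `p * c k = 0` turns the recursion
of `c` into that of `τ` (`3p - 2k - 2` is a unit for `k + 1 < p`).
-/

namespace Pool.Agent.MP_2a5e5c_nt

private theorem Id1_a (N j : ℕ) :
    ((N : ℤ) + 1) * (N.choose j : ℤ) = ((N + 1).choose j : ℤ) * ((N : ℤ) + 1 - j) := by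
  rcases le_or_gt j (N + 1) with h | h
  · have h2 := congrArg (Nat.cast : ℕ → ℤ) (Nat.choose_mul_succ_eq N j)
    push_cast [Nat.cast_sub h] at h2
    linear_combination h2
  · rw [Nat.choose_eq_zero_of_lt h, Nat.choose_eq_zero_of_lt (by omega : N < j)]
    simp

private theorem Id1_b (N j : ℕ) :
    (N.choose (j + 1) : ℤ) * ((j : ℤ) + 1) = (N.choose j : ℤ) * ((N : ℤ) - j) := by
  rcases le_or_gt j N with h | h
  · have h2 := congrArg (Nat.cast : ℕ → ℤ) (Nat.choose_succ_right_eq N j)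
    push_cast [Nat.cast_sub h] at h2
    exact h2
  · rw [Nat.choose_eq_zero_of_lt h, Nat.choose_eq_zero_of_lt (by omega : N < j + 1)]
    simp

private theorem Id1_E (k r : ℕ) :
    ((k : ℤ) + 1) * (2 * r + 2) * (2 * r + 1) * ((2 * r).choose (k + 1) : ℤ) =
      (2 * r + 2 - k) * (2 * r + 1 - k) * (2 * r - k) * ((2 * (r + 1)).choose k : ℤ) := by
  have e1 := Id1_b (2 * r) k
  have e2 := Id1_a (2 * r) k
  have e3 := Id1_a (2 * r + 1) k
  have h : 2 * r + 1 + 1 = 2 * (r + 1) := by ring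
  rw [h] at e3
  push_cast at e1 e2 e3
  linear_combination (2 * (r : ℤ) + 2) * (2 * r + 1) * e1 +
    (2 * (r : ℤ) + 2) * (2 * r - k) * e2 + (2 * (r : ℤ) + 1 - k) * (2 * r - k) * e3

private theorem Id1_cd (N k r : ℕ) :
    ((k : ℤ) + 1) * ((N : ℤ) - r) * (2 * r + 1) *
        (2 * ((N.choose r : ℤ) * ((2 * r).choose (k + 1) : ℤ))) =
      (2 * r + 2 - k) * (2 * r + 1 - k) * (2 * r - k) *
        ((N.choose (r + 1) : ℤ) * ((2 * (r + 1)).choose k : ℤ)) := by
  have hr : (r : ℤ) + 1 ≠ 0 := by positivity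
  have e := Id1_E k r
  have e' := Id1_b N r
  refine mul_left_cancel₀ hr ?_
  linear_combination ((N : ℤ) - r) * (N.choose r : ℤ) * e -
    (2 * r + 2 - k) * (2 * r + 1 - k) * (2 * r - k) * ((2 * (r + 1)).choose k : ℤ) * e'

private theorem Id1_bb (k r : ℕ) :
    ((k : ℤ) + 1) * (2 * r + 1) ^ 2 *
        (4 * (((2 * r).choose r : ℤ) * ((2 * r).choose (k + 1) : ℤ))) =
      (2 * r + 2 - k) * (2 * r + 1 - k) * (2 * r - k) *
        (((2 * (r + 1)).choose (r + 1) : ℤ) * ((2 * (r + 1)).choose k : ℤ)) := by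
  have hr : (r : ℤ) + 1 ≠ 0 := by positivity
  have e := Id1_E k r
  have h1 := Nat.succ_mul_centralBinom_succ r
  rw [Nat.centralBinom_eq_two_mul_choose, Nat.centralBinom_eq_two_mul_choose] at h1
  have e' := congrArg (Nat.cast : ℕ → ℤ) h1
  push_cast at e'
  refine mul_left_cancel₀ hr ?_
  linear_combination 2 * (2 * (r : ℤ) + 1) * ((2 * r).choose r : ℤ) * e -
    (2 * r + 2 - k) * (2 * r + 1 - k) * (2 * r - k) * ((2 * (r + 1)).choose k : ℤ) * e'

section

variable {S : Type*} [CommRing S] {p m : ℕ} {q : S}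

private theorem Id1_recC (h4 : 4 * q = 1) (N k r : ℕ) :
    ((k : S) + 1) * ((N : S) - r) * (2 * r + 1) *
        ((N.choose r : S) * q ^ r * ((2 * r).choose (k + 1) : S)) =
      2 * ((2 * r + 2 - k) * (2 * r + 1 - k) * (2 * r - k)) *
        ((N.choose (r + 1) : S) * q ^ (r + 1) * ((2 * (r + 1)).choose k : S)) := by
  have J := congrArg (Int.cast : ℤ → S) (Id1_cd N k r)
  push_cast at J
  linear_combination (2 * q ^ (r + 1)) * J - ((k : S) + 1) * ((N : S) - r) * (2 * r + 1) *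
        ((N.choose r : S) * q ^ r * ((2 * r).choose (k + 1) : S)) * h4

private theorem Id1_recB (h4 : 4 * q = 1) (k r : ℕ) :
    ((k : S) + 1) * (2 * r + 1) ^ 2 *
        ((-1) ^ r * ((2 * r).choose r : S) * ((2 * r).choose (k + 1) : S) * q ^ (2 * r)) =
      -4 * ((2 * r + 2 - k) * (2 * r + 1 - k) * (2 * r - k)) *
        ((-1) ^ (r + 1) * ((2 * (r + 1)).choose (r + 1) : S) * ((2 * (r + 1)).choose k : S) *
          q ^ (2 * (r + 1))) := by
  have J := congrArg (Int.cast : ℤ → S) (Id1_bb k r)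
  push_cast at J
  have h16 : 16 * q ^ 2 = 1 := by linear_combination (4 * q + 1) * h4
  have hq : q ^ (2 * (r + 1)) = q ^ (2 * r) * q ^ 2 := by ring
  rw [hq, pow_succ (-1 : S) r]
  linear_combination ((-1) ^ r * q ^ (2 * r) * (4 * q ^ 2)) * J -
    ((k : S) + 1) * (2 * r + 1) ^ 2 *
        ((-1) ^ r * ((2 * r).choose r : S) * ((2 * r).choose (k + 1) : S) * q ^ (2 * r)) * h16

private theorem Id1_step {P u X y y' t t' W a f g : S} (hP : P ^ 2 = 0) (hu : IsUnit u)
    (H : u ^ 3 * y' * (1 - P * f) = X * y * (1 - P * g)) (Y : y = W * t * (1 - P * a))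
    (T : u ^ 3 * t' = X * t) : y' = W * t' * (1 - P * (a + g - f)) := by
  refine (hu.pow 3).mul_left_cancel ?_
  linear_combination (1 + P * f) * H + (1 + P * f) * X * (1 - P * g) * Y -
    (1 + P * f) * (1 - P * g) * (1 - P * a) * W * T +
    (u ^ 3 * y' * f ^ 2 + W * u ^ 3 * t' * (-f * g - f * a + g * a + P * f * g * a)) * hP

private theorem Id1_three {P a₁ a₂ a₃ x₁ x₂ x₃ : S} (hP : P ^ 2 = 0) (h₁ : a₁ * x₁ = 1)
    (h₂ : a₂ * x₂ = 1) (h₃ : a₃ * x₃ = 1) :
    (P - a₁) * (P - a₂) * (P - a₃) = -(a₁ * a₂ * a₃ * (1 - P * (x₁ + x₂ + x₃))) := by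
  have e₁ : P - a₁ = -a₁ * (1 - P * x₁) := by linear_combination (-P) * h₁
  have e₂ : P - a₂ = -a₂ * (1 - P * x₂) := by linear_combination (-P) * h₂
  have e₃ : P - a₃ = -a₃ * (1 - P * x₃) := by linear_combination (-P) * h₃
  rw [e₁, e₂, e₃]
  linear_combination (-(a₁ * a₂ * a₃) * ((x₁ * x₂ + x₁ * x₃ + x₂ * x₃) - P * x₁ * x₂ * x₃)) * hP

private theorem Id1_unit (hp : p.Prime) (hS : (p : S) ^ 2 = 0) (n : ℕ) (h0 : 0 < n) (h1 : n < p) :
    ∃ x : S, (n : S) * x = 1 := by
  have hu : IsUnit (n : S) :=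
    isUnit_of_not_dvd hp hS fun h => absurd (Nat.le_of_dvd h0 h) (by omega)
  exact hu.exists_right_inv

private theorem Id1_tau (k : ℕ) : ((k : S) + 1) ^ 3 * (trin (k + 1) : S) =
    (3 * k + 1) * (3 * k + 2) * (3 * k + 3) * (trin k : S) := by
  have h := congrArg (Nat.cast : ℕ → S) (trin_succ k)
  push_cast at h
  exact h

private theorem Id1_w (hp : p.Prime) (h5 : 5 ≤ p) (hm : p = 2 * m + 1) (hS : (p : S) ^ 2 = 0)
    (h4 : 4 * q = 1) : (p : S) * q ^ (3 * m) = p := by
  have h1 := ini_fermat (S := S) hp h5 hm hS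
  have h2 : (4 : S) ^ m * q ^ m = 1 := by rw [← mul_pow, h4, one_pow]
  have h3 : (p : S) * q ^ m = p := by
    linear_combination (p : S) * h2 - q ^ m * h1
  have h6 : q ^ (3 * m) = q ^ m * q ^ m * q ^ m := by ring
  rw [h6, ← mul_assoc, ← mul_assoc, h3, h3, h3]

private theorem Id1_R1 (hp : p.Prime) (h5 : 5 ≤ p) (hm : p = 2 * m + 1) (hS : (p : S) ^ 2 = 0)
    (h4 : 4 * q = 1) (k : ℕ) (hk : 3 * k < p) : ∃ α β δ : S,
      (-1) ^ (m - k) * ((2 * (m - k)).choose (m - k) : S) * ((2 * (m - k)).choose k : S) *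
        q ^ (2 * (m - k)) = 1 * (trin k : S) * (1 - p * α) ∧
      (((3 * m + 1).choose (3 * m + 1 - k) : S) * q ^ (3 * m + 1 - k) *
        ((2 * (3 * m + 1 - k)).choose k : S)) = (q * q ^ (3 * m)) * (trin k : S) * (1 - p * β) ∧
      (((3 * m + 1).choose (m - k) : S) * q ^ (m - k) *
        ((2 * (m - k)).choose k : S)) = q ^ (3 * m) * (trin k : S) * (1 - p * δ) ∧
      2 * α - β + δ = 0 := by
  induction k with
  | zero =>
    have h16 : (16 : S) ^ m * q ^ (2 * m) = 1 := by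
      rw [pow_mul, ← mul_pow]
      have : (16 : S) * q ^ 2 = 1 := by linear_combination (4 * q + 1) * h4
      rw [this, one_pow]
    have hb := ini_b (S := S) hp h5 hm hS
    have hd := ini_d (S := S) hp h5 hm hS
    refine ⟨0, 0, 0, ?_, ?_, ?_, by ring⟩
    · simp only [Nat.sub_zero, Nat.choose_zero_right, trin_zero, Nat.cast_one, mul_one, mul_zero,
        sub_zero]
      rw [hb, h16]
    · simp only [Nat.sub_zero, Nat.choose_zero_right, Nat.choose_self, trin_zero, Nat.cast_one,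
        mul_one, one_mul, mul_zero, sub_zero]
      ring
    · simp only [Nat.sub_zero, Nat.choose_zero_right, trin_zero, Nat.cast_one, mul_one, mul_zero,
        sub_zero]
      have h3 : q ^ (3 * m) = q ^ (2 * m) * q ^ m := by ring
      rw [h3]
      linear_combination (-(q ^ m) * ((3 * m + 1).choose m : S)) * h16 +
        (q ^ m * q ^ (2 * m)) * hd
  | succ k ih =>
    obtain ⟨α, β, δ, hα, hβ, hδ, hs⟩ := ih (by omega)
    obtain ⟨x₁, hx₁⟩ := Id1_unit (S := S) hp hS (3 * k + 1) (by omega) (by omega)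
    obtain ⟨x₂, hx₂⟩ := Id1_unit (S := S) hp hS (3 * k + 2) (by omega) (by omega)
    obtain ⟨x₃, hx₃⟩ := Id1_unit (S := S) hp hS (3 * k + 3) (by omega) (by omega)
    obtain ⟨e, he⟩ := Id1_unit (S := S) hp hS (k + 1) (by omega) (by omega)
    push_cast at hx₁ hx₂ hx₃ he
    have hu : IsUnit ((k : S) + 1) := IsUnit.of_mul_eq_one _ he
    have T := Id1_tau (S := S) k
    obtain ⟨r, hr⟩ : ∃ r, m = k + 1 + r := ⟨m - (k + 1), by omega⟩
    obtain ⟨s, hs'⟩ : ∃ s, 3 * m + 1 = k + 1 + s := ⟨3 * m + 1 - (k + 1), by omega⟩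
    have i1 : m - k = r + 1 := by omega
    have i2 : m - (k + 1) = r := by omega
    have i3 : 3 * m + 1 - k = s + 1 := by omega
    have i4 : 3 * m + 1 - (k + 1) = s := by omega
    rw [i1] at hα hδ
    rw [i3] at hβ
    rw [i2, i4]
    have hR : 2 * (r : S) + 2 * k + 3 = p := by
      have : 2 * r + 2 * k + 3 = p := by omega
      rw [← this]
      push_cast
      ring
    have hR' : 2 * (s : S) + 2 * k + 3 = 3 * p := by
      have : 2 * s + 2 * k + 3 = 3 * p := by omega
      have h := congrArg (Nat.cast : ℕ → S) this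
      push_cast at h
      exact h
    have hN : ((3 * m + 1 : ℕ) : S) - s = k + 1 := by
      rw [hs']
      push_cast
      ring
    have hN' : ((3 * m + 1 : ℕ) : S) - r = p + k + 1 := by
      have : 3 * m + 1 = p + k + 1 + r := by omega
      rw [this]
      push_cast
      ring
    have A := Id1_three hS hx₁ hx₂ hx₃
    have h3S : (3 * (p : S)) ^ 2 = 0 := by linear_combination 9 * hS
    have A3 := Id1_three h3S hx₁ hx₂ hx₃
    have RB := Id1_recB h4 k r
    have RC := Id1_recC h4 (3 * m + 1) k s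
    have RD := Id1_recC h4 (3 * m + 1) k r
    rw [hN] at RC
    rw [hN'] at RD
    generalize (-1) ^ r * ((2 * r).choose r : S) * ((2 * r).choose (k + 1) : S) *
      q ^ (2 * r) = b' at RB ⊢
    generalize ((3 * m + 1).choose s : S) * q ^ s * ((2 * s).choose (k + 1) : S) = c' at RC ⊢
    generalize ((3 * m + 1).choose r : S) * q ^ r * ((2 * r).choose (k + 1) : S) = d' at RD ⊢
    generalize (-1) ^ (r + 1) * ((2 * (r + 1)).choose (r + 1) : S) *
      ((2 * (r + 1)).choose k : S) * q ^ (2 * (r + 1)) = b at RB hα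
    generalize ((3 * m + 1).choose (s + 1) : S) * q ^ (s + 1) * ((2 * (s + 1)).choose k : S) = c
      at RC hβ
    generalize ((3 * m + 1).choose (r + 1) : S) * q ^ (r + 1) * ((2 * (r + 1)).choose k : S) = d
      at RD hδ
    generalize (trin (k + 1) : S) = t' at T ⊢
    generalize (trin k : S) = t at T hα hβ hδ
    have hr' : 2 * (r : S) = p - 2 * k - 3 := by linear_combination hR
    have hs'' : 2 * (s : S) = 3 * p - 2 * k - 3 := by linear_combination hR'
    rw [hr'] at RB RD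
    rw [hs''] at RC
    -- the three relations
    have HB : ((k : S) + 1) ^ 3 * b' * (1 - p * e) =
        ((3 * k + 1) * (3 * k + 2) * (3 * k + 3)) * b * (1 - p * (x₁ + x₂ + x₃)) := by
      linear_combination q * RB - 4 * q * b * A - q * ((k : S) + 1) * b' * hS -
        4 * q * p * ((k : S) + 1) ^ 2 * b' * he -
        (((k : S) + 1) ^ 3 * b' * (1 - p * e) -
          ((3 * k + 1) * (3 * k + 2) * (3 * k + 3)) * b * (1 - p * (x₁ + x₂ + x₃))) * h4
    have HC : ((k : S) + 1) ^ 3 * c' * (1 - p * (6 * q * e)) =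
        ((3 * k + 1) * (3 * k + 2) * (3 * k + 3)) * c * (1 - p * (3 * (x₁ + x₂ + x₃))) := by
      linear_combination (-2) * q * RC - 6 * p * q * ((k : S) + 1) ^ 2 * c' *
        (((k : S) + 1) * e * h4 + he) - 4 * q * c * A3 -
        (((k : S) + 1) ^ 3 * c' * (1 - p * (6 * q * e)) -
          ((3 * k + 1) * (3 * k + 2) * (3 * k + 3)) * c * (1 - p * (3 * (x₁ + x₂ + x₃)))) * h4
    have HD : ((k : S) + 1) ^ 3 * d' * (1 - p * (-(2 * q * e))) =
        ((3 * k + 1) * (3 * k + 2) * (3 * k + 3)) * d * (1 - p * (x₁ + x₂ + x₃)) := by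
      linear_combination (-2) * q * RD + 2 * q * ((k : S) + 1) * d' * hS +
        2 * q * p * ((k : S) + 1) ^ 2 * d' * (((k : S) + 1) * e * h4 + he) - 4 * q * d * A -
        (((k : S) + 1) ^ 3 * d' * (1 - p * (-(2 * q * e))) -
          ((3 * k + 1) * (3 * k + 2) * (3 * k + 3)) * d * (1 - p * (x₁ + x₂ + x₃))) * h4
    refine ⟨_, _, _, Id1_step hS hu HB hα T, Id1_step hS hu HC hβ T, Id1_step hS hu HD hδ T, ?_⟩
    linear_combination hs + 2 * e * h4

/-- the recursion of the middle term, for `k < 3m + 1` -/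
private theorem Id1_cc (hm : p = 2 * m + 1) (h4 : 4 * q = 1) (k : ℕ) (hk : k < 3 * m + 1) :
    ((k : S) + 1) ^ 2 * (3 * p - 2 * (k + 1)) *
        (((3 * m + 1).choose (3 * m + 1 - (k + 1)) : S) * q ^ (3 * m + 1 - (k + 1)) *
        ((2 * (3 * m + 1 - (k + 1))).choose (k + 1) : S)) =
      2 * ((3 * p - (3 * k + 1)) * (3 * p - (3 * k + 2)) * (3 * p - (3 * k + 3))) *
        (((3 * m + 1).choose (3 * m + 1 - k) : S) * q ^ (3 * m + 1 - k) *
        ((2 * (3 * m + 1 - k)).choose k : S)) := by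
  obtain ⟨s, hs'⟩ : ∃ s, 3 * m + 1 = k + 1 + s := ⟨3 * m + 1 - (k + 1), by omega⟩
  have i3 : 3 * m + 1 - k = s + 1 := by omega
  have i4 : 3 * m + 1 - (k + 1) = s := by omega
  rw [i3, i4]
  have hR' : 2 * (s : S) = 3 * p - 2 * k - 3 := by
    have : 2 * s + 2 * k + 3 = 3 * p := by omega
    have h := congrArg (Nat.cast : ℕ → S) this
    push_cast at h
    linear_combination h
  have hN : ((3 * m + 1 : ℕ) : S) - s = k + 1 := by
    rw [hs']
    push_cast
    ring
  have RC := Id1_recC (S := S) h4 (3 * m + 1) k s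
  rw [hN, hR'] at RC
  linear_combination RC

private theorem Id1_R2 (hp : p.Prime) (h5 : 5 ≤ p) (hm : p = 2 * m + 1) (hS : (p : S) ^ 2 = 0)
    (h4 : 4 * q = 1) (k : ℕ) (hk : k < p) (hk3 : p < 3 * k) :
    (trin k : S) = -2 * (((3 * m + 1).choose (3 * m + 1 - k) : S) * q ^ (3 * m + 1 - k) *
        ((2 * (3 * m + 1 - k)).choose k : S)) ∧
      (p : S) * (((3 * m + 1).choose (3 * m + 1 - k) : S) * q ^ (3 * m + 1 - k) *
        ((2 * (3 * m + 1 - k)).choose k : S)) = 0 := by
  induction k with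
  | zero => omega
  | succ k ih =>
    have RC := Id1_cc (S := S) hm h4 k (by omega)
    have T := Id1_tau (S := S) k
    obtain ⟨e, he⟩ := Id1_unit (S := S) hp hS (k + 1) (by omega) (by omega)
    push_cast at he
    have hu : IsUnit ((k : S) + 1) := IsUnit.of_mul_eq_one _ he
    have h2 : IsUnit (2 : S) := IsUnit.of_mul_eq_one (2 * q) (by linear_combination h4)
    have hw := Id1_w (S := S) hp h5 hm hS h4
    -- it is enough to have the recursion modulo the factors
    have key : (p : S) * (trin (k + 1) : S) = 0 →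
        ((k : S) + 1) ^ 2 * (3 * p - 2 * (k + 1)) *
        (((3 * m + 1).choose (3 * m + 1 - (k + 1)) : S) * q ^ (3 * m + 1 - (k + 1)) *
        ((2 * (3 * m + 1 - (k + 1))).choose (k + 1) : S)) =
          ((k : S) + 1) ^ 3 * (trin (k + 1) : S) →
        (trin (k + 1) : S) = -2 * (((3 * m + 1).choose (3 * m + 1 - (k + 1)) : S) *
          q ^ (3 * m + 1 - (k + 1)) * ((2 * (3 * m + 1 - (k + 1))).choose (k + 1) : S)) ∧
        (p : S) * (((3 * m + 1).choose (3 * m + 1 - (k + 1)) : S) *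
          q ^ (3 * m + 1 - (k + 1)) * ((2 * (3 * m + 1 - (k + 1))).choose (k + 1) : S)) = 0 := by
      generalize ((3 * m + 1).choose (3 * m + 1 - (k + 1)) : S) * q ^ (3 * m + 1 - (k + 1)) *
        ((2 * (3 * m + 1 - (k + 1))).choose (k + 1) : S) = c'
      generalize (trin (k + 1) : S) = t'
      intro h1 h3
      have h0 : (p : S) * c' = 0 := by
        refine (h2.mul (hu.pow 3)).mul_left_cancel ?_
        linear_combination (-(p : S)) * h3 - ((k : S) + 1) ^ 3 * h1 +
          3 * ((k : S) + 1) ^ 2 * c' * hS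
      refine ⟨?_, h0⟩
      refine (hu.pow 3).mul_left_cancel ?_
      linear_combination (-1 : S) * h3 + 3 * ((k : S) + 1) ^ 2 * h0
    by_cases h3 : 3 * k < p
    · -- first index
      obtain ⟨α, β, δ, hα, hβ, hδ, hs⟩ := Id1_R1 (S := S) hp h5 hm hS h4 k h3
      have h0 : 4 * (p : S) * (((3 * m + 1).choose (3 * m + 1 - k) : S) *
          q ^ (3 * m + 1 - k) * ((2 * (3 * m + 1 - k)).choose k : S)) = p * (trin k : S) := by
        rw [hβ]
        linear_combination (p : S) * q ^ (3 * m) * (trin k : S) * (1 - p * β) * h4 +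
          (trin k : S) * hw - q ^ (3 * m) * (trin k : S) * β * hS
      have hcase : p = 3 * k + 1 ∨ p = 3 * k + 2 := by
        have h7 : p ≠ 3 * (k + 1) := by
          intro h
          have h8 := (Nat.prime_dvd_prime_iff_eq Nat.prime_three hp).1 ⟨k + 1, h⟩
          omega
        omega
      generalize ((3 * m + 1).choose (3 * m + 1 - k) : S) * q ^ (3 * m + 1 - k) *
        ((2 * (3 * m + 1 - k)).choose k : S) = c at h0 RC
      rcases hcase with hc | hc
      · have hc' : (3 : S) * k = p - 1 := by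
          rw [hc]
          push_cast
          ring
        refine key ?_ ?_
        · refine (hu.pow 3).mul_left_cancel ?_
          rw [hc'] at T
          linear_combination (p : S) * T + ((p : S) - 1 + 2) * ((p : S) - 1 + 3) * (trin k : S) * hS
        · rw [hc'] at T RC
          linear_combination RC - T + (2 * (p : S) - 1) * (2 * p - 2) * h0 +
            (3 * (p : S) - 9) * (trin k : S) * hS
      · have hc' : (3 : S) * k = p - 2 := by
          rw [hc]
          push_cast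
          ring
        refine key ?_ ?_
        · refine (hu.pow 3).mul_left_cancel ?_
          rw [hc'] at T
          linear_combination (p : S) * T + ((p : S) - 2 + 1) * ((p : S) - 2 + 3) * (trin k : S) * hS
        · rw [hc'] at T RC
          linear_combination RC - T + (4 * (p : S) ^ 2 - 1) * h0 + 3 * (p : S) * (trin k : S) * hS
    · have h7 : p ≠ 3 * k := by
        intro h
        have h8 := (Nat.prime_dvd_prime_iff_eq Nat.prime_three hp).1 ⟨k, h⟩
        omega
      obtain ⟨i1, i2⟩ := ih (by omega) (by omega)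
      generalize ((3 * m + 1).choose (3 * m + 1 - k) : S) * q ^ (3 * m + 1 - k) *
        ((2 * (3 * m + 1 - k)).choose k : S) = c at i1 i2 RC
      refine key ?_ ?_
      · refine (hu.pow 3).mul_left_cancel ?_
        linear_combination (p : S) * T + (3 * k + 1) * (3 * k + 2) * (3 * k + 3) * ((p : S) * i1 -
          2 * i2)
      · linear_combination RC - T - (3 * k + 1) * (3 * k + 2) * (3 * k + 3) * i1 +
          2 * (27 * (p : S) ^ 2 - 9 * p * ((3 * k + 1) + (3 * k + 2) + (3 * k + 3)) +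
            3 * ((3 * k + 1) * (3 * k + 2) + (3 * k + 1) * (3 * k + 3) +
              (3 * k + 2) * (3 * k + 3))) * i2

end

theorem id1 {S : Type*} [CommRing S] {p m : ℕ} (hp : p.Prime) (h5 : 5 ≤ p)
    (hm : p = 2 * m + 1) (hS : (p : S) ^ 2 = 0) {q : S} (h4 : 4 * q = 1) {k : ℕ} (hk : k < p) :
    (trin k : S) =
      (-1) ^ (m - k) * ((2 * (m - k)).choose (m - k) : S) * ((2 * (m - k)).choose k : S) *
        q ^ (2 * (m - k)) -
      2 * (((3 * m + 1).choose (3 * m + 1 - k) : S) * q ^ (3 * m + 1 - k) *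
        ((2 * (3 * m + 1 - k)).choose k : S)) +
      2 * q * (((3 * m + 1).choose (m - k) : S) * q ^ (m - k) *
        ((2 * (m - k)).choose k : S)) := by
  have h3 : 3 * k ≠ p := by
    intro h
    have h8 := (Nat.prime_dvd_prime_iff_eq Nat.prime_three hp).1 ⟨k, h.symm⟩
    omega
  rcases lt_or_gt_of_ne h3 with h | h
  · obtain ⟨α, β, δ, hα, hβ, hδ, hs⟩ := Id1_R1 (S := S) hp h5 hm hS h4 k h
    have hw := Id1_w (S := S) hp h5 hm hS h4
    rw [hα, hβ, hδ]
    linear_combination (-2 * q * (trin k : S) * (β - δ)) * hw + 2 * q * (trin k : S) * p * hs -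
      (trin k : S) * p * α * h4
  · obtain ⟨h1, -⟩ := Id1_R2 (S := S) hp h5 hm hS h4 k hk h
    have h2 : (2 * (m - k)).choose k = 0 := Nat.choose_eq_zero_of_lt (by omega)
    rw [h1, h2]
    push_cast
    ring

end Pool.Agent.MP_2a5e5c_nt
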