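import Pool.Agent.Lib.MP_2a5e5c_nt.Ini

/-!
# SUN, module Id2: second coefficient identity modulo p²

PROOF (checked numerically for `p < 60`). Notation of module Id1 (read its docstring; the
recursions and the claims of range 1 and range 2 for `τ, c, d` are the same, prove what is
needed here as private lemmas), and
`e k = C(n,n-k) q^(n-k) C(2(n-k), 2p+k)`, `2(n-k) = 3p-1-2k`. Recursions:
`(k+1)(3p-2k-2)(2p+k+1) e(k+1) = 2 (p-3k-1)(p-3k-2)(p-3k-3) e k` for `3k + 3 < p`,
`(p+k+1)³ kap(k+1) = (3p+3k+1)(3p+3k+2)(3p+3k+3) kap k`. RANGE 1 (`3k < p`):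
`4 c k = w τ k (1 - pβ)`, `d k = w τ k (1 - pδ)`, `4 e k = w τ k (1 - pη)`,
`kap k = τ k (1 + pκ)` with `-η + 3β - 2δ - 2κ = 0`. `k = 0`: all zero (`e 0 = q^n C(3p-1,2p)
= q^n`, `ini_e`; `d 0 = q^(3m)`, `ini_d`). Step: with `σ = ∑ 1/(3k+i)`, `u = 1/(k+1)`:
`β' = β + 3σ - (3/2)u`, `δ' = δ + σ + (1/2)u`, `η' = η + σ + (1/2)u`, `κ' = κ + 3σ - 3u`; the
relation is preserved: `-σ + 9σ - 2σ - 6σ = 0`, `-1/2 - 9/2 - 1 + 6 = 0`. Then
`3c - 2qd + 2q(kap - τ) = τ ((3/4)w(1-pβ) - (w/2)(1-pδ) + (p/2)κ) = e` as `p w = p`.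
RANGE 2 (`p < 3k`, `k < p`): `e k = d k = 0`, `τ k = -2 c k`, `p τ k = 0`, and `kap k = 4 τ k`:
at the first index `j+1` (`3j < p < 3j+3`) the factor `p` of the recursion of `τ` becomes
`3p + p = 4p` in the one of `kap` (and `p kap j = p τ j`), later both recursions agree since
`p τ = 0`. So the right side is `3c + (1/2)(4τ - τ) = -(3/2)τ + (3/2)τ = 0`.
-/

namespace Pool.Agent.MP_2a5e5c_nt

private lemma Id2_ch1 (n k : ℕ) :
    (n.choose (k + 1) : ℤ) * (k + 1) = n.choose k * ((n : ℤ) - k) := by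
  rcases le_or_gt k n with h | h
  · have h2 : ((n.choose (k + 1) * (k + 1) : ℕ) : ℤ) = ((n.choose k * (n - k) : ℕ) : ℤ) := by
      rw [Nat.choose_succ_right_eq n k]
    push_cast [Nat.cast_sub h] at h2
    exact h2
  · rw [Nat.choose_eq_zero_of_lt h, Nat.choose_eq_zero_of_lt (by omega)]
    simp

private lemma Id2_ch2 (n k : ℕ) :
    (n.choose k : ℤ) * (n + 1) = (n + 1).choose k * ((n : ℤ) + 1 - k) := by
  rcases le_or_gt k (n + 1) with h | h
  · have h2 : ((n.choose k * (n + 1) : ℕ) : ℤ) = (((n + 1).choose k * (n + 1 - k) : ℕ) : ℤ) := by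
      rw [Nat.choose_mul_succ_eq n k]
    push_cast [Nat.cast_sub h] at h2
    exact h2
  · rw [Nat.choose_eq_zero_of_lt h, Nat.choose_eq_zero_of_lt (by omega)]
    simp

private lemma Id2_ch3 (N K : ℕ) :
    (N.choose (K + 1) : ℤ) * (K + 1) * (((N : ℤ) + 2) * (N + 1)) =
      (N + 2).choose K * (((N : ℤ) + 2 - K) * (N + 1 - K) * (N - K)) := by
  have h1 := Id2_ch1 N K
  have h2 := Id2_ch2 N K
  have h3 := Id2_ch2 (N + 1) K
  push_cast at h3
  have h4 : ((N + 1 + 1).choose K : ℤ) = ((N + 2).choose K : ℤ) := rfl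
  rw [h4] at h3
  linear_combination ((N : ℤ) + 2) * (N + 1) * h1 + ((N : ℤ) - K) * (N + 2) * h2 +
    ((N : ℤ) + 1 - K) * (N - K) * h3

private lemma Id2_recZ {n M s k : ℕ} (hk : k < M) :
    2 * ((n : ℤ) - M + k + 1) * (s + k + 1) * (2 * ((M : ℤ) - k) - 1) *
      ((n.choose (M - (k + 1)) : ℤ) * ((2 * (M - (k + 1))).choose (s + (k + 1)) : ℤ)) =
    ((2 * (M : ℤ) - 3 * k - s) * (2 * M - 3 * k - s - 1) * (2 * M - 3 * k - s - 2)) *
      ((n.choose (M - k) : ℤ) * ((2 * (M - k)).choose (s + k) : ℤ)) := by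
  obtain ⟨j, rfl⟩ := Nat.exists_eq_add_of_lt hk
  have e1 : k + j + 1 - (k + 1) = j := by omega
  have e2 : k + j + 1 - k = j + 1 := by omega
  have e3 : 2 * (j + 1) = 2 * j + 2 := by ring
  have e4 : s + (k + 1) = s + k + 1 := by ring
  rw [e1, e2, e3, e4]
  have h1 := Id2_ch1 n j
  have h2 := Id2_ch3 (2 * j) (s + k)
  push_cast at h2 ⊢
  have hj : ((j : ℤ) + 1) ≠ 0 := by positivity
  apply mul_left_cancel₀ hj
  linear_combination ((n : ℤ) - j) * (n.choose j) * h2 -
    ((2 * (j : ℤ) + 2 - s - k) * (2 * j + 1 - s - k) * (2 * j - s - k)) *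
      ((2 * j + 2).choose (s + k)) * h1

private lemma Id2_rec {S : Type*} [CommRing S] {q : S} (h4 : 4 * q = 1) {n M s k : ℕ}
    (hk : k < M) :
    ((n : S) - M + k + 1) * (s + k + 1) * (2 * ((M : S) - k) - 1) *
      ((n.choose (M - (k + 1)) : S) * q ^ (M - (k + 1)) *
        ((2 * (M - (k + 1))).choose (s + (k + 1)) : S)) =
    2 * ((2 * (M : S) - 3 * k - s) * (2 * M - 3 * k - s - 1) * (2 * M - 3 * k - s - 2)) *
      ((n.choose (M - k) : S) * q ^ (M - k) * ((2 * (M - k)).choose (s + k) : S)) := by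
  have h := congrArg (Int.cast : ℤ → S) (Id2_recZ (n := n) (s := s) hk)
  push_cast at h
  have e1 : M - k = M - (k + 1) + 1 := by omega
  have hq : q ^ (M - (k + 1)) = 4 * q ^ (M - k) := by
    rw [e1, pow_succ]
    linear_combination (-q ^ (M - (k + 1))) * h4
  linear_combination (2 * q ^ (M - k)) * h +
    (((n : S) - M + k + 1) * (s + k + 1) * (2 * ((M : S) - k) - 1) *
      ((n.choose (M - (k + 1)) : S) * ((2 * (M - (k + 1))).choose (s + (k + 1)) : S))) * hq

private lemma Id2_step {S : Type*} [CommRing S] {P D N X X' T T' D0 N0 δ ν ξ : S}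
    (hP : P ^ 2 = 0) (hD : D = D0 * (1 + P * δ)) (hN : N = N0 * (1 + P * ν))
    (hX : X = T * (1 + P * ξ)) (hT : D0 * T' = N0 * T) (hrec : D * X' = N * X)
    (hu : IsUnit D0) : X' = T' * (1 + P * (ξ + ν - δ)) := by
  have h1 : IsUnit (1 + P * δ) := by
    refine IsUnit.of_mul_eq_one (1 - P * δ) ?_
    linear_combination (-δ ^ 2) * hP
  have hDu : IsUnit D := by
    rw [hD]
    exact hu.mul h1
  apply hDu.mul_left_cancel
  rw [hrec, hX, hN, hD]
  linear_combination (-(1 + P * ν) * (1 + P * ξ)) * hT +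
    (D0 * T' * (ν * ξ - δ * (ξ + ν - δ))) * hP

/-- range 1: the statement carried by the induction -/
private def Id2_C1 {S : Type*} [CommRing S] (P w τ c d e κ : S) : Prop :=
  ∃ β δ η ε : S, 4 * c = w * τ * (1 + P * β) ∧ d = w * τ * (1 + P * δ) ∧
    4 * e = w * τ * (1 + P * η) ∧ κ = τ * (1 + P * ε) ∧ η - 3 * β + 2 * δ - 2 * ε = 0

private lemma Id2_range1 {S : Type*} [CommRing S] {P w h b v a1 a2 a3 u1 u2 u3 τ c d e κ
    τ' c' d' e' κ' : S} (hP : P ^ 2 = 0) (hh : 2 * h = 1) (hb : b * v = 1)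
    (h1 : a1 * u1 = 1) (h2 : a2 * u2 = 1) (h3 : a3 * u3 = 1)
    (hτ : b ^ 3 * τ' = a1 * a2 * a3 * τ)
    (hc : b * b * (3 * P - 2 * b) * c' = 2 * ((3 * P - a1) * (3 * P - a2) * (3 * P - a3)) * c)
    (hd : (P + b) * b * (P - 2 * b) * d' = 2 * ((P - a1) * (P - a2) * (P - a3)) * d)
    (he : b * (2 * P + b) * (3 * P - 2 * b) * e' =
      2 * ((P - a1) * (P - a2) * (P - a3)) * e)
    (hκ : (P + b) ^ 3 * κ' = (3 * P + a1) * (3 * P + a2) * (3 * P + a3) * κ)
    (H : Id2_C1 P w τ c d e κ) : Id2_C1 P w τ' c' d' e' κ' := by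
  obtain ⟨β, δ, η, ε, Hc, Hd, He, Hκ, Hr⟩ := H
  have hu0 : IsUnit (b ^ 3) := by
    refine IsUnit.of_mul_eq_one (v ^ 3) ?_
    rw [← mul_pow, hb, one_pow]
  have hu : IsUnit (-2 * b ^ 3) := by
    refine IsUnit.of_mul_eq_one (-(h * v ^ 3)) ?_
    have : (b * v) ^ 3 = 1 := by rw [hb, one_pow]
    linear_combination (2 * h) * this + hh
  have hT : -2 * b ^ 3 * (w * τ') = -2 * (a1 * a2 * a3) * (w * τ) := by
    linear_combination (-2 * w) * hτ
  have n1 : 2 * ((P - a1) * (P - a2) * (P - a3)) =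
      -2 * (a1 * a2 * a3) * (1 + P * -(u1 + u2 + u3)) := by
    linear_combination (-2 * P * a2 * a3) * h1 + (-2 * P * a1 * a3) * h2 +
      (-2 * P * a1 * a2) * h3 + (2 * P - 2 * (a1 + a2 + a3)) * hP
  have n3 : 2 * ((3 * P - a1) * (3 * P - a2) * (3 * P - a3)) =
      -2 * (a1 * a2 * a3) * (1 + P * (-3 * (u1 + u2 + u3))) := by
    linear_combination (-6 * P * a2 * a3) * h1 + (-6 * P * a1 * a3) * h2 +
      (-6 * P * a1 * a2) * h3 + (54 * P - 18 * (a1 + a2 + a3)) * hP
  have nk : (3 * P + a1) * (3 * P + a2) * (3 * P + a3) =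
      (a1 * a2 * a3) * (1 + P * (3 * (u1 + u2 + u3))) := by
    linear_combination (-3 * P * a2 * a3) * h1 + (-3 * P * a1 * a3) * h2 +
      (-3 * P * a1 * a2) * h3 + (27 * P + 9 * (a1 + a2 + a3)) * hP
  have dc : b * b * (3 * P - 2 * b) = -2 * b ^ 3 * (1 + P * (-3 * h * v)) := by
    linear_combination (-6 * P * h * b ^ 2) * hb + (-3 * P * b ^ 2) * hh
  have dd : (P + b) * b * (P - 2 * b) = -2 * b ^ 3 * (1 + P * (v - h * v)) := by
    linear_combination (2 * P * b ^ 2 - 2 * h * P * b ^ 2) * hb + (-P * b ^ 2) * hh +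
      b * hP
  have de : b * (2 * P + b) * (3 * P - 2 * b) =
      -2 * b ^ 3 * (1 + P * (2 * v - 3 * h * v)) := by
    linear_combination (4 * P * b ^ 2 - 6 * h * P * b ^ 2) * hb + (-3 * P * b ^ 2) * hh +
      6 * b * hP
  have dk : (P + b) ^ 3 = b ^ 3 * (1 + P * (3 * v)) := by
    linear_combination (-3 * P * b ^ 2) * hb + (P + 3 * b) * hP
  have rc := Id2_step hP dc n3 Hc hT (X' := 4 * c') (by linear_combination 4 * hc) hu
  have rd := Id2_step hP dd n1 Hd hT hd hu
  have re := Id2_step hP de n1 He hT (X' := 4 * e') (by linear_combination 4 * he) hu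
  have rk := Id2_step hP dk nk Hκ (T' := τ') (by linear_combination hτ) hκ hu0
  refine ⟨_, _, _, _, rc, rd, re, rk, ?_⟩
  linear_combination Hr + (-2 * v) * hh

/-- range 2: the statement carried by the induction -/
private def Id2_C2 {S : Type*} [CommRing S] (P τ c κ : S) : Prop :=
  P * τ = 0 ∧ τ = -2 * c ∧ κ = 4 * τ

private lemma Id2_range2 {S : Type*} [CommRing S] {P h b v a1 a2 a3 τ c κ τ' c' κ' : S}
    (hP : P ^ 2 = 0) (hh : 2 * h = 1) (hb : b * v = 1)
    (hτ : b ^ 3 * τ' = a1 * a2 * a3 * τ)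
    (hc : b * b * (3 * P - 2 * b) * c' = 2 * ((3 * P - a1) * (3 * P - a2) * (3 * P - a3)) * c)
    (hκ : (P + b) ^ 3 * κ' = (3 * P + a1) * (3 * P + a2) * (3 * P + a3) * κ)
    (r0 : P * (a1 * a2 * a3 * τ) = 0)
    (r1 : P * (2 * ((3 * P - a1) * (3 * P - a2) * (3 * P - a3)) * c) = 0)
    (r2 : P * ((3 * P + a1) * (3 * P + a2) * (3 * P + a3) * κ) = 0)
    (r3 : 2 * ((3 * P - a1) * (3 * P - a2) * (3 * P - a3)) * c = a1 * a2 * a3 * τ)
    (r4 : (3 * P + a1) * (3 * P + a2) * (3 * P + a3) * κ = 4 * (a1 * a2 * a3 * τ)) :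
    Id2_C2 P τ' c' κ' := by
  have hu0 : IsUnit (b ^ 3) := by
    refine IsUnit.of_mul_eq_one (v ^ 3) ?_
    rw [← mul_pow, hb, one_pow]
  have k0 : P * τ' = 0 := by
    apply hu0.mul_left_cancel
    linear_combination P * hτ + r0
  have k1 : P * c' = 0 := by
    apply hu0.mul_left_cancel
    have : -2 * (b ^ 3 * (P * c')) = 0 := by
      linear_combination P * hc + r1 + (-3 * b ^ 2 * c') * hP
    linear_combination (-h) * this + (-(b ^ 3 * (P * c'))) * hh
  have k2 : P * κ' = 0 := by
    apply hu0.mul_left_cancel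
    linear_combination P * hκ + r2 + (-(P ^ 2 + 3 * P * b + 3 * b ^ 2) * κ') * hP
  refine ⟨k0, ?_, ?_⟩
  · apply hu0.mul_left_cancel
    linear_combination hτ - hc - r3 + (3 * b ^ 2) * k1
  · apply hu0.mul_left_cancel
    linear_combination hκ + r4 - 4 * hτ - (P ^ 2 + 3 * P * b + 3 * b ^ 2) * k2

theorem id2 {S : Type*} [CommRing S] {p m : ℕ} (hp : p.Prime) (h5 : 5 ≤ p)
    (hm : p = 2 * m + 1) (hS : (p : S) ^ 2 = 0) {q : S} (h4 : 4 * q = 1) {kap : ℕ → S}
    (hkap : IsKap p kap) {k : ℕ} (hk : k < p) :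
    ((3 * m + 1).choose (3 * m + 1 - k) : S) * q ^ (3 * m + 1 - k) *
        ((2 * (3 * m + 1 - k)).choose (2 * (2 * m + 1) + k) : S) =
      3 * (((3 * m + 1).choose (3 * m + 1 - k) : S) * q ^ (3 * m + 1 - k) *
        ((2 * (3 * m + 1 - k)).choose k : S)) -
      2 * q * (((3 * m + 1).choose (m - k) : S) * q ^ (m - k) *
        ((2 * (m - k)).choose k : S)) +
      2 * q * (kap k - trin k) := by
  set w : S := q ^ (3 * m) with hw
  have hpS : (p : S) = 2 * m + 1 := by
    rw [hm]
    push_cast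
    ring
  have hh : 2 * (2 * q) = 1 := by linear_combination h4
  have hPw : (p : S) * w = p := by
    have h1 := ini_fermat hp h5 hm hS
    have h2 : ((4 : S) ^ m * q ^ m) = 1 := by rw [← mul_pow, h4, one_pow]
    have h3 : (p : S) * q ^ m = p := by
      linear_combination (-q ^ m) * h1 + (p : S) * h2
    have h4' : w = q ^ m * q ^ m * q ^ m := by
      rw [hw, ← pow_add, ← pow_add]
      congr 1
      ring
    rw [h4']
    linear_combination (q ^ m * q ^ m + q ^ m + 1) * h3
  have key : ∀ k : ℕ, k < p →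
      (3 * k < p → Id2_C1 (p : S) w (trin k)
        (((3 * m + 1).choose (3 * m + 1 - k) : S) * q ^ (3 * m + 1 - k) *
          ((2 * (3 * m + 1 - k)).choose (0 + k) : S))
        (((3 * m + 1).choose (m - k) : S) * q ^ (m - k) *
          ((2 * (m - k)).choose (0 + k) : S))
        (((3 * m + 1).choose (3 * m + 1 - k) : S) * q ^ (3 * m + 1 - k) *
          ((2 * (3 * m + 1 - k)).choose (2 * (2 * m + 1) + k) : S)) (kap k)) ∧
      (p < 3 * k → Id2_C2 (p : S) (trin k)
        (((3 * m + 1).choose (3 * m + 1 - k) : S) * q ^ (3 * m + 1 - k) *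
          ((2 * (3 * m + 1 - k)).choose (0 + k) : S)) (kap k)) := by
    intro k
    induction k with
    | zero =>
      intro _
      refine ⟨fun _ => ?_, fun h => by omega⟩
      have e1 : (3 * m + 1) - 0 = 3 * m + 1 := rfl
      have e2 : m - 0 = m := rfl
      have e3 : 2 * (2 * m + 1) + 0 = 2 * (2 * m + 1) := rfl
      rw [e1, e2, e3, add_zero, Nat.choose_self, Nat.choose_zero_right, Nat.choose_zero_right,
        trin_zero, hkap.1]
      have c1 : ((2 * (3 * m + 1)).choose (2 * (2 * m + 1)) : S) = 1 := by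
        rw [← ini_e hp h5 hS]
        congr 1
        rw [← Nat.choose_symm_of_eq_add (n := 3 * p - 1) (a := 2 * p) (b := p - 1) (by omega)]
        congr 1 <;> omega
      have c2 : ((3 * m + 1).choose m : S) * q ^ m = w := by
        have h1 := ini_d hp h5 hm hS
        have h2 : ((16 : S) ^ m * (q ^ m * q ^ m)) = 1 := by
          rw [← mul_pow, ← mul_pow]
          have : (16 : S) * (q * q) = 1 := by linear_combination (4 * q + 1) * h4
          rw [this, one_pow]
        have h4' : w = q ^ m * q ^ m * q ^ m := by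
          rw [hw, ← pow_add, ← pow_add]
          congr 1
          ring
        rw [h4']
        linear_combination (q ^ m * q ^ m * q ^ m) * h1 -
          (((3 * m + 1).choose m : S) * q ^ m) * h2
      rw [c1, c2]
      refine ⟨0, 0, 0, 0, ?_, ?_, ?_, ?_, ?_⟩
      · rw [pow_succ]
        push_cast
        linear_combination w * h4
      · push_cast
        ring
      · rw [pow_succ]
        push_cast
        linear_combination w * h4
      · push_cast
        ring
      · ring
    | succ k ih =>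
      intro hkp
      obtain ⟨ih1, ih2⟩ := ih (by omega)
      have hb0 : IsUnit ((k + 1 : ℕ) : S) := by
        refine isUnit_of_not_dvd hp hS fun hdvd => ?_
        have := Nat.le_of_dvd (by omega) hdvd
        omega
      obtain ⟨v, hv⟩ := hb0.exists_right_inv
      push_cast at hv
      have hτ := congrArg (Nat.cast : ℕ → S) (trin_succ k)
      push_cast at hτ
      have hκ := hkap.2 k hkp
      push_cast at hκ
      have hcr := Id2_rec (s := 0) h4 (n := 3 * m + 1) (M := 3 * m + 1) (k := k) (by omega)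
      simp only [Nat.cast_add, Nat.cast_mul, Nat.cast_one, Nat.cast_ofNat, Nat.cast_zero] at hcr
      have h3c : ((k : S) + 1) * (k + 1) * (3 * p - 2 * (k + 1)) *
          (((3 * m + 1).choose (3 * m + 1 - (k + 1)) : S) * q ^ (3 * m + 1 - (k + 1)) *
          ((2 * (3 * m + 1 - (k + 1))).choose (0 + (k + 1)) : S)) =
          2 * ((3 * p - (3 * k + 1)) * (3 * p - (3 * k + 2)) * (3 * p - (3 * k + 3))) *
          (((3 * m + 1).choose (3 * m + 1 - k) : S) * q ^ (3 * m + 1 - k) *
          ((2 * (3 * m + 1 - k)).choose (0 + k) : S)) := by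
        rw [hpS]
        linear_combination hcr
      have hτ' : ((k : S) + 1) ^ 3 * (trin (k + 1) : S) =
          (3 * k + 1) * (3 * k + 2) * (3 * k + 3) * (trin k : S) := hτ
      have hκ' : ((p : S) + (k + 1)) ^ 3 * kap (k + 1) =
          (3 * p + (3 * k + 1)) * (3 * p + (3 * k + 2)) * (3 * p + (3 * k + 3)) * kap k := by
        linear_combination hκ
      refine ⟨fun h3 => ?_, fun h3 => ?_⟩
      · have hun : ∀ i : ℕ, 0 < i → i < p → ∃ u : S, (i : S) * u = 1 := by
          intro i hi0 hip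
          refine (isUnit_of_not_dvd hp hS fun hdvd => ?_).exists_right_inv
          have := Nat.le_of_dvd hi0 hdvd
          omega
        obtain ⟨u1, hu1⟩ := hun (3 * k + 1) (by omega) (by omega)
        obtain ⟨u2, hu2⟩ := hun (3 * k + 2) (by omega) (by omega)
        obtain ⟨u3, hu3⟩ := hun (3 * k + 3) (by omega) (by omega)
        push_cast at hu1 hu2 hu3
        have hdr := Id2_rec (s := 0) h4 (n := 3 * m + 1) (M := m) (k := k) (by omega)
        simp only [Nat.cast_add, Nat.cast_mul, Nat.cast_one, Nat.cast_ofNat, Nat.cast_zero] at hdr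
        have her := Id2_rec (s := 2 * (2 * m + 1)) h4 (n := 3 * m + 1) (M := 3 * m + 1) (k := k)
          (by omega)
        simp only [Nat.cast_add, Nat.cast_mul, Nat.cast_one, Nat.cast_ofNat] at her
        refine Id2_range1 hS hh hv hu1 hu2 hu3 hτ' h3c ?_ ?_ hκ' (ih1 (by omega))
        · rw [hpS]
          linear_combination hdr
        · rw [hpS]
          linear_combination her
      · rcases lt_or_ge (3 * k) p with hlt | hge
        · obtain ⟨β, δ, η, ε, Hc, Hd, He, Hκ, Hr⟩ := ih1 hlt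
          have hPc : 4 * ((p : S) * (((3 * m + 1).choose (3 * m + 1 - k) : S) *
              q ^ (3 * m + 1 - k) * ((2 * (3 * m + 1 - k)).choose (0 + k) : S))) =
              p * trin k := by
            linear_combination (p : S) * Hc + (trin k * (1 + p * β) : S) * hPw +
              (trin k * β) * hS
          have hPκ : (p : S) * kap k = p * trin k := by
            linear_combination (p : S) * Hκ + (trin k * ε : S) * hS
          generalize (((3 * m + 1).choose (3 * m + 1 - k) : S) *
              q ^ (3 * m + 1 - k) * ((2 * (3 * m + 1 - k)).choose (0 + k) : S)) = c at *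
          generalize (trin k : S) = τ at *
          have hcase : p = 3 * k + 1 ∨ p = 3 * k + 2 := by
            have : p ≠ 3 * (k + 1) := by
              intro hcon
              have h3d : 3 ∣ p := ⟨k + 1, hcon⟩
              have := (Nat.prime_dvd_prime_iff_eq Nat.prime_three hp).1 h3d
              omega
            omega
          rcases hcase with hc1 | hc1
          · have hk1 : (3 * k + 1 : S) = p := by
              rw [hc1]
              push_cast
              ring
            have hk2 : (3 * k + 2 : S) = p + 1 := by linear_combination hk1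
            have hk3 : (3 * k + 3 : S) = p + 2 := by linear_combination hk1
            rw [hk1, hk2, hk3] at hτ' h3c hκ'
            refine Id2_range2 hS hh hv hτ' h3c hκ' ?_ ?_ ?_ ?_ ?_
            · linear_combination ((p + 1) * (p + 2) * τ : S) * hS
            · linear_combination (4 * (2 * p - 1) * (2 * p - 2) * c : S) * hS
            · linear_combination (4 * (4 * p + 1) * (4 * p + 2) * kap k : S) * hS
            · linear_combination ((2 * p - 1) * (2 * p - 2) : S) * hPc +
                ((3 * p - 9) * τ : S) * hS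
            · linear_combination (4 * (4 * p + 1) * (4 * p + 2) : S) * hPκ +
                (4 * (15 * p + 9) * τ : S) * hS
          · have hk2 : (3 * k + 2 : S) = p := by
              rw [hc1]
              push_cast
              ring
            have hk1 : (3 * k + 1 : S) = p - 1 := by linear_combination hk2
            have hk3 : (3 * k + 3 : S) = p + 1 := by linear_combination hk2
            rw [hk1, hk2, hk3] at hτ' h3c hκ'
            refine Id2_range2 hS hh hv hτ' h3c hκ' ?_ ?_ ?_ ?_ ?_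
            · linear_combination ((p - 1) * (p + 1) * τ : S) * hS
            · linear_combination (4 * (2 * p - 1) * (2 * p + 1) * c : S) * hS
            · linear_combination (4 * (4 * p - 1) * (4 * p + 1) * kap k : S) * hS
            · linear_combination ((2 * p - 1) * (2 * p + 1) : S) * hPc +
                (3 * p * τ : S) * hS
            · linear_combination (4 * (4 * p - 1) * (4 * p + 1) : S) * hPκ +
                (60 * p * τ : S) * hS
        · have hne : p < 3 * k := by
            refine lt_of_le_of_ne hge fun hcon => ?_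
            have h3d : 3 ∣ p := ⟨k, hcon⟩
            have := (Nat.prime_dvd_prime_iff_eq Nat.prime_three hp).1 h3d
            omega
          obtain ⟨g0, g1, g2⟩ := ih2 hne
          generalize (((3 * m + 1).choose (3 * m + 1 - k) : S) *
              q ^ (3 * m + 1 - k) * ((2 * (3 * m + 1 - k)).choose (0 + k) : S)) = c at *
          generalize (trin k : S) = τ at *
          have g3 : (p : S) * c = 0 := by
            linear_combination (-(2 * q)) * g0 + (2 * q * p : S) * g1 + (-(p * c : S)) * hh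
          refine Id2_range2 hS hh hv hτ' h3c hκ' ?_ ?_ ?_ ?_ ?_
          · linear_combination ((3 * k + 1) * (3 * k + 2) * (3 * k + 3) : S) * g0
          · linear_combination (2 * ((3 * p - (3 * k + 1)) * (3 * p - (3 * k + 2)) *
              (3 * p - (3 * k + 3))) : S) * g3
          · rw [g2]
            linear_combination (4 * ((3 * p + (3 * k + 1)) * (3 * p + (3 * k + 2)) *
              (3 * p + (3 * k + 3))) : S) * g0
          · rw [g1]
            linear_combination (2 * (27 * p ^ 2 - 9 * p * ((3 * k + 1) + (3 * k + 2) +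
              (3 * k + 3)) + 3 * ((3 * k + 1) * (3 * k + 2) + (3 * k + 1) * (3 * k + 3) +
              (3 * k + 2) * (3 * k + 3))) : S) * g3
          · rw [g2]
            linear_combination (4 * (27 * p ^ 2 + 9 * p * ((3 * k + 1) + (3 * k + 2) +
              (3 * k + 3)) + 3 * ((3 * k + 1) * (3 * k + 2) + (3 * k + 1) * (3 * k + 3) +
              (3 * k + 2) * (3 * k + 3))) : S) * g0
  obtain ⟨key1, key2⟩ := key k hk
  rw [zero_add] at key1 key2
  rcases lt_or_ge (3 * k) p with hlt | hge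
  · obtain ⟨β, δ, η, ε, Hc, Hd, He, Hκ, Hr⟩ := key1 hlt
    rw [Hd, Hκ]
    generalize (((3 * m + 1).choose (3 * m + 1 - k) : S) * q ^ (3 * m + 1 - k) *
        ((2 * (3 * m + 1 - k)).choose k : S)) = c at *
    generalize (((3 * m + 1).choose (3 * m + 1 - k) : S) * q ^ (3 * m + 1 - k) *
        ((2 * (3 * m + 1 - k)).choose (2 * (2 * m + 1) + k) : S)) = e at *
    linear_combination (3 * c - e) * h4 + q * He - 3 * q * Hc + (q * w * trin k * p) * Hr +
      (2 * q * trin k * ε) * hPw
  · have hne : p < 3 * k := by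
      refine lt_of_le_of_ne hge fun hcon => ?_
      have h3d : 3 ∣ p := ⟨k, hcon⟩
      have := (Nat.prime_dvd_prime_iff_eq Nat.prime_three hp).1 h3d
      omega
    obtain ⟨g0, g1, g2⟩ := key2 hne
    have z1 : (2 * (3 * m + 1 - k)).choose (2 * (2 * m + 1) + k) = 0 :=
      Nat.choose_eq_zero_of_lt (by omega)
    have z2 : (2 * (m - k)).choose k = 0 := Nat.choose_eq_zero_of_lt (by omega)
    rw [z1, z2, g2, g1]
    push_cast
    linear_combination (3 * (((3 * m + 1).choose (3 * m + 1 - k) : S) *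
      q ^ (3 * m + 1 - k) * ((2 * (3 * m + 1 - k)).choose k : S))) * h4

end Pool.Agent.MP_2a5e5c_nt
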