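import Pool.Agent.Lib.MP_2a5e5c_nt.Seq

/-!
# SUN, module Ini: binomial coefficients modulo p² (initial values)

PROOF. `S` is a ring with `p² = 0`, so the integers prime to `p` are units
(`isUnit_of_not_dvd`). Put `H = ∑_{i=1}^m 1/i` in `S`, `∏_{i≤m} (i + c p) = m! (1 + c p H)` for
any integer (or element) `c`. (1) `C(2m,m) m! = ∏_{i=1}^m (p - i) = (-1)^m m! (1 - p H)`.
(2) `C(3m+1,m) m! = ∏_{i=1}^m (p + i) = m! (1 + p H)`.
(3) `(2m)! = 2^m m! ∏_{odd i<2m} i`, and the odd numbers below `2m` are `p - 2j`, `1 ≤ j ≤ m`: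
`2^m ∏ (p/2 - j) = (-2)^m m! (1 - (p/2) H)`; hence `C(2m,m) = (-4)^m y`, `y = 1 - (p/2) H`,
and `y² = 1 - p H`. By (1) `(-1)^m y² = (-4)^m y`, `y` is a unit, so `y = 4^m`,
`C(2m,m) = (-1)^m 16^m`, and `C(2m,m) C(3m+1,m) = (-1)^m (1 - p² H²) = (-1)^m`.
(4) `C(3p-1, p-1) (p-1)! = ∏_{i=1}^{p-1} (2p + i) = (p-1)! (1 + 2p H')`, `H' = ∑_{i<p} 1/i`, and
`p H' = 0` (pair `i` and `p - i`: `1/i + 1/(p-i) = p/(i(p-i))`, `2 p H' = p² (…) = 0`, `p` odd).
(5) Fermat: `p * 4^m = p` since `4^m = 2^(p-1) ≡ 1 mod p` (`ZMod.pow_card_sub_one_eq_one` or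
`Int.ModEq.pow_card_sub_one_eq_one`).
One can also prove the statements in `ZMod (p^2)` or in `ℤ` modulo `p²` and map to `S`.
-/

namespace Pool.Agent.MP_2a5e5c_nt

variable {S : Type*} [CommRing S] {p m : ℕ}

/-- `∏ (i + c p) = k! (1 + c p H)` -/
private theorem Ini_prod (hp : p.Prime) (hS : (p : S) ^ 2 = 0) (k : ℕ) (hk : k < p) :
    ∃ H : S, ∀ c : S, ∏ i ∈ Finset.range k, (((i + 1 : ℕ) : S) + c * p) =
      ((k.factorial : ℕ) : S) * (1 + c * p * H) := by
  induction k with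
  | zero => exact ⟨0, fun c => by simp⟩
  | succ k ih =>
    obtain ⟨H, hH⟩ := ih (by omega)
    have hu : IsUnit ((k + 1 : ℕ) : S) :=
      isUnit_of_not_dvd hp hS fun h => absurd (Nat.le_of_dvd (Nat.succ_pos k) h) (by omega)
    obtain ⟨v, hv⟩ := hu.exists_right_inv
    refine ⟨H + v, fun c => ?_⟩
    rw [Finset.prod_range_succ, hH c, Nat.factorial_succ, Nat.cast_mul]
    linear_combination ((k.factorial : ℕ) : S) * c ^ 2 * H * hS -
      ((k.factorial : ℕ) : S) * (c * p) * hv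

private theorem Ini_fac (hp : p.Prime) (hS : (p : S) ^ 2 = 0) (k : ℕ) (hk : k < p) :
    IsUnit ((k.factorial : ℕ) : S) :=
  isUnit_of_not_dvd hp hS fun h => absurd ((hp.dvd_factorial).1 h) (by omega)

private theorem Ini_two (hp : p.Prime) (h5 : 5 ≤ p) (hS : (p : S) ^ 2 = 0) :
    ∃ h : S, 2 * h = 1 := by
  have hu : IsUnit ((2 : ℕ) : S) :=
    isUnit_of_not_dvd hp hS fun h => absurd (Nat.le_of_dvd two_pos h) (by omega)
  obtain ⟨v, hv⟩ := hu.exists_right_inv
  exact ⟨v, by rw [← hv]; norm_num⟩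

/-- `C(2m,m) m! = 2^m ∏ (2j+1)` -/
private theorem Ini_odd (m : ℕ) :
    (2 * m).choose m * m.factorial = 2 ^ m * ∏ j ∈ Finset.range m, (2 * j + 1) := by
  induction m with
  | zero => simp
  | succ m ih =>
    have h1 := Nat.succ_mul_centralBinom_succ m
    rw [Nat.centralBinom_eq_two_mul_choose, Nat.centralBinom_eq_two_mul_choose] at h1
    rw [Finset.prod_range_succ, pow_succ, Nat.factorial_succ]
    calc (2 * (m + 1)).choose (m + 1) * ((m + 1) * m.factorial)
        = ((m + 1) * (2 * (m + 1)).choose (m + 1)) * m.factorial := by ring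
      _ = (2 * (2 * m + 1) * (2 * m).choose m) * m.factorial := by rw [h1]
      _ = 2 * (2 * m + 1) * ((2 * m).choose m * m.factorial) := by ring
      _ = _ := by rw [ih]; ring

/-- the main facts -/
private theorem Ini_main (hp : p.Prime) (h5 : 5 ≤ p) (hm : p = 2 * m + 1)
    (hS : (p : S) ^ 2 = 0) :
    ∃ H : S, ((2 * m).choose m : S) = (-1) ^ m * (1 - p * H) ∧
      ((3 * m + 1).choose m : S) = 1 + p * H ∧ (16 : S) ^ m = 1 - p * H := by
  have hmp : m < p := by omega
  obtain ⟨H, hH⟩ := Ini_prod (S := S) hp hS m hmp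
  have hu := Ini_fac (S := S) hp hS m hmp
  obtain ⟨h, hh⟩ := Ini_two (S := S) hp h5 hS
  have hpS : (p : S) = 2 * (m : S) + 1 := by
    rw [hm]
    push_cast
    ring
  -- (1)
  have e1 : ((2 * m).choose m : S) = (-1) ^ m * (1 - p * H) := by
    apply hu.mul_left_cancel
    have h1 : (m.factorial * (2 * m).choose m : ℕ) = ∏ i ∈ Finset.range m, (2 * m - i) := by
      rw [← Nat.descFactorial_eq_factorial_mul_choose, Nat.descFactorial_eq_prod_range]
    have h2 : ((m.factorial * (2 * m).choose m : ℕ) : S) =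
        ∏ i ∈ Finset.range m, (-1) * (((i + 1 : ℕ) : S) + (-1) * p) := by
      rw [h1, Nat.cast_prod]
      refine Finset.prod_congr rfl fun i hi => ?_
      have h3 : i < m := Finset.mem_range.1 hi
      rw [Nat.cast_sub (by omega), hpS]
      push_cast
      ring
    rw [Nat.cast_mul, Finset.prod_mul_distrib, hH, Finset.prod_const, Finset.card_range] at h2
    rw [h2]
    ring
  -- (2)
  have e2 : ((3 * m + 1).choose m : S) = 1 + p * H := by
    apply hu.mul_left_cancel
    have h1 : (m.factorial * (3 * m + 1).choose m : ℕ) = ∏ i ∈ Finset.range m, (p + 1 + i) := by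
      rw [← Nat.ascFactorial_eq_prod_range, Nat.ascFactorial_eq_factorial_mul_choose, hm]
      congr 2
      ring
    have h2 : ((m.factorial * (3 * m + 1).choose m : ℕ) : S) =
        ∏ i ∈ Finset.range m, (((i + 1 : ℕ) : S) + 1 * p) := by
      rw [h1, Nat.cast_prod]
      refine Finset.prod_congr rfl fun i hi => ?_
      push_cast
      ring
    rw [Nat.cast_mul, hH] at h2
    rw [h2]
    ring
  -- (3)
  have e3 : ((2 * m).choose m : S) = (-4) ^ m * (1 - h * p * H) := by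
    apply hu.mul_left_cancel
    have h1 := congrArg (Nat.cast (R := S)) (Ini_odd m)
    rw [← Finset.prod_range_reflect] at h1
    have h2 : ((∏ j ∈ Finset.range m, (2 * (m - 1 - j) + 1) : ℕ) : S) =
        ∏ i ∈ Finset.range m, (-2) * (((i + 1 : ℕ) : S) + (-h) * p) := by
      rw [Nat.cast_prod]
      refine Finset.prod_congr rfl fun i hi => ?_
      have h3 : i < m := Finset.mem_range.1 hi
      have h4 : ((m - 1 - i : ℕ) : S) = (m : S) - 1 - i := by
        rw [Nat.sub_sub, Nat.cast_sub (by omega)]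
        push_cast
        ring
      rw [Nat.cast_add, Nat.cast_mul, h4]
      push_cast
      linear_combination (-(p:S)) * hh - hpS
    rw [Nat.cast_mul, Nat.cast_mul, h2, Finset.prod_mul_distrib, hH, Finset.prod_const,
      Finset.card_range, Nat.cast_pow, Nat.cast_ofNat] at h1
    have h5 : ((-4 : S)) ^ m = 2 ^ m * (-2) ^ m := by
      rw [← mul_pow]
      norm_num
    rw [mul_comm, h1, h5]
    ring
  refine ⟨H, e1, e2, ?_⟩
  -- `y = 4 ^ m`
  have hy2 : (1 - h * p * H) ^ 2 = 1 - p * H := by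
    linear_combination (-(p:S) * H) * hh + (h ^ 2 * H ^ 2) * hS
  have hy : (1 - h * p * H) * (1 + h * p * H) = 1 := by
    linear_combination (-(h ^ 2 * H ^ 2)) * hS
  have h1 : ((-1 : S)) ^ m * ((-1) ^ m) = 1 := by
    rw [← mul_pow]
    norm_num
  have h4 : ((-4 : S)) ^ m = (-1) ^ m * 4 ^ m := by
    rw [← mul_pow]
    norm_num
  have h6 : (1 - h * p * H) ^ 2 = 4 ^ m * (1 - h * p * H) := by
    rw [e3, ← hy2, h4] at e1
    linear_combination (-((-1 : S) ^ m)) * e1 + (4 ^ m * (1 - h * p * H) -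
      (1 - h * p * H) ^ 2) * h1
  have h7 : 1 - h * p * H = (4 : S) ^ m := by
    linear_combination (1 + h * p * H) * h6 + ((4 : S) ^ m - (1 - h * p * H)) * hy
  have h8 : (16 : S) ^ m = 4 ^ m * 4 ^ m := by
    rw [← mul_pow]
    norm_num
  rw [h8, ← hy2, ← h7]
  ring

theorem ini_fermat (hp : p.Prime) (h5 : 5 ≤ p) (hm : p = 2 * m + 1) (hS : (p : S) ^ 2 = 0) :
    (p : S) * 4 ^ m = p := by
  have hF : Fact p.Prime := ⟨hp⟩
  have h2 : (2 : ZMod p) ≠ 0 := by
    intro h
    have h1 : ((2 : ℕ) : ZMod p) = 0 := by exact_mod_cast h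
    rw [ZMod.natCast_eq_zero_iff] at h1
    exact absurd (Nat.le_of_dvd two_pos h1) (by omega)
  have h3 := ZMod.pow_card_sub_one_eq_one h2
  have h4 : p - 1 = 2 * m := by omega
  rw [h4, pow_mul] at h3
  have h5' : ((4 ^ m - 1 : ℤ) : ZMod p) = 0 := by
    push_cast
    rw [sub_eq_zero, ← h3]
    norm_num
  rw [ZMod.intCast_zmod_eq_zero_iff_dvd] at h5'
  obtain ⟨k, hk⟩ := h5'
  have h6 := congrArg (Int.cast (R := S)) hk
  push_cast at h6
  linear_combination (p : S) * h6 + (k : S) * hS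

theorem ini_b (hp : p.Prime) (h5 : 5 ≤ p) (hm : p = 2 * m + 1) (hS : (p : S) ^ 2 = 0) :
    (-1) ^ m * ((2 * m).choose m : S) = 16 ^ m := by
  obtain ⟨H, e1, -, e3⟩ := Ini_main hp h5 hm hS
  have h1 : ((-1 : S)) ^ m * ((-1) ^ m) = 1 := by
    rw [← mul_pow]
    norm_num
  rw [e1, e3]
  linear_combination (1 - p * H) * h1

theorem ini_d (hp : p.Prime) (h5 : 5 ≤ p) (hm : p = 2 * m + 1) (hS : (p : S) ^ 2 = 0) :
    ((3 * m + 1).choose m : S) * 16 ^ m = 1 := by
  obtain ⟨H, -, e2, e3⟩ := Ini_main hp h5 hm hS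
  rw [e2, e3]
  linear_combination (-(H ^ 2)) * hS

theorem ini_e (hp : p.Prime) (h5 : 5 ≤ p) (hS : (p : S) ^ 2 = 0) :
    ((3 * p - 1).choose (p - 1) : S) = 1 := by
  have hpp : p - 1 < p := by omega
  obtain ⟨H, hH⟩ := Ini_prod (S := S) hp hS (p - 1) hpp
  have hu := Ini_fac (S := S) hp hS (p - 1) hpp
  -- `p H = 0`
  have h0 : (p : S) * H = 0 := by
    have h1 : ∏ i ∈ Finset.range (p - 1), (((i + 1 : ℕ) : S) + (-1) * p) =
        ((p - 1).factorial : ℕ) := by
      have h2 : ∀ i ∈ Finset.range (p - 1), (((i + 1 : ℕ) : S) + (-1) * p) =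
          (-1) * ((p - 1 - 1 - i + 1 : ℕ) : S) := by
        intro i hi
        have h3 : i < p - 1 := Finset.mem_range.1 hi
        have h4 : p - 1 - 1 - i + 1 = p - (i + 1) := by omega
        rw [h4, Nat.cast_sub (by omega)]
        ring
      rw [Finset.prod_congr rfl h2, Finset.prod_mul_distrib, Finset.prod_const,
        Finset.card_range, ← Nat.cast_prod,
        Finset.prod_range_reflect (fun i => i + 1) (p - 1), Finset.prod_range_add_one_eq_factorial]
      have h5' : Even (p - 1) := hp.even_sub_one (by omega)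
      rw [h5'.neg_one_pow, one_mul]
    rw [hH] at h1
    have h2 : (((p - 1).factorial : ℕ) : S) * ((p : S) * H) = (((p - 1).factorial : ℕ) : S) * 0 := by
      linear_combination -h1
    exact hu.mul_left_cancel h2
  apply hu.mul_left_cancel
  have h1 : ((p - 1).factorial * (3 * p - 1).choose (p - 1) : ℕ) =
      ∏ i ∈ Finset.range (p - 1), (2 * p + 1 + i) := by
    rw [← Nat.ascFactorial_eq_prod_range, Nat.ascFactorial_eq_factorial_mul_choose]
    congr 2
    omega
  have h2 : (((p - 1).factorial * (3 * p - 1).choose (p - 1) : ℕ) : S) =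
      ∏ i ∈ Finset.range (p - 1), (((i + 1 : ℕ) : S) + 2 * p) := by
    rw [h1, Nat.cast_prod]
    refine Finset.prod_congr rfl fun i hi => ?_
    push_cast
    ring
  rw [Nat.cast_mul, hH] at h2
  rw [h2]
  linear_combination 2 * (((p - 1).factorial : ℕ) : S) * h0

end Pool.Agent.MP_2a5e5c_nt
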