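import Pool.Agent.Lib.MP_2a5e5c_nt.HGbr

/-!
# SUN, module Intg: denominators prime to p

PROOF. With `S = ZMod p` (integers prime to `p` are units there) `QS p u x` contains `¬ p ∣ u.den`.
`pint_S1`: `QS_S1` (`IsA_exists`, `z` with `-1024 z = 1`, `p` odd). `pint_S2`: `QS_S2`.
`pint_div`: `QS_iff` (or `Rat.den_dvd`). `pint_mul`: the denominator of a product divides the
product of the denominators (`Rat.mul_den_dvd`). `pint_cS2`: `pint_mul`, `1025/1024`.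
`pint_T`: a sum of integers divided by powers of `-1024` (`QS_sum`, `QS_iff`).
-/

namespace Pool.Agent.MP_2a5e5c_nt

theorem pint_div {p : ℕ} (hp : p.Prime) {a b : ℤ} (hb : ¬ (p : ℤ) ∣ b) :
    ¬ p ∣ ((a : ℚ) / b).den := by
  intro h
  apply hb
  have h1 : (((a : ℚ) / b).den : ℤ) ∣ b := by
    rw [← Rat.divInt_eq_div]
    exact Rat.den_dvd a b
  exact (Int.natCast_dvd_natCast.2 h).trans h1

theorem pint_mul {p : ℕ} (hp : p.Prime) {u v : ℚ} (hu : ¬ p ∣ u.den) (hv : ¬ p ∣ v.den) :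
    ¬ p ∣ (u * v).den := by
  intro h
  rcases (hp.dvd_mul).1 (h.trans (Rat.mul_den_dvd u v)) with h | h
  · exact hu h
  · exact hv h

private lemma Intg_add {p : ℕ} (hp : p.Prime) {u v : ℚ} (hu : ¬ p ∣ u.den) (hv : ¬ p ∣ v.den) :
    ¬ p ∣ (u + v).den := by
  intro h
  rcases (hp.dvd_mul).1 (h.trans (Rat.add_den_dvd u v)) with h | h
  · exact hu h
  · exact hv h

private lemma Intg_1024 {p : ℕ} (hp : p.Prime) (h5 : 5 ≤ p) : ¬ p ∣ 1024 := by
  intro h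
  have h3 : (1024 : ℕ) = 2 ^ 10 := by norm_num
  rw [h3] at h
  have h4 := Nat.le_of_dvd (by norm_num) (hp.dvd_of_dvd_pow h)
  omega

private lemma Intg_unit {p : ℕ} (hp : p.Prime) (n : ℕ) (hn : ¬ p ∣ n) :
    IsUnit (n : ZMod p) := by
  have : Fact p.Prime := ⟨hp⟩
  rw [isUnit_iff_ne_zero]
  intro h0
  exact hn ((ZMod.natCast_eq_zero_iff n p).1 h0)

private lemma Intg_z {p : ℕ} (hp : p.Prime) (h5 : 5 ≤ p) :
    ∃ z : ZMod p, -1024 * z = 1 := by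
  obtain ⟨w, hw⟩ := (Intg_unit hp 1024 (Intg_1024 hp h5)).exists_right_inv
  refine ⟨-w, ?_⟩
  rw [neg_mul_neg, ← hw]
  norm_num

theorem pint_S1 {p : ℕ} (hp : p.Prime) (h5 : 5 ≤ p) : ¬ p ∣ (S1 p).den := by
  have hu := Intg_unit hp
  obtain ⟨A, hA⟩ := IsA_exists (S := ZMod p) hp h5 hu
  obtain ⟨z, hz⟩ := Intg_z hp h5
  exact (QS_S1 hp h5 hu hA z hz).1

theorem pint_S2 {p : ℕ} (hp : p.Prime) (h5 : 5 ≤ p) : ¬ p ∣ (S2 p).den := by
  have hu := Intg_unit hp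
  obtain ⟨G, hG⟩ := IsG_exists (S := ZMod p) hp h5 hu
  obtain ⟨z, hz⟩ := Intg_z hp h5
  exact (QS_S2 hp h5 hu hG z hz).1

private lemma Intg_int {p : ℕ} (hp : p.Prime) (c : ℤ) : ¬ p ∣ ((c : ℚ)).den := by
  rw [Rat.den_intCast]
  exact hp.one_lt.ne' ∘ Nat.dvd_one.1

private lemma Intg_pow {p : ℕ} (hp : p.Prime) {u : ℚ} (hu : ¬ p ∣ u.den) (n : ℕ) :
    ¬ p ∣ (u ^ n).den := by
  rw [Rat.den_pow]
  exact fun h => hu (hp.dvd_of_dvd_pow h)

theorem pint_cS2 {p : ℕ} (hp : p.Prime) (h5 : 5 ≤ p) (c : ℤ) (n : ℕ) :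
    ¬ p ∣ ((c : ℚ) * (1025 / 1024) ^ n * S2 p).den := by
  refine pint_mul hp (pint_mul hp (Intg_int hp c) (Intg_pow hp ?_ n)) (pint_S2 hp h5)
  have h1 := pint_div (a := 1025) (b := 1024) hp (by
    intro h
    exact Intg_1024 hp h5 (by exact_mod_cast h))
  push_cast at h1
  exact h1

theorem pint_T {p : ℕ} (hp : p.Prime) (h5 : 5 ≤ p) : ¬ p ∣ (Tsum p).den := by
  unfold Tsum
  refine Finset.sum_induction _ (fun u : ℚ => ¬ p ∣ u.den) (fun a b ha hb => Intg_add hp ha hb)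
    ?_ ?_
  · have := Intg_int hp 0
    rwa [Int.cast_zero] at this
  · intro k _
    have h1 := pint_div (p := p)
      (a := ((((p - 2) / 3).choose k : ℕ) : ℤ) * ((((p - 5) / 6).choose k : ℕ) : ℤ))
      (b := (-1024) ^ k) hp (by
        intro h
        have h2 := Int.natCast_dvd.1 h
        rw [Int.natAbs_pow] at h2
        exact Intg_1024 hp h5 (hp.dvd_of_dvd_pow h2))
    push_cast at h1
    exact h1

end Pool.Agent.MP_2a5e5c_nt
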