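import Mathlib

/-!
# SUN, module QuadF: functions satisfying the parallelogram law

PROOF. `Q = P`: `h(2P) = 4 h(P)` etc. For `quad_form` first show for fixed `P, Q` that
`u(n) = h(P + nQ)` (integer valued) satisfies `u(n+1) + u(n-1) = 2 u(n) + 2 h(Q)`, so
`u(n) = h(P) + n (h(P+Q) - h(P) - h(Q)) + n² h(Q)` for all `n ∈ ℤ` (induction in both directions;
`u(-1) = 2h(P) + 2h(Q) - u(1)`). With `P = 0`: `h(nQ) = n² h(Q)`. Then apply it to `aP` and `Q`
and again to `h(aP + Q) = h(Q + aP)`. `quad_vanish`: if `h(T) = 0` then `n ↦ h(P + nT)` is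
affine in `n` and `≥ 0` on `ℤ`, so it is constant.
-/

namespace Pool.Agent.MP_2a5e5c_nt

/-- a sequence with constant second difference is a quadratic polynomial -/
private theorem QuadF_seq (u : ℤ → ℤ) (c : ℤ)
    (hu : ∀ n, u (n + 1) + u (n - 1) = 2 * u n + 2 * c) (n : ℤ) :
    u n = u 0 + n * (u 1 - u 0 - c) + n ^ 2 * c := by
  have key : ∀ n : ℤ, u n = u 0 + n * (u 1 - u 0 - c) + n ^ 2 * c ∧
      u (n + 1) = u 0 + (n + 1) * (u 1 - u 0 - c) + (n + 1) ^ 2 * c := by
    intro n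
    induction n using Int.induction_on with
    | zero =>
      refine ⟨by simp, ?_⟩
      simp only [zero_add]
      ring
    | succ i ih =>
      obtain ⟨h1, h2⟩ := ih
      refine ⟨h2, ?_⟩
      have h3 := hu ((i : ℤ) + 1)
      rw [add_sub_cancel_right] at h3
      have h4 : u ((i : ℤ) + 1 + 1) = 2 * u ((i : ℤ) + 1) + 2 * c - u (i : ℤ) := by linarith
      rw [h4, h2, h1]
      ring
    | pred i ih =>
      obtain ⟨h1, h2⟩ := ih
      have e : -(i : ℤ) - 1 + 1 = -(i : ℤ) := by ring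
      refine ⟨?_, ?_⟩
      · have h3 := hu (-(i : ℤ))
        have h4 : u (-(i : ℤ) - 1) = 2 * u (-(i : ℤ)) + 2 * c - u (-(i : ℤ) + 1) := by linarith
        rw [h4, h2, h1]
        ring
      · rw [e]
        exact h1
  exact (key n).1

/-- the values on the line `P + n Q` -/
private theorem QuadF_line {G : Type*} [AddCommGroup G] (h : G → ℕ)
    (hp : ∀ P Q, h (P + Q) + h (P - Q) = 2 * h P + 2 * h Q) (P Q : G) (n : ℤ) :
    (h (P + n • Q) : ℤ) = h P + n * (h (P + Q) - h P - h Q) + n ^ 2 * h Q := by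
  have := QuadF_seq (fun n : ℤ => (h (P + n • Q) : ℤ)) (h Q) (by
    intro n
    have h1 := hp (P + n • Q) Q
    have e1 : P + (n + 1) • Q = P + n • Q + Q := by rw [add_smul, one_smul]; abel
    have e2 : P + (n - 1) • Q = P + n • Q - Q := by rw [sub_smul, one_smul]; abel
    simp only [e1, e2]
    exact_mod_cast h1) n
  simpa using this

theorem quad_form {G : Type*} [AddCommGroup G] (h : G → ℕ) (h0 : h 0 = 0)
    (hp : ∀ P Q, h (P + Q) + h (P - Q) = 2 * h P + 2 * h Q) (P Q : G) (a b : ℤ) :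
    (h (a • P + b • Q) : ℤ) =
      a ^ 2 * h P + a * b * (h (P + Q) - h P - h Q) + b ^ 2 * h Q := by
  have hmul : ∀ (R : G) (n : ℤ), (h (n • R) : ℤ) = n ^ 2 * h R := by
    intro R n
    have h1 := QuadF_line h hp 0 R n
    rw [zero_add, zero_add, h0] at h1
    rw [h1]
    push_cast
    ring
  have h1 := QuadF_line h hp (a • P) Q b
  have h2 := QuadF_line h hp Q P a
  rw [add_comm Q (a • P), add_comm Q P] at h2
  rw [h1, h2, hmul P a]
  ring

theorem quad_vanish {G : Type*} [AddCommGroup G] (h : G → ℕ)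
    (hp : ∀ P Q, h (P + Q) + h (P - Q) = 2 * h P + 2 * h Q) {T : G} (hT : h T = 0) (P : G) :
    h (P + T) = h P := by
  have key : ∀ n : ℤ, (0 : ℤ) ≤ h P + n * (h (P + T) - h P) := by
    intro n
    have h1 := QuadF_line h hp P T n
    rw [hT] at h1
    have h2 : (0 : ℤ) ≤ (h (P + n • T) : ℤ) := Int.natCast_nonneg _
    rw [h1] at h2
    push_cast at h2
    linarith
  by_contra hne
  have hne' : (h (P + T) : ℤ) - h P ≠ 0 := by
    intro h0
    apply hne
    have : (h (P + T) : ℤ) = h P := by linarith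
    exact_mod_cast this
  rcases lt_or_gt_of_ne hne' with hlt | hgt
  · have h1 := key ((h P : ℤ) + 1)
    nlinarith [Int.natCast_nonneg (h P)]
  · have h1 := key (-((h P : ℤ) + 1))
    nlinarith [Int.natCast_nonneg (h P)]

end Pool.Agent.MP_2a5e5c_nt
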