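import Pool.Agent.Lib.MP_2a5e5c_nt.LamK
import Pool.Agent.Lib.MP_2a5e5c_nt.QuadF

/-!
# SUN, module LatE: the two height forms

PROOF. `lat_three`: `T = φ - β + β'` has differential `0` (`lamK_comb` twice), so `ht T = 0`
(`lamK_zero`). `quad_vanish` (with `ht_par`) for the point `-β'`: `-β' + T = φ - β`, so
`ht (φ - β) = ht (-β') = ht β' = 11` (`rep_neg`, `ht_eq`). `quad_form φ β 1 (-1)` gives
`11 = 3 - c + 11`, `c = 3` for `c = ht (φ + β) - ht φ - ht β`; then `quad_form φ β a b`.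
`lat_one`: `T = δ + δ' + 3 η`, `-δ' + T = δ + 3η`, `quad_form η δ 3 1`: `33 = 9 + 3c + 33`,
`c = -3`. `pos_three`: if `h (a A + b B) = 0 =: h T` then by `quad_vanish` at `-b B`:
`h (a A) = h (-b B)`, i.e. `3a² = 11b²` (`quad_form` with one coefficient `0`), impossible unless
`a = b = 0` (11-adic valuation: infinite descent, or `(3a)² = 33b²` and `√33` irrational).
`pos_one`: `a² = 33b²`.
-/

namespace Pool.Agent.MP_2a5e5c_nt

open Polynomial

variable {K : Type*} [Field K] {q t s : K}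

private lemma LatE_neg {G : Type*} [AddCommGroup G] (h : G → ℕ) (h0 : h 0 = 0)
    (hp : ∀ P Q, h (P + Q) + h (P - Q) = 2 * h P + 2 * h Q) (Q : G) : h (-Q) = h Q := by
  have h1 := hp 0 Q
  rw [zero_add, zero_sub, h0] at h1
  omega

private lemma LatE_sq {x b : ℤ} (h : x ^ 2 = 33 * b ^ 2) : b = 0 := by
  by_contra hb
  have h1 : b ∣ x := by
    have h2 : b ^ 2 ∣ x ^ 2 := ⟨33, by rw [h]; ring⟩
    exact (Int.pow_dvd_pow_iff two_ne_zero).1 h2
  obtain ⟨k, rfl⟩ := h1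
  have h2 : b ^ 2 * (k ^ 2 - 33) = 0 := by linear_combination h
  have h3 : k ^ 2 - 33 = 0 := (mul_eq_zero.1 h2).resolve_left (pow_ne_zero 2 hb)
  have h4 : k ≤ 5 := by nlinarith
  have h5 : -5 ≤ k := by nlinarith
  interval_cases k <;> omega

private lemma LatE_smul {G : Type*} [AddCommGroup G] (h : G → ℕ) (h0 : h 0 = 0)
    (hp : ∀ P Q, h (P + Q) + h (P - Q) = 2 * h P + 2 * h Q) (Q : G) (a : ℤ) :
    (h (a • Q) : ℤ) = a ^ 2 * h Q := by
  have h1 := quad_form h h0 hp Q 0 a 0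
  rw [smul_zero, add_zero] at h1
  rw [h1, h0]
  push_cast
  ring

private lemma LatE_abs3 {G : Type*} [AddCommGroup G] (h : G → ℕ) (h0 : h 0 = 0)
    (hp : ∀ P Q, h (P + Q) + h (P - Q) = 2 * h P + 2 * h Q) {P B B' : G} (hP : h P = 3)
    (hB : h B = 11) (hB' : h B' = 11)
    (hT : h ((1 : ℤ) • ((1 : ℤ) • P + (-1 : ℤ) • B) + (1 : ℤ) • B') = 0) (a b : ℤ) :
    (h (a • P + b • B) : ℤ) = 3 * a ^ 2 + 3 * a * b + 11 * b ^ 2 := by
  have h3 := quad_vanish h hp hT (-B')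
  have e3 : -B' + ((1 : ℤ) • ((1 : ℤ) • P + (-1 : ℤ) • B) + (1 : ℤ) • B') =
      (1 : ℤ) • P + (-1 : ℤ) • B := by
    simp only [one_smul]
    abel
  rw [e3, LatE_neg h h0 hp, hB'] at h3
  have h5 := quad_form h h0 hp P B 1 (-1)
  rw [h3, hP, hB] at h5
  have h6 := quad_form h h0 hp P B a b
  rw [hP, hB] at h6
  have h7 : (h (P + B) : ℤ) = 17 := by
    push_cast at h5
    linarith
  rw [h6, h7]
  push_cast
  ring

private lemma LatE_abs1 {G : Type*} [AddCommGroup G] (h : G → ℕ) (h0 : h 0 = 0)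
    (hp : ∀ P Q, h (P + Q) + h (P - Q) = 2 * h P + 2 * h Q) {P B B' : G} (hP : h P = 1)
    (hB : h B = 33) (hB' : h B' = 33)
    (hT : h ((1 : ℤ) • ((3 : ℤ) • P + (1 : ℤ) • B) + (1 : ℤ) • B') = 0) (a b : ℤ) :
    (h (a • P + b • B) : ℤ) = a ^ 2 - 3 * a * b + 33 * b ^ 2 := by
  have h3 := quad_vanish h hp hT (-B')
  have e3 : -B' + ((1 : ℤ) • ((3 : ℤ) • P + (1 : ℤ) • B) + (1 : ℤ) • B') =
      (3 : ℤ) • P + (1 : ℤ) • B := by
    simp only [one_smul]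
    abel
  rw [e3, LatE_neg h h0 hp, hB'] at h3
  have h5 := quad_form h h0 hp P B 3 1
  rw [h3, hP, hB] at h5
  have h6 := quad_form h h0 hp P B a b
  rw [hP, hB] at h6
  have h7 : (h (P + B) : ℤ) = 31 := by
    push_cast at h5
    linarith
  rw [h6, h7]
  push_cast
  ring

theorem lat_three [CharZero K] (h4 : 4 * q = 1) (hs : s ≠ 0) (h27 : 27 * s ≠ 1)
    {P B B' : Pt q t s} {c d d' : K} (hP : ht P = 3) (hB : ht B = 11) (hB' : ht B' = 11)
    (lP : LamK P c) (lB : LamK B d) (lB' : LamK B' d') (hc : c - d + d' = 0) (a b : ℤ) :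
    (ht (a • P + b • B) : ℤ) = 3 * a ^ 2 + 3 * a * b + 11 * b ^ 2 := by
  have h2 := lamK_comb h4 (lamK_comb h4 lP lB 1 (-1)) lB' 1 1
  have e2 : ((1 : ℤ) : K) * (((1 : ℤ) : K) * c + ((-1 : ℤ) : K) * d) + ((1 : ℤ) : K) * d' = 0 := by
    push_cast
    linear_combination hc
  rw [e2] at h2
  have h3 := (lamK_zero h4 h2).2
  exact LatE_abs3 (G := Pt q t s) (fun P => ht P) ht_zero (ht_par h4 hs h27) hP hB hB' h3 a b

theorem lat_one [CharZero K] (h4 : 4 * q = 1) (hs : s ≠ 0) (h27 : 27 * s ≠ 1)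
    {P B B' : Pt q t s} {c d d' : K} (hP : ht P = 1) (hB : ht B = 33) (hB' : ht B' = 33)
    (lP : LamK P c) (lB : LamK B d) (lB' : LamK B' d') (hc : d + d' + 3 * c = 0) (a b : ℤ) :
    (ht (a • P + b • B) : ℤ) = a ^ 2 - 3 * a * b + 33 * b ^ 2 := by
  have h2 := lamK_comb h4 (lamK_comb h4 lP lB 3 1) lB' 1 1
  have e2 : ((1 : ℤ) : K) * (((3 : ℤ) : K) * c + ((1 : ℤ) : K) * d) + ((1 : ℤ) : K) * d' = 0 := by
    push_cast
    linear_combination hc
  rw [e2] at h2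
  have h3 := (lamK_zero h4 h2).2
  exact LatE_abs1 (G := Pt q t s) (fun P => ht P) ht_zero (ht_par h4 hs h27) hP hB hB' h3 a b

private lemma LatE_pos {G : Type*} [AddCommGroup G] (h : G → ℕ) (h0 : h 0 = 0)
    (hp : ∀ P Q, h (P + Q) + h (P - Q) = 2 * h P + 2 * h Q) {P B : G} {a b : ℤ}
    (h1 : h (a • P + b • B) = 0) : a ^ 2 * (h P : ℤ) = b ^ 2 * (h B : ℤ) := by
  have h2 := quad_vanish h hp h1 (-(b • B))
  have e1 : -(b • B) + (a • P + b • B) = a • P := by abel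
  rw [e1, LatE_neg h h0 hp] at h2
  rw [← LatE_smul h h0 hp P a, ← LatE_smul h h0 hp B b, h2]

theorem pos_three {G : Type*} [AddCommGroup G] (h : G → ℕ) (h0 : h 0 = 0)
    (hp : ∀ P Q, h (P + Q) + h (P - Q) = 2 * h P + 2 * h Q) {P B : G} (hP : h P = 3)
    (hB : h B = 11) {a b : ℤ} (hab : ¬ (a = 0 ∧ b = 0)) : h (a • P + b • B) ≠ 0 := by
  intro h1
  have h2 := LatE_pos h h0 hp h1
  rw [hP, hB] at h2
  push_cast at h2
  have hb : b = 0 := LatE_sq (x := 3 * a) (by linear_combination 3 * h2)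
  apply hab
  refine ⟨?_, hb⟩
  rw [hb] at h2
  have h3 : a ^ 2 = 0 := by linarith
  exact pow_eq_zero_iff two_ne_zero |>.1 h3

theorem pos_one {G : Type*} [AddCommGroup G] (h : G → ℕ) (h0 : h 0 = 0)
    (hp : ∀ P Q, h (P + Q) + h (P - Q) = 2 * h P + 2 * h Q) {P B : G} (hP : h P = 1)
    (hB : h B = 33) {a b : ℤ} (hab : ¬ (a = 0 ∧ b = 0)) : h (a • P + b • B) ≠ 0 := by
  intro h1
  have h2 := LatE_pos h h0 hp h1
  rw [hP, hB] at h2
  push_cast at h2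
  have hb : b = 0 := LatE_sq (x := a) (by linear_combination h2)
  apply hab
  refine ⟨?_, hb⟩
  rw [hb] at h2
  have h3 : a ^ 2 = 0 := by linarith
  exact pow_eq_zero_iff two_ne_zero |>.1 h3

end Pool.Agent.MP_2a5e5c_nt
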