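import Pool.Agent.Lib.MP_2a5e5c_nt.Sgn0
import Pool.Agent.Lib.MP_2a5e5c_nt.Pted
import Pool.Agent.Lib.MP_2a5e5c_nt.PIso

/-!
# SUN, module PtMk: the point of the twisted curve given by polynomial isogeny data

PROOF. `K` a field of characteristic 0, `ρ ≠ 0`. Write `ι : K[X] → K(X)`, `f = ι (fC q t)`,
`W = N'D - 2ND'`. `W ≠ 0`: otherwise `eq` gives `N³ + q D² (N + s D²)² = 0`, but
`natDegree N³ = 3d` is larger than the degree of the rest (`2 deg D < d`: `≤ 2 deg D + 2d < 3d`).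
`D ≠ 0`: if `D = 0` then `IsCoprime N 0` makes `N` a unit, `d = 0`. Put `U = ι N / ι D²`,
`V = ι W / (ι (C ρ) ι D³)`, `x = f U`, `y = f² V`. By `eq`: `f V² = U³ + q (U + s)²`, i.e.
`y² = x³ + q f x² + 2 q s f² x + q s² f³` (multiply by `f³`). `V ≠ 0` so `y ≠ 0`, `2 y ≠ 0`: the
point is nonsingular (`WeierstrassCurve.Affine.nonsingular_iff`: `y ≠ negY x y = -y`).
`Rep P N (D²)`: `IsCoprime.pow_right`. `LamK`: `U' = W/D³ = ρ V` with `dX` (`dX_poly`, quotient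
rule), so `f x' - f' x = f² U' = ρ y`; and `2 f y' - 3 f' y = f² (2 f V' + f' V)`; differentiate
`f V² = U³ + q (U+s)²`: `f' V² + 2 f V V' = (3U² + 2qU + 2qs) ρ V`, cancel `V`. `ht P = d`
(`ht_eq`), `Pted`: `deg D² < d = deg N`. `vz_mk`: from the first equation of `LamK`:
`c y = f x' - f' x = f² U'`, so with `y = f² w`: `c w = U'`,
`w M² c = N'M - NM'` (regular at `0`, value `N'(0)M(0)/(c M(0)²)` as `N(0) = 0`).
-/

namespace Pool.Agent.MP_2a5e5c_nt

open Polynomial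

variable {K : Type*} [Field K] {q t s : K}

private theorem PtMk_inj {a b : K[X]} (h : algebraMap K[X] (RatFunc K) a =
    algebraMap K[X] (RatFunc K) b) : a = b := RatFunc.algebraMap_injective K h

private theorem PtMk_ne {a : K[X]} (h : a ≠ 0) : algebraMap K[X] (RatFunc K) a ≠ 0 := fun h1 =>
  h (PtMk_inj (by rw [h1, map_zero]))

private theorem PtMk_m0 {N M : K[X]} (hc : IsCoprime N M) (h : N.eval 0 = 0) :
    M.eval 0 ≠ 0 := by
  intro h1
  obtain ⟨a, b, hab⟩ := hc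
  have h2 := congrArg (fun g : K[X] => g.eval 0) hab
  simp [h, h1] at h2

theorem pt_mk [CharZero K] (h4 : 4 * q = 1) {rho : K} (hρ : rho ≠ 0) {d : ℕ} {N D : K[X]}
    (h : PIso q t s rho d N D) :
    ∃ P : Pt q t s, Rep P N (D ^ 2) ∧ LamK P rho ∧ ht P = d ∧ Pted P := by
  have hN := h.degN
  have hD := h.degD
  have hl : N.coeff d ≠ 0 := h.lead.ne_zero
  have hN0 : N ≠ 0 := by
    intro h0
    rw [h0, coeff_zero] at hl
    exact hl rfl
  have hD0 : D ≠ 0 := by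
    intro h0
    have h1 := h.cop
    rw [h0] at h1
    have h2 := natDegree_eq_zero_of_isUnit (isCoprime_zero_right.1 h1)
    omega
  have hW0 : derivative N * D - 2 * N * derivative D ≠ 0 := by
    intro h0
    have h1 := h.eq
    rw [h0] at h1
    have h2 : N ^ 3 + C q * D ^ 2 * (N + C s * D ^ 2) ^ 2 = 0 := by
      have h3 : (C rho : K[X]) ^ 2 ≠ 0 := pow_ne_zero 2 (C_ne_zero.2 hρ)
      have h4 : (C rho : K[X]) ^ 2 * (N ^ 3 + C q * D ^ 2 * (N + C s * D ^ 2) ^ 2) = 0 := by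
        rw [← h1]
        ring
      exact (mul_eq_zero.1 h4).resolve_left h3
    have h3 := congrArg (fun g : K[X] => g.coeff (3 * d)) h2
    simp only [coeff_add, coeff_zero] at h3
    have d1 : (D ^ 2).natDegree ≤ 2 * D.natDegree := natDegree_pow_le
    have d2 : (C s * D ^ 2).natDegree ≤ d := (natDegree_C_mul_le _ _).trans (by omega)
    have d3 : (N + C s * D ^ 2).natDegree ≤ d := natDegree_add_le_of_degree_le hN.le d2
    have d4 : ((N + C s * D ^ 2) ^ 2).natDegree ≤ 2 * d :=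
      natDegree_pow_le.trans (Nat.mul_le_mul_left 2 d3)
    have d5 : (C q * D ^ 2).natDegree ≤ 2 * D.natDegree := (natDegree_C_mul_le _ _).trans d1
    have d6 : (C q * D ^ 2 * (N + C s * D ^ 2) ^ 2).natDegree < 3 * d := by
      have := natDegree_mul_le (p := C q * D ^ 2) (q := (N + C s * D ^ 2) ^ 2)
      omega
    rw [coeff_pow_of_natDegree_le hN.le, coeff_eq_zero_of_natDegree_lt d6, add_zero] at h3
    exact pow_ne_zero 3 hl h3
  obtain ⟨f, hf⟩ : ∃ f, f = algebraMap K[X] (RatFunc K) (fC q t) := ⟨_, rfl⟩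
  obtain ⟨n, hn⟩ : ∃ n, n = algebraMap K[X] (RatFunc K) N := ⟨_, rfl⟩
  obtain ⟨e, he⟩ : ∃ e, e = algebraMap K[X] (RatFunc K) D := ⟨_, rfl⟩
  obtain ⟨w, hw⟩ : ∃ w, w = algebraMap K[X] (RatFunc K)
    (derivative N * D - 2 * N * derivative D) := ⟨_, rfl⟩
  obtain ⟨r, hr⟩ : ∃ r, r = algebraMap K[X] (RatFunc K) (C rho) := ⟨_, rfl⟩
  obtain ⟨Q, hQ⟩ : ∃ Q, Q = algebraMap K[X] (RatFunc K) (C q) := ⟨_, rfl⟩
  obtain ⟨S, hS⟩ : ∃ S, S = algebraMap K[X] (RatFunc K) (C s) := ⟨_, rfl⟩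
  have hf0 : f ≠ 0 := by
    rw [hf]
    exact PtMk_ne (fC_monic q t).1.ne_zero
  have he0 : e ≠ 0 := by
    rw [he]
    exact PtMk_ne hD0
  have hw0 : w ≠ 0 := by
    rw [hw]
    exact PtMk_ne hW0
  have hr0 : r ≠ 0 := by
    rw [hr]
    exact PtMk_ne (C_ne_zero.2 hρ)
  have h2 : (2 : RatFunc K) ≠ 0 := by
    have h3 : (2 : K) ≠ 0 := two_ne_zero
    have h5 : algebraMap K[X] (RatFunc K) (C 2) ≠ 0 := PtMk_ne (C_ne_zero.2 h3)
    intro h6
    apply h5
    rw [map_ofNat, map_ofNat, h6]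
  have heq : f * w ^ 2 = r ^ 2 * (n ^ 3 + Q * e ^ 2 * (n + S * e ^ 2) ^ 2) := by
    have h1 := congrArg (algebraMap K[X] (RatFunc K)) h.eq
    rw [map_mul, map_pow, ← hf, ← hw, map_mul, map_pow, ← hr, map_add, map_pow, ← hn, map_mul,
      map_mul, ← hQ, map_pow, ← he, map_pow, map_add, ← hn, map_mul, ← hS, map_pow, ← he] at h1
    exact h1
  have hdw : w = dX K n * e - 2 * n * dX K e := by
    rw [hw, hn, he, dX_poly, dX_poly, map_sub, map_mul, map_mul, map_mul, map_ofNat]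
  have hdQ : dX K Q = 0 := by
    rw [hQ, dX_poly, derivative_C, map_zero]
  have hdS : dX K S = 0 := by
    rw [hS, dX_poly, derivative_C, map_zero]
  obtain ⟨x, hx⟩ : ∃ x, x = f * n / e ^ 2 := ⟨_, rfl⟩
  obtain ⟨y, hy⟩ : ∃ y, y = f ^ 2 * w / (r * e ^ 3) := ⟨_, rfl⟩
  have hxe : x * e ^ 2 = f * n := by
    rw [hx, div_mul_cancel₀ _ (pow_ne_zero 2 he0)]
  have hye : y * (r * e ^ 3) = f ^ 2 * w := by
    rw [hy, div_mul_cancel₀ _ (mul_ne_zero hr0 (pow_ne_zero 3 he0))]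
  have hy0 : y ≠ 0 := by
    intro h0
    rw [h0, zero_mul] at hye
    exact mul_ne_zero (pow_ne_zero 2 hf0) hw0 hye.symm
  have hE : y ^ 2 = x ^ 3 + Q * f * x ^ 2 + 2 * Q * S * f ^ 2 * x + Q * S ^ 2 * f ^ 3 := by
    have h1 : r ^ 2 * e ^ 6 ≠ 0 := mul_ne_zero (pow_ne_zero 2 hr0) (pow_ne_zero 6 he0)
    refine mul_left_cancel₀ h1 ?_
    calc r ^ 2 * e ^ 6 * y ^ 2 = (y * (r * e ^ 3)) ^ 2 := by ring
      _ = f ^ 3 * (f * w ^ 2) := by
        rw [hye]
        ring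
      _ = r ^ 2 * ((f * n) ^ 3 + Q * f * (f * n) ^ 2 * e ^ 2 +
            2 * Q * S * f ^ 2 * (f * n) * e ^ 4 + Q * S ^ 2 * f ^ 3 * e ^ 6) := by
        rw [heq]
        ring
      _ = r ^ 2 * e ^ 6 * (x ^ 3 + Q * f * x ^ 2 + 2 * Q * S * f ^ 2 * x +
            Q * S ^ 2 * f ^ 3) := by
        rw [← hxe]
        ring
  have hns : (TX q t s).toAffine.Nonsingular x y := by
    rw [WeierstrassCurve.Affine.nonsingular_iff, WeierstrassCurve.Affine.equation_iff]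
    simp only [TX, TC, zero_mul, add_zero, sub_zero]
    rw [← hf, ← hQ, ← hS]
    refine ⟨hE, Or.inr ?_⟩
    intro h0
    have h1 : 2 * y = 0 := by linear_combination h0
    exact mul_ne_zero h2 hy0 h1
  have hrep : Rep (.some x y hns : Pt q t s) N (D ^ 2) := by
    refine ⟨h.cop.pow_right, Or.inr ⟨x, y, hns, rfl, pow_ne_zero 2 hD0, ?_⟩⟩
    rw [map_pow, ← he, ← hf, ← hn]
    exact hxe
  have hL1 : f * dX K x - dX K f * x = r * y := by
    have h1 := congrArg (dX K) hxe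
    simp only [Derivation.leibniz, Derivation.leibniz_pow, smul_eq_mul, nsmul_eq_mul,
      Nat.cast_ofNat] at h1
    have h3 : e ^ 3 ≠ 0 := pow_ne_zero 3 he0
    refine mul_left_cancel₀ h3 ?_
    have h5 : e ^ 3 * (r * y) = f ^ 2 * w := by
      rw [← hye]
      ring
    rw [h5, hdw]
    linear_combination f * e * h1 - (2 * f * dX K e + dX K f * e) * hxe
  have hL2 : 2 * f * dX K y - 3 * dX K f * y =
      r * (3 * x ^ 2 + 2 * Q * f * x + 2 * Q * S * f ^ 2) := by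
    have h1 := congrArg (dX K) hE
    have hd2 : dX K (2 : RatFunc K) = 0 := by
      have h3 := (dX K).map_natCast 2
      rwa [Nat.cast_ofNat] at h3
    simp only [Derivation.leibniz, Derivation.leibniz_pow, smul_eq_mul, nsmul_eq_mul,
      Nat.cast_ofNat, map_add, hdQ, hdS, hd2, mul_zero, add_zero] at h1
    refine mul_left_cancel₀ hy0 ?_
    linear_combination f * h1 + (3 * x ^ 2 + 2 * Q * f * x + 2 * Q * S * f ^ 2) * hL1 -
      3 * dX K f * hE
  refine ⟨.some x y hns, hrep, Or.inr ⟨x, y, hns, rfl, ?_, ?_⟩, ?_, N, D ^ 2, hrep, ?_⟩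
  · rw [← hf, ← hr]
    exact hL1
  · rw [← hf, ← hr, ← hQ, ← hS]
    exact hL2
  · rw [ht_eq hrep]
    unfold hgt
    rw [natDegree_pow, hN]
    omega
  · rw [degree_eq_natDegree hN0, degree_eq_natDegree (pow_ne_zero 2 hD0), natDegree_pow, hN]
    exact_mod_cast hD

theorem vz_mk {P : Pt q t s} {c : K} (hc : c ≠ 0) (hL : LamK P c) {N M : K[X]}
    (h : Rep P N M) (hN : N.coeff 0 = 0) :
    ZV P ∧ VZ P (N.coeff 1 / (c * M.coeff 0)) := by
  have hN' : N.eval 0 = 0 := by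
    rw [← coeff_zero_eq_eval_zero]
    exact hN
  have hM' : M.eval 0 ≠ 0 := PtMk_m0 h.1 hN'
  refine ⟨⟨N, M, h, hN'⟩, ?_⟩
  rcases h.2 with ⟨-, hR⟩ | ⟨x, y, hns, hP, hM0, hx⟩
  · rw [hR, eval_zero] at hM'
    exact absurd rfl hM'
  rcases hL with ⟨h0, -⟩ | ⟨x', y', hns', hP', hL1, -⟩
  · rw [hP] at h0
    exact absurd h0 (WeierstrassCurve.Affine.Point.some_ne_zero _)
  have hxy : x' = x ∧ y' = y := by
    rw [hP] at hP'
    injection hP' with h1 h2
    exact ⟨h1.symm, h2.symm⟩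
  rw [hxy.1, hxy.2] at hL1
  obtain ⟨f, hf⟩ : ∃ f, f = algebraMap K[X] (RatFunc K) (fC q t) := ⟨_, rfl⟩
  obtain ⟨n, hn⟩ : ∃ n, n = algebraMap K[X] (RatFunc K) N := ⟨_, rfl⟩
  obtain ⟨m, hm⟩ : ∃ m, m = algebraMap K[X] (RatFunc K) M := ⟨_, rfl⟩
  have hf0 : f ≠ 0 := by
    rw [hf]
    exact PtMk_ne (fC_monic q t).1.ne_zero
  have hm0 : m ≠ 0 := by
    rw [hm]
    exact PtMk_ne hM0
  rw [← hf] at hL1
  rw [← hf, ← hn, ← hm] at hx
  obtain ⟨w, hw⟩ : ∃ w, w = y / f ^ 2 := ⟨_, rfl⟩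
  have hyw : y = f ^ 2 * w := by
    rw [hw, mul_div_cancel₀ _ (pow_ne_zero 2 hf0)]
  refine ⟨x, y, hns, hP, w, by rw [← hf]; exact hyw, derivative N * M - N * derivative M,
    C c * M ^ 2, ?_, ?_, ?_⟩
  · rw [eval_mul, eval_C, eval_pow]
    exact mul_ne_zero hc (pow_ne_zero 2 hM')
  · rw [map_mul, map_pow, map_sub, map_mul, map_mul, ← dX_poly, ← dX_poly, ← hn, ← hm]
    have h1 := congrArg (dX K) hx
    simp only [Derivation.leibniz, smul_eq_mul] at h1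
    refine mul_left_cancel₀ (pow_ne_zero 2 hf0) ?_
    rw [hyw] at hL1
    linear_combination -m ^ 2 * hL1 + f * m * h1 - (f * dX K m + m * dX K f) * hx
  · have e1 : (derivative N).eval 0 = N.coeff 1 := by
      rw [← coeff_zero_eq_eval_zero, coeff_derivative]
      simp
    rw [eval_sub, eval_mul, eval_mul, eval_mul, eval_pow, eval_C, hN', e1,
      coeff_zero_eq_eval_zero]
    field_simp
    ring

theorem sv_mk {P : Pt q t s} {N M : K[X]} (h : Rep P N M) (hM : M.coeff 0 = 0) : SV P := by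
  refine ⟨N, M, h, ?_⟩
  rw [← coeff_zero_eq_eval_zero]
  exact hM

end Pool.Agent.MP_2a5e5c_nt
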