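import Pool.Agent.Lib.MP_2a5e5c_nt.FinF
import Pool.Agent.Lib.MP_2a5e5c_nt.PtMk
import Pool.Agent.Lib.MP_2a5e5c_nt.LatE
import Pool.Agent.Lib.MP_2a5e5c_nt.BetaId

/-!
# SUN, module IsoA: the isogeny of degree p in the case 4p = x² + 123y²

PROOF. As IsoB (read it first), now with target parameter `t`: points of `Pt q t t` over `K`.
* `η` from `piso_eta q t`: `N = X`, `D = 1`, differential 1, height 1, `ZV η`, `VZ η 1`
  (`vz_mk`: `N.coeff 1 / (1 * 1)`);
* `δ` from `piso_three` applied to `piso_beta` (`a := s`, `b := t`, `sh := h`): `D_δ = N * D`,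
  differential `h ρ = (r h - 3)/2` (`2ρ = r + h`), height `3 * 11 = 33`, `SV δ` (`sv_mk`,
  `(N * D).coeff 0 = 0`);
* `δ'`: the same with `-h` in place of `h` (`2ρ' = r - h`): differential
  `-h ρ' = (-r h - 3)/2`.
`hρ + (-h ρ') + 3 · 1 = 0`: `lat_one` with `P := η`, `B := δ`, `B' := δ'`. `x ≡ y mod 2`; put
`b = y`, `a = (x + 3y)/2`, `Q = a η + b δ` : `ht Q = a² - 3ab + 33b² = (x² + 123y²)/4 = p`,
differential `a + b (r h - 3)/2 = (x + y r h)/2 = c`. `Pted`. `Q = b δ + a η` with `δ` `SV` and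
`η` `ZV`: `zv_comb`, `vz_comb` with the sign `-e`: `3 ∣ a + e` because `2 a = x + 3 y`,
`x ≡ e mod 3`, `2 (a + e) ≡ 3 e ≡ 0`. So `VZ Q (-e)`, and `-e = (-e) (t / t)`. Positivity:
`hb red η = 1`, `hb red δ = 33`, `pos_one`. `c ≠ 0`: `c (x - y r h)/2 = p`. `fin_all` with
`s := t`.
-/

namespace Pool.Agent.MP_2a5e5c_nt

open Polynomial

private theorem IsoA_unit {R k : Type*} [CommRing R] [Field k] {ϖ : R} {red : R →+* k}
    (hS : RedS ϖ red) {u : R} (hu : red u ≠ 0) : IsUnit u := by
  have h0 : u ≠ 0 := by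
    intro h0
    exact hu (by rw [h0, map_zero])
  obtain ⟨n, v, hv, e⟩ := hS.fac u h0
  rcases n with - | n
  · rw [e, pow_zero, one_mul]
    exact hv
  · exfalso
    apply hu
    rw [hS.ker, e, pow_succ', mul_assoc]
    exact dvd_mul_right _ _

/-- the point of height 1 -/
private theorem IsoA_eta {R k K : Type*} [CommRing R] [IsDomain R] [CharZero R] [Field k]
    [Field K] [CharZero K] [Algebra R K] [IsFractionRing R K] {ϖ : R} {red : R →+* k}
    (hS : RedS ϖ red) {q t : R} (h4 : 4 * q = 1) :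
    ∃ P : Pt (algebraMap R K q) (algebraMap R K t) (algebraMap R K t),
      LamK P 1 ∧ ht P = 1 ∧ Pted P ∧ ZV P ∧ VZ P 1 ∧ hb red P = 1 := by
  have h4K : 4 * algebraMap R K q = 1 := by
    have := congrArg (algebraMap R K) h4
    rwa [map_mul, map_ofNat, map_one] at this
  have hp := piso_eta q t
  have hρ : algebraMap R K 1 ≠ 0 := by
    rw [map_one]
    exact one_ne_zero
  obtain ⟨P, hR, hL, hH, hT⟩ := pt_mk h4K hρ (hp.map (algebraMap R K))
  have hN0 : (Polynomial.map (algebraMap R K) X).coeff 0 = 0 := by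
    rw [Polynomial.map_X, Polynomial.coeff_X_zero]
  obtain ⟨hZ, hV⟩ := vz_mk hρ hL hR hN0
  refine ⟨P, ?_, hH, hT, hZ, ?_, ?_⟩
  · rwa [map_one] at hL
  · have h1 : (Polynomial.map (algebraMap R K) X).coeff 1 /
        (algebraMap R K 1 * ((Polynomial.map (algebraMap R K) 1) ^ 2).coeff 0) = 1 := by
      rw [Polynomial.map_X, Polynomial.coeff_X_one, Polynomial.map_one, one_pow,
        Polynomial.coeff_one_zero, map_one, one_mul, div_one]
    rwa [h1] at hV
  · exact hb_piso hS hp (by rwa [Polynomial.map_pow])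

/-- the point of height 33 -/
private theorem IsoA_delta {R k K : Type*} [CommRing R] [IsDomain R] [CharZero R] [Field k]
    [Field K] [CharZero K] [Algebra R K] [IsFractionRing R K] {ϖ : R} {red : R →+* k}
    (hS : RedS ϖ red) {r h q t s i3 rho : R} (hr : r ^ 2 = 41) (hh : h ^ 2 = -3)
    (h4 : 4 * q = 1) (h3 : 3 * i3 = 1) (ht0 : 1728 * t = 32 - 5 * r)
    (hs0 : 1728 * s = 32 + 5 * r) (hρ : 2 * rho = r + h) (hts : 27 * (s + t) = 1)
    (hsu : IsUnit s) :
    ∃ P : Pt (algebraMap R K q) (algebraMap R K t) (algebraMap R K t),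
      LamK P (algebraMap R K (h * rho)) ∧ ht P = 33 ∧ Pted P ∧ SV P ∧ hb red P = 33 := by
  have h4K : 4 * algebraMap R K q = 1 := by
    have := congrArg (algebraMap R K) h4
    rwa [map_mul, map_ofNat, map_one] at this
  have hh0 : h ≠ 0 := by
    rintro rfl
    have h1 : (3 : R) = 0 := by linear_combination hh
    have h2 : (3 : R) ≠ 0 := by exact_mod_cast (by norm_num : (3 : ℕ) ≠ 0)
    exact h2 h1
  have hρ0 : rho ≠ 0 := by
    rintro rfl
    have h1 : (r + h) * (r - h) = 44 := by linear_combination hr - hh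
    rw [← hρ, mul_zero, zero_mul] at h1
    have : (44 : R) ≠ 0 := by exact_mod_cast (by norm_num : (44 : ℕ) ≠ 0)
    exact this h1.symm
  obtain ⟨N, D, hp, hN0, -⟩ := piso_beta h4 h3 hr hh ht0 hs0 hρ
  have hp3 := piso_three h4 h3 hts hh hsu (by norm_num : 0 < 11) hp
  have hρK : algebraMap R K (h * rho) ≠ 0 := by
    intro h0
    exact mul_ne_zero hh0 hρ0 ((IsFractionRing.injective R K) (by rw [h0, map_zero]))
  obtain ⟨P, hR, hL, hH, hT⟩ := pt_mk h4K hρK (hp3.map (algebraMap R K))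
  refine ⟨P, hL, hH, hT, ?_, ?_⟩
  · refine sv_mk hR ?_
    rw [← Polynomial.map_pow, coeff_map, coeff_zero_eq_eval_zero, eval_pow,
      ← coeff_zero_eq_eval_zero, mul_coeff_zero, hN0, zero_mul, zero_pow two_ne_zero, map_zero]
  · exact hb_piso hS hp3 (by rwa [Polynomial.map_pow])

theorem iso_a {R k : Type*} [CommRing R] [IsDomain R] [CharZero R] [Field k]
    {p m : ℕ} [CharP k p] (hp : p.Prime) (h5 : 5 ≤ p) (hm : p = 2 * m + 1) {red : R →+* k}
    (hS : RedS (p : R) red) {r h q t c : R} (hr : r ^ 2 = 41) (hh : h ^ 2 = -3)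
    (h4 : 4 * q = 1) (ht0 : 1728 * t = 32 - 5 * r) {x y : ℤ}
    (hxy : 4 * (p : ℤ) = x ^ 2 + 123 * y ^ 2) (hc : 2 * c = x + y * (r * h))
    (hpc : (p : R) ∣ c) {e : ℤ} (he : e = 1 ∨ e = -1) (hex : (3 : ℤ) ∣ x - e) :
    ∃ N D : R[X], IsogData R p m q t t (((-e : ℤ) : R) * c) N D := by
  -- units
  have h3k : red 3 ≠ 0 := by
    rw [map_ofNat]
    intro h0
    have h1 : ((3 : ℕ) : k) = 0 := by exact_mod_cast h0
    rw [CharP.cast_eq_zero_iff k p] at h1
    have := Nat.le_of_dvd (by norm_num) h1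
    omega
  obtain ⟨i3, h3⟩ : ∃ i3 : R, 3 * i3 = 1 := by
    obtain ⟨u, hu⟩ := (IsoA_unit hS h3k).exists_right_inv
    exact ⟨u, hu⟩
  obtain ⟨s, hs0⟩ : ∃ s : R, 1728 * s = 32 + 5 * r := by
    refine ⟨q ^ 3 * i3 ^ 3 * (32 + 5 * r), ?_⟩
    calc 1728 * (q ^ 3 * i3 ^ 3 * (32 + 5 * r)) =
          (4 * q) ^ 3 * (3 * i3) ^ 3 * (32 + 5 * r) := by ring
      _ = 32 + 5 * r := by
        rw [h4, h3]
        ring
  have h64 : (64 : R) ≠ 0 := by exact_mod_cast (by norm_num : (64 : ℕ) ≠ 0)
  have hts : 27 * (s + t) = 1 := by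
    refine mul_left_cancel₀ h64 ?_
    linear_combination ht0 + hs0
  have hprod : t * (-(1728 ^ 2 * s)) = 1 := by
    linear_combination -(1728 * s) * ht0 - (32 - 5 * r) * hs0 + 25 * hr
  have htu : IsUnit t := IsUnit.of_mul_eq_one _ hprod
  have hsu : IsUnit s := IsUnit.of_mul_eq_one (-(1728 ^ 2 * t)) (by linear_combination hprod)
  have htr : red t ≠ 0 := (htu.map red).ne_zero
  have hsr : red s ≠ 0 := (hsu.map red).ne_zero
  have h27k : (27 : k) ≠ 0 := by
    have h1 : (27 : k) = red 3 ^ 3 := by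
      rw [map_ofNat]
      norm_num
    rw [h1]
    exact pow_ne_zero 3 h3k
  have htsr : 27 * (red s + red t) = 1 := by
    have := congrArg red hts
    rwa [map_mul, map_add, map_ofNat, map_one] at this
  have h27t : 27 * red t ≠ 1 := by
    intro h0
    have h1 : 27 * red s = 0 := by linear_combination htsr - h0
    exact mul_ne_zero h27k hsr h1
  -- the fraction field
  have : CharZero (FractionRing R) :=
    charZero_of_injective_algebraMap (IsFractionRing.injective R (FractionRing R))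
  obtain ⟨ι, hι⟩ : ∃ ι : R →+* FractionRing R, ι = algebraMap R (FractionRing R) := ⟨_, rfl⟩
  have hsK : ι s ≠ 0 := (hsu.map ι).ne_zero
  have htK : ι t ≠ 0 := (htu.map ι).ne_zero
  have h4K : 4 * ι q = 1 := by
    have := congrArg ι h4
    rwa [map_mul, map_ofNat, map_one] at this
  have h27K : 27 * ι t ≠ 1 := by
    intro h0
    have h1 : 27 * (ι s + ι t) = 1 := by
      have := congrArg ι hts
      rwa [map_mul, map_add, map_ofNat, map_one] at this
    have h2 : 27 * ι s = 0 := by linear_combination h1 - h0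
    have h3 : (27 : FractionRing R) ≠ 0 := by exact_mod_cast (by norm_num : (27 : ℕ) ≠ 0)
    exact mul_ne_zero h3 hsK h2
  rw [hι] at hsK htK h4K h27K
  -- the points
  have hρ : 2 * (2 * q * (r + h)) = r + h := by linear_combination (r + h) * h4
  have hρ' : 2 * (2 * q * (r - h)) = r + -h := by linear_combination (r - h) * h4
  obtain ⟨A, lA, hA, pA, zA, vA, bA⟩ := IsoA_eta (K := FractionRing R) (t := t) hS h4
  obtain ⟨B, lB, hB, pB, sB, bB⟩ :=
    IsoA_delta (K := FractionRing R) hS hr hh h4 h3 ht0 hs0 hρ hts hsu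
  obtain ⟨B', lB', hB', -⟩ :=
    IsoA_delta (K := FractionRing R) hS hr (by rw [neg_sq, hh]) h4 h3 ht0 hs0 hρ' hts hsu
  -- the combination
  have hpar : (2 : ℤ) ∣ x + 3 * y := by
    have h1 : (2 : ℤ) ∣ (x + 3 * y) ^ 2 := by
      refine ⟨2 * (p : ℤ) - 57 * y ^ 2 + 3 * x * y, ?_⟩
      linear_combination -hxy
    exact Int.prime_two.dvd_of_dvd_pow h1
  obtain ⟨a, ha⟩ := hpar
  have h3a : (3 : ℤ) ∣ a - -e := by
    obtain ⟨w, hw⟩ := hex
    refine ⟨2 * w + 2 * y - a + e, ?_⟩
    linear_combination 2 * hw - 2 * ha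
  have h3x : ¬ (3 : ℤ) ∣ a := by
    intro h0
    have h1 : (3 : ℤ) ∣ e := by
      have := dvd_sub h3a h0
      have h2 : a - -e - a = e := by ring
      rwa [h2] at this
    rcases he with rfl | rfl <;> norm_num at h1
  have hht : ht (a • A + y • B) = p := by
    have h1 := lat_one h4K htK h27K hA hB hB' lA lB lB' (by
      rw [← map_add, ← map_one (algebraMap R (FractionRing R)),
        ← map_ofNat (algebraMap R (FractionRing R)) 3, ← map_mul, ← map_add,
        ← map_zero (algebraMap R (FractionRing R))]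
      congr 1
      linear_combination h ^ 2 * h4 + hh) a y
    have h2 : (ht (a • A + y • B) : ℤ) = p := by
      rw [h1]
      have h3 : 4 * (a ^ 2 - 3 * a * y + 33 * y ^ 2) = 4 * (p : ℤ) := by
        rw [hxy]
        have hy : x = 2 * a - 3 * y := by linear_combination ha
        rw [hy]
        ring
      exact mul_left_cancel₀ (by norm_num) h3
    exact_mod_cast h2
  have hlam : LamK (a • A + y • B) (algebraMap R (FractionRing R) c) := by
    have h1 := lamK_comb h4K lA lB a y
    have h2 : (a : FractionRing R) * 1 +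
        (y : FractionRing R) * algebraMap R (FractionRing R) (h * (2 * q * (r + h))) =
        algebraMap R (FractionRing R) c := by
      rw [mul_one, ← map_intCast (algebraMap R (FractionRing R)) a,
        ← map_intCast (algebraMap R (FractionRing R)) y, ← map_mul, ← map_add]
      congr 1
      have h3 : (2 : R) ≠ 0 := two_ne_zero
      refine mul_left_cancel₀ h3 ?_
      have hy : (x : R) = 2 * a - 3 * y := by
        have : x = 2 * a - 3 * y := by linear_combination ha
        rw [this]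
        push_cast
        ring
      rw [hc, hy]
      linear_combination (y : R) * h * (r + h) * h4 + (y : R) * hh
    rwa [h2] at h1
  have hc0 : c ≠ 0 := by
    rintro rfl
    have h1 : (4 : R) * p = 0 := by
      have h2 : (4 : R) * p = x ^ 2 + 123 * y ^ 2 := by exact_mod_cast congrArg (Int.cast) hxy
      rw [h2]
      linear_combination (-(x - y * (r * h)) : R) * hc - (3 * (y : R) ^ 2) * hr +
        ((y : R) ^ 2 * r ^ 2) * hh
    have h2 : (p : R) ≠ 0 := Nat.cast_ne_zero.2 hp.ne_zero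
    have h3 : (4 : R) ≠ 0 := by exact_mod_cast (by norm_num : (4 : ℕ) ≠ 0)
    exact mul_ne_zero h3 h2 h1
  have he' : -e = 1 ∨ -e = -1 := by
    rcases he with rfl | rfl
    · exact Or.inr rfl
    · exact Or.inl (by norm_num)
  have hz := zv_comb h4K htK h27K sB zA y a h3x
  have hv := vz_comb h4K htK htK h27K sB zA vA y a (-e) he' h3a
  rw [add_comm] at hz hv
  have hb0 : hb red (a • A + y • B) ≠ 0 := by
    refine pos_one (fun P => hb red P) (hb_zero hS) (hb_par hS h4 htr h27t) bA bB ?_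
    rintro ⟨rfl, -⟩
    exact h3x (dvd_zero 3)
  refine fin_all hp h5 hm hS h4 htr h27t hpc hc0 hht (pted_comb h4K htK h27K pA pB a y) hlam hz
    (e := -e) he' ?_ hb0
  rw [div_self htK]
  exact hv

end Pool.Agent.MP_2a5e5c_nt
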