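import Pool.Agent.Lib.MP_2a5e5c_nt.FinF
import Pool.Agent.Lib.MP_2a5e5c_nt.PtMk
import Pool.Agent.Lib.MP_2a5e5c_nt.LatE
import Pool.Agent.Lib.MP_2a5e5c_nt.BetaId

/-!
# SUN, module IsoB: the isogeny of degree p in the case 4p = 41x² + 3y²

PROOF. `R` with `r² = 41`, `h² = -3`, `K = FractionRing R`. `3` is a unit of `R` (`p ≠ 3`;
`red 3 ≠ 0` as `k` has characteristic `p`, and elements with nonzero reduction are units: `fac`,
`ker`), `i₃` its inverse. `t + s = 64/1728 = 1/27`, `t s = (1024 - 1025)/1728²`, so `t, s` are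
units, and `27 t ≠ 1`, `27 s ≠ 1` (`1 - 27 t = 27 s`), also after `red` and in `K`.
Points of `Pt q t s` over `K` (`pt_mk` for the images in `K`, `PIso.map`):
* `φ` from `piso_three` applied to `piso_eta q t` (`a := t`, `b := s`, `sh := h`):
  `D = X * 1`, differential `h * 1`, height 3, `SV` (`sv_mk`: `D.coeff 0 = 0`);
* `β` from `piso_beta` (`ρ = (r + h)/2`), height 11, `N(0) = 0`, `t N₁ = -ρ s D(0)²`, so by
  `vz_mk` `ZV β` and `VZ β (-s/t)`;
* `β'` from `piso_beta` with `-h` (`ρ' = (r - h)/2`), only its height and differential are used.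
`h - ρ + ρ' = 0`: `lat_three`. Put `b = x`, `a = (y - x)/2` (`x ≡ y mod 2` from
`4p = 41x² + 3y²`), `Q = a φ + b β`: `ht Q = 3a² + 3ab + 11b² = (41x² + 3y²)/4 = p`,
differential `a h + x ρ = (x r + y h)/2 = c` (`lamK_comb`; `2 c = x r + y h`, `2 ≠ 0`),
`Pted Q` (`pted_comb`), `ZV Q` (`zv_comb`, `3 ∤ x`: `3 ∣ x - e`), `VZ Q (e (-s/t))`
(`vz_comb`), which is `(-e) s/t`. `hb red φ = 3`, `hb red β = 11` (`hb_piso`), so `hb red Q ≠ 0`
(`pos_three` with `hb_zero`, `hb_par`; `(a, b) ≠ 0` because `p ≠ 0`). `c ≠ 0`: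
`c (x r - y h)/2 = p`. `fin_all` with the sign `-e`.
-/

namespace Pool.Agent.MP_2a5e5c_nt

open Polynomial

private theorem IsoB_unit {R k : Type*} [CommRing R] [Field k] {ϖ : R} {red : R →+* k}
    (hS : RedS ϖ red) {u : R} (hu : red u ≠ 0) : IsUnit u := by
  have h0 : u ≠ 0 := by
    intro h0
    exact hu (by rw [h0, map_zero])
  obtain ⟨n, v, hv, e⟩ := hS.fac u h0
  rcases n with - | n
  · rw [e, pow_zero, one_mul]
    exact hv
  · exfalso
    apply hu
    rw [hS.ker, e, pow_succ', mul_assoc]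
    exact dvd_mul_right _ _

/-- the point of height 3 -/
private theorem IsoB_phi {R k K : Type*} [CommRing R] [IsDomain R] [CharZero R] [Field k]
    [Field K] [CharZero K] [Algebra R K] [IsFractionRing R K] {ϖ : R} {red : R →+* k}
    (hS : RedS ϖ red) {h q t s i3 : R} (hh : h ^ 2 = -3) (h4 : 4 * q = 1) (h3 : 3 * i3 = 1)
    (hts : 27 * (t + s) = 1) (htu : IsUnit t) :
    ∃ P : Pt (algebraMap R K q) (algebraMap R K t) (algebraMap R K s),
      LamK P (algebraMap R K h) ∧ ht P = 3 ∧ Pted P ∧ SV P ∧ hb red P = 3 := by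
  have h4K : 4 * algebraMap R K q = 1 := by
    have := congrArg (algebraMap R K) h4
    rwa [map_mul, map_ofNat, map_one] at this
  have hh0 : h ≠ 0 := by
    rintro rfl
    have h1 : (3 : R) = 0 := by linear_combination hh
    have h2 : (3 : R) ≠ 0 := by exact_mod_cast (by norm_num : (3 : ℕ) ≠ 0)
    exact h2 h1
  have hp := piso_three h4 h3 hts hh htu one_pos (piso_eta q t)
  have hρ : algebraMap R K (h * 1) ≠ 0 := by
    rw [mul_one]
    intro h0
    exact hh0 ((IsFractionRing.injective R K) (by rw [h0, map_zero]))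
  obtain ⟨P, hR, hL, hH, hT⟩ := pt_mk h4K hρ (hp.map (algebraMap R K))
  refine ⟨P, ?_, hH, hT, ?_, ?_⟩
  · rwa [mul_one] at hL
  · refine sv_mk hR ?_
    rw [mul_one, Polynomial.map_X, Polynomial.coeff_X_pow, if_neg (by norm_num)]
  · exact hb_piso hS hp (by rwa [Polynomial.map_pow])

/-- the point of height 11 -/
private theorem IsoB_beta {R k K : Type*} [CommRing R] [IsDomain R] [CharZero R] [Field k]
    [Field K] [CharZero K] [Algebra R K] [IsFractionRing R K] {ϖ : R} {red : R →+* k}
    (hS : RedS ϖ red) {r h q t s i3 rho : R} (hr : r ^ 2 = 41) (hh : h ^ 2 = -3)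
    (h4 : 4 * q = 1) (h3 : 3 * i3 = 1) (ht0 : 1728 * t = 32 - 5 * r)
    (hs0 : 1728 * s = 32 + 5 * r) (hρ : 2 * rho = r + h) (htn : t ≠ 0) :
    ∃ P : Pt (algebraMap R K q) (algebraMap R K t) (algebraMap R K s),
      LamK P (algebraMap R K rho) ∧ ht P = 11 ∧ Pted P ∧ ZV P ∧
      VZ P (-(algebraMap R K s / algebraMap R K t)) ∧ hb red P = 11 := by
  have h4K : 4 * algebraMap R K q = 1 := by
    have := congrArg (algebraMap R K) h4
    rwa [map_mul, map_ofNat, map_one] at this
  have hρ0 : rho ≠ 0 := by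
    rintro rfl
    have h1 : (r + h) * (r - h) = 44 := by linear_combination hr - hh
    rw [← hρ, mul_zero, zero_mul] at h1
    have : (44 : R) ≠ 0 := by exact_mod_cast (by norm_num : (44 : ℕ) ≠ 0)
    exact this h1.symm
  obtain ⟨N, D, hp, hN0, hv⟩ := piso_beta h4 h3 hr hh ht0 hs0 hρ
  have hρK : algebraMap R K rho ≠ 0 := by
    intro h0
    exact hρ0 ((IsFractionRing.injective R K) (by rw [h0, map_zero]))
  have htK : algebraMap R K t ≠ 0 := by
    intro h0
    exact htn ((IsFractionRing.injective R K) (by rw [h0, map_zero]))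
  have hD0 : D.coeff 0 ≠ 0 := by
    intro h0
    obtain ⟨a, b, hab⟩ := hp.cop
    have h1 := congrArg (fun f : R[X] => f.coeff 0) hab
    simp only [coeff_add, mul_coeff_zero, hN0, h0, mul_zero, add_zero, coeff_one_zero] at h1
    exact zero_ne_one h1
  have hDK : algebraMap R K (D.coeff 0) ≠ 0 := by
    intro h0
    exact hD0 ((IsFractionRing.injective R K) (by rw [h0, map_zero]))
  obtain ⟨P, hR, hL, hH, hT⟩ := pt_mk h4K hρK (hp.map (algebraMap R K))
  obtain ⟨hZ, hV⟩ := vz_mk hρK hL hR (by rw [coeff_map, hN0, map_zero])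
  refine ⟨P, hL, hH, hT, hZ, ?_, ?_⟩
  · have h1 : (N.map (algebraMap R K)).coeff 1 /
        (algebraMap R K rho * ((D.map (algebraMap R K)) ^ 2).coeff 0) =
        -(algebraMap R K s / algebraMap R K t) := by
      have h2 := congrArg (algebraMap R K) hv
      simp only [map_mul, map_neg, map_pow] at h2
      rw [coeff_map, ← Polynomial.map_pow, coeff_map, coeff_zero_eq_eval_zero (D ^ 2),
        eval_pow, ← coeff_zero_eq_eval_zero, map_pow]
      rw [div_eq_iff (mul_ne_zero hρK (pow_ne_zero 2 hDK))]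
      field_simp
      linear_combination h2
    rwa [h1] at hV
  · exact hb_piso hS hp (by rwa [Polynomial.map_pow])

theorem iso_b {R k : Type*} [CommRing R] [IsDomain R] [CharZero R] [Field k]
    {p m : ℕ} [CharP k p] (hp : p.Prime) (h5 : 5 ≤ p) (hm : p = 2 * m + 1) {red : R →+* k}
    (hS : RedS (p : R) red) {r h q t s c : R} (hr : r ^ 2 = 41) (hh : h ^ 2 = -3)
    (h4 : 4 * q = 1) (ht0 : 1728 * t = 32 - 5 * r) (hs0 : 1728 * s = 32 + 5 * r) {x y : ℤ}
    (hxy : 4 * (p : ℤ) = 41 * x ^ 2 + 3 * y ^ 2) (hc : 2 * c = x * r + y * h)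
    (hpc : (p : R) ∣ c) {e : ℤ} (he : e = 1 ∨ e = -1) (hex : (3 : ℤ) ∣ x - e) :
    ∃ N D : R[X], IsogData R p m q t s (((-e : ℤ) : R) * c) N D := by
  -- units
  have h3k : red 3 ≠ 0 := by
    rw [map_ofNat]
    intro h0
    have h1 : ((3 : ℕ) : k) = 0 := by exact_mod_cast h0
    rw [CharP.cast_eq_zero_iff k p] at h1
    have := Nat.le_of_dvd (by norm_num) h1
    omega
  obtain ⟨i3, h3⟩ : ∃ i3 : R, 3 * i3 = 1 := by
    obtain ⟨u, hu⟩ := (IsoB_unit hS h3k).exists_right_inv
    exact ⟨u, hu⟩
  have h64 : (64 : R) ≠ 0 := by exact_mod_cast (by norm_num : (64 : ℕ) ≠ 0)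
  have hts : 27 * (t + s) = 1 := by
    refine mul_left_cancel₀ h64 ?_
    linear_combination ht0 + hs0
  have hprod : t * (-(1728 ^ 2 * s)) = 1 := by
    linear_combination -(1728 * s) * ht0 - (32 - 5 * r) * hs0 + 25 * hr
  have htu : IsUnit t := IsUnit.of_mul_eq_one _ hprod
  have hsu : IsUnit s := IsUnit.of_mul_eq_one (-(1728 ^ 2 * t)) (by linear_combination hprod)
  have htr : red t ≠ 0 := (htu.map red).ne_zero
  have hsr : red s ≠ 0 := (hsu.map red).ne_zero
  have h27k : (27 : k) ≠ 0 := by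
    have h1 : (27 : k) = red 3 ^ 3 := by
      rw [map_ofNat]
      norm_num
    rw [h1]
    exact pow_ne_zero 3 h3k
  have htsr : 27 * (red t + red s) = 1 := by
    have := congrArg red hts
    rwa [map_mul, map_add, map_ofNat, map_one] at this
  have h27t : 27 * red t ≠ 1 := by
    intro h0
    have h1 : 27 * red s = 0 := by linear_combination htsr - h0
    exact mul_ne_zero h27k hsr h1
  have h27s : 27 * red s ≠ 1 := by
    intro h0
    have h1 : 27 * red t = 0 := by linear_combination htsr - h0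
    exact mul_ne_zero h27k htr h1
  -- the fraction field
  have : CharZero (FractionRing R) :=
    charZero_of_injective_algebraMap (IsFractionRing.injective R (FractionRing R))
  obtain ⟨ι, hι⟩ : ∃ ι : R →+* FractionRing R, ι = algebraMap R (FractionRing R) := ⟨_, rfl⟩
  have hιinj : Function.Injective ι := by
    rw [hι]
    exact IsFractionRing.injective R (FractionRing R)
  have hsK : ι s ≠ 0 := (hsu.map ι).ne_zero
  have htK : ι t ≠ 0 := (htu.map ι).ne_zero
  have h4K : 4 * ι q = 1 := by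
    have := congrArg ι h4
    rwa [map_mul, map_ofNat, map_one] at this
  have h27K : 27 * ι s ≠ 1 := by
    intro h0
    have h1 : 27 * (ι t + ι s) = 1 := by
      have := congrArg ι hts
      rwa [map_mul, map_add, map_ofNat, map_one] at this
    have h2 : 27 * ι t = 0 := by linear_combination h1 - h0
    have h3 : (27 : FractionRing R) ≠ 0 := by exact_mod_cast (by norm_num : (27 : ℕ) ≠ 0)
    exact mul_ne_zero h3 htK h2
  rw [hι] at hsK htK h4K h27K hιinj
  -- the points
  have hρ : 2 * (2 * q * (r + h)) = r + h := by linear_combination (r + h) * h4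
  have hρ' : 2 * (2 * q * (r - h)) = r + -h := by linear_combination (r - h) * h4
  obtain ⟨A, lA, hA, pA, sA, bA⟩ := IsoB_phi (K := FractionRing R) hS hh h4 h3 hts htu
  obtain ⟨B, lB, hB, pB, zB, vB, bB⟩ :=
    IsoB_beta (K := FractionRing R) hS hr hh h4 h3 ht0 hs0 hρ htu.ne_zero
  obtain ⟨B', lB', hB', -⟩ :=
    IsoB_beta (K := FractionRing R) hS hr (by rw [neg_sq, hh]) h4 h3 ht0 hs0 hρ' htu.ne_zero
  -- the combination
  have hpar : (2 : ℤ) ∣ y - x := by
    have h1 : (2 : ℤ) ∣ (y - x) ^ 2 := by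
      refine ⟨2 * (p : ℤ) - 20 * x ^ 2 - y ^ 2 - x * y, ?_⟩
      linear_combination -hxy
    exact Int.prime_two.dvd_of_dvd_pow h1
  obtain ⟨a, ha⟩ := hpar
  have h3x : ¬ (3 : ℤ) ∣ x := by
    intro h0
    have h1 : (3 : ℤ) ∣ e := by
      have := dvd_sub h0 hex
      rwa [sub_sub_cancel] at this
    rcases he with rfl | rfl <;> norm_num at h1
  have hht : ht (a • A + x • B) = p := by
    have h1 := lat_three h4K hsK h27K hA hB hB' lA lB lB' (by
      rw [← map_sub, ← map_add, ← map_zero (algebraMap R (FractionRing R))]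
      congr 1
      linear_combination -h * h4) a x
    have h2 : (ht (a • A + x • B) : ℤ) = p := by
      rw [h1]
      have h3 : 4 * (3 * a ^ 2 + 3 * a * x + 11 * x ^ 2) = 4 * (p : ℤ) := by
        rw [hxy]
        have hy : y = x + 2 * a := by linear_combination ha
        rw [hy]
        ring
      exact mul_left_cancel₀ (by norm_num) h3
    exact_mod_cast h2
  have hlam : LamK (a • A + x • B) (algebraMap R (FractionRing R) c) := by
    have h1 := lamK_comb h4K lA lB a x
    have h2 : (a : FractionRing R) * algebraMap R (FractionRing R) h +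
        (x : FractionRing R) * algebraMap R (FractionRing R) (2 * q * (r + h)) =
        algebraMap R (FractionRing R) c := by
      rw [← map_intCast (algebraMap R (FractionRing R)) a,
        ← map_intCast (algebraMap R (FractionRing R)) x, ← map_mul, ← map_mul, ← map_add]
      congr 1
      have h3 : (2 : R) ≠ 0 := two_ne_zero
      refine mul_left_cancel₀ h3 ?_
      have hy : (y : R) = x + 2 * a := by
        have : y = x + 2 * a := by linear_combination ha
        rw [this]
        push_cast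
        ring
      rw [hc, hy]
      linear_combination (x : R) * (r + h) * h4
    rwa [h2] at h1
  have hc0 : c ≠ 0 := by
    rintro rfl
    have h1 : (4 : R) * p = 0 := by
      have h2 : (4 : R) * p = 41 * x ^ 2 + 3 * y ^ 2 := by exact_mod_cast congrArg (Int.cast) hxy
      rw [h2]
      linear_combination (-(x * r - y * h) : R) * hc - (x : R) ^ 2 * hr + (y : R) ^ 2 * hh
    have h2 : (p : R) ≠ 0 := Nat.cast_ne_zero.2 hp.ne_zero
    have h3 : (4 : R) ≠ 0 := by exact_mod_cast (by norm_num : (4 : ℕ) ≠ 0)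
    exact mul_ne_zero h3 h2 h1
  have hz := zv_comb h4K hsK h27K sA zB a x h3x
  have hv := vz_comb h4K htK hsK h27K sA zB vB a x e he hex
  have hb0 : hb red (a • A + x • B) ≠ 0 := by
    refine pos_three (fun P => hb red P) (hb_zero hS) (hb_par hS h4 hsr h27s) bA bB ?_
    rintro ⟨-, rfl⟩
    exact h3x (dvd_zero 3)
  refine fin_all hp h5 hm hS h4 htr h27t hpc hc0 hht (pted_comb h4K hsK h27K pA pB a x) hlam hz
    (e := -e) ?_ ?_ hb0
  · rcases he with rfl | rfl
    · exact Or.inr rfl
    · exact Or.inl (by norm_num)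
  · have h1 : ((-e : ℤ) : FractionRing R) *
        (algebraMap R (FractionRing R) s / algebraMap R (FractionRing R) t) =
        (e : FractionRing R) *
          (-(algebraMap R (FractionRing R) s / algebraMap R (FractionRing R) t)) := by
      push_cast
      ring
    rw [h1]
    exact hv

end Pool.Agent.MP_2a5e5c_nt
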