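import Pool.Agent.Lib.MP_2a5e5c_nt.Defs

/-!
# SUN, module LamA: the invariant differential is additive

`F` a field with a derivation `D`, `q, s` constants (`D q = D s = 0`), `f ∈ F` nonzero.
`Lam P c` for `P = (x, y)` on `y² = G(x) := x³ + q f x² + 2 q s f² x + q s² f³` says
`f D(x) - D(f) x = c y` and `2 f D(y) - 3 D(f) y = c (3x² + 2 q f x + 2 q s f²)`; with
`U = x/f`, `V = y/f²` this is `D(U) = c V` and the equation obtained by differentiating
`f V² = g(U)`.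

PROOF. `P = 0` or `Q = 0`: clear. Generic case `x₁ ≠ x₂`: `l = (y₁ - y₂)/(x₁ - x₂)`,
`x₃ = l² - q f - x₁ - x₂`, `y₃ = -(y₁ + l (x₃ - x₁))`. From the hypotheses
`D(xᵢ) = (cᵢ yᵢ + f' xᵢ)/f`, `D(yᵢ) = (cᵢ G'(xᵢ) + 3 f' yᵢ)/(2f)` (`G' = ∂G/∂x`), compute `D(x₃)`,
`D(y₃)` by the Leibniz rule (`D(q f) = q f'`) and check
`f D(x₃) - f' x₃ = (c₁ + c₂) y₃`, `2 f D(y₃) - 3 f' y₃ = (c₁ + c₂) G'(x₃)`. These are
identities modulo `yᵢ² = G(xᵢ)` (after `field_simp`; the coefficients of `c₁`, `c₂`, `f'` can be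
checked separately; e.g. the coefficient of `c₁` in the first one is, multiplied by
`(x₁ - x₂)²`, `G'(x₁)(x₁ - x₂) - G(x₁) + G(x₂) = (q f + 2x₁ + x₂)(x₁ - x₂)²`, Taylor). To get the
second equation from the first one can also differentiate `y₃² = G(x₃)` when `y₃ ≠ 0`.
Case `P = Q`, `y₁ ≠ 0`: then `c₁ = c₂` (first equation), `l = G'(x₁)/(2 y₁)`, same computation.
Case `Q = -P` (so the sum is `0`): `f D(x₁) - f' x₁ = c₁ y₁ = -c₂ y₁` and
`c₁ G'(x₁) = -c₂ G'(x₁)` (second equation for `y₂ = -y₁`), and `(y₁, G'(x₁)) ≠ 0`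
(nonsingular), so `c₁ + c₂ = 0`. `2 ≠ 0` since `4 q = 1`. `lam_neg`: clear.
`lam_smul`: induction from the other two (`lam_unique_zero`: for `P = 0` only `c = 0`).
-/

namespace Pool.Agent.MP_2a5e5c_nt

/-- `P` has invariant differential `c`. -/
def Lam {F : Type*} [Field F] (D : F → F) {q s f : F} (P : (TC q s f).toAffine.Point)
    (c : F) : Prop :=
  (P = 0 ∧ c = 0) ∨
    ∃ x y, ∃ h : (TC q s f).toAffine.Nonsingular x y, P = .some x y h ∧
      f * D x - D f * x = c * y ∧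
      2 * f * D y - 3 * D f * y = c * (3 * x ^ 2 + 2 * q * f * x + 2 * q * s * f ^ 2)

private theorem LamA_core {F : Type*} [Field F] (D : Derivation ℤ F F) {q s f : F}
    (hq : D q = 0) {x₁ y₁ x₂ y₂ x₃ l c d : F}
    (hx3 : x₃ = l ^ 2 - q * f - x₁ - x₂)
    (hN : y₁ - y₂ = l * (x₁ - x₂))
    (hK : 2 * q * s * f ^ 2 = 2 * l * (y₁ - l * x₁) + x₁ * x₂ + (x₁ + x₂) * x₃)
    (hL : 2 * f * D l = D f * l + c * (x₁ - x₃) + d * (x₂ - x₃))
    (h1 : f * D x₁ - D f * x₁ = c * y₁)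
    (h1' : 2 * f * D y₁ - 3 * D f * y₁ = c * (3 * x₁ ^ 2 + 2 * q * f * x₁ + 2 * q * s * f ^ 2))
    (h2 : f * D x₂ - D f * x₂ = d * y₂) :
    f * D x₃ - D f * x₃ = (c + d) * (-(l * (x₃ - x₁) + y₁)) ∧
    2 * f * D (-(l * (x₃ - x₁) + y₁)) - 3 * D f * (-(l * (x₃ - x₁) + y₁)) =
      (c + d) * (3 * x₃ ^ 2 + 2 * q * f * x₃ + 2 * q * s * f ^ 2) := by
  have hx : D x₃ = 2 * l * D l - q * D f - D x₁ - D x₂ := by
    rw [hx3, map_sub, map_sub, map_sub, pow_two, D.leibniz, D.leibniz, hq]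
    simp only [smul_eq_mul]
    ring
  have e1 : f * D x₃ - D f * x₃ = (c + d) * (-(l * (x₃ - x₁) + y₁)) := by
    rw [hx]
    linear_combination l * hL - h1 - h2 + d * hN - D f * hx3
  refine ⟨e1, ?_⟩
  have hy : D (-(l * (x₃ - x₁) + y₁)) = -(l * (D x₃ - D x₁) + (x₃ - x₁) * D l + D y₁) := by
    rw [map_neg, map_add, D.leibniz, map_sub]
    simp only [smul_eq_mul]
  rw [hy]
  linear_combination (-h1' - (x₃ - x₁) * hL - 2 * l * e1 + 2 * l * h1 + (-2 * c - d) * hK +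
    (-2 * c * (x₁ + x₃) - 2 * d * x₃) * hx3)

private theorem LamA_gen {F : Type*} [Field F] (D : Derivation ℤ F F) {q s f : F}
    {x₁ y₁ x₂ y₂ x₃ l c d : F}
    (hne : x₁ - x₂ ≠ 0) (hl : l = (y₁ - y₂) / (x₁ - x₂))
    (hx3 : x₃ = l ^ 2 - q * f - x₁ - x₂)
    (E1 : y₁ ^ 2 = x₁ ^ 3 + q * f * x₁ ^ 2 + 2 * q * s * f ^ 2 * x₁ + q * s ^ 2 * f ^ 3)
    (E2 : y₂ ^ 2 = x₂ ^ 3 + q * f * x₂ ^ 2 + 2 * q * s * f ^ 2 * x₂ + q * s ^ 2 * f ^ 3)
    (h1 : f * D x₁ - D f * x₁ = c * y₁)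
    (h1' : 2 * f * D y₁ - 3 * D f * y₁ = c * (3 * x₁ ^ 2 + 2 * q * f * x₁ + 2 * q * s * f ^ 2))
    (h2 : f * D x₂ - D f * x₂ = d * y₂)
    (h2' : 2 * f * D y₂ - 3 * D f * y₂ = d * (3 * x₂ ^ 2 + 2 * q * f * x₂ + 2 * q * s * f ^ 2)) :
    y₁ - y₂ = l * (x₁ - x₂) ∧
    2 * q * s * f ^ 2 = 2 * l * (y₁ - l * x₁) + x₁ * x₂ + (x₁ + x₂) * x₃ ∧
    2 * f * D l = D f * l + c * (x₁ - x₃) + d * (x₂ - x₃) := by
  have hN : y₁ - y₂ = l * (x₁ - x₂) := by
    rw [hl, div_mul_cancel₀ _ hne]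
  have hK0 : l * (y₁ + y₂) = x₁ ^ 2 + x₁ * x₂ + x₂ ^ 2 + q * f * (x₁ + x₂) +
      2 * q * s * f ^ 2 := by
    apply mul_left_cancel₀ hne
    linear_combination E1 - E2 - (y₁ + y₂) * hN
  have hK : 2 * q * s * f ^ 2 = 2 * l * (y₁ - l * x₁) + x₁ * x₂ + (x₁ + x₂) * x₃ := by
    linear_combination -hK0 - l * hN - (x₁ + x₂) * hx3
  have k1 : 3 * x₁ ^ 2 + 2 * q * f * x₁ + 2 * q * s * f ^ 2 - 2 * l * y₁ =
      (x₁ - x₂) * (x₁ - x₃) := by
    linear_combination hK + 2 * x₁ * hx3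
  have k2 : 3 * x₂ ^ 2 + 2 * q * f * x₂ + 2 * q * s * f ^ 2 - 2 * l * y₂ =
      (x₂ - x₁) * (x₂ - x₃) := by
    linear_combination hK + 2 * x₂ * hx3 + 2 * l * hN
  refine ⟨hN, hK, ?_⟩
  have hD : D y₁ - D y₂ = l * (D x₁ - D x₂) + (x₁ - x₂) * D l := by
    rw [← map_sub, hN, D.leibniz, map_sub]
    simp only [smul_eq_mul]
  apply mul_left_cancel₀ hne
  linear_combination (-2 * f * hD + h1' - h2' - 2 * l * h1 + 2 * l * h2 + c * k1 - d * k2 +
    3 * D f * hN)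

private theorem LamA_dbl {F : Type*} [Field F] (D : Derivation ℤ F F) {q s f : F}
    (hq : D q = 0) (hs : D s = 0) {x y x₃ l c : F} (hy : 2 * y ≠ 0)
    (hl : l = (3 * x ^ 2 + 2 * (q * f) * x + 2 * q * s * f ^ 2) / (2 * y))
    (hx3 : x₃ = l ^ 2 - q * f - x - x)
    (h1 : f * D x - D f * x = c * y)
    (h1' : 2 * f * D y - 3 * D f * y = c * (3 * x ^ 2 + 2 * q * f * x + 2 * q * s * f ^ 2)) :
    2 * q * s * f ^ 2 = 2 * l * (y - l * x) + x * x + (x + x) * x₃ ∧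
    2 * f * D l = D f * l + c * (x - x₃) + c * (x - x₃) := by
  have hM : 2 * y * l = 3 * x ^ 2 + 2 * (q * f) * x + 2 * q * s * f ^ 2 := by
    rw [hl, mul_div_cancel₀ _ hy]
  have hK : 2 * q * s * f ^ 2 = 2 * l * (y - l * x) + x * x + (x + x) * x₃ := by
    linear_combination -hM - 2 * x * hx3
  refine ⟨hK, ?_⟩
  have hD := congrArg D hM
  have hc : ∀ (n : ℕ) (z : F), D ((n : F) * z) = n * D z := fun n z => by
    rw [← nsmul_eq_mul, ← nsmul_eq_mul, map_nsmul]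
  have hc2 : ∀ z : F, D (2 * z) = 2 * D z := fun z => by
    have := hc 2 z
    rwa [Nat.cast_ofNat] at this
  have hc3 : ∀ z : F, D (3 * z) = 3 * D z := fun z => by
    have := hc 3 z
    rwa [Nat.cast_ofNat] at this
  have lz : ∀ a b : F, D (a * b) = a * D b + b * D a := fun a b => D.leibniz a b
  have hD2 : 2 * (y * D l + l * D y) = 3 * (x * D x + x * D x) + 2 * (q * (f * D x + x * D f)) +
      2 * (q * (s * (f * D f + f * D f))) := by
    have e1 : D (2 * y * l) = 2 * (y * D l + l * D y) := by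
      rw [mul_assoc, hc2, lz]
    have e2 : D (3 * x ^ 2) = 3 * (x * D x + x * D x) := by
      rw [hc3, pow_two, lz]
    have e3 : D (2 * (q * f) * x) = 2 * (q * (f * D x + x * D f)) := by
      rw [mul_assoc, mul_assoc, hc2, lz, lz, hq, mul_zero, add_zero]
    have e4 : D (2 * q * s * f ^ 2) = 2 * (q * (s * (f * D f + f * D f))) := by
      rw [mul_assoc, mul_assoc, pow_two, hc2, lz, lz, lz, hq, hs, mul_zero, mul_zero, add_zero,
        add_zero]
    rw [map_add, map_add, e1, e2, e3, e4] at hD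
    exact hD
  apply mul_left_cancel₀ hy
  linear_combination (2 * f * hD2 - 2 * l * h1' + (12 * x + 4 * q * f) * h1 +
    (2 * l * c - 4 * D f) * hM + 4 * y * c * hx3)

theorem lam_add {F : Type*} [Field F] [DecidableEq F] (D : Derivation ℤ F F) {q s f : F}
    (h4 : 4 * q = 1) (hf : f ≠ 0) (hq : D q = 0) (hs : D s = 0)
    {P Q : (TC q s f).toAffine.Point} {c d : F} (hP : Lam D P c) (hQ : Lam D Q d) :
    Lam D (P + Q) (c + d) := by
  rcases hP with ⟨rfl, rfl⟩ | ⟨x₁, y₁, n1, rfl, h1, h1'⟩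
  · rwa [zero_add, zero_add]
  rcases hQ with ⟨rfl, rfl⟩ | ⟨x₂, y₂, n2, rfl, h2, h2'⟩
  · rw [add_zero, add_zero]
    exact Or.inr ⟨x₁, y₁, n1, rfl, h1, h1'⟩
  have two : (2 : F) ≠ 0 := by
    intro h
    have : (4 : F) * q = (2 : F) * 2 * q := by ring
    rw [h4, h, zero_mul, zero_mul] at this
    exact one_ne_zero this
  have hneg : ∀ x y : F, (TC q s f).toAffine.negY x y = -y := fun x y => by
    simp [WeierstrassCurve.Affine.negY, TC]
  obtain ⟨E1, N1⟩ := (WeierstrassCurve.Affine.nonsingular_iff' x₁ y₁).1 n1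
  obtain ⟨E2, -⟩ := (WeierstrassCurve.Affine.nonsingular_iff' x₂ y₂).1 n2
  have E1' := (WeierstrassCurve.Affine.equation_iff x₁ y₁).1 E1
  have E2' := (WeierstrassCurve.Affine.equation_iff x₂ y₂).1 E2
  simp only [TC, zero_mul, add_zero, zero_sub] at E1' E2' N1
  by_cases hxy : x₁ = x₂ ∧ y₁ = (TC q s f).toAffine.negY x₂ y₂
  · obtain ⟨rfl, hy⟩ := hxy
    left
    refine ⟨WeierstrassCurve.Affine.Point.add_of_Y_eq rfl hy, ?_⟩
    rw [hneg] at hy
    have hy2 : y₂ = -y₁ := by rw [hy, neg_neg]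
    subst hy2
    have g1 : (c + d) * y₁ = 0 := by linear_combination h2 - h1
    rw [map_neg] at h2'
    have g2 : (c + d) * (3 * x₁ ^ 2 + 2 * q * f * x₁ + 2 * q * s * f ^ 2) = 0 := by
      linear_combination -h2' - h1'
    rcases N1 with N1 | N1
    · rcases mul_eq_zero.1 g2 with h | h
      · exact h
      · exact absurd (by linear_combination -h) N1
    · rcases mul_eq_zero.1 g1 with h | h
      · exact h
      · exact absurd (by rw [h, mul_zero]) N1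
  · right
    have hadd := WeierstrassCurve.Affine.Point.add_some hxy (h₁ := n1) (h₂ := n2)
    have n3 := WeierstrassCurve.Affine.nonsingular_add n1 n2 hxy
    have key : ∀ l x₃ : F, l = (TC q s f).toAffine.slope x₁ x₂ y₁ y₂ →
        x₃ = l ^ 2 - q * f - x₁ - x₂ →
        (f * D x₃ - D f * x₃ = (c + d) * (-(l * (x₃ - x₁) + y₁)) ∧
        2 * f * D (-(l * (x₃ - x₁) + y₁)) - 3 * D f * (-(l * (x₃ - x₁) + y₁)) =
          (c + d) * (3 * x₃ ^ 2 + 2 * q * f * x₃ + 2 * q * s * f ^ 2)) := by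
      intro l x₃ hl hx3
      by_cases hx : x₁ = x₂
      · have hyne : y₁ ≠ (TC q s f).toAffine.negY x₂ y₂ := fun h => hxy ⟨hx, h⟩
        have hyy : y₁ = y₂ := WeierstrassCurve.Affine.Y_eq_of_Y_ne E1 E2 hx hyne
        subst hx
        subst hyy
        rw [WeierstrassCurve.Affine.slope_of_Y_ne rfl hyne, hneg] at hl
        rw [hneg] at hyne
        have hy0 : 2 * y₁ ≠ 0 := fun h => hyne (by linear_combination h)
        have hcd : c = d := by
          have : y₁ ≠ 0 := fun h => hy0 (by rw [h, mul_zero])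
          apply mul_right_cancel₀ this
          rw [← h1, ← h2]
        subst hcd
        have hl' : l = (3 * x₁ ^ 2 + 2 * (q * f) * x₁ + 2 * q * s * f ^ 2) / (2 * y₁) := by
          rw [hl]
          simp only [TC, zero_mul, sub_zero]
          congr 1
          ring
        obtain ⟨hK, hL⟩ := LamA_dbl D hq hs hy0 hl' hx3 h1 h1'
        exact LamA_core D hq hx3 (by ring) hK hL h1 h1' h2
      · rw [WeierstrassCurve.Affine.slope_of_X_ne hx] at hl
        obtain ⟨hN, hK, hL⟩ := LamA_gen D (sub_ne_zero.2 hx) hl hx3 E1' E2' h1 h1' h2 h2'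
        exact LamA_core D hq hx3 hN hK hL h1 h1' h2
    obtain ⟨k1, k2⟩ := key _ _ rfl rfl
    have hX : (TC q s f).toAffine.addX x₁ x₂ ((TC q s f).toAffine.slope x₁ x₂ y₁ y₂) =
        ((TC q s f).toAffine.slope x₁ x₂ y₁ y₂) ^ 2 - q * f - x₁ - x₂ := by
      simp only [WeierstrassCurve.Affine.addX]
      have a1 : (TC q s f).toAffine.a₁ = 0 := rfl
      have a2 : (TC q s f).toAffine.a₂ = q * f := rfl
      rw [a1, a2]
      ring
    have hY : (TC q s f).toAffine.addY x₁ x₂ y₁ ((TC q s f).toAffine.slope x₁ x₂ y₁ y₂) =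
        -((TC q s f).toAffine.slope x₁ x₂ y₁ y₂ *
          (((TC q s f).toAffine.slope x₁ x₂ y₁ y₂) ^ 2 - q * f - x₁ - x₂ - x₁) + y₁) := by
      rw [WeierstrassCurve.Affine.addY, hneg, WeierstrassCurve.Affine.negAddY, hX]
    refine ⟨_, _, n3, hadd, ?_, ?_⟩
    · rw [hX, hY]
      exact k1
    · rw [hX, hY]
      exact k2

theorem lam_neg {F : Type*} [Field F] [DecidableEq F] (D : Derivation ℤ F F) {q s f : F}
    {P : (TC q s f).toAffine.Point} {c : F} (hP : Lam D P c) : Lam D (-P) (-c) := by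
  rcases hP with ⟨rfl, rfl⟩ | ⟨x, y, n1, rfl, h1, h1'⟩
  · exact Or.inl ⟨neg_zero, neg_zero⟩
  right
  have hneg : (TC q s f).toAffine.negY x y = -y := by
    simp [WeierstrassCurve.Affine.negY, TC]
  refine ⟨x, _, (WeierstrassCurve.Affine.nonsingular_neg x y).2 n1,
    WeierstrassCurve.Affine.Point.neg_some n1, ?_, ?_⟩
  · rw [hneg]
    linear_combination h1
  · rw [hneg, map_neg]
    linear_combination -h1'

theorem lam_smul {F : Type*} [Field F] [DecidableEq F] (D : Derivation ℤ F F) {q s f : F}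
    (h4 : 4 * q = 1) (hf : f ≠ 0) (hq : D q = 0) (hs : D s = 0)
    {P : (TC q s f).toAffine.Point} {c : F} (hP : Lam D P c) (n : ℤ) :
    Lam D (n • P) (n * c) := by
  have hnat : ∀ m : ℕ, Lam D (m • P) (m * c) := by
    intro m
    induction m with
    | zero => exact Or.inl ⟨zero_smul _ _, by rw [Nat.cast_zero, zero_mul]⟩
    | succ m ih =>
      have := lam_add D h4 hf hq hs ih hP
      rw [succ_nsmul, Nat.cast_succ, add_mul, one_mul]
      exact this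
  obtain ⟨m, rfl | rfl⟩ := n.eq_nat_or_neg
  · rw [natCast_zsmul, Int.cast_natCast]
    exact hnat m
  · rw [neg_smul, natCast_zsmul, Int.cast_neg, Int.cast_natCast, neg_mul]
    exact lam_neg D (hnat m)

end Pool.Agent.MP_2a5e5c_nt
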