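import Pool.Agent.Lib.MP_2a5e5c_nt.LamA
import Pool.Agent.Lib.MP_2a5e5c_nt.Der
import Pool.Agent.Lib.MP_2a5e5c_nt.HtG

/-!
# SUN, module LamK: the invariant differential of points over K(X)

PROOF. `lamK_comb`: `lam_add`, `lam_smul` for the derivation `dX K` (restrict scalars to `ℤ`:
`(dX K).restrictScalars ℤ`; constants are killed: `dX_poly`, `derivative_C`). `lamK_eq`: for
`P = (x, y)`, `U = x/f = N/M`, `V = y/f²`: `f V² = U³ + q (U + s)²` (equation of the curve divided
by `f³`), `D(U) = c V`; so `f D(U)² = c² (U³ + q (U + s)²)` and `D(U) = (N'M - NM')/M²`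
(`dX_poly` and the quotient rule); multiply by `M⁴`. `P = 0`: `M = 0`, both sides are `0`.
`lamK_zero`: `P = 0` clear. `P = (x, y)`: `f D(x) = D(f) x`, so `D(x/f) = 0`, `x/f = u` constant
(`dX_const`), `y² = f³ (u³ + q (u + s)²)`. If `e = u³ + q (u+s)² ≠ 0` then `(y/f)² = e f` in
`K(X)` is a polynomial of odd degree 3, but a square of a rational function has even degree
(`RatFunc.intDegree_mul`): contradiction. So `e = 0`, `y = 0`, hence `P + P = 0`
(`add_self_of_Y_eq`) and `ht P = 0` (`Rep P (C u) 1`).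
-/

namespace Pool.Agent.MP_2a5e5c_nt

open Polynomial

variable {K : Type*} [Field K] {q t s : K}

/-- `P ∈ E_s(K(X))` (twisted by `f`) has invariant differential `c ∈ K`. -/
def LamK (P : Pt q t s) (c : K) : Prop :=
  Lam (dX K) P (algebraMap K[X] (RatFunc K) (C c))

private theorem LamK_h4 (h4 : 4 * q = 1) :
    4 * algebraMap K[X] (RatFunc K) (C q) = 1 := by
  have h1 : (C (4 * q) : K[X]) = 4 * C q := by
    rw [C_mul]
    congr 1
  have h2 : algebraMap K[X] (RatFunc K) (C (4 * q)) = 1 := by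
    rw [h4, C_1, map_one]
  rw [h1, map_mul] at h2
  rw [← h2]
  congr 1
  exact (map_ofNat (algebraMap K[X] (RatFunc K)) 4).symm

private theorem LamK_f : algebraMap K[X] (RatFunc K) (fC q t) ≠ 0 := by
  rw [Ne, map_eq_zero_iff _ (FaithfulSMul.algebraMap_injective _ _)]
  exact (fC_monic q t).1.ne_zero

private theorem LamK_const (a : K) : dX K (algebraMap K[X] (RatFunc K) (C a)) = 0 := by
  rw [dX_poly, derivative_C, map_zero]

theorem lamK_comb (h4 : 4 * q = 1) {P Q : Pt q t s} {c d : K} (hP : LamK P c) (hQ : LamK Q d)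
    (a b : ℤ) : LamK (a • P + b • Q) (a * c + b * d) := by
  have h4' := LamK_h4 h4
  have hf := LamK_f (q := q) (t := t)
  let D : @Derivation ℤ (RatFunc K) (RatFunc K) _ _ _ (Ring.toIntAlgebra (RatFunc K)) _ _ :=
    @Derivation.mk' ℤ _ (RatFunc K) _ (Ring.toIntAlgebra (RatFunc K)) (RatFunc K) _ _ _
      ((dX K).toLinearMap.toAddMonoidHom.toIntLinearMap) (fun a b => (dX K).leibniz a b)
  have hq : D (algebraMap K[X] (RatFunc K) (C q)) = 0 := LamK_const q
  have hs : D (algebraMap K[X] (RatFunc K) (C s)) = 0 := LamK_const s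
  have hP' : Lam D P (algebraMap K[X] (RatFunc K) (C c)) := hP
  have hQ' : Lam D Q (algebraMap K[X] (RatFunc K) (C d)) := hQ
  have h1 := lam_smul D h4' hf hq hs hP' a
  have h2 := lam_smul D h4' hf hq hs hQ' b
  have h3 := lam_add D h4' hf hq hs h1 h2
  have e : algebraMap K[X] (RatFunc K) (C ((a : K) * c + b * d)) =
      a * algebraMap K[X] (RatFunc K) (C c) + b * algebraMap K[X] (RatFunc K) (C d) := by
    simp
  unfold LamK
  rw [e]
  exact h3

private theorem LamK_curve {x y : RatFunc K} (h : (TX q t s).toAffine.Nonsingular x y) :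
    y ^ 2 = x ^ 3 + algebraMap K[X] (RatFunc K) (C q) * algebraMap K[X] (RatFunc K) (fC q t) *
      x ^ 2 + 2 * algebraMap K[X] (RatFunc K) (C q) * algebraMap K[X] (RatFunc K) (C s) *
      algebraMap K[X] (RatFunc K) (fC q t) ^ 2 * x +
      algebraMap K[X] (RatFunc K) (C q) * algebraMap K[X] (RatFunc K) (C s) ^ 2 *
      algebraMap K[X] (RatFunc K) (fC q t) ^ 3 := by
  have h1 := (WeierstrassCurve.Affine.equation_iff _ _).1 h.1
  simp only [TX, TC] at h1
  linear_combination h1

theorem lamK_eq (h4 : 4 * q = 1) {P : Pt q t s} {c : K} (hP : LamK P c) {N M : K[X]}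
    (h : Rep P N M) :
    fC q t * (derivative N * M - N * derivative M) ^ 2 =
      C c ^ 2 * M * (N ^ 3 + C q * M * (N + C s * M) ^ 2) := by
  obtain ⟨hcop, h⟩ := h
  rcases h with ⟨hP0, hM⟩ | ⟨x, y, hxy, hP1, hM, hx⟩
  · subst hM
    simp
  rcases hP with ⟨hP0, -⟩ | ⟨x', y', hxy', hP2, e1, -⟩
  · rw [hP0] at hP1
    exact absurd hP1 (by simp [WeierstrassCurve.Affine.Point.zero_def])
  rw [hP1] at hP2
  have hxx : x = x' ∧ y = y' := by
    have := WeierstrassCurve.Affine.Point.some.inj hP2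
    exact this
  obtain ⟨rfl, rfl⟩ := hxx
  have hf := LamK_f (q := q) (t := t)
  have hc := LamK_curve hxy
  have hM' : algebraMap K[X] (RatFunc K) M ≠ 0 := by
    rw [Ne, map_eq_zero_iff _ (FaithfulSMul.algebraMap_injective _ _)]
    exact hM
  have hd := congrArg (dX K) hx
  rw [Derivation.leibniz, Derivation.leibniz] at hd
  simp only [smul_eq_mul, dX_poly] at hd
  rw [dX_poly] at e1
  apply FaithfulSMul.algebraMap_injective K[X] (RatFunc K)
  simp only [map_mul, map_sub, map_pow, map_add]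
  set ι := algebraMap K[X] (RatFunc K)
  set F := ι (fC q t) with hF
  -- W = N' M - N M'
  have hW : F ^ 2 * (ι (derivative N) * ι M - ι N * ι (derivative M)) =
      (F * dX K x - ι (derivative (fC q t)) * x) * ι M ^ 2 := by
    linear_combination (-(F * ι M)) * hd + (F * ι (derivative M) +
      ι (derivative (fC q t)) * ι M) * hx
  rw [e1] at hW
  have hG : y ^ 2 * ι M ^ 3 = F ^ 3 * (ι N ^ 3 + ι (C q) * ι M * (ι N + ι (C s) * ι M) ^ 2) := by
    rw [hc]
    have h3 : x ^ 3 * ι M ^ 3 = F ^ 3 * ι N ^ 3 := by rw [← mul_pow, hx, mul_pow]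
    have h2 : x ^ 2 * ι M ^ 2 = F ^ 2 * ι N ^ 2 := by rw [← mul_pow, hx, mul_pow]
    linear_combination h3 + ι (C q) * F * ι M * h2 +
      2 * ι (C q) * ι (C s) * F ^ 2 * ι M ^ 2 * hx
  have hF3 : F ^ 3 ≠ 0 := pow_ne_zero 3 hf
  apply mul_left_cancel₀ hF3
  linear_combination (F ^ 2 * (ι (derivative N) * ι M - ι N * ι (derivative M)) +
    ι (C c) * y * ι M ^ 2) * hW + ι (C c) ^ 2 * ι M * hG

theorem lamK_zero [CharZero K] (h4 : 4 * q = 1) {P : Pt q t s} (hP : LamK P 0) :
    P + P = 0 ∧ ht P = 0 := by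
  rcases hP with ⟨hP0, -⟩ | ⟨x, y, hxy, hP1, e1, -⟩
  · have h0 : P = (0 : Pt q t s) := hP0
    rw [h0]
    exact ⟨add_zero 0, ht_zero⟩
  have hf := LamK_f (q := q) (t := t)
  have hc := LamK_curve hxy
  rw [C_0, map_zero, zero_mul] at e1
  set ι := algebraMap K[X] (RatFunc K) with hι
  set F := ι (fC q t) with hF
  have h0 : dX K (x / F) = 0 := by
    have h1 : dX K (x / F * F) = dX K x := by rw [div_mul_cancel₀ _ hf]
    rw [Derivation.leibniz] at h1
    simp only [smul_eq_mul] at h1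
    have h2 : F * (F * dX K (x / F)) = 0 := by
      have h3 : x / F * F = x := div_mul_cancel₀ _ hf
      linear_combination F * h1 + e1 - (dX K F) * h3
    rcases mul_eq_zero.1 h2 with h | h
    · exact absurd h hf
    · rcases mul_eq_zero.1 h with h | h
      · exact absurd h hf
      · exact h
  obtain ⟨u, hu⟩ := dX_const h0
  have hx : x = F * ι (C u) := by
    rw [← hu]
    field_simp
  have hy : y = 0 := by
    by_contra hy0
    set e : K := u ^ 3 + q * (u + s) ^ 2 with he
    have hye : y ^ 2 = F ^ 3 * ι (C e) := by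
      rw [hc, hx, he]
      simp only [map_add, map_mul, map_pow]
      ring
    have he0 : e ≠ 0 := by
      intro h0
      rw [h0, C_0, map_zero, mul_zero] at hye
      exact hy0 (pow_eq_zero_iff (two_ne_zero) |>.1 hye)
    have hCe : ι (C e) ≠ 0 := by
      rw [Ne, map_eq_zero_iff _ (FaithfulSMul.algebraMap_injective _ _), C_eq_zero]
      exact he0
    have h1 := congrArg RatFunc.intDegree hye
    rw [pow_two, RatFunc.intDegree_mul hy0 hy0, RatFunc.intDegree_mul (pow_ne_zero 3 hf) hCe,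
      pow_succ, pow_two, RatFunc.intDegree_mul (mul_ne_zero hf hf) hf,
      RatFunc.intDegree_mul hf hf, hF, hι, RatFunc.intDegree_polynomial,
      RatFunc.intDegree_polynomial, natDegree_C, (fC_monic q t).2] at h1
    omega
  have hneg : y = (TX q t s).toAffine.negY x y := by
    rw [hy]
    simp [WeierstrassCurve.Affine.negY, TX, TC]
  refine ⟨?_, ?_⟩
  · rw [hP1]
    exact WeierstrassCurve.Affine.Point.add_self_of_Y_eq hneg
  · have hrep : Rep P (C u) 1 := by
      refine ⟨isCoprime_one_right, Or.inr ⟨x, y, hxy, hP1, one_ne_zero, ?_⟩⟩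
      rw [map_one, mul_one, hx]
    rw [ht_eq hrep]
    simp [hgt]

end Pool.Agent.MP_2a5e5c_nt
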