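import Pool.Agent.Lib.MP_2a5e5c_nt.HGdef

/-!
# SUN, module Leg: Legendre symbols and the constant c_p

PROOF. `leg_three`: `ZMod 3`, `decide` / `legendreSym.mod`. `leg_neg_three`: quadratic
reciprocity: `(-3/p) = (-1/p)(3/p)`, `(3/p)(p/3) = (-1)^((p-1)/2)`, `(-1/p) = (-1)^((p-1)/2)`
(`legendreSym.quadratic_reciprocity'`, `legendreSym.at_neg_one`, `ZMod.χ₄`).
`leg_b`: `p % 3 = 2` (as `3 ∤ x`: else `3 ∣ 4p`; `x² ≡ 1`, `4p ≡ 2`), `p ∤ x`
(`x = 0` is impossible, else `4p ≥ 41p²`), `p ∤ y` (`y = 0` gives `4p = 41x²`, `41 ∣ p`, excluded;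
else `4p ≥ 3p²`). `41 x² ≡ -3 y² mod p`, so `(41/p) = (-3/p) = (p/3) = -1`
(`legendreSym.mul`, `legendreSym.sq_one`). `leg_a`: `p % 3 = 1`, `y ≠ 0`: (`4p = x²` is
impossible), `p ∤ x, y`; `x² ≡ -3 · 41 y²`: `(41/p) = (-3/p) = (p/3) = 1`. `cp_*`: unfold.
`leg_symm`: reciprocity for `41 ≡ 1 mod 4`.
-/

namespace Pool.Agent.MP_2a5e5c_nt

instance fact_three : Fact (Nat.Prime 3) := ⟨by norm_num⟩

instance fact_fortyone : Fact (Nat.Prime 41) := ⟨by norm_num⟩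

/-- The constant `c_p = (41/p) (1025/1024)^(e_p)`, `e_p = (1 - (p/3))/2`. -/
def cp (p : ℕ) [Fact p.Prime] : ℚ :=
  (legendreSym p 41 : ℤ) * (1025 / 1024 : ℚ) ^ ((1 - legendreSym 3 p) / 2).toNat

private theorem Leg_one {x : ℤ} (hx : x % 3 = 1) : legendreSym 3 x = 1 := by
  have h := legendreSym.mod 3 x
  have h1 : x % ((3 : ℕ) : ℤ) = 1 := hx
  rw [h1] at h
  rw [h]
  decide

private theorem Leg_two {x : ℤ} (hx : x % 3 = 2) : legendreSym 3 x = -1 := by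
  have h := legendreSym.mod 3 x
  have h1 : x % ((3 : ℕ) : ℤ) = 2 := hx
  rw [h1] at h
  rw [h]
  decide

theorem leg_three {x : ℤ} (hx : ¬ (3 : ℤ) ∣ x) :
    (legendreSym 3 x = 1 ∨ legendreSym 3 x = -1) ∧ (3 : ℤ) ∣ x - legendreSym 3 x := by
  have h : x % 3 = 1 ∨ x % 3 = 2 := by omega
  rcases h with h | h
  · rw [Leg_one h]
    exact ⟨Or.inl rfl, by omega⟩
  · rw [Leg_two h]
    exact ⟨Or.inr rfl, by omega⟩

theorem leg_neg_three {p : ℕ} [Fact p.Prime] (h5 : 5 ≤ p) :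
    legendreSym p (-3) = legendreSym 3 p := by
  have hp : p.Prime := Fact.out
  have hp2 : p ≠ 2 := by omega
  have hodd : p % 2 = 1 := hp.eq_two_or_odd.resolve_left hp2
  have h1 : legendreSym p (-3) = legendreSym p (-1) * legendreSym p 3 := by
    rw [← legendreSym.mul]
    norm_num
  have h2 : legendreSym p (-1) = (-1) ^ (p / 2) := by
    rw [legendreSym.at_neg_one hp2, ZMod.χ₄_eq_neg_one_pow hodd]
  have h3 : legendreSym p 3 = (-1) ^ (3 / 2 * (p / 2)) * legendreSym 3 p := by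
    have h4 := legendreSym.quadratic_reciprocity' (p := 3) (q := p) (by norm_num) hp2
    exact_mod_cast h4
  have h5 : (3 / 2 * (p / 2) : ℕ) = p / 2 := by
    rw [show (3 / 2 : ℕ) = 1 from rfl, one_mul]
  rw [h1, h2, h3, h5, ← mul_assoc, ← mul_pow]
  norm_num

/-- multiples of squares -/
private theorem Leg_sq {p : ℕ} [Fact p.Prime] {a b x y : ℤ} (hx : ¬ (p : ℤ) ∣ x)
    (hy : ¬ (p : ℤ) ∣ y) (h : (p : ℤ) ∣ a * x ^ 2 - b * y ^ 2) :
    legendreSym p a = legendreSym p b := by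
  have hx0 : (x : ZMod p) ≠ 0 := fun h0 => hx ((ZMod.intCast_zmod_eq_zero_iff_dvd x p).1 h0)
  have hy0 : (y : ZMod p) ≠ 0 := fun h0 => hy ((ZMod.intCast_zmod_eq_zero_iff_dvd y p).1 h0)
  have h1 : legendreSym p (a * x ^ 2) = legendreSym p a := by
    rw [legendreSym.mul, legendreSym.sq_one' p hx0, mul_one]
  have h2 : legendreSym p (b * y ^ 2) = legendreSym p b := by
    rw [legendreSym.mul, legendreSym.sq_one' p hy0, mul_one]
  rw [← h1, ← h2]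
  have h3 : ((a * x ^ 2 : ℤ) : ZMod p) = ((b * y ^ 2 : ℤ) : ZMod p) := by
    have h4 := (ZMod.intCast_zmod_eq_zero_iff_dvd (a * x ^ 2 - b * y ^ 2) p).2 h
    rw [Int.cast_sub] at h4
    exact sub_eq_zero.1 h4
  unfold legendreSym
  rw [h3]

private theorem Leg_four {p : ℕ} [Fact p.Prime] (h5 : 5 ≤ p) {a b x y : ℤ}
    (hxy : 4 * (p : ℤ) = a * x ^ 2 + b * y ^ 2) (hx : (p : ℤ) ∣ x) (hy : (p : ℤ) ∣ y) :
    False := by
  obtain ⟨u, rfl⟩ := hx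
  obtain ⟨v, rfl⟩ := hy
  have hp0 : (p : ℤ) ≠ 0 := by positivity
  have h1 : (4 : ℤ) = p * (a * u ^ 2 + b * v ^ 2) := by
    apply mul_left_cancel₀ hp0
    linear_combination hxy
  have h2 : (p : ℤ) ∣ 4 := ⟨_, h1⟩
  have h3 : p ∣ 4 := by exact_mod_cast h2
  have h4 := Nat.le_of_dvd (by norm_num) h3
  have h6 : p.Prime := Fact.out
  omega

private theorem Leg_pz {p : ℕ} [Fact p.Prime] : Prime (p : ℤ) :=
  Nat.prime_iff_prime_int.1 Fact.out

private theorem Leg_nd {p q : ℕ} [Fact p.Prime] (hq : q.Prime) (h : p ≠ q) :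
    ¬ (p : ℤ) ∣ (q : ℤ) := by
  intro h1
  have h2 : p ∣ q := by exact_mod_cast h1
  exact h ((Nat.prime_dvd_prime_iff_eq Fact.out hq).1 h2)

theorem leg_symm {p : ℕ} [Fact p.Prime] (h5 : 5 ≤ p) (h41 : p ≠ 41) :
    legendreSym p 41 = legendreSym 41 p := by
  have h1 := legendreSym.quadratic_reciprocity_one_mod_four (p := 41) (q := p) (by norm_num)
    (by omega)
  exact_mod_cast h1

theorem leg_b {p : ℕ} [Fact p.Prime] (h5 : 5 ≤ p) (h41 : p ≠ 41) {x y : ℤ}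
    (hxy : 4 * (p : ℤ) = 41 * x ^ 2 + 3 * y ^ 2) :
    ¬ (3 : ℤ) ∣ x ∧ p % 6 = 5 ∧ legendreSym 3 p = -1 ∧ legendreSym p 41 = -1 ∧
      cp p = -(1025 / 1024) := by
  have hp : p.Prime := Fact.out
  have hp2 : p ≠ 2 := by omega
  have hp3 : p ≠ 3 := by omega
  have hodd : p % 2 = 1 := hp.eq_two_or_odd.resolve_left hp2
  have h3p : ¬ (p : ℤ) ∣ ((3 : ℕ) : ℤ) := Leg_nd (by norm_num) hp3
  have h41p : ¬ (p : ℤ) ∣ ((41 : ℕ) : ℤ) := Leg_nd (by norm_num) h41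
  have h3d : ¬ (3 : ℤ) ∣ (p : ℤ) := by
    intro h1
    have h2 : 3 ∣ p := by exact_mod_cast h1
    exact hp3 ((Nat.prime_dvd_prime_iff_eq (by norm_num) hp).1 h2).symm
  have hx3 : ¬ (3 : ℤ) ∣ x := by
    rintro ⟨u, rfl⟩
    apply h3d
    refine ⟨123 * u ^ 2 + y ^ 2 - p, ?_⟩
    linear_combination hxy
  have hp3' : (p : ℤ) % 3 = 2 := by
    have h1 : x % 3 = 1 ∨ x % 3 = 2 := by omega
    have h2 : ∃ w, x ^ 2 = 3 * w + 1 := by
      rcases h1 with h1 | h1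
      · obtain ⟨w, hw⟩ : ∃ w, x = 3 * w + 1 := ⟨x / 3, by omega⟩
        exact ⟨3 * w ^ 2 + 2 * w, by rw [hw]; ring⟩
      · obtain ⟨w, hw⟩ : ∃ w, x = 3 * w + 2 := ⟨x / 3, by omega⟩
        exact ⟨3 * w ^ 2 + 4 * w + 1, by rw [hw]; ring⟩
    obtain ⟨w, hw⟩ := h2
    rw [hw] at hxy
    generalize y ^ 2 = z at hxy
    omega
  have hl3 : legendreSym 3 p = -1 := Leg_two hp3'
  have hpx : ¬ (p : ℤ) ∣ x := by
    intro h1
    have h2 : (p : ℤ) ∣ 3 * y ^ 2 := by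
      have h3 : 3 * y ^ 2 = 4 * (p : ℤ) - 41 * x ^ 2 := by linear_combination -hxy
      rw [h3]
      exact dvd_sub (Dvd.intro_left _ rfl) (Dvd.dvd.mul_left (dvd_pow h1 (by norm_num)) _)
    rcases Leg_pz.dvd_or_dvd h2 with h3 | h3
    · exact h3p h3
    · exact Leg_four h5 hxy h1 (Leg_pz.dvd_of_dvd_pow h3)
  have hpy : ¬ (p : ℤ) ∣ y := by
    intro h1
    have h2 : (p : ℤ) ∣ 41 * x ^ 2 := by
      have h3 : 41 * x ^ 2 = 4 * (p : ℤ) - 3 * y ^ 2 := by linear_combination -hxy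
      rw [h3]
      exact dvd_sub (Dvd.intro_left _ rfl) (Dvd.dvd.mul_left (dvd_pow h1 (by norm_num)) _)
    rcases Leg_pz.dvd_or_dvd h2 with h3 | h3
    · exact h41p h3
    · exact hpx (Leg_pz.dvd_of_dvd_pow h3)
  have hl41 : legendreSym p 41 = -1 := by
    have h1 : legendreSym p 41 = legendreSym p (-3) := by
      refine Leg_sq hpx hpy ⟨4, ?_⟩
      linear_combination -hxy
    rw [h1, leg_neg_three h5, hl3]
  refine ⟨hx3, by omega, hl3, hl41, ?_⟩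
  unfold cp
  rw [hl3, hl41]
  norm_num

theorem leg_a {p : ℕ} [Fact p.Prime] (h5 : 5 ≤ p) {x y : ℤ}
    (hxy : 4 * (p : ℤ) = x ^ 2 + 123 * y ^ 2) :
    ¬ (3 : ℤ) ∣ x ∧ p % 3 = 1 ∧ p ≠ 41 ∧ legendreSym 3 p = 1 ∧ legendreSym p 41 = 1 ∧
      cp p = 1 := by
  have hp : p.Prime := Fact.out
  have hp3 : p ≠ 3 := by omega
  have h3p : ¬ (p : ℤ) ∣ ((3 : ℕ) : ℤ) := Leg_nd (by norm_num) hp3
  have h3d : ¬ (3 : ℤ) ∣ (p : ℤ) := by
    intro h1
    have h2 : 3 ∣ p := by exact_mod_cast h1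
    exact hp3 ((Nat.prime_dvd_prime_iff_eq (by norm_num) hp).1 h2).symm
  have hx3 : ¬ (3 : ℤ) ∣ x := by
    rintro ⟨u, rfl⟩
    apply h3d
    refine ⟨3 * u ^ 2 + 41 * y ^ 2 - p, ?_⟩
    linear_combination hxy
  have hp3' : (p : ℤ) % 3 = 1 := by
    have h1 : x % 3 = 1 ∨ x % 3 = 2 := by omega
    have h2 : ∃ w, x ^ 2 = 3 * w + 1 := by
      rcases h1 with h1 | h1
      · obtain ⟨w, hw⟩ : ∃ w, x = 3 * w + 1 := ⟨x / 3, by omega⟩
        exact ⟨3 * w ^ 2 + 2 * w, by rw [hw]; ring⟩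
      · obtain ⟨w, hw⟩ : ∃ w, x = 3 * w + 2 := ⟨x / 3, by omega⟩
        exact ⟨3 * w ^ 2 + 4 * w + 1, by rw [hw]; ring⟩
    obtain ⟨w, hw⟩ := h2
    rw [hw] at hxy
    generalize y ^ 2 = z at hxy
    omega
  have hl3 : legendreSym 3 p = 1 := Leg_one hp3'
  have h41 : p ≠ 41 := by
    intro h1
    rw [h1] at hxy
    have hxy' : (164 : ℤ) = x ^ 2 + 123 * y ^ 2 := by
      rw [← hxy]
      norm_num
    have hy1 : -1 ≤ y := by nlinarith [sq_nonneg x, sq_nonneg y]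
    have hy2 : y ≤ 1 := by nlinarith [sq_nonneg x, sq_nonneg y]
    have hx1 : -12 ≤ x := by nlinarith [sq_nonneg x, sq_nonneg y]
    have hx2 : x ≤ 12 := by nlinarith [sq_nonneg x, sq_nonneg y]
    interval_cases y <;> interval_cases x <;> norm_num at hxy'
  have h41p : ¬ (p : ℤ) ∣ ((41 : ℕ) : ℤ) := Leg_nd (by norm_num) h41
  have hxy1 : 4 * (p : ℤ) = 1 * x ^ 2 + 123 * y ^ 2 := by rw [one_mul]; exact hxy
  have hpy : ¬ (p : ℤ) ∣ y := by
    intro h1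
    have h2 : (p : ℤ) ∣ x ^ 2 := by
      have h3 : x ^ 2 = 4 * (p : ℤ) - 123 * y ^ 2 := by linear_combination -hxy
      rw [h3]
      exact dvd_sub (Dvd.intro_left _ rfl) (Dvd.dvd.mul_left (dvd_pow h1 (by norm_num)) _)
    exact Leg_four h5 hxy1 (Leg_pz.dvd_of_dvd_pow h2) h1
  have hpx : ¬ (p : ℤ) ∣ x := by
    intro h1
    have h2 : (p : ℤ) ∣ 3 * (41 * y ^ 2) := by
      have h3 : 3 * (41 * y ^ 2) = 4 * (p : ℤ) - x ^ 2 := by linear_combination -hxy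
      rw [h3]
      exact dvd_sub (Dvd.intro_left _ rfl) (dvd_pow h1 (by norm_num))
    rcases Leg_pz.dvd_or_dvd h2 with h3 | h3
    · exact h3p h3
    rcases Leg_pz.dvd_or_dvd h3 with h3 | h3
    · exact h41p h3
    · exact hpy (Leg_pz.dvd_of_dvd_pow h3)
  have hl41 : legendreSym p 41 = 1 := by
    have h1 : legendreSym p (-3 * 41) = legendreSym p 1 := by
      refine Leg_sq hpy hpx ⟨-4, ?_⟩
      linear_combination hxy
    rw [legendreSym.mul, leg_neg_three h5, hl3, one_mul, legendreSym.at_one] at h1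
    exact h1
  refine ⟨hx3, by omega, h41, hl3, hl41, ?_⟩
  unfold cp
  rw [hl3, hl41]
  norm_num

theorem leg_c {p : ℕ} [Fact p.Prime] (h5 : 5 ≤ p) (h3 : legendreSym 3 p = 1)
    (h41 : legendreSym 41 p = -1) : p % 3 = 1 ∧ legendreSym p 41 = -1 ∧ cp p = -1 := by
  have hp : p.Prime := Fact.out
  have hp3 : p ≠ 3 := by omega
  have h3d : ¬ 3 ∣ p := fun h1 =>
    hp3 ((Nat.prime_dvd_prime_iff_eq (by norm_num) hp).1 h1).symm
  have hne : p ≠ 41 := by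
    intro h1
    rw [h1] at h41
    have h2 : legendreSym 41 ((41 : ℕ) : ℤ) = 0 := by
      rw [legendreSym.eq_zero_iff]
      decide
    rw [h2] at h41
    norm_num at h41
  have hp1 : p % 3 = 1 := by
    by_contra h1
    have h2 : (p : ℤ) % 3 = 2 := by omega
    rw [Leg_two h2] at h3
    norm_num at h3
  have hl41 : legendreSym p 41 = -1 := by rw [leg_symm h5 hne, h41]
  refine ⟨hp1, hl41, ?_⟩
  unfold cp
  rw [h3, hl41]
  norm_num

end Pool.Agent.MP_2a5e5c_nt
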