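import Pool.Agent.Lib.MP_2a5e5c_nt.HGdef

/-!
# SUN, module P41: the prime 41

For `p = 41` one has `4p = 41 · 2² + 3 · 0²`, and the congruence of part (b) fails.

PROOF. If `u - v = 41² w` then `w = (u - v)/41²`, and `41` divides the denominator of this
rational number: an exact computation with rational numbers (evaluate `S1 41` by
`decide +kernel` on a statement such as `41 ∣ ((S1 41 - v) / 1681).den`, or compute the sum with
a computable list function proved equal to `S1`; numerically `S1 41 ≡ 1517`,
`5/32 * (-1) * (82 - 41/2) ≡ 1435`, `1681 = 41²`).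
-/

namespace Pool.Agent.MP_2a5e5c_nt

theorem fail41 : ¬ CongQ 41 2 (S1 41) (5 / 32 * (-1) * (41 * 2 - 41 / 2)) := by
  rintro ⟨w, hw, h⟩
  have key : 41 ∣ ((S1 41 - 5 / 32 * (-1) * (41 * 2 - 41 / 2)) / 1681).den := by
    decide +kernel
  apply hw
  have h1 : (S1 41 - 5 / 32 * (-1) * (41 * 2 - 41 / 2)) / 1681 = w := by
    rw [h]
    push_cast
    ring
  rwa [h1] at key

end Pool.Agent.MP_2a5e5c_nt
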