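import Pool.Agent.Lib.MP_2a5e5c_nt.CartB

/-!
# SUN, module PCa: the Cartier operator and isogenies in characteristic `p`
-/

namespace Pool.Agent.MP_2a5e5c_nt

open Polynomial

section jac

variable {k : Type*} [CommRing k] {p : ℕ}

/-- `(u + v)^(p-1) (u + v)' - u^(p-1) u' - v^(p-1) v'` is a derivative -/
theorem PCa_add (hp : p.Prime) (u v : k[X]) : ∃ h : k[X], derivative h =
    (u + v) ^ (p - 1) * derivative (u + v) - u ^ (p - 1) * derivative u -
      v ^ (p - 1) * derivative v := by
  obtain ⟨n, hn⟩ : ∃ n, p = n + 1 := ⟨p - 1, by have := hp.pos; omega⟩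
  have hc : ∀ i ∈ Finset.range n, ∃ c : ℕ, c * (n + 1) = (n + 1).choose (i + 1) := by
    intro i hi
    have hi' := Finset.mem_range.1 hi
    have h1 : p ∣ p.choose (i + 1) := hp.dvd_choose_self (by omega) (by omega)
    rw [hn] at h1
    obtain ⟨c, hc⟩ := h1
    exact ⟨c, by rw [hc]; ring⟩
  choose! c hc using hc
  have h1 : ∀ i ∈ Finset.range n, c i * (i + 1) = n.choose i := by
    intro i hi
    have h2 := hc i hi
    have h3 := Nat.add_one_mul_choose_eq n i
    have h4 : (n + 1) * (c i * (i + 1)) = (n + 1) * n.choose i := by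
      rw [h3, ← h2]
      ring
    exact Nat.eq_of_mul_eq_mul_left (Nat.succ_pos n) h4
  have h2 : ∀ i ∈ Finset.range n, c i * (n - i) = n.choose (i + 1) := by
    intro i hi
    have hi' := Finset.mem_range.1 hi
    have h3 := h1 i hi
    have h4 := Nat.choose_succ_right_eq n i
    have h5 : (i + 1) * (c i * (n - i)) = (i + 1) * n.choose (i + 1) := by
      calc (i + 1) * (c i * (n - i)) = c i * (i + 1) * (n - i) := by ring
        _ = n.choose (i + 1) * (i + 1) := by rw [h3, ← h4]
        _ = _ := by ring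
    exact Nat.eq_of_mul_eq_mul_left (Nat.succ_pos i) h5
  refine ⟨∑ i ∈ Finset.range n, (c i : k[X]) * (u ^ (i + 1) * v ^ (n - i)), ?_⟩
  have e1 : (u + v) ^ n - u ^ n = ∑ i ∈ Finset.range n, (n.choose i : k[X]) *
      (u ^ i * v ^ (n - i)) := by
    rw [add_pow, Finset.sum_range_succ]
    simp only [Nat.sub_self, pow_zero, mul_one, Nat.choose_self, Nat.cast_one,
      add_sub_cancel_right]
    exact Finset.sum_congr rfl fun i _ => by ring
  have e2 : (u + v) ^ n - v ^ n = ∑ i ∈ Finset.range n, (n.choose (i + 1) : k[X]) *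
      (u ^ (i + 1) * v ^ (n - i - 1)) := by
    rw [add_pow, Finset.sum_range_succ']
    simp only [Nat.sub_zero, pow_zero, one_mul, Nat.choose_zero_right, Nat.cast_one, mul_one,
      add_sub_cancel_right]
    refine Finset.sum_congr rfl fun i _ => ?_
    rw [Nat.sub_sub]
    ring
  rw [hn, Nat.add_sub_cancel, derivative_add]
  have e3 : (u + v) ^ n * (derivative u + derivative v) - u ^ n * derivative u -
      v ^ n * derivative v = ((u + v) ^ n - u ^ n) * derivative u +
        ((u + v) ^ n - v ^ n) * derivative v := by ring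
  rw [e3, e1, e2, Finset.sum_mul, Finset.sum_mul, ← Finset.sum_add_distrib,
    derivative_sum]
  refine Finset.sum_congr rfl fun i hi => ?_
  have f1 := congrArg (Nat.cast : ℕ → k[X]) (h1 i hi)
  have f2 := congrArg (Nat.cast : ℕ → k[X]) (h2 i hi)
  push_cast at f1 f2
  rw [derivative_mul, derivative_natCast, zero_mul, zero_add, derivative_mul, derivative_pow,
    derivative_pow, ← f1, ← f2]
  simp only [Nat.add_sub_cancel, Nat.cast_add, Nat.cast_one, map_add, map_natCast, map_one]
  ring

variable [CharP k p]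

/-- Jacobson's identity for the Cartier operator -/
theorem PCa_jac (hp : p.Prime) [Fact p.Prime] (u : k[X]) :
    cart p (u ^ (p - 1) * derivative u) = (derivative u).map (frobenius k p) := by
  have hp0 := hp.pos
  induction u using Polynomial.induction_on' with
  | add u v hu hv =>
    obtain ⟨h, hh⟩ := PCa_add hp u v
    have h1 : (u + v) ^ (p - 1) * derivative (u + v) = derivative h +
        u ^ (p - 1) * derivative u + v ^ (p - 1) * derivative v := by
      rw [hh]
      ring
    have h2 : cart p (derivative h) = 0 := by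
      obtain ⟨w, hw⟩ := cart_deriv hp0 h
      rw [hw, CharP.cast_eq_zero, C_0, zero_mul]
    rw [h1, cart_add hp0, cart_add hp0, h2, hu, hv, zero_add, derivative_add,
      Polynomial.map_add]
  | monomial n a =>
    ext i
    rw [cart_coeff hp0, coeff_map, monomial_pow, derivative_monomial, monomial_mul_monomial,
      coeff_monomial, coeff_monomial]
    rcases Nat.eq_zero_or_pos n with rfl | hn
    · simp
    · have h1 : n * (p - 1) + (n - 1) = p * i + p - 1 ↔ n - 1 = i := by
        obtain ⟨m, rfl⟩ : ∃ m, n = m + 1 := ⟨n - 1, by omega⟩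
        obtain ⟨q, rfl⟩ : ∃ q, p = q + 1 := ⟨p - 1, by omega⟩
        simp only [Nat.add_sub_cancel]
        constructor
        · intro h
          have h3 : (q + 1) * m = (q + 1) * i := by
            have : (m + 1) * q + m = (q + 1) * i + q := by omega
            nlinarith
          exact Nat.eq_of_mul_eq_mul_left (Nat.succ_pos q) h3
        · rintro rfl
          ring_nf
          omega
      by_cases hi : n - 1 = i
      · rw [if_pos (h1.2 hi), if_pos hi, map_mul, frobenius_def, frobenius_def]
        have h2 : (n : k) ^ p = n := by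
          have := map_natCast (frobenius k p) n
          rwa [frobenius_def] at this
        rw [h2, ← mul_assoc, ← pow_succ, Nat.sub_add_cancel hp.one_le]
      · rw [if_neg (fun h => hi (h1.1 h)), if_neg hi, map_zero]

end jac

section main

variable {k : Type*} [Field k] {p m : ℕ} [Fact p.Prime] [CharP k p]

theorem PCa_pow (hp : p.Prime) (W g : k[X]) :
    cart p (g * W ^ p) = W.map (frobenius k p) * cart p g := by
  rw [← map_frobenius_expand p W, map_expand, mul_comm, cart_expand hp.pos]

/-- the terms which are derivatives -/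
theorem PCa_term (hp : p.Prime) (N D : k[X]) (j : ℕ) (hj : 2 * j + 3 ≤ 3 * p)
    (hj1 : ¬ p ∣ j + 1) :
    cart p (N ^ j * D ^ (3 * p - 3 - 2 * j) * (derivative N * D - 2 * N * derivative D)) =
      0 := by
  have hp0 := hp.pos
  obtain ⟨l, hl⟩ : ∃ l, 3 * p = 2 * j + 3 + l := ⟨3 * p - (2 * j + 3), by omega⟩
  have e1 : 3 * p - 3 - 2 * j = l := by omega
  have hu : ((j + 1 : ℕ) : k) ≠ 0 := by
    rw [Ne, CharP.cast_eq_zero_iff k p]
    exact hj1
  have hl' : ((l + 1 : ℕ) : k) = -2 * ((j + 1 : ℕ) : k) := by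
    have h1 : ((3 * p : ℕ) : k) = 0 := by
      rw [Nat.cast_mul, CharP.cast_eq_zero k p, mul_zero]
    rw [hl] at h1
    push_cast at h1 ⊢
    linear_combination h1
  have h2 : derivative (N ^ (j + 1) * D ^ (l + 1)) = C ((j + 1 : ℕ) : k) *
      (N ^ j * D ^ l * (derivative N * D - 2 * N * derivative D)) := by
    rw [derivative_mul, derivative_pow, derivative_pow]
    simp only [Nat.add_sub_cancel]
    rw [hl', map_mul, map_neg, map_ofNat]
    ring
  obtain ⟨w, hw⟩ := cart_deriv hp0 (N ^ (j + 1) * D ^ (l + 1))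
  rw [h2, cart_C_mul hp0, CharP.cast_eq_zero k p, C_0, zero_mul] at hw
  rw [e1]
  have h3 : (C ((j + 1 : ℕ) : k) : k[X]) ≠ 0 := by
    rw [Ne, C_eq_zero]
    exact hu
  exact (mul_eq_zero.1 hw).resolve_left h3

/-- the term `j = p - 1` -/
theorem PCa_top (hp : p.Prime) (N D : k[X]) :
    cart p (N ^ (p - 1) * D ^ (p - 1) * (derivative N * D - 2 * N * derivative D)) =
      (derivative N * D - 2 * N * derivative D).map (frobenius k p) := by
  have hp0 := hp.pos
  have e1 : N ^ (p - 1) * D ^ (p - 1) * (derivative N * D - 2 * N * derivative D) =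
      N ^ (p - 1) * derivative N * D ^ p -
        C 2 * (D ^ (p - 1) * derivative D * N ^ p) := by
    have h1 : D ^ p = D ^ (p - 1) * D := by rw [← pow_succ, Nat.sub_add_cancel hp.one_le]
    have h2 : N ^ p = N ^ (p - 1) * N := by rw [← pow_succ, Nat.sub_add_cancel hp.one_le]
    rw [h1, h2, map_ofNat]
    ring
  rw [e1, cart_sub hp0, cart_C_mul hp0, PCa_pow hp, PCa_pow hp, PCa_jac hp, PCa_jac hp,
    Polynomial.map_sub, Polynomial.map_mul, Polynomial.map_mul, Polynomial.map_mul,
    Polynomial.map_ofNat, map_ofNat]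
  ring

/-- the homogenised power -/
theorem PCa_hom (q s : k) (N D : k[X]) (hD : D ≠ 0) (m : ℕ) :
    (N ^ 3 + C q * D ^ 2 * (N + C s * D ^ 2) ^ 2) ^ m =
      ∑ j ∈ Finset.range (3 * m + 1), C ((fC q s ^ m).coeff j) *
        (N ^ j * D ^ (6 * m - 2 * j)) := by
  have hinj : Function.Injective (algebraMap k[X] (FractionRing k[X])) :=
    IsFractionRing.injective k[X] (FractionRing k[X])
  apply hinj
  obtain ⟨n, hn⟩ : ∃ n, n = algebraMap k[X] (FractionRing k[X]) N := ⟨_, rfl⟩
  obtain ⟨d, hd⟩ : ∃ d, d = algebraMap k[X] (FractionRing k[X]) D := ⟨_, rfl⟩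
  have hd0 : d ≠ 0 := by
    rw [hd, Ne, map_eq_zero_iff _ hinj]
    exact hD
  have hC : ∀ a : k, algebraMap k[X] (FractionRing k[X]) (C a) =
      algebraMap k (FractionRing k[X]) a := by
    intro a
    rw [IsScalarTower.algebraMap_apply k k[X] (FractionRing k[X]), Polynomial.algebraMap_apply,
      Algebra.algebraMap_self, RingHom.id_apply]
  simp only [map_pow, map_add, map_mul, map_sum, hC, ← hn, ← hd]
  have hf : aeval (n / d ^ 2) (fC q s ^ m) =
      ((n / d ^ 2) ^ 3 + algebraMap k (FractionRing k[X]) q *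
        (n / d ^ 2 + algebraMap k (FractionRing k[X]) s) ^ 2) ^ m := by
    unfold fC
    simp only [map_pow, map_add, map_mul, aeval_X, aeval_C]
  have hdeg : (fC q s ^ m).natDegree < 3 * m + 1 := by
    have h1 : (fC q s).natDegree ≤ 3 := by
      unfold fC
      compute_degree
    have h2 : (fC q s ^ m).natDegree ≤ m * 3 :=
      natDegree_pow_le.trans (Nat.mul_le_mul_left m h1)
    omega
  rw [aeval_eq_sum_range' hdeg] at hf
  have e1 : (n ^ 3 + algebraMap k (FractionRing k[X]) q * d ^ 2 *
      (n + algebraMap k (FractionRing k[X]) s * d ^ 2) ^ 2) ^ m =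
      (d ^ 6) ^ m * ((n / d ^ 2) ^ 3 + algebraMap k (FractionRing k[X]) q *
        (n / d ^ 2 + algebraMap k (FractionRing k[X]) s) ^ 2) ^ m := by
    rw [← mul_pow]
    congr 1
    field_simp
  rw [e1, ← hf, Finset.mul_sum]
  refine Finset.sum_congr rfl fun j hj => ?_
  have hj' := Finset.mem_range.1 hj
  obtain ⟨l, hl⟩ : ∃ l, 6 * m = 2 * j + l := ⟨6 * m - 2 * j, by omega⟩
  have e2 : 6 * m - 2 * j = l := by omega
  rw [e2, ← pow_mul, hl, Algebra.smul_def, div_pow, ← pow_mul, pow_add]
  field_simp

theorem pca (hp : p.Prime) (hm : p = 2 * m + 1) (hm1 : 1 ≤ m) (q t s rho : k) (N D : k[X])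
    (h : fC q t * (derivative N * D - 2 * N * derivative D) ^ 2 =
      C rho ^ 2 * (N ^ 3 + C q * D ^ 2 * (N + C s * D ^ 2) ^ 2))
    (hW : derivative N * D - 2 * N * derivative D ≠ 0) :
    rho ^ (p - 1) * (fC q s ^ m).coeff (2 * m) = (fC q t ^ m).coeff (2 * m) := by
  have hp0 := hp.pos
  have h2m : p - 1 = 2 * m := by omega
  set W := derivative N * D - 2 * N * derivative D with hWdef
  set g := N ^ 3 + C q * D ^ 2 * (N + C s * D ^ 2) ^ 2 with hg
  have e1 : fC q t ^ m * W ^ p = C (rho ^ (p - 1)) * (g ^ m * W) := by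
    have h1 := congrArg (fun z => z ^ m * W) h
    simp only [mul_pow] at h1
    have hWp : W ^ p = W ^ (2 * m + 1) := congrArg (fun z => W ^ z) hm
    rw [hWp, h2m, C_pow]
    calc fC q t ^ m * W ^ (2 * m + 1) = fC q t ^ m * (W ^ 2) ^ m * W := by
          rw [pow_succ, pow_mul]
          ring
      _ = (C rho ^ 2) ^ m * g ^ m * W := h1
      _ = _ := by
        rw [← pow_mul]
        ring
  have e2 := congrArg (cart p) e1
  rw [PCa_pow hp, cart_C_mul hp0] at e2
  have hdeg : (fC q t ^ m).natDegree < 2 * p - 1 := by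
    have h1 : (fC q t).natDegree ≤ 3 := by
      unfold fC
      compute_degree
    have h2 : (fC q t ^ m).natDegree ≤ m * 3 :=
      natDegree_pow_le.trans (Nat.mul_le_mul_left m h1)
    omega
  rw [cart_small hp0 hdeg] at e2
  have e3 : cart p (g ^ m * W) = C ((fC q s ^ m).coeff (2 * m)) * W.map (frobenius k p) := by
    have hD : D ≠ 0 := by
      rintro rfl
      apply hW
      rw [hWdef, derivative_zero, mul_zero, mul_zero, sub_zero]
    rw [PCa_hom q s N D hD, Finset.sum_mul]
    have h1 : ∀ (f : ℕ → k[X]) (n : ℕ), cart p (∑ j ∈ Finset.range n, f j) =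
        ∑ j ∈ Finset.range n, cart p (f j) := by
      intro f n
      induction n with
      | zero =>
        simp only [Finset.range_zero, Finset.sum_empty]
        ext i
        rw [cart_coeff hp0, coeff_zero, coeff_zero]
      | succ n ih => rw [Finset.sum_range_succ, Finset.sum_range_succ, cart_add hp0, ih]
    rw [h1, Finset.sum_eq_single (2 * m)]
    · have e4 : 6 * m - 2 * (2 * m) = p - 1 := by omega
      rw [mul_assoc, cart_C_mul hp0, e4, ← h2m, PCa_top hp]
    · intro j hj hjm
      have hj' := Finset.mem_range.1 hj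
      have e4 : 6 * m - 2 * j = 3 * p - 3 - 2 * j := by omega
      rw [mul_assoc, cart_C_mul hp0, e4, PCa_term hp N D j (by omega), mul_zero]
      rintro ⟨c, hc⟩
      have hc1 : c < 2 := by
        by_contra hc2
        push Not at hc2
        have : p * 2 ≤ p * c := Nat.mul_le_mul_left p hc2
        omega
      interval_cases c
      · omega
      · omega
    · intro hn
      exact absurd (Finset.mem_range.2 (by omega)) hn
  rw [e3] at e2
  have hW' : W.map (frobenius k p) ≠ 0 := by
    rw [Ne, Polynomial.map_eq_zero]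
    exact hW
  have e5 : W.map (frobenius k p) * C ((fC q t ^ m).coeff (2 * m)) =
      W.map (frobenius k p) * C (rho ^ (p - 1) * (fC q s ^ m).coeff (2 * m)) := by
    rw [h2m] at e2
    rw [e2, C_mul, h2m]
    ring
  exact (C_injective (mul_left_cancel₀ hW' e5)).symm

end main

end Pool.Agent.MP_2a5e5c_nt
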