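import Pool.Agent.Lib.MP_2a5e5c_nt.Id0
import Pool.Agent.Lib.MP_2a5e5c_nt.BetaId
import Pool.Agent.Lib.MP_2a5e5c_nt.PCa

/-!
# SUN, module PCb: the supersingular case
-/

namespace Pool.Agent.MP_2a5e5c_nt

open Polynomial

section

variable {k : Type*} [Field k] {p : ℕ}

/-- the invariant differential of an isogeny with `rho ≠ 0` does not vanish -/
theorem PCb_W {q t s rho : k} {d : ℕ} {N D : k[X]} (hd : 0 < d) (h : PIso q t s rho d N D)
    (hrho : rho ≠ 0) : derivative N * D - 2 * N * derivative D ≠ 0 := by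
  intro hW
  have h1 := h.eq
  rw [hW, zero_pow two_ne_zero, mul_zero] at h1
  have hC : (C rho ^ 2 : k[X]) ≠ 0 := pow_ne_zero 2 (by rw [Ne, C_eq_zero]; exact hrho)
  have h2 : N ^ 3 + C q * D ^ 2 * (N + C s * D ^ 2) ^ 2 = 0 :=
    (mul_eq_zero.1 h1.symm).resolve_left hC
  have h3 : N ^ 3 = - (C q * D ^ 2 * (N + C s * D ^ 2) ^ 2) := eq_neg_of_add_eq_zero_left h2
  have h4 := congrArg natDegree h3
  rw [natDegree_pow, h.degN, natDegree_neg] at h4
  have hD := h.degD
  have e1 : (N + C s * D ^ 2).natDegree ≤ d := by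
    refine natDegree_add_le_of_degree_le h.degN.le ?_
    refine (natDegree_C_mul_le _ _).trans (natDegree_pow_le.trans ?_)
    omega
  have e2 : (C q * D ^ 2 * (N + C s * D ^ 2) ^ 2).natDegree ≤ 2 * D.natDegree + 2 * d := by
    refine natDegree_mul_le.trans (Nat.add_le_add ?_ ?_)
    · exact (natDegree_C_mul_le _ _).trans natDegree_pow_le
    · exact natDegree_pow_le.trans (Nat.mul_le_mul_left 2 e1)
  omega

theorem PCb_iso [Fact p.Prime] [CharP k p] (h5 : 5 ≤ p) {q t s rho : k} {d : ℕ}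
    {N D : k[X]} (h4 : 4 * q = 1) (hd : 0 < d) (h : PIso q t s rho d N D) (hrho : rho ≠ 0) :
    rho ^ (p - 1) * Hs p s = Hs p t := by
  have hp : p.Prime := Fact.out
  have hodd : p % 2 = 1 := by
    rcases hp.eq_two_or_odd with h2 | h2
    · omega
    · exact h2
  obtain ⟨m, hm⟩ : ∃ m, p = 2 * m + 1 := ⟨p / 2, by omega⟩
  have h1 := pca hp hm (by omega) q t s rho N D h.eq (PCb_W hd h hrho)
  rw [hasse hp h5 hm (CharP.cast_eq_zero k p) h4, hasse hp h5 hm (CharP.cast_eq_zero k p) h4]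
    at h1
  exact h1

theorem pcb [Fact p.Prime] [CharP k p] (h5 : 5 ≤ p)
    (h3 : p % 3 = 1) (h41 : legendreSym p 41 = -1) {r sh t s : k} (hr : r ^ 2 = 41)
    (hsh : sh ^ 2 = -3) (ht : 1728 * t = 32 - 5 * r) (hs : 1728 * s = 32 + 5 * r) :
    Hs p t = 0 ∧ Hs p s = 0 := by
  have hp : p.Prime := Fact.out
  have hodd : p % 2 = 1 := by
    rcases hp.eq_two_or_odd with h2 | h2
    · omega
    · exact h2
  have hne : ∀ n : ℕ, ¬ p ∣ n → (n : k) ≠ 0 := by
    intro n hn
    rw [Ne, CharP.cast_eq_zero_iff k p]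
    exact hn
  have h2 : (2 : k) ≠ 0 := by
    have := hne 2 (fun h => absurd (Nat.le_of_dvd (by norm_num) h) (by omega))
    exact_mod_cast this
  have h3' : (3 : k) ≠ 0 := by
    have := hne 3 (fun h => absurd (Nat.le_of_dvd (by norm_num) h) (by omega))
    exact_mod_cast this
  have h11 : (11 : k) ≠ 0 := by
    have := hne 11 (fun h => by
      have := (Nat.prime_dvd_prime_iff_eq hp (by norm_num)).1 h
      omega)
    exact_mod_cast this
  obtain ⟨q, hq⟩ : ∃ q : k, 4 * q = 1 := ⟨4⁻¹, mul_inv_cancel₀ (by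
    have : (4 : k) = 2 * 2 := by norm_num
    rw [this]
    exact mul_ne_zero h2 h2)⟩
  obtain ⟨i3, hi3⟩ : ∃ i3 : k, 3 * i3 = 1 := ⟨3⁻¹, mul_inv_cancel₀ h3'⟩
  have h1728 : (1728 : k) ≠ 0 := by
    have : (1728 : k) = 2 ^ 6 * 3 ^ 3 := by norm_num
    rw [this]
    exact mul_ne_zero (pow_ne_zero _ h2) (pow_ne_zero _ h3')
  have hts : (1728 * t) * (1728 * s) = -1 := by
    rw [ht, hs]
    linear_combination -25 * hr
  have ht0 : t ≠ 0 := by
    rintro rfl
    rw [mul_zero, zero_mul] at hts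
    exact one_ne_zero (neg_eq_zero.1 hts.symm)
  have hs0 : s ≠ 0 := by
    rintro rfl
    rw [mul_zero, mul_zero] at hts
    exact one_ne_zero (neg_eq_zero.1 hts.symm)
  have hab : 27 * (t + s) = 1 := by
    have h64 : (64 : k) ≠ 0 := by
      have : (64 : k) = 2 ^ 6 := by norm_num
      rw [this]
      exact pow_ne_zero _ h2
    refine mul_left_cancel₀ h64 ?_
    linear_combination ht + hs
  have hsh0 : sh ≠ 0 := by
    rintro rfl
    rw [zero_pow two_ne_zero] at hsh
    exact h3' (neg_eq_zero.1 hsh.symm)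
  -- Frobenius on `sh`
  have hfr : ∀ x : k, frobenius k p x = x ^ p := fun x => rfl
  have h2p : (2 : k) ^ p = 2 := by
    have := map_ofNat (frobenius k p) 2
    rwa [hfr] at this
  have hshp : sh ^ p = sh := by
    obtain ⟨w, hw⟩ : ∃ w : k, 2 * w = sh - 1 := ⟨2⁻¹ * (sh - 1), by
      rw [← mul_assoc, mul_inv_cancel₀ h2, one_mul]⟩
    have hw3 : w ^ 3 = 1 := by
      have h8 : (8 : k) ≠ 0 := by
        have : (8 : k) = 2 ^ 3 := by norm_num
        rw [this]
        exact pow_ne_zero _ h2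
      refine mul_left_cancel₀ h8 ?_
      calc 8 * w ^ 3 = (2 * w) ^ 3 := by ring
        _ = (sh - 1) ^ 3 := by rw [hw]
        _ = 8 * 1 := by linear_combination (sh - 3) * hsh
    have hwp : w ^ p = w := by
      obtain ⟨j, hj⟩ : ∃ j, p = 3 * j + 1 := ⟨p / 3, by omega⟩
      have : w ^ p = w ^ (3 * j + 1) := congrArg (fun z => w ^ z) hj
      rw [this, pow_succ, pow_mul, hw3, one_pow, one_mul]
    have h6 : sh = 2 * w + 1 := by linear_combination -hw
    have h7 : frobenius k p sh = sh := by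
      rw [h6, map_add, map_mul, map_one, hfr, hfr, h2p, hwp]
    rwa [hfr] at h7
  have hp1 : ∀ x : k, x ^ p = x ^ (p - 1) * x := by
    intro x
    rw [← pow_succ, Nat.sub_add_cancel hp.one_le]
  have hsh1 : sh ^ (p - 1) = 1 := by
    refine mul_right_cancel₀ hsh0 ?_
    rw [← hp1, hshp, one_mul]
  -- Frobenius on `r`
  have hr1 : r ^ (p - 1) = -1 := by
    have h6 := legendreSym.eq_pow p 41
    rw [h41] at h6
    have h7 := congrArg (ZMod.castHom (dvd_refl p) k) h6
    rw [map_pow] at h7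
    simp only [Int.reduceNeg, Int.cast_neg, Int.cast_one, map_neg, map_one, Int.cast_ofNat,
      map_ofNat] at h7
    have h8 : p - 1 = 2 * (p / 2) := by omega
    rw [h8, pow_mul, hr, ← h7]
  have hrp : r ^ p = -r := by rw [hp1, hr1, neg_one_mul]
  have hr0 : r ≠ 0 := by
    rintro rfl
    rw [zero_pow (by omega)] at hr1
    exact one_ne_zero (neg_eq_zero.1 hr1.symm)
  -- the isogeny of degree 3
  have hphi := piso_three hq hi3 hab hsh (Ne.isUnit ht0) one_pos (piso_eta q t)
  have e1 := PCb_iso h5 hq (by norm_num) hphi (by rw [mul_one]; exact hsh0)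
  rw [mul_one, hsh1, one_mul] at e1
  -- the isogeny of degree 11
  obtain ⟨rho, hrho⟩ : ∃ rho : k, 2 * rho = r + sh := ⟨2⁻¹ * (r + sh), by
    rw [← mul_assoc, mul_inv_cancel₀ h2, one_mul]⟩
  have hrho0 : rho ≠ 0 := by
    rintro rfl
    rw [mul_zero] at hrho
    apply h11
    have h4 : (4 : k) ≠ 0 := by
      have : (4 : k) = 2 * 2 := by norm_num
      rw [this]
      exact mul_ne_zero h2 h2
    refine mul_left_cancel₀ h4 ?_
    linear_combination -hr + hsh + (r - sh) * hrho.symm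
  obtain ⟨N, D, hb, -, -⟩ := piso_beta hq hi3 hr hsh ht hs hrho
  have e2 := PCb_iso h5 hq (by norm_num) hb hrho0
  have e3 : rho ^ p = sh - rho := by
    have h6 : frobenius k p (2 * rho) = frobenius k p (r + sh) := by rw [hrho]
    rw [map_mul, map_add, hfr, hfr, hfr, hfr, h2p, hrp, hshp] at h6
    refine mul_left_cancel₀ h2 ?_
    linear_combination h6 + hrho
  have e4 : (sh - rho) * Hs p s = rho * Hs p t := by
    rw [← e3, hp1, ← e2]
    ring
  have e5 : r * Hs p s = 0 := by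
    rw [← e1] at e4
    linear_combination -e4 - Hs p s * hrho
  have e6 : Hs p s = 0 := (mul_eq_zero.1 e5).resolve_left hr0
  exact ⟨by rw [← e1]; exact e6, e6⟩

end

end Pool.Agent.MP_2a5e5c_nt
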