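import Pool.Agent.Lib.MP_2a5e5c_nt.HGfin
import Pool.Agent.Lib.MP_2a5e5c_nt.HGbr
import Pool.Agent.Lib.MP_2a5e5c_nt.PCb

/-!
# SUN, module PCc: part (c) modulo p
-/

namespace Pool.Agent.MP_2a5e5c_nt

private theorem PCc_ne {k : Type*} [Field k] {p : ℕ} [CharP k p] {n : ℕ} (hn : ¬ p ∣ n) :
    (n : k) ≠ 0 := fun h => hn ((CharP.cast_eq_zero_iff k p n).1 h)

private theorem PCc_small {p : ℕ} (hp : p.Prime) (h7 : 7 ≤ p) (a b c : ℕ) :
    ¬ p ∣ 2 ^ a * 3 ^ b * 5 ^ c := by
  intro h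
  rcases (Nat.Prime.dvd_mul hp).1 h with h | h
  · rcases (Nat.Prime.dvd_mul hp).1 h with h | h
    · exact absurd (Nat.le_of_dvd (by norm_num) (hp.dvd_of_dvd_pow h)) (by omega)
    · exact absurd (Nat.le_of_dvd (by norm_num) (hp.dvd_of_dvd_pow h)) (by omega)
  · exact absurd (Nat.le_of_dvd (by norm_num) (hp.dvd_of_dvd_pow h)) (by omega)

/-- in characteristic `p` the numbers `kap j` are the numbers `trin j` -/
private theorem PCc_kap {k : Type*} [Field k] {p : ℕ} [CharP k p] {kap : ℕ → k}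
    (hk : IsKap p kap) (j : ℕ) (hj : j < p) : kap j = (trin j : k) := by
  have hp0 : (p : k) = 0 := CharP.cast_eq_zero k p
  induction j with
  | zero => rw [hk.1, trin_zero, Nat.cast_one]
  | succ j ih =>
    have h1 := ih (by omega)
    have h2 := hk.2 j hj
    have h3 := congrArg (Nat.cast : ℕ → k) (trin_succ j)
    push_cast at h2 h3
    rw [h1, hp0] at h2
    have h4 : ((j + 1 : ℕ) : k) ≠ 0 :=
      PCc_ne (p := p) (fun h => absurd (Nat.le_of_dvd (Nat.succ_pos j) h) (by omega))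
    push_cast at h4
    refine mul_left_cancel₀ (pow_ne_zero 3 h4) ?_
    linear_combination h2 - h3

/-- the statement over an algebraically closed field -/
private theorem PCc_field {k : Type*} [Field k] [IsAlgClosed k] {p : ℕ} [Fact p.Prime] [CharP k p]
    (h5 : 5 ≤ p) (h3 : p % 3 = 1) (h41 : legendreSym p 41 = -1) :
    CongQ p 1 (S1 p) 0 ∧ CongQ p 1 (S2 p) 0 := by
  have hp : p.Prime := Fact.out
  have h7 : 7 ≤ p := by
    by_contra h
    interval_cases p <;> omega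
  have hp0 : ((p : ℕ) : k) = 0 := CharP.cast_eq_zero k p
  have hS : ((p : ℕ) : k) ^ 2 = 0 := by rw [hp0, zero_pow two_ne_zero]
  have hu : ∀ n : ℕ, ¬ p ∣ n → IsUnit (n : k) := fun n hn => isUnit_iff_ne_zero.2 (PCc_ne hn)
  have hinj : ∀ n : ℤ, (n : k) = 0 → (p : ℤ) ^ 1 ∣ n := by
    intro n hn
    rw [pow_one]
    exact (CharP.intCast_eq_zero_iff k p n).1 hn
  obtain ⟨r, hr⟩ := IsAlgClosed.exists_pow_nat_eq (41 : k) (n := 2) two_pos
  obtain ⟨sh, hsh⟩ := IsAlgClosed.exists_pow_nat_eq (-3 : k) (n := 2) two_pos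
  have e1728 : (1728 : k) ≠ 0 := by
    have := PCc_ne (k := k) (PCc_small hp h7 6 3 0)
    push_cast at this
    norm_num at this
    exact this
  obtain ⟨t, ht⟩ : ∃ t : k, 1728 * t = 32 - 5 * r :=
    ⟨(32 - 5 * r) / 1728, mul_div_cancel₀ _ e1728⟩
  obtain ⟨s, hs⟩ : ∃ s : k, 1728 * s = 32 + 5 * r :=
    ⟨(32 + 5 * r) / 1728, mul_div_cancel₀ _ e1728⟩
  have hH := (pcb h5 h3 h41 hr hsh ht hs).1
  have hr0 : r ≠ 0 := by
    intro h0
    rw [h0, zero_pow two_ne_zero] at hr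
    have h1 : ((41 : ℤ) : ZMod p) = 0 := by
      have h2 : (p : ℤ) ∣ 41 := (CharP.intCast_eq_zero_iff k p 41).1 (by
        push_cast
        exact hr.symm)
      exact (ZMod.intCast_zmod_eq_zero_iff_dvd 41 p).2 h2
    rw [legendreSym.eq_neg_one_iff] at h41
    exact h41 (by rw [h1]; exact IsSquare.zero)
  have hz : -1024 * (108 * t * (1 - 27 * t)) = 1 := by
    have h1 : (1728 * 1728 : k) * (-1024 * (108 * t * (1 - 27 * t))) = 1728 * 1728 * 1 := by
      have h2 : (1728 * 1728 : k) * (-1024 * (108 * t * (1 - 27 * t))) =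
          -1024 * (108 * (1728 * t) * (1728 - 27 * (1728 * t))) := by ring
      rw [h2, ht]
      linear_combination (1024 * 108 * 135 * 5 : k) * hr
    exact mul_left_cancel₀ (mul_ne_zero e1728 e1728) h1
  have h54 : (1 - 54 * t) ≠ 0 := by
    intro h0
    have h1 : (270 : k) * r = 0 := by
      linear_combination (1728 : k) * h0 + 54 * ht
    have e270 : (270 : k) ≠ 0 := by
      have := PCc_ne (k := k) (PCc_small hp h7 1 3 1)
      push_cast at this
      norm_num at this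
      exact this
    rcases mul_eq_zero.1 h1 with h | h
    · exact e270 h
    · exact hr0 h
  have hq0 : QS p (0 : ℚ) (0 : k) := by
    have := QS_int (S := k) hp 0
    rwa [Int.cast_zero, Int.cast_zero] at this
  constructor
  · obtain ⟨A, hA⟩ := IsA_exists (S := k) hp h5 hu
    have h1 := QS_S1 hp h5 hu hA _ hz
    rw [hg1 hp h5 hS h3 hA t, hH] at h1
    exact QS_cong hp hu 1 hinj h1 hq0
  · obtain ⟨G, hG⟩ := IsG_exists (S := k) hp h5 hu
    obtain ⟨kap, hk⟩ := kap_exists (S := k) hp hS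
    have h1 := QS_S2 hp h5 hu hG _ hz
    have h2 := hg4 hp h5 hS h3 hG hk t
    have h4 : Ks p kap t = Hs p t := by
      unfold Ks Hs
      refine Finset.sum_congr rfl fun j hj => ?_
      rw [PCc_kap hk j (Finset.mem_range.1 hj)]
    rw [h4, hH, mul_zero, sub_zero] at h2
    rw [(mul_eq_zero.1 h2).resolve_left h54] at h1
    exact QS_cong hp hu 1 hinj h1 hq0

theorem pc_main {p : ℕ} [Fact p.Prime] (h5 : 5 ≤ p) (h3 : p % 3 = 1)
    (h41 : legendreSym p 41 = -1) : CongQ p 1 (S1 p) 0 ∧ CongQ p 1 (S2 p) 0 :=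
  PCc_field (k := AlgebraicClosure (ZMod p)) h5 h3 h41

end Pool.Agent.MP_2a5e5c_nt
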