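import Pool.Agent.Lib.MP_2a5e5c_nt.EndA
import Pool.Agent.Lib.MP_2a5e5c_nt.EndB
import Pool.Agent.Lib.MP_2a5e5c_nt.Leg
import Pool.Agent.Lib.MP_2a5e5c_nt.P41
import Pool.Agent.Lib.MP_2a5e5c_nt.Intg
import Pool.Agent.Lib.MP_2a5e5c_nt.PCc

/-!
# SUN: the congruences for the sums with base -1024
-/

namespace Pool.Agent.MP_2a5e5c_nt

/-- `u ≡ v` modulo `p^m`: both denominators are prime to `p`, and `u - v` is `p^m` times a rational
number whose denominator is prime to `p`. -/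
def Cong (p m : ℕ) (u v : ℚ) : Prop :=
  ¬ p ∣ u.den ∧ ¬ p ∣ v.den ∧ ∃ w : ℚ, ¬ p ∣ w.den ∧ u - v = (p : ℚ) ^ m * w

theorem Cong.mk' {p m : ℕ} {u v : ℚ} (hu : ¬ p ∣ u.den) (hv : ¬ p ∣ v.den)
    (h : CongQ p m u v) : Cong p m u v := ⟨hu, hv, h⟩

theorem congQ_add {p m : ℕ} (hp : p.Prime) {u v w : ℚ} (h : CongQ p m u v)
    (h' : CongQ p m v w) : CongQ p m u w := by
  obtain ⟨a, ha, ha'⟩ := h
  obtain ⟨b, hb, hb'⟩ := h'
  refine ⟨a + b, ?_, by linear_combination ha' + hb'⟩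
  intro hd
  have := dvd_trans hd (Rat.add_den_dvd a b)
  rcases hp.dvd_mul.1 this with h1 | h1
  · exact ha h1
  · exact hb h1

theorem congQ_neg {p m : ℕ} {u v : ℚ} (h : CongQ p m u v) : CongQ p m (-u) (-v) := by
  obtain ⟨a, ha, ha'⟩ := h
  exact ⟨-a, by simpa using ha, by linear_combination -ha'⟩

theorem congQ_symm {p m : ℕ} {u v : ℚ} (h : CongQ p m u v) : CongQ p m v u := by
  obtain ⟨a, ha, ha'⟩ := h
  exact ⟨-a, by simpa using ha, by linear_combination -ha'⟩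

/-- Part (a). -/
def PartA (p : ℕ) [Fact p.Prime] : Prop :=
  ∀ x y : ℤ, 4 * (p : ℤ) = x ^ 2 + 123 * y ^ 2 →
    Cong p 2 (S1 p) (cp p * S2 p) ∧
    Cong p 2 (cp p * S2 p) (-(legendreSym 3 x : ℚ) * (x - p / x))

/-- Part (b). -/
def PartB (p : ℕ) [Fact p.Prime] : Prop :=
  ∀ x y : ℤ, 4 * (p : ℤ) = 41 * x ^ 2 + 3 * y ^ 2 →
    Cong p 2 (S1 p) (cp p * S2 p) ∧
    Cong p 2 (cp p * S2 p) (5 / 32 * (legendreSym 3 x : ℚ) * (41 * x - p / x)) ∧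
    Cong p 1 (x * (legendreSym 3 x : ℚ)) (-(5 / 32) * Tsum p)

/-- Part (c). -/
def PartC (p : ℕ) [Fact p.Prime] : Prop :=
  legendreSym 3 p = 1 → legendreSym 41 p = -1 →
    Cong p 1 (S1 p) (cp p * S2 p) ∧ Cong p 1 (cp p * S2 p) 0

theorem x_unit_a {p : ℕ} (h5 : 5 ≤ p) {x y : ℤ} (h3 : ¬ (3 : ℤ) ∣ x)
    (hxy : 4 * (p : ℤ) = x ^ 2 + 123 * y ^ 2) : ¬ (p : ℤ) ∣ x := by
  rintro ⟨k, rfl⟩
  have hk : k ≠ 0 := by
    rintro rfl
    exact h3 (by simp)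
  have h1 : 1 ≤ k ^ 2 := by
    have := sq_nonneg k
    have h2 : k ^ 2 ≠ 0 := pow_ne_zero 2 hk
    omega
  have h5' : (5 : ℤ) ≤ p := by exact_mod_cast h5
  nlinarith [sq_nonneg y, mul_nonneg (sq_nonneg (p : ℤ)) (sub_nonneg.2 h1)]

theorem x_unit_b {p : ℕ} (h5 : 5 ≤ p) {x y : ℤ} (h3 : ¬ (3 : ℤ) ∣ x)
    (hxy : 4 * (p : ℤ) = 41 * x ^ 2 + 3 * y ^ 2) : ¬ (p : ℤ) ∣ x := by
  rintro ⟨k, rfl⟩
  have hk : k ≠ 0 := by
    rintro rfl
    exact h3 (by simp)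
  have h1 : 1 ≤ k ^ 2 := by
    have := sq_nonneg k
    have h2 : k ^ 2 ≠ 0 := pow_ne_zero 2 hk
    omega
  have h5' : (5 : ℤ) ≤ p := by exact_mod_cast h5
  nlinarith [sq_nonneg y, mul_nonneg (sq_nonneg (p : ℤ)) (sub_nonneg.2 h1)]

theorem part_a {p : ℕ} [hf : Fact p.Prime] (h5 : 5 ≤ p) : PartA p := by
  intro x y hxy
  have hp := hf.out
  obtain ⟨h3, hp3, h41, hl3, hl41, hc⟩ := leg_a h5 hxy
  obtain ⟨he, hex⟩ := leg_three h3
  obtain ⟨e1, e2, e3⟩ := end_a hp h5 h41 hxy he hex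
  have hx := x_unit_a h5 h3 hxy
  have hx0 : (x : ℚ) ≠ 0 := by
    intro h0
    apply hx
    have : x = 0 := by exact_mod_cast h0
    simp [this]
  have r1 : -(legendreSym 3 x : ℚ) * (x - p / x) =
      ((-(legendreSym 3 x) * (x ^ 2 - p) : ℤ) : ℚ) / (x : ℤ) := by
    push_cast
    field_simp
  rw [hc, one_mul]
  refine ⟨Cong.mk' (pint_S1 hp h5) (pint_S2 hp h5) e3, Cong.mk' (pint_S2 hp h5) ?_ e2⟩
  rw [r1]
  exact pint_div hp hx

theorem part_b {p : ℕ} [hf : Fact p.Prime] (h5 : 5 ≤ p) (h41 : p ≠ 41) : PartB p := by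
  intro x y hxy
  have hp := hf.out
  obtain ⟨h3, hp6, hl3, hl41, hc⟩ := leg_b h5 h41 hxy
  obtain ⟨he, hex⟩ := leg_three h3
  obtain ⟨e1, e2, e3, e4⟩ := end_b hp h5 h41 hxy he hex
  have hx := x_unit_b h5 h3 hxy
  have hx0 : (x : ℚ) ≠ 0 := by
    intro h0
    apply hx
    have : x = 0 := by exact_mod_cast h0
    simp [this]
  have h32 : ¬ (p : ℤ) ∣ 32 := by
    intro hd
    have h1 : p ∣ 2 ^ 5 := by exact_mod_cast hd
    have := Nat.le_of_dvd (by norm_num) (hp.dvd_of_dvd_pow h1)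
    omega
  have h32x : ¬ (p : ℤ) ∣ 32 * x := by
    intro hd
    rcases (Nat.prime_iff_prime_int.1 hp).dvd_or_dvd hd with h | h
    · exact h32 h
    · exact hx h
  have hcS : ¬ p ∣ (cp p * S2 p).den := by
    have := pint_cS2 hp h5 (-1) 1
    rw [hc]
    have e : -(1025 / 1024) * S2 p = ((-1 : ℤ) : ℚ) * (1025 / 1024) ^ 1 * S2 p := by
      push_cast
      ring
    rw [e]
    exact this
  have r1 : 5 / 32 * (legendreSym 3 x : ℚ) * (41 * x - p / x) =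
      ((5 * (legendreSym 3 x) * (41 * x ^ 2 - p) : ℤ) : ℚ) / ((32 * x : ℤ) : ℚ) := by
    push_cast
    field_simp
  have r2 : (x * (legendreSym 3 x : ℚ)) = ((x * legendreSym 3 x : ℤ) : ℚ) / ((1 : ℤ) : ℚ) := by
    push_cast
    ring
  have r3 : -(5 / 32 : ℚ) = ((-5 : ℤ) : ℚ) / ((32 : ℤ) : ℚ) := by
    push_cast
    ring
  have h1 : ¬ (p : ℤ) ∣ 1 := by
    intro hd
    have h1 : p ∣ 1 := by exact_mod_cast hd
    exact hp.one_lt.ne' (Nat.dvd_one.1 h1)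
  refine ⟨Cong.mk' (pint_S1 hp h5) hcS (by rw [hc]; exact e3),
    Cong.mk' hcS ?_ (by rw [hc]; exact e2), Cong.mk' ?_ ?_ e4⟩
  · rw [r1]
    exact pint_div hp h32x
  · rw [r2]
    exact pint_div hp h1
  · rw [r3]
    exact pint_mul hp (pint_div hp h32) (pint_T hp h5)

theorem part_c {p : ℕ} [hf : Fact p.Prime] (h5 : 5 ≤ p) : PartC p := by
  intro h3 h41
  have hp := hf.out
  obtain ⟨hp3, hl41, hc⟩ := leg_c h5 h3 h41
  obtain ⟨e1, e2⟩ := pc_main h5 hp3 hl41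
  have e2' : CongQ p 1 (-1 * S2 p) 0 := by
    have := congQ_neg e2
    rw [neg_zero] at this
    rwa [neg_one_mul]
  have hcS : ¬ p ∣ (-1 * S2 p).den := by
    rw [neg_one_mul, Rat.neg_den]
    exact pint_S2 hp h5
  have h0 : ¬ p ∣ (0 : ℚ).den := by
    simpa using hp.one_lt.ne'
  rw [hc]
  exact ⟨Cong.mk' (pint_S1 hp h5) hcS (congQ_add hp e1 (congQ_symm e2')),
    Cong.mk' hcS h0 e2'⟩

theorem not_part_b : ¬ PartB 41 := by
  intro h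
  obtain ⟨h1, h2, -⟩ := h 2 0 (by norm_num)
  have hp : Nat.Prime 41 := by norm_num
  have h3 := congQ_add hp h1.2.2 h2.2.2
  have hl : legendreSym 3 2 = -1 := by decide
  have e : (5 / 32 * ((legendreSym 3 2 : ℤ) : ℚ) *
      (41 * ((2 : ℤ) : ℚ) - ((41 : ℕ) : ℚ) / ((2 : ℤ) : ℚ))) =
      5 / 32 * (-1) * (41 * 2 - 41 / 2) := by
    rw [hl]
    norm_num
  rw [e] at h3
  exact fail41 h3

end Pool.Agent.MP_2a5e5c_nt
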