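import Pool.Agent.Lib.MP_2a5e5c_nt.RedA
import Pool.Agent.Lib.MP_2a5e5c_nt.Cert

/-!
# SUN, module RedB: reduction of the sum and difference law

PROOF (see also RedA). Put `lam = a / b` with `a = ϖ^i u`, `b = ϖ^j v`, units `u, v`. The three
equations in `K[X]` multiplied by `b` are the images of `b F_j = a G_j` in `R[X]` (injectivity of
`R[X] → K[X]`), where `F_j = F_j(N₁N₂, N₁M₂ + M₁N₂, M₁M₂)` for the parameter `C s` and
`G = (N₃N₄, N₃M₄ + M₃N₄, M₃M₄)`. The reductions of the `F_j` are not all zero: `sym_ne` and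
`nobase` for the domain `k[X]` with parameter `C (red s)` (`≠ 0`, `27 C (red s) ≠ 1`); those of
the `G_j` are not all zero: `sym_ne`. If `i < j`: `v ϖ^(j-i) F_j = u G_j` and `G_j` reduces to
zero; if `i > j`: `F_j` reduces to zero. So `i = j` and `v F_j = u G_j`; reduce:
`l = red u / red v`. (`F0, F1, F2` commute with ring homomorphisms: unfold, `simp`.)
-/

namespace Pool.Agent.MP_2a5e5c_nt

open Polynomial

variable {R k K : Type*} [CommRing R] [IsDomain R] [Field k] [Field K] [Algebra R K]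
  [IsFractionRing R K] {ϖ : R} {red : R →+* k}

private lemma RedB_aux (hS : RedS ϖ red) {ι : Type*} {F G : ι → R[X]} {a b : R} (ha : a ≠ 0)
    (hb : b ≠ 0) (h : ∀ j, C b * F j = C a * G j) (hF : ¬ ∀ j, (F j).map red = 0)
    (hG : ¬ ∀ j, (G j).map red = 0) :
    ∃ l : k, l ≠ 0 ∧ ∀ j, (F j).map red = C l * (G j).map red := by
  obtain ⟨i, u, hu, rfl⟩ := hS.fac a ha
  obtain ⟨n, v, hv, rfl⟩ := hS.fac b hb
  have hϖ : red ϖ = 0 := (hS.ker ϖ).2 dvd_rfl
  have hu0 : red u ≠ 0 := (hu.map red).ne_zero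
  have hv0 : red v ≠ 0 := (hv.map red).ne_zero
  have hne : ∀ e : ℕ, C (ϖ ^ e) ≠ (0 : R[X]) := fun e => C_ne_zero.2 (pow_ne_zero e hS.ne)
  rcases lt_trichotomy i n with hin | rfl | hin
  · exfalso
    refine hG fun j => ?_
    obtain ⟨d, rfl⟩ : ∃ d, n = i + (d + 1) := ⟨n - i - 1, by omega⟩
    have h1 : C (ϖ ^ (d + 1) * v) * F j = C u * G j := by
      apply mul_left_cancel₀ (hne i)
      have := h j
      simp only [map_mul, pow_add, ← mul_assoc] at this ⊢
      exact this
    have h2 := congrArg (Polynomial.map red) h1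
    rw [Polynomial.map_mul, Polynomial.map_mul, map_C, map_C, map_mul, map_pow, hϖ,
      zero_pow (Nat.succ_ne_zero d), zero_mul, C_0, zero_mul] at h2
    exact (mul_eq_zero.1 h2.symm).resolve_left (C_ne_zero.2 hu0)
  · refine ⟨red u / red v, div_ne_zero hu0 hv0, fun j => ?_⟩
    have h1 : C v * F j = C u * G j := by
      apply mul_left_cancel₀ (hne i)
      have := h j
      simp only [map_mul, ← mul_assoc] at this ⊢
      exact this
    have h2 := congrArg (Polynomial.map red) h1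
    rw [Polynomial.map_mul, Polynomial.map_mul, map_C, map_C] at h2
    apply mul_left_cancel₀ (C_ne_zero.2 hv0)
    rw [h2, ← mul_assoc, ← C_mul, mul_div_cancel₀ _ hv0]
  · exfalso
    refine hF fun j => ?_
    obtain ⟨d, rfl⟩ : ∃ d, i = n + (d + 1) := ⟨i - n - 1, by omega⟩
    have h1 : C v * F j = C (ϖ ^ (d + 1) * u) * G j := by
      apply mul_left_cancel₀ (hne n)
      have := h j
      simp only [map_mul, pow_add, ← mul_assoc] at this ⊢
      exact this
    have h2 := congrArg (Polynomial.map red) h1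
    rw [Polynomial.map_mul, Polynomial.map_mul, map_C, map_C, map_mul, map_pow, hϖ,
      zero_pow (Nat.succ_ne_zero d), zero_mul, C_0, zero_mul] at h2
    exact (mul_eq_zero.1 h2).resolve_left (C_ne_zero.2 hv0)

private lemma RedB_F0 {A B : Type*} [CommRing A] [CommRing B] (φ : A →+* B) (s : A)
    (x y z : A[X]) : (F0 (C s) x y z).map φ = F0 (C (φ s)) (x.map φ) (y.map φ) (z.map φ) := by
  simp [F0]

private lemma RedB_F1 {A B : Type*} [CommRing A] [CommRing B] (φ : A →+* B) (s : A)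
    (x y z : A[X]) : (F1 (C s) x y z).map φ = F1 (C (φ s)) (x.map φ) (y.map φ) (z.map φ) := by
  simp [F1]

private lemma RedB_F2 {A B : Type*} [CommRing A] [CommRing B] (φ : A →+* B) (s : A)
    (x y z : A[X]) : (F2 (C s) x y z).map φ = F2 (C (φ s)) (x.map φ) (y.map φ) (z.map φ) := by
  simp [F2]

theorem red_law (hS : RedS ϖ red) {s : R} (hs : red s ≠ 0) (h27 : 27 * red s ≠ 1)
    {lam : K} (hl : lam ≠ 0) {N₁ M₁ N₂ M₂ N₃ M₃ N₄ M₄ : R[X]}
    (h₁ : N₁.map red ≠ 0 ∨ M₁.map red ≠ 0) (h₂ : N₂.map red ≠ 0 ∨ M₂.map red ≠ 0)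
    (h₃ : N₃.map red ≠ 0 ∨ M₃.map red ≠ 0) (h₄ : N₄.map red ≠ 0 ∨ M₄.map red ≠ 0)
    (h : LawRel (C (algebraMap R K s)) (C lam) (N₁.map (algebraMap R K))
      (M₁.map (algebraMap R K)) (N₂.map (algebraMap R K)) (M₂.map (algebraMap R K))
      (N₃.map (algebraMap R K)) (M₃.map (algebraMap R K)) (N₄.map (algebraMap R K))
      (M₄.map (algebraMap R K))) :
    ∃ l : k, l ≠ 0 ∧ LawRel (C (red s)) (C l) (N₁.map red) (M₁.map red) (N₂.map red)
      (M₂.map red) (N₃.map red) (M₃.map red) (N₄.map red) (M₄.map red) := by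
  obtain ⟨a, b, hb, rfl⟩ := IsFractionRing.div_surjective (A := R) lam
  have hb0 : b ≠ 0 := nonZeroDivisors.ne_zero hb
  have hbK : algebraMap R K b ≠ 0 := by
    intro h0
    exact hb0 ((IsFractionRing.injective R K) (by rw [h0, map_zero]))
  have ha0 : a ≠ 0 := by
    rintro rfl
    exact hl (by rw [map_zero, zero_div])
  have hinj : Function.Injective (Polynomial.map (algebraMap R K)) :=
    Polynomial.map_injective _ (IsFractionRing.injective R K)
  let x : R[X] := N₁ * N₂
  let y : R[X] := N₁ * M₂ + M₁ * N₂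
  let z : R[X] := M₁ * M₂
  let F : Fin 3 → R[X] := ![F0 (C s) x y z, F1 (C s) x y z, F2 (C s) x y z]
  let G : Fin 3 → R[X] := ![N₃ * N₄, N₃ * M₄ + M₃ * N₄, M₃ * M₄]
  have key : ∀ f g : R[X], f.map (algebraMap R K) =
      C (algebraMap R K a / algebraMap R K b) * g.map (algebraMap R K) → C b * f = C a * g := by
    intro f g hfg
    apply hinj
    rw [Polynomial.map_mul, Polynomial.map_mul, map_C, map_C, hfg, ← mul_assoc, ← C_mul,
      mul_div_cancel₀ _ hbK]
  obtain ⟨e0, e1, e2⟩ := h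
  have hFG : ∀ j, C b * F j = C a * G j := by
    intro j
    fin_cases j
    · refine key (F0 (C s) x y z) (N₃ * N₄) ?_
      rw [RedB_F0]
      simpa only [x, y, z, Polynomial.map_mul, Polynomial.map_add] using e0
    · refine key (F1 (C s) x y z) (N₃ * M₄ + M₃ * N₄) ?_
      rw [RedB_F1]
      simpa only [x, y, z, Polynomial.map_mul, Polynomial.map_add] using e1
    · refine key (F2 (C s) x y z) (M₃ * M₄) ?_
      rw [RedB_F2]
      simpa only [x, y, z, Polynomial.map_mul, Polynomial.map_add] using e2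
  have hF : ¬ ∀ j, (F j).map red = 0 := by
    intro hj
    have j0 : (F0 (C s) x y z).map red = 0 := hj 0
    have j1 : (F1 (C s) x y z).map red = 0 := hj 1
    have j2 : (F2 (C s) x y z).map red = 0 := hj 2
    rw [RedB_F0] at j0
    rw [RedB_F1] at j1
    rw [RedB_F2] at j2
    have h27' : 27 * (C (red s) : k[X]) ≠ 1 := by
      intro h0
      apply h27
      apply C_injective
      rw [C_mul, C_1, ← h0, map_ofNat]
    have := nobase (C_ne_zero.2 hs) h27' j0 j1 j2
    refine sym_ne h₁ h₂ ?_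
    simpa only [x, y, z, Polynomial.map_mul, Polynomial.map_add] using this
  have hG : ¬ ∀ j, (G j).map red = 0 := by
    intro hj
    have j0 : (N₃ * N₄).map red = 0 := hj 0
    have j1 : (N₃ * M₄ + M₃ * N₄).map red = 0 := hj 1
    have j2 : (M₃ * M₄).map red = 0 := hj 2
    refine sym_ne h₃ h₄ ?_
    rw [Polynomial.map_mul] at j0 j2
    rw [Polynomial.map_add, Polynomial.map_mul, Polynomial.map_mul] at j1
    exact ⟨j0, j1, j2⟩
  obtain ⟨l, hl0, hl1⟩ := RedB_aux hS ha0 hb0 hFG hF hG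
  have l0 : (F0 (C s) x y z).map red = C l * (N₃ * N₄).map red := hl1 0
  have l1 : (F1 (C s) x y z).map red = C l * (N₃ * M₄ + M₃ * N₄).map red := hl1 1
  have l2 : (F2 (C s) x y z).map red = C l * (M₃ * M₄).map red := hl1 2
  rw [RedB_F0] at l0
  rw [RedB_F1] at l1
  rw [RedB_F2] at l2
  refine ⟨l, hl0, ?_, ?_, ?_⟩
  · simpa only [x, y, z, Polynomial.map_mul, Polynomial.map_add] using l0
  · simpa only [x, y, z, Polynomial.map_mul, Polynomial.map_add] using l1
  · simpa only [x, y, z, Polynomial.map_mul, Polynomial.map_add] using l2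

end Pool.Agent.MP_2a5e5c_nt
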