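import Pool.Agent.Lib.MP_2a5e5c_nt.SqInv

/-!
# SUN, module SerR: the expansion at infinity

PROOF. Power series in `Z` over `R`. `ρ = p lam`. Put
`Nr = ∑_{i≤p} N.coeff (p-i) Z^i` (`Nr(0) = 1`, `Nr ≡ 1 mod p`),
`Dr = ∑_{i≤m} D.coeff (m-i) Z^i` (`Dr(0) = ρ`), i.e. `N(X) = X^p Nr(1/X)`,
`D(X) = X^m Dr(1/X)`. `ν` with `ν² Nr = 1`, `ν(0) = 1`, `ν ≡ 1 mod p` (`sqinv_exists`,
`sqinv_modp`). `S = Dr ν`, `S' = dS/dZ`, `T = S + 2 Z S'`.
(1) `T = Wr ν³` where `Wr = Nr Dr - Z Nr' Dr + 2 Z Nr Dr'` (from `2ν' = -ν³ Nr'`), and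
`N'D - 2ND' = X^(3m) Wr(1/X)` (`p - 2m = 1`). The equation `eq` becomes, with
`F_t = 1 + q Z (1 + t Z)²`, `F_t Wr² = ρ² (Nr³ + q Z Dr² (Nr + s Z Dr²)²)`. Multiply by `ν⁶`:
`F_t T² = ρ² (1 + q Z S² (1 + s Z S²)²)`.
(2) Let `Φ_t² F_t = 1`, `Φ_t(0) = 1`, similarly `Φ_s`; `P = ∑_{j≤m} β_j Y^j` the truncation of
`Φ_s`, `β_j = coeff j Φ_s`: `P² (1 + q Y (1 + s Y)²) ≡ 1 mod Y^(m+1)` (polynomials in `Y`).
Substitute `Y = Z S²`: `Ψ = P(Z S²)` satisfies `Ψ² (1 + q Z S² (1 + s Z S²)²) ≡ 1 mod Z^(m+1)`.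
So `(Ψ T)² ≡ ρ² Φ_t² mod Z^(m+1)`, both `Ψ T` and `ρ Φ_t` have constant term `ρ`; `2ρ ≠ 0`
(if `lam = 0` then `ρ = 0`: excluded, `modp` gives `p ∣ lam a - 1`; or treat it
separately: then the claim `p² ∣ -D(0)` would fail, but `ρ = 0` and `eq` force
`N'D = 2ND'`, impossible modulo `p²`: coefficient of `X^(p-1)`). By `sq_unique`:
`Ψ T ≡ ρ Φ_t mod Z^(m+1)`.
(3) Coefficient of `Z^m`: `ρ (coeff m Φ_t) = ∑_{j≤m} β_j x_j`, `x_j = coeff (m-j) (S^(2j) T)`.
Since `(2j+1) S^(2j) T = (2j+1) S^(2j+1) + 2 Z (S^(2j+1))'`: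
`(2j+1) x_j = (2j+1+2(m-j)) y_j = p y_j`, `y_j = coeff (m-j) (S^(2j+1))`.
(4) `coeff i S ∈ pR` for `i < m` (`Dr`: `D.coeff (m-i)`, `m-i ≥ 1`, `redD`). For `j ≥ 1`:
`y_j ∈ p^(2j+1) R` (only coefficients of index `≤ m-j < m` occur), so
`(2j+1) x_j ∈ p^(2j+2) R` and `x_j ∈ p³R`: if `p ∤ 2j+1` this is clear (`p` prime in `R`,
`2j+1` prime to `p`), if `2j+1 = p` then `x_j = y_j ∈ p^p R` (`2j + 1 ≤ p`).
`j = 0`: `x_0 = p y_0`, `y_0 = coeff m (Dr ν) = D(0) + ∑_{i<m} Dr_i ν_(m-i) ≡ D(0) mod p²`.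
So `p lam (coeff m Φ_t) ≡ p D(0) mod p³`; `coeff m Φ_t = bT q m t` (`phi_coeff`).
-/

namespace Pool.Agent.MP_2a5e5c_nt

section refl

open Polynomial

private theorem SerR_xd {R : Type*} [CommRing R] (g : R[X]) (i : ℕ) :
    (X * derivative g).coeff i = i * g.coeff i := by
  cases i with
  | zero => simp
  | succ k =>
    rw [coeff_X_mul, coeff_derivative]
    push_cast
    ring

private theorem SerR_refl {R : Type*} [CommRing R] {f : R[X]} {n : ℕ} (hf : f.natDegree ≤ n + 1) :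
    reflect n (derivative f) =
      C ((n : R) + 1) * reflect (n + 1) f - X * derivative (reflect (n + 1) f) := by
  ext i
  rw [coeff_reflect, coeff_sub, coeff_C_mul, SerR_xd, coeff_reflect, coeff_derivative]
  rcases le_or_gt i n with h | h
  · rw [revAt_le h, revAt_le (show i ≤ n + 1 by omega)]
    have e : n + 1 - i = n - i + 1 := by omega
    rw [e, Nat.cast_sub h]
    ring
  · rw [revAt_eq_self_of_lt h]
    have h1 : f.coeff (i + 1) = 0 := coeff_eq_zero_of_natDegree_lt (by omega)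
    rw [h1, zero_mul]
    rcases eq_or_lt_of_le (Nat.succ_le_of_lt h) with h2 | h2
    · rw [← h2, revAt_le le_rfl]
      push_cast
      ring
    · rw [revAt_eq_self_of_lt h2, coeff_eq_zero_of_natDegree_lt (show f.natDegree < i by omega)]
      ring

private theorem SerR_W {R : Type*} [CommRing R] {k : ℕ} {N D : R[X]}
    (hN : N.natDegree ≤ 2 * (k + 1) + 1) (hD : D.natDegree ≤ k + 1) :
    reflect (3 * (k + 1)) (derivative N * D - 2 * N * derivative D) =
      reflect (2 * (k + 1) + 1) N * reflect (k + 1) D -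
        X * derivative (reflect (2 * (k + 1) + 1) N) * reflect (k + 1) D +
        2 * X * reflect (2 * (k + 1) + 1) N * derivative (reflect (k + 1) D) := by
  have e1 : derivative N * D - 2 * N * derivative D =
      derivative N * D - C 2 * (N * derivative D) := by
    rw [C_ofNat]
    ring
  have e2 : reflect (3 * (k + 1)) (derivative N * D) =
      reflect (2 * (k + 1)) (derivative N) * reflect (k + 1) D := by
    rw [← reflect_mul _ _ (show (derivative N).natDegree ≤ 2 * (k + 1) from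
      (natDegree_derivative_le N).trans (by omega)) hD]
    congr 1
    omega
  have e3 : reflect (3 * (k + 1)) (N * derivative D) =
      reflect (2 * (k + 1) + 1) N * reflect k (derivative D) := by
    rw [← reflect_mul _ _ hN (show (derivative D).natDegree ≤ k from
      (natDegree_derivative_le D).trans (by omega))]
    congr 1
    omega
  rw [e1, reflect_sub, reflect_C_mul, e2, e3, SerR_refl hN, SerR_refl hD, C_ofNat]
  push_cast
  simp only [map_add, map_mul, map_natCast, map_one, map_ofNat]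
  ring

private theorem SerR_E {R : Type*} [CommRing R] {k : ℕ} {q t s rho : R} {N D : R[X]}
    (hN : N.natDegree ≤ 2 * (k + 1) + 1) (hD : D.natDegree ≤ k + 1)
    (eq : fC q t * (derivative N * D - 2 * N * derivative D) ^ 2 =
      C rho ^ 2 * (N ^ 3 + C q * D ^ 2 * (N + C s * D ^ 2) ^ 2)) {n d : R[X]}
    (hn : n = reflect (2 * (k + 1) + 1) N) (hd : d = reflect (k + 1) D) :
    (1 + C q * X * (1 + C t * X) ^ 2) *
        (n * d - X * derivative n * d + 2 * X * n * derivative d) ^ 2 =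
      C rho ^ 2 * (n ^ 3 + C q * X * d ^ 2 * (n + C s * X * d ^ 2) ^ 2) := by
  have hW := SerR_W hN hD
  have hWd : (derivative N * D - 2 * N * derivative D).natDegree ≤ 3 * (k + 1) := by
    refine (natDegree_sub_le _ _).trans (max_le ?_ ?_)
    · refine natDegree_mul_le.trans ?_
      have := natDegree_derivative_le N
      omega
    · refine natDegree_mul_le.trans ?_
      have h1 := natDegree_derivative_le D
      have h2 : (2 * N).natDegree ≤ N.natDegree := by
        have : (2 : R[X]) = C 2 := by rw [C_ofNat]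
        rw [this]
        exact natDegree_C_mul_le _ _
      omega
  have hf : reflect 3 (fC q t) = 1 + C q * X * (1 + C t * X) ^ 2 := by
    have e : fC q t = X ^ 3 + C q * (X ^ 2 + C (2 * t) * X ^ 1 + C (t ^ 2)) := by
      unfold fC
      simp only [map_mul, map_pow, map_ofNat]
      ring
    rw [e, reflect_add, reflect_C_mul, reflect_add, reflect_add, reflect_monomial,
      reflect_monomial, reflect_C_mul_X_pow, reflect_C, revAt_le (le_refl 3),
      revAt_le (show 2 ≤ 3 by norm_num), revAt_le (show 1 ≤ 3 by norm_num)]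
    simp only [map_mul, map_pow, map_ofNat]
    norm_num
    ring
  have hfd : (fC q t).natDegree ≤ 3 := by
    unfold fC
    refine (natDegree_add_le _ _).trans (max_le (natDegree_X_pow_le 3) ?_)
    refine (natDegree_C_mul_le _ _).trans ?_
    refine natDegree_pow_le.trans ?_
    have h1 : (X + C t).natDegree ≤ 1 :=
      (natDegree_add_le _ _).trans (max_le natDegree_X_le ((natDegree_C t).le.trans zero_le_one))
    omega
  have hD2 : (D * D).natDegree ≤ (k + 1) + (k + 1) := natDegree_mul_le.trans (by omega)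
  have hA : (1 * (D * D)).natDegree ≤ 1 + ((k + 1) + (k + 1)) := by
    rw [one_mul]
    omega
  have hB : (N + C s * (1 * (D * D))).natDegree ≤ 2 * (k + 1) + 1 := by
    refine (natDegree_add_le _ _).trans (max_le hN ?_)
    refine (natDegree_C_mul_le _ _).trans (hA.trans (by omega))
  have hB' : reflect (2 * (k + 1) + 1) (N + C s * (1 * (D * D))) = n + C s * (X * (d * d)) := by
    have e : 2 * (k + 1) + 1 = 1 + ((k + 1) + (k + 1)) := by omega
    rw [reflect_add, reflect_C_mul, ← hn]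
    conv_lhs => rw [e]
    rw [reflect_mul _ _ (natDegree_one.le.trans zero_le_one) hD2, reflect_mul _ _ hD hD, ← hd,
      reflect_one, pow_one]
  have hL : reflect (3 + (3 * (k + 1) + 3 * (k + 1)))
      (fC q t * ((derivative N * D - 2 * N * derivative D) *
        (derivative N * D - 2 * N * derivative D))) =
      (1 + C q * X * (1 + C t * X) ^ 2) *
        ((n * d - X * derivative n * d + 2 * X * n * derivative d) *
        (n * d - X * derivative n * d + 2 * X * n * derivative d)) := by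
    rw [reflect_mul _ _ hfd (natDegree_mul_le.trans (by omega)), reflect_mul _ _ hWd hWd, hf, hW,
      hn, hd]
  have hN3 : reflect (3 + (3 * (k + 1) + 3 * (k + 1))) (N * (N * N)) = n * (n * n) := by
    have e : 3 + (3 * (k + 1) + 3 * (k + 1)) =
        (2 * (k + 1) + 1) + ((2 * (k + 1) + 1) + (2 * (k + 1) + 1)) := by omega
    rw [e, reflect_mul _ _ hN (natDegree_mul_le.trans (by omega)), reflect_mul _ _ hN hN, hn]
  have hQ : reflect (3 + (3 * (k + 1) + 3 * (k + 1)))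
      (1 * ((D * D) * ((N + C s * (1 * (D * D))) * (N + C s * (1 * (D * D)))))) =
      X * ((d * d) * ((n + C s * (X * (d * d))) * (n + C s * (X * (d * d))))) := by
    have e : 3 + (3 * (k + 1) + 3 * (k + 1)) =
        1 + (((k + 1) + (k + 1)) + ((2 * (k + 1) + 1) + (2 * (k + 1) + 1))) := by omega
    rw [e, reflect_mul _ _ (natDegree_one.le.trans zero_le_one)
      (natDegree_mul_le.trans (add_le_add hD2 (natDegree_mul_le.trans (add_le_add hB hB)))),
      reflect_mul _ _ hD2 (natDegree_mul_le.trans (add_le_add hB hB)), reflect_mul _ _ hD hD,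
      reflect_mul _ _ hB hB, hB', ← hd, reflect_one, pow_one]
  have hR : reflect (3 + (3 * (k + 1) + 3 * (k + 1)))
      (C (rho ^ 2) * (N * (N * N) + C q *
        (1 * ((D * D) * ((N + C s * (1 * (D * D))) * (N + C s * (1 * (D * D)))))))) =
      C (rho ^ 2) * (n * (n * n) + C q *
        (X * ((d * d) * ((n + C s * (X * (d * d))) * (n + C s * (X * (d * d))))))) := by
    rw [reflect_C_mul, reflect_add, reflect_C_mul, hN3, hQ]
  have key : fC q t * ((derivative N * D - 2 * N * derivative D) *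
        (derivative N * D - 2 * N * derivative D)) =
      C (rho ^ 2) * (N * (N * N) + C q *
        (1 * ((D * D) * ((N + C s * (1 * (D * D))) * (N + C s * (1 * (D * D))))))) := by
    rw [map_pow]
    linear_combination eq
  rw [key, hR, map_pow] at hL
  linear_combination -hL

end refl

open PowerSeries

private theorem SerR_pow {R : Type*} [CommRing R] {a : R} {m : ℕ} {f : R⟦X⟧}
    (hf : ∀ i < m, a ∣ coeff i f) (n : ℕ) : ∀ i < m, a ^ n ∣ coeff i (f ^ n) := by
  induction n with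
  | zero =>
    intro i _
    rw [pow_zero]
    exact one_dvd _
  | succ n ih =>
    intro i hi
    rw [pow_succ, pow_succ, coeff_mul]
    refine Finset.dvd_sum fun x hx => ?_
    have h := Finset.HasAntidiagonal.mem_antidiagonal.1 hx
    exact mul_dvd_mul (ih _ (by omega)) (hf _ (by omega))

/-- the equation for `T` -/
private theorem SerR_T {R : Type*} [CommRing R] {q t s rho : R} {n d ν : R⟦X⟧}
    (hν : ν ^ 2 * n = 1)
    (E : (1 + C q * X * (1 + C t * X) ^ 2) *
        (n * d - X * d⁄dX R n * d + 2 * X * n * d⁄dX R d) ^ 2 =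
      C rho ^ 2 * (n ^ 3 + C q * X * d ^ 2 * (n + C s * X * d ^ 2) ^ 2)) :
    (1 + C q * X * (1 + C t * X) ^ 2) * (d * ν + 2 * X * d⁄dX R (d * ν)) ^ 2 =
      C rho ^ 2 * (1 + C q * (X * (d * ν) ^ 2) * (1 + C s * (X * (d * ν) ^ 2)) ^ 2) := by
  have h1 : d⁄dX R (ν ^ 2 * n) = 0 := by
    rw [hν]
    exact Derivation.map_one_eq_zero _
  have h2 : 2 * d⁄dX R ν + ν ^ 3 * d⁄dX R n = 0 := by
    rw [Derivation.leibniz, pow_two, Derivation.leibniz] at h1
    simp only [smul_eq_mul] at h1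
    linear_combination ν * h1 - 2 * d⁄dX R ν * hν
  have h3 : d * ν + 2 * X * d⁄dX R (d * ν) =
      (n * d - X * d⁄dX R n * d + 2 * X * n * d⁄dX R d) * ν ^ 3 := by
    rw [Derivation.leibniz]
    simp only [smul_eq_mul]
    linear_combination (-(d * ν) - 2 * X * d⁄dX R d * ν) * hν + X * d * h2
  rw [h3, mul_pow, ← mul_assoc, E]
  have h4 : n = n * (ν ^ 2 * n) := by rw [hν, mul_one]
  have e : C rho ^ 2 * (n ^ 3 + C q * X * d ^ 2 * (n + C s * X * d ^ 2) ^ 2) * (ν ^ 3) ^ 2 =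
      C rho ^ 2 * ((ν ^ 2 * n) ^ 3 + C q * (X * (d * ν) ^ 2) *
        (ν ^ 2 * n + C s * (X * (d * ν) ^ 2)) ^ 2) := by ring
  rw [e, hν, one_pow]

/-- the truncation of the inverse square root -/
private theorem SerR_trunc {R : Type*} [CommRing R] {q s : R} {Φ : R⟦X⟧} (m : ℕ)
    (h : Φ ^ 2 * (1 + C q * X * (1 + C s * X) ^ 2) = 1) (y : R⟦X⟧) :
    y ^ (m + 1) ∣ (Polynomial.aeval y (trunc (m + 1) Φ)) ^ 2 *
      (1 + C q * y * (1 + C s * y) ^ 2) - 1 := by
  have h1 : (Polynomial.X : Polynomial R) ^ (m + 1) ∣ (trunc (m + 1) Φ) ^ 2 *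
      (1 + Polynomial.C q * Polynomial.X * (1 + Polynomial.C s * Polynomial.X) ^ 2) - 1 := by
    rw [Polynomial.X_pow_dvd_iff]
    intro i hi
    have h2 : (X : R⟦X⟧) ^ (m + 1) ∣ (((trunc (m + 1) Φ) ^ 2 *
      (1 + Polynomial.C q * Polynomial.X * (1 + Polynomial.C s * Polynomial.X) ^ 2) - 1 :
        Polynomial R) : R⟦X⟧) := by
      have h3 := eq_X_pow_mul_shift_add_trunc (m + 1) Φ
      obtain ⟨w, hw⟩ : ∃ w, Φ = X ^ (m + 1) * w + (trunc (m + 1) Φ : R⟦X⟧) := ⟨_, h3⟩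
      have h4 : (trunc (m + 1) Φ : R⟦X⟧) = Φ - X ^ (m + 1) * w := by
        rw [eq_sub_iff_add_eq, add_comm]
        exact hw.symm
      push_cast
      rw [h4]
      refine ⟨(X ^ (m + 1) * w ^ 2 - 2 * Φ * w) * (1 + C q * X * (1 + C s * X) ^ 2), ?_⟩
      linear_combination h
    rw [X_pow_dvd_iff] at h2
    have h3 := h2 i hi
    rwa [Polynomial.coeff_coe] at h3
  obtain ⟨Q, hQ⟩ := h1
  have h2 := congrArg (Polynomial.aeval y) hQ
  simp only [map_sub, map_mul, map_pow, map_add, map_one, Polynomial.aeval_X,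
    Polynomial.aeval_C] at h2
  exact ⟨Polynomial.aeval y Q, h2⟩

private theorem SerR_coprime {R : Type*} [CommRing R] {p : ℕ} (hp : p.Prime) {k j : ℕ}
    (hj : ¬ p ∣ k) {x : R} (h : (p : R) ^ j ∣ (k : R) * x) : (p : R) ^ j ∣ x := by
  have h1 : IsCoprime ((p : ℤ) ^ j) (k : ℤ) := by
    refine IsCoprime.pow_left ?_
    rw [Nat.isCoprime_iff_coprime]
    exact (Nat.Prime.coprime_iff_not_dvd hp).2 hj
  obtain ⟨a, b, hab⟩ := h1
  have h2 : ((a : ℤ) : R) * (p : R) ^ j + ((b : ℤ) : R) * (k : R) = 1 := by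
    have h3 := congrArg (fun z : ℤ => (z : R)) hab
    push_cast at h3
    exact h3
  obtain ⟨c, hc⟩ := h
  refine ⟨(a : ℤ) * x + (b : ℤ) * c, ?_⟩
  linear_combination (-x) * h2 + ((b : ℤ) : R) * hc

/-- the sequence `x_j` -/
private theorem SerR_x {R : Type*} [CommRing R] {S : R⟦X⟧} {p m j : ℕ} (hm : p = 2 * m + 1)
    (hj : j ≤ m) :
    ((2 * j + 1 : ℕ) : R) * coeff (m - j) (S ^ (2 * j) * (S + 2 * X * d⁄dX R S)) =
      (p : R) * coeff (m - j) (S ^ (2 * j + 1)) := by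
  have h1 : C ((2 * j + 1 : ℕ) : R) * (S ^ (2 * j) * (S + 2 * X * d⁄dX R S)) =
      C ((2 * j + 1 : ℕ) : R) * S ^ (2 * j + 1) + C 2 * (X * d⁄dX R (S ^ (2 * j + 1))) := by
    rw [derivative_pow, Nat.add_sub_cancel, map_natCast, map_ofNat]
    push_cast
    ring
  have h2 : coeff (m - j) (X * d⁄dX R (S ^ (2 * j + 1))) =
      ((m - j : ℕ) : R) * coeff (m - j) (S ^ (2 * j + 1)) := by
    rcases Nat.eq_zero_or_pos (m - j) with h | h
    · rw [h, coeff_zero_X_mul]
      simp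
    · obtain ⟨i, hi⟩ := Nat.exists_eq_succ_of_ne_zero h.ne'
      rw [hi, coeff_succ_X_mul, coeff_derivative]
      push_cast
      ring
  have h3 := congrArg (coeff (m - j)) h1
  rw [coeff_C_mul, map_add, coeff_C_mul, coeff_C_mul, h2] at h3
  rw [h3, hm, Nat.cast_sub hj]
  push_cast
  ring

/-- comparison of the two square roots -/
private theorem SerR_sq {R : Type*} [CommRing R] [IsDomain R] [CharZero R] {m : ℕ}
    {q t s rho : R} {S T Ψ Φ w : R⟦X⟧} (hrho : rho ≠ 0)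
    (hw : Ψ ^ 2 * (1 + C q * (X * S ^ 2) * (1 + C s * (X * S ^ 2)) ^ 2) - 1 =
      (X * S ^ 2) ^ (m + 1) * w)
    (E2 : (1 + C q * X * (1 + C t * X) ^ 2) * T ^ 2 =
      C rho ^ 2 * (1 + C q * (X * S ^ 2) * (1 + C s * (X * S ^ 2)) ^ 2))
    (hΦ : Φ ^ 2 * (1 + C q * X * (1 + C t * X) ^ 2) = 1)
    (hΦ0 : constantCoeff Φ = 1) (cPsi : constantCoeff Ψ = 1) (cT : constantCoeff T = rho) :
    coeff m (Ψ * T) = rho * coeff m Φ := by
  have hsq : (X : R⟦X⟧) ^ (m + 1) ∣ (Ψ * T) ^ 2 - (C rho * Φ) ^ 2 := by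
    refine ⟨C rho ^ 2 * Φ ^ 2 * (S ^ 2) ^ (m + 1) * w, ?_⟩
    rw [mul_pow] at hw
    generalize (1 + C q * (X * S ^ 2) * (1 + C s * (X * S ^ 2)) ^ 2 : R⟦X⟧) = A at hw E2
    generalize (1 + C q * X * (1 + C t * X) ^ 2 : R⟦X⟧) = B at hΦ E2
    generalize (X : R⟦X⟧) ^ (m + 1) = Z at hw ⊢
    generalize (S ^ 2) ^ (m + 1) = U at hw ⊢
    generalize (C rho : R⟦X⟧) = r at E2 ⊢
    linear_combination (-(Ψ * T) ^ 2) * hΦ + Ψ ^ 2 * Φ ^ 2 * E2 + r ^ 2 * Φ ^ 2 * hw
  have hd := sq_unique (f := Ψ * T) (g := C rho * Φ) (n := m)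
    (by
      rw [map_mul, cPsi, cT, one_mul]
      exact mul_ne_zero two_ne_zero hrho)
    (by
      rw [map_mul, map_mul, cPsi, cT, hΦ0, constantCoeff_C, one_mul, mul_one]) hsq
  rw [X_pow_dvd_iff] at hd
  have h1 := hd m (Nat.lt_succ_self m)
  rw [map_sub, coeff_C_mul, sub_eq_zero] at h1
  exact h1

/-- the constant coefficient of the substituted polynomial -/
private theorem SerR_Psi0 {R : Type*} [CommRing R] (P : Polynomial R) (y : R⟦X⟧)
    (hy : constantCoeff y = 0) :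
    constantCoeff (Polynomial.aeval y P) = P.coeff 0 := by
  have h1 := Polynomial.X_mul_divX_add P
  have h2 := congrArg (fun f : Polynomial R => constantCoeff (Polynomial.aeval y f)) h1
  simp only [map_add, map_mul, Polynomial.aeval_X, hy, zero_mul, zero_add,
    Polynomial.aeval_C] at h2
  rw [← h2]
  exact constantCoeff_C _

/-- the coefficient sum -/
private theorem SerR_Psi {R : Type*} [CommRing R] {m : ℕ} {P : Polynomial R}
    (hP : P.natDegree < m + 1) (S T : R⟦X⟧) :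
    coeff m (Polynomial.aeval (X * S ^ 2) P * T) =
      ∑ j ∈ Finset.range (m + 1), P.coeff j * coeff (m - j) (S ^ (2 * j) * T) := by
  rw [Polynomial.aeval_eq_sum_range' hP, Finset.sum_mul, map_sum]
  refine Finset.sum_congr rfl fun j hj => ?_
  have hj' := Finset.mem_range.1 hj
  have e : P.coeff j • (X * S ^ 2) ^ j * T = P.coeff j • (X ^ j * (S ^ (2 * j) * T)) := by
    rw [smul_mul_assoc, mul_pow, ← pow_mul, mul_assoc]
  rw [e, map_smul, coeff_X_pow_mul', if_pos (by omega), smul_eq_mul]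

/-- the coefficients `x_j`, `j ≥ 1` -/
private theorem SerR_xj {R : Type*} [CommRing R] [IsDomain R] {S : R⟦X⟧} {p m : ℕ}
    (hp : p.Prime) (h5 : 5 ≤ p) (hm : p = 2 * m + 1) (hp0 : (p : R) ≠ 0)
    (cSi : ∀ i < m, (p : R) ∣ coeff i S) (j : ℕ) (h1 : 1 ≤ j) (h2 : j ≤ m) :
    (p : R) ^ 3 ∣ coeff (m - j) (S ^ (2 * j) * (S + 2 * X * d⁄dX R S)) := by
  have h3 := SerR_x (S := S) hm h2
  have h6 : (p : R) ^ (2 * j + 1) ∣ coeff (m - j) (S ^ (2 * j + 1)) :=
    SerR_pow cSi (2 * j + 1) (m - j) (by omega)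
  generalize coeff (m - j) (S ^ (2 * j) * (S + 2 * X * d⁄dX R S)) = x at h3 ⊢
  generalize coeff (m - j) (S ^ (2 * j + 1)) = y at h3 h6
  by_cases h7 : p ∣ 2 * j + 1
  · have h8 : 2 * j + 1 = p := le_antisymm (by omega) (Nat.le_of_dvd (by omega) h7)
    rw [h8] at h3
    have h9 := mul_left_cancel₀ hp0 h3
    rw [h9]
    exact (pow_dvd_pow _ (by omega)).trans h6
  · refine SerR_coprime hp h7 ?_
    rw [h3]
    exact ((pow_dvd_pow _ (by omega)).trans h6).mul_left _

/-- the final congruence -/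
private theorem SerR_fin {R : Type*} [CommRing R] [IsDomain R] {S : R⟦X⟧} {p m : ℕ}
    (hp : p.Prime) (h5 : 5 ≤ p) (hm : p = 2 * m + 1) (hp0 : (p : R) ≠ 0)
    (cSi : ∀ i < m, (p : R) ∣ coeff i S) {d0 lam b : R}
    (cSm : (p : R) ^ 2 ∣ coeff m S - d0) {P : Polynomial R} (hPd : P.natDegree < m + 1)
    (hP0 : P.coeff 0 = 1)
    (hc : coeff m (Polynomial.aeval (X * S ^ 2) P * (S + 2 * X * d⁄dX R S)) = p * lam * b) :
    (p : R) ^ 2 ∣ lam * b - d0 := by
  have hx0 : coeff m (S + 2 * X * d⁄dX R S) = p * coeff m S := by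
    have h3 := SerR_x (S := S) hm (Nat.zero_le m)
    rw [Nat.mul_zero, pow_zero, one_mul, Nat.sub_zero, Nat.zero_add, Nat.cast_one, one_mul,
      pow_one] at h3
    exact h3
  have hxj := SerR_xj hp h5 hm hp0 cSi
  have hfin : (p : R) ^ 3 ∣ p * lam * b - p * d0 := by
    rw [← hc, SerR_Psi hPd, Finset.sum_range_succ', hP0, Nat.mul_zero, pow_zero, one_mul, one_mul,
      Nat.sub_zero, hx0]
    have e : ∀ a : R, a + (p : R) * coeff m S - p * d0 =
        a + (p : R) * (coeff m S - d0) := fun a => by ring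
    rw [e]
    refine dvd_add (Finset.dvd_sum fun j hj => ?_) ?_
    · have hj' := Finset.mem_range.1 hj
      exact (hxj (j + 1) (by omega) (by omega)).mul_left _
    · rw [pow_succ' (p : R) 2]
      exact mul_dvd_mul_left _ cSm
  have e : (p : R) * lam * b - p * d0 = p * (lam * b - d0) := by ring
  rw [e, pow_succ' (p : R) 2] at hfin
  exact (mul_dvd_mul_iff_left hp0).1 hfin

/-- the equation for the reversed polynomials, as power series -/
private theorem SerR_E' {R : Type*} [CommRing R] {q t s rho : R} {n d : Polynomial R}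
    (E : (1 + Polynomial.C q * Polynomial.X * (1 + Polynomial.C t * Polynomial.X) ^ 2) *
        (n * d - Polynomial.X * Polynomial.derivative n * d +
          2 * Polynomial.X * n * Polynomial.derivative d) ^ 2 =
      Polynomial.C rho ^ 2 * (n ^ 3 + Polynomial.C q * Polynomial.X * d ^ 2 *
        (n + Polynomial.C s * Polynomial.X * d ^ 2) ^ 2)) :
    (1 + C q * X * (1 + C t * X) ^ 2) *
        ((n : R⟦X⟧) * (d : R⟦X⟧) - X * d⁄dX R (n : R⟦X⟧) * (d : R⟦X⟧) +
          2 * X * (n : R⟦X⟧) * d⁄dX R (d : R⟦X⟧)) ^ 2 =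
      C rho ^ 2 * ((n : R⟦X⟧) ^ 3 + C q * X * (d : R⟦X⟧) ^ 2 *
        ((n : R⟦X⟧) + C s * X * (d : R⟦X⟧) ^ 2) ^ 2) := by
  have E' := congrArg (fun f : Polynomial R => (f : R⟦X⟧)) E
  have h2 : ((2 : Polynomial R) : R⟦X⟧) = 2 := by
    have := Polynomial.coe_C (2 : R)
    rw [map_ofNat, map_ofNat] at this
    exact this
  simp only [Polynomial.coe_mul, Polynomial.coe_add, Polynomial.coe_sub, Polynomial.coe_pow,
    Polynomial.coe_one, Polynomial.coe_C, Polynomial.coe_X, h2] at E'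
  rw [← derivative_coe, ← derivative_coe] at E'
  exact E'

/-- the coefficients of `S = D1 ν` -/
private theorem SerR_S {R : Type*} [CommRing R] {p m : ℕ} {d ν : R⟦X⟧} {d0 : R}
    (cD1 : ∀ i < m, (p : R) ∣ coeff i d) (cDm : coeff m d = d0) (hν0 : constantCoeff ν = 1)
    (hνp : ∀ i, (p : R) ∣ coeff i (ν - 1)) :
    (∀ i < m, (p : R) ∣ coeff i (d * ν)) ∧ (p : R) ^ 2 ∣ coeff m (d * ν) - d0 := by
  constructor
  · intro i hi
    rw [coeff_mul]
    refine Finset.dvd_sum fun x hx => ?_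
    have h1 := Finset.HasAntidiagonal.mem_antidiagonal.1 hx
    exact (cD1 _ (by omega)).mul_right _
  · rw [coeff_mul, Finset.Nat.sum_antidiagonal_eq_sum_range_succ
      (fun a b => coeff a d * coeff b ν), Finset.sum_range_succ, Nat.sub_self,
      coeff_zero_eq_constantCoeff_apply, hν0, mul_one, cDm, add_sub_cancel_right]
    refine Finset.dvd_sum fun i hi => ?_
    have hi' := Finset.mem_range.1 hi
    rw [pow_two]
    refine mul_dvd_mul (cD1 i hi') ?_
    have h1 := hνp (m - i)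
    rwa [map_sub, coeff_one, if_neg (by omega), sub_zero] at h1

theorem series_main {R : Type*} [CommRing R] [IsDomain R] [CharZero R] {p m : ℕ}
    (hp : p.Prime) (h5 : 5 ≤ p) (hm : p = 2 * m + 1) (hpR : Prime (p : R)) {q t s lam : R}
    (h4 : 4 * q = 1) {N D : Polynomial R} (h : IsogData R p m q t s (p * lam) N D)
    (hl : lam ≠ 0) :
    (p : R) ^ 2 ∣ lam * bT q m t - D.coeff 0 := by
  have hp0 : (p : R) ≠ 0 := hpR.ne_zero
  obtain ⟨k, hk⟩ : ∃ k, m = k + 1 := Nat.exists_eq_succ_of_ne_zero (by omega)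
  have hpk : p = 2 * (k + 1) + 1 := by omega
  -- the reversed polynomials
  obtain ⟨N1, hN1⟩ : ∃ N1, N1 = Polynomial.reflect (2 * (k + 1) + 1) N := ⟨_, rfl⟩
  obtain ⟨D1, hD1⟩ : ∃ D1, D1 = Polynomial.reflect (k + 1) D := ⟨_, rfl⟩
  have hNd : N.natDegree ≤ 2 * (k + 1) + 1 := by rw [h.degN, hpk]
  have hDd : D.natDegree ≤ k + 1 := by
    have := h.degD
    omega
  have E' := SerR_E' (SerR_E hNd hDd h.eq hN1 hD1)
  have cN0 : constantCoeff (N1 : R⟦X⟧) = 1 := by
    rw [← coeff_zero_eq_constantCoeff_apply, Polynomial.coeff_coe, hN1, Polynomial.coeff_reflect,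
      Polynomial.revAt_le (Nat.zero_le _), Nat.sub_zero]
    have h1 := h.monic
    rw [Polynomial.Monic, Polynomial.leadingCoeff, h.degN, hpk] at h1
    exact h1
  have cN : ∀ i, (p : R) ∣ coeff i ((N1 : R⟦X⟧) - 1) := by
    intro i
    rcases Nat.eq_zero_or_pos i with hi | hi
    · rw [hi, map_sub, coeff_zero_eq_constantCoeff_apply, cN0, coeff_zero_one, sub_self]
      exact dvd_zero _
    · rw [map_sub, coeff_one, if_neg hi.ne', sub_zero, Polynomial.coeff_coe, hN1,
        Polynomial.coeff_reflect]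
      rcases le_or_gt i (2 * (k + 1) + 1) with h1 | h1
      · rw [Polynomial.revAt_le h1]
        exact h.redN _ (by omega)
      · rw [Polynomial.revAt_eq_self_of_lt h1,
          Polynomial.coeff_eq_zero_of_natDegree_lt (lt_of_le_of_lt hNd h1)]
        exact dvd_zero _
  have cD : ∀ i, i ≤ m → coeff i (D1 : R⟦X⟧) = D.coeff (m - i) := by
    intro i hi
    rw [Polynomial.coeff_coe, hD1, Polynomial.coeff_reflect, ← hk, Polynomial.revAt_le hi]
  have cD1 : ∀ i < m, (p : R) ∣ coeff i (D1 : R⟦X⟧) := by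
    intro i hi
    rw [cD i hi.le]
    exact h.redD _ (by omega)
  have cDm : coeff m (D1 : R⟦X⟧) = D.coeff 0 := by rw [cD m le_rfl, Nat.sub_self]
  have cD0 : constantCoeff (D1 : R⟦X⟧) = p * lam := by
    rw [← coeff_zero_eq_constantCoeff_apply, cD 0 (Nat.zero_le _), Nat.sub_zero, h.leadD]
  obtain ⟨ν, hν0, hν⟩ := sqinv_exists h4 (N1 : R⟦X⟧) cN0
  have hνp := sqinv_modp h4 hν0 hν cN
  have E2 := SerR_T hν E'
  obtain ⟨cSi, cSm⟩ := SerR_S cD1 cDm hν0 hνp
  have cS0 : constantCoeff ((D1 : R⟦X⟧) * ν) = p * lam := by rw [map_mul, hν0, mul_one, cD0]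
  clear hν0 hν hνp cN cN0 cD cD1 cDm cD0 E' hN1 hD1 hNd hDd
  generalize (D1 : R⟦X⟧) * ν = S at E2 cSi cSm cS0
  -- the inverse square roots
  obtain ⟨Φt, hΦt0, hΦt⟩ := sqinv_exists h4 (1 + C q * X * (1 + C t * X) ^ 2) (by simp)
  obtain ⟨Φs, hΦs0, hΦs⟩ := sqinv_exists h4 (1 + C q * X * (1 + C s * X) ^ 2) (by simp)
  have hb := phi_coeff h4 t hΦt0 hΦt m
  obtain ⟨w, hw⟩ := SerR_trunc m hΦs (X * S ^ 2)
  have hP0 : (trunc (m + 1) Φs).coeff 0 = 1 := by
    rw [coeff_trunc, if_pos (Nat.succ_pos m), coeff_zero_eq_constantCoeff_apply, hΦs0]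
  have hPd : (trunc (m + 1) Φs).natDegree < m + 1 := natDegree_trunc_lt _ _
  generalize trunc (m + 1) Φs = P at hw hP0 hPd
  have cPsi := SerR_Psi0 P (X * S ^ 2) (by rw [map_mul, constantCoeff_X, zero_mul])
  rw [hP0] at cPsi
  have cT : constantCoeff (S + 2 * X * d⁄dX R S) = p * lam := by
    rw [map_add, cS0, map_mul, map_mul, constantCoeff_X, mul_zero, zero_mul, add_zero]
  have hc := SerR_sq (mul_ne_zero hp0 hl) hw E2 hΦt hΦt0 cPsi cT
  rw [hb] at hc
  exact SerR_fin hp h5 hm hp0 cSi cSm hPd hP0 hc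

end Pool.Agent.MP_2a5e5c_nt
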