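import Pool.Agent.Lib.MP_2a5e5c_nt.Seq

/-!
# SUN, module SqInv: inverse square roots of power series

PROOF. `sqinv_exists`: `u = 1 + v`, `v(0) = 0`. Construct the coefficients of `ν` recursively: the
equation `(ν² u).coeff n = 0` (`n ≥ 1`) reads `2 ν_n + (terms in ν_i, i < n) = 0` and `2` is
invertible (`4q = 1`). Alternatively `ν = ∑ (-1)^j C(2j,j) q^j v^j`. `sqinv_modp`: if all
coefficients of `u - 1` are divisible by `a` then those of `ν - 1`: induction on `n` in
`ν² u = 1`: `ν² - 1 = ν²(1 - u)`, `(ν - 1)(ν + 1)` has coefficients in `(a)`, and `ν + 1` is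
invertible (constant term 2). `sq_unique`: in a domain, `a² ≡ b² mod X^(n+1)`, same constant
term `c ≠ 0`, `2c ≠ 0`: `(a - b)(a + b) ≡ 0`, `a + b` has nonzero constant term, so
`a ≡ b mod X^(n+1)`. `phi_coeff`: with `Φ = ∑_j (-1)^j C(2j,j) q^j (q X (1+tX)²)^j` one has
`Φ² (1 + q X (1+tX)²) = 1` (`∑ C(2j,j) x^j` is the inverse square root of `1 - 4x`: convolution of
central binomials is `4^n`; with `-x/4·4…`: `4q = 1`); by uniqueness (`sq_unique`-like, units)
the coefficient of `X^m` of any `Φ` with `Φ² (…) = 1`, `Φ(0) = 1` is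
`∑_j (-1)^j C(2j,j) q^(2j) C(2j, m-j) t^(m-j)`, which is `bT` with `k = m - j`
(`C(2j, m-j) = C(2(m-k), k)`).
-/

namespace Pool.Agent.MP_2a5e5c_nt

open PowerSeries

variable {R : Type*} [CommRing R]

/-- The series of the central binomial coefficients is the inverse square root of `1 - 4X`. -/
private theorem SqInv_central :
    (PowerSeries.mk (fun n => (Nat.centralBinom n : ℤ))) ^ 2 * (1 - 4 * X : ℤ⟦X⟧) = 1 := by
  set c : ℤ⟦X⟧ := PowerSeries.mk (fun n => (Nat.centralBinom n : ℤ)) with hc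
  have hode : (1 - 4 * X : ℤ⟦X⟧) * derivative ℤ c = 2 * c := by
    ext n
    have e4 : (4 : ℤ⟦X⟧) = C 4 := by simp
    have e2 : (2 : ℤ⟦X⟧) = C 2 := by simp
    rw [sub_mul, one_mul, e4, e2, mul_assoc, map_sub, coeff_C_mul, coeff_C_mul, coeff_derivative,
      hc, coeff_mk]
    cases n with
    | zero =>
      simp [Nat.centralBinom]
    | succ m =>
      rw [coeff_succ_X_mul, coeff_derivative, coeff_mk]
      have h := Nat.succ_mul_centralBinom_succ (m + 1)
      have h' : ((m : ℤ) + 1 + 1) * (Nat.centralBinom (m + 1 + 1) : ℤ) =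
          2 * (2 * ((m : ℤ) + 1) + 1) * (Nat.centralBinom (m + 1) : ℤ) := by
        exact_mod_cast h
      push_cast
      linear_combination h'
  apply derivative.ext
  · rw [derivative_one, Derivation.leibniz, Derivation.leibniz_pow]
    have h1 : derivative ℤ (1 - 4 * X : ℤ⟦X⟧) = -4 := by
      have e4 : (4 : ℤ⟦X⟧) = C 4 := by simp
      rw [map_sub, derivative_one, Derivation.leibniz, e4, derivative_C, derivative_X]
      simp
    rw [h1]
    simp only [smul_eq_mul, nsmul_eq_mul]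
    push_cast
    linear_combination (2 * c) * hode
  · simp [hc, Nat.centralBinom]

/-- The series `∑ (-1)^j C(2j,j) q^j X^j`. -/
private noncomputable def SqInv_B (q : R) : R⟦X⟧ :=
  PowerSeries.mk (fun j => (-q) ^ j * (Nat.centralBinom j : R))

private theorem SqInv_B_sq {q : R} (h4 : 4 * q = 1) : (SqInv_B q) ^ 2 * (1 + X) = 1 := by
  have h := congrArg (fun f : ℤ⟦X⟧ => rescale (-q) (PowerSeries.map (Int.castRingHom R) f))
    SqInv_central
  simp only [map_mul, map_pow, map_sub, map_one, PowerSeries.map_X, map_ofNat] at h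
  have hB : rescale (-q) (PowerSeries.map (Int.castRingHom R)
      (PowerSeries.mk (fun n => (Nat.centralBinom n : ℤ)))) = SqInv_B q := by
    ext n
    rw [coeff_rescale, coeff_map, coeff_mk, SqInv_B, coeff_mk]
    simp
  have hX : (1 : R⟦X⟧) - 4 * rescale (-q) X = 1 + X := by
    rw [rescale_X]
    have e4 : (4 : R⟦X⟧) = C 4 := (map_ofNat C 4).symm
    rw [e4, ← mul_assoc, ← map_mul]
    have : (4 : R) * -q = -1 := by linear_combination -h4
    rw [this, map_neg, map_one]
    ring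
  rw [hB, hX] at h
  exact h

private theorem SqInv_two {q : R} (h4 : 4 * q = 1) {f : R⟦X⟧} (hf : constantCoeff f = 2) :
    IsUnit f := by
  rw [isUnit_iff_constantCoeff, hf]
  exact IsUnit.of_mul_eq_one (2 * q) (by linear_combination h4)

private theorem SqInv_subst {q : R} (h4 : 4 * q = 1) {v : R⟦X⟧} (hv : constantCoeff v = 0) :
    constantCoeff ((SqInv_B q).subst v) = 1 ∧ ((SqInv_B q).subst v) ^ 2 * (1 + v) = 1 := by
  have hs : HasSubst v := HasSubst.of_constantCoeff_zero' hv
  constructor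
  · rw [← coeff_zero_eq_constantCoeff_apply, coeff_subst' hs, finsum_eq_single _ 0]
    · simp [SqInv_B]
    · intro n hn
      rw [coeff_zero_eq_constantCoeff_apply, map_pow, hv, zero_pow hn, smul_zero]
  · have h := congrArg (fun f : R⟦X⟧ => f.subst v) (SqInv_B_sq h4)
    rw [subst_mul hs, subst_pow hs, subst_add hs, subst_X hs] at h
    have h1 : (1 : R⟦X⟧).subst v = (1 : R⟦X⟧) := by
      have := map_one (substAlgHom (R := R) hs)
      rwa [coe_substAlgHom] at this
    rw [h1] at h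
    exact h

private theorem SqInv_unique {q : R} (h4 : 4 * q = 1) {u a b : R⟦X⟧} (ha : constantCoeff a = 1)
    (hb : constantCoeff b = 1) (hau : a ^ 2 * u = 1) (hbu : b ^ 2 * u = 1) : a = b := by
  have hU : IsUnit (a + b) := SqInv_two h4 (by rw [map_add, ha, hb]; norm_num)
  have h0 : (a - b) * (a + b) = 0 := by
    have : (a ^ 2 - b ^ 2) * u = 0 := by rw [sub_mul, hau, hbu, sub_self]
    linear_combination (a ^ 2) * this - (a ^ 2 - b ^ 2) * hau
  have := (IsUnit.mul_left_eq_zero hU).1 h0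
  exact sub_eq_zero.1 this

theorem sqinv_exists {q : R} (h4 : 4 * q = 1) (u : R⟦X⟧) (hu : constantCoeff u = 1) :
    ∃ ν : R⟦X⟧, constantCoeff ν = 1 ∧ ν ^ 2 * u = 1 := by
  have h := SqInv_subst (v := u - 1) h4 (by rw [map_sub, hu, map_one, sub_self])
  refine ⟨_, h.1, ?_⟩
  have h2 := h.2
  rwa [add_sub_cancel] at h2

/-- Coefficients divisible by `a`: stable under multiplication. -/
private theorem SqInv_dvd_mul {a : R} {f g : R⟦X⟧} (hf : ∀ n, a ∣ coeff n f) (n : ℕ) :
    a ∣ coeff n (f * g) := by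
  rw [coeff_mul]
  exact Finset.dvd_sum fun x _ => Dvd.dvd.mul_right (hf _) _

theorem sqinv_modp {q : R} (h4 : 4 * q = 1) {u ν : R⟦X⟧} {a : R} (hν : constantCoeff ν = 1)
    (h : ν ^ 2 * u = 1) (hu : ∀ n, a ∣ coeff n (u - 1)) (n : ℕ) : a ∣ coeff n (ν - 1) := by
  have hU : IsUnit (ν + 1) := SqInv_two h4 (by rw [map_add, hν, map_one]; norm_num)
  obtain ⟨w, hw⟩ := hU.exists_right_inv
  have key : ν - 1 = (u - 1) * (-(ν ^ 2 * w)) := by
    linear_combination (-(ν - 1)) * hw + w * h
  rw [key]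
  exact SqInv_dvd_mul hu n

theorem sq_unique [IsDomain R] {f g : R⟦X⟧} {n : ℕ} (h2 : (2 : R) * constantCoeff f ≠ 0)
    (hc : constantCoeff f = constantCoeff g)
    (h : (X : R⟦X⟧) ^ (n + 1) ∣ f ^ 2 - g ^ 2) : (X : R⟦X⟧) ^ (n + 1) ∣ f - g := by
  have h' : (X : R⟦X⟧) ^ (n + 1) ∣ (f - g) * (f + g) := by
    have : (f - g) * (f + g) = f ^ 2 - g ^ 2 := by ring
    rwa [this]
  refine X_prime.pow_dvd_of_dvd_mul_right (n + 1) ?_ h'
  intro hX
  apply h2
  rw [X_dvd_iff, map_add, ← hc] at hX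
  linear_combination hX

theorem phi_coeff {q : R} (h4 : 4 * q = 1) (t : R) {Φ : R⟦X⟧} (hΦ : constantCoeff Φ = 1)
    (h : Φ ^ 2 * (1 + C q * X * (1 + C t * X) ^ 2) = 1) (m : ℕ) :
    coeff m Φ = bT q m t := by
  have hv : constantCoeff (C q * X * (1 + C t * X) ^ 2) = 0 := by simp
  have hs : HasSubst (C q * X * (1 + C t * X) ^ 2 : R⟦X⟧) := HasSubst.of_constantCoeff_zero' hv
  have h1 := SqInv_subst h4 hv
  have e : Φ = (SqInv_B q).subst (C q * X * (1 + C t * X) ^ 2) :=
    SqInv_unique h4 hΦ h1.1 h h1.2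
  have hco : ∀ d e : ℕ, coeff e ((1 + C t * X : R⟦X⟧) ^ d) = t ^ e * (d.choose e : R) := by
    intro d e
    have e1 : (1 + C t * X : R⟦X⟧) = rescale t (((1 + Polynomial.X : Polynomial R)) : R⟦X⟧) := by
      rw [Polynomial.coe_add, Polynomial.coe_one, Polynomial.coe_X, map_add, map_one, rescale_X]
    rw [e1, ← map_pow, coeff_rescale, ← Polynomial.coe_pow, Polynomial.coeff_coe,
      Polynomial.coeff_one_add_X_pow]
  have hpow : ∀ d : ℕ, coeff m ((C q * X * (1 + C t * X) ^ 2 : R⟦X⟧) ^ d) =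
      if d ≤ m then q ^ d * (t ^ (m - d) * ((2 * d).choose (m - d) : R)) else 0 := by
    intro d
    rw [mul_pow, mul_pow, ← pow_mul, ← map_pow, mul_assoc, coeff_C_mul, coeff_X_pow_mul']
    split_ifs with hd
    · rw [hco]
    · rw [mul_zero]
  rw [e, coeff_subst' hs, finsum_eq_sum_of_support_subset (s := Finset.range (m + 1))]
  · rw [bT, ← Finset.sum_range_reflect]
    refine Finset.sum_congr rfl fun k hk => ?_
    have hk' : k ≤ m := by
      have := Finset.mem_range.1 hk
      omega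
    have e3 : m + 1 - 1 - k = m - k := by omega
    rw [e3, hpow, if_pos (by omega), SqInv_B, coeff_mk, Nat.centralBinom]
    have e4 : m - (m - k) = k := by omega
    rw [e4, smul_eq_mul, neg_pow q (m - k), pow_mul, pow_two, mul_pow]
    ring
  · intro d hd
    rw [Function.mem_support] at hd
    by_contra hcon
    apply hd
    rw [hpow, if_neg, smul_zero]
    intro hle
    apply hcon
    simp only [Finset.coe_range, Set.mem_Iio]
    omega

end Pool.Agent.MP_2a5e5c_nt
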