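import Pool.Agent.Lib.MP_2a5e5c_nt.SerR
import Pool.Agent.Lib.MP_2a5e5c_nt.CartM
import Pool.Agent.Lib.MP_2a5e5c_nt.Id0
import Pool.Agent.Lib.MP_2a5e5c_nt.Id1
import Pool.Agent.Lib.MP_2a5e5c_nt.Id2

/-!
# SUN, module UnitR: the unit root modulo p²

PROOF. Work in `S = R/(p²)` (`p² = 0` there; images of `q, t, s, lam`). Put
`b = bT q m t`, `B₂, B₃, B₀` the coefficients of `f^(3m+1)` of index `6m+2, 8m+3, 2m`,
`a = (f^m).coeff (2m)`; `H = Hs p t`, `K = Ks p kap t`. `coef_bT, coef_B2, coef_B3` and `id1`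
summed over `k < p = 2m+1`: `H = b - 2B₂ + 2q B₃`. `series_main`, `cartier_main`: `lam b = D(0)`,
`D(0) - 1 = lam (2B₂ - 2q B₃)`: subtract, `lam H = 1` (`lam ≠ 0` since `p ∣ lam a - 1`).
Second claim: `coef_B0` and `id2`: `B₀ = t^(2p) (Y + 2q (K - H))`, `Y = 3B₂ - 2q B₃`, and
`B₀ = s² Y`. Let `t^p = s + p τ`: `t^(2p) = s² + 2 s p τ`, `p (K - H) = 0` (`kap_modp`), so
`2 s p τ Y + 2q s² (K - H) = 0`. `p Y = p (3q a - 2q a) = p q a = p q H` (last claims of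
`cartier_main`; `a = H` modulo `p`: `hasse` in `R/(p)`). So `2 q s (p τ H + s (K - H)) = 0` and
`2q s` is a unit of `S` (`s ≡ t^p`, `t` not divisible by `p`; here units: `hu`), i.e.
`p τ H + s (K - H) = 0`, hence `t^p K = s K + p τ K = s K + p τ H = s H`.
The hypothesis `hu` (elements of `R` not divisible by `p` are units) holds for discrete valuation
rings with uniformiser `p`.
-/

namespace Pool.Agent.MP_2a5e5c_nt

theorem unit_root {R : Type*} [CommRing R] [IsDomain R] [CharZero R] {p m : ℕ}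
    (hp : p.Prime) (h5 : 5 ≤ p) (hm : p = 2 * m + 1) (hpR : Prime (p : R))
    (hu : ∀ x : R, ¬ (p : R) ∣ x → IsUnit x) {q t s lam : R}
    (h4 : 4 * q = 1) {N D : Polynomial R} (h : IsogData R p m q t s (p * lam) N D)
    (ht : ¬ (p : R) ∣ t) {S : Type*} [CommRing S] (π : R →+* S)
    (hπ : ∀ x, (p : R) ^ 2 ∣ x → π x = 0) {kap : ℕ → S} (hkap : IsKap p kap) :
    π lam * Hs p (π t) = 1 ∧ π t ^ p * Ks p kap (π t) = π s * Hs p (π t) := by
  have hP2 : (p : S) ^ 2 = 0 := by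
    have h1 := hπ ((p : R) ^ 2) dvd_rfl
    rwa [map_pow, map_natCast] at h1
  have h4' : 4 * π q = 1 := by
    have h1 := congrArg π h4
    rwa [map_mul, map_one, map_ofNat] at h1
  have hπ1 : ∀ x, (p : R) ∣ x → (p : S) * π x = 0 := by
    rintro x ⟨y, rfl⟩
    rw [map_mul, map_natCast, ← mul_assoc, ← pow_two, hP2, zero_mul]
  have hfc : (fC q t).map π = fC (π q) (π t) := by
    simp [fC]
  have hco : ∀ n M, π ((fC q t ^ n).coeff M) = (fC (π q) (π t) ^ n).coeff M := by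
    intro n M
    rw [← Polynomial.coeff_map, Polynomial.map_pow, hfc]
  obtain ⟨c1, c2, c3, c4, c5⟩ := cartier_main hp h5 hm hpR h4 h
  have hlam : lam ≠ 0 := by
    rintro rfl
    rw [zero_mul, zero_sub] at c3
    exact hpR.not_isUnit (isUnit_of_dvd_one (dvd_neg.1 c3))
  have c0 := series_main hp h5 hm hpR h4 h hlam
  have hbT : π (bT q m t) = bT (π q) m (π t) := by
    simp [bT]
  -- names
  obtain ⟨T, hT⟩ : ∃ T, T = π t := ⟨_, rfl⟩
  obtain ⟨Q, hQ⟩ : ∃ Q, Q = π q := ⟨_, rfl⟩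
  obtain ⟨L, hL⟩ : ∃ L, L = π lam := ⟨_, rfl⟩
  obtain ⟨σ, hσ⟩ : ∃ σ, σ = π s := ⟨_, rfl⟩
  obtain ⟨P, hP⟩ : ∃ P, P = (p : S) := ⟨_, rfl⟩
  obtain ⟨H, hH⟩ : ∃ H, H = Hs p T := ⟨_, rfl⟩
  obtain ⟨K, hK⟩ : ∃ K, K = Ks p kap T := ⟨_, rfl⟩
  obtain ⟨B2, hB2⟩ : ∃ B, B = (fC Q T ^ (3 * m + 1)).coeff (6 * m + 2) := ⟨_, rfl⟩
  obtain ⟨B3, hB3⟩ : ∃ B, B = (fC Q T ^ (3 * m + 1)).coeff (8 * m + 3) := ⟨_, rfl⟩
  obtain ⟨B0, hB0⟩ : ∃ B, B = (fC Q T ^ (3 * m + 1)).coeff (2 * m) := ⟨_, rfl⟩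
  obtain ⟨a, ha⟩ : ∃ a, a = (fC Q T ^ m).coeff (2 * m) := ⟨_, rfl⟩
  obtain ⟨b, hb⟩ : ∃ b, b = bT Q m T := ⟨_, rfl⟩
  have hr : Finset.range (2 * m + 1) = Finset.range p := by rw [hm]
  rw [← hQ] at h4'
  -- the identities of the coefficients
  have hsum1 : H = b - 2 * B2 + 2 * Q * B3 := by
    rw [hH, hb, hB2, hB3, coef_bT, coef_B2, coef_B3, Finset.mul_sum, Finset.mul_sum,
      ← Finset.sum_sub_distrib, ← Finset.sum_add_distrib, hr]
    unfold Hs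
    refine Finset.sum_congr rfl fun k hk => ?_
    rw [id1 hp h5 hm hP2 h4' (Finset.mem_range.1 hk)]
    ring
  have hsum2 : B0 = (T ^ p) ^ 2 * (3 * B2 - 2 * Q * B3 + 2 * Q * (K - H)) := by
    have h1 : T ^ (2 * (2 * m + 1)) = (T ^ p) ^ 2 := by
      rw [← pow_mul, hm, mul_comm]
    rw [hB0, coef_B0, h1]
    congr 1
    rw [hB2, hB3, hK, hH, coef_B2, coef_B3, Ks, Hs, ← Finset.sum_sub_distrib, Finset.mul_sum,
      Finset.mul_sum, Finset.mul_sum, hr, ← Finset.sum_sub_distrib, ← Finset.sum_add_distrib]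
    refine Finset.sum_congr rfl fun k hk => ?_
    rw [id2 hp h5 hm hP2 h4' hkap (Finset.mem_range.1 hk)]
    ring
  -- the congruences
  have e0 : L * b = π (D.coeff 0) := by
    have h1 := hπ _ c0
    rw [map_sub, map_mul, hbT, ← hL, ← hQ, ← hT, ← hb, sub_eq_zero] at h1
    exact h1
  have e1 : π (D.coeff 0) - 1 = L * (2 * B2 - 2 * Q * B3) := by
    have h1 := hπ _ c1
    rw [map_sub, map_sub, map_one, map_mul, map_sub, map_mul, map_mul, map_mul, map_ofNat,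
      hco, hco, ← hL, ← hQ, ← hT, ← hB2, ← hB3, sub_eq_zero] at h1
    exact h1
  have e2 : B0 = σ ^ 2 * (3 * B2 - 2 * Q * B3) := by
    have h1 := hπ _ c2
    rw [map_sub, map_mul, map_pow, map_sub, map_mul, map_mul, map_mul, map_ofNat, map_ofNat,
      hco, hco, hco, ← hσ, ← hQ, ← hT, ← hB2, ← hB3, ← hB0, sub_eq_zero] at h1
    exact h1
  have e3 : P * (L * a - 1) = 0 := by
    have h1 := hπ1 _ c3
    rw [map_sub, map_mul, map_one, hco, ← hL, ← hQ, ← hT, ← ha, ← hP] at h1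
    exact h1
  have e4 : P * (B2 - Q * a) = 0 := by
    have h1 := hπ1 _ c4
    rw [map_sub, map_mul, hco, hco, ← hQ, ← hT, ← ha, ← hB2, ← hP] at h1
    exact h1
  have e5 : P * (B3 - a) = 0 := by
    have h1 := hπ1 _ c5
    rw [map_sub, hco, hco, ← hQ, ← hT, ← ha, ← hB3, ← hP] at h1
    exact h1
  have e6 : P * K = P * H := by
    rw [hK, hH, hP]
    exact kap_modp hp hP2 hkap T
  have hPP : P * P = 0 := by
    rw [hP, ← pow_two]
    exact hP2
  obtain ⟨y, hy⟩ := h.ts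
  obtain ⟨τ, hτ⟩ : ∃ τ, τ = π y := ⟨_, rfl⟩
  have e7 : T ^ p = σ + P * τ := by
    have h1 := congrArg π hy
    rw [map_sub, map_pow, map_mul, map_natCast, ← hT, ← hσ, ← hP, ← hτ] at h1
    linear_combination h1
  have hs : IsUnit σ := by
    rw [hσ]
    refine (hu s fun hps => ht ?_).map π
    refine hpR.dvd_of_dvd_pow (n := p) ?_
    have h1 : t ^ p = (t ^ p - s) + s := by ring
    rw [h1]
    exact dvd_add h.ts hps
  -- first claim
  have f1 : L * H = 1 := by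
    rw [hsum1]
    linear_combination e0 + e1
  have f2 : P * a = P * H := by
    linear_combination -(P * a) * f1 + H * e3
  have f3 : P * (3 * B2 - 2 * Q * B3) = P * (Q * H) := by
    linear_combination 3 * e4 - 2 * Q * e5 + Q * f2
  have f4 : 2 * Q * σ * (P * τ * H + σ * (K - H)) = 0 := by
    have h1 : (σ + P * τ) ^ 2 * (3 * B2 - 2 * Q * B3 + 2 * Q * (K - H)) =
        σ ^ 2 * (3 * B2 - 2 * Q * B3) := by
      rw [← e7, ← hsum2, e2]
    linear_combination h1 - 2 * σ * τ * f3 -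
      (τ ^ 2 * (3 * B2 - 2 * Q * B3 + 2 * Q * (K - H))) * hPP - 4 * Q * σ * τ * e6
  have hQu : IsUnit (2 * Q * σ) := by
    refine IsUnit.mul ?_ hs
    refine IsUnit.of_mul_eq_one 2 ?_
    linear_combination h4'
  have f5 : P * τ * H + σ * (K - H) = 0 := by
    rwa [hQu.mul_right_eq_zero] at f4
  rw [← hL, ← hT, ← hσ, ← hH, ← hK]
  refine ⟨f1, ?_⟩
  rw [e7]
  linear_combination τ * e6 + f5

end Pool.Agent.MP_2a5e5c_nt
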