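import Pool.Agent.Lib.MP_2a5e5c_nt.RedA

/-!
# SUN, module WitR: a complete ring with √41 and √-3

PROOF. `k` an algebraic closure of `ZMod p`, `R = WittVector p k` (`𝕎 k`), `red` =
`WittVector.constantCoeff`. Its kernel is `(p)` (Mathlib:
`WittVector.mem_span_p_iff_coeff_zero_eq_zero`, `WittVector.ker_constantCoeff`-like);
`fac`: `WittVector.exists_eq_pow_p_mul` / `exists_eq_pow_p_mul'`,
`WittVector.isUnit_of_coeff_zero_ne_zero`; characteristic zero: Mathlib instance (`R` is a domain
and `p ≠ 0` in it, or `WittVector.charZero`-like). Square roots: `41 ≠ 0` in `k` (`p ≠ 41`) and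
`-3 ≠ 0`; `k` is algebraically closed, so `X² - 41` and `X² + 3` have simple roots in `k`
(`p ≠ 2`), which lift to `R` by Hensel: `R` is `(p)`-adically complete
(`WittVector.isAdicCompleteIdealSpanP`, hence `HenselianRing` by `IsAdicComplete.henselianRing`).
-/

namespace Pool.Agent.MP_2a5e5c_nt

open Polynomial in
/-- Square roots of elements which do not reduce to zero. -/
theorem WitR_sqrt {p : ℕ} [Fact p.Prime] (h2 : p ≠ 2) {k : Type} [Field k] [CharP k p]
    [IsAlgClosed k] (c : WittVector p k)
    (hc : (WittVector.constantCoeff : WittVector p k →+* k) c ≠ 0) :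
    ∃ r : WittVector p k, r ^ 2 = c := by
  obtain ⟨z, hz⟩ := IsAlgClosed.exists_pow_nat_eq
    ((WittVector.constantCoeff : WittVector p k →+* k) c) (n := 2) (by norm_num)
  obtain ⟨a, ha⟩ := WittVector.constantCoeff_surjective (R := k) p z
  have hf : (X ^ 2 - C c : (WittVector p k)[X]).Monic := monic_X_pow_sub_C c (by norm_num)
  have hz0 : z ≠ 0 := by
    rintro rfl
    apply hc
    rw [← hz]
    ring
  have h20 : (2 : k) ≠ 0 := by
    intro h
    have h' : ((2 : ℕ) : k) = 0 := by exact_mod_cast h
    rw [CharP.cast_eq_zero_iff k p] at h'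
    have hp := (Fact.out : p.Prime)
    exact h2 ((Nat.prime_dvd_prime_iff_eq hp Nat.prime_two).1 h')
  have h1 : (X ^ 2 - C c : (WittVector p k)[X]).eval a ∈ Ideal.span {(p : WittVector p k)} := by
    rw [WittVector.mem_span_p_iff_coeff_zero_eq_zero]
    change (WittVector.constantCoeff : WittVector p k →+* k) _ = 0
    rw [eval_sub, eval_pow, eval_X, eval_C, map_sub, map_pow, ha, hz, sub_self]
  have hu : IsUnit ((X ^ 2 - C c : (WittVector p k)[X]).derivative.eval a) := by
    apply WittVector.isUnit_of_coeff_zero_ne_zero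
    change (WittVector.constantCoeff : WittVector p k →+* k) _ ≠ 0
    rw [derivative_sub, derivative_C, sub_zero, derivative_X_pow, eval_mul, eval_C, eval_pow,
      eval_X, map_mul, map_natCast, map_pow, ha]
    refine mul_ne_zero ?_ (pow_ne_zero _ hz0)
    exact_mod_cast h20
  obtain ⟨r, hr, -⟩ := HenselianRing.is_henselian (I := Ideal.span {(p : WittVector p k)})
    _ hf a h1 (hu.map _)
  refine ⟨r, ?_⟩
  rw [IsRoot, eval_sub, eval_pow, eval_X, eval_C] at hr
  exact sub_eq_zero.1 hr

theorem exists_ring {p : ℕ} (hp : p.Prime) (h5 : 5 ≤ p) (h41 : p ≠ 41) :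
    ∃ (R : Type) (_ : CommRing R) (_ : IsDomain R) (_ : CharZero R) (k : Type) (_ : Field k)
      (_ : CharP k p) (red : R →+* k), RedS (p : R) red ∧
      (∃ r : R, r ^ 2 = 41) ∧ (∃ h : R, h ^ 2 = -3) := by
  have : Fact p.Prime := ⟨hp⟩
  have hint : ∀ n : ℕ, n ≠ 0 → ¬ p ∣ n → ((n : ℕ) : AlgebraicClosure (ZMod p)) ≠ 0 := by
    intro n _ hn h
    exact hn ((CharP.cast_eq_zero_iff _ p n).1 h)
  refine ⟨WittVector p (AlgebraicClosure (ZMod p)), inferInstance, inferInstance, ?_,
    AlgebraicClosure (ZMod p), inferInstance, inferInstance, WittVector.constantCoeff, ?_, ?_, ?_⟩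
  · apply charZero_of_inj_zero
    intro n
    induction n using Nat.strong_induction_on with
    | _ n ih =>
      intro hn
      by_contra h0
      have h1 : ((n : ℕ) : AlgebraicClosure (ZMod p)) = 0 := by
        have := congrArg (WittVector.constantCoeff : WittVector p (AlgebraicClosure (ZMod p)) →+*
          AlgebraicClosure (ZMod p)) hn
        rwa [map_natCast, map_zero] at this
      obtain ⟨m, rfl⟩ := (CharP.cast_eq_zero_iff _ p n).1 h1
      rw [Nat.cast_mul] at hn
      have hm : (m : WittVector p (AlgebraicClosure (ZMod p))) = 0 :=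
        (mul_eq_zero.1 hn).resolve_left (WittVector.p_nonzero p _)
      have hm0 : m ≠ 0 := by
        rintro rfl
        exact h0 (mul_zero _)
      have hlt : m < p * m := by
        have := hp.two_le
        nlinarith [Nat.pos_of_ne_zero hm0]
      exact hm0 (ih m hlt hm)
  · refine ⟨?_, WittVector.p_nonzero p _, ?_⟩
    · intro x
      rw [← Ideal.mem_span_singleton, WittVector.mem_span_p_iff_coeff_zero_eq_zero]
      exact Iff.rfl
    · intro x hx
      obtain ⟨m, b, hb, e⟩ := WittVector.exists_eq_pow_p_mul x hx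
      exact ⟨m, b, WittVector.isUnit_of_coeff_zero_ne_zero b hb, e⟩
  · apply WitR_sqrt (by omega)
    rw [map_ofNat]
    have := hint 41 (by norm_num) (by
      intro h
      exact h41 ((Nat.prime_dvd_prime_iff_eq hp (by norm_num)).1 h))
    exact_mod_cast this
  · apply WitR_sqrt (by omega)
    rw [map_neg, map_ofNat, neg_ne_zero]
    have := hint 3 (by norm_num) (by
      intro h
      have := (Nat.prime_dvd_prime_iff_eq hp (by norm_num)).1 h
      omega)
    exact_mod_cast this

end Pool.Agent.MP_2a5e5c_nt
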