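import Pool.Agent.Lib.MP_2a5e5c_nt.IsoB
import Pool.Agent.Lib.MP_2a5e5c_nt.UnitR
import Pool.Agent.Lib.MP_2a5e5c_nt.WitR

/-!
# SUN, module ValB: the value of the truncated series modulo p² in the case (b)

PROOF. `R, k, red, r, h` from `exists_ring` (`p ≠ 41`: `41` would give `164 = 41x² + 3y²`; here it
is a hypothesis). `2, 3` are units of `R`; `q = 1/4`, `t = (32 - 5r)/1728`, `s = (32 + 5r)/1728`.
`c₁ = (x r + y h)/2`, `c₂ = (x r - y h)/2` satisfy `c₁ c₂ = (41x² + 3y²)/4 = p`, and `p` is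
prime in `R` (`ker`: `R/(p)` embeds in the field `k`), so `p ∣ c₁` or `p ∣ c₂`; replacing `y` by
`-y` we may assume `p ∣ c = c₁`, `c̄ = c₂`, `c c̄ = p`, `c + c̄ = x r`. `iso_b` gives data with
`rho = -e c`. Let `-e c = p lam`. `unit_root` for `S = R ⧸ (p²)`, `π` the quotient map
(`hu`: elements not divisible by `p` are units, from `fac`; `t` is not divisible by `p`:
`t s = -1/1728²`), for every `kap` with `IsKap p kap` in `S`:
`π lam * H = 1`, `t^p K = s H`. `lam c̄ p = -e c c̄ = -e p`, so `lam c̄ = -e`, hence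
`H = -e π c̄` (multiply `π lam * H = 1` by `-e c̄`... : `-e π c̄ = -e π c̄ π lam H = H`).
`c̄² - x r c̄ + p = 0` (roots `c, c̄`), with `c = p (…)`: `c̄ (x r - c̄) = p`. To get
`x r H = -e (41 x² - p)`: `x r c̄ = c̄² + p` and `41x² = (x r)² = (c + c̄)² = c² + 2p + c̄²`, so
`41x² - p = c̄² + p + c² = x r c̄ + c²`, and `c² ` is divisible by `p²`. Injectivity:
`(n : S) = 0` for `n ∈ ℤ` gives `p² ∣ n` in `R`, hence in `ℤ` (`n = p^j n'` with `n'` prime to
`p` is a unit times `p^j` in `R`, and `p` is not a unit). Also `(p : S)² = 0`.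
-/

namespace Pool.Agent.MP_2a5e5c_nt

private theorem ValB_unit {R k : Type*} [CommRing R] [Field k] {ϖ : R} {red : R →+* k}
    (hS : RedS ϖ red) {x : R} (hx : ¬ ϖ ∣ x) : IsUnit x := by
  have h0 : x ≠ 0 := by
    rintro rfl
    exact hx (dvd_zero _)
  obtain ⟨n, u, hu, e⟩ := hS.fac x h0
  rcases Nat.eq_zero_or_pos n with hn | hn
  · rw [hn, pow_zero, one_mul] at e
    rwa [e]
  · exfalso
    apply hx
    rw [e]
    exact (dvd_pow_self ϖ hn.ne').mul_right u

private theorem ValB_prime {R k : Type*} [CommRing R] [Field k] {ϖ : R} {red : R →+* k}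
    (hS : RedS ϖ red) : Prime ϖ := by
  refine ⟨hS.ne, ?_, ?_⟩
  · intro h
    have h1 : red 1 = 0 := (hS.ker 1).2 h.dvd
    rw [map_one] at h1
    exact one_ne_zero h1
  · intro a b hab
    have h1 := (hS.ker _).2 hab
    rw [map_mul] at h1
    rcases mul_eq_zero.1 h1 with h | h
    · exact Or.inl ((hS.ker a).1 h)
    · exact Or.inr ((hS.ker b).1 h)

private theorem ValB_int {R k : Type*} [CommRing R] [Field k] {p : ℕ} [CharP k p]
    {red : R →+* k} (hS : RedS (p : R) red) {n : ℤ} (h : (p : R) ∣ (n : R)) : (p : ℤ) ∣ n := by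
  have h1 := (hS.ker _).2 h
  rw [map_intCast] at h1
  exact (CharP.intCast_eq_zero_iff k p n).1 h1

private theorem ValB_int2 {R k : Type*} [CommRing R] [IsDomain R] [Field k] {p : ℕ} [CharP k p]
    {red : R →+* k} (hS : RedS (p : R) red) {n : ℤ} (h : (p : R) ^ 2 ∣ (n : R)) :
    (p : ℤ) ^ 2 ∣ n := by
  obtain ⟨n', rfl⟩ := ValB_int hS ((dvd_pow_self (p : R) two_ne_zero).trans h)
  have h1 : (p : R) ∣ (n' : R) := by
    obtain ⟨w, hw⟩ := h
    refine ⟨w, mul_left_cancel₀ hS.ne ?_⟩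
    rw [← mul_assoc, ← pow_two, ← hw]
    push_cast
    ring
  rw [pow_two]
  exact mul_dvd_mul_left _ (ValB_int hS h1)

/-- A natural number not divisible by `p` is a unit. -/
private theorem ValB_nat {R k : Type*} [CommRing R] [Field k] {p : ℕ} [CharP k p]
    {red : R →+* k} (hS : RedS (p : R) red) {n : ℕ} (h : ¬ p ∣ n) : IsUnit (n : R) := by
  apply ValB_unit hS
  intro h1
  have h2 := ValB_int (n := (n : ℤ)) hS (by simpa using h1)
  exact h (by exact_mod_cast h2)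

theorem val_b {p : ℕ} (hp : p.Prime) (h5 : 5 ≤ p) (h41 : p ≠ 41) {x y : ℤ}
    (hxy : 4 * (p : ℤ) = 41 * x ^ 2 + 3 * y ^ 2) {e : ℤ} (he : e = 1 ∨ e = -1)
    (hex : (3 : ℤ) ∣ x - e) :
    ∃ (S : Type) (_ : CommRing S), (p : S) ^ 2 = 0 ∧
      (∀ n : ℤ, (n : S) = 0 → (p : ℤ) ^ 2 ∣ n) ∧
      ∃ r t s : S, r ^ 2 = 41 ∧ 1728 * t = 32 - 5 * r ∧ 1728 * s = 32 + 5 * r ∧
        x * r * Hs p t = -(e : S) * (41 * x ^ 2 - p) ∧
        ∀ kap : ℕ → S, IsKap p kap → t ^ p * Ks p kap t = s * Hs p t := by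
  obtain ⟨R, _, _, _, k, _, _, red, hS, ⟨r, hr⟩, ⟨h, hh⟩⟩ := exists_ring hp h5 h41
  have hpR : Prime (p : R) := ValB_prime hS
  have hu : ∀ z : R, ¬ (p : R) ∣ z → IsUnit z := fun z hz => ValB_unit hS hz
  obtain ⟨m, hm⟩ : ∃ m, p = 2 * m + 1 := hp.odd_of_ne_two (by omega)
  have hn2 : ¬ p ∣ 2 := fun h => by have := Nat.le_of_dvd (by norm_num) h; omega
  have hn3 : ¬ p ∣ 3 := fun h => by have := Nat.le_of_dvd (by norm_num) h; omega
  have u2 : IsUnit (2 : R) := by exact_mod_cast ValB_nat (n := 2) hS hn2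
  have u3 : IsUnit (3 : R) := by exact_mod_cast ValB_nat (n := 3) hS hn3
  obtain ⟨i2, hi2⟩ := u2.exists_right_inv
  obtain ⟨i3, hi3⟩ := u3.exists_right_inv
  -- the constants
  obtain ⟨q, hq⟩ : ∃ q : R, 4 * q = 1 := ⟨i2 ^ 2, by linear_combination (2 * i2 + 1) * hi2⟩
  obtain ⟨t, ht0⟩ : ∃ t : R, 1728 * t = 32 - 5 * r := by
    refine ⟨i2 ^ 6 * i3 ^ 3 * (32 - 5 * r), ?_⟩
    have h2 : (2 : R) ^ 6 * i2 ^ 6 = 1 := by rw [← mul_pow, hi2, one_pow]
    have h3 : (3 : R) ^ 3 * i3 ^ 3 = 1 := by rw [← mul_pow, hi3, one_pow]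
    linear_combination (27 * i3 ^ 3 * (32 - 5 * r)) * h2 + (32 - 5 * r) * h3
  obtain ⟨s, hs0⟩ : ∃ s : R, 1728 * s = 32 + 5 * r := by
    refine ⟨i2 ^ 6 * i3 ^ 3 * (32 + 5 * r), ?_⟩
    have h2 : (2 : R) ^ 6 * i2 ^ 6 = 1 := by rw [← mul_pow, hi2, one_pow]
    have h3 : (3 : R) ^ 3 * i3 ^ 3 = 1 := by rw [← mul_pow, hi3, one_pow]
    linear_combination (27 * i3 ^ 3 * (32 + 5 * r)) * h2 + (32 + 5 * r) * h3
  have ht : ¬ (p : R) ∣ t := by
    intro hd
    apply hpR.not_isUnit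
    have h1 : (p : R) ∣ -1 := by
      have h2 : (-1 : R) = t * (1728 * (32 + 5 * r)) := by
        linear_combination (-(32 + 5 * r)) * ht0 + 25 * hr
      rw [h2]
      exact hd.mul_right _
    exact isUnit_of_dvd_one ((dvd_neg).1 h1)
  -- the factor divisible by `p`
  have hxyR : (4 : R) * p = 41 * x ^ 2 + 3 * y ^ 2 := by
    exact_mod_cast congrArg (Int.cast : ℤ → R) hxy
  obtain ⟨y', c, c', hxy', hc, hc', hpc⟩ : ∃ (y' : ℤ) (c c' : R),
      4 * (p : ℤ) = 41 * x ^ 2 + 3 * y' ^ 2 ∧ 2 * c = x * r + y' * h ∧ 2 * c' = x * r - y' * h ∧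
      (p : R) ∣ c := by
    have e1 : 2 * (i2 * (x * r + y * h)) = x * r + y * h := by
      linear_combination (x * r + y * h) * hi2
    have e2 : 2 * (i2 * (x * r - y * h)) = x * r - y * h := by
      linear_combination (x * r - y * h) * hi2
    have e3 : (i2 * (x * r + y * h)) * (i2 * (x * r - y * h)) = p := by
      have h4 : (4 : R) ≠ 0 := by norm_num
      apply mul_left_cancel₀ h4
      calc (4 : R) * ((i2 * (x * r + y * h)) * (i2 * (x * r - y * h)))
          = (2 * (i2 * (x * r + y * h))) * (2 * (i2 * (x * r - y * h))) := by ring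
        _ = (x * r + y * h) * (x * r - y * h) := by rw [e1, e2]
        _ = 4 * p := by
            rw [hxyR]
            linear_combination (x : R) ^ 2 * hr - (y : R) ^ 2 * hh
    rcases hpR.dvd_or_dvd (dvd_of_eq e3.symm) with hd | hd
    · exact ⟨y, _, _, hxy, e1, e2, hd⟩
    · refine ⟨-y, i2 * (x * r - y * h), i2 * (x * r + y * h), by rw [hxy]; ring, ?_, ?_, hd⟩
      · rw [e2]
        push_cast
        ring
      · rw [e1]
        push_cast
        ring
  have hxyR' : (4 : R) * p = 41 * x ^ 2 + 3 * y' ^ 2 := by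
    exact_mod_cast congrArg (Int.cast : ℤ → R) hxy'
  have h4R : (4 : R) ≠ 0 := by norm_num
  have h2R : (2 : R) ≠ 0 := by norm_num
  have hcc : c * c' = p := by
    apply mul_left_cancel₀ h4R
    calc (4 : R) * (c * c') = (2 * c) * (2 * c') := by ring
      _ = (x * r + y' * h) * (x * r - y' * h) := by rw [hc, hc']
      _ = 4 * p := by
          rw [hxyR']
          linear_combination (x : R) ^ 2 * hr - (y' : R) ^ 2 * hh
  have hsum : c + c' = x * r := by
    apply mul_left_cancel₀ h2R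
    linear_combination hc + hc'
  obtain ⟨d, hd⟩ := hpc
  have hee : (e : R) ^ 2 = 1 := by
    rcases he with rfl | rfl <;> norm_num
  obtain ⟨N, D, hID⟩ := iso_b hp h5 hm hS hr hh hq ht0 hs0 hxy' hc ⟨d, hd⟩ he hex
  have hID' : IsogData R p m q t s (p * (-e * d)) N D := by
    have h1 : ((-e : ℤ) : R) * c = p * (-e * d) := by
      rw [hd]
      push_cast
      ring
    rwa [h1] at hID
  have hdc : d * c' = 1 := by
    apply mul_left_cancel₀ hS.ne
    rw [← mul_assoc, ← hd, hcc, mul_one]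
  -- the quotient
  let π : R →+* R ⧸ Ideal.span {(p : R) ^ 2} := Ideal.Quotient.mk _
  have hπ : ∀ z, (p : R) ^ 2 ∣ z → π z = 0 := fun z hz =>
    Ideal.Quotient.eq_zero_iff_mem.2 (Ideal.mem_span_singleton.2 hz)
  have hπ' : ∀ z, π z = 0 → (p : R) ^ 2 ∣ z := fun z hz =>
    Ideal.mem_span_singleton.1 (Ideal.Quotient.eq_zero_iff_mem.1 hz)
  have hP2 : (p : R ⧸ Ideal.span {(p : R) ^ 2}) ^ 2 = 0 := by
    have h1 := hπ ((p : R) ^ 2) dvd_rfl
    rwa [map_pow, map_natCast] at h1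
  refine ⟨R ⧸ Ideal.span {(p : R) ^ 2}, inferInstance, hP2, ?_, π r, π t, π s,
    ?_, ?_, ?_, ?_, ?_⟩
  · intro n hn
    apply ValB_int2 hS
    apply hπ'
    rwa [map_intCast]
  · rw [← map_pow, hr, map_ofNat]
  · have h1 := congrArg π ht0
    rwa [map_mul, map_sub, map_mul, map_ofNat, map_ofNat, map_ofNat] at h1
  · have h1 := congrArg π hs0
    rwa [map_mul, map_add, map_mul, map_ofNat, map_ofNat, map_ofNat] at h1
  · obtain ⟨kap, hk⟩ := kap_exists hp hP2
    have h1 := (unit_root hp h5 hm hpR hu hq hID' ht π hπ hk).1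
    have h2 : Hs p (π t) = π (-e * c') := by
      have h3 : π (-e * c') * π (-e * d) = 1 := by
        rw [← map_mul, ← map_one π]
        congr 1
        linear_combination (d * c') * hee + hdc
      calc Hs p (π t) = (π (-e * c') * π (-e * d)) * Hs p (π t) := by rw [h3, one_mul]
        _ = π (-e * c') * (π (-e * d) * Hs p (π t)) := by ring
        _ = π (-e * c') := by rw [h1, mul_one]
    have h5 : π (x * r * (-e * c') - -e * (41 * x ^ 2 - p)) = 0 := by
      apply hπ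
      refine ⟨e * d ^ 2, ?_⟩
      have h6 : (p : R) ^ 2 * (e * d ^ 2) = e * c ^ 2 := by rw [hd]; ring
      rw [h6, ← hcc]
      linear_combination (-(e : R)) * (x * r + c) * hsum - (e : R) * x ^ 2 * hr
    rw [h2]
    simp only [map_mul, map_sub, map_neg, map_pow, map_intCast, map_natCast,
      map_ofNat] at h5 ⊢
    linear_combination h5
  · intro kap hk
    exact (unit_root hp h5 hm hpR hu hq hID' ht π hπ hk).2

end Pool.Agent.MP_2a5e5c_nt
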