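import Pool.Agent.Lib.MP_2a5e5c_nt.Defs

/-!
# SUN, module Z4: computable arithmetic in ℤ[r, h], r² = 41, h² = -3, and polynomials over it

An element `(a, b, c, d)` of `ℤ⁴` stands for `a + b r + c h + d r h`; a polynomial is the list of
its coefficients, constant term first. `ev`, `evL` are the values in a commutative ring with
elements `r, h`.

PROOF. Direct: `ev` is additive and multiplicative by `hr, hh` (`push_cast`,
`linear_combination`); the list functions by induction on the lists.
-/

namespace Pool.Agent.MP_2a5e5c_nt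

open Polynomial

/-- Integer quadruples. -/
abbrev Q4 := ℤ × ℤ × ℤ × ℤ

/-- Addition. -/
def q4add (x y : Q4) : Q4 := (x.1 + y.1, x.2.1 + y.2.1, x.2.2.1 + y.2.2.1, x.2.2.2 + y.2.2.2)

/-- Multiplication. -/
def q4mul (x y : Q4) : Q4 :=
  (x.1 * y.1 + 41 * (x.2.1 * y.2.1) - 3 * (x.2.2.1 * y.2.2.1) - 123 * (x.2.2.2 * y.2.2.2),
   x.1 * y.2.1 + x.2.1 * y.1 - 3 * (x.2.2.1 * y.2.2.2) - 3 * (x.2.2.2 * y.2.2.1),
   x.1 * y.2.2.1 + x.2.2.1 * y.1 + 41 * (x.2.1 * y.2.2.2) + 41 * (x.2.2.2 * y.2.1),
   x.1 * y.2.2.2 + x.2.2.2 * y.1 + x.2.1 * y.2.2.1 + x.2.2.1 * y.2.1)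

/-- Value. -/
def ev {A : Type*} [CommRing A] (r h : A) (x : Q4) : A :=
  (x.1 : A) + (x.2.1 : A) * r + (x.2.2.1 : A) * h + (x.2.2.2 : A) * (r * h)

/-- Sum of polynomials. -/
def ladd : List Q4 → List Q4 → List Q4
  | [], m => m
  | l, [] => l
  | a :: l, b :: m => q4add a b :: ladd l m

/-- Scalar multiple. -/
def lsm (a : Q4) (l : List Q4) : List Q4 := l.map (q4mul a)

/-- Product of polynomials. -/
def lmul : List Q4 → List Q4 → List Q4
  | [], _ => []
  | a :: l, m => ladd (lsm a m) ((0, 0, 0, 0) :: lmul l m)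

/-- Derivative: `n` is the exponent of the first coefficient. -/
def lderAux : ℕ → List Q4 → List Q4
  | _, [] => []
  | n, a :: l => q4mul ((n : ℤ), 0, 0, 0) a :: lderAux (n + 1) l

/-- Derivative. -/
def lder (l : List Q4) : List Q4 := lderAux 1 l.tail

/-- Value of a list as a polynomial. -/
noncomputable def evL {A : Type*} [CommRing A] (r h : A) : List Q4 → A[X]
  | [] => 0
  | a :: l => C (ev r h a) + X * evL r h l

variable {A : Type*} [CommRing A] {r h : A}

theorem ev_add (x y : Q4) : ev r h (q4add x y) = ev r h x + ev r h y := by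
  simp only [ev, q4add]
  push_cast
  ring

theorem ev_mul (hr : r ^ 2 = 41) (hh : h ^ 2 = -3) (x y : Q4) :
    ev r h (q4mul x y) = ev r h x * ev r h y := by
  obtain ⟨a, b, c, d⟩ := x
  obtain ⟨a', b', c', d'⟩ := y
  simp only [ev, q4mul]
  push_cast
  linear_combination (-((b : A) * b' + d * d' * h ^ 2 + (b * d' + d * b') * h)) * hr +
    (-((c : A) * c' + 41 * (d * d') + (c * d' + d * c') * r)) * hh

private theorem Z4_ev_zero : ev r h (0, 0, 0, 0) = 0 := by
  simp [ev]

theorem evL_add (l m : List Q4) : evL r h (ladd l m) = evL r h l + evL r h m := by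
  induction l generalizing m with
  | nil => simp [ladd, evL]
  | cons a l ih =>
    cases m with
    | nil => simp [ladd, evL]
    | cons b m =>
      simp only [ladd, evL, ih, ev_add, C_add]
      ring

theorem evL_sm (hr : r ^ 2 = 41) (hh : h ^ 2 = -3) (a : Q4) (l : List Q4) :
    evL r h (lsm a l) = C (ev r h a) * evL r h l := by
  induction l with
  | nil => simp [lsm, evL]
  | cons b l ih =>
    have e : lsm a (b :: l) = q4mul a b :: lsm a l := rfl
    rw [e]
    simp only [evL, ih, ev_mul hr hh, C_mul]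
    ring

theorem evL_mul (hr : r ^ 2 = 41) (hh : h ^ 2 = -3) (l m : List Q4) :
    evL r h (lmul l m) = evL r h l * evL r h m := by
  induction l with
  | nil => simp [lmul, evL]
  | cons a l ih =>
    simp only [lmul, evL_add, evL_sm hr hh, evL, ih, Z4_ev_zero, C_0]
    ring

private theorem Z4_derAux (hr : r ^ 2 = 41) (hh : h ^ 2 = -3) (l : List Q4) :
    ∀ n : ℕ, evL r h (lderAux n l) = (n : A[X]) * evL r h l + X * derivative (evL r h l) := by
  induction l with
  | nil => intro n; simp [lderAux, evL]
  | cons a l ih =>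
    intro n
    have e : ev r h ((n : ℤ), 0, 0, 0) = (n : A) := by simp [ev]
    simp only [lderAux, evL, ih, ev_mul hr hh, e, derivative_add, derivative_C, derivative_mul,
      derivative_X, C_mul, map_natCast]
    push_cast
    ring

theorem evL_der (hr : r ^ 2 = 41) (hh : h ^ 2 = -3) (l : List Q4) :
    evL r h (lder l) = derivative (evL r h l) := by
  cases l with
  | nil => simp [lder, lderAux, evL]
  | cons a l =>
    have e : lder (a :: l) = lderAux 1 l := rfl
    rw [e, Z4_derAux hr hh]
    simp only [evL, derivative_add, derivative_C, derivative_mul, derivative_X]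
    push_cast
    ring

theorem evL_coeff (l : List Q4) (n : ℕ) : (evL r h l).coeff n = ev r h (l.getD n (0, 0, 0, 0)) := by
  induction l generalizing n with
  | nil => simp [evL, Z4_ev_zero]
  | cons a l ih =>
    cases n with
    | zero => simp [evL]
    | succ n => simp [evL, ih]

theorem evL_natDegree (l : List Q4) (n : ℕ) (hl : l.length = n + 1) :
    (evL r h l).natDegree ≤ n := by
  rw [natDegree_le_iff_coeff_eq_zero]
  intro N hN
  rw [evL_coeff, List.getD_eq_default _ _ (by omega), Z4_ev_zero]

end Pool.Agent.MP_2a5e5c_nt
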